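import Mathlib
import Pool.Agent.Lib.MP_d57abb_nt.Basic
import Pool.Agent.Lib.MP_2a816b_nt.Expo

/-!
# MR: definitions

`O = ℤ[α]`, `α² = 3 α - 1`, `α = (3 + √5) / 2` (the ring of integers of `ℚ(√5)`), norm `N (x + y α) = x² + 3 x y + y²`.
`s1`, `s2` are the two real embeddings, `TP` = totally positive, `An = log (s1 / s2)`, `per = 2 log α = An α`.
`om = α` is a unit, `N om = 1`, and generates the totally positive units.
`Qd v`: `v = a + b α` with `a ≥ 1`, `b ≥ 0` (`0 ≤ An v < per`): every totally positive element is `om ^ k * v` for exactly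
one such `v`.  `V Y`: these vectors of norm at most `Y`; `V' Y`: the primitive ones.
-/

namespace Pool.Agent.Lib.MP_d57abb_nt.MR

open Pool.Agent.Lib.MP_d57abb_nt (al be)
open Pool.Agent.Lib.MP_2a816b_nt (e)

/-- the ring `ℤ[α]`, `α² = 3 α - 1` -/
abbrev O := QuadraticAlgebra ℤ (-1) 3

/-- first real embedding -/
noncomputable def s1 (x : O) : ℝ := x.re + x.im * al
/-- second real embedding -/
noncomputable def s2 (x : O) : ℝ := x.re + x.im * be
/-- norm -/
def N (x : O) : ℤ := x.re ^ 2 + 3 * x.re * x.im + x.im ^ 2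
/-- totally positive -/
def TP (x : O) : Prop := 0 < s1 x ∧ 0 < s2 x
/-- angle -/
noncomputable def An (x : O) : ℝ := Real.log (s1 x) - Real.log (s2 x)
/-- the period of the angle -/
noncomputable def per : ℝ := 2 * Real.log al
/-- the generator of the totally positive units -/
def om : O := ⟨0, 1⟩
/-- the generator as a unit -/
def omu : Oˣ := ⟨⟨0, 1⟩, ⟨3, -1⟩, by ext <;> simp [QuadraticAlgebra.re_one, QuadraticAlgebra.im_one],
  by ext <;> simp [QuadraticAlgebra.re_one, QuadraticAlgebra.im_one]⟩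
/-- the quadrant -/
def Qd (x : O) : Prop := 1 ≤ x.re ∧ 0 ≤ x.im
/-- primitive -/
def Pm (x : O) : Prop := IsCoprime x.re x.im

instance : DecidablePred Qd := fun x => inferInstanceAs (Decidable (1 ≤ x.re ∧ 0 ≤ x.im))
instance : DecidablePred Pm := fun x => inferInstanceAs (Decidable (IsCoprime x.re x.im))
instance : DecidableEq O := fun x y =>
  decidable_of_iff (x.re = y.re ∧ x.im = y.im) ⟨fun h => QuadraticAlgebra.ext h.1 h.2, fun h => h ▸ ⟨rfl, rfl⟩⟩

open Classical in
/-- the vectors of the quadrant of norm at most `Y` -/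
noncomputable def V (Y : ℝ) : Finset O :=
  (((Finset.Icc (1 : ℤ) ⌊Y⌋) ×ˢ (Finset.Icc (0 : ℤ) ⌊Y⌋)).image (fun p => (⟨p.1, p.2⟩ : O))).filter
    (fun x => (N x : ℝ) ≤ Y)

/-- the primitive vectors of the quadrant of norm at most `Y` -/
noncomputable def V' (Y : ℝ) : Finset O := (V Y).filter Pm

/-- elements of the quadrant of prime norm not dividing `D` -/
def Dg (D : ℕ) (p : O) : Prop := Qd p ∧ (N p).natAbs.Prime ∧ ¬ (N p).natAbs ∣ D

instance (D : ℕ) : DecidablePred (Dg D) := fun p =>
  inferInstanceAs (Decidable (Qd p ∧ (N p).natAbs.Prime ∧ ¬ (N p).natAbs ∣ D))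

/-- the prime elements of degree one and norm at most `z`, prime to `D` -/
noncomputable def PP (D : ℕ) (z : ℝ) : Finset O := (V z).filter (Dg D)

/-- one of each pair of conjugate prime elements -/
noncomputable def PS (D : ℕ) (z : ℝ) : Finset O := (PP D z).filter (fun x => x.im < x.re)

/-- the harmonics -/
noncomputable def E (t : ℝ) (j : ℤ) (x : O) : ℂ := e ((j + t) * An x / per)

/-- the number of elements of `S` dividing `v` -/
noncomputable def om_ (S : Finset O) (v : O) : ℝ := by
  classical exact ((S.filter (fun p => p ∣ v)).card : ℝ)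

/-- the mass of a set of elements -/
noncomputable def mass (S : Finset O) : ℝ := ∑ p ∈ S, 1 / (N p : ℝ)

/-- The data: `a` is the multiplicative function (times a function on residue classes), `f` its values at
primes, both without the angular part; `t` is the shift of the frequencies. -/
structure Dat where
  a : O → ℂ
  f : O → ℂ
  t : ℝ
  D : ℕ
  Q : ℕ
  D0 : 0 < D
  D5 : 5 ∣ D
  Q0 : 0 < Q
  a_le : ∀ x, ‖a x‖ ≤ 1
  f_pow : ∀ p, Dg D p → f p ^ Q = 1
  t_int : ∃ n : ℤ, (Q : ℝ) * t = n
  mul : ∀ p x, Dg D p → TP x → a (p * x) = f p * a x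
  unit : ∀ x, TP x → a (om * x) = e (-t) * a x

/-- the values at primes -/
noncomputable def Dat.F (d : Dat) (j : ℤ) (p : O) : ℂ := d.f p * E d.t j p

/-- the Fourier coefficients -/
noncomputable def Dat.c (d : Dat) (j : ℤ) (Y : ℝ) : ℂ := (1 / Y : ℝ) * ∑ v ∈ V' Y, d.a v * E d.t j v

/-- the frequencies -/
noncomputable def Fr (T : ℝ) : Finset ℤ := Finset.Icc (-⌊T⌋) ⌊T⌋

end Pool.Agent.Lib.MP_d57abb_nt.MR
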