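import Mathlib
import Pool.Agent.Lib.MP_d57abb_nt.MR.Defs

/-!
# The hypothesis and the conclusion of the energy theorem
-/

namespace Pool.Agent.Lib.MP_d57abb_nt.MR

open Classical in
/-- if the shift is an integer, then the values at the primes differ from `1` on a set of infinite mass -/
def NP (d : Dat) : Prop :=
  (∃ n : ℤ, d.t = n) → ∀ B : ℝ, ∃ z : ℝ, B ≤ ∑ p ∈ (PP d.D z).filter (fun p => d.f p ≠ 1), 1 / (N p : ℝ)

/-- the bound for the energy of the Fourier coefficients -/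
def EB (d : Dat) : Prop :=
  ∀ ε : ℝ, 0 < ε → ∃ A0 : ℝ, ∀ A : ℝ, A0 ≤ A → ∃ X0 : ℝ, ∀ X : ℝ, X0 ≤ X →
    ∑ j ∈ Fr (X / A), ‖d.c j X‖ ^ 2 ≤ ε

end Pool.Agent.Lib.MP_d57abb_nt.MR
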