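import Mathlib
import Pool.Agent.Lib.MP_d57abb_nt.MR.NPd

/-!
# CHAR, definitions: residue classes modulo `W` and characters of the units

`RW W = (ℤ/W)[α]`, `α² = 3 α - 1`; `red W : O → RW W` the reduction; `nm` the norm of `RW W` (Mathlib `QuadraticAlgebra.norm`), a monoid homomorphism
to `ZMod W`.  The characters of the unit group are the elements of `MulChar (RW W) ℂ` (Mathlib: `0` outside of the units).
`psi χ a x = (1/#units) ∑_{g unit, x = g a} χ g`: the component of the indicator of `{a}` on which the units act by `χ`.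
-/

namespace Pool.Agent.Lib.MP_d57abb_nt.MR

/-- the residue ring -/
abbrev RW (W : ℕ) := QuadraticAlgebra (ZMod W) (-1) 3

noncomputable instance instFintypeRW (W : ℕ) [NeZero W] : Fintype (RW W) :=
  Fintype.ofEquiv (ZMod W × ZMod W) (QuadraticAlgebra.equivProd (-1) 3).symm

noncomputable instance instFintypeRWu (W : ℕ) [NeZero W] : Fintype (RW W)ˣ := Fintype.ofFinite _

noncomputable instance instFintypeRWc (W : ℕ) [NeZero W] : Fintype (MulChar (RW W) ℂ) := Fintype.ofFinite _

/-- reduction modulo `W` -/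
def red (W : ℕ) : O →+* RW W where
  toFun x := ⟨x.re, x.im⟩
  map_one' := by ext <;> simp [QuadraticAlgebra.re_one, QuadraticAlgebra.im_one]
  map_mul' x y := by ext <;> simp
  map_zero' := by ext <;> simp
  map_add' x y := by ext <;> simp

theorem red_re (W : ℕ) (x : O) : (red W x).re = (x.re : ZMod W) := rfl
theorem red_im (W : ℕ) (x : O) : (red W x).im = (x.im : ZMod W) := rfl

/-- the norm -/
def nm {W : ℕ} (x : RW W) : ZMod W := QuadraticAlgebra.norm x

/-- the embedding of the residue classes of the integers -/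
def cst {W : ℕ} (c : ZMod W) : RW W := ⟨c, 0⟩

/-- the residue classes which are `1` or `4` modulo `5` -/
def Five {W : ℕ} (c : ZMod W) : Prop := ∀ n : ℕ, (n : ZMod W) = c → n % 5 = 1 ∨ n % 5 = 4

open Classical in
/-- the component of the indicator of `a` on which the units act by `χ` -/
noncomputable def psi {W : ℕ} [NeZero W] (χ : MulChar (RW W) ℂ) (a x : RW W) : ℂ :=
  (∑ g : (RW W)ˣ, if x = (g : RW W) * a then χ (g : RW W) else 0) / (Nat.card (RW W)ˣ : ℂ)

/-- the bound for the sums over sectors -/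
def SB (d : Dat) : Prop :=
  ∀ ε : ℝ, 0 < ε → ∃ A0 : ℝ, ∀ A : ℝ, A0 ≤ A → ∃ X0 : ℝ, ∀ X : ℝ, X0 ≤ X →
    ∫ θ in (0 : ℝ)..per, ‖∑ v ∈ (V' X).filter (fun v => θ ≤ An v ∧ An v < θ + A / X), d.a v‖ ^ 2 ≤ ε * A ^ 2

end Pool.Agent.Lib.MP_d57abb_nt.MR
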