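import Mathlib
import Pool.Agent.Lib.MP_d57abb_nt.MR.Defs

/-!
# JOB Bas: basic facts on the ring `O`

All are direct computations.  Useful facts of `Pool.Agent.Lib.MP_d57abb_nt.Basic`: `al_add_be`, `al_mul_be`, `al_sub_be`, `al_sq`, `be_sq`,
`al_lo`, `al_hi`, `be_lo`, `be_hi`, `sqrt5_sq`.  Multiplication in `O`: `QuadraticAlgebra.re_mul`, `im_mul` (simp), `star ⟨x, y⟩ = ⟨x + 3 y, -y⟩`
(`QuadraticAlgebra.re_star`, `im_star`), `QuadraticAlgebra.re_one`, `im_one`, `re_natCast`, `im_natCast`.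
* `s1_mul`: `(x + y al)(x' + y' al) = (x x' - y y') + (x y' + x' y + 3 y y') al` as `al² = 3 al - 1`.
* `N_eq`: `s1 x * s2 x = x² + 3 x y + y²` as `al + be = 3`, `al be = 1`.
* `An_mul`: `Real.log_mul`.  `Qd.tp`: `re ≥ 1`, `im ≥ 0`, `al, be > 0`.
* `Qd.An_nonneg`: `s2 x ≤ s1 x`.  `Qd.An_lt`: `s1 x * be < s2 x * al`, because `(x + y al) be = x be + y`, `(x + y be) al = x al + y`, `x > 0`; take logarithms,
  `log be = - log al`.
* `Qd_of_An`: from `An x ≥ 0`: `s1 x ≥ s2 x`, `im (al - be) ≥ 0`, `im ≥ 0`.  From `An x < per`: `s1 x * be < s2 x * al`, so `re * be < re * al`, `re > 0`.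
* `mem_V`: for `Qd x`: `re ≤ re² ≤ N x ≤ Y` and `im ≤ im² ≤ N x`, so both are `≤ ⌊Y⌋` (`Int.le_floor`).
* powers of `omu`: `zpow` induction (`Int.induction_on`) or: `s1 ∘ coe : Oˣ →* ℝ`; both `((omu ^ k : Oˣ) : O)` and its inverse; `TP` of `omu⁻¹ = ⟨3, -1⟩`:
  `3 - al = be > 0`, `3 - be = al > 0`.
* `Qd_V'` etc. are unfoldings.
-/

namespace Pool.Agent.Lib.MP_d57abb_nt.MR

open Pool.Agent.Lib.MP_d57abb_nt (al be)
open Pool.Agent.Lib.MP_2a816b_nt (e)

private theorem Bas_re1 : (1 : O).re = 1 := rfl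
private theorem Bas_im1 : (1 : O).im = 0 := rfl
private theorem Bas_star_re (x : O) : (star x).re = x.re + 3 * x.im := by
  rw [QuadraticAlgebra.re_star]
private theorem Bas_star_im (x : O) : (star x).im = - x.im := by
  rw [QuadraticAlgebra.im_star]
private theorem Bas_mul_re (x y : O) : (x * y).re = x.re * y.re - x.im * y.im := by
  rw [QuadraticAlgebra.re_mul]; ring
private theorem Bas_mul_im (x y : O) : (x * y).im = x.re * y.im + x.im * y.re + 3 * (x.im * y.im) := by
  rw [QuadraticAlgebra.im_mul]; ring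
private theorem Bas_al_pos : 0 < al := by linarith [Pool.Agent.Lib.MP_d57abb_nt.al_lo]
private theorem Bas_be_pos : 0 < be := by linarith [Pool.Agent.Lib.MP_d57abb_nt.be_lo]
private theorem Bas_be_lt : be < al := by
  linarith [Pool.Agent.Lib.MP_d57abb_nt.be_hi, Pool.Agent.Lib.MP_d57abb_nt.al_lo]

theorem s1_mul (x y : O) : s1 (x * y) = s1 x * s1 y := by
  unfold s1
  rw [Bas_mul_re, Bas_mul_im]
  push_cast
  have h := Pool.Agent.Lib.MP_d57abb_nt.al_sq
  linear_combination (-(x.im : ℝ) * (y.im : ℝ)) * h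
theorem s2_mul (x y : O) : s2 (x * y) = s2 x * s2 y := by
  unfold s2
  rw [Bas_mul_re, Bas_mul_im]
  push_cast
  have h := Pool.Agent.Lib.MP_d57abb_nt.be_sq
  linear_combination (-(x.im : ℝ) * (y.im : ℝ)) * h
theorem s1_one : s1 1 = 1 := by
  unfold s1
  rw [Bas_re1, Bas_im1]
  simp
theorem s2_one : s2 1 = 1 := by
  unfold s2
  rw [Bas_re1, Bas_im1]
  simp
theorem s1_add (x y : O) : s1 (x + y) = s1 x + s1 y := by
  unfold s1
  rw [QuadraticAlgebra.re_add, QuadraticAlgebra.im_add]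
  push_cast
  ring
theorem s2_add (x y : O) : s2 (x + y) = s2 x + s2 y := by
  unfold s2
  rw [QuadraticAlgebra.re_add, QuadraticAlgebra.im_add]
  push_cast
  ring
theorem s1_star (x : O) : s1 (star x) = s2 x := by
  unfold s1 s2
  rw [Bas_star_re, Bas_star_im]
  push_cast
  have h := Pool.Agent.Lib.MP_d57abb_nt.al_add_be
  linear_combination (-(x.im : ℝ)) * h
theorem s2_star (x : O) : s2 (star x) = s1 x := by
  unfold s1 s2
  rw [Bas_star_re, Bas_star_im]
  push_cast
  have h := Pool.Agent.Lib.MP_d57abb_nt.al_add_be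
  linear_combination (-(x.im : ℝ)) * h
theorem s1_natCast (n : ℕ) : s1 (n : O) = n := by
  unfold s1
  rw [QuadraticAlgebra.re_natCast, QuadraticAlgebra.im_natCast]
  simp
theorem s2_natCast (n : ℕ) : s2 (n : O) = n := by
  unfold s2
  rw [QuadraticAlgebra.re_natCast, QuadraticAlgebra.im_natCast]
  simp
theorem N_eq (x : O) : (N x : ℝ) = s1 x * s2 x := by
  unfold N s1 s2
  push_cast
  have h := Pool.Agent.Lib.MP_d57abb_nt.al_add_be
  have h2 := Pool.Agent.Lib.MP_d57abb_nt.al_mul_be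
  linear_combination (-(x.im : ℝ) * x.re) * h - (x.im : ℝ) ^ 2 * h2
theorem N_mul (x y : O) : N (x * y) = N x * N y := by
  unfold N
  rw [Bas_mul_re, Bas_mul_im]
  ring
theorem N_one : N 1 = 1 := by
  unfold N
  rw [Bas_re1, Bas_im1]
  norm_num
theorem N_star (x : O) : N (star x) = N x := by
  unfold N
  rw [Bas_star_re, Bas_star_im]
  ring
theorem N_natCast (n : ℕ) : N (n : O) = (n : ℤ) ^ 2 := by
  unfold N
  rw [QuadraticAlgebra.re_natCast, QuadraticAlgebra.im_natCast]
  ring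
theorem mul_star_self (x : O) : x * star x = ((N x : ℤ) : O) := by
  apply QuadraticAlgebra.ext
  · rw [Bas_mul_re, Bas_star_re, Bas_star_im, QuadraticAlgebra.re_intCast]
    unfold N
    push_cast
    ring
  · rw [Bas_mul_im, Bas_star_re, Bas_star_im, QuadraticAlgebra.im_intCast]
    ring
theorem N_om : N om = 1 := by
  unfold N om
  norm_num
theorem coe_omu : (omu : O) = om := rfl
theorem N_ne_zero {x : O} (hx : x ≠ 0) : N x ≠ 0 := by
  intro h
  apply hx
  have h4 : (2 * x.re + 3 * x.im) ^ 2 = 5 * x.im ^ 2 := by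
    unfold N at h
    linear_combination 4 * h
  have h5 : x.im = 0 := by
    by_contra hne
    have h5p : Prime (5 : ℤ) := by norm_num
    have h6 : Irrational (√5) := by
      have := Nat.Prime.irrational_sqrt (p := 5) (by norm_num)
      exact_mod_cast this
    have h7 : (((2 * x.re + 3 * x.im : ℤ) : ℝ)) ^ 2 = 5 * (x.im : ℝ) ^ 2 := by
      exact_mod_cast h4
    have h8 : √5 = |((2 * x.re + 3 * x.im : ℤ) : ℝ) / x.im| := by
      rw [← Real.sqrt_sq_eq_abs]
      congr 1
      have h9 : (x.im : ℝ) ≠ 0 := by exact_mod_cast hne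
      rw [div_pow, h7]
      field_simp
    have h10 : √5 = (((|((2 * x.re + 3 * x.im : ℤ) : ℚ) / x.im|) : ℚ) : ℝ) := by
      rw [h8]
      push_cast
      rfl
    exact h6 ⟨_, h10.symm⟩
  have h6 : x.re = 0 := by
    rw [h5] at h4
    have h7 : (2 * x.re + 3 * 0) ^ 2 = 0 := by rw [h4]; ring
    have h8 := pow_eq_zero_iff (two_ne_zero) |>.mp h7
    linarith
  exact QuadraticAlgebra.ext h6 h5
theorem N_prod {ι : Type*} (s : Finset ι) (g : ι → O) : N (∏ i ∈ s, g i) = ∏ i ∈ s, N (g i) := by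
  classical
  induction s using Finset.induction_on with
  | empty => rw [Finset.prod_empty, Finset.prod_empty, N_one]
  | insert a s ha ih => rw [Finset.prod_insert ha, Finset.prod_insert ha, N_mul, ih]

theorem TP.mul {x y : O} (hx : TP x) (hy : TP y) : TP (x * y) := by
  refine ⟨?_, ?_⟩
  · rw [s1_mul]; exact mul_pos hx.1 hy.1
  · rw [s2_mul]; exact mul_pos hx.2 hy.2
theorem TP.star {x : O} (hx : TP x) : TP (star x) := by
  refine ⟨?_, ?_⟩
  · rw [s1_star]; exact hx.2
  · rw [s2_star]; exact hx.1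
theorem TP_one : TP 1 := by
  refine ⟨?_, ?_⟩
  · rw [s1_one]; exact one_pos
  · rw [s2_one]; exact one_pos
theorem TP_natCast {n : ℕ} (hn : 0 < n) : TP (n : O) := by
  refine ⟨?_, ?_⟩
  · rw [s1_natCast]; exact_mod_cast hn
  · rw [s2_natCast]; exact_mod_cast hn
theorem TP_om : TP om := by
  refine ⟨?_, ?_⟩
  · unfold s1 om
    simpa using Bas_al_pos
  · unfold s2 om
    simpa using Bas_be_pos
theorem TP.N_pos {x : O} (hx : TP x) : 0 < N x := by
  have h : (0 : ℝ) < (N x : ℝ) := by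
    rw [N_eq]
    exact mul_pos hx.1 hx.2
  exact_mod_cast h
theorem TP.ne_zero {x : O} (hx : TP x) : x ≠ 0 := by
  rintro rfl
  have h := hx.1
  unfold s1 at h
  rw [QuadraticAlgebra.re_zero, QuadraticAlgebra.im_zero] at h
  simp at h
theorem TP_prod {ι : Type*} {s : Finset ι} {g : ι → O} (h : ∀ i ∈ s, TP (g i)) : TP (∏ i ∈ s, g i) := by
  classical
  induction s using Finset.induction_on with
  | empty => rw [Finset.prod_empty]; exact TP_one
  | insert a s ha ih =>
    rw [Finset.prod_insert ha]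
    exact (h a (Finset.mem_insert_self a s)).mul (ih fun i hi => h i (Finset.mem_insert_of_mem hi))
/-- a quotient of totally positive elements is totally positive -/
theorem TP.of_mul {x y : O} (hx : TP x) (hxy : TP (x * y)) : TP y := by
  obtain ⟨h1, h2⟩ := hxy
  rw [s1_mul] at h1
  rw [s2_mul] at h2
  exact ⟨(pos_iff_pos_of_mul_pos h1).mp hx.1, (pos_iff_pos_of_mul_pos h2).mp hx.2⟩

theorem per_pos : 0 < per := by
  unfold per
  have h := Real.log_pos (x := al) (by linarith [Pool.Agent.Lib.MP_d57abb_nt.al_lo])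
  linarith
theorem per_lt_two : per < 2 := by
  unfold per
  have h : Real.log al < 1 := by
    rw [Real.log_lt_iff_lt_exp Bas_al_pos]
    have h1 := Real.exp_one_gt_d9
    have h2 := Pool.Agent.Lib.MP_d57abb_nt.al_hi
    linarith
  linarith
theorem one_lt_per : 1 < per := by
  unfold per
  have h : 1 < Real.log (al ^ 2) := by
    rw [Real.lt_log_iff_exp_lt (pow_pos Bas_al_pos 2)]
    have h1 := Real.exp_one_lt_d9
    have h2 := Pool.Agent.Lib.MP_d57abb_nt.al_lo
    nlinarith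
  rw [Real.log_pow] at h
  exact_mod_cast h
theorem An_mul {x y : O} (hx : TP x) (hy : TP y) : An (x * y) = An x + An y := by
  unfold An
  rw [s1_mul, s2_mul, Real.log_mul hx.1.ne' hy.1.ne', Real.log_mul hx.2.ne' hy.2.ne']
  ring
theorem An_one : An 1 = 0 := by
  unfold An
  rw [s1_one, s2_one, sub_self]
theorem An_star (x : O) : An (star x) = - An x := by
  unfold An
  rw [s1_star, s2_star]
  ring
theorem An_natCast (n : ℕ) : An (n : O) = 0 := by
  unfold An
  rw [s1_natCast, s2_natCast, sub_self]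
private theorem Bas_log_be : Real.log be = - Real.log al := by
  have h : be = al⁻¹ := by
    have h1 := Pool.Agent.Lib.MP_d57abb_nt.al_mul_be
    exact eq_inv_of_mul_eq_one_right h1
  rw [h, Real.log_inv]
theorem An_om : An om = per := by
  have h1 : s1 om = al := by unfold s1 om; simp
  have h2 : s2 om = be := by unfold s2 om; simp
  unfold An per
  rw [h1, h2, Bas_log_be]
  ring

theorem Qd.tp {x : O} (hx : Qd x) : TP x := by
  obtain ⟨h1, h2⟩ := hx
  have h1' : (1 : ℝ) ≤ x.re := by exact_mod_cast h1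
  have h2' : (0 : ℝ) ≤ x.im := by exact_mod_cast h2
  refine ⟨?_, ?_⟩
  · unfold s1
    have := mul_nonneg h2' Bas_al_pos.le
    linarith
  · unfold s2
    have := mul_nonneg h2' Bas_be_pos.le
    linarith
theorem Qd_one : Qd 1 := by
  refine ⟨?_, ?_⟩
  · rw [Bas_re1]
  · rw [Bas_im1]
theorem Qd.An_nonneg {x : O} (hx : Qd x) : 0 ≤ An x := by
  have ht := hx.tp
  have h2' : (0 : ℝ) ≤ x.im := by exact_mod_cast hx.2
  have h : s2 x ≤ s1 x := by
    unfold s1 s2
    have := mul_le_mul_of_nonneg_left Bas_be_lt.le h2'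
    linarith
  unfold An
  have := Real.log_le_log ht.2 h
  linarith
private theorem Bas_key (x : O) : s2 x * al - s1 x * be = x.re * (al - be) := by
  unfold s1 s2
  ring
theorem Qd.An_lt {x : O} (hx : Qd x) : An x < per := by
  have ht := hx.tp
  have h1' : (1 : ℝ) ≤ x.re := by exact_mod_cast hx.1
  have h : s1 x * be < s2 x * al := by
    have h3 := Bas_key x
    have h4 : 0 < (x.re : ℝ) * (al - be) := mul_pos (by linarith) (by linarith [Bas_be_lt])
    linarith
  have h5 := Real.log_lt_log (mul_pos ht.1 Bas_be_pos) h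
  rw [Real.log_mul ht.1.ne' Bas_be_pos.ne', Real.log_mul ht.2.ne' Bas_al_pos.ne', Bas_log_be] at h5
  unfold An per
  linarith
theorem Qd_of_An {x : O} (hx : TP x) (h0 : 0 ≤ An x) (h1 : An x < per) : Qd x := by
  unfold An at h0 h1
  unfold per at h1
  have hab : 0 < al - be := by linarith [Bas_be_lt]
  constructor
  · have h2 : Real.log (s1 x * be) < Real.log (s2 x * al) := by
      rw [Real.log_mul hx.1.ne' Bas_be_pos.ne', Real.log_mul hx.2.ne' Bas_al_pos.ne', Bas_log_be]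
      linarith
    have h3 := (Real.log_lt_log_iff (mul_pos hx.1 Bas_be_pos) (mul_pos hx.2 Bas_al_pos)).mp h2
    have h4 := Bas_key x
    have h5 : 0 < (x.re : ℝ) * (al - be) := by linarith
    have h6 : (0 : ℝ) < x.re := (pos_iff_pos_of_mul_pos h5).mpr hab
    have h7 : 0 < x.re := by exact_mod_cast h6
    linarith
  · have h2 : s2 x ≤ s1 x := (Real.log_le_log_iff hx.2 hx.1).mp (by linarith)
    have h3 : 0 ≤ (x.im : ℝ) * (al - be) := by
      unfold s1 s2 at h2
      linarith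
    have h4 : (0 : ℝ) ≤ x.im := nonneg_of_mul_nonneg_left h3 hab
    exact_mod_cast h4

theorem mem_V {Y : ℝ} {x : O} : x ∈ V Y ↔ Qd x ∧ (N x : ℝ) ≤ Y := by
  unfold V
  rw [Finset.mem_filter, Finset.mem_image]
  constructor
  · rintro ⟨⟨p, hp, rfl⟩, hN⟩
    rw [Finset.mem_product, Finset.mem_Icc, Finset.mem_Icc] at hp
    exact ⟨⟨hp.1.1, hp.2.1⟩, hN⟩
  · rintro ⟨⟨h1, h2⟩, hN⟩
    refine ⟨⟨(x.re, x.im), ?_, rfl⟩, hN⟩
    have h3 : x.re ≤ N x := by unfold N; nlinarith [mul_nonneg (by linarith : (0 : ℤ) ≤ x.re) h2]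
    have h4 : x.im ≤ N x := by unfold N; nlinarith [mul_nonneg (by linarith : (0 : ℤ) ≤ x.re) h2, sq_nonneg x.re, sq_nonneg x.im]
    rw [Finset.mem_product, Finset.mem_Icc, Finset.mem_Icc, Int.le_floor, Int.le_floor]
    refine ⟨⟨h1, ?_⟩, h2, ?_⟩
    · exact le_trans (by exact_mod_cast h3) hN
    · exact le_trans (by exact_mod_cast h4) hN
theorem mem_V' {Y : ℝ} {x : O} : x ∈ V' Y ↔ (Qd x ∧ (N x : ℝ) ≤ Y) ∧ Pm x := by
  unfold V'
  rw [Finset.mem_filter, mem_V]
theorem V'_sub (Y : ℝ) : V' Y ⊆ V Y := by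
  unfold V'
  exact Finset.filter_subset _ _
theorem V_mono {Y Z : ℝ} (h : Y ≤ Z) : V Y ⊆ V Z := by
  intro x hx
  rw [mem_V] at hx ⊢
  exact ⟨hx.1, hx.2.trans h⟩
theorem V_empty {Y : ℝ} (h : Y < 1) : V Y = ∅ := by
  rw [Finset.eq_empty_iff_forall_notMem]
  intro x hx
  rw [mem_V] at hx
  have h1 := hx.1.tp.N_pos
  have h2 : (1 : ℝ) ≤ N x := by exact_mod_cast h1
  linarith [hx.2]
theorem mem_PP {D : ℕ} {z : ℝ} {p : O} : p ∈ PP D z ↔ Dg D p ∧ (N p : ℝ) ≤ z := by
  unfold PP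
  rw [Finset.mem_filter, mem_V]
  constructor
  · rintro ⟨⟨h1, h2⟩, h3⟩
    exact ⟨h3, h2⟩
  · rintro ⟨h1, h2⟩
    exact ⟨⟨h1.1, h2⟩, h1⟩
theorem mem_PS {D : ℕ} {z : ℝ} {p : O} : p ∈ PS D z ↔ (Dg D p ∧ (N p : ℝ) ≤ z) ∧ p.im < p.re := by
  unfold PS
  rw [Finset.mem_filter, mem_PP]
theorem mem_Fr {T : ℝ} (hT : 0 ≤ T) {j : ℤ} : j ∈ Fr T ↔ |(j : ℝ)| ≤ T := by
  unfold Fr
  rw [Finset.mem_Icc, abs_le, neg_le, Int.le_floor, Int.le_floor, neg_le]
  push_cast
  constructor
  · rintro ⟨h1, h2⟩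
    exact ⟨by linarith, h2⟩
  · rintro ⟨h1, h2⟩
    exact ⟨by linarith, h2⟩

private theorem Bas_omu_inv : ((omu⁻¹ : Oˣ) : O) = ⟨3, -1⟩ := rfl
private theorem Bas_TP_inv : TP ((omu⁻¹ : Oˣ) : O) := by
  rw [Bas_omu_inv]
  have h := Pool.Agent.Lib.MP_d57abb_nt.al_add_be
  refine ⟨?_, ?_⟩
  · unfold s1
    push_cast
    linarith [Bas_be_pos]
  · unfold s2
    push_cast
    linarith [Bas_al_pos]

/-- powers of the unit -/
theorem TP_omu (k : ℤ) : TP ((omu ^ k : Oˣ) : O) := by
  induction k using Int.induction_on with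
  | zero => rw [zpow_zero, Units.val_one]; exact TP_one
  | succ i ih => rw [zpow_add_one, Units.val_mul]; exact ih.mul TP_om
  | pred i ih => rw [zpow_sub_one, Units.val_mul]; exact ih.mul Bas_TP_inv
theorem N_omu (k : ℤ) : N ((omu ^ k : Oˣ) : O) = 1 := by
  induction k using Int.induction_on with
  | zero => rw [zpow_zero, Units.val_one]; exact N_one
  | succ i ih => rw [zpow_add_one, Units.val_mul, N_mul, ih, coe_omu, N_om, one_mul]
  | pred i ih =>
    rw [zpow_sub_one, Units.val_mul, N_mul, ih, Bas_omu_inv]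
    unfold N
    norm_num
theorem An_omu (k : ℤ) : An ((omu ^ k : Oˣ) : O) = k * per := by
  have hinv : An ((omu⁻¹ : Oˣ) : O) = - per := by
    have h1 : An (((omu * omu⁻¹ : Oˣ) : Oˣ) : O) = 0 := by
      rw [mul_inv_cancel, Units.val_one, An_one]
    rw [Units.val_mul, coe_omu, An_mul TP_om Bas_TP_inv, An_om] at h1
    linarith
  induction k using Int.induction_on with
  | zero => rw [zpow_zero, Units.val_one, An_one]; simp
  | succ i ih =>
    rw [zpow_add_one, Units.val_mul, coe_omu, An_mul (TP_omu _) TP_om, ih, An_om]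
    push_cast
    ring
  | pred i ih =>
    rw [zpow_sub_one, Units.val_mul, An_mul (TP_omu _) Bas_TP_inv, ih, hinv]
    push_cast
    ring

end Pool.Agent.Lib.MP_d57abb_nt.MR
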