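import Mathlib
import Pool.Agent.Lib.MP_d57abb_nt.MR.Bas

/-!
# `O` is a principal ideal domain

* `IsDomain O`: `x y = 0 → N x * N y = 0` and `N_ne_zero`.
* `norm_div`: let `w = x * star y = ⟨a, b⟩` and `n = N y ≠ 0`, so `w / n = x / y` (in `ℚ(√5)`).  In the basis `1, α - 1` of `O`: `a + b α = (a + b) + b (α - 1)`.
  Let `r = round ((b : ℚ) / n)` and `s = round (((a + b : ℤ) : ℚ) / n)`, and `q = ⟨s - r, r⟩`, so that `q = s + r (α - 1)`.
  With `u = (a + b)/n - s`, `v = b / n - r`, `|u|, |v| ≤ 1/2`, one has `N (w - n q) = n² (u² + u v - v²)` and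
  `|u² + u v - v²| ≤ 1/2 < 1`.  And `(x - q y) * star y = w - n q`, so `N (x - q y) * n = N (w - n q)`, `|N (x - q y)| < |n|`.
* `instPID`: a nonzero ideal is generated by a nonzero element with minimal `|N|`.
-/

namespace Pool.Agent.Lib.MP_d57abb_nt.MR

instance instDomain : IsDomain O := by
  have : NoZeroDivisors O := ⟨by
    intro x y h
    by_contra hc
    push Not at hc
    have h1 := N_mul x y
    rw [h] at h1
    have h0 : N 0 = 0 := by simp [N]
    rw [h0] at h1
    rcases mul_eq_zero.mp h1.symm with h2 | h2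
    · exact N_ne_zero hc.1 h2
    · exact N_ne_zero hc.2 h2⟩
  have : Nontrivial O := ⟨⟨0, 1, by
    intro h
    have := congrArg QuadraticAlgebra.re h
    simp [QuadraticAlgebra.re_one] at this⟩⟩
  exact NoZeroDivisors.to_isDomain O

private theorem Euc_bound (u v : ℚ) (hu : |u| ≤ 1 / 2) (hv : |v| ≤ 1 / 2) : |u ^ 2 + u * v - v ^ 2| < 1 := by
  rw [abs_le] at hu hv
  rw [abs_lt]
  constructor <;> nlinarith [mul_nonneg (sub_nonneg.2 hu.2) (sub_nonneg.2 hv.2), hu.1, hu.2, hv.1, hv.2,
    sq_nonneg (u + v), sq_nonneg (u - v), sq_nonneg u, sq_nonneg v]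

theorem norm_div (x y : O) (hy : y ≠ 0) : ∃ q : O, |N (x - q * y)| < |N y| := by
  have hn : N y ≠ 0 := N_ne_zero hy
  set n : ℤ := N y with hndef
  set w : O := x * star y with hw
  set a : ℤ := w.re with ha
  set b : ℤ := w.im with hb
  set r : ℤ := round ((b : ℚ) / n) with hr
  set s : ℤ := round (((a + b : ℤ) : ℚ) / n) with hs
  refine ⟨⟨s - r, r⟩, ?_⟩
  set q : O := ⟨s - r, r⟩ with hq
  have hnq : (n : ℚ) ≠ 0 := by exact_mod_cast hn
  set u : ℚ := ((a + b : ℤ) : ℚ) / n - s with hu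
  set v : ℚ := (b : ℚ) / n - r with hv
  have hub : |u| ≤ 1 / 2 := abs_sub_round _
  have hvb : |v| ≤ 1 / 2 := abs_sub_round _
  have hbd := Euc_bound u v hub hvb
  have key : N (x - q * y) * n = N (w - (n : O) * q) := by
    have h1 : (x - q * y) * star y = w - (n : O) * q := by
      have h2 : y * star y = ((n : ℤ) : O) := mul_star_self y
      calc (x - q * y) * star y = x * star y - q * (y * star y) := by ring
        _ = w - (n : O) * q := by rw [h2]; ring
    rw [← h1, N_mul, N_star]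
  have h3 : (N (w - (n : O) * q) : ℚ) = (n : ℚ) ^ 2 * (u ^ 2 + u * v - v ^ 2) := by
    have hre : (w - (n : O) * q).re = a - n * (s - r) := by
      simp [hq, ha]
    have him : (w - (n : O) * q).im = b - n * r := by
      simp [hq, hb]
    unfold N
    rw [hre, him]
    have e1 : (n : ℚ) * u = a + b - n * s := by
      rw [hu]; push_cast; field_simp
    have e2 : (n : ℚ) * v = b - n * r := by
      rw [hv]; field_simp
    have e3 : (n : ℚ) ^ 2 * (u ^ 2 + u * v - v ^ 2) = ((n : ℚ) * u) ^ 2 + ((n : ℚ) * u) * ((n : ℚ) * v) - ((n : ℚ) * v) ^ 2 := by ring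
    rw [e3, e1, e2]
    push_cast
    ring
  have h4 : |(N (x - q * y) : ℚ)| < |(n : ℚ)| := by
    have h5 : (N (x - q * y) : ℚ) = n * (u ^ 2 + u * v - v ^ 2) := by
      have h6 : (N (x - q * y) : ℚ) * n = (n : ℚ) ^ 2 * (u ^ 2 + u * v - v ^ 2) := by
        rw [← h3, ← key]; push_cast; ring
      apply mul_right_cancel₀ hnq
      rw [h6]; ring
    rw [h5, abs_mul]
    have : 0 < |(n : ℚ)| := abs_pos.2 hnq
    nlinarith
  exact_mod_cast h4

instance instPID : IsPrincipalIdealRing O := by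
  constructor
  intro I
  by_cases hI : I = ⊥
  · exact ⟨0, by simp [hI]⟩
  obtain ⟨z, hz, hz0⟩ := Submodule.exists_mem_ne_zero_of_ne_bot hI
  let S : Set ℕ := {m | ∃ x ∈ I, x ≠ 0 ∧ (N x).natAbs = m}
  have hS : S.Nonempty := ⟨_, z, hz, hz0, rfl⟩
  obtain ⟨g, hg, hg0, hgm⟩ := Nat.sInf_mem hS
  refine ⟨g, ?_⟩
  apply le_antisymm
  · intro x hx
    obtain ⟨q, hq⟩ := norm_div x g hg0
    have hmem : x - q * g ∈ I := I.sub_mem hx (I.mul_mem_left q hg)
    by_cases h0 : x - q * g = 0
    · rw [sub_eq_zero] at h0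
      rw [h0]
      exact Submodule.smul_mem _ q (Submodule.mem_span_singleton_self g)
    · exfalso
      have h1 : sInf S ≤ (N (x - q * g)).natAbs := Nat.sInf_le ⟨_, hmem, h0, rfl⟩
      rw [← hgm] at h1
      have h2 : (N (x - q * g)).natAbs < (N g).natAbs := by
        rw [Int.abs_eq_natAbs, Int.abs_eq_natAbs] at hq
        exact_mod_cast hq
      omega
  · rw [Submodule.span_singleton_le_iff_mem]
    exact hg

theorem isUnit_iff {x : O} : IsUnit x ↔ (N x).natAbs = 1 := by
  constructor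
  · rintro ⟨u, rfl⟩
    have h : N (u : O) * N ((u⁻¹ : Oˣ) : O) = 1 := by
      rw [← N_mul, Units.mul_inv, N_one]
    exact Int.isUnit_iff_natAbs_eq.mp (IsUnit.of_mul_eq_one _ h)
  · intro h
    have h1 : x * star x = ((N x : ℤ) : O) := mul_star_self x
    rcases Int.natAbs_eq_iff.mp h with h2 | h2
    · rw [h2] at h1
      exact IsUnit.of_mul_eq_one _ (by rw [h1]; simp)
    · rw [h2] at h1
      exact IsUnit.of_mul_eq_one (-star x) (by rw [mul_neg, h1]; simp)

theorem prime_of_norm {x : O} (h : (N x).natAbs.Prime) : Prime x := by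
  apply Irreducible.prime
  constructor
  · rw [isUnit_iff]
    exact h.one_lt.ne'
  · intro y z hyz
    rw [isUnit_iff, isUnit_iff]
    have h1 : (N y).natAbs * (N z).natAbs = (N x).natAbs := by
      rw [← Int.natAbs_mul, ← N_mul, hyz]
    have h2 := (Nat.prime_mul_iff.mp (h1 ▸ h))
    rcases h2 with h2 | h2
    · right; exact h2.2
    · left; exact h2.2

end Pool.Agent.Lib.MP_d57abb_nt.MR
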