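import Mathlib
import Pool.Agent.Lib.MP_d57abb_nt.MR.Euc

/-!
# JOB Nf: normal forms

* `exists_nf`: `k = ⌊An x / per⌋`, `v = omu^(-k) * x`, `An v = An x - k per ∈ [0, per)`, `Qd_of_An`.
* `nf_unique`: take `An` of both sides: `An v + k per = An v' + k' per` with `An v, An v' ∈ [0, per)`, so `k = k'`.
* `unit_tp`: a totally positive unit: `exists_nf`, `N v = 1` (`isUnit_iff`, positivity), `Qd v`, `v.re² + 3 v.re v.im + v.im² = 1` gives `v = 1`.
* `eq_of_assoc`: `v' = v * u`, `u` a unit; `u` is totally positive (`TP.of_mul`), so `u = omu ^ k`; `nf_unique`.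
* `exists_tp`: (for the ideals) every `x ≠ 0` is associated to a totally positive element: multiply by `-1` and by the unit `⟨-1, 1⟩` (norm `-1`,
  `s1 = al - 1 > 0`, `s2 = be - 1 < 0`).
* `swap_assoc`: both coordinates: `star ⟨a, b⟩ = ⟨a + 3 b, -b⟩`, `om * ⟨x, y⟩ = ⟨-y, x + 3 y⟩`.
* `E_mul`: `An_mul`, `e_add`.  `E_omu`: `An_omu`, `(j + t) * (k per) / per = j k + t k`, `e_add`, `e_int`.
* `a_omu`: induction on `k` (`Int.induction_on`), `Dat.unit` for `om * x`; for negative `k` apply `unit` to `omu^(k-1) x`.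
* `G_omu`: `a_omu` and `E_omu`.  `G_mul`: `Dat.mul`, `E_mul`.
* `norm_f`: `‖f p‖ ^ Q = 1`, `Q ≠ 0` (`pow_eq_one_iff_of_nonneg`).
-/

namespace Pool.Agent.Lib.MP_d57abb_nt.MR

open Pool.Agent.Lib.MP_2a816b_nt (e)

private theorem Nf_om_mul (k : ℤ) (x : O) :
    ((omu ^ k : Oˣ) : O) * (((omu ^ (-k) : Oˣ) : O) * x) = x := by
  rw [← mul_assoc, ← Units.val_mul, ← zpow_add, add_neg_cancel, zpow_zero, Units.val_one, one_mul]

theorem exists_nf {x : O} (hx : TP x) : ∃ v : O, Qd v ∧ ∃ k : ℤ, x = ((omu ^ k : Oˣ) : O) * v := by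
  have hp := per_pos
  have hA : An (((omu ^ (-⌊An x / per⌋) : Oˣ) : O) * x) = An x - ⌊An x / per⌋ * per := by
    rw [An_mul (TP_omu _) hx, An_omu]
    push_cast
    ring
  refine ⟨((omu ^ (-⌊An x / per⌋) : Oˣ) : O) * x, ?_, ⌊An x / per⌋, ?_⟩
  · apply Qd_of_An ((TP_omu _).mul hx)
    · rw [hA]
      have h1 := Int.floor_le (An x / per)
      rw [le_div_iff₀ hp] at h1
      linarith
    · rw [hA]
      have h1 := Int.lt_floor_add_one (An x / per)
      rw [div_lt_iff₀ hp] at h1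
      linarith
  · exact (Nf_om_mul _ x).symm

theorem nf_unique {v v' : O} (hv : Qd v) (hv' : Qd v') {k k' : ℤ}
    (h : ((omu ^ k : Oˣ) : O) * v = ((omu ^ k' : Oˣ) : O) * v') : k = k' ∧ v = v' := by
  have hp := per_pos
  have hA : (k : ℝ) * per + An v = k' * per + An v' := by
    have h1 := congrArg An h
    rwa [An_mul (TP_omu _) hv.tp, An_mul (TP_omu _) hv'.tp, An_omu, An_omu] at h1
  have h0 := hv.An_nonneg
  have h1 := hv.An_lt
  have h0' := hv'.An_nonneg
  have h1' := hv'.An_lt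
  have hk : k = k' := by
    have e1 : (k : ℝ) < k' + 1 := by
      by_contra hc
      push Not at hc
      nlinarith
    have e2 : (k' : ℝ) < k + 1 := by
      by_contra hc
      push Not at hc
      nlinarith
    have e3 : k < k' + 1 := by exact_mod_cast e1
    have e4 : k' < k + 1 := by exact_mod_cast e2
    omega
  refine ⟨hk, ?_⟩
  rw [hk] at h
  exact (Units.mul_right_inj _).mp h

open Classical in
/-- the representative in the quadrant -/
noncomputable def nf (x : O) : O := if h : TP x then (exists_nf h).choose else x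

private theorem Nf_nf {x : O} (hx : TP x) : nf x = (exists_nf hx).choose := by
  unfold nf
  rw [dif_pos hx]

theorem nf_Qd {x : O} (hx : TP x) : Qd (nf x) := by
  rw [Nf_nf hx]
  exact (exists_nf hx).choose_spec.1
theorem nf_spec {x : O} (hx : TP x) : ∃ k : ℤ, x = ((omu ^ k : Oˣ) : O) * nf x := by
  rw [Nf_nf hx]
  exact (exists_nf hx).choose_spec.2
theorem nf_eq {x v : O} (hv : Qd v) {k : ℤ} (h : x = ((omu ^ k : Oˣ) : O) * v) : nf x = v := by
  have hx : TP x := by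
    rw [h]
    exact (TP_omu k).mul hv.tp
  obtain ⟨k', hk'⟩ := nf_spec hx
  exact (nf_unique (nf_Qd hx) hv (hk'.symm.trans h)).2
theorem N_nf {x : O} (hx : TP x) : N (nf x) = N x := by
  obtain ⟨k, hk⟩ := nf_spec hx
  have h := congrArg N hk
  rw [N_mul, N_omu, one_mul] at h
  exact h.symm

theorem unit_tp {x : O} (hx : TP x) (hu : IsUnit x) : ∃ k : ℤ, x = ((omu ^ k : Oˣ) : O) := by
  obtain ⟨v, hv, k, hk⟩ := exists_nf hx
  have hN : N v = N x := by
    have h := congrArg N hk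
    rw [N_mul, N_omu, one_mul] at h
    exact h.symm
  have h1 : (N v).natAbs = 1 := by
    rw [hN]
    exact isUnit_iff.mp hu
  have h2 : 0 < N v := hv.tp.N_pos
  have h3 : N v = 1 := by omega
  have h4 : v.re ^ 2 + 3 * v.re * v.im + v.im ^ 2 = 1 := h3
  have hr := hv.1
  have hi := hv.2
  have h5 : v.im = 0 := by
    by_contra hc
    have : 1 ≤ v.im := by omega
    nlinarith
  have h6 : v.re = 1 := by
    rw [h5] at h4
    nlinarith
  have hv1 : v = 1 := by
    ext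
    · rw [h6, QuadraticAlgebra.re_one]
    · rw [h5, QuadraticAlgebra.im_one]
  refine ⟨k, ?_⟩
  rw [hk, hv1, mul_one]

theorem eq_of_assoc {v v' : O} (hv : Qd v) (hv' : Qd v') (h : Associated v v') : v = v' := by
  obtain ⟨u, hu⟩ := h
  have ht : TP (u : O) := by
    apply TP.of_mul hv.tp
    rw [hu]
    exact hv'.tp
  obtain ⟨k, hk⟩ := unit_tp ht u.isUnit
  have h1 : ((omu ^ k : Oˣ) : O) * v = ((omu ^ (0 : ℤ) : Oˣ) : O) * v' := by
    rw [zpow_zero, Units.val_one, one_mul, ← hk, mul_comm, hu]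
  exact (nf_unique hv hv' h1).2

private theorem Nf_eps : IsUnit (⟨-1, 1⟩ : O) := by
  rw [isUnit_iff]
  rfl

private theorem Nf_s1_eps : 0 < s1 (⟨-1, 1⟩ : O) := by
  unfold s1
  push_cast
  have := Pool.Agent.Lib.MP_d57abb_nt.al_lo
  linarith

private theorem Nf_s2_eps : s2 (⟨-1, 1⟩ : O) < 0 := by
  unfold s2
  push_cast
  have := Pool.Agent.Lib.MP_d57abb_nt.be_hi
  linarith

private theorem Nf_s1_neg (x : O) : s1 (-x) = - s1 x := by
  unfold s1
  rw [QuadraticAlgebra.re_neg, QuadraticAlgebra.im_neg]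
  push_cast
  ring

private theorem Nf_s2_neg (x : O) : s2 (-x) = - s2 x := by
  unfold s2
  rw [QuadraticAlgebra.re_neg, QuadraticAlgebra.im_neg]
  push_cast
  ring

theorem exists_tp {x : O} (hx : x ≠ 0) : ∃ y : O, TP y ∧ Associated x y := by
  have hN : s1 x * s2 x ≠ 0 := by
    rw [← N_eq]
    exact_mod_cast N_ne_zero hx
  have h1 : s1 x ≠ 0 := left_ne_zero_of_mul hN
  have h2 : s2 x ≠ 0 := right_ne_zero_of_mul hN
  have hneg : ∀ y : O, Associated y (-y) := fun y => ⟨-1, by simp⟩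
  obtain ⟨w, hw⟩ := Nf_eps
  have he : ∀ y : O, Associated y (y * ⟨-1, 1⟩) := fun y => ⟨w, by rw [hw]⟩
  have g1 := Nf_s1_eps
  have g2 := Nf_s2_eps
  rcases lt_or_gt_of_ne h1 with a1 | a1 <;> rcases lt_or_gt_of_ne h2 with a2 | a2
  · refine ⟨-x, ⟨?_, ?_⟩, hneg x⟩
    · rw [Nf_s1_neg]; linarith
    · rw [Nf_s2_neg]; linarith
  · refine ⟨-(x * ⟨-1, 1⟩), ⟨?_, ?_⟩, (he x).trans (hneg _)⟩
    · rw [Nf_s1_neg, s1_mul]
      nlinarith
    · rw [Nf_s2_neg, s2_mul]
      nlinarith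
  · refine ⟨x * ⟨-1, 1⟩, ⟨?_, ?_⟩, he x⟩
    · rw [s1_mul]
      exact mul_pos a1 g1
    · rw [s2_mul]
      exact mul_pos_of_neg_of_neg a2 g2
  · exact ⟨x, ⟨a1, a2⟩, Associated.refl x⟩

theorem swap_assoc (v : O) : om * star v = ⟨v.im, v.re⟩ := by
  ext
  · simp [om, QuadraticAlgebra.re_mul, QuadraticAlgebra.re_star, QuadraticAlgebra.im_star]
  · simp [om, QuadraticAlgebra.im_mul, QuadraticAlgebra.re_star, QuadraticAlgebra.im_star]

theorem E_mul (t : ℝ) (j : ℤ) {x y : O} (hx : TP x) (hy : TP y) : E t j (x * y) = E t j x * E t j y := by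
  unfold E
  rw [← Pool.Agent.Lib.MP_2a816b_nt.e_add, An_mul hx hy]
  congr 1
  ring
theorem E_omu (t : ℝ) (j k : ℤ) : E t j ((omu ^ k : Oˣ) : O) = e (t * k) := by
  unfold E
  rw [An_omu]
  have hp := per_pos.ne'
  have h1 : ((j : ℝ) + t) * (k * per) / per = t * k + ((j * k : ℤ) : ℝ) := by
    push_cast
    field_simp
    ring
  rw [h1, Pool.Agent.Lib.MP_2a816b_nt.e_add_int]
theorem norm_E (t : ℝ) (j : ℤ) (x : O) : ‖E t j x‖ = 1 :=
  Pool.Agent.Lib.MP_2a816b_nt.norm_e _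
theorem E_natCast (t : ℝ) (j : ℤ) (n : ℕ) : E t j (n : O) = 1 := by
  unfold E
  rw [An_natCast, mul_zero, zero_div, Pool.Agent.Lib.MP_2a816b_nt.e_zero]

private theorem Nf_succ (k : ℤ) (x : O) :
    ((omu ^ (k + 1) : Oˣ) : O) * x = om * (((omu ^ k : Oˣ) : O) * x) := by
  rw [zpow_add, zpow_one, Units.val_mul, coe_omu]
  ring

theorem a_omu (d : Dat) (k : ℤ) {x : O} (hx : TP x) : d.a (((omu ^ k : Oˣ) : O) * x) = e (-(d.t * k)) * d.a x := by
  have step : ∀ k : ℤ, d.a (((omu ^ (k + 1) : Oˣ) : O) * x) = e (-d.t) * d.a (((omu ^ k : Oˣ) : O) * x) := by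
    intro k
    rw [Nf_succ]
    exact d.unit _ ((TP_omu k).mul hx)
  have hee : ∀ k : ℤ, e (-(d.t * ((k + 1 : ℤ) : ℝ))) = e (-d.t) * e (-(d.t * k)) := by
    intro k
    rw [← Pool.Agent.Lib.MP_2a816b_nt.e_add]
    congr 1
    push_cast
    ring
  induction k using Int.induction_on with
  | zero => simp
  | succ n ih => rw [step, ih, hee]; ring
  | pred n ih =>
    have h1 := step (-(n : ℤ) - 1)
    have h2 := hee (-(n : ℤ) - 1)
    rw [sub_add_cancel] at h1 h2
    rw [ih, h2] at h1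
    have h3 := Pool.Agent.Lib.MP_2a816b_nt.e_ne_zero (-d.t)
    rw [mul_assoc] at h1
    exact (mul_left_cancel₀ h3 h1).symm
/-- `v ↦ a v * E j v` is invariant under the unit -/
theorem G_omu (d : Dat) (j k : ℤ) {x : O} (hx : TP x) :
    d.a (((omu ^ k : Oˣ) : O) * x) * E d.t j (((omu ^ k : Oˣ) : O) * x) = d.a x * E d.t j x := by
  rw [a_omu d k hx, E_mul _ _ (TP_omu k) hx, E_omu]
  have h : e (-(d.t * k)) * e (d.t * k) = 1 := by
    rw [← Pool.Agent.Lib.MP_2a816b_nt.e_add, neg_add_cancel, Pool.Agent.Lib.MP_2a816b_nt.e_zero]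
  linear_combination (d.a x * E d.t j x) * h
theorem G_mul (d : Dat) (j : ℤ) {p x : O} (hp : Dg d.D p) (hx : TP x) :
    d.a (p * x) * E d.t j (p * x) = d.F j p * (d.a x * E d.t j x) := by
  rw [d.mul p x hp hx, E_mul _ _ hp.1.tp hx]
  unfold Dat.F
  ring
theorem norm_f (d : Dat) {p : O} (hp : Dg d.D p) : ‖d.f p‖ = 1 := by
  have h := congrArg norm (d.f_pow p hp)
  rw [norm_pow, norm_one] at h
  exact (pow_eq_one_iff_of_nonneg (norm_nonneg _) d.Q0.ne').mp h
theorem norm_F (d : Dat) (j : ℤ) {p : O} (hp : Dg d.D p) : ‖d.F j p‖ = 1 := by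
  unfold Dat.F
  rw [norm_mul, norm_f d hp, norm_E, one_mul]

end Pool.Agent.Lib.MP_d57abb_nt.MR
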