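import Mathlib
import Pool.Agent.Lib.MP_d57abb_nt.MR.Nf

/-!
# JOB Prm: prime elements of degree one, primitive elements

Facts: `prime_of_norm`, `eq_of_assoc`, `swap_assoc`, `isUnit_iff`, `mul_star_self`, `N_mul`.
* `Dg.im_pos`: `im = 0` gives `N p = re²`, not prime.  `Dg.ne`: `re = im` gives `N p = 5 re²`; prime only if `re = 1`, `N p = 5 ∣ D`.
* `Dg.swap`: the norm is symmetric.
* `star_dvd_iff`: `star p` is associated to `⟨p.im, p.re⟩` (`swap_assoc`, `om` is a unit).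
* `PP_eq`: `p ∣ p'`, both prime: associated (`Prime.associated_of_dvd` / `Irreducible`), so equal by `eq_of_assoc`.
* `star_not_dvd`: otherwise `⟨p.im, p.re⟩ = p'`, but `p.im < p.re` and `p'.im < p'.re`.
* `PS_inj`: `N p = N p'`: `p ∣ p' * star p'`, so `p ∣ p'` (then equal), or `p ∣ star p'`, `p = ⟨p'.im, p'.re⟩`: impossible.
* `mul_dvd`: `p`, `p'` non associated primes dividing `v`: `v = p w`, `p' ∣ w`.
* `Pm_iff`: `IsCoprime` of integers: no common prime (`Int.isCoprime_iff_gcd_eq_one`); `(q : O) ∣ x ↔ q ∣ x.re ∧ q ∣ x.im`.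
* `Pm_of_mul`: if `q ∣ y` then `q ∣ x y`.
* `Pm_mul`: let a rational prime `q` divide `p x`.  `q ∣ p x`, multiply by `star p`: `q ∣ (N p) x` (in `O`).  If `q ≠ N p` then (rational primes; coordinates) `q ∣ x`:
  impossible.  If `q = N p = p * star p`: `p star p ∣ p x`, so `star p ∣ x`: impossible.
* `not_Pm_mul`: `x = star p * y`, `p x = (N p) y`.
* `V'_mul_iff`: combination.
-/

namespace Pool.Agent.Lib.MP_d57abb_nt.MR

theorem Dg.prime {D : ℕ} {p : O} (h : Dg D p) : Prime p := prime_of_norm h.2.1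
theorem Dg.tp {D : ℕ} {p : O} (h : Dg D p) : TP p := h.1.tp
theorem Dg.two_le {D : ℕ} {p : O} (h : Dg D p) : 2 ≤ N p := by
  have h1 := h.tp.N_pos
  have h2 := h.2.1.two_le
  omega
theorem Dg.im_pos {D : ℕ} {p : O} (h : Dg D p) : 1 ≤ p.im := by
  by_contra hcon
  have h0 : p.im = 0 := by
    have := h.1.2
    omega
  have h1 : N p = p.re * p.re := by
    unfold N
    rw [h0]
    ring
  have h2 := h.2.1
  rw [h1, Int.natAbs_mul] at h2
  by_cases h3 : p.re.natAbs = 1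
  · rw [h3] at h2
    exact Nat.not_prime_one h2
  · exact Nat.not_prime_mul h3 h3 h2
theorem Dg.re_ne_im {D : ℕ} (h5 : 5 ∣ D) {p : O} (h : Dg D p) : p.re ≠ p.im := by
  intro h0
  have h1 : N p = 5 * (p.im * p.im) := by
    unfold N
    rw [h0]
    ring
  have h2 := h.2.1
  have h3 : (N p).natAbs = 5 := by
    symm
    rw [← Nat.prime_dvd_prime_iff_eq Nat.prime_five h2, h1, Int.natAbs_mul]
    exact Dvd.intro _ rfl
  exact h.2.2 (by rw [h3]; exact h5)
theorem Dg.swap {D : ℕ} {p : O} (h : Dg D p) : Dg D ⟨p.im, p.re⟩ := by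
  have h1 : N (⟨p.im, p.re⟩ : O) = N p := by
    unfold N
    ring
  refine ⟨⟨h.im_pos, ?_⟩, ?_, ?_⟩
  · have := h.1.1
    show 0 ≤ p.re
    omega
  · rw [h1]
    exact h.2.1
  · rw [h1]
    exact h.2.2
theorem star_prime {D : ℕ} {p : O} (h : Dg D p) : Prime (star p) := by
  apply prime_of_norm
  rw [N_star]
  exact h.2.1
theorem star_dvd_iff (p x : O) : star p ∣ x ↔ (⟨p.im, p.re⟩ : O) ∣ x := by
  rw [← swap_assoc, ← coe_omu]
  exact (Units.mul_left_dvd).symm
theorem Dg.eq_of_dvd {D : ℕ} {p p' : O} (h : Dg D p) (h' : Dg D p') (hd : p ∣ p') : p = p' :=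
  eq_of_assoc h.1 h'.1 (h.prime.associated_of_dvd h'.prime hd)
theorem star_not_dvd {D : ℕ} {z : ℝ} {p p' : O} (h : p ∈ PS D z) (h' : p' ∈ PS D z) : ¬ star p ∣ p' := by
  rw [mem_PS] at h h'
  intro hd
  rw [star_dvd_iff] at hd
  have h1 := h.1.1.swap.eq_of_dvd h'.1.1 hd
  have h2 : p.im = p'.re := congrArg QuadraticAlgebra.re h1
  have h3 : p.re = p'.im := congrArg QuadraticAlgebra.im h1
  have h4 := h.2
  have h5 := h'.2
  omega
private theorem Prm_star_dvd {x y : O} (h : x ∣ star y) : star x ∣ y := by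
  obtain ⟨c, hc⟩ := h
  refine ⟨star c, ?_⟩
  have h1 := congrArg star hc
  rw [star_star, star_mul] at h1
  rw [h1, mul_comm]
theorem star_not_dvd_star {D : ℕ} {p p' : O} (h : Dg D p) (h' : Dg D p') (hne : p ≠ p') : ¬ star p ∣ star p' := by
  intro hd
  have h1 := Prm_star_dvd hd
  rw [star_star] at h1
  exact hne (h.eq_of_dvd h' h1)
theorem PS_inj {D : ℕ} {z : ℝ} {p p' : O} (h : p ∈ PS D z) (h' : p' ∈ PS D z) (hn : N p = N p') : p = p' := by
  have k := (mem_PS.mp h).1.1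
  have k' := (mem_PS.mp h').1.1
  have h1 : p ∣ p' * star p' := by
    rw [mul_star_self, ← hn, ← mul_star_self]
    exact Dvd.intro _ rfl
  rcases k.prime.dvd_or_dvd h1 with h2 | h2
  · exact k.eq_of_dvd k' h2
  · exact absurd (Prm_star_dvd h2) (star_not_dvd h h')
theorem mul_dvd {D : ℕ} {p p' v : O} (h : Dg D p) (h' : Dg D p') (hne : p ≠ p') (hd : p ∣ v) (hd' : p' ∣ v) :
    p * p' ∣ v := by
  obtain ⟨w, rfl⟩ := hd
  rcases h'.prime.dvd_or_dvd hd' with h1 | h1
  · exact absurd (h'.eq_of_dvd h h1).symm hne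
  · exact mul_dvd_mul_left p h1

theorem natCast_dvd_iff (q : ℕ) (x : O) : (q : O) ∣ x ↔ (q : ℤ) ∣ x.re ∧ (q : ℤ) ∣ x.im := by
  constructor
  · rintro ⟨c, rfl⟩
    constructor
    · rw [QuadraticAlgebra.re_mul, QuadraticAlgebra.re_natCast, QuadraticAlgebra.im_natCast]
      exact ⟨c.re, by ring⟩
    · rw [QuadraticAlgebra.im_mul, QuadraticAlgebra.re_natCast, QuadraticAlgebra.im_natCast]
      exact ⟨c.im, by ring⟩
  · rintro ⟨⟨a, ha⟩, ⟨b, hb⟩⟩
    refine ⟨⟨a, b⟩, ?_⟩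
    apply QuadraticAlgebra.ext
    · rw [QuadraticAlgebra.re_mul, QuadraticAlgebra.re_natCast, QuadraticAlgebra.im_natCast, ha]
      ring
    · rw [QuadraticAlgebra.im_mul, QuadraticAlgebra.re_natCast, QuadraticAlgebra.im_natCast, hb]
      ring
theorem Pm_iff (x : O) : Pm x ↔ ∀ q : ℕ, q.Prime → ¬ (q : O) ∣ x := by
  unfold Pm
  rw [Int.isCoprime_iff_gcd_eq_one]
  constructor
  · intro h q hq hd
    rw [natCast_dvd_iff] at hd
    have h1 : (q : ℤ) ∣ (Int.gcd x.re x.im : ℤ) := Int.dvd_coe_gcd hd.1 hd.2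
    rw [h] at h1
    have h2 : q ∣ 1 := by exact_mod_cast h1
    exact hq.one_lt.ne' (Nat.dvd_one.mp h2)
  · intro h
    by_contra hcon
    obtain ⟨q, hq, hd⟩ := Nat.exists_prime_and_dvd hcon
    apply h q hq
    rw [natCast_dvd_iff]
    have h1 : (q : ℤ) ∣ (Int.gcd x.re x.im : ℤ) := by exact_mod_cast hd
    exact ⟨h1.trans (Int.gcd_dvd_left ..), h1.trans (Int.gcd_dvd_right ..)⟩
theorem Pm_one : Pm 1 := by
  unfold Pm
  rw [QuadraticAlgebra.re_one]
  exact isCoprime_one_left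
theorem Pm_of_mul {x y : O} (h : Pm (x * y)) : Pm y := by
  rw [Pm_iff] at *
  intro q hq hd
  exact h q hq (Dvd.dvd.mul_left hd x)
theorem Pm_mul_unit (k : ℤ) {x : O} : Pm (((omu ^ k : Oˣ) : O) * x) ↔ Pm x := by
  rw [Pm_iff, Pm_iff]
  refine forall_congr' fun q => forall_congr' fun _ => not_congr ?_
  exact Units.dvd_mul_left
theorem Pm_mul {p x : O} (hp : (N p).natAbs.Prime) (ht : TP p) (hx : Pm x) (h : ¬ star p ∣ x) : Pm (p * x) := by
  rw [Pm_iff] at *
  intro q hq hd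
  have hNp := ht.N_pos
  by_cases hqp : q = (N p).natAbs
  · have h1 : (q : O) = p * star p := by
      rw [mul_star_self, hqp]
      have h2 : ((N p).natAbs : ℤ) = N p := Int.natAbs_of_nonneg hNp.le
      calc (((N p).natAbs : ℕ) : O) = (((N p).natAbs : ℤ) : O) := (Int.cast_natCast _).symm
        _ = ((N p : ℤ) : O) := by rw [h2]
    rw [h1] at hd
    exact h ((mul_dvd_mul_iff_left ht.ne_zero).mp hd)
  · have h1 : (q : O) ∣ star p * (p * x) := Dvd.dvd.mul_left hd _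
    have h2 : star p * (p * x) = ((N p : ℤ) : O) * x := by
      rw [← mul_star_self]
      ring
    rw [h2, natCast_dvd_iff] at h1
    have hq' : Prime (q : ℤ) := Nat.prime_iff_prime_int.mp hq
    have hnd : ¬ (q : ℤ) ∣ N p := by
      intro h3
      have h4 : q ∣ (N p).natAbs := Int.natCast_dvd.mp h3
      exact hqp ((Nat.prime_dvd_prime_iff_eq hq hp).mp h4)
    have e1 : (((N p : ℤ) : O) * x).re = N p * x.re := by
      rw [QuadraticAlgebra.re_mul, QuadraticAlgebra.re_intCast, QuadraticAlgebra.im_intCast,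
        Int.cast_id]
      ring
    have e2 : (((N p : ℤ) : O) * x).im = N p * x.im := by
      rw [QuadraticAlgebra.im_mul, QuadraticAlgebra.re_intCast, QuadraticAlgebra.im_intCast,
        Int.cast_id]
      ring
    rw [e1, e2] at h1
    apply hx q hq
    rw [natCast_dvd_iff]
    exact ⟨(hq'.dvd_or_dvd h1.1).resolve_left hnd, (hq'.dvd_or_dvd h1.2).resolve_left hnd⟩
theorem not_Pm_mul {p x : O} (hp : (N p).natAbs.Prime) (h : star p ∣ x) : ¬ Pm (p * x) := by
  rw [Pm_iff]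
  intro hcon
  obtain ⟨y, rfl⟩ := h
  apply hcon _ hp
  have h1 : p * (star p * y) = ((N p : ℤ) : O) * y := by
    rw [← mul_star_self]
    ring
  rw [h1]
  apply Dvd.dvd.mul_right
  rw [natCast_dvd_iff, QuadraticAlgebra.re_intCast, QuadraticAlgebra.im_intCast]
  exact ⟨Int.natAbs_dvd.mpr dvd_rfl, dvd_zero _⟩

end Pool.Agent.Lib.MP_d57abb_nt.MR
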