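import Mathlib
import Pool.Agent.Lib.MP_d57abb_nt.MR.ChDef
import Pool.Agent.Lib.MP_d57abb_nt.MR.Prm

/-!
# JOB ChA: residue classes

* `red_eq_iff`: `ZMod.intCast_eq_intCast_iff`, coordinates (`QuadraticAlgebra.ext_iff`).
* `red_star`: `star ⟨x, y⟩ = ⟨x + 3 y, -y⟩` in both rings (`QuadraticAlgebra.re_star`, `im_star`).  `red_nat`: `red W (n : O) = cst n` (coordinates).
* `nm_red`: `QuadraticAlgebra.norm_def`; `nm_mul`: `nm` is multiplicative (`map_mul`); `nm_star`, `nm_cst`: `norm_star`, `c * c`.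
* `mul_star_RW`: `x * star x = cst (nm x)` (`QuadraticAlgebra.algebraMap_norm_eq_mul_star`, or coordinates and `ring`).  `cst_mul`, `cst_one`: coordinates.
* `isUnit_iff_nm`: `QuadraticAlgebra.isUnit_iff_norm_isUnit`.
* `isUnit_red_prime`: `N p` is prime to `W` (`(N p).natAbs` is a prime which does not divide `W`; `ZMod.isUnit_iff_coprime` / `ZMod.unitOfCoprime`, `N p > 0`).
* `isUnit_red_om`: `om` is a unit of `O` (`omu`).
* `red_swap`: `⟨p.im, p.re⟩ = om * star p` (`swap_assoc`).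
* `five_nm`: let `W = 5 m`.  If `x` is a unit then for every `n : ℕ` with `(n : ZMod W) = nm x` one has, with representatives `a, b` of the coordinates (`ZMod.intCast_surjective`),
  `n ≡ a² + 3 a b + b² ≡ (a - b)² (mod 5)` and `n` is prime to `5` (`nm x` is a unit of `ZMod W`), so `n % 5 = 1 ∨ n % 5 = 4`.
* `star_fix`: `star x = x` iff `3 x.im = 0` and `-x.im = x.im`, i.e. `3 x.im = 0 = 2 x.im`, iff `x.im = 0`.
-/

namespace Pool.Agent.Lib.MP_d57abb_nt.MR

variable {W : ℕ}

theorem red_eq_iff (x y : O) : red W x = red W y ↔ x.re ≡ y.re [ZMOD W] ∧ x.im ≡ y.im [ZMOD W] := by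
  rw [QuadraticAlgebra.ext_iff, red_re, red_re, red_im, red_im, ZMod.intCast_eq_intCast_iff,
    ZMod.intCast_eq_intCast_iff]
theorem red_star (x : O) : red W (star x) = star (red W x) := by
  ext
  · rw [red_re, QuadraticAlgebra.re_star, QuadraticAlgebra.re_star, red_re, red_im]
    push_cast
    ring
  · rw [red_im, QuadraticAlgebra.im_star, QuadraticAlgebra.im_star, red_im]
    push_cast
    ring
theorem red_nat (n : ℕ) : red W (n : O) = cst (n : ZMod W) := by
  ext
  · rw [red_re, QuadraticAlgebra.re_natCast]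
    change _ = (n : ZMod W)
    push_cast
    rfl
  · rw [red_im, QuadraticAlgebra.im_natCast]
    change _ = (0 : ZMod W)
    push_cast
    rfl
theorem nm_red (x : O) : nm (red W x) = ((N x : ℤ) : ZMod W) := by
  unfold nm N
  rw [QuadraticAlgebra.norm_def, red_re, red_im]
  push_cast
  ring
theorem nm_mul (x y : RW W) : nm (x * y) = nm x * nm y := by
  unfold nm
  exact map_mul _ _ _
theorem nm_one : nm (1 : RW W) = 1 := by
  unfold nm
  exact map_one _
theorem nm_star (x : RW W) : nm (star x) = nm x := by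
  unfold nm
  exact QuadraticAlgebra.norm_star x
theorem nm_neg (x : RW W) : nm (-x) = nm x := by
  unfold nm
  exact QuadraticAlgebra.norm_neg x
theorem nm_cst (c : ZMod W) : nm (cst c) = c ^ 2 := by
  unfold nm cst
  rw [QuadraticAlgebra.norm_def]
  ring
theorem mul_star_RW (x : RW W) : x * star x = cst (nm x) := by
  unfold nm cst
  rw [← QuadraticAlgebra.algebraMap_norm_eq_mul_star]
  rfl
theorem cst_mul (c c' : ZMod W) : cst (c * c') = cst c * cst c' := by
  unfold cst
  ext
  · simp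
  · simp
theorem cst_one : cst (1 : ZMod W) = 1 := by
  rfl
theorem cst_neg (c : ZMod W) : cst (-c) = - cst c := by
  unfold cst
  ext
  · simp
  · simp
theorem isUnit_iff_nm (x : RW W) : IsUnit x ↔ IsUnit (nm x) := by
  unfold nm
  exact QuadraticAlgebra.isUnit_iff_norm_isUnit
theorem isUnit_red_prime {p : O} (h : Dg W p) : IsUnit (red W p) := by
  rw [isUnit_iff_nm, nm_red]
  have h1 : N p = (((N p).natAbs : ℕ) : ℤ) := by
    have := h.two_le
    omega
  rw [h1, Int.cast_natCast, ZMod.isUnit_iff_coprime]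
  exact (Nat.Prime.coprime_iff_not_dvd h.2.1).2 h.2.2
theorem isUnit_red_om : IsUnit (red W om) := by
  have h1 : IsUnit om := ⟨omu, coe_omu⟩
  exact h1.map (red W)
theorem red_swap (p : O) : red W ⟨p.im, p.re⟩ = red W om * star (red W p) := by
  rw [← swap_assoc, map_mul, red_star]
private theorem ChA_sq (a b n : ℤ) (h : n ≡ a ^ 2 + 3 * a * b + b ^ 2 [ZMOD 5]) (h0 : ¬ n % 5 = 0) :
    n % 5 = 1 ∨ n % 5 = 4 := by
  have h1 : n % 5 = ((a - b) % 5) ^ 2 % 5 := by
    have e : a ^ 2 + 3 * a * b + b ^ 2 = (a - b) ^ 2 + 5 * (a * b) := by ring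
    rw [h, e, Int.add_mul_emod_self_left, pow_two, pow_two, Int.mul_emod]
  have h2 : (a - b) % 5 = 0 ∨ (a - b) % 5 = 1 ∨ (a - b) % 5 = 2 ∨ (a - b) % 5 = 3 ∨
      (a - b) % 5 = 4 := by omega
  rcases h2 with h2 | h2 | h2 | h2 | h2 <;> rw [h2] at h1 <;> norm_num at h1 <;> omega
theorem five_nm (h5 : 5 ∣ W) {x : RW W} (hx : IsUnit x) : Five (nm x) := by
  intro n hn
  rw [isUnit_iff_nm, ← hn, ZMod.isUnit_iff_coprime] at hx
  obtain ⟨a, ha⟩ := ZMod.intCast_surjective x.re
  obtain ⟨b, hb⟩ := ZMod.intCast_surjective x.im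
  have h1 : ((n : ℤ) : ZMod W) = ((a ^ 2 + 3 * a * b + b ^ 2 : ℤ) : ZMod W) := by
    unfold nm at hn
    rw [QuadraticAlgebra.norm_def, ← ha, ← hb] at hn
    push_cast
    rw [hn]
    ring
  rw [ZMod.intCast_eq_intCast_iff] at h1
  have h5' : (5 : ℤ) ∣ (W : ℤ) := by exact_mod_cast h5
  have h2 := h1.of_dvd h5'
  have h3 : ¬ (n : ℤ) % 5 = 0 := by
    intro h4
    have h6 : 5 ∣ n := by omega
    have h7 : 5 ∣ Nat.gcd n W := Nat.dvd_gcd h6 h5
    rw [hx] at h7
    omega
  have h4 := ChA_sq a b n h2 h3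
  omega
theorem star_fix (x : RW W) : star x = x ↔ x.im = 0 := by
  constructor
  · intro h
    have h1 := congrArg QuadraticAlgebra.re h
    have h2 := congrArg QuadraticAlgebra.im h
    rw [QuadraticAlgebra.re_star] at h1
    rw [QuadraticAlgebra.im_star] at h2
    linear_combination h1 + h2
  · intro h
    ext
    · rw [QuadraticAlgebra.re_star, h, mul_zero, add_zero]
    · rw [QuadraticAlgebra.im_star, h, neg_zero]

end Pool.Agent.Lib.MP_d57abb_nt.MR
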