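import Mathlib
import Pool.Agent.Lib.MP_d57abb_nt.MR.ChDef

/-!
# JOB ChB: characters of the residue ring

* `char_pow`: `(g : (RW W)ˣ) ^ Nat.card = 1` (`pow_card_eq_one'`), `χ g ^ n = χ (g ^ n) = χ 1 = 1` (`map_pow`, `Units.val_pow_eq_pow_val`).
* `norm_char`: a root of unity has norm `1` (`pow_eq_one_iff_of_nonneg`, `Nat.card_pos`).  `norm_char_le`: units: `norm_char`; non-units: `MulChar.map_nonunit`.
* `char_sum_units`: for `g ≠ 1` there is `χ₀` with `χ₀ g ≠ 1` (`MulChar.exists_apply_ne_one_of_hasEnoughRootsOfUnity (RW W) ℂ`, for `a = (g : RW W) ≠ 1`); `χ₀ g * ∑_χ χ g = ∑_χ (χ₀ χ) g =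
  ∑_χ χ g` (`Equiv.mulLeft`, `MulChar.mul_apply`), so the sum is `0`.  For `g = 1` all values are `1`, and the number of characters is `Nat.card (RW W)ˣ`
  (`MulChar.card_eq_card_units_of_hasEnoughRootsOfUnity`).
* `psi_mul`: the substitution `h = g h'` (`Equiv.mulLeft g`, `Fintype.sum_equiv`): `g x = g h' a ↔ x = h' a` (`Units.mul_right_inj`), `χ (g h') = χ g χ h'`.
* `norm_psi`: `‖∑‖ ≤ ∑ 1 = #units` (`norm_char`, `Finset.card_univ`, `Nat.card_eq_fintype_card`).
* `sum_psi`: exchange the sums and use `char_sum_units`: `∑_χ ∑_g [x = g a] χ g = ∑_g [x = g a] #units [g = 1] = #units [x = a]`.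
-/

namespace Pool.Agent.Lib.MP_d57abb_nt.MR

variable {W : ℕ} [NeZero W]

theorem char_pow (χ : MulChar (RW W) ℂ) (g : (RW W)ˣ) : χ (g : RW W) ^ (Nat.card (RW W)ˣ) = 1 := by
  rw [← map_pow, ← Units.val_pow_eq_pow_val, pow_card_eq_one', Units.val_one, map_one]
theorem norm_char (χ : MulChar (RW W) ℂ) {x : RW W} (hx : IsUnit x) : ‖χ x‖ = 1 := by
  obtain ⟨g, rfl⟩ := hx
  have h1 := char_pow χ g
  have h2 : ‖χ (g : RW W)‖ ^ (Nat.card (RW W)ˣ) = 1 := by
    rw [← norm_pow, h1, norm_one]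
  exact (pow_eq_one_iff_of_nonneg (norm_nonneg _) Nat.card_pos.ne').1 h2
theorem norm_char_le (χ : MulChar (RW W) ℂ) (x : RW W) : ‖χ x‖ ≤ 1 := by
  by_cases hx : IsUnit x
  · exact (norm_char χ hx).le
  · rw [χ.map_nonunit hx, norm_zero]
    exact zero_le_one
open Classical in
theorem char_sum_units (g : (RW W)ˣ) :
    ∑ χ : MulChar (RW W) ℂ, χ (g : RW W) = if g = 1 then (Nat.card (RW W)ˣ : ℂ) else 0 := by
  by_cases hg : g = 1
  · rw [if_pos hg, hg]
    have h1 : ∀ χ : MulChar (RW W) ℂ, χ ((1 : (RW W)ˣ) : RW W) = 1 := by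
      intro χ
      rw [Units.val_one, map_one]
    rw [Finset.sum_congr rfl fun χ _ => h1 χ, Finset.sum_const, nsmul_eq_mul, mul_one,
      Finset.card_univ, ← Nat.card_eq_fintype_card,
      MulChar.card_eq_card_units_of_hasEnoughRootsOfUnity (RW W) ℂ]
  · rw [if_neg hg]
    have hg' : (g : RW W) ≠ 1 := by
      intro h
      apply hg
      exact Units.ext (h.trans Units.val_one.symm)
    obtain ⟨χ₀, h0⟩ := MulChar.exists_apply_ne_one_of_hasEnoughRootsOfUnity (RW W) ℂ hg'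
    have h1 : χ₀ (g : RW W) * ∑ χ : MulChar (RW W) ℂ, χ (g : RW W) =
        ∑ χ : MulChar (RW W) ℂ, χ (g : RW W) := by
      rw [Finset.mul_sum]
      have h2 : ∀ χ : MulChar (RW W) ℂ, χ₀ (g : RW W) * χ (g : RW W) =
          (Equiv.mulLeft χ₀ χ : MulChar (RW W) ℂ) (g : RW W) := by
        intro χ
        rw [Equiv.coe_mulLeft, MulChar.mul_apply]
      rw [Finset.sum_congr rfl fun χ _ => h2 χ]
      exact Equiv.sum_comp (Equiv.mulLeft χ₀) (fun χ : MulChar (RW W) ℂ => χ (g : RW W))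
    have h3 : (χ₀ (g : RW W) - 1) * ∑ χ : MulChar (RW W) ℂ, χ (g : RW W) = 0 := by
      rw [sub_mul, one_mul, h1, sub_self]
    rcases mul_eq_zero.1 h3 with h4 | h4
    · exact absurd (sub_eq_zero.1 h4) h0
    · exact h4
theorem psi_mul (χ : MulChar (RW W) ℂ) (a : RW W) {g : RW W} (hg : IsUnit g) (x : RW W) :
    psi χ a (g * x) = χ g * psi χ a x := by
  classical
  obtain ⟨u, rfl⟩ := hg
  unfold psi
  rw [← mul_div_assoc]
  congr 1
  rw [Finset.mul_sum]
  have h1 := Equiv.sum_comp (Equiv.mulLeft u)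
    (fun v : (RW W)ˣ => if (u : RW W) * x = (v : RW W) * a then χ (v : RW W) else 0)
  rw [← h1]
  refine Finset.sum_congr rfl fun v _ => ?_
  rw [Equiv.coe_mulLeft, Units.val_mul, mul_assoc, map_mul]
  by_cases h : x = (v : RW W) * a
  · rw [if_pos h, if_pos (by rw [h])]
  · have h2 : ¬ (u : RW W) * x = (u : RW W) * ((v : RW W) * a) := by
      intro h3
      exact h ((Units.mul_right_inj u).1 h3)
    rw [if_neg h, if_neg h2, mul_zero]
theorem norm_psi (χ : MulChar (RW W) ℂ) (a x : RW W) : ‖psi χ a x‖ ≤ 1 := by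
  classical
  unfold psi
  have hc : (0 : ℝ) < (Nat.card (RW W)ˣ : ℝ) := by
    exact_mod_cast Nat.card_pos
  rw [norm_div, Complex.norm_natCast, div_le_one hc]
  refine (norm_sum_le _ _).trans ?_
  have h1 : ∀ g : (RW W)ˣ, ‖(if x = (g : RW W) * a then χ (g : RW W) else 0 : ℂ)‖ ≤ 1 := by
    intro g
    split_ifs
    · exact norm_char_le χ _
    · rw [norm_zero]
      exact zero_le_one
  refine (Finset.sum_le_sum fun g _ => h1 g).trans ?_
  rw [Finset.sum_const, nsmul_eq_mul, mul_one, Finset.card_univ, Nat.card_eq_fintype_card]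
open Classical in
theorem sum_psi (a x : RW W) : ∑ χ : MulChar (RW W) ℂ, psi χ a x = if x = a then 1 else 0 := by
  unfold psi
  have hc : (Nat.card (RW W)ˣ : ℂ) ≠ 0 := by
    exact_mod_cast Nat.card_pos.ne'
  rw [← Finset.sum_div, div_eq_iff hc, Finset.sum_comm]
  have h1 : ∀ g : (RW W)ˣ, (∑ χ : MulChar (RW W) ℂ,
      if x = (g : RW W) * a then χ (g : RW W) else 0) =
      if g = 1 then (if x = a then (Nat.card (RW W)ˣ : ℂ) else 0) else 0 := by
    intro g
    by_cases h : x = (g : RW W) * a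
    · have h2 : (∑ χ : MulChar (RW W) ℂ, if x = (g : RW W) * a then χ (g : RW W) else 0) =
          ∑ χ : MulChar (RW W) ℂ, χ (g : RW W) :=
        Finset.sum_congr rfl fun χ _ => if_pos h
      rw [h2, char_sum_units]
      by_cases hg : g = 1
      · rw [if_pos hg, if_pos hg, if_pos]
        rw [h, hg, Units.val_one, one_mul]
      · rw [if_neg hg, if_neg hg]
    · have h2 : (∑ χ : MulChar (RW W) ℂ, if x = (g : RW W) * a then χ (g : RW W) else 0) = 0 :=
        Finset.sum_eq_zero fun χ _ => if_neg h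
      rw [h2]
      by_cases hg : g = 1
      · rw [if_pos hg, if_neg]
        intro h3
        apply h
        rw [h3, hg, Units.val_one, one_mul]
      · rw [if_neg hg]
  rw [Finset.sum_congr rfl fun g _ => h1 g, Finset.sum_ite_eq', if_pos (Finset.mem_univ _)]
  split_ifs
  · rw [one_mul]
  · rw [zero_mul]

end Pool.Agent.Lib.MP_d57abb_nt.MR
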