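import Mathlib
import Pool.Agent.Lib.MP_d57abb_nt.MR.ChA
import Pool.Agent.Lib.MP_d57abb_nt.MR.ChB

/-!
# JOB ChC: the data attached to a character

* `exists_angle`: a root of unity `ζ` with `ζ ^ m = 1` is `e (-(k / m))` for some integer `k`: `Complex.isPrimitiveRoot_exp m`, `IsPrimitiveRoot.eq_pow_of_pow_eq_one` gives `ζ = exp (2πi/m) ^ i`, take
  `k = -i`.
* `datum`: `D = W`, `Q = q * Nat.card (RW W)ˣ`, `a x = z ^ (Ω (N x).natAbs) * psi χ a₀ (red W x)`, `f p = z * χ (red W p)`, `t` from `exists_angle` for `ζ = χ (red W om)`,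
  `m = Nat.card (RW W)ˣ` (`char_pow` for the unit `red W om`, `isUnit_red_om`), so `Q t = q k` is an integer and `e (-t) = χ (red W om)`.
  `a_le`: `‖z‖ = 1` (root of unity), `norm_psi`.  `f_pow`: `z ^ Q = 1`, `char_pow` for the unit `red W p` (`isUnit_red_prime`).
  `mul`: `N (p x) = N p * N x`, `(N p).natAbs` is prime, so `Ω (N (p x)).natAbs = 1 + Ω (N x).natAbs` (`Int.natAbs_mul`, `ArithmeticFunction.cardFactors_mul`, `cardFactors_apply_prime`; `N x ≠ 0` by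
  `TP.N_pos`), and `psi_mul` for the unit `red W p`, `map_mul`.  `unit`: `N (om x) = N x` (`N_mul`, `N_om`), `psi_mul` for `red W om`.
  Last property: if `t = n` is an integer then `χ (red W om) = e (-t) = 1`.
-/

namespace Pool.Agent.Lib.MP_d57abb_nt.MR

open Pool.Agent.Lib.MP_2a816b_nt (e)

theorem exists_angle {ζ : ℂ} {m : ℕ} (hm : 0 < m) (h : ζ ^ m = 1) : ∃ k : ℤ, e (-((k : ℝ) / m)) = ζ := by
  have h1 := Complex.isPrimitiveRoot_exp m hm.ne'
  have _ : NeZero m := ⟨hm.ne'⟩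
  obtain ⟨i, -, hi⟩ := h1.eq_pow_of_pow_eq_one h
  refine ⟨-(i : ℤ), ?_⟩
  rw [← hi, ← Complex.exp_nat_mul]
  unfold Pool.Agent.Lib.MP_2a816b_nt.e
  congr 1
  push_cast
  ring

private theorem ChC_Om {p x : O} (hp : (N p).natAbs.Prime) (hx : 0 < N x) :
    ArithmeticFunction.cardFactors (N (p * x)).natAbs =
      1 + ArithmeticFunction.cardFactors (N x).natAbs := by
  rw [N_mul, Int.natAbs_mul, ArithmeticFunction.cardFactors_mul hp.ne_zero
    (Int.natAbs_ne_zero.2 hx.ne'), ArithmeticFunction.cardFactors_apply_prime hp]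

theorem datum {W : ℕ} [NeZero W] (h5 : 5 ∣ W) {z : ℂ} {q : ℕ} (hq0 : 0 < q) (hq : z ^ q = 1) (χ : MulChar (RW W) ℂ) (a₀ : RW W) :
    ∃ d : Dat, d.D = W ∧
      (∀ x : O, d.a x = z ^ (ArithmeticFunction.cardFactors (N x).natAbs) * psi χ a₀ (red W x)) ∧
      (∀ p : O, d.f p = z * χ (red W p)) ∧ ((∃ n : ℤ, d.t = n) → χ (red W om) = 1) := by
  have hm : 0 < Nat.card (RW W)ˣ := Nat.card_pos
  have hz : ‖z‖ = 1 := by
    have h1 : ‖z‖ ^ q = 1 := by rw [← norm_pow, hq, norm_one]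
    exact (pow_eq_one_iff_of_nonneg (norm_nonneg z) hq0.ne').1 h1
  have hchar : ∀ x : RW W, IsUnit x → χ x ^ Nat.card (RW W)ˣ = 1 := by
    rintro _ ⟨g, rfl⟩
    exact char_pow χ g
  obtain ⟨k, hk⟩ := exists_angle hm (hchar _ isUnit_red_om)
  have hm' : ((Nat.card (RW W)ˣ : ℕ) : ℝ) ≠ 0 := by
    rw [Nat.cast_ne_zero]
    exact hm.ne'
  refine ⟨{
    a := fun x => z ^ (ArithmeticFunction.cardFactors (N x).natAbs) * psi χ a₀ (red W x)
    f := fun p => z * χ (red W p)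
    t := (k : ℝ) / (Nat.card (RW W)ˣ : ℕ)
    D := W
    Q := q * Nat.card (RW W)ˣ
    D0 := Nat.pos_of_ne_zero (NeZero.ne W)
    D5 := h5
    Q0 := Nat.mul_pos hq0 hm
    a_le := ?_
    f_pow := ?_
    t_int := ?_
    mul := ?_
    unit := ?_ }, rfl, fun x => rfl, fun p => rfl, ?_⟩
  · intro x
    rw [norm_mul, norm_pow, hz, one_pow, one_mul]
    exact norm_psi χ a₀ _
  · intro p hp
    rw [mul_pow, pow_mul, hq, one_pow, one_mul, mul_comm q, pow_mul,
      hchar _ (isUnit_red_prime hp), one_pow]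
  · refine ⟨(q : ℤ) * k, ?_⟩
    push_cast
    field_simp
  · intro p x hp hx
    rw [ChC_Om hp.2.1 hx.N_pos, pow_add, pow_one, map_mul,
      psi_mul χ a₀ (isUnit_red_prime hp)]
    ring
  · intro x hx
    rw [N_mul, N_om, one_mul, map_mul, psi_mul χ a₀ isUnit_red_om, hk]
    ring
  · rintro ⟨n, hn⟩
    have h1 : (k : ℝ) / (Nat.card (RW W)ˣ : ℕ) = n := hn
    rw [← hk, h1, Pool.Agent.Lib.MP_2a816b_nt.e_neg, Pool.Agent.Lib.MP_2a816b_nt.e_int, inv_one]

end Pool.Agent.Lib.MP_d57abb_nt.MR
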