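import Mathlib
import Pool.Agent.Lib.MP_d57abb_nt.MR.ChA
import Pool.Agent.Lib.MP_d57abb_nt.MR.ChB

/-!
# JOB ChD: the points of the quadrant are equidistributed modulo `W`

Let `n a = #{v ∈ V Y : red W v = a}`, `Y ≥ 1`.
* `class_step`: (a) `n (a + 1) ≤ n a + (√Y + 1)`: the map `v ↦ v - 1` sends the `v ∈ V Y` with `red W v = a + 1` and `v.re ≥ 2` injectively to `{v ∈ V Y : red W v = a}` (`Qd` is clear, the norm
  `re² + 3 re im + im²` decreases), and there are at most `√Y + 1` elements `v ∈ V Y` with `v.re = 1` (`0 ≤ v.im ≤ √Y`, as `v.im² ≤ N v ≤ Y`; the map `v ↦ v.im` is injective on them, `⌊√Y⌋₊ + 1` values).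
  (b) `n (a + red W om) ≤ n a + (√Y + 1)`: the same with `v ↦ v - om`, `v.im ≥ 1`, and the elements with `v.im = 0`, `1 ≤ v.re ≤ √Y`.  (`mem_V`.)
* `class_le`: every `b : RW W` is `a + k • 1 + l • red W om` with natural `k, l < W` (coordinates of `b - a`, `ZMod.natCast_zmod_val`, `ZMod.val_lt`), so by induction
  `n b ≤ n a + 2 W (√Y + 1) ≤ n a + 4 W √Y`.
* `char_sum`: `∑_{v ∈ V Y} χ (red W v) = ∑_a χ a * n a = ∑_a χ a (n a - n 0)` since `∑_a χ a = 0` (`MulChar.sum_eq_zero_of_ne_one`), and `|n a - n 0| ≤ 4 W √Y` by `class_le` (twice), `‖χ a‖ ≤ 1`; so the sum is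
  at most `#(RW W) * 4 W * √Y ≤ C Y^(1 - 1/4)` (`√Y = Y^(1/2)`, `Y ≥ 1`).  (`Finset.sum_fiberwise`.)
-/

namespace Pool.Agent.Lib.MP_d57abb_nt.MR

open Finset

variable {W : ℕ} [NeZero W]

private theorem ChD_card {Y : ℝ} (S : Finset O) (φ : O → ℤ) (hinj : Set.InjOn φ S)
    (h0 : ∀ v ∈ S, 0 ≤ φ v) (h2 : ∀ v ∈ S, ((φ v : ℤ) : ℝ) ^ 2 ≤ Y) : (S.card : ℝ) ≤ √Y + 1 := by
  classical
  have h1 : S.image φ ⊆ Finset.Icc (0 : ℤ) ⌊√Y⌋ := by
    intro k hk
    obtain ⟨v, hv, rfl⟩ := Finset.mem_image.1 hk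
    rw [Finset.mem_Icc]
    refine ⟨h0 v hv, ?_⟩
    rw [Int.le_floor]
    exact Real.le_sqrt_of_sq_le (h2 v hv)
  have h3 : S.card ≤ (Finset.Icc (0 : ℤ) ⌊√Y⌋).card := by
    rw [← Finset.card_image_of_injOn hinj]
    exact Finset.card_le_card h1
  rw [Int.card_Icc] at h3
  have h4 : (0 : ℤ) ≤ ⌊√Y⌋ := Int.floor_nonneg.2 (Real.sqrt_nonneg _)
  have h5 : ((⌊√Y⌋ + 1 - 0).toNat : ℤ) = ⌊√Y⌋ + 1 := by omega
  have h6 : ((⌊√Y⌋ + 1 - 0).toNat : ℝ) = (⌊√Y⌋ : ℝ) + 1 := by exact_mod_cast h5
  calc (S.card : ℝ) ≤ ((⌊√Y⌋ + 1 - 0).toNat : ℝ) := by exact_mod_cast h3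
    _ = (⌊√Y⌋ : ℝ) + 1 := h6
    _ ≤ √Y + 1 := by
        have := Int.floor_le (√Y)
        linarith

open Classical in
/-- general form of the step: shift by `s` -/
private theorem ChD_step {Y : ℝ} (a : RW W) (s : O) (φ : O → ℤ) (good : O → Prop)
    (hgood : ∀ v ∈ V Y, good v → v - s ∈ V Y)
    (hinj : ∀ v ∈ V Y, ∀ w ∈ V Y, ¬ good v → ¬ good w → φ v = φ w → v = w)
    (h0 : ∀ v ∈ V Y, ¬ good v → 0 ≤ φ v) (h2 : ∀ v ∈ V Y, ¬ good v → ((φ v : ℤ) : ℝ) ^ 2 ≤ Y) :
    (((V Y).filter (fun v => red W v = a + red W s)).card : ℝ) ≤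
      ((V Y).filter (fun v => red W v = a)).card + (√Y + 1) := by
  have h1 := Finset.card_filter_add_card_filter_not (s := (V Y).filter (fun v => red W v = a + red W s)) good
  have h3 : (((V Y).filter (fun v => red W v = a + red W s)).filter good).card ≤
      ((V Y).filter (fun v => red W v = a)).card := by
    refine Finset.card_le_card_of_injOn (fun v => v - s) ?_ ?_
    · intro v hv
      obtain ⟨hv1, hv2⟩ := Finset.mem_filter.1 (Finset.mem_coe.1 hv)
      obtain ⟨hv3, hv4⟩ := Finset.mem_filter.1 hv1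
      refine Finset.mem_coe.2 (Finset.mem_filter.2 ⟨hgood v hv3 hv2, ?_⟩)
      rw [map_sub, hv4]
      ring
    · intro v _ w _ h
      exact sub_left_injective h
  have h4 : ((((V Y).filter (fun v => red W v = a + red W s)).filter (fun v => ¬ good v)).card : ℝ) ≤ √Y + 1 := by
    refine ChD_card _ φ ?_ ?_ ?_
    · intro v hv w hw h
      obtain ⟨hv1, hv2⟩ := Finset.mem_filter.1 (Finset.mem_coe.1 hv)
      obtain ⟨hw1, hw2⟩ := Finset.mem_filter.1 (Finset.mem_coe.1 hw)
      exact hinj v (Finset.mem_filter.1 hv1).1 w (Finset.mem_filter.1 hw1).1 hv2 hw2 h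
    · intro v hv
      obtain ⟨hv1, hv2⟩ := Finset.mem_filter.1 hv
      exact h0 v (Finset.mem_filter.1 hv1).1 hv2
    · intro v hv
      obtain ⟨hv1, hv2⟩ := Finset.mem_filter.1 hv
      exact h2 v (Finset.mem_filter.1 hv1).1 hv2
  have h5 : (((V Y).filter (fun v => red W v = a + red W s)).card : ℝ) =
      ((((V Y).filter (fun v => red W v = a + red W s)).filter good).card : ℝ) +
      ((((V Y).filter (fun v => red W v = a + red W s)).filter (fun v => ¬ good v)).card : ℝ) := by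
    exact_mod_cast h1.symm
  rw [h5]
  have h6 : ((((V Y).filter (fun v => red W v = a + red W s)).filter good).card : ℝ) ≤
      (((V Y).filter (fun v => red W v = a)).card : ℝ) := by exact_mod_cast h3
  exact add_le_add h6 h4

open Classical in
theorem class_step {Y : ℝ} (hY : 1 ≤ Y) (a : RW W) :
    (((V Y).filter (fun v => red W v = a + 1)).card : ℝ) ≤ ((V Y).filter (fun v => red W v = a)).card + (√Y + 1) ∧
    (((V Y).filter (fun v => red W v = a + red W om)).card : ℝ) ≤ ((V Y).filter (fun v => red W v = a)).card + (√Y + 1) := by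
  constructor
  · have h := ChD_step (Y := Y) a 1 (fun v => v.im) (fun v => 2 ≤ v.re) ?_ ?_ ?_ ?_
    · rwa [map_one] at h
    · intro v hv hg
      obtain ⟨⟨h1, h2⟩, h3⟩ := mem_V.1 hv
      refine mem_V.2 ⟨⟨?_, ?_⟩, ?_⟩
      · rw [QuadraticAlgebra.re_sub, QuadraticAlgebra.re_one]
        omega
      · rw [QuadraticAlgebra.im_sub, QuadraticAlgebra.im_one]
        omega
      · refine le_trans ?_ h3
        have h4 : N (v - 1) ≤ N v := by
          unfold N
          rw [QuadraticAlgebra.re_sub, QuadraticAlgebra.re_one, QuadraticAlgebra.im_sub, QuadraticAlgebra.im_one]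
          nlinarith
        exact_mod_cast h4
    · intro v hv w hw hgv hgw h
      obtain ⟨⟨h1, h2⟩, h3⟩ := mem_V.1 hv
      obtain ⟨⟨h4, h5⟩, h6⟩ := mem_V.1 hw
      refine QuadraticAlgebra.ext ?_ h
      omega
    · intro v hv _
      exact (mem_V.1 hv).1.2
    · intro v hv _
      obtain ⟨⟨h1, h2⟩, h3⟩ := mem_V.1 hv
      refine le_trans ?_ h3
      have h4 : v.im ^ 2 ≤ N v := by
        unfold N
        nlinarith [mul_nonneg (show (0 : ℤ) ≤ v.re by omega) h2, sq_nonneg v.re]
      exact_mod_cast h4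
  · refine ChD_step (Y := Y) a om (fun v => v.re) (fun v => 1 ≤ v.im) ?_ ?_ ?_ ?_
    · intro v hv hg
      obtain ⟨⟨h1, h2⟩, h3⟩ := mem_V.1 hv
      have e1 : (v - om).re = v.re := by
        rw [QuadraticAlgebra.re_sub]
        exact sub_zero _
      have e2 : (v - om).im = v.im - 1 := by
        rw [QuadraticAlgebra.im_sub]
        rfl
      refine mem_V.2 ⟨⟨?_, ?_⟩, ?_⟩
      · rw [e1]
        exact h1
      · rw [e2]
        omega
      · refine le_trans ?_ h3
        have h4 : N (v - om) ≤ N v := by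
          unfold N
          rw [e1, e2]
          nlinarith
        exact_mod_cast h4
    · intro v hv w hw hgv hgw h
      obtain ⟨⟨h1, h2⟩, h3⟩ := mem_V.1 hv
      obtain ⟨⟨h4, h5⟩, h6⟩ := mem_V.1 hw
      refine QuadraticAlgebra.ext h ?_
      omega
    · intro v hv _
      have := (mem_V.1 hv).1.1
      omega
    · intro v hv _
      obtain ⟨⟨h1, h2⟩, h3⟩ := mem_V.1 hv
      refine le_trans ?_ h3
      have h4 : v.re ^ 2 ≤ N v := by
        unfold N
        nlinarith [mul_nonneg (show (0 : ℤ) ≤ v.re by omega) h2, sq_nonneg v.im]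
      exact_mod_cast h4

open Classical in
theorem class_le {Y : ℝ} (hY : 1 ≤ Y) (a b : RW W) :
    (((V Y).filter (fun v => red W v = b)).card : ℝ) ≤ ((V Y).filter (fun v => red W v = a)).card + 4 * W * √Y := by
  have hs : 1 ≤ √Y := by
    rw [Real.one_le_sqrt]
    exact hY
  have h1 : ∀ (k : ℕ) (c : RW W), (((V Y).filter (fun v => red W v = c + k • (1 : RW W))).card : ℝ) ≤
      ((V Y).filter (fun v => red W v = c)).card + k * (√Y + 1) := by
    intro k c
    induction k with
    | zero => simp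
    | succ k ih =>
      have h2 := (class_step hY (c + k • (1 : RW W))).1
      have e1 : c + (k + 1) • (1 : RW W) = c + k • (1 : RW W) + 1 := by
        rw [succ_nsmul]
        ring
      rw [e1]
      push_cast
      linarith
  have h2 : ∀ (k : ℕ) (c : RW W), (((V Y).filter (fun v => red W v = c + k • (red W om))).card : ℝ) ≤
      ((V Y).filter (fun v => red W v = c)).card + k * (√Y + 1) := by
    intro k c
    induction k with
    | zero => simp
    | succ k ih =>
      have h2 := (class_step hY (c + k • (red W om))).2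
      have e1 : c + (k + 1) • (red W om) = c + k • (red W om) + red W om := by
        rw [succ_nsmul]
        ring
      rw [e1]
      push_cast
      linarith
  have hb : b = a + (b - a).re.val • (1 : RW W) + (b - a).im.val • (red W om) := by
    have e1 : (((b - a).re.val : ℕ) : ZMod W) = b.re - a.re := by
      rw [ZMod.natCast_zmod_val, QuadraticAlgebra.re_sub]
    have e2 : (((b - a).im.val : ℕ) : ZMod W) = b.im - a.im := by
      rw [ZMod.natCast_zmod_val, QuadraticAlgebra.im_sub]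
    have r0 : (red W om).re = 0 := by
      rw [red_re]
      simp [om]
    have r1 : (red W om).im = 1 := by
      rw [red_im]
      simp [om]
    ext
    · rw [QuadraticAlgebra.re_add, QuadraticAlgebra.re_add, QuadraticAlgebra.re_smul, QuadraticAlgebra.re_smul,
        QuadraticAlgebra.re_one, r0, nsmul_eq_mul, nsmul_eq_mul, e1]
      ring
    · rw [QuadraticAlgebra.im_add, QuadraticAlgebra.im_add, QuadraticAlgebra.im_smul, QuadraticAlgebra.im_smul,
        QuadraticAlgebra.im_one, r1, nsmul_eq_mul, nsmul_eq_mul, e2]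
      ring
  have h3 := h2 (b - a).im.val (a + (b - a).re.val • (1 : RW W))
  rw [← hb] at h3
  have h4 := h1 (b - a).re.val a
  have h5 : ((b - a).re.val : ℝ) ≤ W := by exact_mod_cast (ZMod.val_lt (b - a).re).le
  have h6 : ((b - a).im.val : ℝ) ≤ W := by exact_mod_cast (ZMod.val_lt (b - a).im).le
  have hW : (0 : ℝ) ≤ W := Nat.cast_nonneg _
  have h7 : ((b - a).re.val : ℝ) * (√Y + 1) ≤ W * (2 * √Y) := mul_le_mul h5 (by linarith) (by linarith) hW
  have h8 : ((b - a).im.val : ℝ) * (√Y + 1) ≤ W * (2 * √Y) := mul_le_mul h6 (by linarith) (by linarith) hW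
  linarith

theorem char_sum (χ : MulChar (RW W) ℂ) (hχ : χ ≠ 1) : ∃ C : ℝ, 0 ≤ C ∧ ∀ Y : ℝ, 1 ≤ Y →
    ‖∑ v ∈ V Y, χ (red W v)‖ ≤ C * Y ^ (1 - 1 / 4 : ℝ) := by
  classical
  refine ⟨(Fintype.card (RW W) : ℝ) * (4 * W), by positivity, fun Y hY => ?_⟩
  have h0 : ∑ v ∈ V Y, χ (red W v) =
      ∑ a : RW W, χ a * ((((V Y).filter (fun v => red W v = a)).card : ℂ) -
        (((V Y).filter (fun v => red W v = (0 : RW W))).card : ℂ)) := by
    have e1 : ∑ a : RW W, χ a = 0 := MulChar.sum_eq_zero_of_ne_one hχ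
    have e2 : ∑ v ∈ V Y, χ (red W v) = ∑ a : RW W, χ a * (((V Y).filter (fun v => red W v = a)).card : ℂ) := by
      rw [← Finset.sum_fiberwise (V Y) (fun v => red W v) (fun v => χ (red W v))]
      refine Finset.sum_congr rfl fun a _ => ?_
      rw [Finset.sum_congr rfl (fun v hv => by rw [(Finset.mem_filter.1 hv).2]), Finset.sum_const, nsmul_eq_mul, mul_comm]
    rw [e2]
    simp only [mul_sub]
    rw [Finset.sum_sub_distrib, ← Finset.sum_mul, e1, zero_mul, sub_zero]
  rw [h0]
  refine (norm_sum_le _ _).trans ?_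
  have h1 : ∀ a ∈ (Finset.univ : Finset (RW W)), ‖χ a * ((((V Y).filter (fun v => red W v = a)).card : ℂ) -
        (((V Y).filter (fun v => red W v = (0 : RW W))).card : ℂ))‖ ≤ 4 * W * √Y := by
    intro a _
    rw [norm_mul]
    have e1 : ‖((((V Y).filter (fun v => red W v = a)).card : ℂ) -
        (((V Y).filter (fun v => red W v = (0 : RW W))).card : ℂ))‖ ≤ 4 * W * √Y := by
      have e2 : ((((V Y).filter (fun v => red W v = a)).card : ℂ) -
          (((V Y).filter (fun v => red W v = (0 : RW W))).card : ℂ)) =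
          ((((((V Y).filter (fun v => red W v = a)).card : ℝ) -
          (((V Y).filter (fun v => red W v = (0 : RW W))).card : ℝ)) : ℝ) : ℂ) := by push_cast; rfl
      rw [e2, Complex.norm_real, Real.norm_eq_abs, abs_le]
      have e3 := class_le (W := W) hY a 0
      have e4 := class_le (W := W) hY 0 a
      constructor
      · linarith
      · linarith
    calc ‖χ a‖ * _ ≤ 1 * (4 * W * √Y) := mul_le_mul (norm_char_le χ a) e1 (norm_nonneg _) zero_le_one
      _ = 4 * W * √Y := one_mul _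
  refine (Finset.sum_le_sum h1).trans ?_
  rw [Finset.sum_const, Finset.card_univ, nsmul_eq_mul]
  have h2 : √Y ≤ Y ^ (1 - 1 / 4 : ℝ) := by
    rw [Real.sqrt_eq_rpow]
    exact Real.rpow_le_rpow_of_exponent_le hY (by norm_num)
  calc (Fintype.card (RW W) : ℝ) * (4 * W * √Y) = (Fintype.card (RW W) : ℝ) * (4 * W) * √Y := by ring
    _ ≤ (Fintype.card (RW W) : ℝ) * (4 * W) * Y ^ (1 - 1 / 4 : ℝ) := mul_le_mul_of_nonneg_left h2 (by positivity)

end Pool.Agent.Lib.MP_d57abb_nt.MR
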