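import Mathlib
import Pool.Agent.Lib.MP_d57abb_nt.MR.Prm

/-!
# JOB Dir: the primitive direction of a totally positive element

* `exists_dir`: `m = gcd (x.re) (x.im) > 0`, `x = m * y`, `y` primitive and totally positive, `v = nf y` (`Pm_mul_unit`).
* `dir_unique`: if `m * (omu^k * v) = m' * (omu^k' * v')` with `v, v'` primitive then `m = m'` (the gcd of the coordinates of
  `omu^k v` is `1`, `Pm_mul_unit`), then cancel and `nf_unique`.
* `N_dir_le`: `N x = m² N (dir x)`.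
* `dir_eq_iff`: from left to right: `x = m omu^k v`, `y = n omu^l v` give `n x = m omu^(k-l) y`.  From right to left: `dir (m x) = dir x`, `dir (omu^k y) = dir y`
  by `dir_unique`.
* `dir_mul_left`: `dir (x z) = dir (y z) ↔ dir x = dir y`: `dir_eq_iff` and cancellation.
* `dir_mul_star`: `dir x = dir y ↔ dir (x * star y) = 1`.  If `m x = n omu^k y` then `m (x star y) = (n N y) omu^k`, direction `1`; conversely multiply
  `m (x star y) = n omu^k` by `y` and use `star y * y = N y`.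
* `E_dir`: `E_mul`, `E_natCast`, `E_omu`; `k` is the `k` of `exists_dir`.
* `dir_of_Pm`: `dir x = nf x` if `x` is primitive.  `dir_eq_self`: `Qd v`, `Pm v`.
* `N_dir_of_Pm`: `N (dir x) = N x` for primitive `x`.
-/

namespace Pool.Agent.Lib.MP_d57abb_nt.MR

open Pool.Agent.Lib.MP_2a816b_nt (e)

private theorem Dir_re (n : ℕ) (y : O) : ((n : O) * y).re = n * y.re := by
  simp [QuadraticAlgebra.re_mul]

private theorem Dir_im (n : ℕ) (y : O) : ((n : O) * y).im = n * y.im := by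
  simp [QuadraticAlgebra.im_mul]

private theorem Dir_gcd {y : O} (m : ℕ) (hy : Pm y) : Int.gcd ((m : O) * y).re ((m : O) * y).im = m := by
  have h : Int.gcd y.re y.im = 1 := Int.isCoprime_iff_gcd_eq_one.1 hy
  rw [Dir_re, Dir_im, Int.gcd_mul_left, h]
  simp

private theorem Dir_natCast_ne {m : ℕ} (hm : 0 < m) : (m : O) ≠ 0 := (TP_natCast hm).ne_zero

theorem exists_dir {x : O} (hx : TP x) : ∃ v : O, (Qd v ∧ Pm v) ∧ ∃ (m : ℕ) (k : ℤ), 0 < m ∧
    x = (m : O) * (((omu ^ k : Oˣ) : O) * v) := by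
  have hg : Int.gcd x.re x.im ≠ 0 := by
    intro h
    have h2 := Int.gcd_eq_zero_iff.1 h
    exact hx.ne_zero (QuadraticAlgebra.ext h2.1 h2.2)
  have hm : 0 < Int.gcd x.re x.im := Nat.pos_of_ne_zero hg
  have hd1 : ((Int.gcd x.re x.im : ℕ) : ℤ) ∣ x.re := Int.gcd_dvd_left _ _
  have hd2 : ((Int.gcd x.re x.im : ℕ) : ℤ) ∣ x.im := Int.gcd_dvd_right _ _
  obtain ⟨a, ha⟩ := hd1
  obtain ⟨b, hb⟩ := hd2
  have hxy : x = ((Int.gcd x.re x.im : ℕ) : O) * (⟨a, b⟩ : O) := by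
    refine QuadraticAlgebra.ext ?_ ?_
    · rw [Dir_re]
      exact ha
    · rw [Dir_im]
      exact hb
  have hy : TP (⟨a, b⟩ : O) := TP.of_mul (TP_natCast hm) (hxy ▸ hx)
  have hyp : Pm (⟨a, b⟩ : O) := by
    have h1 : Int.gcd (((Int.gcd x.re x.im : ℕ) : ℤ) * a) (((Int.gcd x.re x.im : ℕ) : ℤ) * b) = Int.gcd x.re x.im := by
      rw [← ha, ← hb]
    rw [Int.gcd_mul_left, Int.natAbs_natCast] at h1
    have h2 : Int.gcd a b = 1 := Nat.eq_of_mul_eq_mul_left hm (by rw [h1, mul_one])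
    exact Int.isCoprime_iff_gcd_eq_one.2 h2
  obtain ⟨v, hv, k, hk⟩ := exists_nf hy
  refine ⟨v, ⟨hv, (Pm_mul_unit k).1 (hk ▸ hyp)⟩, Int.gcd x.re x.im, k, hm, ?_⟩
  rw [← hk]
  exact hxy

open Classical in
/-- the primitive direction -/
noncomputable def dir (x : O) : O := if h : TP x then (exists_dir h).choose else x

theorem dir_Qd {x : O} (hx : TP x) : Qd (dir x) := by
  rw [dir, dif_pos hx]
  exact (exists_dir hx).choose_spec.1.1
theorem dir_Pm {x : O} (hx : TP x) : Pm (dir x) := by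
  rw [dir, dif_pos hx]
  exact (exists_dir hx).choose_spec.1.2
theorem dir_spec {x : O} (hx : TP x) : ∃ (m : ℕ) (k : ℤ), 0 < m ∧ x = (m : O) * (((omu ^ k : Oˣ) : O) * dir x) := by
  rw [dir, dif_pos hx]
  exact (exists_dir hx).choose_spec.2
theorem dir_unique {x v : O} {m : ℕ} {k : ℤ} (hm : 0 < m) (hv : Qd v) (hp : Pm v)
    (h : x = (m : O) * (((omu ^ k : Oˣ) : O) * v)) : dir x = v := by
  have hx : TP x := by
    rw [h]
    exact (TP_natCast hm).mul ((TP_omu k).mul hv.tp)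
  obtain ⟨m', k', hm', h'⟩ := dir_spec hx
  have hp1 : Pm (((omu ^ k : Oˣ) : O) * v) := (Pm_mul_unit k).2 hp
  have hp2 : Pm (((omu ^ k' : Oˣ) : O) * dir x) := (Pm_mul_unit k').2 (dir_Pm hx)
  have e1 : Int.gcd x.re x.im = m := by
    rw [h]
    exact Dir_gcd m hp1
  have e2 : Int.gcd x.re x.im = m' := by
    have h3 := Dir_gcd m' hp2
    rw [← h'] at h3
    exact h3
  have e3 : m' = m := e2.symm.trans e1
  subst e3
  have h4 : ((omu ^ k' : Oˣ) : O) * dir x = ((omu ^ k : Oˣ) : O) * v :=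
    mul_left_cancel₀ (Dir_natCast_ne hm) (h'.symm.trans h)
  exact (nf_unique (dir_Qd hx) hv h4).2
theorem N_dir_le {x : O} (hx : TP x) : N (dir x) ≤ N x := by
  obtain ⟨m, k, hm, h⟩ := dir_spec hx
  have h1 : N x = (m : ℤ) ^ 2 * N (dir x) := by
    have h2 := congrArg N h
    rw [N_mul, N_mul, N_natCast, N_omu, one_mul] at h2
    exact h2
  have h3 : 0 < N (dir x) := (dir_Qd hx).tp.N_pos
  have h4 : (1 : ℤ) ≤ (m : ℤ) ^ 2 := by
    have h5 : (1 : ℤ) ≤ (m : ℤ) := by exact_mod_cast hm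
    exact one_le_pow₀ h5
  rw [h1]
  exact le_mul_of_one_le_left h3.le h4
theorem dir_eq_iff {x y : O} (hx : TP x) (hy : TP y) : dir x = dir y ↔ ∃ (m n : ℕ) (k : ℤ), 0 < m ∧ 0 < n ∧
    (m : O) * x = (n : O) * (((omu ^ k : Oˣ) : O) * y) := by
  constructor
  · intro h
    obtain ⟨m, k, hm, h1⟩ := dir_spec hx
    obtain ⟨n, l, hn, h2⟩ := dir_spec hy
    refine ⟨n, m, k - l, hn, hm, ?_⟩
    have h3 : ((omu ^ k : Oˣ) : O) = ((omu ^ (k - l) : Oˣ) : O) * ((omu ^ l : Oˣ) : O) := by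
      rw [← Units.val_mul, ← zpow_add, sub_add_cancel]
    have h4 : x = (m : O) * (((omu ^ (k - l) : Oˣ) : O) * (((omu ^ l : Oˣ) : O) * dir y)) := by
      rw [← mul_assoc ((omu ^ (k - l) : Oˣ) : O), ← h3, ← h]
      exact h1
    have h5 : (n : O) * (((omu ^ l : Oˣ) : O) * dir y) = y := h2.symm
    calc (n : O) * x = (n : O) * ((m : O) * (((omu ^ (k - l) : Oˣ) : O) * (((omu ^ l : Oˣ) : O) * dir y))) := by
          rw [← h4]
      _ = (m : O) * (((omu ^ (k - l) : Oˣ) : O) * ((n : O) * (((omu ^ l : Oˣ) : O) * dir y))) := by ring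
      _ = (m : O) * (((omu ^ (k - l) : Oˣ) : O) * y) := by rw [h5]
  · rintro ⟨m, n, k, hm, hn, h⟩
    obtain ⟨a, l, ha, h1⟩ := dir_spec hx
    obtain ⟨b, l', hb, h2⟩ := dir_spec hy
    have e1 : dir ((m : O) * x) = dir x := by
      refine dir_unique (m := m * a) (k := l) (Nat.mul_pos hm ha) (dir_Qd hx) (dir_Pm hx) ?_
      rw [Nat.cast_mul, mul_assoc, ← h1]
    have e2 : dir ((m : O) * x) = dir y := by
      rw [h]
      refine dir_unique (m := n * b) (k := k + l') (Nat.mul_pos hn hb) (dir_Qd hy) (dir_Pm hy) ?_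
      have h3 : ((omu ^ (k + l') : Oˣ) : O) = ((omu ^ k : Oˣ) : O) * ((omu ^ l' : Oˣ) : O) := by
        rw [← Units.val_mul, ← zpow_add]
      rw [h3, Nat.cast_mul]
      calc (n : O) * (((omu ^ k : Oˣ) : O) * y)
          = (n : O) * (((omu ^ k : Oˣ) : O) * ((b : O) * (((omu ^ l' : Oˣ) : O) * dir y))) := by rw [← h2]
        _ = (n : O) * (b : O) * (((omu ^ k : Oˣ) : O) * ((omu ^ l' : Oˣ) : O) * dir y) := by ring
    rw [← e1, e2]
theorem dir_mul_left {x y z : O} (hx : TP x) (hy : TP y) (hz : TP z) : dir (z * x) = dir (z * y) ↔ dir x = dir y := by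
  rw [dir_eq_iff (hz.mul hx) (hz.mul hy), dir_eq_iff hx hy]
  constructor
  · rintro ⟨m, n, k, hm, hn, h⟩
    refine ⟨m, n, k, hm, hn, ?_⟩
    refine mul_left_cancel₀ hz.ne_zero ?_
    calc z * ((m : O) * x) = (m : O) * (z * x) := by ring
      _ = (n : O) * (((omu ^ k : Oˣ) : O) * (z * y)) := h
      _ = z * ((n : O) * (((omu ^ k : Oˣ) : O) * y)) := by ring
  · rintro ⟨m, n, k, hm, hn, h⟩
    refine ⟨m, n, k, hm, hn, ?_⟩
    calc (m : O) * (z * x) = z * ((m : O) * x) := by ring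
      _ = z * ((n : O) * (((omu ^ k : Oˣ) : O) * y)) := by rw [h]
      _ = (n : O) * (((omu ^ k : Oˣ) : O) * (z * y)) := by ring
theorem dir_mul_star {x y : O} (hx : TP x) (hy : TP y) : dir x = dir y ↔ dir (x * star y) = 1 := by
  have hy' : TP (star y) := hy.star
  obtain ⟨c, hc⟩ := Int.eq_ofNat_of_zero_le hy.N_pos.le
  have hc0 : 0 < c := by
    have h1 := hy.N_pos
    rw [hc] at h1
    exact_mod_cast h1
  have hyy : star y * y = (c : O) := by
    rw [mul_comm, mul_star_self, hc]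
    simp
  have h1 : dir (star y * x) = dir (star y * y) ↔ dir x = dir y := dir_mul_left hx hy hy'
  have h2 : dir (star y * y) = 1 := by
    rw [hyy]
    refine dir_unique (m := c) (k := 0) hc0 Qd_one Pm_one ?_
    simp
  rw [← h1, h2, mul_comm x (star y)]
theorem dir_of_Pm {x : O} (hx : TP x) (hp : Pm x) : dir x = nf x := by
  obtain ⟨k, hk⟩ := nf_spec hx
  refine dir_unique (m := 1) (k := k) Nat.one_pos (nf_Qd hx) ?_ ?_
  · refine (Pm_mul_unit k).1 ?_
    rw [← hk]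
    exact hp
  · rw [Nat.cast_one, one_mul]
    exact hk
theorem N_dir_of_Pm {x : O} (hx : TP x) (hp : Pm x) : N (dir x) = N x := by
  rw [dir_of_Pm hx hp, N_nf hx]
theorem dir_eq_self {v : O} (hv : Qd v) (hp : Pm v) : dir v = v := by
  refine dir_unique (m := 1) (k := 0) Nat.one_pos hv hp ?_
  simp
/-- `E t j x` is `E t j (dir x)` up to a phase which does not depend on `j` -/
theorem E_dir (t : ℝ) {x : O} (hx : TP x) : ∃ k : ℤ, ∀ j : ℤ, E t j x = e (t * k) * E t j (dir x) := by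
  obtain ⟨m, k, hm, h⟩ := dir_spec hx
  refine ⟨k, fun j => ?_⟩
  have hd : TP (dir x) := (dir_Qd hx).tp
  calc E t j x = E t j ((m : O) * (((omu ^ k : Oˣ) : O) * dir x)) := by rw [← h]
    _ = E t j (m : O) * E t j (((omu ^ k : Oˣ) : O) * dir x) :=
        E_mul t j (TP_natCast hm) ((TP_omu k).mul hd)
    _ = E t j (m : O) * (E t j ((omu ^ k : Oˣ) : O) * E t j (dir x)) := by
        rw [E_mul t j (TP_omu k) hd]
    _ = e (t * k) * E t j (dir x) := by
        rw [E_natCast, E_omu, one_mul]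

end Pool.Agent.Lib.MP_d57abb_nt.MR
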