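import Mathlib
import Pool.Agent.Lib.MP_d57abb_nt.MR.Dir

/-!
# JOB Mul: sums over multiples

* `sum_mult`: `u ↦ nf (p u)` is a bijection from `V (Y / N p)` onto the multiples of `p` in `V Y`: `p u = omu^k nf (p u)`, so `p ∣ nf (p u)` and
  `N (nf (p u)) = N p N u`; injective: `nf (p u) = nf (p u')` gives `p u = omu^l p u'`, `u = omu^l u'`, `nf_unique`; surjective: `v = p w`, `w` totally positive
  (`TP.of_mul`), `u = nf w`.  `G (nf (p u)) = G (p u)` by invariance.  (`Finset.sum_bij` or `Finset.sum_nbij'`.)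
* `card_mult`: `sum_mult` with `G = 1`, or directly.
* `sum_mult'`: the primitive version: `sum_mult` for `G' v = if Pm v then G v else 0` (invariant by `Pm_mul_unit`), and for `Dg D p`:
  `Pm (p u) ↔ Pm u ∧ ¬ star p ∣ u` (`Pm_mul`, `not_Pm_mul`, `Pm_of_mul`).
* `c_mult`: `sum_mult'` for `G = a * E j` (`G_omu`) and `G_mul`.
-/

namespace Pool.Agent.Lib.MP_d57abb_nt.MR

open Classical in
theorem sum_mult {G : O → ℂ} (hG : ∀ (k : ℤ) (x : O), TP x → G (((omu ^ k : Oˣ) : O) * x) = G x) {p : O} (hp : TP p)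
    (Y : ℝ) : ∑ v ∈ (V Y).filter (fun v => p ∣ v), G v = ∑ u ∈ V (Y / N p), G (p * u) := by
  symm
  refine Finset.sum_bij (fun u _ => nf (p * u)) ?_ ?_ ?_ ?_
  · intro u hu
    rw [mem_V] at hu
    have ht : TP (p * u) := hp.mul hu.1.tp
    rw [Finset.mem_filter, mem_V]
    refine ⟨⟨nf_Qd ht, ?_⟩, ?_⟩
    · rw [N_nf ht, N_mul, Int.cast_mul, mul_comm]
      have h1 : (0 : ℝ) < N p := by exact_mod_cast hp.N_pos
      exact (le_div_iff₀ h1).1 hu.2
    · obtain ⟨k, hk⟩ := nf_spec ht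
      refine ⟨((omu ^ (-k) : Oˣ) : O) * u, ?_⟩
      calc nf (p * u) = ((omu ^ (-k) : Oˣ) : O) * (((omu ^ k : Oˣ) : O) * nf (p * u)) := by
            rw [← mul_assoc, ← Units.val_mul, ← zpow_add, neg_add_cancel, zpow_zero, Units.val_one,
              one_mul]
        _ = ((omu ^ (-k) : Oˣ) : O) * (p * u) := by rw [← hk]
        _ = _ := by ring
  · intro u hu u' hu' h
    rw [mem_V] at hu hu'
    obtain ⟨k, hk⟩ := nf_spec (hp.mul hu.1.tp)
    obtain ⟨k', hk'⟩ := nf_spec (hp.mul hu'.1.tp)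
    replace h : nf (p * u) = nf (p * u') := h
    rw [h] at hk
    have h1 : p * (((omu ^ k' : Oˣ) : O) * u) = p * (((omu ^ k : Oˣ) : O) * u') := by
      calc p * (((omu ^ k' : Oˣ) : O) * u) = ((omu ^ k' : Oˣ) : O) * (p * u) := by ring
        _ = ((omu ^ k : Oˣ) : O) * (((omu ^ k' : Oˣ) : O) * nf (p * u')) := by rw [hk]; ring
        _ = ((omu ^ k : Oˣ) : O) * (p * u') := by rw [← hk']
        _ = _ := by ring
    exact (nf_unique hu.1 hu'.1 (mul_left_cancel₀ hp.ne_zero h1)).2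
  · intro v hv
    rw [Finset.mem_filter, mem_V] at hv
    obtain ⟨⟨hv1, hv2⟩, w, hw⟩ := hv
    have hwt : TP w := hp.of_mul (by rw [← hw]; exact hv1.tp)
    obtain ⟨k, hk⟩ := nf_spec hwt
    refine ⟨nf w, ?_, ?_⟩
    · rw [mem_V]
      refine ⟨nf_Qd hwt, ?_⟩
      have h1 : (0 : ℝ) < N p := by exact_mod_cast hp.N_pos
      rw [N_nf hwt, le_div_iff₀ h1, mul_comm]
      rw [hw, N_mul, Int.cast_mul] at hv2
      exact hv2
    · refine nf_eq hv1 (k := -k) ?_
      calc p * nf w = p * (((omu ^ (-k) : Oˣ) : O) * (((omu ^ k : Oˣ) : O) * nf w)) := by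
            rw [← mul_assoc ((omu ^ (-k) : Oˣ) : O), ← Units.val_mul, ← zpow_add, neg_add_cancel,
              zpow_zero, Units.val_one, one_mul]
        _ = p * (((omu ^ (-k) : Oˣ) : O) * w) := by rw [← hk]
        _ = ((omu ^ (-k) : Oˣ) : O) * (p * w) := by ring
        _ = _ := by rw [← hw]
  · intro u hu
    rw [mem_V] at hu
    have ht : TP (p * u) := hp.mul hu.1.tp
    obtain ⟨k, hk⟩ := nf_spec ht
    calc G (p * u) = G (((omu ^ k : Oˣ) : O) * nf (p * u)) := by rw [← hk]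
      _ = G (nf (p * u)) := hG k _ (nf_Qd ht).tp

open Classical in
theorem card_mult {p : O} (hp : TP p) (Y : ℝ) : ((V Y).filter (fun v => p ∣ v)).card = (V (Y / N p)).card := by
  have h := sum_mult (G := fun _ => 1) (fun _ _ _ => rfl) hp Y
  simp only [Finset.sum_const, nsmul_eq_mul, mul_one] at h
  exact_mod_cast h

open Classical in
theorem sum_mult' {G : O → ℂ} (hG : ∀ (k : ℤ) (x : O), TP x → G (((omu ^ k : Oˣ) : O) * x) = G x) {D : ℕ} {p : O}
    (hp : Dg D p) (Y : ℝ) :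
    ∑ v ∈ (V' Y).filter (fun v => p ∣ v), G v =
      ∑ u ∈ (V' (Y / N p)).filter (fun u => ¬ star p ∣ u), G (p * u) := by
  have hG' : ∀ (k : ℤ) (x : O), TP x →
      (fun v => if Pm v then G v else 0) (((omu ^ k : Oˣ) : O) * x) =
        (fun v => if Pm v then G v else 0) x := by
    intro k x hx
    show (if Pm (((omu ^ k : Oˣ) : O) * x) then G (((omu ^ k : Oˣ) : O) * x) else 0) =
      if Pm x then G x else 0
    rw [hG k x hx]
    by_cases h : Pm x
    · rw [if_pos h, if_pos ((Pm_mul_unit k).2 h)]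
    · rw [if_neg h, if_neg fun h' => h ((Pm_mul_unit k).1 h')]
  have h := sum_mult (G := fun v => if Pm v then G v else 0) hG' hp.tp Y
  have h1 : ∑ v ∈ (V' Y).filter (fun v => p ∣ v), G v =
      ∑ v ∈ (V Y).filter (fun v => p ∣ v), if Pm v then G v else 0 := by
    rw [← Finset.sum_filter]
    refine Finset.sum_congr ?_ fun _ _ => rfl
    ext v
    simp only [Finset.mem_filter, mem_V, mem_V']
    tauto
  have h2 : ∑ u ∈ (V' (Y / N p)).filter (fun u => ¬ star p ∣ u), G (p * u) =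
      ∑ u ∈ V (Y / N p), if Pm (p * u) then G (p * u) else 0 := by
    rw [← Finset.sum_filter]
    refine Finset.sum_congr ?_ fun _ _ => rfl
    ext u
    simp only [Finset.mem_filter, mem_V, mem_V']
    constructor
    · rintro ⟨⟨h3, h4⟩, h5⟩
      exact ⟨h3, Pm_mul hp.2.1 hp.tp h4 h5⟩
    · rintro ⟨h3, h4⟩
      exact ⟨⟨h3, Pm_of_mul h4⟩, fun h5 => not_Pm_mul hp.2.1 h5 h4⟩
  rw [h1, h2]
  exact h

open Classical in
theorem c_mult (d : Dat) (j : ℤ) {p : O} (hp : Dg d.D p) (Y : ℝ) :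
    ∑ v ∈ (V' Y).filter (fun v => p ∣ v), d.a v * E d.t j v =
      d.F j p * ∑ u ∈ (V' (Y / N p)).filter (fun u => ¬ star p ∣ u), d.a u * E d.t j u := by
  have h := sum_mult' (G := fun v => d.a v * E d.t j v) (fun k x hx => G_omu d j k hx) hp Y
  refine h.trans ?_
  rw [Finset.mul_sum]
  refine Finset.sum_congr rfl fun u hu => ?_
  rw [Finset.mem_filter, mem_V'] at hu
  exact G_mul d j hp hu.1.1.1.tp

end Pool.Agent.Lib.MP_d57abb_nt.MR
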