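import Mathlib

/-!
# JOB RmA: a sum and an integral

`sum_sub_integral`: put `A = ⌊x⌋₊`.  `∑_{n=1}^A φ(n) - ∫_0^A φ = ∑_{n=1}^A ∫_{n-1}^n (φ(n) - φ(t)) dt`, and `‖φ(n) - φ(t)‖ = ‖∫_t^n φ'‖ ≤ ∫_{n-1}^n ‖φ'‖`
(fundamental theorem `intervalIntegral.integral_eq_sub_of_hasDerivAt` on `[t, n]`), so this is at most `∫_0^A ‖φ'‖ ≤ ∫_0^x ‖φ'‖ ≤ M`.
And `‖∫_A^x φ‖ ≤ K (x - A) ≤ K`.  (Sum of integrals over `[n-1, n]`: `intervalIntegral.sum_integral_adjacent_intervals`.)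
`sum_sub_integral'` is the same with lower limit `1`: apply `sum_sub_integral` to `t ↦ φ (1 + t)` on `[0, x - 1]`:
`∑_{n=1}^{⌊x⌋} φ(n) = φ(1) + ∑_{n=1}^{⌊x⌋-1} φ(1+n)`, `⌊x - 1⌋₊ = ⌊x⌋₊ - 1`.
-/

namespace Pool.Agent.Lib.MP_d57abb_nt.MR

open Finset MeasureTheory

private theorem RmA_shift (g : ℕ → ℂ) (A : ℕ) : ∑ n ∈ Icc 1 A, g n = ∑ k ∈ range A, g (k + 1) := by
  induction A with
  | zero => simp
  | succ m ih => rw [Finset.sum_Icc_succ_top (by omega), ih, Finset.sum_range_succ]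

private theorem RmA_piece (φ φ' : ℝ → ℂ) {a b : ℝ} (hab : a ≤ b) (hb1 : b - a = 1)
    (hd : ∀ t ∈ Set.Icc a b, HasDerivAt φ (φ' t) t) (hc : ContinuousOn φ' (Set.Icc a b)) :
    ‖φ b - ∫ t in a..b, φ t‖ ≤ ∫ t in a..b, ‖φ' t‖ := by
  have hφc : ContinuousOn φ (Set.Icc a b) := fun t ht => (hd t ht).continuousAt.continuousWithinAt
  have hφi : IntervalIntegrable φ volume a b := by
    apply ContinuousOn.intervalIntegrable
    rwa [Set.uIcc_of_le hab]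
  have hφ'n : ContinuousOn (fun t => ‖φ' t‖) (Set.Icc a b) := hc.norm
  have hn' : IntervalIntegrable (fun t => ‖φ' t‖) volume a b := by
    apply ContinuousOn.intervalIntegrable
    rwa [Set.uIcc_of_le hab]
  have e1 : φ b - ∫ t in a..b, φ t = ∫ t in a..b, (φ b - φ t) := by
    rw [intervalIntegral.integral_sub intervalIntegrable_const hφi, intervalIntegral.integral_const, hb1, one_smul]
  rw [e1]
  have key : ∀ t ∈ Set.uIoc a b, ‖φ b - φ t‖ ≤ ∫ u in a..b, ‖φ' u‖ := by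
    intro t ht
    rw [Set.uIoc_of_le hab] at ht
    have htb : t ≤ b := ht.2
    have hta : a ≤ t := ht.1.le
    have hsub : Set.uIcc t b ⊆ Set.Icc a b := by
      rw [Set.uIcc_of_le htb]
      exact Set.Icc_subset_Icc hta le_rfl
    have hint : IntervalIntegrable φ' volume t b := (hc.mono hsub).intervalIntegrable
    have hft : ∫ u in t..b, φ' u = φ b - φ t :=
      intervalIntegral.integral_eq_sub_of_hasDerivAt (fun u hu => hd u (hsub hu)) hint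
    rw [← hft]
    refine (intervalIntegral.norm_integral_le_integral_norm htb).trans ?_
    refine intervalIntegral.integral_mono_interval hta htb le_rfl ?_ hn'
    exact Filter.Eventually.of_forall (fun u => norm_nonneg _)
  have h2 := intervalIntegral.norm_integral_le_of_norm_le_const (a := a) (b := b) key
  rw [hb1, abs_one, mul_one] at h2
  exact h2

theorem sum_sub_integral (φ φ' : ℝ → ℂ) {x K M : ℝ} (hx : 0 ≤ x) (hd : ∀ t ∈ Set.Icc 0 x, HasDerivAt φ (φ' t) t)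
    (hc : ContinuousOn φ' (Set.Icc 0 x)) (h1 : ∀ t ∈ Set.Icc 0 x, ‖φ t‖ ≤ K) (hM : ∫ t in (0 : ℝ)..x, ‖φ' t‖ ≤ M) :
    ‖∑ n ∈ Icc 1 ⌊x⌋₊, φ n - ∫ t in (0 : ℝ)..x, φ t‖ ≤ M + K := by
  have hA : (⌊x⌋₊ : ℝ) ≤ x := Nat.floor_le hx
  have hA' : x < (⌊x⌋₊ : ℝ) + 1 := Nat.lt_floor_add_one x
  set A := ⌊x⌋₊ with hAdef
  have hA0 : (0 : ℝ) ≤ (A : ℝ) := Nat.cast_nonneg _
  have hK : 0 ≤ K := (norm_nonneg _).trans (h1 0 ⟨le_rfl, hx⟩)
  have hφc : ContinuousOn φ (Set.Icc 0 x) := fun t ht => (hd t ht).continuousAt.continuousWithinAt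
  have hn'c : ContinuousOn (fun t => ‖φ' t‖) (Set.Icc 0 x) := hc.norm
  have hii : ∀ a b : ℝ, 0 ≤ a → a ≤ b → b ≤ x → IntervalIntegrable φ volume a b := by
    intro a b ha hab hb
    apply ContinuousOn.intervalIntegrable
    rw [Set.uIcc_of_le hab]
    exact hφc.mono (Set.Icc_subset_Icc ha hb)
  have hii' : ∀ a b : ℝ, 0 ≤ a → a ≤ b → b ≤ x → IntervalIntegrable (fun t => ‖φ' t‖) volume a b := by
    intro a b ha hab hb
    apply ContinuousOn.intervalIntegrable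
    rw [Set.uIcc_of_le hab]
    exact hn'c.mono (Set.Icc_subset_Icc ha hb)
  have hkx : ∀ k, k < A → ((k : ℕ) : ℝ) + 1 ≤ x := by
    intro k hk
    have h3 : ((k + 1 : ℕ) : ℝ) ≤ (A : ℝ) := Nat.cast_le.mpr hk
    push_cast at h3
    linarith
  have hadj : ∑ k ∈ range A, ∫ t in ((k : ℕ) : ℝ)..((k + 1 : ℕ) : ℝ), φ t = ∫ t in ((0 : ℕ) : ℝ)..(A : ℝ), φ t := by
    apply intervalIntegral.sum_integral_adjacent_intervals
    intro k hk
    have h3 := hkx k hk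
    apply hii
    · exact Nat.cast_nonneg _
    · push_cast; linarith
    · push_cast; linarith
  have hadj' : ∑ k ∈ range A, ∫ t in ((k : ℕ) : ℝ)..((k + 1 : ℕ) : ℝ), ‖φ' t‖
      = ∫ t in ((0 : ℕ) : ℝ)..(A : ℝ), ‖φ' t‖ := by
    apply intervalIntegral.sum_integral_adjacent_intervals
    intro k hk
    have h3 := hkx k hk
    apply hii'
    · exact Nat.cast_nonneg _
    · push_cast; linarith
    · push_cast; linarith
  rw [Nat.cast_zero] at hadj hadj'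
  have hsplit : ∫ t in (0 : ℝ)..x, φ t = (∫ t in (0 : ℝ)..(A : ℝ), φ t) + ∫ t in (A : ℝ)..x, φ t :=
    (intervalIntegral.integral_add_adjacent_intervals (hii 0 A le_rfl hA0 hA) (hii A x hA0 hA le_rfl)).symm
  have hlast : ‖∫ t in (A : ℝ)..x, φ t‖ ≤ K := by
    have h3 : ∀ t ∈ Set.uIoc (A : ℝ) x, ‖φ t‖ ≤ K := by
      intro t ht
      rw [Set.uIoc_of_le hA] at ht
      exact h1 t ⟨hA0.trans ht.1.le, ht.2⟩
    have h4 := intervalIntegral.norm_integral_le_of_norm_le_const h3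
    rw [abs_of_nonneg (by linarith)] at h4
    have h5 : K * (x - A) ≤ K * 1 := mul_le_mul_of_nonneg_left (by linarith) hK
    linarith
  have hsum : ‖∑ n ∈ Icc 1 A, φ n - ∫ t in (0 : ℝ)..(A : ℝ), φ t‖ ≤ M := by
    rw [RmA_shift (fun n => φ n) A, ← hadj, ← Finset.sum_sub_distrib]
    refine (norm_sum_le _ _).trans ?_
    have h3 : ∑ k ∈ range A, ‖φ ((k + 1 : ℕ) : ℝ) - ∫ t in ((k : ℕ) : ℝ)..((k + 1 : ℕ) : ℝ), φ t‖
        ≤ ∑ k ∈ range A, ∫ t in ((k : ℕ) : ℝ)..((k + 1 : ℕ) : ℝ), ‖φ' t‖ := by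
      apply Finset.sum_le_sum
      intro k hk
      have hk' := hkx k (Finset.mem_range.mp hk)
      have hk0 : (0 : ℝ) ≤ (k : ℝ) := Nat.cast_nonneg _
      have hsub : Set.Icc ((k : ℕ) : ℝ) ((k + 1 : ℕ) : ℝ) ⊆ Set.Icc 0 x := by
        apply Set.Icc_subset_Icc hk0
        push_cast
        linarith
      apply RmA_piece φ φ'
      · push_cast; linarith
      · push_cast; ring
      · exact fun t ht => hd t (hsub ht)
      · exact hc.mono hsub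
    refine h3.trans ?_
    rw [hadj']
    refine le_trans ?_ hM
    refine intervalIntegral.integral_mono_interval le_rfl hA0 hA ?_ (hii' 0 x le_rfl hx le_rfl)
    exact Filter.Eventually.of_forall (fun u => norm_nonneg _)
  have h6 : ∑ n ∈ Icc 1 A, φ n - ∫ t in (0 : ℝ)..x, φ t
      = (∑ n ∈ Icc 1 A, φ n - ∫ t in (0 : ℝ)..(A : ℝ), φ t) - ∫ t in (A : ℝ)..x, φ t := by
    rw [hsplit]; ring
  rw [h6]
  exact (norm_sub_le _ _).trans (add_le_add hsum hlast)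

theorem sum_sub_integral' (φ φ' : ℝ → ℂ) {x K M : ℝ} (hx : 1 ≤ x) (hd : ∀ t ∈ Set.Icc 1 x, HasDerivAt φ (φ' t) t)
    (hc : ContinuousOn φ' (Set.Icc 1 x)) (h1 : ∀ t ∈ Set.Icc 1 x, ‖φ t‖ ≤ K) (hM : ∫ t in (1 : ℝ)..x, ‖φ' t‖ ≤ M) :
    ‖∑ n ∈ Icc 1 ⌊x⌋₊, φ n - ∫ t in (1 : ℝ)..x, φ t‖ ≤ M + 2 * K := by
  have hx1 : 0 ≤ x - 1 := by linarith
  have hA1 : 1 ≤ ⌊x⌋₊ := Nat.le_floor (by simpa using hx)
  have hfl : ⌊x - 1⌋₊ = ⌊x⌋₊ - 1 := by
    have h3 := Nat.floor_sub_natCast x 1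
    rw [Nat.cast_one] at h3
    exact h3
  have hsh : ∀ t ∈ Set.Icc 0 (x - 1), 1 + t ∈ Set.Icc 1 x := by
    intro t ht
    exact ⟨by linarith [ht.1], by linarith [ht.2]⟩
  have e1 := sum_sub_integral (fun t => φ (1 + t)) (fun t => φ' (1 + t)) (x := x - 1) (K := K) (M := M) hx1
    (by
      intro t ht
      have h3 := hd (1 + t) (hsh t ht)
      have h4 : HasDerivAt (fun s : ℝ => 1 + s) 1 t := (hasDerivAt_id t).const_add 1
      have h5 := h3.scomp t h4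
      rw [one_smul] at h5
      exact h5)
    (by
      apply hc.comp (by fun_prop)
      intro t ht
      exact hsh t ht)
    (fun t ht => h1 (1 + t) (hsh t ht))
    (by
      have h3 : ∫ t in (0 : ℝ)..(x - 1), ‖φ' (1 + t)‖ = ∫ t in (1 : ℝ)..x, ‖φ' t‖ := by
        rw [intervalIntegral.integral_comp_add_left (fun t => ‖φ' t‖) 1]
        simp
      rw [h3]
      exact hM)
  have e2 : ∫ t in (0 : ℝ)..(x - 1), φ (1 + t) = ∫ t in (1 : ℝ)..x, φ t := by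
    rw [intervalIntegral.integral_comp_add_left φ 1]
    simp
  rw [e2, hfl] at e1
  have e3 : ∑ n ∈ Icc 1 ⌊x⌋₊, φ n = φ 1 + ∑ n ∈ Icc 1 (⌊x⌋₊ - 1), φ (1 + n) := by
    obtain ⟨m, hm⟩ : ∃ m, ⌊x⌋₊ = m + 1 := ⟨⌊x⌋₊ - 1, by omega⟩
    rw [hm, Nat.add_sub_cancel, RmA_shift (fun n => φ n), RmA_shift (fun n => φ (1 + n)), Finset.sum_range_succ', add_comm]
    congr 1
    · simp
    · apply Finset.sum_congr rfl
      intro k _
      push_cast
      congr 1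
      ring
  rw [e3]
  have hK1 : ‖φ 1‖ ≤ K := h1 1 ⟨le_rfl, hx⟩
  have hK : 0 ≤ K := (norm_nonneg _).trans hK1
  have e4 : φ 1 + ∑ n ∈ Icc 1 (⌊x⌋₊ - 1), φ (1 + n) - ∫ t in (1 : ℝ)..x, φ t
      = φ 1 + (∑ n ∈ Icc 1 (⌊x⌋₊ - 1), φ (1 + n) - ∫ t in (1 : ℝ)..x, φ t) := by ring
  rw [e4]
  refine (norm_add_le _ _).trans ?_
  linarith

end Pool.Agent.Lib.MP_d57abb_nt.MR
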