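import Mathlib
import Pool.Agent.Lib.MP_d57abb_nt.MR.Bas
import Pool.Agent.Lib.MP_d57abb_nt.MR.RmA

/-!
# The inner sums

`Th x = log (x + al) - log (x + be)` is the angle of `x + α` (`x ≥ 0`); `ph κ x = e (κ Th(x) / per)`; `Ph κ x = ∫_0^x ph κ`.
* `Th_zero`: `log al - log be = 2 log al` (`al * be = 1`).
* `Th_deriv`: derivative `1/(x + al) - 1/(x + be) = - √5 / (x² + 3 x + 1)` (`al + be = 3`, `al be = 1`, `al - be = √5`).
* `Th_nonneg`, `Th_le`: `0 ≤ Th x ≤ per` (decreasing), `Th_upper`: `Th x ≤ √5 / (x + be)` (`log (1 + u) ≤ u`, `u = (al - be)/(x + be)`).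
* `An_eq_Th`: for `b ≥ 1`, `a ≥ 0`: `s1 ⟨a, b⟩ = b (a/b + al)`, so `An ⟨a, b⟩ = Th (a / b)`.
* `inner_sum`: let `φ t = ph κ (t / b)` (`t ≥ 0`); `φ' t = φ t * (2 π i κ / per) * Th'(t / b) / b`, `‖φ'(t)‖ ≤ (2 π |κ| / per) (- Th'(t/b)/b)`, and
  `∫_0^x (- Th'(t/b) / b) dt = Th 0 - Th (x/b) ≤ per`.  So `M = 2 π |κ|`, `K = 1` in `sum_sub_integral`; and `∫_0^x ph κ (t / b) dt = b Ph κ (x / b)`.
* `gg Y b = (-3 b + √(5 b² + 4 Y)) / 2`: for reals `a, b ≥ 0`: `a² + 3 a b + b² ≤ Y ↔ a ≤ gg Y b` when `b² ≤ Y` (`(2 a + 3 b)² - 5 b² ≤ 4 Y`).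
* `row_sum`: for `b ≥ 1`, `b² ≤ Y`: the `a ≥ 1` with `⟨a, b⟩ ∈ V Y` are `1 ≤ a ≤ ⌊gg Y b⌋₊`.
-/

namespace Pool.Agent.Lib.MP_d57abb_nt.MR

open Finset MeasureTheory
open Pool.Agent.Lib.MP_d57abb_nt (al be)
open Pool.Agent.Lib.MP_2a816b_nt (e)

/-- the angle of `x + α` -/
noncomputable def Th (x : ℝ) : ℝ := Real.log (x + al) - Real.log (x + be)
/-- the phase -/
noncomputable def ph (κ : ℤ) (x : ℝ) : ℂ := e (κ * Th x / per)
/-- its primitive -/
noncomputable def Ph (κ : ℤ) (x : ℝ) : ℂ := ∫ t in (0 : ℝ)..x, ph κ t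
/-- the right end of a row -/
noncomputable def gg (Y b : ℝ) : ℝ := (-(3 * b) + √(5 * b ^ 2 + 4 * Y)) / 2

private theorem RmB_al_pos : 0 < al := by linarith [al_lo]
private theorem RmB_be_pos : 0 < be := by linarith [be_lo]
private theorem RmB_log_be : Real.log be = - Real.log al := by
  have h : be = al⁻¹ := by
    exact eq_inv_of_mul_eq_one_right al_mul_be
  rw [h, Real.log_inv]

theorem Th_zero : Th 0 = per := by
  unfold Th per
  rw [zero_add, zero_add, RmB_log_be]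
  ring

theorem Th_deriv {x : ℝ} (hx : 0 ≤ x) : HasDerivAt Th (-(√5 / (x ^ 2 + 3 * x + 1))) x := by
  have ha : 0 < x + al := by linarith [RmB_al_pos]
  have hb : 0 < x + be := by linarith [RmB_be_pos]
  have h1 : HasDerivAt (fun x : ℝ => Real.log (x + al)) (1 / (x + al)) x :=
    HasDerivAt.log ((hasDerivAt_id x).add_const al) ha.ne'
  have h2 : HasDerivAt (fun x : ℝ => Real.log (x + be)) (1 / (x + be)) x :=
    HasDerivAt.log ((hasDerivAt_id x).add_const be) hb.ne'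
  have h3 := h1.sub h2
  have h4 : 1 / (x + al) - 1 / (x + be) = -(√5 / (x ^ 2 + 3 * x + 1)) := by
    have e1 : x ^ 2 + 3 * x + 1 = (x + al) * (x + be) := by
      have := al_add_be
      have h' := al_mul_be
      linear_combination - x * this - h'
    rw [e1, ← al_sub_be]
    field_simp
    ring
  rw [← h4]
  exact h3

theorem Th_nonneg {x : ℝ} (hx : 0 ≤ x) : 0 ≤ Th x := by
  unfold Th
  have hb : 0 < x + be := by linarith [RmB_be_pos]
  have : Real.log (x + be) ≤ Real.log (x + al) :=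
    Real.log_le_log hb (by linarith [al_lo, be_hi])
  linarith

theorem Th_le {x : ℝ} (hx : 0 ≤ x) : Th x ≤ per := by
  unfold Th per
  have ha : 0 < x + al := by linarith [RmB_al_pos]
  have hb : 0 < x + be := by linarith [RmB_be_pos]
  have h1 : x + al ≤ al * al * (x + be) := by
    have h2 : al * al * be = al := by rw [mul_assoc, al_mul_be, mul_one]
    have h3 : 1 ≤ al * al := by nlinarith [al_lo]
    nlinarith
  have h2 := Real.log_le_log ha h1
  rw [Real.log_mul (by nlinarith [al_lo]) hb.ne', Real.log_mul RmB_al_pos.ne' RmB_al_pos.ne'] at h2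
  linarith

theorem Th_upper {x : ℝ} (hx : 0 ≤ x) : Th x ≤ √5 / (x + be) := by
  unfold Th
  have ha : 0 < x + al := by linarith [RmB_al_pos]
  have hb : 0 < x + be := by linarith [RmB_be_pos]
  rw [← Real.log_div ha.ne' hb.ne']
  have h1 := Real.log_le_sub_one_of_pos (div_pos ha hb)
  have h2 : (x + al) / (x + be) - 1 = √5 / (x + be) := by
    rw [← al_sub_be]
    field_simp
    ring
  linarith

theorem An_eq_Th {a b : ℕ} (hb : 1 ≤ b) : An ⟨a, b⟩ = Th ((a : ℝ) / b) := by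
  have hb0 : (0 : ℝ) < b := by exact_mod_cast hb
  have ha0 : (0 : ℝ) ≤ (a : ℝ) / b := by positivity
  have ha : 0 < (a : ℝ) / b + al := by linarith [RmB_al_pos]
  have hbe : 0 < (a : ℝ) / b + be := by linarith [RmB_be_pos]
  unfold An Th s1 s2
  have e1 : (((a : ℤ) : ℝ) + ((b : ℤ) : ℝ) * al) = b * ((a : ℝ) / b + al) := by
    push_cast; field_simp
  have e2 : (((a : ℤ) : ℝ) + ((b : ℤ) : ℝ) * be) = b * ((a : ℝ) / b + be) := by
    push_cast; field_simp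
  rw [e1, e2, Real.log_mul hb0.ne' ha.ne', Real.log_mul hb0.ne' hbe.ne']
  ring

theorem norm_ph (κ : ℤ) (x : ℝ) : ‖ph κ x‖ = 1 := Pool.Agent.Lib.MP_2a816b_nt.norm_e _

private theorem RmB_e_deriv {f : ℝ → ℝ} {f' x : ℝ} (h : HasDerivAt f f' x) :
    HasDerivAt (fun t => e (f t)) (e (f x) * (2 * Real.pi * f' * Complex.I)) x := by
  unfold e
  have h1 : HasDerivAt (fun t => ((f t : ℝ) : ℂ)) ((f' : ℝ) : ℂ) x := h.ofReal_comp
  have h2 : HasDerivAt (fun t => (2 * (Real.pi : ℂ) * ((f t : ℝ) : ℂ) * Complex.I))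
      (2 * (Real.pi : ℂ) * ((f' : ℝ) : ℂ) * Complex.I) x :=
    (h1.const_mul (2 * (Real.pi : ℂ))).mul_const Complex.I
  exact h2.cexp

private theorem RmB_cont_Th : ContinuousOn Th (Set.Ici 0) := fun x hx =>
  (Th_deriv hx).continuousAt.continuousWithinAt

private theorem RmB_phi_deriv (κ : ℤ) {b : ℝ} (hb : 0 < b) {t : ℝ} (ht : 0 ≤ t) :
    HasDerivAt (fun t => ph κ (t / b)) (ph κ (t / b) *
      (2 * Real.pi * ((κ * (-(√5 / ((t / b) ^ 2 + 3 * (t / b) + 1)) * (1 / b)) / per : ℝ) : ℂ) * Complex.I)) t := by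
  have h1 : HasDerivAt (fun t : ℝ => t / b) (1 / b) t := by
    simpa using (hasDerivAt_id t).div_const b
  have h2 : HasDerivAt (fun t : ℝ => Th (t / b)) (-(√5 / ((t / b) ^ 2 + 3 * (t / b) + 1)) * (1 / b)) t :=
    HasDerivAt.comp (h₂ := Th) t (Th_deriv (div_nonneg ht hb.le)) h1
  have h3 : HasDerivAt (fun t : ℝ => κ * Th (t / b) / per)
      (κ * (-(√5 / ((t / b) ^ 2 + 3 * (t / b) + 1)) * (1 / b)) / per) t :=
    (h2.const_mul (κ : ℝ)).div_const per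
  exact RmB_e_deriv h3

theorem inner_sum (κ : ℤ) {b : ℕ} (hb : 1 ≤ b) {x : ℝ} (hx : 0 ≤ x) :
    ‖∑ a ∈ Icc 1 ⌊x⌋₊, e (κ * An ⟨a, b⟩ / per) - b * Ph κ (x / b)‖ ≤ 2 * Real.pi * |(κ : ℝ)| + 1 := by
  have hb0 : (0 : ℝ) < b := by exact_mod_cast hb
  have hper : 0 < per := per_pos
  let φ : ℝ → ℂ := fun t => ph κ (t / b)
  let φ' : ℝ → ℂ := fun t => ph κ (t / b) *
      (2 * Real.pi * ((κ * (-(√5 / ((t / b) ^ 2 + 3 * (t / b) + 1)) * (1 / b)) / per : ℝ) : ℂ) * Complex.I)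
  have hd : ∀ t ∈ Set.Icc 0 x, HasDerivAt φ (φ' t) t := fun t ht => RmB_phi_deriv κ hb0 ht.1
  have hne : ∀ t : ℝ, 0 ≤ t → (t / b) ^ 2 + 3 * (t / b) + 1 ≠ 0 := by
    intro t ht
    have : 0 ≤ t / b := div_nonneg ht hb0.le
    positivity
  have hcφ : ContinuousOn φ (Set.Icc 0 x) := fun t ht => (hd t ht).continuousAt.continuousWithinAt
  have hcr : ContinuousOn (fun t : ℝ => (κ * (-(√5 / ((t / b) ^ 2 + 3 * (t / b) + 1)) * (1 / b)) / per : ℝ)) (Set.Icc 0 x) := by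
    apply ContinuousOn.div_const
    apply ContinuousOn.mul continuousOn_const
    apply ContinuousOn.mul _ continuousOn_const
    apply ContinuousOn.neg
    apply ContinuousOn.div continuousOn_const
    · fun_prop
    · intro t ht
      exact hne t ht.1
  have hcr2 : ContinuousOn (fun t : ℝ => √5 / ((t / b) ^ 2 + 3 * (t / b) + 1) * (1 / b)) (Set.Icc 0 x) := by
    apply ContinuousOn.mul _ continuousOn_const
    apply ContinuousOn.div continuousOn_const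
    · fun_prop
    · intro t ht
      exact hne t ht.1
  have hc : ContinuousOn φ' (Set.Icc 0 x) := by
    apply ContinuousOn.mul hcφ
    apply ContinuousOn.mul _ continuousOn_const
    apply ContinuousOn.mul continuousOn_const
    exact Complex.continuous_ofReal.comp_continuousOn hcr
  have h1 : ∀ t ∈ Set.Icc 0 x, ‖φ t‖ ≤ 1 := fun t _ => (norm_ph κ _).le
  have hnorm : ∀ t ∈ Set.Icc 0 x, ‖φ' t‖ = 2 * Real.pi * |(κ : ℝ)| / per * (√5 / ((t / b) ^ 2 + 3 * (t / b) + 1) * (1 / b)) := by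
    intro t ht
    have hp : 0 ≤ √5 / ((t / b) ^ 2 + 3 * (t / b) + 1) * (1 / b) := by
      have : 0 ≤ t / b := div_nonneg ht.1 hb0.le
      positivity
    show ‖ph κ (t / b) * _‖ = _
    rw [norm_mul, norm_ph, one_mul, norm_mul, Complex.norm_I, mul_one, norm_mul, norm_mul, Complex.norm_ofNat,
      Complex.norm_real, Complex.norm_real, Real.norm_of_nonneg Real.pi_pos.le, Real.norm_eq_abs, abs_div, abs_mul,
      abs_of_pos hper, neg_mul, abs_neg, abs_of_nonneg hp]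
    ring
  have hint : ∫ t in (0 : ℝ)..x, (√5 / ((t / b) ^ 2 + 3 * (t / b) + 1) * (1 / b)) = Th 0 - Th (x / b) := by
    have hder : ∀ t ∈ Set.uIcc 0 x, HasDerivAt (fun t : ℝ => - Th (t / b)) (√5 / ((t / b) ^ 2 + 3 * (t / b) + 1) * (1 / b)) t := by
      intro t ht
      rw [Set.uIcc_of_le hx] at ht
      have h1 : HasDerivAt (fun t : ℝ => t / b) (1 / b) t := by
        simpa using (hasDerivAt_id t).div_const (b : ℝ)
      have h2 : HasDerivAt (fun t : ℝ => Th (t / b)) (-(√5 / ((t / b) ^ 2 + 3 * (t / b) + 1)) * (1 / b)) t :=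
        HasDerivAt.comp (h₂ := Th) t (Th_deriv (div_nonneg ht.1 hb0.le)) h1
      have h3 := h2.neg
      have e1 : √5 / ((t / b) ^ 2 + 3 * (t / b) + 1) * (1 / b) = -(-(√5 / ((t / b) ^ 2 + 3 * (t / b) + 1)) * (1 / b)) := by ring
      rw [e1]
      exact h3
    have hii : IntervalIntegrable (fun t : ℝ => √5 / ((t / b) ^ 2 + 3 * (t / b) + 1) * (1 / b)) volume 0 x := by
      apply ContinuousOn.intervalIntegrable
      rw [Set.uIcc_of_le hx]
      exact hcr2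
    rw [intervalIntegral.integral_eq_sub_of_hasDerivAt hder hii]
    simp only [zero_div]
    ring
  have hM : ∫ t in (0 : ℝ)..x, ‖φ' t‖ ≤ 2 * Real.pi * |(κ : ℝ)| := by
    have e1 : ∫ t in (0 : ℝ)..x, ‖φ' t‖ = ∫ t in (0 : ℝ)..x, 2 * Real.pi * |(κ : ℝ)| / per * (√5 / ((t / b) ^ 2 + 3 * (t / b) + 1) * (1 / b)) := by
      apply intervalIntegral.integral_congr
      intro t ht
      rw [Set.uIcc_of_le hx] at ht
      exact hnorm t ht
    rw [e1, intervalIntegral.integral_const_mul, hint, Th_zero]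
    have h2 : per - Th (x / b) ≤ per := by linarith [Th_nonneg (div_nonneg hx hb0.le)]
    have h3 : 0 ≤ 2 * Real.pi * |(κ : ℝ)| / per := by positivity
    calc 2 * Real.pi * |(κ : ℝ)| / per * (per - Th (x / b)) ≤ 2 * Real.pi * |(κ : ℝ)| / per * per :=
          mul_le_mul_of_nonneg_left h2 h3
      _ = 2 * Real.pi * |(κ : ℝ)| := by field_simp
  have hmain := sum_sub_integral φ φ' hx hd hc h1 hM
  have hsum : ∑ a ∈ Icc 1 ⌊x⌋₊, e (κ * An ⟨a, b⟩ / per) = ∑ n ∈ Icc 1 ⌊x⌋₊, φ n := by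
    apply Finset.sum_congr rfl
    intro n _
    show _ = e (κ * Th ((n : ℝ) / b) / per)
    rw [An_eq_Th hb]
  have hPh : (b : ℂ) * Ph κ (x / b) = ∫ t in (0 : ℝ)..x, φ t := by
    show (b : ℂ) * Ph κ (x / b) = ∫ t in (0 : ℝ)..x, ph κ (t / b)
    rw [intervalIntegral.integral_comp_div (fun t => ph κ t) hb0.ne', zero_div]
    unfold Ph
    simp
  rw [hsum, hPh]
  exact hmain

theorem gg_nonneg {Y b : ℝ} (hb : 0 ≤ b) (h : b ^ 2 ≤ Y) : 0 ≤ gg Y b := by
  unfold gg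
  have : 3 * b ≤ √(5 * b ^ 2 + 4 * Y) := Real.le_sqrt_of_sq_le (by nlinarith)
  linarith

theorem gg_le {Y b : ℝ} (hb : 0 ≤ b) (h : b ^ 2 ≤ Y) : gg Y b ≤ √Y := by
  unfold gg
  have hY : 0 ≤ Y := le_trans (sq_nonneg b) h
  have h1 : √(5 * b ^ 2 + 4 * Y) ≤ 3 * b + 2 * √Y := by
    apply Real.sqrt_le_iff.mpr
    refine ⟨by positivity, ?_⟩
    have h2 : √Y ^ 2 = Y := Real.sq_sqrt hY
    nlinarith [mul_nonneg hb (Real.sqrt_nonneg Y)]
  linarith

theorem le_gg_iff {Y a b : ℝ} (ha : 0 ≤ a) (hb : 0 ≤ b) (h : b ^ 2 ≤ Y) :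
    a ^ 2 + 3 * a * b + b ^ 2 ≤ Y ↔ a ≤ gg Y b := by
  unfold gg
  have hY : 0 ≤ Y := le_trans (sq_nonneg b) h
  have h1 : a ≤ (-(3 * b) + √(5 * b ^ 2 + 4 * Y)) / 2 ↔ 2 * a + 3 * b ≤ √(5 * b ^ 2 + 4 * Y) := by
    constructor <;> intro h <;> linarith
  rw [h1, Real.le_sqrt (by positivity) (by positivity)]
  constructor <;> intro h <;> nlinarith

/-- the sum over `V Y`, row by row -/
theorem V_rows {Y : ℝ} (hY : 1 ≤ Y) (G : O → ℂ) : ∑ v ∈ V Y, G v =
    ∑ b ∈ range (⌊√Y⌋₊ + 1), ∑ a ∈ Icc 1 ⌊gg Y b⌋₊, G ⟨a, b⟩ := by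
  have hY0 : 0 ≤ Y := by linarith
  rw [Finset.sum_sigma']
  symm
  refine Finset.sum_bij (fun p _ => (⟨(p.2 : ℤ), (p.1 : ℤ)⟩ : O)) ?_ ?_ ?_ ?_
  · intro p hp
    rw [Finset.mem_sigma, Finset.mem_range, Finset.mem_Icc] at hp
    obtain ⟨h1, h2, h3⟩ := hp
    have hb : (p.1 : ℝ) ≤ √Y := by
      have : p.1 ≤ ⌊√Y⌋₊ := by omega
      exact (Nat.le_floor_iff (Real.sqrt_nonneg Y)).mp this
    have hb2 : (p.1 : ℝ) ^ 2 ≤ Y := by
      rw [← Real.sq_sqrt hY0]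
      exact pow_le_pow_left₀ (Nat.cast_nonneg _) hb 2
    have ha : (p.2 : ℝ) ≤ gg Y p.1 := (Nat.le_floor_iff (gg_nonneg (Nat.cast_nonneg _) hb2)).mp h3
    rw [mem_V]
    refine ⟨⟨by show (1 : ℤ) ≤ (p.2 : ℤ); exact_mod_cast h2, by show (0 : ℤ) ≤ (p.1 : ℤ); positivity⟩, ?_⟩
    have := (le_gg_iff (Nat.cast_nonneg _) (Nat.cast_nonneg _) hb2).mpr ha
    unfold N
    push_cast
    exact this
  · intro p _ q _ h
    have h1 := congrArg QuadraticAlgebra.re h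
    have h2 := congrArg QuadraticAlgebra.im h
    simp only [Nat.cast_inj] at h1 h2
    rcases p with ⟨p1, p2⟩
    rcases q with ⟨q1, q2⟩
    simp only at h1 h2
    subst h1 h2
    rfl
  · intro v hv
    rw [mem_V] at hv
    obtain ⟨⟨h1, h2⟩, h3⟩ := hv
    obtain ⟨a, ha⟩ := Int.eq_ofNat_of_zero_le (by omega : 0 ≤ v.re)
    obtain ⟨b, hb⟩ := Int.eq_ofNat_of_zero_le h2
    have h3' : (a : ℝ) ^ 2 + 3 * a * b + (b : ℝ) ^ 2 ≤ Y := by
      have := h3
      unfold N at this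
      rw [ha, hb] at this
      push_cast at this
      exact this
    have hb2 : (b : ℝ) ^ 2 ≤ Y := by
      have : (0 : ℝ) ≤ (a : ℝ) ^ 2 + 3 * a * b := by positivity
      linarith
    refine ⟨⟨b, a⟩, ?_, ?_⟩
    · rw [Finset.mem_sigma, Finset.mem_range, Finset.mem_Icc]
      refine ⟨?_, by show 1 ≤ a; omega, ?_⟩
      · have : (b : ℝ) ≤ √Y := Real.le_sqrt_of_sq_le hb2
        have := (Nat.le_floor_iff (Real.sqrt_nonneg Y)).mpr this
        show b < _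
        omega
      · exact (Nat.le_floor_iff (gg_nonneg (Nat.cast_nonneg _) hb2)).mpr
          ((le_gg_iff (Nat.cast_nonneg _) (Nat.cast_nonneg _) hb2).mp h3')
    · exact QuadraticAlgebra.ext ha.symm hb.symm
  · intro p _
    rfl

end Pool.Agent.Lib.MP_d57abb_nt.MR
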