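import Mathlib
import Pool.Agent.Lib.MP_d57abb_nt.MR.RmB

/-!
# JOB RmC: the integral

Let `Λ b = gg Y b / b` for `0 < b ≤ √Y`, so `b² (Λ² + 3 Λ + 1) = Y`, `Λ (√Y) = 0`.  Let `R θ = ∫_0^θ e (κ s / per) ds` and
`Ψ b = (b² / 2) Ph κ (Λ b) + (Y / (2 √5)) R (Th (Λ b))`.
* `Λ` is differentiable on `(0, √Y]`: `gg' b = (-3 + 5 b / √(5 b² + 4 Y)) / 2`.
* `Ψ' b = b Ph κ (Λ b)`: `(b²/2) ph κ (Λ) Λ' + (Y/(2√5)) e (κ Th(Λ) / per) Th'(Λ) Λ' = 0` since `Th'(Λ) = - √5 / (Λ² + 3 Λ + 1) = - √5 b² / Y`.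
  (`Ph κ` has derivative `ph κ` (continuous on `x > -be`; use it for `x ≥ 0`: `Λ b ≥ 0`), `intervalIntegral.integral_hasDerivAt_right`.  To be safe
  at `x = 0`: `ph κ` is continuous on a neighbourhood of `[0, ∞)`.)
* So `∫_1^{√Y} b Ph κ (Λ b) db = Ψ (√Y) - Ψ 1`.  `Ψ (√Y) = (Y / (2√5)) R (per)` with `R per = per` if `κ = 0`, `0` otherwise
  (`e (κ s / per)` has the primitive `e (κ s / per) per / (2 π i κ)`, `e κ = 1`).
* `‖Ψ 1‖ ≤ (1/2) Λ 1 + (Y / (2 √5)) Th (Λ 1) ≤ √Y / 2 + (Y / (2√5)) √5 / (Λ 1 + be)`, `Λ 1 = gg Y 1 ≥ √Y - 3/2` (`√(5 + 4 Y) ≥ 2 √Y`), so `Λ 1 + be ≥ √Y / 8`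
  for `Y ≥ 2`... (for `1 ≤ Y ≤ 4`: `Λ 1 + be ≥ be ≥ √Y / 6`; for `Y ≥ 4`: `√Y - 3/2 ≥ √Y / 4`).  So `‖Ψ 1‖ ≤ 4 √Y`.
-/

namespace Pool.Agent.Lib.MP_d57abb_nt.MR

open Finset MeasureTheory
open Pool.Agent.Lib.MP_d57abb_nt (al be)

open Pool.Agent.Lib.MP_2a816b_nt (e)

private theorem RmC_per_pos : 0 < per := by
  have h1 := MP_d57abb_nt.al_lo
  have h2 : 0 < Real.log al := Real.log_pos (by linarith)
  unfold per
  linarith

private theorem RmC_e_cont : Continuous e := by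
  unfold MP_2a816b_nt.e
  fun_prop

private theorem RmC_int_cont (κ : ℤ) : Continuous fun s : ℝ => e (κ * s / per) :=
  RmC_e_cont.comp (by fun_prop)

/-- the primitive of the phase in the angle -/
private noncomputable def RmC_R (κ : ℤ) (θ : ℝ) : ℂ := ∫ s in (0 : ℝ)..θ, e (κ * s / per)

private theorem RmC_R_deriv (κ : ℤ) (θ : ℝ) : HasDerivAt (RmC_R κ) (e (κ * θ / per)) θ :=
  intervalIntegral.integral_hasDerivAt_right ((RmC_int_cont κ).intervalIntegrable _ _)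
    ((RmC_int_cont κ).stronglyMeasurableAtFilter _ _) (RmC_int_cont κ).continuousAt

private theorem RmC_R_norm (κ : ℤ) {θ : ℝ} (h : 0 ≤ θ) : ‖RmC_R κ θ‖ ≤ θ := by
  have h1 := intervalIntegral.norm_integral_le_of_norm_le_const (a := (0 : ℝ)) (b := θ) (C := 1)
    (f := fun s : ℝ => e (κ * s / per)) (fun s _ => (MP_2a816b_nt.norm_e _).le)
  rw [sub_zero, abs_of_nonneg h, one_mul] at h1
  exact h1

private theorem RmC_R_per (κ : ℤ) : RmC_R κ per = if κ = 0 then (per : ℂ) else 0 := by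
  unfold RmC_R
  by_cases h : κ = 0
  · subst h
    rw [if_pos rfl]
    simp
  · rw [if_neg h]
    have hp : (per : ℂ) ≠ 0 := by exact_mod_cast RmC_per_pos.ne'
    have hk : (κ : ℂ) ≠ 0 := by exact_mod_cast h
    have hpi : (Real.pi : ℂ) ≠ 0 := by exact_mod_cast Real.pi_ne_zero
    have hc : (2 * Real.pi * κ / per * Complex.I : ℂ) ≠ 0 :=
      mul_ne_zero (div_ne_zero (mul_ne_zero (mul_ne_zero two_ne_zero hpi) hk) hp) Complex.I_ne_zero
    have h1 : ∀ s : ℝ, e (κ * s / per) = Complex.exp ((2 * Real.pi * κ / per * Complex.I) * s) := by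
      intro s
      unfold MP_2a816b_nt.e
      congr 1
      push_cast
      ring
    simp_rw [h1]
    rw [integral_exp_mul_complex hc]
    have h2 : (2 * Real.pi * κ / per * Complex.I : ℂ) * per = κ * (2 * Real.pi * Complex.I) := by
      field_simp
    rw [h2, Complex.exp_int_mul_two_pi_mul_I, Complex.ofReal_zero, mul_zero, Complex.exp_zero,
      sub_self, zero_div]

private theorem RmC_ph_cont (κ : ℤ) : ContinuousOn (ph κ) (Set.Ioi (-be)) := by
  have h5 := MP_d57abb_nt.sqrt5_lo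
  have hab := MP_d57abb_nt.al_sub_be
  unfold ph Th
  refine RmC_e_cont.comp_continuousOn ?_
  refine ContinuousOn.div_const (ContinuousOn.mul continuousOn_const (ContinuousOn.sub ?_ ?_)) _
  · refine ContinuousOn.log (by fun_prop) fun x hx => ?_
    rw [Set.mem_Ioi] at hx
    have : 0 < x + al := by linarith
    exact this.ne'
  · refine ContinuousOn.log (by fun_prop) fun x hx => ?_
    rw [Set.mem_Ioi] at hx
    have : 0 < x + be := by linarith
    exact this.ne'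

private theorem RmC_Ph_deriv (κ : ℤ) {x : ℝ} (hx : 0 ≤ x) : HasDerivAt (Ph κ) (ph κ x) x := by
  have hb := MP_d57abb_nt.be_lo
  have hc := RmC_ph_cont κ
  have hx' : x ∈ Set.Ioi (-be) := by
    rw [Set.mem_Ioi]
    linarith
  refine intervalIntegral.integral_hasDerivAt_right ?_
    (hc.stronglyMeasurableAtFilter isOpen_Ioi x hx') (hc.continuousAt (isOpen_Ioi.mem_nhds hx'))
  refine (hc.mono ?_).intervalIntegrable
  intro t ht
  rw [Set.uIcc_of_le hx] at ht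
  rw [Set.mem_Ioi]
  have := ht.1
  linarith

private theorem RmC_Ph_norm (κ : ℤ) {x : ℝ} (hx : 0 ≤ x) : ‖Ph κ x‖ ≤ x := by
  have h1 := intervalIntegral.norm_integral_le_of_norm_le_const (a := (0 : ℝ)) (b := x) (C := 1)
    (f := ph κ) (fun s _ => (norm_ph κ s).le)
  rw [sub_zero, abs_of_nonneg hx, one_mul] at h1
  exact h1

private theorem RmC_gg_deriv {Y : ℝ} (hY : 0 < Y) (b : ℝ) : ∃ g' : ℝ, HasDerivAt (gg Y) g' b := by
  have h0 : 5 * b ^ 2 + 4 * Y ≠ 0 := by positivity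
  have h1 : DifferentiableAt ℝ (gg Y) b := by
    unfold gg
    fun_prop (disch := exact h0)
  exact ⟨_, h1.hasDerivAt⟩

private theorem RmC_gg_eq {Y b : ℝ} (hY : 0 < Y) :
    gg Y b ^ 2 + 3 * b * gg Y b + b ^ 2 = Y := by
  have h0 : 0 ≤ 5 * b ^ 2 + 4 * Y := by positivity
  have h1 := Real.sq_sqrt h0
  unfold gg
  linear_combination h1 / 4

/-- the primitive -/
private noncomputable def RmC_Psi (κ : ℤ) (Y b : ℝ) : ℂ :=
  ((b ^ 2 / 2 : ℝ) : ℂ) * Ph κ (gg Y b / b) + ((Y / (2 * √5) : ℝ) : ℂ) * RmC_R κ (Th (gg Y b / b))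

private theorem RmC_Psi_deriv (κ : ℤ) {Y b : ℝ} (hY : 0 < Y) (hb : 0 < b) (hbY : b ^ 2 ≤ Y) :
    HasDerivAt (RmC_Psi κ Y) ((b : ℂ) * Ph κ (gg Y b / b)) b := by
  obtain ⟨g', hg'⟩ := RmC_gg_deriv hY b
  have hL0 : 0 ≤ gg Y b / b := div_nonneg (gg_nonneg hb.le hbY) hb.le
  have hL : HasDerivAt (fun x => gg Y x / x) ((g' * b - gg Y b * 1) / b ^ 2) b :=
    hg'.div (hasDerivAt_id b) hb.ne'
  have hT : HasDerivAt (fun x => Th (gg Y x / x))
      (-(√5 / ((gg Y b / b) ^ 2 + 3 * (gg Y b / b) + 1)) * ((g' * b - gg Y b * 1) / b ^ 2)) b :=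
    HasDerivAt.comp (h := fun x => gg Y x / x) b (Th_deriv hL0) hL
  have hR : HasDerivAt (fun x => RmC_R κ (Th (gg Y x / x)))
      ((-(√5 / ((gg Y b / b) ^ 2 + 3 * (gg Y b / b) + 1)) * ((g' * b - gg Y b * 1) / b ^ 2)) •
        ph κ (gg Y b / b)) b :=
    HasDerivAt.scomp (h := fun x => Th (gg Y x / x)) b (RmC_R_deriv κ (Th (gg Y b / b))) hT
  have hP : HasDerivAt (fun x => Ph κ (gg Y x / x))
      (((g' * b - gg Y b * 1) / b ^ 2) • ph κ (gg Y b / b)) b :=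
    HasDerivAt.scomp (h := fun x => gg Y x / x) b (RmC_Ph_deriv κ hL0) hL
  have hq : HasDerivAt (fun x : ℝ => ((x ^ 2 / 2 : ℝ) : ℂ)) ((b : ℝ) : ℂ) b := by
    have h1 : HasDerivAt (fun x : ℝ => x ^ 2 / 2) b b := by
      have h2 := (hasDerivAt_pow 2 b).div_const 2
      have h3 : ((2 : ℕ) : ℝ) * b ^ (2 - 1) / 2 = b := by
        norm_num
      rwa [h3] at h2
    exact h1.ofReal_comp
  have hall := (hq.mul hP).add (hR.const_mul ((Y / (2 * √5) : ℝ) : ℂ))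
  have hq2 : (gg Y b / b) ^ 2 + 3 * (gg Y b / b) + 1 = Y / b ^ 2 := by
    have h1 := RmC_gg_eq (b := b) hY
    field_simp
    linarith
  have h5 : (√5 : ℝ) ≠ 0 := by
    have := MP_d57abb_nt.sqrt5_lo
    positivity
  have key : b ^ 2 / 2 = Y / (2 * √5) * (√5 / ((gg Y b / b) ^ 2 + 3 * (gg Y b / b) + 1)) := by
    rw [hq2]
    field_simp
  have e1 : (b : ℂ) * Ph κ (gg Y b / b) + ((b ^ 2 / 2 : ℝ) : ℂ) *
      (((g' * b - gg Y b * 1) / b ^ 2) • ph κ (gg Y b / b)) + ((Y / (2 * √5) : ℝ) : ℂ) *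
      ((-(√5 / ((gg Y b / b) ^ 2 + 3 * (gg Y b / b) + 1)) * ((g' * b - gg Y b * 1) / b ^ 2)) •
        ph κ (gg Y b / b)) = (b : ℂ) * Ph κ (gg Y b / b) := by
    rw [key, Complex.real_smul, Complex.real_smul]
    generalize √5 / ((gg Y b / b) ^ 2 + 3 * (gg Y b / b) + 1) = r1
    generalize (g' * b - gg Y b * 1) / b ^ 2 = r2
    generalize Y / (2 * √5) = r3
    push_cast
    ring
  rw [e1] at hall
  exact hall

theorem outer_integral (κ : ℤ) {Y : ℝ} (hY : 1 ≤ Y) :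
    ‖(∫ b in (1 : ℝ)..√Y, (b : ℂ) * Ph κ (gg Y b / b)) - (if κ = 0 then ((per / (2 * √5) * Y : ℝ) : ℂ) else 0)‖ ≤
      4 * √Y := by
  have hY0 : 0 < Y := by linarith
  have hs1 : 1 ≤ √Y := Real.one_le_sqrt.mpr hY
  have hs2 : √Y ^ 2 = Y := Real.sq_sqrt hY0.le
  have h5lo := MP_d57abb_nt.sqrt5_lo
  have h5hi := MP_d57abb_nt.sqrt5_hi
  have hbe := MP_d57abb_nt.be_lo
  have h50 : 0 < √(5 : ℝ) := by linarith
  have hmem : ∀ b ∈ Set.uIcc 1 (√Y), 0 < b ∧ b ^ 2 ≤ Y := by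
    intro b hb
    rw [Set.uIcc_of_le hs1] at hb
    have hb0 : 0 < b := by linarith [hb.1]
    refine ⟨hb0, ?_⟩
    calc b ^ 2 ≤ √Y ^ 2 := by
          have := hb.2
          gcongr
      _ = Y := hs2
  have hint : IntervalIntegrable (fun b : ℝ => (b : ℂ) * Ph κ (gg Y b / b)) volume 1 (√Y) := by
    refine ContinuousOn.intervalIntegrable fun b hb => ContinuousAt.continuousWithinAt ?_
    obtain ⟨hb0, hb1⟩ := hmem b hb
    obtain ⟨g', hg'⟩ := RmC_gg_deriv hY0 b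
    have hL0 : 0 ≤ gg Y b / b := div_nonneg (gg_nonneg hb0.le hb1) hb0.le
    have hL : ContinuousAt (fun x => gg Y x / x) b :=
      hg'.continuousAt.div continuousAt_id hb0.ne'
    have hP : ContinuousAt (fun x => Ph κ (gg Y x / x)) b :=
      ContinuousAt.comp (f := fun x => gg Y x / x) (RmC_Ph_deriv κ hL0).continuousAt hL
    exact Complex.continuous_ofReal.continuousAt.mul hP
  have hF : (∫ b in (1 : ℝ)..√Y, (b : ℂ) * Ph κ (gg Y b / b)) = RmC_Psi κ Y (√Y) - RmC_Psi κ Y 1 :=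
    intervalIntegral.integral_eq_sub_of_hasDerivAt
      (fun b hb => RmC_Psi_deriv κ hY0 (hmem b hb).1 (hmem b hb).2) hint
  have hend : RmC_Psi κ Y (√Y) = if κ = 0 then ((per / (2 * √5) * Y : ℝ) : ℂ) else 0 := by
    have h1 : gg Y (√Y) = 0 := by
      unfold gg
      rw [hs2]
      have h2 : 5 * Y + 4 * Y = (3 * √Y) ^ 2 := by
        rw [mul_pow, hs2]
        ring
      rw [h2, Real.sqrt_sq (by positivity)]
      ring
    unfold RmC_Psi
    rw [h1, zero_div, Th_zero, RmC_R_per]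
    have h3 : Ph κ 0 = 0 := by
      unfold Ph
      exact intervalIntegral.integral_same
    rw [h3, mul_zero, zero_add]
    by_cases h : κ = 0
    · rw [if_pos h, if_pos h]
      push_cast
      ring
    · rw [if_neg h, if_neg h, mul_zero]
  have h11 : (1 : ℝ) ^ 2 ≤ Y := by rw [one_pow]; exact hY
  have hg0 : 0 ≤ gg Y 1 := gg_nonneg zero_le_one h11
  have hg1 : gg Y 1 ≤ √Y := gg_le zero_le_one h11
  have hgb : √Y / 6 ≤ gg Y 1 + be := by
    have h1 : √5 + √Y / 3 ≤ √(5 * 1 ^ 2 + 4 * Y) := by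
      refine Real.le_sqrt_of_sq_le ?_
      have h2 : (√(5 : ℝ)) ^ 2 = 5 := Real.sq_sqrt (by norm_num)
      nlinarith
    have h3 : gg Y 1 + be = (√(5 * 1 ^ 2 + 4 * Y) - √5) / 2 := by
      unfold gg
      unfold MP_d57abb_nt.be
      ring
    rw [h3]
    linarith
  have hone : ‖RmC_Psi κ Y 1‖ ≤ 4 * √Y := by
    unfold RmC_Psi
    rw [div_one]
    refine (norm_add_le _ _).trans ?_
    rw [norm_mul, norm_mul, Complex.norm_real, Complex.norm_real, Real.norm_of_nonneg (by norm_num),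
      Real.norm_of_nonneg (by positivity)]
    have h1 := RmC_Ph_norm κ hg0
    have h2 := RmC_R_norm κ (Th_nonneg hg0)
    have h3 := Th_upper hg0
    have h4 : Y / (2 * √5) * ‖RmC_R κ (Th (gg Y 1))‖ ≤ 3 * √Y := by
      have hpos : 0 < gg Y 1 + be := by linarith
      calc Y / (2 * √5) * ‖RmC_R κ (Th (gg Y 1))‖
          ≤ Y / (2 * √5) * (√5 / (gg Y 1 + be)) := by
            have := h2.trans h3
            gcongr
        _ = Y / (2 * (gg Y 1 + be)) := by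
            field_simp
        _ ≤ 3 * √Y := by
            rw [div_le_iff₀ (by positivity)]
            nlinarith
    have h6 : (1 : ℝ) ^ 2 / 2 * ‖Ph κ (gg Y 1)‖ ≤ √Y / 2 := by
      rw [one_pow]
      linarith
    linarith
  rw [hF, hend]
  have e2 : (if κ = 0 then ((per / (2 * √5) * Y : ℝ) : ℂ) else 0) - RmC_Psi κ Y 1 -
      (if κ = 0 then ((per / (2 * √5) * Y : ℝ) : ℂ) else 0) = -RmC_Psi κ Y 1 := by ring
  rw [e2, norm_neg]
  exact hone

end Pool.Agent.Lib.MP_d57abb_nt.MR
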