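import Mathlib
import Pool.Agent.Lib.MP_d57abb_nt.MR.RmB

/-!
# JOB RmD: the outer sum

`φ b = b * Ph κ (gg Y b / b)` on `[1, √Y]`.  `‖φ b‖ ≤ gg Y b ≤ √Y` (`‖Ph κ x‖ ≤ x`).
`φ' b = Ph κ (Λ) + b ph κ (Λ) Λ'` with `Λ = gg / b`, `b Λ' = gg' - gg / b`; `‖φ'‖ ≤ 2 gg / b + |gg'| ≤ 2 √Y / b + 3`
(`|gg'| = |-3 + 5 b/√(5b²+4Y)| / 2 ≤ 3`).  `∫_1^{√Y} ‖φ'‖ ≤ 2 √Y log √Y + 3 √Y ≤ √Y log Y + 3 √Y`.  Apply `sum_sub_integral'` with `M = √Y log Y + 3 √Y`, `K = √Y`.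
-/

namespace Pool.Agent.Lib.MP_d57abb_nt.MR

open Finset MeasureTheory
open Pool.Agent.Lib.MP_d57abb_nt (al be)

private theorem RmD_e_cont : Continuous Pool.Agent.Lib.MP_2a816b_nt.e := by
  unfold Pool.Agent.Lib.MP_2a816b_nt.e
  fun_prop

private theorem RmD_be_pos : 0 < be := by
  have := Pool.Agent.Lib.MP_d57abb_nt.be_lo
  linarith

private theorem RmD_al_pos : 0 < al := by
  have := Pool.Agent.Lib.MP_d57abb_nt.al_lo
  linarith

private theorem RmD_ph_cont (κ : ℤ) {x : ℝ} (hx : 0 ≤ x) : ContinuousAt (ph κ) x := by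
  have h1 : ContinuousAt Th x := (Th_deriv hx).continuousAt
  unfold ph
  refine RmD_e_cont.continuousAt.comp' ?_
  exact (continuousAt_const.mul h1).div_const _

private theorem RmD_ph_meas (κ : ℤ) : Measurable (ph κ) := by
  have h1 : Measurable Th := by
    unfold Th
    fun_prop
  unfold ph
  exact RmD_e_cont.measurable.comp ((measurable_const.mul h1).div_const _)

private theorem RmD_ph_int (κ : ℤ) {x : ℝ} (hx : 0 ≤ x) : IntervalIntegrable (ph κ) volume 0 x := by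
  refine ContinuousOn.intervalIntegrable ?_
  rw [Set.uIcc_of_le hx]
  intro t ht
  exact (RmD_ph_cont κ ht.1).continuousWithinAt

private theorem RmD_Ph_deriv (κ : ℤ) {x : ℝ} (hx : 0 ≤ x) : HasDerivAt (Ph κ) (ph κ x) x := by
  unfold Ph
  exact intervalIntegral.integral_hasDerivAt_right (RmD_ph_int κ hx)
    ((RmD_ph_meas κ).aestronglyMeasurable.stronglyMeasurableAtFilter) (RmD_ph_cont κ hx)

private theorem RmD_Ph_norm (κ : ℤ) {x : ℝ} (hx : 0 ≤ x) : ‖Ph κ x‖ ≤ x := by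
  unfold Ph
  have h := intervalIntegral.norm_integral_le_of_norm_le_const (a := 0) (b := x) (f := ph κ) (C := 1)
    (fun t _ => (norm_ph κ t).le)
  rwa [one_mul, sub_zero, abs_of_nonneg hx] at h

/-- the derivative of the right end -/
private noncomputable def RmD_g1 (Y b : ℝ) : ℝ := (-3 + 5 * b / √(5 * b ^ 2 + 4 * Y)) / 2

private theorem RmD_gg_deriv {Y : ℝ} (hY : 1 ≤ Y) (b : ℝ) : HasDerivAt (gg Y) (RmD_g1 Y b) b := by
  have h1 : 0 < 5 * b ^ 2 + 4 * Y := by positivity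
  have h2 : HasDerivAt (fun b : ℝ => 5 * b ^ 2 + 4 * Y) (10 * b) b := by
    have := ((hasDerivAt_pow 2 b).const_mul 5).add_const (4 * Y)
    refine this.congr_deriv ?_
    norm_num
    ring
  have h3 := h2.sqrt h1.ne'
  have h4 := ((hasDerivAt_id b).const_mul 3).neg.add h3
  have h5 := h4.div_const 2
  refine h5.congr_deriv ?_
  unfold RmD_g1
  have h6 : √(5 * b ^ 2 + 4 * Y) ≠ 0 := (Real.sqrt_pos.2 h1).ne'
  field_simp
  ring

private theorem RmD_g1_abs {Y b : ℝ} (hY : 1 ≤ Y) (hb : 0 ≤ b) : |RmD_g1 Y b| ≤ 3 := by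
  have h1 : 0 < 5 * b ^ 2 + 4 * Y := by positivity
  have h2 : 0 < √(5 * b ^ 2 + 4 * Y) := Real.sqrt_pos.2 h1
  have h3 : 0 ≤ 5 * b / √(5 * b ^ 2 + 4 * Y) := by positivity
  have h4 : 5 * b / √(5 * b ^ 2 + 4 * Y) ≤ 3 := by
    rw [div_le_iff₀ h2]
    have h5 : √(5 * b ^ 2 + 4 * Y) ^ 2 = 5 * b ^ 2 + 4 * Y := Real.sq_sqrt h1.le
    nlinarith
  unfold RmD_g1
  rw [abs_le]
  constructor
  · linarith
  · linarith

/-- the derivative of the summand -/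
private noncomputable def RmD_f1 (κ : ℤ) (Y b : ℝ) : ℂ :=
  Ph κ (gg Y b / b) + (b : ℂ) * ((((RmD_g1 Y b * b - gg Y b * 1) / b ^ 2 : ℝ) : ℂ) * ph κ (gg Y b / b))

private theorem RmD_deriv (κ : ℤ) {Y b : ℝ} (hY : 1 ≤ Y) (hb : 1 ≤ b) (hb2 : b ≤ √Y) :
    HasDerivAt (fun b : ℝ => (b : ℂ) * Ph κ (gg Y b / b)) (RmD_f1 κ Y b) b := by
  have hY0 : 0 ≤ Y := by linarith
  have hb0 : 0 < b := by linarith
  have hsq : b ^ 2 ≤ Y := by
    have h := pow_le_pow_left₀ hb0.le hb2 2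
    rwa [Real.sq_sqrt hY0] at h
  have h0 : 0 ≤ gg Y b / b := div_nonneg (gg_nonneg hb0.le hsq) hb0.le
  have h1 : HasDerivAt (fun b : ℝ => gg Y b / b) ((RmD_g1 Y b * b - gg Y b * 1) / b ^ 2) b :=
    (RmD_gg_deriv hY b).div (hasDerivAt_id b) hb0.ne'
  have h2 : HasDerivAt (fun b : ℝ => Ph κ (gg Y b / b))
      (((RmD_g1 Y b * b - gg Y b * 1) / b ^ 2) • ph κ (gg Y b / b)) b :=
    HasDerivAt.scomp (g₁ := Ph κ) (h := fun b : ℝ => gg Y b / b) b (RmD_Ph_deriv κ h0) h1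
  have h3 : HasDerivAt (fun b : ℝ => (b : ℂ)) 1 b := (hasDerivAt_id b).ofReal_comp
  have h4 := h3.mul h2
  refine h4.congr_deriv ?_
  unfold RmD_f1
  rw [one_mul, Complex.real_smul]

private theorem RmD_f1_cont (κ : ℤ) {Y : ℝ} (hY : 1 ≤ Y) : ContinuousOn (RmD_f1 κ Y) (Set.Icc 1 √Y) := by
  have hY0 : 0 ≤ Y := by linarith
  intro b hb
  have hb0 : 0 < b := by linarith [hb.1]
  have hsq : b ^ 2 ≤ Y := by
    have h := pow_le_pow_left₀ hb0.le hb.2 2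
    rwa [Real.sq_sqrt hY0] at h
  have h0 : 0 ≤ gg Y b / b := div_nonneg (gg_nonneg hb0.le hsq) hb0.le
  have hg : ContinuousAt (gg Y) b := (RmD_gg_deriv hY b).continuousAt
  have hL : ContinuousAt (fun b : ℝ => gg Y b / b) b := hg.div continuousAt_id hb0.ne'
  have hP : ContinuousAt (fun b : ℝ => Ph κ (gg Y b / b)) b :=
    ContinuousAt.comp' (g := Ph κ) (RmD_Ph_deriv κ h0).continuousAt hL
  have hp : ContinuousAt (fun b : ℝ => ph κ (gg Y b / b)) b :=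
    ContinuousAt.comp' (g := ph κ) (RmD_ph_cont κ h0) hL
  have hs : 0 < 5 * b ^ 2 + 4 * Y := by positivity
  have hg1 : ContinuousAt (RmD_g1 Y) b := by
    unfold RmD_g1
    refine (continuousAt_const.add ?_).div_const _
    refine (continuousAt_const.mul continuousAt_id).div ?_ (Real.sqrt_pos.2 hs).ne'
    exact (((continuousAt_id.pow 2).const_mul 5).add continuousAt_const).sqrt
  have hq : ContinuousAt (fun b : ℝ => (RmD_g1 Y b * b - gg Y b * 1) / b ^ 2) b :=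
    ((hg1.mul continuousAt_id).sub (hg.mul continuousAt_const)).div (continuousAt_id.pow 2)
      (pow_pos hb0 2).ne'
  have hc : ContinuousAt (fun b : ℝ => (b : ℂ)) b := Complex.continuous_ofReal.continuousAt
  have hqc : ContinuousAt (fun b : ℝ => (((RmD_g1 Y b * b - gg Y b * 1) / b ^ 2 : ℝ) : ℂ)) b :=
    ContinuousAt.comp' (g := Complex.ofReal) Complex.continuous_ofReal.continuousAt hq
  exact (hP.add (hc.mul (hqc.mul hp))).continuousWithinAt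

private theorem RmD_f1_norm (κ : ℤ) {Y b : ℝ} (hY : 1 ≤ Y) (hb : 1 ≤ b) (hb2 : b ≤ √Y) :
    ‖RmD_f1 κ Y b‖ ≤ 2 * √Y * b⁻¹ + 3 := by
  have hY0 : 0 ≤ Y := by linarith
  have hb0 : 0 < b := by linarith
  have hsq : b ^ 2 ≤ Y := by
    have h := pow_le_pow_left₀ hb0.le hb2 2
    rwa [Real.sq_sqrt hY0] at h
  have hg0 : 0 ≤ gg Y b := gg_nonneg hb0.le hsq
  have hg1 : gg Y b ≤ √Y := gg_le hb0.le hsq
  have h0 : 0 ≤ gg Y b / b := div_nonneg hg0 hb0.le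
  have h1 : gg Y b / b ≤ √Y * b⁻¹ := by
    rw [div_eq_mul_inv]
    exact mul_le_mul_of_nonneg_right hg1 (inv_nonneg.2 hb0.le)
  have h2 : ‖(b : ℂ) * ((((RmD_g1 Y b * b - gg Y b * 1) / b ^ 2 : ℝ) : ℂ) * ph κ (gg Y b / b))‖ ≤
      3 + √Y * b⁻¹ := by
    rw [norm_mul, norm_mul, norm_ph, mul_one, Complex.norm_real, Complex.norm_real,
      ← norm_mul, Real.norm_eq_abs]
    have h3 : b * ((RmD_g1 Y b * b - gg Y b * 1) / b ^ 2) = RmD_g1 Y b - gg Y b / b := by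
      field_simp
    rw [h3]
    calc |RmD_g1 Y b - gg Y b / b| ≤ |RmD_g1 Y b| + |gg Y b / b| := abs_sub _ _
      _ ≤ 3 + √Y * b⁻¹ := by
          rw [abs_of_nonneg h0]
          exact add_le_add (RmD_g1_abs hY hb0.le) h1
  calc ‖RmD_f1 κ Y b‖ ≤ ‖Ph κ (gg Y b / b)‖ +
        ‖(b : ℂ) * ((((RmD_g1 Y b * b - gg Y b * 1) / b ^ 2 : ℝ) : ℂ) * ph κ (gg Y b / b))‖ :=
        norm_add_le _ _
    _ ≤ √Y * b⁻¹ + (3 + √Y * b⁻¹) := add_le_add ((RmD_Ph_norm κ h0).trans h1) h2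
    _ = 2 * √Y * b⁻¹ + 3 := by ring

private theorem RmD_int {Y : ℝ} (hY : 1 ≤ Y) :
    ∫ b in (1 : ℝ)..√Y, (2 * √Y * b⁻¹ + 3) ≤ √Y * Real.log Y + 3 * √Y := by
  have hs1 : 1 ≤ √Y := Real.one_le_sqrt.2 hY
  have hs0 : 0 < √Y := by linarith
  have hi : IntervalIntegrable (fun b : ℝ => b⁻¹) volume 1 √Y := by
    refine intervalIntegral.intervalIntegrable_inv (fun x hx => ?_) continuousOn_id
    rw [Set.uIcc_of_le hs1] at hx
    have : (0 : ℝ) < x := by linarith [hx.1]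
    exact this.ne'
  rw [intervalIntegral.integral_add (hi.const_mul _) intervalIntegrable_const,
    intervalIntegral.integral_const_mul, integral_inv_of_pos one_pos hs0,
    intervalIntegral.integral_const, div_one, Real.log_sqrt (by linarith), smul_eq_mul]
  nlinarith

theorem outer_sum (κ : ℤ) {Y : ℝ} (hY : 1 ≤ Y) :
    ‖∑ b ∈ Icc 1 ⌊√Y⌋₊, (b : ℂ) * Ph κ (gg Y b / b) - ∫ b in (1 : ℝ)..√Y, (b : ℂ) * Ph κ (gg Y b / b)‖ ≤
      √Y * Real.log Y + 5 * √Y := by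
  have hY0 : 0 ≤ Y := by linarith
  have hs1 : 1 ≤ √Y := Real.one_le_sqrt.2 hY
  have hs0 : 0 < √Y := by linarith
  have hi : IntervalIntegrable (fun b : ℝ => 2 * √Y * b⁻¹ + 3) volume 1 √Y := by
    have h1 : IntervalIntegrable (fun b : ℝ => b⁻¹) volume 1 √Y := by
      refine intervalIntegral.intervalIntegrable_inv (fun x hx => ?_) continuousOn_id
      rw [Set.uIcc_of_le hs1] at hx
      have : (0 : ℝ) < x := by linarith [hx.1]
      exact this.ne'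
    exact (h1.const_mul _).add intervalIntegrable_const
  have hM : ∫ t in (1 : ℝ)..√Y, ‖RmD_f1 κ Y t‖ ≤ √Y * Real.log Y + 3 * √Y := by
    refine le_trans ?_ (RmD_int hY)
    refine intervalIntegral.integral_mono_on hs1 ?_ hi
      (fun b hb => RmD_f1_norm κ hY hb.1 hb.2)
    refine ContinuousOn.intervalIntegrable ?_
    rw [Set.uIcc_of_le hs1]
    exact (RmD_f1_cont κ hY).norm
  have hK : ∀ t ∈ Set.Icc 1 √Y, ‖(t : ℂ) * Ph κ (gg Y t / t)‖ ≤ √Y := by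
    intro b hb
    have hb0 : 0 < b := by linarith [hb.1]
    have hsq : b ^ 2 ≤ Y := by
      have h := pow_le_pow_left₀ hb0.le hb.2 2
      rwa [Real.sq_sqrt hY0] at h
    have hg0 : 0 ≤ gg Y b := gg_nonneg hb0.le hsq
    have h0 : 0 ≤ gg Y b / b := div_nonneg hg0 hb0.le
    rw [norm_mul, Complex.norm_real, Real.norm_eq_abs, abs_of_pos hb0]
    calc b * ‖Ph κ (gg Y b / b)‖ ≤ b * (gg Y b / b) :=
          mul_le_mul_of_nonneg_left (RmD_Ph_norm κ h0) hb0.le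
      _ = gg Y b := by field_simp
      _ ≤ √Y := gg_le hb0.le hsq
  have key := sum_sub_integral' (fun b : ℝ => (b : ℂ) * Ph κ (gg Y b / b)) (RmD_f1 κ Y) hs1
    (fun t ht => RmD_deriv κ hY ht.1 ht.2) (RmD_f1_cont κ hY) hK hM
  have he : √Y * Real.log Y + 3 * √Y + 2 * √Y = √Y * Real.log Y + 5 * √Y := by ring
  rw [he] at key
  simpa using key

end Pool.Agent.Lib.MP_d57abb_nt.MR
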