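import Mathlib
import Pool.Agent.Lib.MP_d57abb_nt.MR.RmC
import Pool.Agent.Lib.MP_d57abb_nt.MR.RmD
import Pool.Agent.Lib.MP_d57abb_nt.MR.Mul

/-!
# JOB RmE: sums over the quadrant, small frequencies

* `riem`: `V_rows`; the row `b = 0` has at most `√Y` terms; for `b ≥ 1` `inner_sum` with `x = gg Y b`: error `(2 π |κ| + 1) √Y` in total; then `outer_sum`,
  `outer_integral`.  Total error `√Y + (2π|κ| + 1) √Y + √Y log Y + 5 √Y + 4 √Y ≤ C (1 + |κ|) Y^(3/4)` (`log Y ≤ 4 Y^(1/4)`: `Real.log_le_rpow_div`).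
* `card_V`: `κ = 0` (`e 0 = 1`).
* `card_V_le`: `card_V` for `Y ≥ 1`, `V_empty` for `Y < 1` (for `0 ≤ Y`; `C` absolute).
* `card_V_ge`: `1 ∈ V Y` and `card_V`: for `Y ≥ Y0` the main term dominates, for `1 ≤ Y ≤ Y0` `card ≥ 1`.
* `card_shell`: difference of `card_V` at `Y + h` and `Y`: `card (V (Y+h) \ V Y) ≤ c0 h + 2 C (Y + h)^(3/4)`.
* `sum_inv`: `∑_{v ∈ V Y} 1/N v ≤ C (1 + log Y)`: split into `2^k ≤ N v < 2^(k+1)`, `k ≤ log_2 Y`: each part `≤ C 2^(k+1)/2^k`.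
* `sum_inv_sq`: `∑_{v ∈ V Y} (N v)^(-3/2) ≤ C`, uniformly in `Y` (dyadic).
* `sum_rpow`: `∑_{v ∈ V Y} (N v)^(-3/4) ≤ C Y^(1/4)` (dyadic).
-/

namespace Pool.Agent.Lib.MP_d57abb_nt.MR

open Finset
open Pool.Agent.Lib.MP_2a816b_nt (e)

private theorem RmE_norm_e (x : ℝ) : ‖e x‖ = 1 := Pool.Agent.Lib.MP_2a816b_nt.norm_e x

private theorem RmE_ico (n : ℕ) : Ico 1 (n + 1) = Icc 1 n := by
  ext x
  rw [mem_Ico, mem_Icc]
  omega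

theorem riem : ∃ C : ℝ, 0 < C ∧ ∀ Y : ℝ, 1 ≤ Y → ∀ κ : ℤ,
    ‖∑ v ∈ V Y, e (κ * An v / per) - (if κ = 0 then ((per / (2 * √5) * Y : ℝ) : ℂ) else 0)‖ ≤
      C * (1 + |(κ : ℝ)|) * Y ^ (3 / 4 : ℝ) := by
  refine ⟨15, by norm_num, fun Y hY κ => ?_⟩
  have hY0 : 0 < Y := by linarith
  have hsq : 0 ≤ √Y := Real.sqrt_nonneg Y
  have hrow : ∀ b : ℕ, b ≤ ⌊√Y⌋₊ → (b : ℝ) ^ 2 ≤ Y := by
    intro b hb
    have h1 : (b : ℝ) ≤ √Y := (Nat.le_floor_iff hsq).1 hb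
    calc (b : ℝ) ^ 2 ≤ √Y ^ 2 := by gcongr
      _ = Y := Real.sq_sqrt hY0.le
  have hsplit : ∑ v ∈ V Y, e (κ * An v / per) =
      (∑ a ∈ Icc 1 ⌊gg Y (0 : ℕ)⌋₊, e (κ * An ⟨a, (0 : ℕ)⟩ / per)) +
        ∑ b ∈ Icc 1 ⌊√Y⌋₊, ∑ a ∈ Icc 1 ⌊gg Y b⌋₊, e (κ * An ⟨a, b⟩ / per) := by
    rw [V_rows hY, Finset.range_eq_Ico, Finset.sum_eq_sum_Ico_succ_bot (Nat.succ_pos _)]
    rfl
  obtain ⟨T0, hT0⟩ : ∃ T0 : ℂ, T0 = ∑ a ∈ Icc 1 ⌊gg Y (0 : ℕ)⌋₊, e (κ * An ⟨a, (0 : ℕ)⟩ / per) :=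
    ⟨_, rfl⟩
  obtain ⟨T1, hT1⟩ : ∃ T1 : ℂ, T1 = ∑ b ∈ Icc 1 ⌊√Y⌋₊, ∑ a ∈ Icc 1 ⌊gg Y b⌋₊,
    e (κ * An ⟨a, b⟩ / per) := ⟨_, rfl⟩
  obtain ⟨T2, hT2⟩ : ∃ T2 : ℂ, T2 = ∑ b ∈ Icc 1 ⌊√Y⌋₊, (b : ℂ) * Ph κ (gg Y b / b) := ⟨_, rfl⟩
  obtain ⟨T3, hT3⟩ : ∃ T3 : ℂ, T3 = ∫ b in (1 : ℝ)..√Y, (b : ℂ) * Ph κ (gg Y b / b) := ⟨_, rfl⟩
  have b0 : ‖T0‖ ≤ √Y := by
    rw [hT0]
    refine (norm_sum_le _ _).trans ?_
    simp only [RmE_norm_e, sum_const, Nat.card_Icc, nsmul_eq_mul, mul_one, Nat.add_sub_cancel]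
    have h0 : ((0 : ℕ) : ℝ) ^ 2 ≤ Y := hrow 0 (Nat.zero_le _)
    refine (Nat.floor_le (gg_nonneg (Nat.cast_nonneg 0) h0)).trans ?_
    exact gg_le (Nat.cast_nonneg 0) h0
  have b1 : ‖T1 - T2‖ ≤ √Y * (2 * Real.pi * |(κ : ℝ)| + 1) := by
    rw [hT1, hT2, ← Finset.sum_sub_distrib]
    refine (norm_sum_le _ _).trans ?_
    have h1 : ∀ b ∈ Icc 1 ⌊√Y⌋₊, ‖(∑ a ∈ Icc 1 ⌊gg Y b⌋₊, e (κ * An ⟨a, b⟩ / per)) -
        (b : ℂ) * Ph κ (gg Y b / b)‖ ≤ 2 * Real.pi * |(κ : ℝ)| + 1 := by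
      intro b hb
      rw [mem_Icc] at hb
      exact inner_sum κ hb.1 (gg_nonneg (Nat.cast_nonneg b) (hrow b hb.2))
    refine (Finset.sum_le_sum h1).trans ?_
    rw [sum_const, Nat.card_Icc, nsmul_eq_mul, Nat.add_sub_cancel]
    have h2 : ((⌊√Y⌋₊ : ℕ) : ℝ) ≤ √Y := Nat.floor_le hsq
    have h3 : 0 ≤ 2 * Real.pi * |(κ : ℝ)| + 1 := by positivity
    gcongr
  have b2 : ‖T2 - T3‖ ≤ √Y * Real.log Y + 5 * √Y := by
    rw [hT2, hT3]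
    exact outer_sum κ hY
  have b3 : ‖T3 - (if κ = 0 then ((per / (2 * √5) * Y : ℝ) : ℂ) else 0)‖ ≤ 4 * √Y := by
    rw [hT3]
    exact outer_integral κ hY
  rw [hsplit, ← hT0, ← hT1]
  obtain ⟨M, hM⟩ : ∃ M : ℂ, M = (if κ = 0 then ((per / (2 * √5) * Y : ℝ) : ℂ) else 0) := ⟨_, rfl⟩
  rw [← hM] at b3 ⊢
  have h1 : T0 + T1 - M = T0 + ((T1 - T2) + ((T2 - T3) + (T3 - M))) := by ring
  have h2 : ‖T0 + T1 - M‖ ≤ √Y + (√Y * (2 * Real.pi * |(κ : ℝ)| + 1) +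
      ((√Y * Real.log Y + 5 * √Y) + 4 * √Y)) := by
    rw [h1]
    exact (norm_add_le _ _).trans (add_le_add b0 ((norm_add_le _ _).trans (add_le_add b1
      ((norm_add_le _ _).trans (add_le_add b2 b3)))))
  refine h2.trans ?_
  have h3 : √Y = Y ^ (1 / 2 : ℝ) := Real.sqrt_eq_rpow Y
  have h4 : √Y ≤ Y ^ (3 / 4 : ℝ) := by
    rw [h3]
    exact Real.rpow_le_rpow_of_exponent_le hY (by norm_num)
  have h5 : √Y * Real.log Y ≤ 4 * Y ^ (3 / 4 : ℝ) := by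
    have h6 : Real.log Y ≤ 4 * Y ^ (1 / 4 : ℝ) := by
      have h7 := Real.log_le_rpow_div hY0.le (show (0 : ℝ) < 1 / 4 by norm_num)
      linarith
    calc √Y * Real.log Y ≤ √Y * (4 * Y ^ (1 / 4 : ℝ)) := by gcongr
      _ = 4 * (Y ^ (1 / 2 : ℝ) * Y ^ (1 / 4 : ℝ)) := by rw [h3]; ring
      _ = 4 * Y ^ (3 / 4 : ℝ) := by
        rw [← Real.rpow_add hY0]
        norm_num
  have h6 : 0 ≤ |(κ : ℝ)| := abs_nonneg _
  have h7 : Real.pi ≤ 4 := Real.pi_le_four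
  have h8 : √Y * (2 * Real.pi * |(κ : ℝ)|) ≤ Y ^ (3 / 4 : ℝ) * (8 * |(κ : ℝ)|) := by
    gcongr
    linarith
  have h9 : 0 ≤ Y ^ (3 / 4 : ℝ) := by positivity
  have h10 : 0 ≤ Y ^ (3 / 4 : ℝ) * |(κ : ℝ)| := by positivity
  linarith

theorem card_V : ∃ C : ℝ, 0 < C ∧ ∀ Y : ℝ, 1 ≤ Y →
    |((V Y).card : ℝ) - per / (2 * √5) * Y| ≤ C * Y ^ (3 / 4 : ℝ) := by
  obtain ⟨C, hC, h⟩ := riem
  refine ⟨C, hC, fun Y hY => ?_⟩
  have h1 := h Y hY 0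
  have h2 : ∑ v ∈ V Y, e (((0 : ℤ) : ℝ) * An v / per) = (((V Y).card : ℝ) : ℂ) := by
    have h3 : ∀ v ∈ V Y, e (((0 : ℤ) : ℝ) * An v / per) = 1 := by
      intro v _
      rw [Int.cast_zero, zero_mul, zero_div]
      exact Pool.Agent.Lib.MP_2a816b_nt.e_zero
    rw [Finset.sum_congr rfl h3]
    simp
  rw [h2, if_pos rfl, ← Complex.ofReal_sub, Complex.norm_real, Real.norm_eq_abs] at h1
  simpa using h1

theorem card_V_le : ∃ C : ℝ, 1 ≤ C ∧ ∀ Y : ℝ, 0 ≤ Y → ((V Y).card : ℝ) ≤ C * Y := by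
  obtain ⟨C, hC, h⟩ := card_V
  have hp := per_pos
  have hc : 0 ≤ per / (2 * √5) := by positivity
  refine ⟨per / (2 * √5) + C + 1, by linarith, fun Y hY => ?_⟩
  rcases lt_or_ge Y 1 with h1 | h1
  · rw [V_empty h1, Finset.card_empty, Nat.cast_zero]
    positivity
  · have h2 := (abs_le.1 (h Y h1)).2
    have h3 : Y ^ (3 / 4 : ℝ) ≤ Y := by
      calc Y ^ (3 / 4 : ℝ) ≤ Y ^ (1 : ℝ) := Real.rpow_le_rpow_of_exponent_le h1 (by norm_num)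
        _ = Y := Real.rpow_one Y
    have h4 : C * Y ^ (3 / 4 : ℝ) ≤ C * Y := by gcongr
    linarith

theorem card_shell : ∃ C : ℝ, 1 ≤ C ∧ ∀ Y h : ℝ, 1 ≤ Y → 0 ≤ h →
    ((V (Y + h) \ V Y).card : ℝ) ≤ C * (h + (Y + h) ^ (3 / 4 : ℝ)) := by
  obtain ⟨C, hC, h⟩ := card_V
  have hp := per_pos
  have hc : 0 ≤ per / (2 * √5) := by positivity
  refine ⟨per / (2 * √5) + 2 * C + 1, by linarith, fun Y h' hY hh => ?_⟩
  have h1 := (abs_le.1 (h (Y + h') (by linarith))).2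
  have h2 := (abs_le.1 (h Y hY)).1
  have h3 : ((V (Y + h') \ V Y).card : ℝ) = (V (Y + h')).card - (V Y).card := by
    rw [Finset.card_sdiff_of_subset (V_mono (by linarith)),
      Nat.cast_sub (Finset.card_le_card (V_mono (by linarith)))]
  have h4 : Y ^ (3 / 4 : ℝ) ≤ (Y + h') ^ (3 / 4 : ℝ) := by
    gcongr
    linarith
  have h5 : C * Y ^ (3 / 4 : ℝ) ≤ C * (Y + h') ^ (3 / 4 : ℝ) := by gcongr
  have h6 : 0 ≤ (Y + h') ^ (3 / 4 : ℝ) := by positivity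
  rw [h3]
  have h7 : 0 ≤ C * h' := by positivity
  have h8 : 0 ≤ per / (2 * √5) * (Y + h') ^ (3 / 4 : ℝ) := by positivity
  linarith

private theorem RmE_N {Y : ℝ} {v : O} (hv : v ∈ V Y) : (1 : ℝ) ≤ N v := by
  have h := (mem_V.1 hv).1.tp.N_pos
  exact_mod_cast h

private theorem RmE_dy {C : ℝ} (h : ∀ Y : ℝ, 0 ≤ Y → ((V Y).card : ℝ) ≤ C * Y) {s : ℝ} (hs : 0 ≤ s) (K : ℕ) :
    ∑ v ∈ V (2 ^ K), (N v : ℝ) ^ (-s) ≤ C + 2 * C * ∑ k ∈ range K, (2 : ℝ) ^ ((1 - s) * k) := by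
  induction K with
  | zero =>
    rw [Finset.range_zero, Finset.sum_empty, mul_zero, add_zero, pow_zero]
    have h1 : ∀ v ∈ V 1, (N v : ℝ) ^ (-s) ≤ 1 := fun v hv =>
      Real.rpow_le_one_of_one_le_of_nonpos (RmE_N hv) (by linarith)
    refine (Finset.sum_le_sum h1).trans ?_
    have h2 := h 1 zero_le_one
    simpa using h2
  | succ K ih =>
    have hsub : V (2 ^ K) ⊆ V (2 ^ (K + 1)) := V_mono (by
      rw [pow_succ]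
      have : (0 : ℝ) < 2 ^ K := by positivity
      linarith)
    rw [← Finset.sum_sdiff hsub, Finset.sum_range_succ, mul_add]
    have h1 : ∀ v ∈ V (2 ^ (K + 1)) \ V (2 ^ K), (N v : ℝ) ^ (-s) ≤ ((2 : ℝ) ^ K) ^ (-s) := by
      intro v hv
      rw [Finset.mem_sdiff, mem_V, mem_V] at hv
      have h2 : (2 : ℝ) ^ K < N v := by
        by_contra h3
        exact hv.2 ⟨hv.1.1, not_lt.1 h3⟩
      exact Real.rpow_le_rpow_of_nonpos (by positivity) h2.le (by linarith)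
    have h2 : ∑ v ∈ V (2 ^ (K + 1)) \ V (2 ^ K), (N v : ℝ) ^ (-s) ≤
        2 * C * (2 : ℝ) ^ ((1 - s) * K) := by
      refine (Finset.sum_le_sum h1).trans ?_
      rw [Finset.sum_const, nsmul_eq_mul]
      have h3 : ((V (2 ^ (K + 1)) \ V (2 ^ K)).card : ℝ) ≤ C * 2 ^ (K + 1) := by
        refine le_trans ?_ (h (2 ^ (K + 1)) (by positivity))
        exact_mod_cast Finset.card_le_card Finset.sdiff_subset
      have h4 : (0 : ℝ) < ((2 : ℝ) ^ K) ^ (-s) := by positivity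
      calc ((V (2 ^ (K + 1)) \ V (2 ^ K)).card : ℝ) * ((2 : ℝ) ^ K) ^ (-s) ≤
          (C * 2 ^ (K + 1)) * ((2 : ℝ) ^ K) ^ (-s) := by gcongr
        _ = 2 * C * ((2 : ℝ) ^ K * ((2 : ℝ) ^ K) ^ (-s)) := by rw [pow_succ]; ring
        _ = 2 * C * (2 : ℝ) ^ ((1 - s) * K) := by
          rw [← Real.rpow_natCast, ← Real.rpow_mul (by norm_num),
            ← Real.rpow_add (by norm_num)]
          congr 2
          ring
    linarith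

theorem sum_inv : ∃ C : ℝ, 1 ≤ C ∧ ∀ Y : ℝ, 1 ≤ Y → ∑ v ∈ V Y, 1 / (N v : ℝ) ≤ C * (1 + Real.log Y) := by
  obtain ⟨C, hC, h⟩ := card_V_le
  refine ⟨3 * C, by linarith, fun Y hY => ?_⟩
  obtain ⟨n, hn1, hn2⟩ := exists_nat_pow_near hY (show (1 : ℝ) < 2 by norm_num)
  have h1 := RmE_dy h (s := 1) zero_le_one (n + 1)
  have h2 : ∑ v ∈ V Y, 1 / (N v : ℝ) ≤ ∑ v ∈ V (2 ^ (n + 1)), (N v : ℝ) ^ (-1 : ℝ) := by
    have h3 : ∀ v ∈ V Y, 1 / (N v : ℝ) = (N v : ℝ) ^ (-1 : ℝ) := by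
      intro v _
      rw [Real.rpow_neg_one, one_div]
    rw [Finset.sum_congr rfl h3]
    refine Finset.sum_le_sum_of_subset_of_nonneg (V_mono hn2.le) fun v hv _ => ?_
    have := RmE_N hv
    positivity
  have h3 : ∑ k ∈ range (n + 1), (2 : ℝ) ^ ((1 - 1) * k : ℝ) = n + 1 := by
    simp
  rw [h3] at h1
  have h4 : (n : ℝ) * Real.log 2 ≤ Real.log Y := by
    rw [← Real.log_pow]
    exact Real.log_le_log (by positivity) hn1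
  have h5 : (0.6931471803 : ℝ) < Real.log 2 := Real.log_two_gt_d9
  have h6 : (n : ℝ) * 0.69 ≤ Real.log Y := by
    have : (0 : ℝ) ≤ n := Nat.cast_nonneg n
    nlinarith
  have h7 : 2 * (n : ℝ) ≤ 3 * Real.log Y := by linarith
  have h8 : C * (2 * (n : ℝ)) ≤ C * (3 * Real.log Y) := by gcongr
  linarith

theorem sum_inv_sq : ∃ C : ℝ, 1 ≤ C ∧ ∀ Y : ℝ, ∑ v ∈ V Y, (N v : ℝ) ^ (-(3 / 2) : ℝ) ≤ C := by
  obtain ⟨C, hC, h⟩ := card_V_le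
  refine ⟨9 * C, by linarith, fun Y => ?_⟩
  obtain ⟨K, hK⟩ := pow_unbounded_of_one_lt Y (show (1 : ℝ) < 2 by norm_num)
  have h1 := RmE_dy h (s := 3 / 2) (by norm_num) K
  have h2 : ∑ v ∈ V Y, (N v : ℝ) ^ (-(3 / 2) : ℝ) ≤
      ∑ v ∈ V (2 ^ K), (N v : ℝ) ^ (-(3 / 2) : ℝ) := by
    refine Finset.sum_le_sum_of_subset_of_nonneg (V_mono hK.le) fun v hv _ => ?_
    have := RmE_N hv
    positivity
  have h3 : ∑ k ∈ range K, (2 : ℝ) ^ ((1 - 3 / 2) * k : ℝ) ≤ 4 := by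
    obtain ⟨r, hr⟩ : ∃ r : ℝ, r = (2 : ℝ) ^ (-(1 / 2) : ℝ) := ⟨_, rfl⟩
    have hr0 : 0 < r := by
      rw [hr]
      positivity
    have hr1 : r ^ 2 = 1 / 2 := by
      rw [hr, ← Real.rpow_natCast, ← Real.rpow_mul (by norm_num)]
      norm_num [Real.rpow_neg_one]
    have hr2 : r ≤ 3 / 4 := by nlinarith
    have h4 : ∀ k ∈ range K, (2 : ℝ) ^ ((1 - 3 / 2) * k : ℝ) ≤ (3 / 4) ^ k := by
      intro k _
      have h5 : (2 : ℝ) ^ ((1 - 3 / 2) * k : ℝ) = r ^ k := by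
        rw [hr, ← Real.rpow_natCast, ← Real.rpow_mul (by norm_num)]
        congr 1
        ring
      rw [h5]
      gcongr
    refine (Finset.sum_le_sum h4).trans ?_
    rw [geom_sum_eq (by norm_num)]
    have h6 : (0 : ℝ) < (3 / 4) ^ K := by positivity
    rw [div_le_iff_of_neg (by norm_num)]
    linarith
  have h4 : 2 * C * ∑ k ∈ range K, (2 : ℝ) ^ ((1 - 3 / 2) * k : ℝ) ≤ 2 * C * 4 := by gcongr
  linarith

theorem sum_rpow : ∃ C : ℝ, 1 ≤ C ∧ ∀ Y : ℝ, 1 ≤ Y → ∑ v ∈ V Y, (N v : ℝ) ^ (-(3 / 4) : ℝ) ≤ C * Y ^ (1 / 4 : ℝ) := by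
  obtain ⟨C, hC, h⟩ := card_V_le
  refine ⟨29 * C, by linarith, fun Y hY => ?_⟩
  have hY0 : 0 < Y := by linarith
  obtain ⟨n, hn1, hn2⟩ := exists_nat_pow_near hY (show (1 : ℝ) < 2 by norm_num)
  have h1 := RmE_dy h (s := 3 / 4) (by norm_num) (n + 1)
  have h2 : ∑ v ∈ V Y, (N v : ℝ) ^ (-(3 / 4) : ℝ) ≤
      ∑ v ∈ V (2 ^ (n + 1)), (N v : ℝ) ^ (-(3 / 4) : ℝ) := by
    refine Finset.sum_le_sum_of_subset_of_nonneg (V_mono hn2.le) fun v hv _ => ?_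
    have := RmE_N hv
    positivity
  have hY1 : 1 ≤ Y ^ (1 / 4 : ℝ) := Real.one_le_rpow hY (by norm_num)
  have h3 : ∑ k ∈ range (n + 1), (2 : ℝ) ^ ((1 - 3 / 4) * k : ℝ) ≤ 14 * Y ^ (1 / 4 : ℝ) := by
    obtain ⟨r, hr⟩ : ∃ r : ℝ, r = (2 : ℝ) ^ (1 / 4 : ℝ) := ⟨_, rfl⟩
    have hr0 : 0 < r := by
      rw [hr]
      positivity
    have hr1 : r ^ 4 = 2 := by
      rw [hr, ← Real.rpow_natCast, ← Real.rpow_mul (by norm_num)]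
      norm_num
    have hr2 : 23 / 20 ≤ r := by
      by_contra h5
      have h6 : r < 23 / 20 := not_le.1 h5
      have h7 : r ^ 4 ≤ (23 / 20) ^ 4 := by gcongr
      rw [hr1] at h7
      norm_num at h7
    have hr3 : r ≤ 2 := by
      by_contra h5
      have h6 : 2 < r := not_le.1 h5
      have h7 : (2 : ℝ) ^ 4 ≤ r ^ 4 := by gcongr
      rw [hr1] at h7
      norm_num at h7
    have h4 : ∀ k ∈ range (n + 1), (2 : ℝ) ^ ((1 - 3 / 4) * k : ℝ) = r ^ k := by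
      intro k _
      rw [hr, ← Real.rpow_natCast, ← Real.rpow_mul (by norm_num)]
      congr 1
      ring
    rw [Finset.sum_congr rfl h4, geom_sum_eq (by linarith)]
    have h5 : r ^ n ≤ Y ^ (1 / 4 : ℝ) := by
      have h6 : r ^ n = ((2 : ℝ) ^ n) ^ (1 / 4 : ℝ) := by
        rw [hr, ← Real.rpow_natCast, ← Real.rpow_natCast, ← Real.rpow_mul (by norm_num),
          ← Real.rpow_mul (by norm_num)]
        congr 1
        ring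
      rw [h6]
      gcongr
    have h6 : r ^ (n + 1) ≤ 2 * Y ^ (1 / 4 : ℝ) := by
      rw [pow_succ, mul_comm]
      gcongr
    rw [div_le_iff₀ (by linarith)]
    have h7 : 14 * Y ^ (1 / 4 : ℝ) * (3 / 20) ≤ 14 * Y ^ (1 / 4 : ℝ) * (r - 1) := by
      gcongr
      linarith
    linarith
  have h4 : 2 * C * ∑ k ∈ range (n + 1), (2 : ℝ) ^ ((1 - 3 / 4) * k : ℝ) ≤
      2 * C * (14 * Y ^ (1 / 4 : ℝ)) := by gcongr
  have h5 : C * 1 ≤ C * Y ^ (1 / 4 : ℝ) := by gcongr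
  linarith

end Pool.Agent.Lib.MP_d57abb_nt.MR
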