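import Mathlib
import Pool.Agent.Lib.MP_d57abb_nt.MR.Mul
import Pool.Agent.Lib.MP_d57abb_nt.MR.RmE
import Pool.Agent.Lib.MP_1a91b9_ntT.S4.EulerSum

/-!
# JOB EuA: the Euler product over `O`

`O` is a principal ideal domain (`instPID`, `instDomain`), so a Dedekind domain (Mathlib `IsPrincipalIdealRing.isDedekindDomain`).
* `exists_gen`: a nonzero ideal is `span {x}`, `x ≠ 0`; `exists_tp`, then `nf` (`span` does not change: `Ideal.span_singleton_eq_span_singleton`).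
* `gen_unique`: `eq_of_assoc`.  So `gen : nonzero ideals ≃ {v // Qd v}`.
* `Comp g` : `g` is completely multiplicative on totally positive elements, invariant under the unit, bounded by `1`, `g 1 = 1`.
* `summable_V`: `∑_{v} (N v)^(-σ)` converges for `σ > 1` (`card_V_le` and dyadic blocks: `∑_{2^k ≤ N v < 2^(k+1)} (N v)^(-σ) ≤ C 2^(k+1) 2^(-kσ)`).
* `hasProd_V`: Put `f I = g (gen I) (N (gen I))^(-σ)` for `I ≠ 0`, `f 0 = 0`: multiplicative since `gen (I J) = nf (gen I * gen J)`, `N_nf`, invariance.  `hasProd_ideals` of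
  `S4/EulerSum` gives the Euler product of `∑ f I = ∑_{v} g v (N v)^(-σ)` (the equivalence above, `f 0 = 0`).
-/

namespace Pool.Agent.Lib.MP_d57abb_nt.MR

open IsDedekindDomain

/-- completely multiplicative functions on the totally positive elements modulo units -/
structure Comp (g : O → ℂ) : Prop where
  one : g 1 = 1
  mul : ∀ x y, TP x → TP y → g (x * y) = g x * g y
  unit : ∀ x, TP x → g (om * x) = g x
  le : ∀ x, ‖g x‖ ≤ 1

theorem exists_gen {I : Ideal O} (hI : I ≠ 0) : ∃ v : O, Qd v ∧ I = Ideal.span {v} := by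
  obtain ⟨x, hx⟩ := (IsPrincipalIdealRing.principal I).principal
  have hx' : I = Ideal.span {x} := hx
  have hx0 : x ≠ 0 := by
    rintro rfl
    apply hI
    rw [hx', Ideal.span_singleton_eq_bot.mpr rfl]
    rfl
  obtain ⟨y, hy, hxy⟩ := exists_tp hx0
  obtain ⟨v, hv, k, hk⟩ := exists_nf hy
  refine ⟨v, hv, ?_⟩
  rw [hx', Ideal.span_singleton_eq_span_singleton]
  refine hxy.trans ?_
  have : Associated v y := ⟨omu ^ k, by rw [hk, mul_comm]⟩
  exact this.symm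

theorem gen_unique {v v' : O} (hv : Qd v) (hv' : Qd v') (h : Ideal.span {v} = Ideal.span ({v'} : Set O)) : v = v' :=
  eq_of_assoc hv hv' (Ideal.span_singleton_eq_span_singleton.mp h)

open Classical in
/-- the generator in the quadrant -/
noncomputable def gen (I : Ideal O) : O := if h : I ≠ 0 then (exists_gen h).choose else 1

theorem gen_spec {I : Ideal O} (hI : I ≠ 0) : Qd (gen I) ∧ I = Ideal.span {gen I} := by
  have h : gen I = (exists_gen hI).choose := by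
    unfold gen
    exact dif_pos hI
  rw [h]
  exact (exists_gen hI).choose_spec

private theorem EuA_span_ne {v : O} (hv : Qd v) : Ideal.span ({v} : Set O) ≠ 0 := by
  intro h
  exact hv.tp.ne_zero (Ideal.span_singleton_eq_bot.mp h)

private theorem EuA_gen_span {v : O} (hv : Qd v) : gen (Ideal.span {v}) = v := by
  have h := gen_spec (EuA_span_ne hv)
  exact gen_unique h.1 hv h.2.symm

private theorem EuA_dyadic {σ : ℝ} (hσ : 1 < σ) {C : ℝ} (hC : 1 ≤ C)
    (hV : ∀ Y : ℝ, 0 ≤ Y → ((V Y).card : ℝ) ≤ C * Y) (K : ℕ) :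
    ∑ v ∈ V (2 ^ K), (N v : ℝ) ^ (-σ) ≤ 2 * C + 2 * C * ∑ k ∈ Finset.range K, ((2 : ℝ) ^ (1 - σ)) ^ k := by
  induction K with
  | zero =>
    rw [Finset.range_zero, Finset.sum_empty, mul_zero, add_zero, pow_zero]
    have h1 : ∑ v ∈ V 1, (N v : ℝ) ^ (-σ) ≤ ∑ v ∈ V 1, (1 : ℝ) := by
      refine Finset.sum_le_sum fun v hv => ?_
      have hN : (1 : ℝ) ≤ N v := by
        have := (mem_V.mp hv).1.tp.N_pos
        exact_mod_cast this
      exact Real.rpow_le_one_of_one_le_of_nonpos hN (by linarith)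
    have h2 := hV 1 (by norm_num)
    rw [Finset.sum_const, nsmul_eq_mul, mul_one] at h1
    linarith
  | succ K ih =>
    have hsub : V (2 ^ K) ⊆ V (2 ^ (K + 1)) := V_mono (by
      rw [pow_succ]
      have : (0 : ℝ) < 2 ^ K := by positivity
      linarith)
    rw [← Finset.sum_sdiff hsub, Finset.sum_range_succ]
    have h1 : ∑ v ∈ V (2 ^ (K + 1)) \ V (2 ^ K), (N v : ℝ) ^ (-σ) ≤
        ∑ v ∈ V (2 ^ (K + 1)) \ V (2 ^ K), ((2 : ℝ) ^ K) ^ (-σ) := by
      refine Finset.sum_le_sum fun v hv => ?_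
      rw [Finset.mem_sdiff, mem_V, mem_V] at hv
      have hN : ((2 : ℝ) ^ K) < N v := by
        by_contra hcon
        exact hv.2 ⟨hv.1.1, not_lt.mp hcon⟩
      exact Real.rpow_le_rpow_of_nonpos (by positivity) hN.le (by linarith)
    rw [Finset.sum_const, nsmul_eq_mul] at h1
    have h2 : ((V (2 ^ (K + 1)) \ V (2 ^ K)).card : ℝ) ≤ C * 2 ^ (K + 1) := by
      refine le_trans ?_ (hV (2 ^ (K + 1)) (by positivity))
      exact_mod_cast Finset.card_le_card Finset.sdiff_subset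
    have h3 : ((V (2 ^ (K + 1)) \ V (2 ^ K)).card : ℝ) * ((2 : ℝ) ^ K) ^ (-σ) ≤
        C * 2 ^ (K + 1) * ((2 : ℝ) ^ K) ^ (-σ) :=
      mul_le_mul_of_nonneg_right h2 (by positivity)
    have h4 : C * 2 ^ (K + 1) * ((2 : ℝ) ^ K) ^ (-σ) = 2 * C * ((2 : ℝ) ^ (1 - σ)) ^ K := by
      have e1 : ((2 : ℝ) ^ (1 - σ)) ^ K = (2 : ℝ) ^ K * ((2 : ℝ) ^ K) ^ (-σ) := by
        rw [← Real.rpow_natCast ((2 : ℝ) ^ (1 - σ)) K, ← Real.rpow_natCast (2 : ℝ) K,
          ← Real.rpow_mul (by norm_num), ← Real.rpow_mul (by norm_num), ← Real.rpow_add (by norm_num)]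
        congr 1
        ring
      rw [e1, pow_succ]
      ring
    rw [h4] at h3
    linarith

private theorem EuA_r {σ : ℝ} (hσ : 1 < σ) : (2 : ℝ) ^ (1 - σ) < 1 :=
  Real.rpow_lt_one_of_one_lt_of_neg (by norm_num) (by linarith)

theorem summable_V {σ : ℝ} (hσ : 1 < σ) : Summable (fun v : {v : O // Qd v} => (N v.1 : ℝ) ^ (-σ)) := by
  obtain ⟨C, hC, hV⟩ := card_V_le
  set r : ℝ := (2 : ℝ) ^ (1 - σ) with hr
  have hr0 : 0 < r := by positivity
  have hr1 : r < 1 := EuA_r hσ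
  have hpos : ∀ v : {v : O // Qd v}, 0 < (N v.1 : ℝ) := fun v => by exact_mod_cast v.2.tp.N_pos
  refine summable_of_sum_le (c := 2 * C + 2 * C * (1 - r)⁻¹)
    (fun v => Real.rpow_nonneg (hpos v).le _) fun u => ?_
  -- all the vectors of `u` are in a dyadic ball
  obtain ⟨K, hK⟩ : ∃ K : ℕ, ∀ v ∈ u, (N v.1 : ℝ) ≤ 2 ^ K := by
    obtain ⟨K, hK⟩ := pow_unbounded_of_one_lt (∑ v ∈ u, (N v.1 : ℝ)) (one_lt_two)
    refine ⟨K, fun v hv => ?_⟩
    exact (Finset.single_le_sum (f := fun v : {v : O // Qd v} => (N v.1 : ℝ))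
      (fun w _ => (hpos w).le) hv).trans hK.le
  have h1 : ∑ v ∈ u, (N v.1 : ℝ) ^ (-σ) = ∑ v ∈ u.map (Function.Embedding.subtype _), (N v : ℝ) ^ (-σ) := by
    rw [Finset.sum_map]
    rfl
  have h2 : u.map (Function.Embedding.subtype _) ⊆ V (2 ^ K) := by
    intro v hv
    rw [Finset.mem_map] at hv
    obtain ⟨w, hw, rfl⟩ := hv
    exact mem_V.mpr ⟨w.2, hK w hw⟩
  have h3 : ∑ v ∈ u.map (Function.Embedding.subtype _), (N v : ℝ) ^ (-σ) ≤ ∑ v ∈ V (2 ^ K), (N v : ℝ) ^ (-σ) := by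
    refine Finset.sum_le_sum_of_subset_of_nonneg h2 fun v hv _ => Real.rpow_nonneg ?_ _
    exact_mod_cast (mem_V.mp hv).1.tp.N_pos.le
  have h4 := EuA_dyadic hσ hC hV K
  have h5 : ∑ k ∈ Finset.range K, r ^ k ≤ (1 - r)⁻¹ := by
    rw [← tsum_geometric_of_lt_one hr0.le hr1]
    exact (summable_geometric_of_lt_one hr0.le hr1).sum_le_tsum _ fun k _ => by positivity
  have h6 : 2 * C * ∑ k ∈ Finset.range K, r ^ k ≤ 2 * C * (1 - r)⁻¹ :=
    mul_le_mul_of_nonneg_left h5 (by linarith)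
  rw [h1]
  linarith

theorem Comp.unit_zpow {g : O → ℂ} (hg : Comp g) (k : ℤ) {x : O} (hx : TP x) :
    g (((omu ^ k : Oˣ) : O) * x) = g x := by
  have step : ∀ j : ℤ, g (((omu ^ (j + 1) : Oˣ) : O) * x) = g (((omu ^ j : Oˣ) : O) * x) := by
    intro j
    have e1 : ((omu ^ (j + 1) : Oˣ) : O) * x = om * (((omu ^ j : Oˣ) : O) * x) := by
      rw [zpow_add_one, Units.val_mul, coe_omu]
      ring
    rw [e1]
    exact hg.unit _ ((TP_omu j).mul hx)
  induction k using Int.induction_on with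
  | zero => rw [zpow_zero, Units.val_one, one_mul]
  | succ n ih => rw [step, ih]
  | pred n ih =>
    have := step (-(n : ℤ) - 1)
    rw [sub_add_cancel] at this
    rw [← this, ih]

private theorem EuA_gen_mul {I J : Ideal O} (hI : I ≠ 0) (hJ : J ≠ 0) :
    gen (I * J) = nf (gen I * gen J) := by
  have hIs := gen_spec hI
  have hJs := gen_spec hJ
  have hIJs := gen_spec (mul_ne_zero hI hJ)
  have htp : TP (gen I * gen J) := hIs.1.tp.mul hJs.1.tp
  refine gen_unique hIJs.1 (nf_Qd htp) ?_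
  rw [← hIJs.2]
  obtain ⟨k, hk⟩ := nf_spec htp
  have h1 : Ideal.span {gen I * gen J} = Ideal.span ({nf (gen I * gen J)} : Set O) := by
    rw [Ideal.span_singleton_eq_span_singleton]
    have : Associated (nf (gen I * gen J)) (gen I * gen J) := ⟨omu ^ k, by rw [mul_comm]; exact hk.symm⟩
    exact this.symm
  rw [← h1, ← Ideal.span_singleton_mul_span_singleton, ← hIs.2, ← hJs.2]

open Classical in
private noncomputable def EuA_f (g : O → ℂ) (σ : ℝ) (I : Ideal O) : ℂ :=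
  if I = 0 then 0 else g (gen I) * (((N (gen I) : ℝ) ^ (-σ) : ℝ) : ℂ)

private theorem EuA_f_zero (g : O → ℂ) (σ : ℝ) : EuA_f g σ 0 = 0 := by
  unfold EuA_f
  exact if_pos rfl

private theorem EuA_f_ne (g : O → ℂ) (σ : ℝ) {I : Ideal O} (hI : I ≠ 0) :
    EuA_f g σ I = g (gen I) * (((N (gen I) : ℝ) ^ (-σ) : ℝ) : ℂ) := by
  unfold EuA_f
  exact if_neg hI

private theorem EuA_f_span (g : O → ℂ) (σ : ℝ) {v : O} (hv : Qd v) :
    EuA_f g σ (Ideal.span {v}) = g v * (((N v : ℝ) ^ (-σ) : ℝ) : ℂ) := by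
  rw [EuA_f_ne g σ (EuA_span_ne hv), EuA_gen_span hv]

private theorem EuA_f_one {g : O → ℂ} (hg : Comp g) (σ : ℝ) : EuA_f g σ 1 = 1 := by
  have h : (1 : Ideal O) = Ideal.span {1} := by
    rw [Ideal.span_singleton_one, Ideal.one_eq_top]
  rw [h, EuA_f_span g σ Qd_one, hg.one, N_one]
  simp

private theorem EuA_f_mul {g : O → ℂ} (hg : Comp g) (σ : ℝ) (I J : Ideal O) :
    EuA_f g σ (I * J) = EuA_f g σ I * EuA_f g σ J := by
  rcases eq_or_ne I 0 with rfl | hI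
  · rw [zero_mul, EuA_f_zero, zero_mul]
  rcases eq_or_ne J 0 with rfl | hJ
  · rw [mul_zero, EuA_f_zero, mul_zero]
  have hIs := gen_spec hI
  have hJs := gen_spec hJ
  have htp : TP (gen I * gen J) := hIs.1.tp.mul hJs.1.tp
  obtain ⟨k, hk⟩ := nf_spec htp
  rw [EuA_f_ne g σ (mul_ne_zero hI hJ), EuA_f_ne g σ hI, EuA_f_ne g σ hJ, EuA_gen_mul hI hJ, N_nf htp, N_mul]
  have h1 : g (nf (gen I * gen J)) = g (gen I) * g (gen J) := by
    rw [← hg.mul _ _ hIs.1.tp hJs.1.tp]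
    have h2 := hg.unit_zpow k (nf_Qd htp).tp
    rw [← h2, ← hk]
  have h3 : ((N (gen I) * N (gen J) : ℤ) : ℝ) ^ (-σ) = (N (gen I) : ℝ) ^ (-σ) * (N (gen J) : ℝ) ^ (-σ) := by
    rw [Int.cast_mul, Real.mul_rpow]
    · exact_mod_cast hIs.1.tp.N_pos.le
    · exact_mod_cast hJs.1.tp.N_pos.le
  rw [h1, h3, Complex.ofReal_mul]
  ring

private theorem EuA_inj : Function.Injective (fun v : {v : O // Qd v} => Ideal.span ({v.1} : Set O)) := by
  intro v v' h
  exact Subtype.ext (gen_unique v.2 v'.2 h)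

private theorem EuA_range {I : Ideal O} (hI : I ≠ 0) :
    I ∈ Set.range (fun v : {v : O // Qd v} => Ideal.span ({v.1} : Set O)) :=
  ⟨⟨gen I, (gen_spec hI).1⟩, (gen_spec hI).2.symm⟩

private theorem EuA_norm {g : O → ℂ} (hg : Comp g) {σ : ℝ} (hσ : 1 < σ) :
    Summable fun I : Ideal O => ‖EuA_f g σ I‖ := by
  rw [← EuA_inj.summable_iff (f := fun I : Ideal O => ‖EuA_f g σ I‖)]
  · refine Summable.of_nonneg_of_le (fun v => norm_nonneg _) (fun v => ?_) (summable_V hσ)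
    have hN : 0 ≤ (N v.1 : ℝ) ^ (-σ) := Real.rpow_nonneg (by exact_mod_cast v.2.tp.N_pos.le) _
    show ‖EuA_f g σ (Ideal.span {v.1})‖ ≤ _
    rw [EuA_f_span g σ v.2, norm_mul, Complex.norm_real, Real.norm_of_nonneg hN]
    have := mul_le_mul_of_nonneg_right (hg.le v.1) hN
    rwa [one_mul] at this
  · intro I hI
    have : I = 0 := by
      by_contra h
      exact hI (EuA_range h)
    rw [this, EuA_f_zero, norm_zero]

theorem hasProd_V {g : O → ℂ} (hg : Comp g) {σ : ℝ} (hσ : 1 < σ) :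
    HasProd (fun w : HeightOneSpectrum O => (1 - g (gen w.asIdeal) * (((N (gen w.asIdeal) : ℝ) ^ (-σ) : ℝ) : ℂ))⁻¹)
      (∑' v : {v : O // Qd v}, g v.1 * (((N v.1 : ℝ) ^ (-σ) : ℝ) : ℂ)) := by
  have : IsDedekindDomain O := IsPrincipalIdealRing.isDedekindDomain O
  have h := Pool.Agent.Lib.MP_1a91b9_ntT.S4.hasProd_ideals (EuA_f g σ) (EuA_f_zero g σ) (EuA_f_one hg σ)
    (EuA_f_mul hg σ) (EuA_norm hg hσ)
  have e1 : (fun w : HeightOneSpectrum O => (1 - EuA_f g σ w.asIdeal)⁻¹) =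
      fun w : HeightOneSpectrum O => (1 - g (gen w.asIdeal) * (((N (gen w.asIdeal) : ℝ) ^ (-σ) : ℝ) : ℂ))⁻¹ := by
    funext w
    rw [EuA_f_ne g σ w.ne_bot]
  have e2 : ∑' I : Ideal O, EuA_f g σ I = ∑' v : {v : O // Qd v}, g v.1 * (((N v.1 : ℝ) ^ (-σ) : ℝ) : ℂ) := by
    rw [← EuA_inj.tsum_eq (f := EuA_f g σ)]
    · refine tsum_congr fun v => ?_
      exact EuA_f_span g σ v.2
    · intro I hI
      apply EuA_range
      rintro rfl
      exact hI (EuA_f_zero g σ)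
  rw [e1, e2] at h
  exact h

end Pool.Agent.Lib.MP_d57abb_nt.MR
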