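import Mathlib
import Pool.Agent.Lib.MP_d57abb_nt.MR.Prm
import Pool.Agent.Lib.MP_d57abb_nt.Three.Thue
import Pool.Agent.Lib.MP_1ad228_ntR.RC5
import Pool.Agent.Lib.MP_2c5684_nt.Mertens

/-!
# JOB PrA: the prime elements and the rational primes

* `PS_natAbs_inj`, `PP_card_fiber`: `p ↦ (N p).natAbs` is injective on `PS D z` (`PS_inj`) and has fibres `{p, swap p}` on `PP D z` (`p` or its swap is in `PS`, by `Dg.re_ne_im`, `Dg.swap`).
* `norm_mod`: if `q = N p` is prime, `q ≠ 5`, then `q % 5 = 1 ∨ q % 5 = 4`: `x² + 3 x y + y² ≡ (x - y)² (mod 5)`.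
* `exists_PS`: a prime `q ≡ ± 1 (mod 5)` not dividing `D` is the norm of an element of `PS D z` (`q ≤ z`): `exists_nm` of `Three/Thue` needs `k` with `q ∣ k² + 3 k + 1`: `5` is a square
  modulo `q` by quadratic reciprocity (`ZMod.exists_sq_eq_prime_iff_of_mod_four_eq_one`), `k = (s - 3) / 2`; then a vector of norm `q`; make it totally positive (`exists_tp`; the norm
  of the result is `± q`, positive), `nf`, and swap if necessary.
* `card_PS_block`: `#{p ∈ PS D z : P ≤ N p} * log P ≤ θ(z) ≤ log 4 * z` (`Chebyshev.theta_le_log4_mul_x`), `log 4 ≤ 1.4`.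
* `card_PS_short`: the norms are distinct integers in `[y, y + h)`: at most `h + 1`.
* `sum_log_PP`: `∑_{p ∈ PP D z} log N p / N p ≤ 2 ∑_{q ≤ z} log q / q ≤ 2 (log z + 8)` (`sum_log_div_le` with `a = 0`).
* `mass_PS_lower`: the map to the primes `q ≡ ± 1 (mod 5)`, `P ≤ q ≤ Q`, `q ∤ D` is onto.  These are the odd primes with `QT.chi 5 q = 1` (`jacobiSym 5 q = 1`, reciprocity:
  `jacobiSym.quadratic_reciprocity'` or a table modulo `5`).  `mert_class {5} 1`: `∑_{q ≤ x, chi 5 q = 1} log q / q = (log x)/2 + O(1)`.  Partial summation (in blocks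
  `e^(2^k) < q ≤ e^(2^(k+1))` it is not precise enough; use `1/q = (log q / q) (1 / log q)` and `1 / log q = ∑_{n ≥ ⌈log q⌉} (1/n - 1/(n+1)) + O(1/log² q)`, or Abel summation
  `sum_mul_eq_sub_integral_mul`): `∑_{P < q ≤ Q} 1/q = (1/2) log (log Q / log P) + O(1)`; the lower bound is wanted.  `QT` files: `sum_inv_lower` in `MP_1ad228_ntR/RC7.lean` is a model.
  The primes dividing `D` remove at most `∑_{q ∣ D} 1/q ≤ D`, absorbed in `C` (which depends on `D`).
* `mass_PP_lower`: twice the sum over `PS` (swap).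
-/

namespace Pool.Agent.Lib.MP_d57abb_nt.MR

open Finset

private theorem PrA_sq (a b : ℤ) : (a ^ 2 + 3 * a * b + b ^ 2) % 5 = 0 ∨
    (a ^ 2 + 3 * a * b + b ^ 2) % 5 = 1 ∨ (a ^ 2 + 3 * a * b + b ^ 2) % 5 = 4 := by
  have h1 : a ^ 2 + 3 * a * b + b ^ 2 = (a - b) ^ 2 + 5 * (a * b) := by ring
  obtain ⟨k, r, hr0, hr5, hk⟩ : ∃ k r : ℤ, 0 ≤ r ∧ r < 5 ∧ a - b = 5 * k + r :=
    ⟨(a - b) / 5, (a - b) % 5, by omega, by omega, by omega⟩
  have h2 : a ^ 2 + 3 * a * b + b ^ 2 = 5 * (5 * k ^ 2 + 2 * k * r + a * b) + r ^ 2 := by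
    rw [h1, hk]
    ring
  rw [h2]
  have hr : r = 0 ∨ r = 1 ∨ r = 2 ∨ r = 3 ∨ r = 4 := by omega
  rcases hr with hr | hr | hr | hr | hr <;> rw [hr] <;> omega

theorem norm_mod {D : ℕ} (h5 : 5 ∣ D) {p : O} (h : Dg D p) : (N p).natAbs % 5 = 1 ∨ (N p).natAbs % 5 = 4 := by
  have h1 := PrA_sq p.re p.im
  have h2 : N p = p.re ^ 2 + 3 * p.re * p.im + p.im ^ 2 := rfl
  rw [← h2] at h1
  have h3 := h.two_le
  rcases h1 with h1 | h1 | h1
  · exfalso
    have h4 : 5 ∣ (N p).natAbs := by omega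
    have h6 : (N p).natAbs = 5 := ((Nat.prime_dvd_prime_iff_eq (by norm_num) h.2.1).1 h4).symm
    exact h.2.2 (by rw [h6]; exact h5)
  · left
    omega
  · right
    omega

theorem exists_PS {D : ℕ} {q : ℕ} (hq : q.Prime) (h5 : q % 5 = 1 ∨ q % 5 = 4) (hD : ¬ q ∣ D) {z : ℝ} (hz : (q : ℝ) ≤ z) :
    ∃ p ∈ PS D z, N p = q := by
  have : Fact q.Prime := ⟨hq⟩
  have : Fact (Nat.Prime 5) := ⟨by norm_num⟩
  have hq2 : q ≠ 2 := by
    rintro rfl
    omega
  have hsq : IsSquare ((5 : ℕ) : ZMod q) := by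
    rw [← ZMod.exists_sq_eq_prime_iff_of_mod_four_eq_one (p := 5) (q := q) (by norm_num) hq2]
    have h1 : ((q : ℕ) : ZMod 5) = ((q % 5 : ℕ) : ZMod 5) := by
      rw [ZMod.natCast_mod]
    rw [h1]
    have hone : IsSquare ((1 : ℕ) : ZMod 5) := ⟨1, by simp⟩
    have hfour : IsSquare ((4 : ℕ) : ZMod 5) := ⟨2, by norm_num⟩
    rcases h5 with h | h <;> rw [h]
    · exact hone
    · exact hfour
  obtain ⟨s, hs⟩ := hsq
  have h2 : (2 : ZMod q) ≠ 0 := by
    intro h
    have h' : ((2 : ℕ) : ZMod q) = 0 := by exact_mod_cast h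
    rw [ZMod.natCast_eq_zero_iff] at h'
    exact hq2 ((Nat.prime_dvd_prime_iff_eq hq Nat.prime_two).1 h')
  obtain ⟨k, hk⟩ : ∃ k : ZMod q, k ^ 2 + 3 * k + 1 = 0 := by
    refine ⟨(s - 3) / 2, ?_⟩
    have hs' : s * s = 5 := by
      rw [← hs]
      norm_num
    field_simp
    linear_combination hs'
  have hk' : q ∣ k.val ^ 2 + 3 * k.val + 1 := by
    rw [← ZMod.natCast_eq_zero_iff]
    push_cast
    rw [ZMod.natCast_zmod_val]
    exact hk
  obtain ⟨v, hv⟩ := Pool.Agent.Lib.MP_d57abb_nt.Three.exists_nm hq hk'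
  set x : O := ⟨v.1, v.2⟩ with hx
  have hNx : N x = q := by
    have h3 : N x = v.1 ^ 2 + 3 * v.1 * v.2 + v.2 ^ 2 := rfl
    rw [h3, ← hv]
    unfold nm
    rfl
  have hq0 : (q : ℤ) ≠ 0 := by exact_mod_cast hq.ne_zero
  have hx0 : x ≠ 0 := by
    intro h
    rw [h] at hNx
    have h3 : N 0 = 0 := by
      unfold N
      simp
    rw [h3] at hNx
    exact hq0 hNx.symm
  obtain ⟨y, hy, hxy⟩ := exists_tp hx0
  have hNy : N y = q := by
    obtain ⟨a, ha⟩ := hxy.dvd
    obtain ⟨b, hb⟩ := hxy.symm.dvd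
    have h3 : N x ∣ N y := by rw [ha, N_mul]; exact Dvd.intro _ rfl
    have h4 : N y ∣ N x := by
      have : N x = N y * N b := by
        rw [← N_mul, ← hb]
      rw [this]
      exact Dvd.intro _ rfl
    have h6 := hy.N_pos
    rw [hNx] at h3 h4
    have h7 : (0 : ℤ) < q := by exact_mod_cast hq.pos
    exact le_antisymm (Int.le_of_dvd h7 h4) (Int.le_of_dvd h6 h3)
  have hw := nf_Qd hy
  have hNw : N (nf y) = q := by rw [N_nf hy, hNy]
  set w := nf y with hwdef
  have hDg : Dg D w := by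
    refine ⟨hw, ?_, ?_⟩
    · rw [hNw, Int.natAbs_natCast]
      exact hq
    · rw [hNw, Int.natAbs_natCast]
      exact hD
  have hNwz : (N w : ℝ) ≤ z := by
    rw [hNw]
    exact_mod_cast hz
  have hNwe : N w = w.re ^ 2 + 3 * w.re * w.im + w.im ^ 2 := rfl
  rcases lt_trichotomy w.im w.re with h | h | h
  · exact ⟨w, mem_PS.2 ⟨⟨hDg, hNwz⟩, h⟩, hNw⟩
  · exfalso
    rw [hNw, h] at hNwe
    have h3 : (q : ℤ) = 5 * w.re ^ 2 := by rw [hNwe]; ring
    omega
  · refine ⟨⟨w.im, w.re⟩, mem_PS.2 ⟨⟨hDg.swap, ?_⟩, h⟩, ?_⟩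
    · have h3 : N (⟨w.im, w.re⟩ : O) = N w := by
        unfold N
        ring
      rw [h3]
      exact hNwz
    · have h3 : N (⟨w.im, w.re⟩ : O) = N w := by
        unfold N
        ring
      rw [h3, hNw]

private theorem PrA_cast {D : ℕ} {p : O} (h : Dg D p) : (((N p).natAbs : ℕ) : ℝ) = (N p : ℝ) := by
  have h1 := h.two_le
  have h2 : (((N p).natAbs : ℕ) : ℤ) = N p := Int.natAbs_of_nonneg (by omega)
  calc (((N p).natAbs : ℕ) : ℝ) = ((((N p).natAbs : ℕ) : ℤ) : ℝ) := (Int.cast_natCast _).symm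
    _ = (N p : ℝ) := by rw [h2]

private theorem PrA_inj {D : ℕ} {z : ℝ} {p p' : O} (h : p ∈ PS D z) (h' : p' ∈ PS D z)
    (he : (N p).natAbs = (N p').natAbs) : p = p' := by
  refine PS_inj h h' ?_
  have h1 := (mem_PS.1 h).1.1.two_le
  have h2 := (mem_PS.1 h').1.1.two_le
  omega

theorem card_PS_block {D : ℕ} (h5 : 5 ∣ D) {z P : ℝ} (hP : 2 ≤ P) (hz : P ≤ z) :
    (((PS D z).filter (fun p => P ≤ (N p : ℝ))).card : ℝ) ≤ 2 * z / Real.log P := by
  classical
  have hlog : 0 < Real.log P := Real.log_pos (by linarith)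
  have hz0 : 0 ≤ z := by linarith
  rw [le_div_iff₀ hlog]
  set S := (PS D z).filter (fun p => P ≤ (N p : ℝ)) with hS
  have h1 : (S.card : ℝ) * Real.log P ≤ ∑ p ∈ S, Real.log (((N p).natAbs : ℕ) : ℝ) := by
    rw [← nsmul_eq_mul]
    refine Finset.card_nsmul_le_sum _ _ _ fun p hp => ?_
    obtain ⟨hp1, hp2⟩ := Finset.mem_filter.1 hp
    rw [PrA_cast (mem_PS.1 hp1).1.1]
    exact Real.log_le_log (by linarith) hp2
  have h2 : ∑ p ∈ S, Real.log (((N p).natAbs : ℕ) : ℝ) =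
      ∑ q ∈ S.image (fun p => (N p).natAbs), Real.log (q : ℝ) := by
    rw [Finset.sum_image]
    intro p hp p' hp' he
    exact PrA_inj (Finset.mem_filter.1 hp).1 (Finset.mem_filter.1 hp').1 he
  have h3 : ∑ q ∈ S.image (fun p => (N p).natAbs), Real.log (q : ℝ) ≤ Chebyshev.theta z := by
    unfold Chebyshev.theta
    refine Finset.sum_le_sum_of_subset_of_nonneg ?_ fun q _ _ => Real.log_natCast_nonneg q
    intro q hq
    obtain ⟨p, hp, rfl⟩ := Finset.mem_image.1 hq
    obtain ⟨hp1, hp2⟩ := Finset.mem_filter.1 hp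
    have hp3 := (mem_PS.1 hp1).1
    rw [Finset.mem_filter, Finset.mem_Ioc]
    refine ⟨⟨hp3.1.2.1.pos, Nat.le_floor ?_⟩, hp3.1.2.1⟩
    rw [PrA_cast hp3.1]
    exact hp3.2
  have h4 := Chebyshev.theta_le_log4_mul_x hz0
  have h6 := Pool.Agent.Lib.MP_2c5684_nt.log_four_le
  calc (S.card : ℝ) * Real.log P ≤ Chebyshev.theta z := h1.trans (h2.le.trans h3)
    _ ≤ Real.log 4 * z := h4
    _ ≤ 1.4 * z := mul_le_mul_of_nonneg_right h6 hz0
    _ ≤ 2 * z := by nlinarith

theorem card_PS_short {D : ℕ} (h5 : 5 ∣ D) {z y h : ℝ} (hh : 0 ≤ h) :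
    (((PS D z).filter (fun p => y ≤ (N p : ℝ) ∧ (N p : ℝ) < y + h)).card : ℝ) ≤ h + 1 := by
  classical
  have h1 : ((PS D z).filter (fun p => y ≤ (N p : ℝ) ∧ (N p : ℝ) < y + h)).card ≤
      (Finset.Ico ⌈y⌉ ⌈y + h⌉).card := by
    refine Finset.card_le_card_of_injOn N ?_ ?_
    · intro p hp
      obtain ⟨hp1, hp2, hp3⟩ := Finset.mem_filter.1 hp
      rw [Finset.coe_Ico]
      exact ⟨Int.ceil_le.2 hp2, Int.lt_ceil.2 hp3⟩
    · intro p hp p' hp' he
      exact PS_inj (Finset.mem_filter.1 hp).1 (Finset.mem_filter.1 hp').1 he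
  rw [Int.card_Ico] at h1
  have h2 : (((⌈y + h⌉ - ⌈y⌉).toNat : ℕ) : ℝ) = ((⌈y + h⌉ - ⌈y⌉ : ℤ) : ℝ) := by
    have h3 : ⌈y⌉ ≤ ⌈y + h⌉ := Int.ceil_mono (by linarith)
    have h4 : (((⌈y + h⌉ - ⌈y⌉).toNat : ℕ) : ℤ) = ⌈y + h⌉ - ⌈y⌉ := Int.toNat_of_nonneg (by omega)
    exact_mod_cast h4
  have h3 : (((PS D z).filter (fun p => y ≤ (N p : ℝ) ∧ (N p : ℝ) < y + h)).card : ℝ) ≤
      (((⌈y + h⌉ - ⌈y⌉).toNat : ℕ) : ℝ) := by exact_mod_cast h1
  refine h3.trans ?_
  rw [h2]
  push_cast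
  have h4 := Int.ceil_lt_add_one (y + h)
  have h6 := Int.le_ceil y
  linarith

/-- a function of the norm, summed over `PP` with a condition on the norm -/
private theorem PrA_two {D : ℕ} (h5 : 5 ∣ D) (z : ℝ) (c : ℤ → Prop) [DecidablePred c] (g : ℤ → ℝ) :
    ∑ p ∈ (PP D z).filter (fun p => c (N p)), g (N p) =
      2 * ∑ p ∈ (PS D z).filter (fun p => c (N p)), g (N p) := by
  classical
  have h1 : (PP D z).filter (fun p => c (N p)) = (PS D z).filter (fun p => c (N p)) ∪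
      ((PS D z).filter (fun p => c (N p))).image (fun p : O => (⟨p.im, p.re⟩ : O)) := by
    ext p
    rw [Finset.mem_union, Finset.mem_filter, Finset.mem_filter, Finset.mem_image]
    constructor
    · rintro ⟨hp, hc⟩
      have hp' := mem_PP.1 hp
      rcases lt_trichotomy p.im p.re with h | h | h
      · left
        exact ⟨mem_PS.2 ⟨hp', h⟩, hc⟩
      · exact absurd h.symm (Dg.re_ne_im h5 hp'.1)
      · right
        have h3 : N (⟨p.im, p.re⟩ : O) = N p := by
          unfold N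
          ring
        refine ⟨⟨p.im, p.re⟩, ?_, rfl⟩
        rw [Finset.mem_filter, h3]
        refine ⟨mem_PS.2 ⟨⟨hp'.1.swap, ?_⟩, h⟩, hc⟩
        rw [h3]
        exact hp'.2
    · rintro (⟨hp, hc⟩ | ⟨r, hr, rfl⟩)
      · exact ⟨mem_PP.2 (mem_PS.1 hp).1, hc⟩
      · obtain ⟨hr1, hr2⟩ := Finset.mem_filter.1 hr
        have hr3 := (mem_PS.1 hr1).1
        have h3 : N (⟨r.im, r.re⟩ : O) = N r := by
          unfold N
          ring
        rw [h3]
        refine ⟨mem_PP.2 ⟨hr3.1.swap, ?_⟩, hr2⟩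
        rw [h3]
        exact hr3.2
  have h2 : Disjoint ((PS D z).filter (fun p => c (N p)))
      (((PS D z).filter (fun p => c (N p))).image (fun p : O => (⟨p.im, p.re⟩ : O))) := by
    rw [Finset.disjoint_left]
    rintro p hp hp'
    obtain ⟨r, hr, rfl⟩ := Finset.mem_image.1 hp'
    have e1 := (mem_PS.1 (Finset.mem_filter.1 hp).1).2
    have e2 := (mem_PS.1 (Finset.mem_filter.1 hr).1).2
    change r.re < r.im at e1
    omega
  have h3 : ∑ p ∈ ((PS D z).filter (fun p => c (N p))).image (fun p : O => (⟨p.im, p.re⟩ : O)), g (N p) =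
      ∑ p ∈ (PS D z).filter (fun p => c (N p)), g (N p) := by
    rw [Finset.sum_image]
    · refine Finset.sum_congr rfl fun p _ => ?_
      have h3 : N (⟨p.im, p.re⟩ : O) = N p := by
        unfold N
        ring
      rw [h3]
    · intro p _ p' _ he
      have e1 := congrArg QuadraticAlgebra.re he
      have e2 := congrArg QuadraticAlgebra.im he
      exact QuadraticAlgebra.ext e2 e1
  rw [h1, Finset.sum_union h2, h3]
  ring

theorem sum_log_PP {D : ℕ} (h5 : 5 ∣ D) {z : ℝ} (hz : 1 ≤ z) :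
    ∑ p ∈ PP D z, Real.log (N p) / (N p : ℝ) ≤ 2 * Real.log z + 16 := by
  classical
  have h1 := PrA_two h5 z (fun _ => True) (fun n : ℤ => Real.log (n : ℝ) / (n : ℝ))
  rw [Finset.filter_true, Finset.filter_true] at h1
  rw [h1]
  have h2 : ∑ p ∈ PS D z, Real.log (N p : ℝ) / (N p : ℝ) =
      ∑ q ∈ (PS D z).image (fun p => (N p).natAbs), Real.log (q : ℝ) / q := by
    rw [Finset.sum_image]
    · refine Finset.sum_congr rfl fun p hp => ?_
      rw [PrA_cast (mem_PS.1 hp).1.1]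
    · intro p hp p' hp' he
      exact PrA_inj hp hp' he
  have h3 := Pool.Agent.Lib.MP_2c5684_nt.sum_log_div_le ((PS D z).image (fun p => (N p).natAbs)) 0
    (Real.log z) le_rfl (Real.log_nonneg hz) (by
      intro q hq
      obtain ⟨p, hp, rfl⟩ := Finset.mem_image.1 hq
      have hp3 := (mem_PS.1 hp).1
      have h4 := hp3.1.two_le
      have h6 : (2 : ℝ) ≤ (N p : ℝ) := by exact_mod_cast h4
      rw [PrA_cast hp3.1]
      exact ⟨hp3.1.2.1, Real.log_pos (by linarith), Real.log_le_log (by linarith) hp3.2⟩)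
  rw [h2]
  linarith

/-- Abel summation -/
private theorem PrA_abel (a : ℕ → ℝ) (ha : ∀ n, 0 ≤ a n) (C : ℝ) (hC : ∀ x : ℕ, 1 ≤ x →
    |∑ n ∈ Finset.Icc 1 x, a n - Real.log x / 2| ≤ C) (m : ℕ) (hm : 3 ≤ m) (M : ℕ) (hM : m ≤ M) :
    1 / 2 * (Real.log (Real.log M) - Real.log (Real.log m)) - (2 * C + 1) ≤
      ∑ n ∈ Finset.Icc m M, a n / Real.log n := by
  have hC0 : 0 ≤ C := (abs_nonneg _).trans (hC 1 le_rfl)
  have hm3 : (3 : ℝ) ≤ m := by exact_mod_cast hm
  have hlog3 : (1 : ℝ) ≤ Real.log 3 := by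
    rw [Real.le_log_iff_exp_le (by norm_num)]
    have := Real.exp_one_lt_d9
    linarith
  have hlogn : ∀ n : ℕ, 3 ≤ n → 1 ≤ Real.log n := by
    intro n hn
    have h1 : (3 : ℝ) ≤ n := by exact_mod_cast hn
    exact hlog3.trans (Real.log_le_log (by norm_num) h1)
  -- truncated sums from `m`
  have hB : ∀ n : ℕ, m ≤ n → 1 / 2 * Real.log n - (1 / 2 * Real.log m + 2 * C) ≤
      ∑ k ∈ Finset.Icc m n, a k := by
    intro n hn
    have h1 := (abs_le.1 (hC n (by omega))).1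
    have h2 := (abs_le.1 (hC (m - 1) (by omega))).2
    have h3 : ∑ k ∈ Finset.Icc 1 n, a k = ∑ k ∈ Finset.Icc 1 (m - 1), a k + ∑ k ∈ Finset.Icc m n, a k := by
      rw [← Finset.sum_union]
      · congr 1
        ext k
        rw [Finset.mem_union, Finset.mem_Icc, Finset.mem_Icc, Finset.mem_Icc]
        omega
      · rw [Finset.disjoint_left]
        intro k hk hk'
        rw [Finset.mem_Icc] at hk hk'
        omega
    have h4 : Real.log ((m - 1 : ℕ) : ℝ) ≤ Real.log m := by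
      have h6 : ((m - 1 : ℕ) : ℝ) = (m : ℝ) - 1 := by
        rw [Nat.cast_sub (by omega)]
        norm_num
      rw [h6]
      exact Real.log_le_log (by linarith) (by linarith)
    linarith
  set K : ℝ := 1 / 2 * Real.log m + 2 * C with hK
  have hK0 : 0 ≤ K := by
    have := hlogn m hm
    rw [hK]
    linarith
  have key : ∀ n : ℕ, m ≤ n → (∑ k ∈ Finset.Icc m n, a k) / Real.log n +
      1 / 2 * (Real.log (Real.log n) - Real.log (Real.log m)) -
      1 / 2 * (1 / ((m : ℝ) - 1) - 1 / ((n : ℝ) - 1)) - K * (1 / Real.log m - 1 / Real.log n) ≤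
      ∑ k ∈ Finset.Icc m n, a k / Real.log k := by
    intro n hn
    induction n, hn using Nat.le_induction with
    | base =>
      rw [Finset.Icc_self, Finset.sum_singleton, Finset.sum_singleton]
      simp
    | succ n hn ih =>
      have hn3 : 3 ≤ n := hm.trans hn
      have hn3' : (3 : ℝ) ≤ n := by exact_mod_cast hn3
      have hL := hlogn n hn3
      have hL' := hlogn (n + 1) (by omega)
      have e1 : ∑ k ∈ Finset.Icc m (n + 1), a k = ∑ k ∈ Finset.Icc m n, a k + a (n + 1) :=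
        Finset.sum_Icc_succ_top (by omega) _
      have e2 : ∑ k ∈ Finset.Icc m (n + 1), a k / Real.log k =
          ∑ k ∈ Finset.Icc m n, a k / Real.log k + a (n + 1) / Real.log ((n + 1 : ℕ) : ℝ) :=
        Finset.sum_Icc_succ_top (by omega) _
      rw [e1, e2]
      have hBn := hB n hn
      set B := ∑ k ∈ Finset.Icc m n, a k with hBdef
      set L := Real.log (n : ℝ) with hLdef
      set L' := Real.log ((n + 1 : ℕ) : ℝ) with hL'def
      have hL0 : 0 < L := by linarith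
      have hL0' : 0 < L' := by linarith
      -- the difference of the logarithms
      have hd0 : L ≤ L' := by
        rw [hLdef, hL'def]
        refine Real.log_le_log (by linarith) ?_
        push_cast
        linarith
      have hd1 : L' - L ≤ 1 / n := by
        rw [hLdef, hL'def]
        push_cast
        rw [← Real.log_div (by positivity) (by positivity)]
        refine (Real.log_le_sub_one_of_pos (by positivity)).trans (le_of_eq ?_)
        field_simp
        ring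
      -- main inequality: (L' - L)/L' ≥ log (L'/L) - 1/n²
      have hmain : Real.log L' - Real.log L - 1 / ((n : ℝ) - 1) + 1 / (n : ℝ) ≤ L * (1 / L - 1 / L') := by
        have f1 : Real.log L' - Real.log L ≤ (L' - L) / L := by
          rw [← Real.log_div hL0'.ne' hL0.ne']
          refine (Real.log_le_sub_one_of_pos (by positivity)).trans (le_of_eq ?_)
          field_simp
        have f2 : (L' - L) / L - L * (1 / L - 1 / L') = (L' - L) ^ 2 / (L * L') := by
          field_simp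
        have f3 : (L' - L) ^ 2 / (L * L') ≤ (1 / n) ^ 2 := by
          have g1 : (L' - L) ^ 2 ≤ (1 / (n : ℝ)) ^ 2 := by
            refine pow_le_pow_left₀ (by linarith) hd1 2
          have g2 : 1 ≤ L * L' := by nlinarith
          rw [div_le_iff₀ (by positivity)]
          have g3 : 0 ≤ (1 / (n : ℝ)) ^ 2 := by positivity
          nlinarith
        have f4 : (1 / (n : ℝ)) ^ 2 ≤ 1 / ((n : ℝ) - 1) - 1 / (n : ℝ) := by
          have g1 : (0 : ℝ) < (n : ℝ) - 1 := by linarith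
          have g0 : (0 : ℝ) < (n : ℝ) := by linarith
          have g2 : 1 / ((n : ℝ) - 1) - 1 / (n : ℝ) = 1 / (((n : ℝ) - 1) * n) := by
            field_simp
            ring
          rw [g2, div_pow, one_pow]
          refine one_div_le_one_div_of_le (by positivity) ?_
          nlinarith
        linarith
      have hpos : 0 ≤ 1 / L - 1 / L' := by
        rw [sub_nonneg]
        exact one_div_le_one_div_of_le hL0 hd0
      have hprod : (1 / 2 * L - K) * (1 / L - 1 / L') ≤ B * (1 / L - 1 / L') :=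
        mul_le_mul_of_nonneg_right hBn hpos
      have e3 : (B + a (n + 1)) / L' + 1 / 2 * (Real.log L' - Real.log (Real.log m)) -
          1 / 2 * (1 / ((m : ℝ) - 1) - 1 / (((n + 1 : ℕ) : ℝ) - 1)) - K * (1 / Real.log m - 1 / L') =
          (B / L + 1 / 2 * (Real.log L - Real.log (Real.log m)) -
            1 / 2 * (1 / ((m : ℝ) - 1) - 1 / ((n : ℝ) - 1)) - K * (1 / Real.log m - 1 / L)) +
          a (n + 1) / L' + (1 / 2 * (Real.log L' - Real.log L - 1 / ((n : ℝ) - 1) + 1 / (n : ℝ)) -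
            B * (1 / L - 1 / L') - K * (1 / L - 1 / L')) := by
        push_cast
        rw [add_sub_cancel_right]
        ring
      rw [e3]
      have h10 : 1 / 2 * (Real.log L' - Real.log L - 1 / ((n : ℝ) - 1) + 1 / (n : ℝ)) -
            B * (1 / L - 1 / L') - K * (1 / L - 1 / L') ≤ 0 := by
        have h11 : (1 / 2 * L - K) * (1 / L - 1 / L') = 1 / 2 * (L * (1 / L - 1 / L')) - K * (1 / L - 1 / L') := by
          ring
        rw [h11] at hprod
        have h12 : 0 ≤ K * (1 / L - 1 / L') := mul_nonneg hK0 hpos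
        linarith
      linarith
  have h1 := key M hM
  have hLm := hlogn m hm
  have hLM := hlogn M (hm.trans hM)
  have h2 : 0 ≤ (∑ k ∈ Finset.Icc m M, a k) / Real.log M :=
    div_nonneg (Finset.sum_nonneg fun k _ => ha k) (by linarith)
  have h3 : 1 / 2 * (1 / ((m : ℝ) - 1) - 1 / ((M : ℝ) - 1)) ≤ 1 / 2 := by
    have g1 : 1 / ((m : ℝ) - 1) ≤ 1 := by
      rw [div_le_one (by linarith)]
      linarith
    have g2 : 0 ≤ 1 / ((M : ℝ) - 1) := by
      have : (3 : ℝ) ≤ M := by exact_mod_cast hm.trans hM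
      exact div_nonneg zero_le_one (by linarith)
    linarith
  have h4 : K * (1 / Real.log m - 1 / Real.log M) ≤ 1 / 2 + 2 * C := by
    have g1 : 0 ≤ 1 / Real.log M := div_nonneg zero_le_one (by linarith)
    have g2 : K * (1 / Real.log m) ≤ 1 / 2 + 2 * C := by
      rw [hK]
      have g3 : (1 / 2 * Real.log m + 2 * C) * (1 / Real.log m) = 1 / 2 + 2 * C * (1 / Real.log m) := by
        have : Real.log m ≠ 0 := by linarith
        field_simp
      rw [g3]
      have g4 : 1 / Real.log m ≤ 1 := by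
        rw [div_le_one (by linarith)]
        exact hLm
      nlinarith
    have g3 : K * (1 / Real.log m - 1 / Real.log M) = K * (1 / Real.log m) - K * (1 / Real.log M) := by ring
    rw [g3]
    have g4 : 0 ≤ K * (1 / Real.log M) := mul_nonneg hK0 g1
    linarith
  linarith

private theorem PrA_chi {q : ℕ} (h : QT.chi 5 q = 1) : q % 5 = 1 ∨ q % 5 = 4 := by
  unfold QT.chi at h
  split_ifs at h with ho
  · have h1 : jacobiSym 5 q = 1 := by exact_mod_cast h
    have h2 := jacobiSym.quadratic_reciprocity_one_mod_four (a := 5) (b := q) (by norm_num) ho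
    have h3 : jacobiSym ((5 : ℕ) : ℤ) q = 1 := h1
    rw [h3, jacobiSym.mod_left] at h2
    have h4 : ((q : ℤ) % ((5 : ℕ) : ℤ)) = ((q % 5 : ℕ) : ℤ) := by push_cast; rfl
    rw [h4] at h2
    have h6 : q % 5 < 5 := Nat.mod_lt _ (by norm_num)
    have e0 : jacobiSym ((0 : ℕ) : ℤ) 5 = 0 := by norm_num
    have e2 : jacobiSym ((2 : ℕ) : ℤ) 5 = -1 := by norm_num
    have e3 : jacobiSym ((3 : ℕ) : ℤ) 5 = -1 := by norm_num
    have h7 : q % 5 = 0 ∨ q % 5 = 1 ∨ q % 5 = 2 ∨ q % 5 = 3 ∨ q % 5 = 4 := by omega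
    rcases h7 with h7 | h7 | h7 | h7 | h7
    · rw [h7, e0] at h2
      norm_num at h2
    · exact Or.inl h7
    · rw [h7, e2] at h2
      norm_num at h2
    · rw [h7, e3] at h2
      norm_num at h2
    · exact Or.inr h7
  · norm_num at h

/-- change of the endpoints -/
private theorem PrA_ends {P Q : ℝ} (hP : 3 ≤ P) (hPQ : P ≤ Q) :
    Real.log (Real.log Q / Real.log P) ≤
      Real.log (Real.log (⌊Q⌋₊ : ℝ)) - Real.log (Real.log (⌈P⌉₊ : ℝ)) + 2 := by
  have hQ : 3 ≤ Q := hP.trans hPQ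
  have hlog3 : (1 : ℝ) ≤ Real.log 3 := by
    rw [Real.le_log_iff_exp_le (by norm_num)]
    have := Real.exp_one_lt_d9
    linarith
  have hLP : 1 ≤ Real.log P := hlog3.trans (Real.log_le_log (by norm_num) hP)
  have hLQ : 1 ≤ Real.log Q := hlog3.trans (Real.log_le_log (by norm_num) hQ)
  have hM3 : (3 : ℝ) ≤ (⌊Q⌋₊ : ℝ) := by
    have : 3 ≤ ⌊Q⌋₊ := Nat.le_floor (by exact_mod_cast hQ)
    exact_mod_cast this
  have hLM : 1 ≤ Real.log (⌊Q⌋₊ : ℝ) := hlog3.trans (Real.log_le_log (by norm_num) hM3)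
  have he2 : (2 : ℝ) ≤ Real.exp 1 := by
    have := Real.add_one_le_exp (1 : ℝ)
    linarith
  have hQM : Q < (⌊Q⌋₊ : ℝ) + 1 := Nat.lt_floor_add_one Q
  have h1 : Real.log Q ≤ 2 * Real.log (⌊Q⌋₊ : ℝ) := by
    have h2 : Real.log Q ≤ Real.log ((⌊Q⌋₊ : ℝ) ^ 2) :=
      Real.log_le_log (by linarith) (by nlinarith)
    rw [Real.log_pow] at h2
    push_cast at h2
    exact h2
  have hPm : (⌈P⌉₊ : ℝ) < P + 1 := Nat.ceil_lt_add_one (by linarith)
  have hm3 : (3 : ℝ) ≤ (⌈P⌉₊ : ℝ) := hP.trans (Nat.le_ceil P)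
  have hLm : 1 ≤ Real.log (⌈P⌉₊ : ℝ) := hlog3.trans (Real.log_le_log (by norm_num) hm3)
  have h2 : Real.log (⌈P⌉₊ : ℝ) ≤ 2 * Real.log P := by
    have h2 : Real.log (⌈P⌉₊ : ℝ) ≤ Real.log (P ^ 2) :=
      Real.log_le_log (by linarith) (by nlinarith)
    rw [Real.log_pow] at h2
    push_cast at h2
    exact h2
  have hlog2 : Real.log 2 ≤ 1 := by
    rw [Real.log_le_iff_le_exp (by norm_num)]
    exact he2
  rw [Real.log_div (by linarith) (by linarith)]
  have h3 : Real.log (Real.log Q) ≤ Real.log 2 + Real.log (Real.log (⌊Q⌋₊ : ℝ)) := by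
    rw [← Real.log_mul (by norm_num) (by linarith)]
    exact Real.log_le_log (by linarith) h1
  have h4 : Real.log (Real.log (⌈P⌉₊ : ℝ)) ≤ Real.log 2 + Real.log (Real.log P) := by
    rw [← Real.log_mul (by norm_num) (by linarith)]
    exact Real.log_le_log (by linarith) h2
  linarith

theorem mass_PS_lower {D : ℕ} (h5 : 5 ∣ D) (hD : 0 < D) : ∃ C : ℝ, ∀ P Q : ℝ, 3 ≤ P → P ≤ Q →
    1 / 2 * Real.log (Real.log Q / Real.log P) - C ≤ mass ((PS D Q).filter (fun p => P ≤ (N p : ℝ))) := by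
  classical
  obtain ⟨C, hC⟩ := ZR.mert_class {5} (by
    intro S hS hS'
    have h1 : S = {5} := (Finset.Nonempty.subset_singleton_iff hS').1 hS
    rw [h1, Finset.prod_singleton]
    rintro ⟨r, hr⟩
    have h2 : r.natAbs * r.natAbs = 5 := by
      have h3 : ((r.natAbs * r.natAbs : ℕ) : ℤ) = 5 := by
        rw [Int.natAbs_mul_self, hr]
      exact_mod_cast h3
    have h3 : r.natAbs ≤ 2 := by nlinarith
    interval_cases r.natAbs <;> omega) (fun _ => 1) (fun _ _ => Or.inl rfl)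
  set a : ℕ → ℝ := fun n => if n.Prime ∧ QT.chi 5 n = 1 then Real.log n / n else 0 with ha
  have ha0 : ∀ n, 0 ≤ a n := by
    intro n
    simp only [ha]
    split_ifs
    · exact div_nonneg (Real.log_natCast_nonneg n) (Nat.cast_nonneg n)
    · exact le_rfl
  have hC' : ∀ x : ℕ, 1 ≤ x → |∑ n ∈ Finset.Icc 1 x, a n - Real.log x / 2| ≤ C := by
    intro x hx
    have h1 := hC x hx
    rw [Finset.card_singleton, pow_one] at h1
    have h2 : ∑ n ∈ Finset.Icc 1 x, a n =
        ∑ p ∈ (Finset.Icc 1 x).filter (fun p => p.Prime ∧ ∀ e ∈ ({5} : Finset ℤ), QT.chi e p = (1 : ℝ)),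
          Real.log p / p := by
      rw [Finset.sum_filter]
      refine Finset.sum_congr rfl fun n _ => ?_
      simp only [ha, Finset.mem_singleton, forall_eq]
    rw [h2]
    exact h1
  have hC0 : 0 ≤ C := (abs_nonneg _).trans (hC' 1 le_rfl)
  refine ⟨2 * C + 2 + D, fun P Q hP hPQ => ?_⟩
  have hends := PrA_ends hP hPQ
  have hQ : 3 ≤ Q := hP.trans hPQ
  -- the primes dividing `D`
  have hmass0 : 0 ≤ mass ((PS D Q).filter (fun p => P ≤ (N p : ℝ))) := by
    unfold mass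
    refine Finset.sum_nonneg fun p hp => ?_
    have h1 := (mem_PS.1 (Finset.mem_filter.1 hp).1).1.1.two_le
    have h2 : (2 : ℝ) ≤ (N p : ℝ) := by exact_mod_cast h1
    exact div_nonneg zero_le_one (by linarith)
  have hD0 : (0 : ℝ) ≤ D := Nat.cast_nonneg D
  rcases Nat.lt_or_ge ⌊Q⌋₊ ⌈P⌉₊ with hlt | hge
  · -- empty range
    have h1 : Real.log (Real.log (⌊Q⌋₊ : ℝ)) ≤ Real.log (Real.log (⌈P⌉₊ : ℝ)) := by
      have hM3 : 3 ≤ ⌊Q⌋₊ := Nat.le_floor (by exact_mod_cast hQ)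
      have hM3' : (3 : ℝ) ≤ (⌊Q⌋₊ : ℝ) := by exact_mod_cast hM3
      have hlt' : (⌊Q⌋₊ : ℝ) ≤ (⌈P⌉₊ : ℝ) := by exact_mod_cast hlt.le
      refine Real.log_le_log (Real.log_pos (by linarith)) (Real.log_le_log (by linarith) hlt')
    linarith
  · have hm3 : 3 ≤ ⌈P⌉₊ := by
      have h1 : (3 : ℝ) ≤ (⌈P⌉₊ : ℝ) := hP.trans (Nat.le_ceil P)
      exact_mod_cast h1
    have hab := PrA_abel a ha0 C hC' ⌈P⌉₊ hm3 ⌊Q⌋₊ hge
    -- compare the sums
    have hS : ∑ n ∈ Finset.Icc ⌈P⌉₊ ⌊Q⌋₊, a n / Real.log n =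
        ∑ n ∈ (Finset.Icc ⌈P⌉₊ ⌊Q⌋₊).filter (fun n => n.Prime ∧ QT.chi 5 n = 1), 1 / (n : ℝ) := by
      rw [Finset.sum_filter]
      refine Finset.sum_congr rfl fun n hn => ?_
      have hn3 : 3 ≤ n := hm3.trans (Finset.mem_Icc.1 hn).1
      have hn3' : (3 : ℝ) ≤ n := by exact_mod_cast hn3
      simp only [ha]
      split_ifs
      · have h1 : Real.log (n : ℝ) ≠ 0 := (Real.log_pos (by linarith)).ne'
        have h2 : (n : ℝ) ≠ 0 := by linarith
        field_simp
      · exact zero_div _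
    have hsplit : ∑ n ∈ (Finset.Icc ⌈P⌉₊ ⌊Q⌋₊).filter (fun n => n.Prime ∧ QT.chi 5 n = 1), 1 / (n : ℝ) ≤
        ∑ q ∈ ((PS D Q).filter (fun p => P ≤ (N p : ℝ))).image (fun p => (N p).natAbs), 1 / (q : ℝ) +
        ∑ q ∈ D.divisors, 1 / (q : ℝ) := by
      have hsub : (Finset.Icc ⌈P⌉₊ ⌊Q⌋₊).filter (fun n => n.Prime ∧ QT.chi 5 n = 1) ⊆
          ((PS D Q).filter (fun p => P ≤ (N p : ℝ))).image (fun p => (N p).natAbs) ∪ D.divisors := by
        intro q hq
        obtain ⟨hq1, hq2, hq3⟩ := Finset.mem_filter.1 hq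
        obtain ⟨hq4, hq5⟩ := Finset.mem_Icc.1 hq1
        rw [Finset.mem_union]
        by_cases hqD : q ∣ D
        · right
          exact Nat.mem_divisors.2 ⟨hqD, hD.ne'⟩
        · left
          have hqQ : (q : ℝ) ≤ Q := (Nat.le_floor_iff (by linarith)).1 hq5
          obtain ⟨p, hp, hNp⟩ := exists_PS hq2 (PrA_chi hq3) hqD hqQ
          refine Finset.mem_image.2 ⟨p, Finset.mem_filter.2 ⟨hp, ?_⟩, ?_⟩
          · rw [hNp]
            have h1 := Nat.ceil_le.1 hq4
            exact_mod_cast h1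
          · rw [hNp, Int.natAbs_natCast]
      have hnn : ∀ q : ℕ, (0 : ℝ) ≤ 1 / (q : ℝ) := fun q => div_nonneg zero_le_one (Nat.cast_nonneg q)
      refine (Finset.sum_le_sum_of_subset_of_nonneg hsub fun q _ _ => hnn q).trans ?_
      rw [← Finset.sum_union_inter]
      have : 0 ≤ ∑ q ∈ ((PS D Q).filter (fun p => P ≤ (N p : ℝ))).image (fun p => (N p).natAbs) ∩ D.divisors,
          1 / (q : ℝ) := Finset.sum_nonneg fun q _ => hnn q
      linarith
    have himg : ∑ q ∈ ((PS D Q).filter (fun p => P ≤ (N p : ℝ))).image (fun p => (N p).natAbs), 1 / (q : ℝ) =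
        mass ((PS D Q).filter (fun p => P ≤ (N p : ℝ))) := by
      unfold mass
      rw [Finset.sum_image]
      · refine Finset.sum_congr rfl fun p hp => ?_
        rw [PrA_cast (mem_PS.1 (Finset.mem_filter.1 hp).1).1.1]
      · intro p hp p' hp' he
        exact PrA_inj (Finset.mem_filter.1 hp).1 (Finset.mem_filter.1 hp').1 he
    have hdiv : ∑ q ∈ D.divisors, 1 / (q : ℝ) ≤ D := by
      have h1 : ∑ q ∈ D.divisors, 1 / (q : ℝ) ≤ ∑ q ∈ D.divisors, 1 := by
        refine Finset.sum_le_sum fun q hq => ?_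
        have h2 : (1 : ℝ) ≤ q := by exact_mod_cast Nat.pos_of_mem_divisors hq
        rw [div_le_one (by linarith)]
        exact h2
      rw [Finset.sum_const, nsmul_eq_mul, mul_one] at h1
      refine h1.trans ?_
      exact_mod_cast Nat.card_divisors_le_self D
    rw [hS] at hab
    rw [himg] at hsplit
    linarith

theorem mass_PP_lower {D : ℕ} (h5 : 5 ∣ D) (hD : 0 < D) : ∃ C : ℝ, ∀ P Q : ℝ, 3 ≤ P → P ≤ Q →
    Real.log (Real.log Q / Real.log P) - C ≤ mass ((PP D Q).filter (fun p => P ≤ (N p : ℝ))) := by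
  classical
  obtain ⟨C, hC⟩ := mass_PS_lower h5 hD
  refine ⟨2 * C, fun P Q hP hPQ => ?_⟩
  have h1 := hC P Q hP hPQ
  have h2 := PrA_two h5 Q (fun n : ℤ => P ≤ (n : ℝ)) (fun n : ℤ => 1 / (n : ℝ))
  unfold mass at h1 ⊢
  rw [h2]
  linarith

end Pool.Agent.Lib.MP_d57abb_nt.MR
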