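import Mathlib
import Pool.Agent.Lib.MP_d57abb_nt.MR.EuA
import Pool.Agent.Lib.MP_d57abb_nt.MR.PrA

/-!
# JOB EuB: a lower bound for the Euler product

Let `σ = 1 + 1/L`, `Λ = ∑' g v (N v)^(-σ)`, `HasProd ... Λ` from `hasProd_V`.
* For every `w` let `ϖ = gen w`, a prime element, `f w = g ϖ (N ϖ)^(-σ)`, `‖f w‖ ≤ (N ϖ)^(-σ) ≤ 1/4` (norms of elements of the quadrant which are `> 1` are `≥ 4`: the norm
  `x² + 3 x y + y²`, `x ≥ 1`, `y ≥ 0`; `⟨1,0⟩` has norm `1`, all others `≥ 4`).  `log |1 - f|⁻¹ ≥ Re f - |f|²` for `|f| ≤ 1/2`.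
* Kinds of `ϖ`: `N ϖ` is prime, or `N ϖ = q²` with `q` a rational prime: `ϖ ∣ N ϖ = ∏ (rational primes)`, so `ϖ ∣ q` for a prime `q`, so `N ϖ ∣ q²`; and in the case `N ϖ = q²` the elements
  `ϖ` and `q` are associated, so there is at most one such `ϖ` for every `q`.
* So for every finite set `T` of `w` containing those of the `p ∈ PP D (exp L)`:
  `log ∏_T |1 - f|⁻¹ ≥ ∑_{p ∈ PP D (exp L)} Re g(p) (N p)^(-σ) - ∑_{other prime norms ≤ exp L, i.e. N ϖ ∣ D} (N ϖ)^(-σ) - ∑_{N ϖ > exp L prime} (N ϖ)^(-σ) - ∑_q q^(-2) - ∑_ϖ (N ϖ)^(-2)`.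
  Second sum `≤ 2 #(prime divisors of D)`; third sum: each prime is the norm of at most two `ϖ` (of at most one if it is `5`), the primes with `2^k L < log q ≤ 2^(k+1) L` contribute
  `≤ 2 e^(-2^k) ∑ 1/q ≤ 2 e^(-2^k) (2^k L + 8) / (2^k L) ≤ 18 e^(-2^k)` (`q^(-1/L) ≤ e^(-2^k)`, `MP_2c5684_nt.sum_inv_le`); the last two sums are `≤ C` (`∑_{v} (N v)^(-2)`, `summable_V`).
* `∑_{p ∈ PP D (exp L)} Re g(p) ((N p)^(-1) - (N p)^(-σ)) ≤ ∑ (log N p / L) / N p ≤ (2 L + 16) / L ≤ 18` (`sum_log_PP`, `1 - e^(-u) ≤ u`).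
So every finite product over a large `T` is at least `exp (∑_{p ∈ PP D (exp L)} Re g(p) / N p - C)` in absolute value, and so is the limit.
-/

namespace Pool.Agent.Lib.MP_d57abb_nt.MR

open Finset

open IsDedekindDomain Filter Topology

private theorem EuB_Npos {v : O} (hv : Qd v) : 0 < (N v : ℝ) := by
  exact_mod_cast hv.tp.N_pos

private theorem EuB_Nge {v : O} (hv : Qd v) : 1 ≤ (N v : ℝ) := by
  have h := hv.tp.N_pos
  exact_mod_cast h

private theorem EuB_rpow {x L : ℝ} (hx : 0 < x) : x ^ (-(1 + 1 / L)) = x⁻¹ * Real.exp (-(Real.log x / L)) := by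
  have h1 : -(1 + 1 / L) = -1 + -(1 / L) := by ring
  rw [h1, Real.rpow_add hx, Real.rpow_neg_one, Real.rpow_def_of_pos hx (-(1 / L))]
  congr 2
  ring

private theorem EuB_block {D : ℕ} (h5 : 5 ∣ D) {L : ℝ} (hL : 1 ≤ L) (M : ℕ) (hM : 1 ≤ M) :
    ∑ p ∈ (PP D (Real.exp (((M : ℝ) + 1) * L))).filter (fun p => Real.exp ((M : ℝ) * L) < (N p : ℝ)),
      (N p : ℝ) ^ (-(1 + 1 / L)) ≤ 20 * Real.exp (-(M : ℝ)) := by
  have hL0 : 0 < L := by linarith
  have hM1 : (1 : ℝ) ≤ (M : ℝ) := by exact_mod_cast hM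
  have hML : (1 : ℝ) ≤ (M : ℝ) * L := by nlinarith
  have hML0 : 0 < (M : ℝ) * L := by linarith
  set z := Real.exp (((M : ℝ) + 1) * L) with hz
  have hz1 : 1 ≤ z := Real.one_le_exp (by positivity)
  have h1 : ∀ p ∈ (PP D z).filter (fun p => Real.exp ((M : ℝ) * L) < (N p : ℝ)),
      (N p : ℝ) ^ (-(1 + 1 / L)) ≤ Real.exp (-(M : ℝ)) / ((M : ℝ) * L) * (Real.log (N p) / (N p : ℝ)) := by
    intro p hp
    rw [mem_filter, mem_PP] at hp
    obtain ⟨⟨hD, -⟩, hlt⟩ := hp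
    have hN := EuB_Npos hD.1
    rw [EuB_rpow hN]
    have hlog : (M : ℝ) * L < Real.log (N p) := by
      rw [Real.lt_log_iff_exp_lt hN]
      exact hlt
    have h2 : Real.exp (-(Real.log (N p) / L)) ≤ Real.exp (-(M : ℝ)) := by
      apply Real.exp_le_exp.mpr
      have : (M : ℝ) ≤ Real.log (N p) / L := by
        rw [le_div_iff₀ hL0]
        exact hlog.le
      linarith
    have h3 : (1 : ℝ) ≤ Real.log (N p) / ((M : ℝ) * L) := by
      rw [le_div_iff₀ hML0, one_mul]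
      exact hlog.le
    calc (N p : ℝ)⁻¹ * Real.exp (-(Real.log (N p) / L)) ≤ (N p : ℝ)⁻¹ * Real.exp (-(M : ℝ)) :=
          mul_le_mul_of_nonneg_left h2 (inv_nonneg.mpr hN.le)
      _ ≤ ((N p : ℝ)⁻¹ * Real.exp (-(M : ℝ))) * (Real.log (N p) / ((M : ℝ) * L)) :=
          le_mul_of_one_le_right (by positivity) h3
      _ = Real.exp (-(M : ℝ)) / ((M : ℝ) * L) * (Real.log (N p) / (N p : ℝ)) := by
          field_simp
  refine (sum_le_sum h1).trans ?_
  rw [← mul_sum]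
  have h4 : ∑ p ∈ (PP D z).filter (fun p => Real.exp ((M : ℝ) * L) < (N p : ℝ)), Real.log (N p) / (N p : ℝ)
      ≤ ∑ p ∈ PP D z, Real.log (N p) / (N p : ℝ) := by
    apply sum_le_sum_of_subset_of_nonneg (filter_subset _ _)
    intro p hp _
    rw [mem_PP] at hp
    exact div_nonneg (Real.log_nonneg (EuB_Nge hp.1.1)) (EuB_Npos hp.1.1).le
  have h5' := sum_log_PP h5 hz1
  rw [hz, Real.log_exp] at h5'
  have h6 : ∑ p ∈ (PP D z).filter (fun p => Real.exp ((M : ℝ) * L) < (N p : ℝ)), Real.log (N p) / (N p : ℝ)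
      ≤ 20 * ((M : ℝ) * L) := by
    refine (h4.trans h5').trans ?_
    nlinarith
  calc Real.exp (-(M : ℝ)) / ((M : ℝ) * L) *
        ∑ p ∈ (PP D z).filter (fun p => Real.exp ((M : ℝ) * L) < (N p : ℝ)), Real.log (N p) / (N p : ℝ)
      ≤ Real.exp (-(M : ℝ)) / ((M : ℝ) * L) * (20 * ((M : ℝ) * L)) :=
        mul_le_mul_of_nonneg_left h6 (by positivity)
    _ = 20 * Real.exp (-(M : ℝ)) := by
        field_simp

private theorem EuB_tail0 {D : ℕ} (h5 : 5 ∣ D) {L : ℝ} (hL : 1 ≤ L) (M : ℕ) :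
    ∑ p ∈ (PP D (Real.exp (((M : ℝ) + 1) * L))).filter (fun p => Real.exp L < (N p : ℝ)),
      (N p : ℝ) ^ (-(1 + 1 / L)) ≤ 20 * ∑ k ∈ range (M + 1), Real.exp (-(k : ℝ)) := by
  induction M with
  | zero =>
    have h1 : (PP D (Real.exp ((((0 : ℕ) : ℝ) + 1) * L))).filter (fun p => Real.exp L < (N p : ℝ)) = ∅ := by
      rw [Finset.eq_empty_iff_forall_notMem]
      intro p hp
      rw [mem_filter, mem_PP] at hp
      have h2 := hp.1.2
      rw [Nat.cast_zero, zero_add, one_mul] at h2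
      linarith [hp.2]
    rw [h1, sum_empty]
    exact mul_nonneg (by norm_num) (sum_nonneg (fun _ _ => (Real.exp_pos _).le))
  | succ M ih =>
    have hb := EuB_block h5 hL (M + 1) (by omega)
    have hsub : (PP D (Real.exp ((((M + 1 : ℕ) : ℝ) + 1) * L))).filter (fun p => Real.exp L < (N p : ℝ)) ⊆
        (PP D (Real.exp (((M : ℝ) + 1) * L))).filter (fun p => Real.exp L < (N p : ℝ)) ∪
        (PP D (Real.exp ((((M + 1 : ℕ) : ℝ) + 1) * L))).filter
          (fun p => Real.exp (((M + 1 : ℕ) : ℝ) * L) < (N p : ℝ)) := by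
      intro p hp
      rw [mem_filter] at hp
      rw [mem_union, mem_filter, mem_filter]
      by_cases h : Real.exp (((M + 1 : ℕ) : ℝ) * L) < (N p : ℝ)
      · exact Or.inr ⟨hp.1, h⟩
      · left
        refine ⟨?_, hp.2⟩
        rw [mem_PP] at hp ⊢
        refine ⟨hp.1.1, ?_⟩
        rw [not_lt] at h
        push_cast at h
        exact h
    have h1 : ∑ p ∈ (PP D (Real.exp ((((M + 1 : ℕ) : ℝ) + 1) * L))).filter (fun p => Real.exp L < (N p : ℝ)),
        (N p : ℝ) ^ (-(1 + 1 / L)) ≤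
        ∑ p ∈ (PP D (Real.exp (((M : ℝ) + 1) * L))).filter (fun p => Real.exp L < (N p : ℝ)),
          (N p : ℝ) ^ (-(1 + 1 / L)) +
        ∑ p ∈ (PP D (Real.exp ((((M + 1 : ℕ) : ℝ) + 1) * L))).filter
          (fun p => Real.exp (((M + 1 : ℕ) : ℝ) * L) < (N p : ℝ)), (N p : ℝ) ^ (-(1 + 1 / L)) := by
      have hnn : ∀ p ∈ (PP D (Real.exp (((M : ℝ) + 1) * L))).filter (fun p => Real.exp L < (N p : ℝ)) ∪
        (PP D (Real.exp ((((M + 1 : ℕ) : ℝ) + 1) * L))).filter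
          (fun p => Real.exp (((M + 1 : ℕ) : ℝ) * L) < (N p : ℝ)), 0 ≤ (N p : ℝ) ^ (-(1 + 1 / L)) := by
        intro p hp
        have hq : Qd p := by
          rw [mem_union, mem_filter, mem_filter, mem_PP, mem_PP] at hp
          rcases hp with hp | hp
          · exact hp.1.1.1
          · exact hp.1.1.1
        exact Real.rpow_nonneg (EuB_Npos hq).le _
      refine (sum_le_sum_of_subset_of_nonneg hsub (fun p hp _ => hnn p hp)).trans ?_
      rw [← sum_union_inter]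
      have h3 : 0 ≤ ∑ p ∈ (PP D (Real.exp (((M : ℝ) + 1) * L))).filter (fun p => Real.exp L < (N p : ℝ)) ∩
        (PP D (Real.exp ((((M + 1 : ℕ) : ℝ) + 1) * L))).filter
          (fun p => Real.exp (((M + 1 : ℕ) : ℝ) * L) < (N p : ℝ)), (N p : ℝ) ^ (-(1 + 1 / L)) :=
        sum_nonneg (fun p hp => hnn p (mem_union_left _ (mem_inter.1 hp).1))
      linarith
    rw [sum_range_succ]
    linarith

private theorem EuB_geo (n : ℕ) : ∑ k ∈ range n, Real.exp (-(k : ℝ)) ≤ 2 := by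
  set q := Real.exp (-1) with hq
  have hq0 : 0 < q := Real.exp_pos _
  have hq2 : q ≤ 1 / 2 := by
    have h1 : (1 : ℝ) + 1 ≤ Real.exp 1 := Real.add_one_le_exp 1
    have h2 : q * Real.exp 1 = 1 := by
      rw [hq, ← Real.exp_add]
      norm_num
    nlinarith
  have e1 : ∀ k : ℕ, Real.exp (-(k : ℝ)) = q ^ k := by
    intro k
    rw [hq, ← Real.exp_nat_mul]
    congr 1
    ring
  rw [sum_congr rfl (fun k _ => e1 k)]
  have h1 : (1 - q) * ∑ i ∈ range n, q ^ i = 1 - q ^ n := mul_neg_geom_sum q n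
  have h2 : 0 ≤ q ^ n := pow_nonneg hq0.le n
  have h3 : 0 ≤ ∑ i ∈ range n, q ^ i := sum_nonneg (fun i _ => pow_nonneg hq0.le i)
  nlinarith

private theorem EuB_tail {D : ℕ} (h5 : 5 ∣ D) {L : ℝ} (hL : 1 ≤ L) (G : Finset O)
    (hG : ∀ v ∈ G, Qd v) :
    ∑ v ∈ G.filter (fun v => Dg D v ∧ Real.exp L < (N v : ℝ)), (N v : ℝ) ^ (-(1 + 1 / L)) ≤ 40 := by
  set M := G.sup (fun v => (N v).natAbs) with hM
  have hsub : G.filter (fun v => Dg D v ∧ Real.exp L < (N v : ℝ)) ⊆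
      (PP D (Real.exp (((M : ℝ) + 1) * L))).filter (fun p => Real.exp L < (N p : ℝ)) := by
    intro v hv
    rw [mem_filter] at hv
    rw [mem_filter, mem_PP]
    refine ⟨⟨hv.2.1, ?_⟩, hv.2.2⟩
    have h1 : (N v).natAbs ≤ M := Finset.le_sup (f := fun v => (N v).natAbs) hv.1
    have h2 : (N v : ℝ) ≤ (M : ℝ) := by
      have h3 : (N v : ℤ) ≤ (M : ℤ) := by
        have := Int.le_natAbs (a := N v)
        omega
      exact_mod_cast h3
    have h4 : ((M : ℝ) + 1) * L + 1 ≤ Real.exp (((M : ℝ) + 1) * L) := Real.add_one_le_exp _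
    have h5 : (0 : ℝ) ≤ (M : ℝ) := Nat.cast_nonneg _
    nlinarith
  have h1 : ∑ v ∈ G.filter (fun v => Dg D v ∧ Real.exp L < (N v : ℝ)), (N v : ℝ) ^ (-(1 + 1 / L)) ≤
      ∑ p ∈ (PP D (Real.exp (((M : ℝ) + 1) * L))).filter (fun p => Real.exp L < (N p : ℝ)),
        (N p : ℝ) ^ (-(1 + 1 / L)) := by
    apply sum_le_sum_of_subset_of_nonneg hsub
    intro p hp _
    rw [mem_filter, mem_PP] at hp
    exact Real.rpow_nonneg (EuB_Npos hp.1.1.1).le _
  have h2 := EuB_tail0 h5 hL M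
  have h3 := EuB_geo (M + 1)
  linarith

private theorem EuB_im (G : Finset O) (hG : ∀ v ∈ G, Qd v) :
    ∑ v ∈ G.filter (fun v => v.im = 0), 1 / (N v : ℝ) ≤ ∑' n : ℕ, 1 / (n : ℝ) ^ 2 := by
  have h1 : ∀ v ∈ G.filter (fun v => v.im = 0), 1 / (N v : ℝ) = (fun n : ℕ => 1 / (n : ℝ) ^ 2) v.re.toNat := by
    intro v hv
    rw [mem_filter] at hv
    have h2 := (hG v hv.1).1
    have h3 : (N v : ℝ) = (v.re.toNat : ℝ) ^ 2 := by
      have h4 : N v = (v.re.toNat : ℤ) ^ 2 := by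
        unfold N
        rw [hv.2, Int.toNat_of_nonneg (by omega)]
        ring
      rw [h4]
      push_cast
      rfl
    rw [h3]
  rw [sum_congr rfl h1, ← sum_image (f := fun n : ℕ => 1 / (n : ℝ) ^ 2) (g := fun v : O => v.re.toNat)]
  · exact (Real.summable_one_div_nat_pow.mpr (by norm_num)).sum_le_tsum _ (fun n _ => by positivity)
  · intro v hv v' hv' h
    rw [mem_coe, mem_filter] at hv hv'
    have h2 := (hG v hv.1).1
    have h3 := (hG v' hv'.1).1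
    have h4 : v.re = v'.re := by
      have h5 : v.re.toNat = v'.re.toNat := h
      omega
    exact QuadraticAlgebra.ext h4 (by rw [hv.2, hv'.2])

private theorem EuB_sq (G : Finset O) (hG : ∀ v ∈ G, Qd v) :
    ∑ v ∈ G, (N v : ℝ) ^ (-(2 : ℝ)) ≤ ∑' v : {v : O // Qd v}, (N v.1 : ℝ) ^ (-(2 : ℝ)) := by
  rw [← Finset.sum_subtype_of_mem (fun v : O => (N v : ℝ) ^ (-(2 : ℝ))) hG]
  exact (summable_V (by norm_num : (1 : ℝ) < 2)).sum_le_tsum _
    (fun v _ => Real.rpow_nonneg (EuB_Npos v.2).le _)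

private theorem EuB_class {v : O} (hv : Qd v) (hp : Prime v) :
    (N v).natAbs.Prime ∨ v.im = 0 := by
  have hpos := hv.tp.N_pos
  have h1 : v ∣ (((N v).natAbs : ℕ) : O) := by
    have h2 : ((N v : ℤ) : O) = (((N v).natAbs : ℕ) : O) := by
      have h3 : (N v : ℤ) = (((N v).natAbs : ℕ) : ℤ) := by omega
      rw [h3, Int.cast_natCast, Int.natAbs_natCast]
    rw [← h2, ← mul_star_self]
    exact dvd_mul_right _ _
  have hne : (N v).natAbs ≠ 0 := by omega
  have h2 : v ∣ (((N v).natAbs.primeFactorsList.map (fun n : ℕ => (n : O))).prod) := by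
    have h3 : ((N v).natAbs.primeFactorsList.map (fun n : ℕ => (n : O))).prod = (((N v).natAbs : ℕ) : O) := by
      have h4 := congrArg (fun n : ℕ => (n : O)) (Nat.prod_primeFactorsList hne)
      simp only [Nat.cast_list_prod] at h4
      exact h4
    rw [h3]
    exact h1
  rw [hp.dvd_prod_iff] at h2
  obtain ⟨a, ha, hva⟩ := h2
  rw [List.mem_map] at ha
  obtain ⟨q, hq, rfl⟩ := ha
  have hqp : q.Prime := Nat.prime_of_mem_primeFactorsList hq
  obtain ⟨y, hy⟩ := hva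
  have h3 : (q : ℤ) ^ 2 = N v * N y := by
    rw [← N_natCast, hy, N_mul]
  have h4 : (N v).natAbs ∣ q ^ 2 := by
    have h5 : (N v).natAbs * (N y).natAbs = q ^ 2 := by
      have h6 := congrArg Int.natAbs h3
      rw [Int.natAbs_mul, Int.natAbs_pow, Int.natAbs_natCast] at h6
      exact h6.symm
    exact ⟨_, h5.symm⟩
  rw [Nat.dvd_prime_pow hqp] at h4
  obtain ⟨k, hk, hk'⟩ := h4
  have hnu : (N v).natAbs ≠ 1 := by
    intro h
    exact hp.not_isUnit (isUnit_iff.mpr h)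
  have hk3 : k = 0 ∨ k = 1 ∨ k = 2 := by omega
  rcases hk3 with rfl | rfl | rfl
  · rw [pow_zero] at hk'
    exact absurd hk' hnu
  · left
    rw [hk', pow_one]
    exact hqp
  · right
    have h5 : (N y).natAbs = 1 := by
      have h6 := congrArg Int.natAbs h3
      rw [Int.natAbs_mul, Int.natAbs_pow, Int.natAbs_natCast, hk'] at h6
      have h7 : 0 < q ^ 2 := pow_pos hqp.pos 2
      have h8 : q ^ 2 * 1 = q ^ 2 * (N y).natAbs := by rw [mul_one]; exact h6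
      exact (Nat.eq_of_mul_eq_mul_left h7 h8).symm
    have h6 : IsUnit y := isUnit_iff.mpr h5
    have hqQ : Qd ((q : ℕ) : O) := by
      unfold Qd
      rw [QuadraticAlgebra.re_natCast, QuadraticAlgebra.im_natCast]
      exact ⟨by exact_mod_cast hqp.pos, le_rfl⟩
    have h7 : Ideal.span {v} = Ideal.span ({((q : ℕ) : O)} : Set O) := by
      rw [Ideal.span_singleton_eq_span_singleton]
      exact ⟨h6.unit, by rw [IsUnit.unit_spec]; exact hy.symm⟩
    have h8 := gen_unique hv hqQ h7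
    rw [h8, QuadraticAlgebra.im_natCast]

private theorem EuB_log (f : ℂ) (hf : ‖f‖ < 1) : Real.exp (f.re - ‖f‖ ^ 2) ≤ ‖(1 - f)⁻¹‖ := by
  have hne : 1 - f ≠ 0 := by
    intro h
    have h1 : f = 1 := (sub_eq_zero.mp h).symm
    rw [h1, norm_one] at hf
    exact lt_irrefl _ hf
  have hpos : 0 < ‖1 - f‖ := norm_pos_iff.mpr hne
  have hsq : ‖1 - f‖ ^ 2 = 1 + (-2 * f.re + ‖f‖ ^ 2) := by
    rw [← Complex.normSq_eq_norm_sq, ← Complex.normSq_eq_norm_sq, Complex.normSq_apply, Complex.normSq_apply]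
    simp only [Complex.sub_re, Complex.one_re, Complex.sub_im, Complex.one_im]
    ring
  have h1 : ‖1 - f‖ ^ 2 ≤ Real.exp (-f.re + ‖f‖ ^ 2) ^ 2 := by
    rw [hsq, ← Real.exp_nat_mul]
    have h2 := Real.add_one_le_exp (-2 * f.re + ‖f‖ ^ 2)
    have h3 : Real.exp (-2 * f.re + ‖f‖ ^ 2) ≤ Real.exp (((2 : ℕ) : ℝ) * (-f.re + ‖f‖ ^ 2)) := by
      apply Real.exp_le_exp.mpr
      push_cast
      nlinarith [sq_nonneg ‖f‖]
    linarith
  have h2 : ‖1 - f‖ ≤ Real.exp (-f.re + ‖f‖ ^ 2) := (pow_le_pow_iff_left₀ hpos.le (Real.exp_pos _).le (by norm_num)).mp h1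
  rw [norm_inv]
  rw [show f.re - ‖f‖ ^ 2 = -(-f.re + ‖f‖ ^ 2) by ring, Real.exp_neg]
  exact inv_anti₀ hpos h2

private theorem EuB_PP {D : ℕ} (h5 : 5 ∣ D) {g : O → ℂ} (hg : Comp g) {L : ℝ} (hL : 1 ≤ L) :
    ∑ p ∈ PP D (Real.exp L), (g p).re / (N p : ℝ) - 18 ≤
      ∑ p ∈ PP D (Real.exp L), (g p * (((N p : ℝ) ^ (-(1 + 1 / L)) : ℝ) : ℂ)).re := by
  have hL0 : 0 < L := by linarith
  have h1 : ∀ p ∈ PP D (Real.exp L), (g p).re / (N p : ℝ) -
      (g p * (((N p : ℝ) ^ (-(1 + 1 / L)) : ℝ) : ℂ)).re ≤ (1 / L) * (Real.log (N p) / (N p : ℝ)) := by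
    intro p hp
    rw [mem_PP] at hp
    have hN := EuB_Npos hp.1.1
    have hN1 := EuB_Nge hp.1.1
    rw [Complex.re_mul_ofReal, EuB_rpow hN]
    have h2 : |(g p).re| ≤ 1 := (Complex.abs_re_le_norm _).trans (hg.le p)
    have h3 : 1 - Real.log (N p) / L ≤ Real.exp (-(Real.log (N p) / L)) := by
      have := Real.add_one_le_exp (-(Real.log (N p) / L))
      linarith
    have h4 : Real.exp (-(Real.log (N p) / L)) ≤ 1 := by
      rw [Real.exp_le_one_iff]
      have : 0 ≤ Real.log (N p) / L := div_nonneg (Real.log_nonneg hN1) hL0.le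
      linarith
    have h5 : (g p).re / (N p : ℝ) - (g p).re * ((N p : ℝ)⁻¹ * Real.exp (-(Real.log (N p) / L))) =
        (g p).re * ((1 - Real.exp (-(Real.log (N p) / L))) * (N p : ℝ)⁻¹) := by
      rw [div_eq_mul_inv]
      ring
    rw [h5]
    have hinv : 0 ≤ (N p : ℝ)⁻¹ := inv_nonneg.mpr hN.le
    have h6 : 0 ≤ (1 - Real.exp (-(Real.log (N p) / L))) * (N p : ℝ)⁻¹ := mul_nonneg (by linarith) hinv
    calc (g p).re * ((1 - Real.exp (-(Real.log (N p) / L))) * (N p : ℝ)⁻¹)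
        ≤ 1 * ((1 - Real.exp (-(Real.log (N p) / L))) * (N p : ℝ)⁻¹) :=
          mul_le_mul_of_nonneg_right ((le_abs_self _).trans h2) h6
      _ ≤ (Real.log (N p) / L) * (N p : ℝ)⁻¹ := by
          rw [one_mul]
          exact mul_le_mul_of_nonneg_right (by linarith) hinv
      _ = (1 / L) * (Real.log (N p) / (N p : ℝ)) := by
          rw [div_eq_mul_inv, div_eq_mul_inv, div_eq_mul_inv]
          ring
  have h2 := sum_le_sum h1
  rw [sum_sub_distrib, ← mul_sum] at h2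
  have h3 := sum_log_PP h5 (z := Real.exp L) (Real.one_le_exp hL0.le)
  rw [Real.log_exp] at h3
  have h4 : (1 / L) * ∑ p ∈ PP D (Real.exp L), Real.log (N p) / (N p : ℝ) ≤ 18 := by
    calc (1 / L) * ∑ p ∈ PP D (Real.exp L), Real.log (N p) / (N p : ℝ) ≤ (1 / L) * (18 * L) :=
          mul_le_mul_of_nonneg_left (by linarith) (by positivity)
      _ = 18 := by field_simp
  linarith

private theorem EuB_term {g : O → ℂ} (hg : Comp g) {L : ℝ} (hL : 1 ≤ L) {v : O} (hv : Qd v) :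
    ‖g v * (((N v : ℝ) ^ (-(1 + 1 / L)) : ℝ) : ℂ)‖ ≤ (N v : ℝ) ^ (-(1 + 1 / L)) ∧
    (N v : ℝ) ^ (-(1 + 1 / L)) ≤ 1 / (N v : ℝ) ∧ 0 ≤ (N v : ℝ) ^ (-(1 + 1 / L)) := by
  have hN := EuB_Npos hv
  have hN1 := EuB_Nge hv
  have h0 : 0 ≤ (N v : ℝ) ^ (-(1 + 1 / L)) := Real.rpow_nonneg hN.le _
  refine ⟨?_, ?_, h0⟩
  · rw [norm_mul, Complex.norm_real, Real.norm_of_nonneg h0]
    calc ‖g v‖ * (N v : ℝ) ^ (-(1 + 1 / L)) ≤ 1 * (N v : ℝ) ^ (-(1 + 1 / L)) :=
          mul_le_mul_of_nonneg_right (hg.le v) h0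
      _ = _ := one_mul _
  · have h1 : 1 / (N v : ℝ) = (N v : ℝ) ^ (-1 : ℝ) := by rw [Real.rpow_neg_one, one_div]
    rw [h1]
    apply Real.rpow_le_rpow_of_exponent_le hN1
    have : 0 ≤ 1 / L := by positivity
    linarith

open Classical in
private theorem EuB_main {D : ℕ} (h5 : 5 ∣ D) (hD : 0 < D) {g : O → ℂ} (hg : Comp g) {L : ℝ} (hL : 1 ≤ L)
    (G : Finset O) (hG : ∀ v ∈ G, Qd v) (hG2 : ∀ v ∈ G, (N v).natAbs.Prime ∨ v.im = 0)
    (hG3 : PP D (Real.exp L) ⊆ G) :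
    ∑ p ∈ PP D (Real.exp L), (g p).re / (N p : ℝ) - (18 + (V (D : ℝ)).card + 40 + ∑' n : ℕ, 1 / (n : ℝ) ^ 2 +
      ∑' v : {v : O // Qd v}, (N v.1 : ℝ) ^ (-(2 : ℝ))) ≤
    ∑ v ∈ G, ((g v * (((N v : ℝ) ^ (-(1 + 1 / L)) : ℝ) : ℂ)).re - ‖g v * (((N v : ℝ) ^ (-(1 + 1 / L)) : ℝ) : ℂ)‖ ^ 2) := by
  set f : O → ℂ := fun v => g v * (((N v : ℝ) ^ (-(1 + 1 / L)) : ℝ) : ℂ) with hf
  have hL0 : 0 < L := by linarith
  have s1 : ∑ v ∈ G, ‖f v‖ ^ 2 ≤ ∑' v : {v : O // Qd v}, (N v.1 : ℝ) ^ (-(2 : ℝ)) := by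
    refine le_trans (sum_le_sum (fun v hv => ?_)) (EuB_sq G hG)
    obtain ⟨h1, h2, h3⟩ := EuB_term hg hL (hG v hv)
    have h4 : ‖f v‖ ≤ 1 / (N v : ℝ) := h1.trans h2
    have h6 : (N v : ℝ) ^ (-(2 : ℝ)) = (1 / (N v : ℝ)) ^ 2 := by
      rw [Real.rpow_neg (EuB_Npos (hG v hv)).le, one_div, inv_pow]
      congr 1
      exact_mod_cast Real.rpow_natCast (N v : ℝ) 2
    rw [h6]
    exact pow_le_pow_left₀ (norm_nonneg _) h4 2
  have s2 : ∑ v ∈ G, (f v).re = ∑ v ∈ PP D (Real.exp L), (f v).re + ∑ v ∈ G \ PP D (Real.exp L), (f v).re := by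
    rw [add_comm, sum_sdiff hG3]
  have s3 : -∑ v ∈ G \ PP D (Real.exp L), ‖f v‖ ≤ ∑ v ∈ G \ PP D (Real.exp L), (f v).re := by
    rw [← sum_neg_distrib]
    apply sum_le_sum
    intro v _
    have := Complex.abs_re_le_norm (f v)
    linarith [neg_abs_le (f v).re]
  have s4 : ∑ v ∈ G \ PP D (Real.exp L), ‖f v‖ ≤ (V (D : ℝ)).card + 40 + ∑' n : ℕ, 1 / (n : ℝ) ^ 2 := by
    have h1 : ∀ v ∈ G \ PP D (Real.exp L), ‖f v‖ ≤ (if (N v : ℝ) ≤ D then 1 else 0) +
        ((if Dg D v ∧ Real.exp L < (N v : ℝ) then (N v : ℝ) ^ (-(1 + 1 / L)) else 0) +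
        (if v.im = 0 then 1 / (N v : ℝ) else 0)) := by
      intro v hv
      rw [Finset.mem_sdiff] at hv
      obtain ⟨t1, t2, t3⟩ := EuB_term hg hL (hG v hv.1)
      have hN := EuB_Npos (hG v hv.1)
      have hN1 := EuB_Nge (hG v hv.1)
      have c1 : (0 : ℝ) ≤ (if (N v : ℝ) ≤ D then 1 else 0) := by split_ifs <;> norm_num
      have c2 : (0 : ℝ) ≤ (if Dg D v ∧ Real.exp L < (N v : ℝ) then (N v : ℝ) ^ (-(1 + 1 / L)) else 0) := by
        split_ifs
        · exact t3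
        · exact le_rfl
      have c3 : (0 : ℝ) ≤ (if v.im = 0 then 1 / (N v : ℝ) else 0) := by
        split_ifs
        · positivity
        · exact le_rfl
      have t4 : ‖f v‖ ≤ (N v : ℝ) ^ (-(1 + 1 / L)) := t1
      rcases hG2 v hv.1 with h | h
      · by_cases hdv : (N v).natAbs ∣ D
        · have h2 : (N v : ℝ) ≤ D := by
            have h3 := Nat.le_of_dvd hD hdv
            have h4 : (N v : ℤ) ≤ (D : ℤ) := by
              have := Int.le_natAbs (a := N v)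
              omega
            exact_mod_cast h4
          rw [if_pos h2]
          have h6 : 1 / (N v : ℝ) ≤ 1 := by
            rw [div_le_one hN]
            exact hN1
          linarith
        · have h2 : Dg D v ∧ Real.exp L < (N v : ℝ) := by
            refine ⟨⟨hG v hv.1, h, hdv⟩, ?_⟩
            by_contra h3
            exact hv.2 (mem_PP.mpr ⟨⟨hG v hv.1, h, hdv⟩, not_lt.mp h3⟩)
          rw [if_pos h2]
          linarith
      · rw [if_pos h]
        linarith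
    refine (sum_le_sum h1).trans ?_
    have h2 : ∑ v ∈ G \ PP D (Real.exp L), ((if (N v : ℝ) ≤ D then (1 : ℝ) else 0) +
        ((if Dg D v ∧ Real.exp L < (N v : ℝ) then (N v : ℝ) ^ (-(1 + 1 / L)) else 0) +
        (if v.im = 0 then 1 / (N v : ℝ) else 0))) ≤ ∑ v ∈ G, ((if (N v : ℝ) ≤ D then (1 : ℝ) else 0) +
        ((if Dg D v ∧ Real.exp L < (N v : ℝ) then (N v : ℝ) ^ (-(1 + 1 / L)) else 0) +
        (if v.im = 0 then 1 / (N v : ℝ) else 0))) := by
      apply sum_le_sum_of_subset_of_nonneg sdiff_subset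
      intro v hv _
      obtain ⟨t1, t2, t3⟩ := EuB_term hg hL (hG v hv)
      have hN := EuB_Npos (hG v hv)
      apply add_nonneg
      · split_ifs <;> norm_num
      · apply add_nonneg
        · split_ifs
          · exact t3
          · exact le_rfl
        · split_ifs
          · positivity
          · exact le_rfl
    refine h2.trans ?_
    rw [sum_add_distrib, sum_add_distrib, ← sum_filter, ← sum_filter, ← sum_filter]
    have u1 : ∑ v ∈ G.filter (fun v => (N v : ℝ) ≤ D), (1 : ℝ) ≤ (V (D : ℝ)).card := by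
      rw [sum_const, nsmul_eq_mul, mul_one]
      have : (G.filter (fun v => (N v : ℝ) ≤ D)).card ≤ (V (D : ℝ)).card := by
        apply card_le_card
        intro v hv
        rw [mem_filter] at hv
        exact mem_V.mpr ⟨hG v hv.1, hv.2⟩
      exact_mod_cast this
    have u2 := EuB_tail h5 hL G hG
    have u3 := EuB_im G hG
    linarith
  have s5 := EuB_PP h5 hg hL
  rw [sum_sub_distrib]
  have s5' : ∑ p ∈ PP D (Real.exp L), (g p).re / (N p : ℝ) - 18 ≤ ∑ p ∈ PP D (Real.exp L), (f p).re := s5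
  rw [show ∑ v ∈ G, (g v * (((N v : ℝ) ^ (-(1 + 1 / L)) : ℝ) : ℂ)).re = ∑ v ∈ G, (f v).re from rfl, s2]
  linarith

private noncomputable def EuB_w (p : O) (h : (N p).natAbs.Prime) : HeightOneSpectrum O where
  asIdeal := Ideal.span {p}
  isPrime := (Ideal.span_singleton_prime (prime_of_norm h).ne_zero).mpr (prime_of_norm h)
  ne_bot := by
    intro h'
    rw [Ideal.span_singleton_eq_bot] at h'
    exact (prime_of_norm h).ne_zero h'

theorem euler {D : ℕ} (h5 : 5 ∣ D) (hD : 0 < D) : ∃ C : ℝ, 0 < C ∧ ∀ (g : O → ℂ) (_ : Comp g) (L : ℝ), 1 ≤ L →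
    Real.exp (∑ p ∈ PP D (Real.exp L), (g p).re / (N p : ℝ)) ≤
      C * ‖∑' v : {v : O // Qd v}, g v.1 * (((N v.1 : ℝ) ^ (-(1 + 1 / L)) : ℝ) : ℂ)‖ := by
  classical
  set C0 : ℝ := 18 + (V (D : ℝ)).card + 40 + ∑' n : ℕ, 1 / (n : ℝ) ^ 2 +
      ∑' v : {v : O // Qd v}, (N v.1 : ℝ) ^ (-(2 : ℝ)) with hC0
  refine ⟨Real.exp C0, Real.exp_pos _, ?_⟩
  intro g hg L hL
  have hL0 : 0 < L := by linarith
  have hσ : 1 < 1 + 1 / L := by
    have : 0 < 1 / L := by positivity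
    linarith
  have hprod := hasProd_V hg hσ
  set Λ := ∑' v : {v : O // Qd v}, g v.1 * (((N v.1 : ℝ) ^ (-(1 + 1 / L)) : ℝ) : ℂ) with hΛ
  set S := ∑ p ∈ PP D (Real.exp L), (g p).re / (N p : ℝ) with hS
  have hsp : ∀ w : HeightOneSpectrum O, Qd (gen w.asIdeal) ∧ w.asIdeal = Ideal.span {gen w.asIdeal} :=
    fun w => gen_spec w.ne_bot
  have hinj : ∀ w w' : HeightOneSpectrum O, gen w.asIdeal = gen w'.asIdeal → w = w' := by
    intro w w' h
    apply HeightOneSpectrum.ext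
    rw [(hsp w).2, (hsp w').2, h]
  have hprime : ∀ w : HeightOneSpectrum O, Prime (gen w.asIdeal) := by
    intro w
    have h1 := w.isPrime
    rw [(hsp w).2] at h1
    have hne : gen w.asIdeal ≠ 0 := (hsp w).1.tp.ne_zero
    exact (Ideal.span_singleton_prime hne).mp h1
  have hlt : ∀ w : HeightOneSpectrum O,
      ‖g (gen w.asIdeal) * (((N (gen w.asIdeal) : ℝ) ^ (-(1 + 1 / L)) : ℝ) : ℂ)‖ < 1 := by
    intro w
    obtain ⟨t1, t2, t3⟩ := EuB_term hg hL (hsp w).1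
    have hN := EuB_Npos (hsp w).1
    have h1 : (N (gen w.asIdeal)).natAbs ≠ 1 := fun h => (hprime w).not_isUnit (isUnit_iff.mpr h)
    have h2 : 1 < N (gen w.asIdeal) := by
      have h3 := (hsp w).1.tp.N_pos
      omega
    have h3 : (1 : ℝ) < (N (gen w.asIdeal) : ℝ) := by exact_mod_cast h2
    have h4 : 1 / (N (gen w.asIdeal) : ℝ) < 1 := by
      rw [div_lt_one hN]
      exact h3
    linarith
  have key : Real.exp (S - C0) ≤ ‖Λ‖ := by
    have ht : Tendsto (fun T : Finset (HeightOneSpectrum O) => ‖∏ w ∈ T,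
        (1 - g (gen w.asIdeal) * (((N (gen w.asIdeal) : ℝ) ^ (-(1 + 1 / L)) : ℝ) : ℂ))⁻¹‖) atTop (𝓝 ‖Λ‖) := by
      have h1 := hprod
      unfold HasProd at h1
      rw [SummationFilter.unconditional_filter] at h1
      exact h1.norm
    refine ge_of_tendsto ht ?_
    filter_upwards [eventually_ge_atTop ((PP D (Real.exp L)).attach.image
      (fun p => EuB_w p.1 (mem_PP.mp p.2).1.2.1))] with T hT
    rw [norm_prod]
    have h1 : Real.exp (∑ w ∈ T, ((g (gen w.asIdeal) * (((N (gen w.asIdeal) : ℝ) ^ (-(1 + 1 / L)) : ℝ) : ℂ)).re -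
        ‖g (gen w.asIdeal) * (((N (gen w.asIdeal) : ℝ) ^ (-(1 + 1 / L)) : ℝ) : ℂ)‖ ^ 2)) ≤
        ∏ w ∈ T, ‖(1 - g (gen w.asIdeal) * (((N (gen w.asIdeal) : ℝ) ^ (-(1 + 1 / L)) : ℝ) : ℂ))⁻¹‖ := by
      rw [Real.exp_sum]
      apply Finset.prod_le_prod
      · intro w _
        exact (Real.exp_pos _).le
      · intro w _
        exact EuB_log _ (hlt w)
    refine le_trans ?_ h1
    apply Real.exp_le_exp.mpr
    have h2 := EuB_main h5 hD hg hL (T.image (fun w => gen w.asIdeal))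
      (by
        intro v hv
        rw [mem_image] at hv
        obtain ⟨w, -, rfl⟩ := hv
        exact (hsp w).1)
      (by
        intro v hv
        rw [mem_image] at hv
        obtain ⟨w, -, rfl⟩ := hv
        exact EuB_class (hsp w).1 (hprime w))
      (by
        intro p hp
        rw [mem_image]
        refine ⟨EuB_w p (mem_PP.mp hp).1.2.1, hT ?_, ?_⟩
        · rw [mem_image]
          exact ⟨⟨p, hp⟩, mem_attach _ _, rfl⟩
        · have h3 := hsp (EuB_w p (mem_PP.mp hp).1.2.1)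
          exact (gen_unique (mem_PP.mp hp).1.1 h3.1 h3.2).symm)
    rw [sum_image (fun w _ w' _ h => hinj w w' h)] at h2
    exact h2
  have h3 : Real.exp S = Real.exp C0 * Real.exp (S - C0) := by
    rw [← Real.exp_add]
    congr 1
    ring
  rw [h3]
  exact mul_le_mul_of_nonneg_left key (Real.exp_pos _).le

end Pool.Agent.Lib.MP_d57abb_nt.MR
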