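import Mathlib
import Pool.Agent.Lib.MP_d57abb_nt.MR.EuA

/-!
# JOB EuC: Abel summation for the Dirichlet series over the quadrant

Let `h : O → ℂ`, `‖h‖ ≤ 1`, `A n = ∑_{v ∈ V n, N v = n} h v` (natural `n`), so `∑_{v ∈ V t} h v = ∑_{k ∈ Icc 1 ⌊t⌋₊} A k` and `∑_{v} h v (N v)^(-s) = ∑_n A n n^(-s)` (`HasSum` over
the fibres of the norm; absolutely convergent by `summable_V`).  `LSeries_eq_mul_integral` (Mathlib/NumberTheory/LSeries/SumCoeff.lean) with `r = 1`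
(`∑_{k ≤ n} ‖A k‖ ≤ #V(n) ≤ C n`) gives the formula `abel_eq`.  (`n = 0`: `A 0 = 0`.)  `(N v : ℂ)^(-s)` is written as `((N v)^(-σ) : ℝ) * (N v : ℂ)^(-(τ I))`.
* `L_bound`: take norms: `‖S t‖ ≤ min (C₁ t) ...`: `∫_1^{y₁} C₁ t t^(-σ-1) dt ≤ C₁ log y₁` (`t^(-σ) ≤ t^(-1)`), `∫_{y₁}^∞ C₂ t^(1-η) t^(-σ-1) dt ≤ C₂ / η` (`σ ≥ 1`, `y₁ ≥ 1`).
  And `|s| ≤ 2 + |τ|`.
* `L_zeta`: `S t = c0 t + O(t^(3/4))` (`card_V`): `s c0 ∫_1^∞ t^(-s) dt = c0 s / (s - 1)`, error `≤ |s| C ∫ t^(3/4 - σ - 1) ≤ 4 C |s|`.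
-/

namespace Pool.Agent.Lib.MP_d57abb_nt.MR

open Finset MeasureTheory

private noncomputable def EuC_A (h : O → ℂ) (n : ℕ) : ℂ :=
  ∑ v ∈ (V (n : ℝ)).filter (fun v => N v = (n : ℤ)), h v

private noncomputable def EuC_F (h : O → ℂ) (σ τ : ℝ) (v : O) : ℂ :=
  h v * (N v : ℂ) ^ (-(τ * Complex.I)) * (((N v : ℝ) ^ (-σ) : ℝ) : ℂ)

private theorem EuC_pos {v : O} (hv : Qd v) : 0 < N v := hv.tp.N_pos

private theorem EuC_sum (h : O → ℂ) (t : ℝ) :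
    ∑ v ∈ V t, h v = ∑ k ∈ Icc 1 ⌊t⌋₊, EuC_A h k := by
  rw [← Finset.sum_fiberwise_of_maps_to (s := V t) (t := Icc 1 ⌊t⌋₊) (g := fun v => (N v).toNat)]
  · refine Finset.sum_congr rfl fun k hk => ?_
    unfold EuC_A
    refine Finset.sum_congr ?_ fun _ _ => rfl
    rw [Finset.mem_Icc] at hk
    have hkt : (k : ℝ) ≤ t := (Nat.le_floor_iff' (by omega)).1 hk.2
    ext v
    rw [Finset.mem_filter, Finset.mem_filter, mem_V, mem_V]
    constructor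
    · rintro ⟨⟨hq, hN⟩, hk'⟩
      have h1 := EuC_pos hq
      have h2 : N v = (k : ℤ) := by omega
      refine ⟨⟨hq, ?_⟩, h2⟩
      rw [h2]
      push_cast
      exact le_rfl
    · rintro ⟨⟨hq, hN⟩, hk'⟩
      refine ⟨⟨hq, hN.trans hkt⟩, ?_⟩
      rw [hk']
      exact Int.toNat_natCast k
  · intro v hv
    rw [mem_V] at hv
    have h1 := EuC_pos hv.1
    rw [Finset.mem_Icc]
    refine ⟨by omega, ?_⟩
    rw [Nat.le_floor_iff' (by omega)]
    have h2 : (((N v).toNat : ℤ) : ℝ) = (N v : ℝ) := by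
      rw [Int.toNat_of_nonneg h1.le]
    rw [← Int.cast_natCast, h2]
    exact hv.2

private theorem EuC_normF {h : O → ℂ} (hb : ∀ v, ‖h v‖ ≤ 1) (σ τ : ℝ) {v : O} (hv : Qd v) :
    ‖EuC_F h σ τ v‖ ≤ (N v : ℝ) ^ (-σ) := by
  have h1 : (0 : ℝ) < (N v : ℝ) := by exact_mod_cast EuC_pos hv
  have h2 : (N v : ℂ) = ((N v : ℝ) : ℂ) := by push_cast; rfl
  unfold EuC_F
  rw [norm_mul, norm_mul, h2, Complex.norm_cpow_eq_rpow_re_of_pos h1]
  have h3 : (-(τ * Complex.I) : ℂ).re = 0 := by simp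
  rw [h3, Real.rpow_zero, mul_one, Complex.norm_real, Real.norm_of_nonneg (Real.rpow_nonneg h1.le _)]
  calc ‖h v‖ * (N v : ℝ) ^ (-σ) ≤ 1 * (N v : ℝ) ^ (-σ) :=
        mul_le_mul_of_nonneg_right (hb v) (Real.rpow_nonneg h1.le _)
    _ = (N v : ℝ) ^ (-σ) := one_mul _

private theorem EuC_hasSum {h : O → ℂ} (hb : ∀ v, ‖h v‖ ≤ 1) {σ : ℝ} (τ : ℝ) (hσ : 1 < σ) :
    LSeriesHasSum (EuC_A h) ((σ : ℂ) + τ * Complex.I) (∑' v : {v : O // Qd v}, EuC_F h σ τ v.1) := by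
  have hs : Summable (fun v : {v : O // Qd v} => EuC_F h σ τ v.1) :=
    Summable.of_norm_bounded (summable_V hσ) fun v => EuC_normF hb σ τ v.2
  have h1 : HasSum (Set.indicator {v : O | Qd v} (EuC_F h σ τ))
      (∑' v : {v : O // Qd v}, EuC_F h σ τ v.1) :=
    (hasSum_subtype_iff_indicator (f := EuC_F h σ τ) (s := {v : O | Qd v})).mp hs.hasSum
  have h2 := h1.tsum_fiberwise (fun v => (N v).toNat)
  have h3 : (fun n : ℕ => ∑' b : ((fun v : O => (N v).toNat) ⁻¹' {n} : Set O),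
      Set.indicator {v : O | Qd v} (EuC_F h σ τ) b.1) =
      LSeries.term (EuC_A h) ((σ : ℂ) + τ * Complex.I) := by
    funext n
    rw [tsum_subtype ((fun v : O => (N v).toNat) ⁻¹' {n} : Set O)
      (Set.indicator {v : O | Qd v} (EuC_F h σ τ))]
    have h4 : ∀ v ∉ (V (n : ℝ)).filter (fun v => N v = (n : ℤ)),
        Set.indicator ((fun v : O => (N v).toNat) ⁻¹' {n} : Set O)
          (Set.indicator {v : O | Qd v} (EuC_F h σ τ)) v = 0 := by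
      intro v hv
      by_cases hq : Qd v
      · by_cases hN : (N v).toNat = n
        · exfalso
          apply hv
          have h5 := EuC_pos hq
          have h6 : N v = (n : ℤ) := by omega
          rw [Finset.mem_filter, mem_V]
          refine ⟨⟨hq, ?_⟩, h6⟩
          rw [h6]
          push_cast
          exact le_rfl
        · have hm : v ∉ ((fun v : O => (N v).toNat) ⁻¹' {n} : Set O) := hN
          exact Set.indicator_of_notMem hm _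
      · have hm : v ∉ ({v : O | Qd v} : Set O) := hq
        have h5 : Set.indicator {v : O | Qd v} (EuC_F h σ τ) v = 0 :=
          Set.indicator_of_notMem hm _
        by_cases hN : v ∈ ((fun v : O => (N v).toNat) ⁻¹' {n} : Set O)
        · rw [Set.indicator_of_mem hN, h5]
        · exact Set.indicator_of_notMem hN _
    rw [tsum_eq_sum h4]
    have h7 : ∀ v ∈ (V (n : ℝ)).filter (fun v => N v = (n : ℤ)),
        Set.indicator ((fun v : O => (N v).toNat) ⁻¹' {n} : Set O)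
          (Set.indicator {v : O | Qd v} (EuC_F h σ τ)) v = EuC_F h σ τ v := by
      intro v hv
      rw [Finset.mem_filter, mem_V] at hv
      have h8 : v ∈ ((fun v : O => (N v).toNat) ⁻¹' {n} : Set O) := by
        show (N v).toNat = n
        rw [hv.2]
        exact Int.toNat_natCast n
      have h9 : v ∈ {v : O | Qd v} := hv.1.1
      rw [Set.indicator_of_mem h8, Set.indicator_of_mem h9]
    rw [Finset.sum_congr rfl h7]
    rcases Nat.eq_zero_or_pos n with h0 | h0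
    · subst h0
      rw [LSeries.term_zero]
      have h10 : V ((0 : ℕ) : ℝ) = ∅ := V_empty (by norm_num)
      rw [h10]
      simp
    · rw [LSeries.term_of_ne_zero h0.ne', EuC_A, Finset.sum_div]
      refine Finset.sum_congr rfl fun v hv => ?_
      rw [Finset.mem_filter] at hv
      have hn : (n : ℂ) ≠ 0 := Nat.cast_ne_zero.mpr h0.ne'
      unfold EuC_F
      rw [hv.2]
      have h11 : ((((n : ℤ) : ℝ) ^ (-σ) : ℝ) : ℂ) = (n : ℂ) ^ (-(σ : ℂ)) := by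
        rw [Int.cast_natCast, Complex.ofReal_cpow (Nat.cast_nonneg n)]
        push_cast
        rfl
      rw [h11, Int.cast_natCast, mul_assoc, ← Complex.cpow_add _ _ hn, div_eq_mul_inv,
        ← Complex.cpow_neg]
      congr 2
      ring
  unfold LSeriesHasSum
  rw [← h3]
  exact h2

private theorem EuC_card {h : O → ℂ} (hb : ∀ v, ‖h v‖ ≤ 1) (t : ℝ) :
    ‖∑ v ∈ V t, h v‖ ≤ ((V t).card : ℝ) := by
  calc ‖∑ v ∈ V t, h v‖ ≤ ∑ v ∈ V t, ‖h v‖ := norm_sum_le _ _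
    _ ≤ ∑ v ∈ V t, (1 : ℝ) := Finset.sum_le_sum fun v _ => hb v
    _ = ((V t).card : ℝ) := by simp

theorem abel_eq {h : O → ℂ} (hb : ∀ v, ‖h v‖ ≤ 1) {σ : ℝ} (τ : ℝ) (hσ : 1 < σ) :
    ∑' v : {v : O // Qd v}, h v.1 * (N v.1 : ℂ) ^ (-(τ * Complex.I)) * (((N v.1 : ℝ) ^ (-σ) : ℝ) : ℂ) =
      ((σ : ℂ) + τ * Complex.I) * ∫ t in Set.Ioi (1 : ℝ), (∑ v ∈ V t, h v) * (t : ℂ) ^ (-((σ : ℂ) + τ * Complex.I) - 1) := by
  have h1 := EuC_hasSum hb τ hσ
  have h2 : ∑' v : {v : O // Qd v}, h v.1 * (N v.1 : ℂ) ^ (-(τ * Complex.I)) * (((N v.1 : ℝ) ^ (-σ) : ℝ) : ℂ) =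
      LSeries (EuC_A h) ((σ : ℂ) + τ * Complex.I) := h1.LSeries_eq.symm
  rw [h2]
  have hre : ((σ : ℂ) + τ * Complex.I).re = σ := by simp
  obtain ⟨C, hC1, hC⟩ := card_V_le
  have hO : (fun n : ℕ => ∑ k ∈ Icc 1 n, EuC_A h k) =O[Filter.atTop] fun n : ℕ => (n : ℝ) ^ (1 : ℝ) := by
    refine Asymptotics.IsBigO.of_bound C (Filter.Eventually.of_forall fun n => ?_)
    have h3 := EuC_sum h (n : ℝ)
    rw [Nat.floor_natCast] at h3
    rw [← h3, Real.rpow_one, Real.norm_of_nonneg (Nat.cast_nonneg n)]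
    exact (EuC_card hb _).trans (hC _ (Nat.cast_nonneg n))
  rw [LSeries_eq_mul_integral (EuC_A h) (r := 1) zero_le_one (by rw [hre]; exact hσ)
    h1.LSeriesSummable hO]
  congr 1
  refine setIntegral_congr_fun measurableSet_Ioi fun t _ => ?_
  show (∑ k ∈ Icc 1 ⌊t⌋₊, EuC_A h k) * (t : ℂ) ^ (-(((σ : ℂ) + τ * Complex.I) + 1)) = _
  rw [← EuC_sum h t]
  congr 2
  ring

private theorem EuC_norm_s {σ τ : ℝ} (hσ : 1 < σ) (hσ2 : σ ≤ 2) :
    ‖(σ : ℂ) + τ * Complex.I‖ ≤ 2 + |τ| := by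
  refine (norm_add_le _ _).trans ?_
  rw [norm_mul, Complex.norm_real, Complex.norm_real, Complex.norm_I, mul_one, Real.norm_eq_abs,
    Real.norm_eq_abs, abs_of_pos (by linarith)]
  linarith

private theorem EuC_norm_t {σ τ t : ℝ} (ht : 0 < t) :
    ‖(t : ℂ) ^ (-((σ : ℂ) + τ * Complex.I) - 1)‖ = t ^ (-σ - 1) := by
  rw [Complex.norm_cpow_eq_rpow_re_of_pos ht]
  congr 1
  simp

private noncomputable def EuC_g (C₁ C₂ y₁ η t : ℝ) : ℝ :=
  if t ≤ y₁ then C₁ * t⁻¹ else C₂ * t ^ (-η - 1)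

private theorem EuC_g1 {C₁ C₂ y₁ η : ℝ} (hy : 1 ≤ y₁) :
    IntegrableOn (EuC_g C₁ C₂ y₁ η) (Set.Ioc 1 y₁) ∧
      ∫ t in Set.Ioc 1 y₁, EuC_g C₁ C₂ y₁ η t = C₁ * Real.log y₁ := by
  have h0 : (0 : ℝ) ∉ Set.uIcc 1 y₁ := by
    rw [Set.uIcc_of_le hy]
    intro h
    linarith [h.1]
  have h1 : Set.EqOn (EuC_g C₁ C₂ y₁ η) (fun t => C₁ * t⁻¹) (Set.Ioc 1 y₁) := by
    intro t ht
    unfold EuC_g
    rw [if_pos ht.2]
  have h2 : IntervalIntegrable (fun t : ℝ => t⁻¹) volume 1 y₁ :=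
    intervalIntegral.intervalIntegrable_inv (fun x hx => by
      intro hx0
      rw [hx0] at hx
      exact h0 hx) continuousOn_id
  have h3 : IntegrableOn (fun t : ℝ => t⁻¹) (Set.Ioc 1 y₁) :=
    (intervalIntegrable_iff_integrableOn_Ioc_of_le hy).mp h2
  have h5 : IntegrableOn (fun t : ℝ => C₁ * t⁻¹) (Set.Ioc 1 y₁) := h3.const_mul C₁
  refine ⟨h5.congr_fun h1.symm measurableSet_Ioc, ?_⟩
  rw [setIntegral_congr_fun measurableSet_Ioc h1, integral_const_mul,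
    ← intervalIntegral.integral_of_le hy, integral_inv h0, div_one]

private theorem EuC_g2 {C₁ C₂ y₁ η : ℝ} (hy : 1 ≤ y₁) (hη : 0 < η) :
    IntegrableOn (EuC_g C₁ C₂ y₁ η) (Set.Ioi y₁) ∧
      ∫ t in Set.Ioi y₁, EuC_g C₁ C₂ y₁ η t = C₂ * (y₁ ^ (-η) / η) := by
  have hy0 : 0 < y₁ := by linarith
  have h1 : Set.EqOn (EuC_g C₁ C₂ y₁ η) (fun t => C₂ * t ^ (-η - 1)) (Set.Ioi y₁) := by
    intro t ht
    unfold EuC_g
    rw [if_neg (not_le.mpr ht)]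
  have h3 : IntegrableOn (fun t : ℝ => t ^ (-η - 1)) (Set.Ioi y₁) :=
    integrableOn_Ioi_rpow_of_lt (by linarith) hy0
  have h5 : IntegrableOn (fun t : ℝ => C₂ * t ^ (-η - 1)) (Set.Ioi y₁) := h3.const_mul C₂
  refine ⟨h5.congr_fun h1.symm measurableSet_Ioi, ?_⟩
  rw [setIntegral_congr_fun measurableSet_Ioi h1, integral_const_mul,
    integral_Ioi_rpow_of_lt (by linarith) hy0]
  congr 1
  have h4 : -η - 1 + 1 = -η := by ring
  rw [h4, neg_div_neg_eq]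

theorem L_bound {h : O → ℂ} (hb : ∀ v, ‖h v‖ ≤ 1) {σ τ C₁ C₂ y₁ η : ℝ} (hσ : 1 < σ) (hσ2 : σ ≤ 2) (hy : 1 ≤ y₁) (hη : 0 < η)
    (h1 : ∀ t : ℝ, 1 ≤ t → ‖∑ v ∈ V t, h v‖ ≤ C₁ * t) (h2 : ∀ t : ℝ, y₁ ≤ t → ‖∑ v ∈ V t, h v‖ ≤ C₂ * t ^ (1 - η)) :
    ‖∑' v : {v : O // Qd v}, h v.1 * (N v.1 : ℂ) ^ (-(τ * Complex.I)) * (((N v.1 : ℝ) ^ (-σ) : ℝ) : ℂ)‖ ≤
      (2 + |τ|) * (C₁ * Real.log y₁ + C₂ / η) := by
  have hC₁ : 0 ≤ C₁ := by
    have h3 := (norm_nonneg _).trans (h1 1 le_rfl)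
    linarith
  have hy0 : 0 < y₁ := by linarith
  have hC₂ : 0 ≤ C₂ := by
    have h3 := (norm_nonneg _).trans (h2 y₁ le_rfl)
    have h4 : 0 < y₁ ^ (1 - η) := Real.rpow_pos_of_pos hy0 _
    exact nonneg_of_mul_nonneg_left h3 h4
  rw [abel_eq hb τ hσ, norm_mul]
  refine mul_le_mul (EuC_norm_s hσ hσ2) ?_ (norm_nonneg _) (by positivity)
  obtain ⟨hi1, he1⟩ := EuC_g1 (C₁ := C₁) (C₂ := C₂) (η := η) hy
  obtain ⟨hi2, he2⟩ := EuC_g2 (C₁ := C₁) (C₂ := C₂) hy hη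
  have hun : Set.Ioc 1 y₁ ∪ Set.Ioi y₁ = Set.Ioi (1 : ℝ) := Set.Ioc_union_Ioi_eq_Ioi hy
  have hdis : Disjoint (Set.Ioc 1 y₁) (Set.Ioi y₁) := Set.Ioc_disjoint_Ioi le_rfl
  have hint : IntegrableOn (EuC_g C₁ C₂ y₁ η) (Set.Ioi 1) := by
    rw [← hun]
    exact hi1.union hi2
  have hval : ∫ t in Set.Ioi (1 : ℝ), EuC_g C₁ C₂ y₁ η t = C₁ * Real.log y₁ + C₂ * (y₁ ^ (-η) / η) := by
    rw [← hun, setIntegral_union hdis measurableSet_Ioi hi1 hi2, he1, he2]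
  have hle : ‖∫ t in Set.Ioi (1 : ℝ), (∑ v ∈ V t, h v) * (t : ℂ) ^ (-((σ : ℂ) + τ * Complex.I) - 1)‖ ≤
      ∫ t in Set.Ioi (1 : ℝ), EuC_g C₁ C₂ y₁ η t := by
    refine norm_integral_le_of_norm_le hint ?_
    refine (ae_restrict_iff' measurableSet_Ioi).mpr (Filter.Eventually.of_forall fun t ht => ?_)
    have ht1 : 1 < t := ht
    have ht0 : 0 < t := by linarith
    rw [norm_mul, EuC_norm_t ht0]
    unfold EuC_g
    split_ifs with hty
    · calc ‖∑ v ∈ V t, h v‖ * t ^ (-σ - 1) ≤ (C₁ * t) * t ^ (-σ - 1) :=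
            mul_le_mul_of_nonneg_right (h1 t ht1.le) (Real.rpow_nonneg ht0.le _)
        _ ≤ (C₁ * t) * t ^ (-2 : ℝ) := by
            refine mul_le_mul_of_nonneg_left ?_ (by positivity)
            exact Real.rpow_le_rpow_of_exponent_le ht1.le (by linarith)
        _ = C₁ * t⁻¹ := by
            rw [mul_assoc]
            congr 1
            have h5 : t ^ (-2 : ℝ) = t⁻¹ * t⁻¹ := by
              rw [show (-2 : ℝ) = -1 + -1 by norm_num, Real.rpow_add ht0, Real.rpow_neg_one]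
            rw [h5, ← mul_assoc, mul_inv_cancel₀ ht0.ne', one_mul]
    · have hty' : y₁ ≤ t := (not_le.mp hty).le
      calc ‖∑ v ∈ V t, h v‖ * t ^ (-σ - 1) ≤ (C₂ * t ^ (1 - η)) * t ^ (-σ - 1) :=
            mul_le_mul_of_nonneg_right (h2 t hty') (Real.rpow_nonneg ht0.le _)
        _ = C₂ * t ^ (-η - σ) := by
            rw [mul_assoc, ← Real.rpow_add ht0]
            congr 2
            ring
        _ ≤ C₂ * t ^ (-η - 1) := by
            refine mul_le_mul_of_nonneg_left ?_ hC₂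
            exact Real.rpow_le_rpow_of_exponent_le ht1.le (by linarith)
  refine hle.trans ?_
  rw [hval]
  have h6 : y₁ ^ (-η) ≤ 1 := Real.rpow_le_one_of_one_le_of_nonpos hy (by linarith)
  have h7 : C₂ * (y₁ ^ (-η) / η) ≤ C₂ / η := by
    rw [div_eq_mul_one_div C₂ η]
    refine mul_le_mul_of_nonneg_left ?_ hC₂
    exact div_le_div_of_nonneg_right h6 hη.le
  linarith

private theorem EuC_meas : Measurable (fun t : ℝ => ((V t).card : ℝ)) := by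
  have h1 : Monotone (fun t : ℝ => ((V t).card : ℝ)) := by
    intro a b hab
    exact Nat.cast_le.mpr (Finset.card_le_card (V_mono hab))
  exact h1.measurable

theorem L_zeta : ∃ C : ℝ, 0 < C ∧ ∀ σ τ : ℝ, 1 < σ → σ ≤ 2 →
    ‖∑' v : {v : O // Qd v}, (N v.1 : ℂ) ^ (-(τ * Complex.I)) * (((N v.1 : ℝ) ^ (-σ) : ℝ) : ℂ)‖ ≤
      C * (2 + |τ|) * (1 / ‖(σ : ℂ) - 1 + τ * Complex.I‖ + 1) := by
  obtain ⟨C, hC0, hC⟩ := card_V
  obtain ⟨c0, hc0⟩ : ∃ c0 : ℝ, c0 = per / (2 * √5) := ⟨_, rfl⟩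
  have hc0pos : 0 < c0 := by
    rw [hc0]
    have := per_pos
    positivity
  rw [← hc0] at hC
  refine ⟨c0 + 4 * C, by positivity, fun σ τ hσ hσ2 => ?_⟩
  obtain ⟨s, hs⟩ : ∃ s : ℂ, s = (σ : ℂ) + τ * Complex.I := ⟨_, rfl⟩
  have hsre : s.re = σ := by rw [hs]; simp
  have hb : ∀ v : O, ‖(fun _ : O => (1 : ℂ)) v‖ ≤ 1 := fun v => by simp
  have h1 := abel_eq hb τ hσ
  simp only [one_mul, Finset.sum_const, nsmul_eq_mul, mul_one] at h1
  rw [h1, ← hs]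
  have hs1 : s - 1 ≠ 0 := by
    intro h0
    have h2 : (s - 1).re = 0 := by rw [h0]; rfl
    rw [Complex.sub_re, hsre, Complex.one_re] at h2
    linarith
  have hs1' : ‖(σ : ℂ) - 1 + τ * Complex.I‖ = ‖s - 1‖ := by
    congr 1
    rw [hs]
    ring
  rw [hs1']
  have hpos : 0 < ‖s - 1‖ := norm_pos_iff.mpr hs1
  -- main term
  have hre : (-s).re < -1 := by
    rw [Complex.neg_re, hsre]
    linarith
  have hi1 : IntegrableOn (fun t : ℝ => (c0 : ℂ) * (t : ℂ) ^ (-s)) (Set.Ioi 1) :=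
    (integrableOn_Ioi_cpow_of_lt hre zero_lt_one).const_mul _
  have hv1 : ∫ t : ℝ in Set.Ioi 1, (c0 : ℂ) * (t : ℂ) ^ (-s) = (c0 : ℂ) / (s - 1) := by
    rw [integral_const_mul, integral_Ioi_cpow_of_lt hre zero_lt_one, Complex.ofReal_one,
      Complex.one_cpow]
    have h3 : -s + 1 = -(s - 1) := by ring
    rw [h3, neg_div_neg_eq, mul_one_div]
  -- error term
  have hbd : ∀ t : ℝ, 1 < t →
      ‖(((V t).card : ℂ) - (c0 : ℂ) * t) * (t : ℂ) ^ (-s - 1)‖ ≤ C * t ^ (-(5 / 4) : ℝ) := by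
    intro t ht
    have ht0 : 0 < t := by linarith
    have h4 : ‖((V t).card : ℂ) - (c0 : ℂ) * t‖ ≤ C * t ^ (3 / 4 : ℝ) := by
      have h5 : ((V t).card : ℂ) - (c0 : ℂ) * t = (((V t).card - c0 * t : ℝ) : ℂ) := by
        push_cast
        rfl
      rw [h5, Complex.norm_real]
      exact hC t ht.le
    have h6 : ‖(t : ℂ) ^ (-s - 1)‖ = t ^ (-σ - 1) := by
      rw [hs]
      exact EuC_norm_t ht0
    rw [norm_mul, h6]
    calc ‖((V t).card : ℂ) - (c0 : ℂ) * t‖ * t ^ (-σ - 1) ≤ (C * t ^ (3 / 4 : ℝ)) * t ^ (-σ - 1) :=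
          mul_le_mul_of_nonneg_right h4 (Real.rpow_nonneg ht0.le _)
      _ = C * t ^ (3 / 4 + (-σ - 1)) := by rw [mul_assoc, ← Real.rpow_add ht0]
      _ ≤ C * t ^ (-(5 / 4) : ℝ) := by
          refine mul_le_mul_of_nonneg_left ?_ hC0.le
          exact Real.rpow_le_rpow_of_exponent_le ht.le (by linarith)
  have hi3 : IntegrableOn (fun t : ℝ => C * t ^ (-(5 / 4) : ℝ)) (Set.Ioi 1) :=
    (integrableOn_Ioi_rpow_of_lt (by norm_num) zero_lt_one).const_mul _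
  have hv3 : ∫ t : ℝ in Set.Ioi 1, C * t ^ (-(5 / 4) : ℝ) = 4 * C := by
    rw [integral_const_mul, integral_Ioi_rpow_of_lt (by norm_num) zero_lt_one, Real.one_rpow]
    norm_num
    ring
  have hcont : ContinuousOn (fun t : ℝ => (t : ℂ) ^ (-s - 1)) (Set.Ioi 1) := by
    intro t ht
    have ht0 : (t : ℝ) ≠ 0 := by
      have : (1 : ℝ) < t := ht
      linarith
    exact (Complex.continuousAt_ofReal_cpow_const _ _ (Or.inr ht0)).continuousWithinAt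
  have hmeas : AEStronglyMeasurable
      (fun t : ℝ => (((V t).card : ℂ) - (c0 : ℂ) * t) * (t : ℂ) ^ (-s - 1))
      (volume.restrict (Set.Ioi 1)) := by
    refine AEStronglyMeasurable.mul ?_ (hcont.aestronglyMeasurable measurableSet_Ioi)
    have h7 : Measurable (fun t : ℝ => (((V t).card - c0 * t : ℝ) : ℂ)) :=
      Complex.measurable_ofReal.comp (EuC_meas.sub (measurable_id.const_mul c0))
    have h8 : (fun t : ℝ => ((V t).card : ℂ) - (c0 : ℂ) * t) =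
        fun t : ℝ => (((V t).card - c0 * t : ℝ) : ℂ) := by
      funext t
      push_cast
      rfl
    rw [h8]
    exact h7.aestronglyMeasurable
  have hi2 : IntegrableOn (fun t : ℝ => (((V t).card : ℂ) - (c0 : ℂ) * t) * (t : ℂ) ^ (-s - 1))
      (Set.Ioi 1) := by
    refine Integrable.mono' hi3 hmeas ?_
    exact (ae_restrict_iff' measurableSet_Ioi).mpr (Filter.Eventually.of_forall fun t ht => hbd t ht)
  have hv2 : ‖∫ t : ℝ in Set.Ioi 1, (((V t).card : ℂ) - (c0 : ℂ) * t) * (t : ℂ) ^ (-s - 1)‖ ≤ 4 * C := by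
    rw [← hv3]
    refine norm_integral_le_of_norm_le hi3 ?_
    exact (ae_restrict_iff' measurableSet_Ioi).mpr (Filter.Eventually.of_forall fun t ht => hbd t ht)
  have hsplit : ∫ t : ℝ in Set.Ioi 1, ((V t).card : ℂ) * (t : ℂ) ^ (-s - 1) =
      (c0 : ℂ) / (s - 1) +
        ∫ t : ℝ in Set.Ioi 1, (((V t).card : ℂ) - (c0 : ℂ) * t) * (t : ℂ) ^ (-s - 1) := by
    rw [← hv1, ← integral_add hi1 hi2]
    refine setIntegral_congr_fun measurableSet_Ioi fun t ht => ?_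
    have ht0 : (t : ℂ) ≠ 0 := by
      have : (1 : ℝ) < t := ht
      exact Complex.ofReal_ne_zero.mpr (by linarith)
    show ((V t).card : ℂ) * (t : ℂ) ^ (-s - 1) =
      (c0 : ℂ) * (t : ℂ) ^ (-s) + (((V t).card : ℂ) - (c0 : ℂ) * t) * (t : ℂ) ^ (-s - 1)
    have h9 : (t : ℂ) ^ (-s) = t * (t : ℂ) ^ (-s - 1) := by
      rw [Complex.cpow_sub _ _ ht0, Complex.cpow_one, mul_div_cancel₀ _ ht0]
    rw [h9]
    ring
  rw [hsplit, norm_mul]
  have h10 : ‖(c0 : ℂ) / (s - 1) +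
      ∫ t : ℝ in Set.Ioi 1, (((V t).card : ℂ) - (c0 : ℂ) * t) * (t : ℂ) ^ (-s - 1)‖ ≤
      c0 * (1 / ‖s - 1‖) + 4 * C := by
    refine (norm_add_le _ _).trans (add_le_add ?_ hv2)
    rw [_root_.norm_div, Complex.norm_real, Real.norm_of_nonneg hc0pos.le, mul_one_div]
  have h11 : ‖s‖ ≤ 2 + |τ| := by
    rw [hs]
    exact EuC_norm_s hσ hσ2
  have h12 : 0 < 1 / ‖s - 1‖ := by positivity
  calc ‖s‖ * _ ≤ (2 + |τ|) * (c0 * (1 / ‖s - 1‖) + 4 * C) :=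
        mul_le_mul h11 h10 (norm_nonneg _) (by positivity)
    _ ≤ (2 + |τ|) * ((c0 + 4 * C) * (1 / ‖s - 1‖ + 1)) := by
        refine mul_le_mul_of_nonneg_left ?_ (by positivity)
        nlinarith
    _ = (c0 + 4 * C) * (2 + |τ|) * (1 / ‖s - 1‖ + 1) := by ring

end Pool.Agent.Lib.MP_d57abb_nt.MR
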