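import Mathlib
import Pool.Agent.Lib.MP_d57abb_nt.MR.ChD
import Pool.Agent.Lib.MP_d57abb_nt.MR.EuB
import Pool.Agent.Lib.MP_d57abb_nt.MR.EuC

/-!
# JOB ChG: a character which is `1` at almost all primes is trivial

Suppose `χ ≠ 1`.  Let `g x = χ (red W x)`.
* `Comp g`: `g 1 = 1`, multiplicative, `g (om x) = χ (red W om) g x = g x`, `‖g‖ ≤ 1` (`norm_char_le`).
* `char_sum` gives `C₂` with `‖∑_{v ∈ V t} g v‖ ≤ C₂ t^(1 - 1/4)`, `t ≥ 1`.  `L_bound` with `τ = 0`, `y₁ = 1`, `η = 1/4`, `C₁ = C₂` (`t^(1-1/4) ≤ t`): for `1 < σ ≤ 2`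
  `‖∑' v, g v * (N v : ℂ)^(-(0 * I)) * ...‖ ≤ 2 (C₁ log 1 + 4 C₂) = 8 C₂`; the factor `(N v : ℂ)^(-(0 * I))` is `1` (`simp`).
* `euler h5 hW` gives `C` with `exp (∑_{p ∈ PP W (exp L)} Re g(p) / N p) ≤ C * 8 C₂` for all `L ≥ 1` (`σ = 1 + 1/L`).
* `Re g(p) ≥ 1 - 2 [g p ≠ 1]` (`‖g p‖ ≤ 1`), so the sum is at least `mass (PP W (exp L)) - 2 B`.  `mass_PP_lower` with `P = 3`, `Q = exp L` (`L ≥ 2`):
  `mass (PP W (exp L)) ≥ mass (those with N p ≥ 3) ≥ log (L / log 3) - C'`, which tends to infinity with `L`.  A contradiction.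
-/

namespace Pool.Agent.Lib.MP_d57abb_nt.MR

open Finset

variable {W : ℕ} [NeZero W]

open Classical in
theorem char_trivial (h5 : 5 ∣ W) (χ : MulChar (RW W) ℂ) (hom : χ (red W om) = 1) {B : ℝ}
    (hB : ∀ z : ℝ, ∑ p ∈ (PP W z).filter (fun p => χ (red W p) ≠ 1), 1 / (N p : ℝ) ≤ B) : χ = 1 := by
  by_contra hχ
  have hW : 0 < W := Nat.pos_of_ne_zero (NeZero.ne W)
  set g : O → ℂ := fun x => χ (red W x) with hg
  have hcomp : Comp g := by
    refine ⟨?_, ?_, ?_, ?_⟩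
    · show χ (red W 1) = 1
      rw [map_one, map_one]
    · intro x y _ _
      show χ (red W (x * y)) = χ (red W x) * χ (red W y)
      rw [map_mul, map_mul]
    · intro x _
      show χ (red W (om * x)) = χ (red W x)
      rw [map_mul, map_mul, hom, one_mul]
    · intro x
      exact norm_char_le χ _
  obtain ⟨C₂, hC₂0, hC₂⟩ := char_sum χ hχ
  have hL : ∀ σ : ℝ, 1 < σ → σ ≤ 2 →
      ‖∑' v : {v : O // Qd v}, g v.1 * (((N v.1 : ℝ) ^ (-σ) : ℝ) : ℂ)‖ ≤ 8 * C₂ := by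
    intro σ hσ hσ2
    have h3 : ∀ t : ℝ, 1 ≤ t → ‖∑ v ∈ V t, g v‖ ≤ C₂ * t := by
      intro t ht
      refine (hC₂ t ht).trans (mul_le_mul_of_nonneg_left ?_ hC₂0)
      calc t ^ (1 - 1 / 4 : ℝ) ≤ t ^ (1 : ℝ) := Real.rpow_le_rpow_of_exponent_le ht (by norm_num)
        _ = t := Real.rpow_one t
    have h1 := L_bound (h := g) hcomp.le (σ := σ) (τ := 0) (C₁ := C₂) (C₂ := C₂) (y₁ := 1) (η := 1 / 4)
      hσ hσ2 le_rfl (by norm_num) h3 hC₂
    have h2 : ∑' v : {v : O // Qd v}, g v.1 * (N v.1 : ℂ) ^ (-(((0 : ℝ) : ℂ) * Complex.I)) *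
        (((N v.1 : ℝ) ^ (-σ) : ℝ) : ℂ) =
        ∑' v : {v : O // Qd v}, g v.1 * (((N v.1 : ℝ) ^ (-σ) : ℝ) : ℂ) := by
      refine tsum_congr fun v => ?_
      rw [Complex.ofReal_zero, zero_mul, neg_zero, Complex.cpow_zero, mul_one]
    rw [h2] at h1
    refine h1.trans (le_of_eq ?_)
    rw [Real.log_one, abs_zero]
    ring
  obtain ⟨C, hC0, hC⟩ := euler h5 hW
  obtain ⟨C', hC'⟩ := mass_PP_lower h5 hW
  have hl3 : 0 < Real.log 3 := Real.log_pos (by norm_num)
  have key : ∀ L : ℝ, 2 ≤ L → L / Real.log 3 * Real.exp (-(C' + 2 * B)) ≤ C * (8 * C₂) := by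
    intro L hL2
    have hL0 : 0 < L := by linarith
    have h1 := hC g hcomp L (by linarith)
    have h4 : 0 < 1 / L := by positivity
    have h5' : 1 / L ≤ 1 := by
      rw [div_le_one hL0]
      linarith
    have h2 := hL (1 + 1 / L) (by linarith) (by linarith)
    have hexp : (3 : ℝ) ≤ Real.exp L := by
      have := Real.add_one_le_exp L
      linarith
    have hm := hC' 3 (Real.exp L) le_rfl hexp
    rw [Real.log_exp] at hm
    have hN : ∀ p ∈ PP W (Real.exp L), 0 ≤ 1 / (N p : ℝ) := by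
      intro p hp
      rw [mem_PP] at hp
      have h6 : 0 < (N p : ℝ) := by
        exact_mod_cast hp.1.1.tp.N_pos
      positivity
    have hm2 : mass ((PP W (Real.exp L)).filter (fun p => (3 : ℝ) ≤ (N p : ℝ))) ≤ mass (PP W (Real.exp L)) := by
      unfold mass
      exact sum_le_sum_of_subset_of_nonneg (filter_subset _ _) fun p hp _ => hN p hp
    have hB' := hB (Real.exp L)
    have h7 : mass (PP W (Real.exp L)) -
        2 * ∑ p ∈ (PP W (Real.exp L)).filter (fun p => χ (red W p) ≠ 1), 1 / (N p : ℝ) ≤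
        ∑ p ∈ PP W (Real.exp L), (g p).re / (N p : ℝ) := by
      unfold mass
      rw [sum_filter, mul_sum, ← sum_sub_distrib]
      refine sum_le_sum fun p hp => ?_
      have h8 := hN p hp
      by_cases h9 : χ (red W p) = 1
      · have h10 : g p = 1 := h9
        rw [if_neg (not_not.2 h9), h10, Complex.one_re]
        linarith
      · rw [if_pos h9]
        have h10 : -1 ≤ (g p).re := by
          have h11 := (abs_le.1 (Complex.abs_re_le_norm (g p))).1
          have h12 := hcomp.le p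
          linarith
        rw [div_eq_mul_one_div (g p).re]
        nlinarith
    have h8 : Real.log (L / Real.log 3) - (C' + 2 * B) ≤ ∑ p ∈ PP W (Real.exp L), (g p).re / (N p : ℝ) := by
      linarith
    have h9 : L / Real.log 3 * Real.exp (-(C' + 2 * B)) = Real.exp (Real.log (L / Real.log 3) - (C' + 2 * B)) := by
      rw [sub_eq_add_neg, Real.exp_add, Real.exp_log (by positivity)]
    rw [h9]
    exact (Real.exp_le_exp.2 h8).trans (h1.trans (mul_le_mul_of_nonneg_left h2 hC0.le))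
  set K : ℝ := Real.log 3 * (C * (8 * C₂) + 1) * Real.exp (C' + 2 * B) with hK
  have h1 := key (max 2 K) (le_max_left _ _)
  have h2 : K / Real.log 3 * Real.exp (-(C' + 2 * B)) ≤
      max 2 K / Real.log 3 * Real.exp (-(C' + 2 * B)) := by
    refine mul_le_mul_of_nonneg_right ?_ (Real.exp_pos _).le
    exact div_le_div_of_nonneg_right (le_max_right _ _) hl3.le
  have h3 : K / Real.log 3 * Real.exp (-(C' + 2 * B)) = C * (8 * C₂) + 1 := by
    rw [hK, Real.exp_neg]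
    have h4 := (Real.exp_pos (C' + 2 * B)).ne'
    field_simp
  linarith

end Pool.Agent.Lib.MP_d57abb_nt.MR
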