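import Mathlib

/-!
# JOB ChE: the sum of the reciprocals of the primes in a residue class diverges

Let `c : ZMod W` be a unit, `b n = 1 / n` if `n` is a prime in the class `c` and `0` otherwise; suppose that `b` is summable.  Let `φ = Nat.totient W`.
* `ArithmeticFunction.vonMangoldt.LSeries_residueClass_lower_bound` (Mathlib/NumberTheory/LSeries/PrimesInAP.lean): there is `C₀` with
  `(φ)⁻¹ / (x - 1) - C₀ ≤ ∑' n, residueClass c n / n ^ x` for `1 < x ≤ 2`.
* The non-primes contribute at most `G = ∑' n, (if n.Prime then 0 else residueClass c n) / n` (`summable_residueClass_non_primes_div`, `n ^ (-x) ≤ n⁻¹`).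
* For a prime `n` in the class `residueClass c n / n ^ x ≤ log n / n ^ x = b n * (log n / n ^ (x - 1))`; and `log n / n ^ (x - 1) ≤ 1 / (x - 1)` (`log y ≤ y` for `y = n ^ (x-1)`:
  `Real.log_le_rpow_div` with exponent `x - 1`).
* Choose a finite set `s` of natural numbers with `∑_{n ∉ s} b n ≤ 1 / (2 φ)` (tail of a convergent series: `Summable.hasSum`, `tendsto_tsum_compl_atTop_zero` or
  `hasSum.eventually`).  The `n ∈ s` contribute at most `K = ∑_{n ∈ s} log n` (for natural `n ≥ 1`, `n ^ x ≥ 1`), the `n ∉ s` at most `(1 / (2 φ)) / (x - 1)`.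
So `φ⁻¹ / (x - 1) - C₀ ≤ G + K + (1 / (2φ)) / (x - 1)` for all `1 < x ≤ 2`, i.e. `1 / (2 φ (x - 1)) ≤ C₀ + G + K`: a contradiction as `x → 1` (take `x = 1 + 1 / (2 φ (|C₀ + G + K| + 1))`).
(A model: `Pool/Agent/Lib/MP_021685_agT/GD1.lean` in the live repository, `git show origin/main:Pool/Agent/Lib/MP_021685_agT/GD1.lean` in outputs/live: it has
`∃ C, ∀ x, 1 < x → x ≤ 2 → ∃ R finite set of primes `r ≡ c`, `r > B`, with `1 / φ / (x - 1) - C ≤ ∑_{r ∈ R} log r * r ^ (-x)`: copy its proof as a private lemma; then the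
argument is: with `B` such that the finite sums of `b` over sets of `n > B` are at most `1 / (2 φ)`, `∑_{r ∈ R} log r * r ^ (-x) ≤ (1 / (x - 1)) ∑_{r ∈ R} 1 / r ≤ 1 / (2 φ (x - 1))`.)
-/

namespace Pool.Agent.Lib.MP_d57abb_nt.MR

private theorem ChE_lower {M c : ℕ} (hM : M ≠ 0) (hc : Nat.Coprime c M) (B : ℕ) :
    ∃ C : ℝ, ∀ x : ℝ, 1 < x → x ≤ 2 → ∃ R : Finset ℕ,
      (∀ r ∈ R, r.Prime ∧ B < r ∧ r ≡ c [MOD M]) ∧
      1 / (Nat.totient M : ℝ) / (x - 1) - C ≤ ∑ r ∈ R, Real.log r * (r : ℝ) ^ (-x) := by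
  classical
  have : NeZero M := ⟨hM⟩
  set a : ZMod M := (c : ZMod M) with ha
  have hau : IsUnit a := (ZMod.isUnit_iff_coprime c M).mpr hc
  obtain ⟨C0, hC0⟩ := ArithmeticFunction.vonMangoldt.LSeries_residueClass_lower_bound hau
  set rc : ℕ → ℝ := ArithmeticFunction.vonMangoldt.residueClass a with hrc
  have hrc0 : ∀ n, 0 ≤ rc n := fun n => ArithmeticFunction.vonMangoldt.residueClass_nonneg a n
  set G : ℕ → ℝ := fun n => (if n.Prime then 0 else rc n) / n with hG
  have hGs : Summable G := ArithmeticFunction.vonMangoldt.summable_residueClass_non_primes_div a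
  have hG0 : ∀ n, 0 ≤ G n := by
    intro n
    simp only [hG]
    refine div_nonneg ?_ (Nat.cast_nonneg n)
    split_ifs
    · exact le_rfl
    · exact hrc0 n
  set K2 : ℝ := ∑ n ∈ Finset.range (B + 1), Real.log n with hK2
  have hlog0 : ∀ n : ℕ, 0 ≤ Real.log n := fun n => Real.log_natCast_nonneg n
  refine ⟨C0 + ∑' n, G n + K2 + 1, fun x hx1 hx2 => ?_⟩
  have hlow := hC0 (x := x) ⟨hx1, hx2⟩
  set t : ℕ → ℝ := fun n => rc n / (n : ℝ) ^ x with ht
  have hts : Summable t :=
    LSeries.summable_real_of_abscissaOfAbsConv_lt <|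
        (ArithmeticFunction.vonMangoldt.abscissaOfAbsConv_residueClass_le_one a).trans_lt <| mod_cast hx1
  have hlt : ∑' n, t n - 1 < ∑' n, t n := by linarith
  obtain ⟨s, hs⟩ := (hts.hasSum.eventually (lt_mem_nhds hlt)).exists
  refine ⟨s.filter (fun r => r.Prime ∧ B < r ∧ r ≡ c [MOD M]), fun r hr => (Finset.mem_filter.1 hr).2, ?_⟩
  have hpt : ∀ n : ℕ, t n ≤ (if n.Prime ∧ B < n ∧ n ≡ c [MOD M] then Real.log n * (n : ℝ) ^ (-x) else 0) + G n +
      (if n < B + 1 then Real.log n else 0) := by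
    intro n
    have h1 : 0 ≤ (if n.Prime ∧ B < n ∧ n ≡ c [MOD M] then Real.log n * (n : ℝ) ^ (-x) else 0) := by
      split_ifs
      · exact mul_nonneg (hlog0 n) (Real.rpow_nonneg (Nat.cast_nonneg n) _)
      · exact le_rfl
    have h2 : 0 ≤ (if n < B + 1 then Real.log (n : ℝ) else 0) := by
      split_ifs
      · exact hlog0 n
      · exact le_rfl
    rcases Nat.eq_zero_or_pos n with hn0 | hn0
    · have h3 : t n = 0 := by
        simp only [ht, hn0, hrc, ArithmeticFunction.vonMangoldt.residueClass_apply_zero, zero_div]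
      rw [h3]
      have := hG0 n
      linarith
    have hn1 : (1 : ℝ) ≤ n := by exact_mod_cast hn0
    have hpow : (n : ℝ) ≤ (n : ℝ) ^ x := by
      conv_lhs => rw [← Real.rpow_one (n : ℝ)]
      exact Real.rpow_le_rpow_of_exponent_le hn1 hx1.le
    by_cases hp : n.Prime
    · have hGn : G n = 0 := by simp only [hG, if_pos hp, zero_div]
      by_cases hmod : n ≡ c [MOD M]
      · have hmem : rc n ≤ Real.log n := by
          have h3 := ArithmeticFunction.vonMangoldt.residueClass_le a n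
          rw [ArithmeticFunction.vonMangoldt_apply_prime hp] at h3
          exact h3
        by_cases hB : B < n
        · rw [if_pos ⟨hp, hB, hmod⟩]
          have h4 : t n ≤ Real.log n * (n : ℝ) ^ (-x) := by
            simp only [ht]
            rw [Real.rpow_neg (Nat.cast_nonneg n), ← div_eq_mul_inv]
            exact div_le_div_of_nonneg_right hmem (Real.rpow_nonneg (Nat.cast_nonneg n) _)
          linarith [hG0 n]
        · have h5 : t n ≤ Real.log n := by
            simp only [ht]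
            refine (div_le_self (hrc0 n) (hn1.trans hpow)).trans hmem
          rw [if_pos (show n < B + 1 by omega)]
          linarith [hG0 n]
      · have h3 : t n = 0 := by
          have h4 : rc n = 0 := by
            simp only [hrc]
            refine Set.indicator_of_notMem ?_ _
            intro hmem
            exact hmod ((ZMod.natCast_eq_natCast_iff n c M).1 hmem)
          simp only [ht, h4, zero_div]
        rw [h3]
        linarith [hG0 n]
    · have h3 : t n ≤ G n := by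
        simp only [ht, hG, if_neg hp]
        exact div_le_div_of_nonneg_left (hrc0 n) (by linarith) hpow
      linarith
  have hsum : ∑ n ∈ s, t n ≤ ∑ r ∈ s.filter (fun r => r.Prime ∧ B < r ∧ r ≡ c [MOD M]), Real.log r * (r : ℝ) ^ (-x) +
      ∑' n, G n + K2 := by
    calc ∑ n ∈ s, t n ≤ ∑ n ∈ s, ((if n.Prime ∧ B < n ∧ n ≡ c [MOD M] then Real.log n * (n : ℝ) ^ (-x) else 0) + G n +
          (if n < B + 1 then Real.log n else 0)) := Finset.sum_le_sum fun n _ => hpt n
      _ = ∑ n ∈ s, (if n.Prime ∧ B < n ∧ n ≡ c [MOD M] then Real.log n * (n : ℝ) ^ (-x) else 0) + ∑ n ∈ s, G n +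
          ∑ n ∈ s, (if n < B + 1 then Real.log n else 0) := by
          rw [Finset.sum_add_distrib, Finset.sum_add_distrib]
      _ ≤ _ := by
          have h1 : ∑ n ∈ s, (if n.Prime ∧ B < n ∧ n ≡ c [MOD M] then Real.log n * (n : ℝ) ^ (-x) else 0) =
              ∑ r ∈ s.filter (fun r => r.Prime ∧ B < r ∧ r ≡ c [MOD M]), Real.log r * (r : ℝ) ^ (-x) := by
            rw [Finset.sum_filter]
          have h2 : ∑ n ∈ s, G n ≤ ∑' n, G n := hGs.sum_le_tsum s fun n _ => hG0 n
          have h3 : ∑ n ∈ s, (if n < B + 1 then Real.log (n : ℝ) else 0) ≤ K2 := by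
            rw [← Finset.sum_filter, hK2]
            refine Finset.sum_le_sum_of_subset_of_nonneg ?_ (fun n _ _ => hlog0 n)
            intro n hn
            exact Finset.mem_range.2 (Finset.mem_filter.1 hn).2
          linarith
  have h1 : (1 : ℝ) / (Nat.totient M : ℝ) / (x - 1) = (M.totient : ℝ)⁻¹ / (x - 1) := by rw [one_div]
  rw [h1]
  linarith

open Classical in
theorem not_summable_class {W : ℕ} [NeZero W] {c : ZMod W} (hc : IsUnit c) :
    ¬ Summable (fun n : ℕ => if n.Prime ∧ (n : ZMod W) = c then 1 / (n : ℝ) else 0) := by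
  intro hs
  have hW : W ≠ 0 := NeZero.ne W
  have hφ : (1 : ℝ) ≤ W.totient := by
    exact_mod_cast Nat.totient_pos.2 (Nat.pos_of_ne_zero hW)
  have hcv : ((c.val : ℕ) : ZMod W) = c := ZMod.natCast_zmod_val c
  have hco : Nat.Coprime c.val W := by
    rw [← ZMod.isUnit_iff_coprime, hcv]
    exact hc
  obtain ⟨S, hS⟩ := summable_iff_vanishing_norm.1 hs (1 / (2 * (W.totient : ℝ))) (by positivity)
  obtain ⟨C, hC⟩ := ChE_lower hW hco (S.sup id)
  set y : ℝ := 1 / (2 * (W.totient : ℝ) * (|C| + 1)) with hy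
  have hD : (2 : ℝ) ≤ 2 * (W.totient : ℝ) * (|C| + 1) := by
    nlinarith [abs_nonneg C]
  have hy0 : 0 < y := by
    rw [hy]
    positivity
  have hy1 : y ≤ 1 := by
    rw [hy, div_le_one (by linarith)]
    linarith
  obtain ⟨R, hR1, hR2⟩ := hC (1 + y) (by linarith) (by linarith)
  have hdis : Disjoint R S := by
    rw [Finset.disjoint_left]
    intro r hr hrS
    have h1 : r ≤ S.sup id := Finset.le_sup (f := id) hrS
    have h2 := (hR1 r hr).2.1
    omega
  have h3 := hS R hdis
  have h4 : ∑ n ∈ R, (if n.Prime ∧ (n : ZMod W) = c then 1 / (n : ℝ) else 0) = ∑ n ∈ R, 1 / (n : ℝ) := by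
    refine Finset.sum_congr rfl fun n hn => ?_
    obtain ⟨h5, -, h6⟩ := hR1 n hn
    have h7 : (n : ZMod W) = c := by
      rw [(ZMod.natCast_eq_natCast_iff n c.val W).2 h6, hcv]
    rw [if_pos ⟨h5, h7⟩]
  rw [h4, Real.norm_eq_abs] at h3
  have h5 := (le_abs_self _).trans_lt h3
  have h6 : ∑ r ∈ R, Real.log r * (r : ℝ) ^ (-(1 + y)) ≤ 1 / y * ∑ n ∈ R, 1 / (n : ℝ) := by
    rw [Finset.mul_sum]
    refine Finset.sum_le_sum fun r hr => ?_
    have hr0 : (0 : ℝ) < r := by exact_mod_cast (hR1 r hr).1.pos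
    have h7 := Real.log_le_rpow_div hr0.le hy0
    have h8 : (r : ℝ) ^ (-(1 + y)) = (1 / (r : ℝ) ^ y) * (1 / (r : ℝ)) := by
      rw [Real.rpow_neg hr0.le, Real.rpow_add hr0, Real.rpow_one, one_div_mul_one_div, mul_comm, one_div]
    have h9 : 0 < (r : ℝ) ^ y := Real.rpow_pos_of_pos hr0 y
    rw [h8, ← mul_assoc]
    refine mul_le_mul_of_nonneg_right ?_ (by positivity)
    rw [mul_one_div, div_le_div_iff₀ h9 hy0]
    rw [le_div_iff₀ hy0] at h7
    linarith
  have h7 : 1 / y * ∑ n ∈ R, 1 / (n : ℝ) ≤ 1 / y * (1 / (2 * (W.totient : ℝ))) :=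
    mul_le_mul_of_nonneg_left h5.le (by positivity)
  have h8 : 1 / (W.totient : ℝ) / (1 + y - 1) = 2 * (|C| + 1) := by
    rw [add_sub_cancel_left, hy]
    field_simp
  have h9 : 1 / y * (1 / (2 * (W.totient : ℝ))) = |C| + 1 := by
    rw [hy]
    field_simp
  rw [h8] at hR2
  rw [h9] at h7
  have h10 := le_abs_self C
  have h11 := abs_nonneg C
  linarith

end Pool.Agent.Lib.MP_d57abb_nt.MR
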