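import Mathlib
import Pool.Agent.Lib.MP_d57abb_nt.MR.ChA
import Pool.Agent.Lib.MP_d57abb_nt.MR.ChE
import Pool.Agent.Lib.MP_d57abb_nt.MR.PrA

/-!
# JOB ChF: pairs of conjugate good primes

* `exists_prime_class`: a prime `ℓ` with `(ℓ : ZMod W) = c` (Mathlib `Nat.forall_exists_prime_gt_and_eq_mod`, `c` a unit), `Five c` gives `ℓ % 5`, `ℓ ∤ W` since `c` is a unit; `exists_PS` gives `p ∈ PS W ℓ`
  with `N p = ℓ` (`mem_PS`: `Dg W p`).
* `exists_good`: suppose not.  For every prime `ℓ` with `(ℓ : ZMod W) = c` let `p ∈ PS W ℓ` with `N p = ℓ` as before; `p` and `⟨p.im, p.re⟩` satisfy `Dg W` (`Dg.swap`) and have norm `ℓ` (symmetric), so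
  one of them does not satisfy `P`; call it `β ℓ` (`choose`).  So for every finite set `s` of natural numbers, `∑_{n ∈ s} (if n.Prime ∧ (n : ZMod W) = c then 1 / n else 0) =
  ∑_{ℓ ∈ s'} 1 / N (β ℓ) ≤ ∑_{p ∈ PP W z, ¬ P p} 1 / N p ≤ B`, `s' = s.filter (..)`, `z = max of s'` (e.g. the sum of all its elements): the map `ℓ ↦ β ℓ` is injective on `s'` since `N (β ℓ) = ℓ`, its values
  are in `PP W z` (`mem_PP`).  (`Finset.sum_image`, `Finset.sum_le_sum_of_subset_of_nonneg`.)  The terms are nonnegative, so the series is summable (`summable_of_sum_le`), a contradiction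
  to `not_summable_class`.
-/

namespace Pool.Agent.Lib.MP_d57abb_nt.MR

open Finset

variable {W : ℕ} [NeZero W]

private theorem ChF_prime {c : ZMod W} (hc : IsUnit c) (hc5 : Five c) {l : ℕ} (hl : l.Prime)
    (hlc : (l : ZMod W) = c) : ∃ p : O, Dg W p ∧ N p = l := by
  have hW : ¬ l ∣ W := by
    intro h
    have h1 : IsUnit (l : ZMod W) := by rw [hlc]; exact hc
    rw [ZMod.isUnit_iff_coprime] at h1
    have h2 : l ∣ 1 := by
      have := Nat.dvd_gcd (dvd_refl l) h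
      rwa [h1] at this
    exact hl.one_lt.ne' (Nat.dvd_one.1 h2)
  obtain ⟨p, hp, hN⟩ := exists_PS hl (hc5 l hlc) hW (le_refl (l : ℝ))
  exact ⟨p, (mem_PS.1 hp).1.1, hN⟩

private theorem ChF_nm {c : ZMod W} {l : ℕ} (hlc : (l : ZMod W) = c) {p : O} (h : N p = l) :
    nm (red W p) = c := by
  rw [nm_red, h, Int.cast_natCast, hlc]

private theorem ChF_swap (p : O) : N ⟨p.im, p.re⟩ = N p := by
  unfold N
  ring

theorem exists_prime_class (h5 : 5 ∣ W) {c : ZMod W} (hc : IsUnit c) (hc5 : Five c) :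
    ∃ p : O, Dg W p ∧ nm (red W p) = c := by
  obtain ⟨l, -, hl, hlc⟩ := Nat.forall_exists_prime_gt_and_eq_mod hc 0
  obtain ⟨p, hp, hN⟩ := ChF_prime hc hc5 hl hlc
  exact ⟨p, hp, ChF_nm hlc hN⟩

open Classical in
theorem exists_good (h5 : 5 ∣ W) (P : O → Prop) {B : ℝ}
    (hP : ∀ z : ℝ, ∑ p ∈ (PP W z).filter (fun p => ¬ P p), 1 / (N p : ℝ) ≤ B) {c : ZMod W} (hc : IsUnit c) (hc5 : Five c) :
    ∃ p : O, Dg W p ∧ P p ∧ P ⟨p.im, p.re⟩ ∧ nm (red W p) = c := by
  by_contra hcon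
  have h1 : ∀ l : ℕ, (l.Prime ∧ (l : ZMod W) = c) → ∃ β : O, Dg W β ∧ N β = l ∧ ¬ P β := by
    rintro l ⟨hl, hlc⟩
    obtain ⟨p, hp, hN⟩ := ChF_prime hc hc5 hl hlc
    by_cases h2 : P p
    · by_cases h3 : P ⟨p.im, p.re⟩
      · exact absurd ⟨p, hp, h2, h3, ChF_nm hlc hN⟩ hcon
      · exact ⟨_, hp.swap, (ChF_swap p).trans hN, h3⟩
    · exact ⟨p, hp, hN, h2⟩
  choose! β hβ using h1
  refine not_summable_class hc (summable_of_sum_le (c := B) ?_ ?_)
  · intro n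
    beta_reduce
    split_ifs
    · positivity
    · exact le_rfl
  · intro s
    rw [← Finset.sum_filter]
    set s' := s.filter (fun n : ℕ => n.Prime ∧ (n : ZMod W) = c) with hs'
    have hm : ∀ n ∈ s', n.Prime ∧ (n : ZMod W) = c := fun n hn => (Finset.mem_filter.1 hn).2
    have e1 : ∑ n ∈ s', 1 / (n : ℝ) = ∑ n ∈ s', 1 / (N (β n) : ℝ) := by
      refine Finset.sum_congr rfl fun n hn => ?_
      rw [(hβ n (hm n hn)).2.1, Int.cast_natCast]
    have e2 : ∑ n ∈ s', 1 / (N (β n) : ℝ) = ∑ p ∈ s'.image β, 1 / (N p : ℝ) := by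
      rw [Finset.sum_image]
      intro n hn m hm' hnm
      have h2 := (hβ n (hm n hn)).2.1
      rw [hnm, (hβ m (hm m hm')).2.1] at h2
      exact_mod_cast h2.symm
    rw [e1, e2]
    refine (Finset.sum_le_sum_of_subset_of_nonneg ?_ ?_).trans (hP (∑ n ∈ s', (n : ℝ)))
    · intro p hp
      obtain ⟨n, hn, rfl⟩ := Finset.mem_image.1 hp
      obtain ⟨h2, h3, h4⟩ := hβ n (hm n hn)
      rw [Finset.mem_filter, mem_PP]
      refine ⟨⟨h2, ?_⟩, h4⟩
      rw [h3, Int.cast_natCast]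
      exact Finset.single_le_sum (f := fun n : ℕ => (n : ℝ)) (fun i _ => Nat.cast_nonneg i) hn
    · intro p hp _
      have h2 := (mem_PP.1 (Finset.mem_filter.1 hp).1).1.two_le
      have h3 : (0 : ℝ) ≤ (N p : ℝ) := by
        have : (0 : ℤ) ≤ N p := by omega
        exact_mod_cast this
      exact div_nonneg zero_le_one h3

end Pool.Agent.Lib.MP_d57abb_nt.MR
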