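import Mathlib
import Pool.Agent.Lib.MP_d57abb_nt.MR.ChA
import Pool.Agent.Lib.MP_d57abb_nt.MR.ChF

/-!
# JOB ChHa: elements of norm one

Let `G = (RW W)ˣ`, `U = (ZMod W)ˣ` (finite groups), `nuH : G →* U` the norm, `K = nuH.ker`, `stH : G →* G`, `g ↦ g * (star g)⁻¹`, `H = stH.range`.
* `stH_mul`: `(stH g) * star g = g` (unfold; `stH g = g / sg g`, `sg g` the unit `star g`).
* `range_le`: `nm (star g) = nm g` (`nm_star`).
* `card_ker_le`: `Nat.card G = Nat.card K * Nat.card nuH.range` and `= Nat.card stH.ker * Nat.card H` (`Subgroup.card_mul_index`, `Subgroup.index_ker`).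
  `stH.ker = {g : star g = g} = {g : g.im = 0}` (`star_fix`), and `g ↦ re g` is an injective map from it to the units of `ZMod W` (`nm g = (re g)²` if `im g = 0`, so `re g` is a unit), so
  `Nat.card stH.ker ≤ Nat.card U`.
  `nuH.range` contains every unit `c` with `Five c` (`exists_prime_class`, `isUnit_red_prime`).  Let `sq5 : U →* (ZMod 5)ˣ`, `c ↦ (c mod 5)²` (`Units.map (ZMod.castHom h5 (ZMod 5))`, then `powMonoidHom 2`).
  If `sq5 c = 1` then `c mod 5 = ± 1` (decide in `ZMod 5`), i.e. `Five c` (for `(n : ZMod W) = c`: `(n : ZMod 5) = castHom c`, `n % 5` from `ZMod.natCast_eq_natCast_iff'` or `ZMod.val_natCast`).  So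
  `sq5.ker ≤ nuH.range`.  The range of `sq5` has at most two elements (`{1, -1}`, the squares of `(ZMod 5)ˣ`, decide), so `Nat.card U ≤ 2 * Nat.card sq5.ker ≤ 2 * Nat.card nuH.range`.
  Together: `Nat.card K * Nat.card nuH.range = Nat.card stH.ker * Nat.card H ≤ Nat.card U * Nat.card H ≤ 2 * Nat.card nuH.range * Nat.card H`, cancel `Nat.card nuH.range > 0`.
* `neg_one_notMem`: `g * (star g)⁻¹ = -1` gives `g = - star g`, `g.re = -(g.re + 3 g.im)`, so `2 g.re = - 3 g.im`; modulo `5` (`ZMod.castHom`) `2 re = 2 im`, `re = im`, `nm g ≡ 5 re² = 0 (mod 5)`, but `nm g` is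
  a unit of `ZMod W` (`isUnit_iff_nm`), `5 ∣ W`, so its image in `ZMod 5` is a unit.
-/

namespace Pool.Agent.Lib.MP_d57abb_nt.MR

/-- the norm on the units -/
def nuH (W : ℕ) : (RW W)ˣ →* (ZMod W)ˣ := Units.map (QuadraticAlgebra.norm : RW W →* ZMod W)

/-- the homomorphism `g ↦ g / star g` on the units -/
def stH (W : ℕ) : (RW W)ˣ →* (RW W)ˣ :=
  MonoidHom.id (RW W)ˣ / Units.map ((starRingEnd (RW W)) : RW W →* RW W)

variable {W : ℕ} [NeZero W]

theorem nuH_val (g : (RW W)ˣ) : ((nuH W g : (ZMod W)ˣ) : ZMod W) = nm (g : RW W) := rfl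

/-- the unit `star g` -/
private def ChHa_sg (W : ℕ) : (RW W)ˣ →* (RW W)ˣ := Units.map ((starRingEnd (RW W)) : RW W →* RW W)

omit [NeZero W] in
private theorem ChHa_sg_val (g : (RW W)ˣ) : ((ChHa_sg W g : (RW W)ˣ) : RW W) = star (g : RW W) := rfl

omit [NeZero W] in
private theorem ChHa_st (g : (RW W)ˣ) : stH W g = g / ChHa_sg W g := rfl

theorem stH_mul (g : (RW W)ˣ) : ((stH W g : (RW W)ˣ) : RW W) * star (g : RW W) = g := by
  rw [← ChHa_sg_val, ← Units.val_mul, ChHa_st, div_mul_cancel]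

theorem range_le : (stH W).range ≤ (nuH W).ker := by
  rintro _ ⟨g, rfl⟩
  rw [MonoidHom.mem_ker, ChHa_st, map_div, div_eq_one]
  refine Units.ext ?_
  rw [nuH_val, nuH_val, ChHa_sg_val, nm_star]

private theorem ChHa_ker (g : (RW W)ˣ) (hg : g ∈ (stH W).ker) : (g : RW W).im = 0 := by
  rw [MonoidHom.mem_ker] at hg
  have h1 := stH_mul g
  rw [hg, Units.val_one, one_mul] at h1
  exact (star_fix _).1 h1

omit [NeZero W] in
private theorem ChHa_nm (x : RW W) : nm x = x.re * x.re + 3 * x.re * x.im + x.im * x.im := by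
  unfold nm
  rw [QuadraticAlgebra.norm_def]
  ring

private theorem ChHa_re (g : (RW W)ˣ) (hg : g ∈ (stH W).ker) : IsUnit (g : RW W).re := by
  have h1 := (isUnit_iff_nm (g : RW W)).1 g.isUnit
  rw [ChHa_nm, ChHa_ker g hg, mul_zero, mul_zero, add_zero, add_zero] at h1
  exact isUnit_of_mul_isUnit_left h1

private theorem ChHa_card_ker : Nat.card (stH W).ker ≤ Nat.card (ZMod W)ˣ := by
  refine Nat.card_le_card_of_injective (fun g : (stH W).ker => (ChHa_re g.1 g.2).unit) ?_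
  intro g g' h
  have h1 : ((ChHa_re g.1 g.2).unit : ZMod W) = ((ChHa_re g'.1 g'.2).unit : ZMod W) :=
    congrArg Units.val h
  rw [IsUnit.unit_spec, IsUnit.unit_spec] at h1
  refine Subtype.ext (Units.ext (QuadraticAlgebra.ext h1 ?_))
  rw [ChHa_ker g.1 g.2, ChHa_ker g'.1 g'.2]

private theorem ChHa_sq5_units : ∀ v : (ZMod 5)ˣ, v ^ 2 = 1 ∨ v ^ 2 = -1 := by
  decide

private theorem ChHa_sq5 : ∀ x : ZMod 5, x ^ 2 = 1 → x = 1 ∨ x = 4 := by
  decide

private theorem ChHa_sq5_four : ∀ a b : ZMod 5, a + (a + 3 * b) = 0 → a * a + 3 * a * b + b * b = 0 := by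
  decide

/-- the square modulo five -/
private def ChHa_q (h5 : 5 ∣ W) : (ZMod W)ˣ →* (ZMod 5)ˣ :=
  (powMonoidHom 2).comp (Units.map ((ZMod.castHom h5 (ZMod 5)) : ZMod W →* ZMod 5))

omit [NeZero W] in
private theorem ChHa_card_U (h5 : 5 ∣ W) :
    Nat.card (ZMod W)ˣ ≤ 2 * Nat.card (ChHa_q h5).ker := by
  have h1 := Subgroup.card_mul_index (ChHa_q h5).ker
  rw [Subgroup.index_ker] at h1
  have h2 : Nat.card (ChHa_q h5).range ≤ 2 := by
    have h3 : ((ChHa_q h5).range : Set (ZMod 5)ˣ) ⊆ {1, -1} := by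
      rintro _ ⟨c, rfl⟩
      exact ChHa_sq5_units _
    have h4 : ((ChHa_q h5).range : Set (ZMod 5)ˣ).ncard ≤ ({1, -1} : Set (ZMod 5)ˣ).ncard :=
      Set.ncard_le_ncard h3 (Set.toFinite _)
    have h5 := Set.ncard_insert_le (1 : (ZMod 5)ˣ) {-1}
    rw [Set.ncard_singleton] at h5
    exact h4.trans h5
  rw [← h1, mul_comm]
  exact Nat.mul_le_mul_right _ h2

omit [NeZero W] in
private theorem ChHa_five (h5 : 5 ∣ W) (c : (ZMod W)ˣ) (hc : c ∈ (ChHa_q h5).ker) :
    Five (c : ZMod W) := by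
  intro n hn
  have h1 : ((ZMod.castHom h5 (ZMod 5)) (c : ZMod W)) ^ 2 = 1 := by
    have h2 := congrArg Units.val (MonoidHom.mem_ker.1 hc)
    exact h2
  rw [← hn, map_natCast] at h1
  rcases ChHa_sq5 _ h1 with h | h
  · left
    have h3 : ((n : ℕ) : ZMod 5) = ((1 : ℕ) : ZMod 5) := by rw [h]; rfl
    exact (ZMod.natCast_eq_natCast_iff' n 1 5).1 h3
  · right
    have h3 : ((n : ℕ) : ZMod 5) = ((4 : ℕ) : ZMod 5) := by rw [h]; rfl
    exact (ZMod.natCast_eq_natCast_iff' n 4 5).1 h3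

private theorem ChHa_ker_le (h5 : 5 ∣ W) : (ChHa_q h5).ker ≤ (nuH W).range := by
  intro c hc
  obtain ⟨p, hp, hpc⟩ := exists_prime_class h5 c.isUnit (ChHa_five h5 c hc)
  refine ⟨(isUnit_red_prime hp).unit, ?_⟩
  refine Units.ext ?_
  rw [nuH_val, IsUnit.unit_spec, hpc]

theorem card_ker_le (h5 : 5 ∣ W) : Nat.card (nuH W).ker ≤ 2 * Nat.card (stH W).range := by
  have h1 := Subgroup.card_mul_index (nuH W).ker
  have h2 := Subgroup.card_mul_index (stH W).ker
  rw [Subgroup.index_ker] at h1 h2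
  have h3 : Nat.card (stH W).ker ≤ Nat.card (ZMod W)ˣ := ChHa_card_ker
  have h4 := ChHa_card_U h5
  have h5' : Nat.card (ChHa_q h5).ker ≤ Nat.card (nuH W).range :=
    Nat.card_le_card_of_injective _ (Subgroup.inclusion_injective (ChHa_ker_le h5))
  have h6 : 0 < Nat.card (nuH W).range := Nat.card_pos
  have h7 : Nat.card (nuH W).ker * Nat.card (nuH W).range ≤
      (2 * Nat.card (stH W).range) * Nat.card (nuH W).range := by
    calc Nat.card (nuH W).ker * Nat.card (nuH W).range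
        = Nat.card (stH W).ker * Nat.card (stH W).range := h1.trans h2.symm
      _ ≤ (2 * Nat.card (nuH W).range) * Nat.card (stH W).range :=
          Nat.mul_le_mul_right _ (h3.trans (h4.trans (Nat.mul_le_mul_left _ h5')))
      _ = _ := by ring
  exact Nat.le_of_mul_le_mul_right h7 h6

theorem neg_one_notMem (h5 : 5 ∣ W) : (-1 : (RW W)ˣ) ∉ (stH W).range := by
  rintro ⟨g, hg⟩
  have h1 := stH_mul g
  rw [hg, Units.val_neg, Units.val_one, neg_one_mul] at h1
  have h2 := congrArg QuadraticAlgebra.re h1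
  rw [QuadraticAlgebra.re_neg, QuadraticAlgebra.re_star] at h2
  have h3 : (g : RW W).re + ((g : RW W).re + 3 * (g : RW W).im) = 0 := by
    linear_combination -h2
  have h4 := congrArg (ZMod.castHom h5 (ZMod 5)) h3
  rw [map_add, map_add, map_mul, map_ofNat, map_zero] at h4
  have h6 := ChHa_sq5_four _ _ h4
  have h7 := ((isUnit_iff_nm (g : RW W)).1 g.isUnit).map (ZMod.castHom h5 (ZMod 5))
  rw [ChHa_nm, map_add, map_add, map_mul, map_mul, map_mul, map_mul, map_ofNat, h6] at h7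
  have h8 : Fact (1 < 5) := ⟨by norm_num⟩
  have h9 : Nontrivial (ZMod 5) := ZMod.nontrivial 5
  exact not_isUnit_zero h7

end Pool.Agent.Lib.MP_d57abb_nt.MR
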