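import Mathlib
import Pool.Agent.Lib.MP_d57abb_nt.MR.ChHa

/-!
# JOB ChH: real characters which are trivial on the rational residues

Let `K = (nuH W).ker`, `H = (stH W).range ≤ K` (`range_le`), `Nat.card K ≤ 2 * Nat.card H` (`card_ker_le`), `-1 ∉ H` (`neg_one_notMem`), `-1 ∈ K` (`nm_neg`, `nm_one`).
* For `k ∈ K`: `k ∈ H` or `-k ∈ H`: otherwise `H`, `-H`, `k H` are three disjoint subsets of `K` with `Nat.card H` elements each: or use `Subgroup.mul_mem_iff_of_index_two` for `H.subgroupOf K`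
  (its index is `≤ 2` by the cardinalities (`Subgroup.card_mul_index`), not `1` since `-1 ∈ K`, `-1 ∉ H`, not `0`, so it is `2`).
* `χ = 1` on `H`: for `g : (RW W)ˣ`, `χ (g * star g) = χ (cst (nm g)) = 1` by `h0` (`mul_star_RW`, `five_nm`, `isUnit_iff_nm`), so `χ (star g) = (χ g)⁻¹ = χ g` (`h2`: `χ g ^ 2 = 1`, `MulChar.pow_apply'`,
  `MulChar.one_apply`), and `χ (stH g) * χ (star g) = χ g` (`stH_mul`), so `χ (stH g) = 1` (`χ g ≠ 0`).
* `χ (-1) = 1`: `-1 = cst (-1)` (`cst_neg`, `cst_one`), and `Five (-1)` (`5 ∣ W`: `n ≡ -1 (mod W)` gives `5 ∣ n + 1`, `n % 5 = 4`).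
So `χ x = 1` for every `x` with `nm x = 1`: it is a unit `k ∈ K` (`isUnit_iff_nm`, `nuH_val`); if `-k ∈ H`, `χ k = χ (-1) * χ (-k) = 1`.
-/

namespace Pool.Agent.Lib.MP_d57abb_nt.MR

variable {W : ℕ} [NeZero W]

private theorem ChH_index (h5 : 5 ∣ W) {k : (RW W)ˣ} (hk : k ∈ (nuH W).ker) :
    k ∈ (stH W).range ∨ -k ∈ (stH W).range := by
  have hle : (stH W).range ≤ (nuH W).ker := range_le
  have hm1 : (-1 : (RW W)ˣ) ∈ (nuH W).ker := by
    rw [MonoidHom.mem_ker, Units.ext_iff, nuH_val, Units.val_neg, Units.val_one, nm_neg, nm_one, Units.val_one]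
  have hcard : Nat.card ((stH W).range.subgroupOf (nuH W).ker) = Nat.card (stH W).range :=
    Nat.card_congr (Subgroup.subgroupOfEquivOfLe hle).toEquiv
  have hmul := Subgroup.card_mul_index ((stH W).range.subgroupOf (nuH W).ker)
  rw [hcard] at hmul
  have hpos : 0 < Nat.card (stH W).range := Nat.card_pos
  have hposK : 0 < Nat.card (nuH W).ker := Nat.card_pos
  have hle2 := card_ker_le h5
  rw [← hmul] at hle2
  have hi2 : ((stH W).range.subgroupOf (nuH W).ker).index ≤ 2 := by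
    rw [mul_comm 2] at hle2
    exact Nat.le_of_mul_le_mul_left hle2 hpos
  have hi0 : ((stH W).range.subgroupOf (nuH W).ker).index ≠ 0 := by
    intro h
    rw [h, mul_zero] at hmul
    omega
  have hi1 : ((stH W).range.subgroupOf (nuH W).ker).index ≠ 1 := by
    intro h
    rw [Subgroup.index_eq_one] at h
    have h3 : (⟨-1, hm1⟩ : (nuH W).ker) ∈ (stH W).range.subgroupOf (nuH W).ker := by
      rw [h]
      exact Subgroup.mem_top _
    rw [Subgroup.mem_subgroupOf] at h3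
    exact neg_one_notMem h5 h3
  have hi : ((stH W).range.subgroupOf (nuH W).ker).index = 2 := by omega
  by_cases hkH : k ∈ (stH W).range
  · exact Or.inl hkH
  · right
    have h4 := Subgroup.mul_mem_iff_of_index_two hi (a := (⟨-1, hm1⟩ : (nuH W).ker)) (b := (⟨k, hk⟩ : (nuH W).ker))
    rw [Subgroup.mem_subgroupOf, Subgroup.mem_subgroupOf, Subgroup.mem_subgroupOf] at h4
    have h5' : (-1 : (RW W)ˣ) * k ∈ (stH W).range := h4.2 ⟨fun h => absurd h (neg_one_notMem h5), fun h => absurd h hkH⟩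
    rwa [neg_one_mul] at h5'

private theorem ChH_star (h5 : 5 ∣ W) (χ : MulChar (RW W) ℂ) (h2 : χ ^ 2 = 1)
    (h0 : ∀ c : ZMod W, IsUnit c → Five c → χ (cst c) = 1) (g : (RW W)ˣ) :
    χ (star (g : RW W)) = χ (g : RW W) := by
  have h1 : χ (g : RW W) * χ (star (g : RW W)) = 1 := by
    rw [← map_mul, mul_star_RW]
    exact h0 _ ((isUnit_iff_nm _).1 g.isUnit) (five_nm h5 g.isUnit)
  have h3 : χ (g : RW W) * χ (g : RW W) = 1 := by
    have h4 : (χ ^ 2) (g : RW W) = 1 := by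
      rw [h2, MulChar.one_apply_coe]
    rw [MulChar.pow_apply' χ two_ne_zero, sq] at h4
    exact h4
  have hne : χ (g : RW W) ≠ 0 := by
    intro h
    rw [h, zero_mul] at h3
    exact zero_ne_one h3
  exact mul_left_cancel₀ hne (h1.trans h3.symm)

private theorem ChH_range (h5 : 5 ∣ W) (χ : MulChar (RW W) ℂ) (h2 : χ ^ 2 = 1)
    (h0 : ∀ c : ZMod W, IsUnit c → Five c → χ (cst c) = 1) {k : (RW W)ˣ} (hk : k ∈ (stH W).range) :
    χ (k : RW W) = 1 := by
  obtain ⟨g, rfl⟩ := hk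
  have h1 := congrArg χ (stH_mul g)
  rw [map_mul, ChH_star h5 χ h2 h0 g] at h1
  have hne : χ (g : RW W) ≠ 0 := by
    have h3 : χ (g : RW W) ^ 2 = 1 := by
      have h4 : (χ ^ 2) (g : RW W) = 1 := by
        rw [h2, MulChar.one_apply_coe]
      rwa [MulChar.pow_apply' χ two_ne_zero] at h4
    intro h
    rw [h] at h3
    norm_num at h3
  exact mul_right_cancel₀ hne (h1.trans (one_mul _).symm)

private theorem ChH_neg (h5 : 5 ∣ W) (χ : MulChar (RW W) ℂ)
    (h0 : ∀ c : ZMod W, IsUnit c → Five c → χ (cst c) = 1) : χ (-1 : RW W) = 1 := by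
  have h1 : (-1 : RW W) = cst (-1) := by rw [cst_neg, cst_one]
  rw [h1]
  refine h0 _ isUnit_one.neg ?_
  intro n hn
  have h2 : ((n + 1 : ℕ) : ZMod W) = 0 := by
    push_cast
    rw [hn]
    ring
  rw [ZMod.natCast_eq_zero_iff] at h2
  have h3 : 5 ∣ n + 1 := h5.trans h2
  right
  omega

theorem char_kernel (h5 : 5 ∣ W) (χ : MulChar (RW W) ℂ) (h2 : χ ^ 2 = 1)
    (h0 : ∀ c : ZMod W, IsUnit c → Five c → χ (cst c) = 1) {x : RW W} (hx : nm x = 1) : χ x = 1 := by
  have hu : IsUnit x := by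
    rw [isUnit_iff_nm, hx]
    exact isUnit_one
  obtain ⟨k, rfl⟩ := hu
  have hk : k ∈ (nuH W).ker := by
    rw [MonoidHom.mem_ker, Units.ext_iff, nuH_val, hx, Units.val_one]
  rcases ChH_index h5 hk with h | h
  · exact ChH_range h5 χ h2 h0 h
  · have h3 := ChH_range h5 χ h2 h0 h
    have h4 : (k : RW W) = (-1) * ((-k : (RW W)ˣ) : RW W) := by
      rw [Units.val_neg]
      ring
    rw [h4, map_mul, ChH_neg h5 χ h0, h3, one_mul]

end Pool.Agent.Lib.MP_d57abb_nt.MR
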