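import Mathlib
import Pool.Agent.Lib.MP_d57abb_nt.MR.ChG
import Pool.Agent.Lib.MP_d57abb_nt.MR.ChH
import Pool.Agent.Lib.MP_d57abb_nt.MR.ChC

/-!
# JOB ChI: the nonpretentious property

PROOF of `np_main`.  Let `P p` be `z * χ (red W p) = 1` (good).  Let `p` be as in `exists_good` for the class `c`: `z χ(p) = 1` and `z χ(p') = 1` with `p' = ⟨p.im, p.re⟩`,
`red W p' = red W om * star (red W p)` (`red_swap`), so `χ(p') = χ (star (red W p))` (`hom`) and `z² χ (red W p * star (red W p)) = 1`, i.e. `z² χ (cst c) = 1` (`mul_star_RW`, `nm (red W p) = c`).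
* `c = 1` (`Five 1` since `5 ∣ W`: `n ≡ 1 (mod W)` gives `n % 5 = 1`): `z² = 1` (`cst_one`).  So `χ (cst c) = 1` for all units `c` with `Five c`.
* `χ ^ 2 = 1`: `char_trivial` for `χ ^ 2` (`MulChar.pow_apply'`): `(χ ^ 2) (red W om) = 1`; if `(χ ^ 2)(red W p) ≠ 1` then `z χ(red W p) ≠ 1` (otherwise `χ² = z^(-2) = 1`), so the mass is at most `B`
  (`Finset.sum_le_sum_of_subset_of_nonneg`).
* `char_kernel`: `χ x = 1` if `nm x = 1`.  For the good prime `p` of the class `1`: `χ (red W p) = 1` and `z χ (red W p) = 1`, so `z = 1`, a contradiction.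
`np_datum`: unfold `NP`; if it fails there are `B` and ... (`by_contra`, `push Not`) `∀ y, ∑ ... < B`; `np_main` with `d.D = W` (`subst` / rewrite: write `hD : d.D = W`), `d.f p = z * χ (red W p)`.
-/

namespace Pool.Agent.Lib.MP_d57abb_nt.MR

open Finset

variable {W : ℕ} [NeZero W]

omit [NeZero W] in
private theorem ChI_five_one (h5 : 5 ∣ W) : Five (1 : ZMod W) := by
  intro n hn
  left
  have h1 := congrArg (ZMod.castHom h5 (ZMod 5)) hn
  rw [map_natCast, map_one] at h1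
  have h2 : ((n : ℕ) : ZMod 5) = ((1 : ℕ) : ZMod 5) := by rw [h1, Nat.cast_one]
  exact (ZMod.natCast_eq_natCast_iff' n 1 5).1 h2

/-- a good prime in every class -/
private theorem ChI_good (h5 : 5 ∣ W) (χ : MulChar (RW W) ℂ) {z : ℂ} (hom : χ (red W om) = 1) {B : ℝ}
    (hB : ∀ y : ℝ, ∀ F : Finset O, F ⊆ PP W y → (∀ p ∈ F, z * χ (red W p) ≠ 1) →
      ∑ p ∈ F, 1 / (N p : ℝ) ≤ B) {c : ZMod W} (hc : IsUnit c) (hc5 : Five c) :
    ∃ p : O, z * χ (red W p) = 1 ∧ nm (red W p) = c ∧ z ^ 2 * χ (cst c) = 1 := by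
  classical
  obtain ⟨p, -, h1, h2, h3⟩ := exists_good h5 (fun p => z * χ (red W p) = 1) (B := B)
    (fun y => hB y _ (filter_subset _ _) fun p hp => (mem_filter.1 hp).2) hc hc5
  refine ⟨p, h1, h3, ?_⟩
  rw [red_swap, map_mul, hom, one_mul] at h2
  rw [← h3, ← mul_star_RW, map_mul]
  calc z ^ 2 * (χ (red W p) * χ (star (red W p))) =
      (z * χ (red W p)) * (z * χ (star (red W p))) := by ring
    _ = 1 := by rw [h1, h2, one_mul]

private theorem ChI_main (h5 : 5 ∣ W) (χ : MulChar (RW W) ℂ) {z : ℂ} (hz : z ≠ 1) (hom : χ (red W om) = 1)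
    {B : ℝ} (hB : ∀ y : ℝ, ∀ F : Finset O, F ⊆ PP W y → (∀ p ∈ F, z * χ (red W p) ≠ 1) →
      ∑ p ∈ F, 1 / (N p : ℝ) ≤ B) : False := by
  classical
  obtain ⟨p, hp1, hp2, hp3⟩ := ChI_good h5 χ hom hB isUnit_one (ChI_five_one h5)
  have hz2 : z ^ 2 = 1 := by
    rw [cst_one, map_one, mul_one] at hp3
    exact hp3
  have h0 : ∀ c : ZMod W, IsUnit c → Five c → χ (cst c) = 1 := by
    intro c hc hc5
    obtain ⟨-, -, -, h⟩ := ChI_good h5 χ hom hB hc hc5
    rwa [hz2, one_mul] at h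
  have h2 : χ ^ 2 = 1 := by
    refine char_trivial h5 (χ ^ 2) (B := B) ?_ ?_
    · rw [MulChar.pow_apply' χ two_ne_zero, hom, one_pow]
    · intro y
      refine hB y _ (filter_subset _ _) fun q hq hq1 => ?_
      apply (mem_filter.1 hq).2
      rw [MulChar.pow_apply' χ two_ne_zero]
      calc χ (red W q) ^ 2 = z ^ 2 * χ (red W q) ^ 2 := by rw [hz2, one_mul]
        _ = (z * χ (red W q)) ^ 2 := by ring
        _ = 1 := by rw [hq1, one_pow]
  have h3 : χ (red W p) = 1 := char_kernel h5 χ h2 h0 hp2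
  rw [h3, mul_one] at hp1
  exact hz hp1

omit [NeZero W] in
/-- from the sums over filters to sums over all subsets -/
private theorem ChI_sub {y B : ℝ} {P : O → Prop} {S F G : Finset O} (hG : ∀ p, p ∈ G ↔ p ∈ S ∧ P p)
    (hF : F ⊆ S) (hFP : ∀ p ∈ F, P p) (hS : S = PP W y) (h : ∑ p ∈ G, 1 / (N p : ℝ) ≤ B) :
    ∑ p ∈ F, 1 / (N p : ℝ) ≤ B := by
  refine (Finset.sum_le_sum_of_subset_of_nonneg (fun p hp => (hG p).2 ⟨hF hp, hFP p hp⟩) ?_).trans h
  intro p hp _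
  have h1 : p ∈ PP W y := hS ▸ ((hG p).1 hp).1
  have h2 : 0 < N p := (mem_PP.1 h1).1.1.tp.N_pos
  positivity

open Classical in
theorem np_main (h5 : 5 ∣ W) (χ : MulChar (RW W) ℂ) {z : ℂ} (hz : z ≠ 1) (hom : χ (red W om) = 1) {B : ℝ}
    (hB : ∀ y : ℝ, ∑ p ∈ (PP W y).filter (fun p => z * χ (red W p) ≠ 1), 1 / (N p : ℝ) ≤ B) : False := by
  refine ChI_main h5 χ hz hom (B := B) fun y F hF hFP => ?_
  exact ChI_sub (P := fun p => z * χ (red W p) ≠ 1) (fun p => mem_filter) hF hFP rfl (hB y)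

theorem np_datum (h5 : 5 ∣ W) (χ : MulChar (RW W) ℂ) {z : ℂ} (hz : z ≠ 1) (d : Dat) (hD : d.D = W)
    (hf : ∀ p : O, d.f p = z * χ (red W p)) (ht : (∃ n : ℤ, d.t = n) → χ (red W om) = 1) : NP d := by
  classical
  subst hD
  intro ht' B
  by_contra hcon
  push Not at hcon
  refine ChI_main h5 χ hz (ht ht') (B := B) fun y F hF hFP => ?_
  refine ChI_sub (P := fun p => d.f p ≠ 1) (fun p => mem_filter) hF (fun p hp => ?_) rfl (hcon y).le
  rw [hf]
  exact hFP p hp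

end Pool.Agent.Lib.MP_d57abb_nt.MR
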