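import Mathlib
import Pool.Agent.Lib.MP_d57abb_nt.MR.Bas
import Pool.Agent.Lib.MP_d57abb_nt.MR.ChDef

/-!
# JOB ChJ: integrability of the sums over sectors

`∑ v ∈ s.filter (fun v => θ ≤ An v ∧ An v < θ + δ), a v = ∑ v ∈ s, if θ ≤ An v ∧ An v < θ + δ then a v else 0` (`Finset.sum_filter`), a measurable function of `θ`
(`Measurable.ite`; `{θ | θ ≤ An v ∧ An v < θ + δ}` is measurable (`measurableSet_Iic`, `measurableSet_Ioi`, or `measurability`); `Finset.measurable_sum`) of norm at most `∑ v ∈ s, ‖a v‖ =: M` (`norm_sum_le`); so the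
square of the norm is measurable and bounded by `M ^ 2`, hence interval integrable (`intervalIntegrable_const.mono_fun'`, or `intervalIntegrable_iff` and
`MeasureTheory.Measure.integrableOn_of_bounded`).
-/

namespace Pool.Agent.Lib.MP_d57abb_nt.MR

open Finset MeasureTheory

theorem sector_int (s : Finset O) (a : O → ℂ) (δ : ℝ) :
    IntervalIntegrable (fun θ : ℝ => ‖∑ v ∈ s.filter (fun v => θ ≤ An v ∧ An v < θ + δ), a v‖ ^ 2) volume 0 per := by
  have h1 : ∀ θ : ℝ, ∑ v ∈ s.filter (fun v => θ ≤ An v ∧ An v < θ + δ), a v =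
      ∑ v ∈ s, if θ ≤ An v ∧ An v < θ + δ then a v else 0 := fun θ => Finset.sum_filter _ _
  have hm : Measurable (fun θ : ℝ =>
      ‖∑ v ∈ s.filter (fun v => θ ≤ An v ∧ An v < θ + δ), a v‖ ^ 2) := by
    have h2 : (fun θ : ℝ => ‖∑ v ∈ s.filter (fun v => θ ≤ An v ∧ An v < θ + δ), a v‖ ^ 2) =
        fun θ : ℝ => ‖∑ v ∈ s, if θ ≤ An v ∧ An v < θ + δ then a v else 0‖ ^ 2 := by
      funext θ
      rw [h1]
    rw [h2]
    refine Measurable.pow_const (Measurable.norm (Finset.measurable_sum _ fun v _ => ?_)) 2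
    refine Measurable.ite ?_ measurable_const measurable_const
    exact (measurableSet_Iic (a := An v)).inter
      (measurableSet_lt measurable_const (measurable_id.add_const δ))
  refine (intervalIntegrable_const (c := (∑ v ∈ s, ‖a v‖) ^ 2)).mono_fun'
    hm.aestronglyMeasurable (Filter.Eventually.of_forall fun θ => ?_)
  show ‖‖∑ v ∈ s.filter (fun v => θ ≤ An v ∧ An v < θ + δ), a v‖ ^ 2‖ ≤ (∑ v ∈ s, ‖a v‖) ^ 2
  rw [Real.norm_eq_abs, abs_of_nonneg (sq_nonneg _)]
  refine pow_le_pow_left₀ (norm_nonneg _) ?_ 2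
  refine (norm_sum_le _ _).trans ?_
  exact Finset.sum_le_sum_of_subset_of_nonneg (Finset.filter_subset _ _)
    fun v _ _ => norm_nonneg _

end Pool.Agent.Lib.MP_d57abb_nt.MR
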