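import Mathlib
import Pool.Agent.Lib.MP_d57abb_nt.MR.ChI
import Pool.Agent.Lib.MP_d57abb_nt.MR.ChJ

/-!
# JOB ChK: sums over sectors in residue classes modulo `W`, `5 ∣ W`

For every `χ` and every `a₀ : RW W` let `d χ a₀` be the datum of `datum h5 hq0 hq χ a₀` (`choose`), `NP` by `np_datum`, `SB` by `hS`; let `m = Fintype.card (MulChar (RW W) ℂ)`, `m ≥ 1`.
Take `ε' = ε / m ^ 2`, `A0 χ a₀` from `SB`, `A0 = ∑_{χ, a₀} |A0 χ a₀|`, for `A ≥ A0` the `X0 χ a₀` (they depend on `A`) and `X0 = ∑ |X0 χ a₀|`.  Let `a₀ = red W ⟨c1, c2⟩`.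
For `v : O`: `red W v = a₀ ↔ v.re ≡ c1 ∧ v.im ≡ c2 [ZMOD W]` (`red_eq_iff`), and
`(if red W v = a₀ then z ^ Ω else 0) = ∑_χ z ^ Ω * psi χ a₀ (red W v) = ∑_χ (d χ a₀).a v` (`sum_psi`), `Ω = cardFactors (N v).natAbs`.  So the sum over the sector is `∑_χ S_χ(θ)`, with
`S_χ(θ) = ∑ v ∈ (V' X).filter (fun v => θ ≤ An v ∧ An v < θ + A / X), (d χ a₀).a v` (`Finset.filter_and`/`Finset.sum_filter`, `Finset.sum_comm`);
`‖∑_χ S_χ‖² ≤ m ∑_χ ‖S_χ‖²` (`norm_sum_le`, `sq_sum_le_card_mul_sum_sq`), and the integral is at most `m ∑_χ ∫ ‖S_χ‖² ≤ m * (m * (ε' A²)) = ε A²` (`intervalIntegral.integral_mono_on`, `intervalIntegral.integral_const_mul`,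
`intervalIntegral.integral_finset_sum`, `sector_int`, `per_pos`; the integrability of the left hand side: it is the square of the norm of a filtered sum with coefficients
`if red W v = a₀ then z ^ Ω else 0`, so `sector_int` again after rewriting, or `Integrable.mono`).
-/

namespace Pool.Agent.Lib.MP_d57abb_nt.MR

open Finset MeasureTheory

private theorem ChK_int (s : Finset O) (a : O → ℂ) (δ : ℝ) (P : O → Prop) [DecidablePred P] :
    IntervalIntegrable (fun θ : ℝ =>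
      ‖∑ v ∈ s.filter (fun v => (θ ≤ An v ∧ An v < θ + δ) ∧ P v), a v‖ ^ 2) volume 0 per := by
  have h : (fun θ : ℝ => ‖∑ v ∈ s.filter (fun v => (θ ≤ An v ∧ An v < θ + δ) ∧ P v), a v‖ ^ 2) =
      fun θ : ℝ => ‖∑ v ∈ (s.filter P).filter (fun v => θ ≤ An v ∧ An v < θ + δ), a v‖ ^ 2 := by
    funext θ
    have h1 : s.filter (fun v => (θ ≤ An v ∧ An v < θ + δ) ∧ P v) =
        (s.filter P).filter (fun v => θ ≤ An v ∧ An v < θ + δ) := by
      ext v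
      simp only [Finset.mem_filter]
      tauto
    rw [h1]
  rw [h]
  exact sector_int _ _ _

private theorem ChK_comb {ι : Type*} [Fintype ι] (F : ℝ → ℂ) (G : ι → ℝ → ℂ)
    (h : ∀ θ, F θ = ∑ i, G i θ)
    (hF : IntervalIntegrable (fun θ => ‖F θ‖ ^ 2) volume 0 per)
    (hG : ∀ i, IntervalIntegrable (fun θ => ‖G i θ‖ ^ 2) volume 0 per) (C : ℝ)
    (hC : ∀ i, ∫ θ in (0 : ℝ)..per, ‖G i θ‖ ^ 2 ≤ C) :
    ∫ θ in (0 : ℝ)..per, ‖F θ‖ ^ 2 ≤ (Fintype.card ι : ℝ) ^ 2 * C := by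
  have hsum : IntervalIntegrable (fun θ => (Fintype.card ι : ℝ) * ∑ i, ‖G i θ‖ ^ 2)
      volume 0 per := by
    refine IntervalIntegrable.const_mul ?_ _
    have h1 := IntervalIntegrable.sum (μ := volume) (a := (0 : ℝ)) (b := per) Finset.univ
      (f := fun i θ => ‖G i θ‖ ^ 2) (fun i _ => hG i)
    have h2 : (fun θ => ∑ i, ‖G i θ‖ ^ 2) = ∑ i, fun θ => ‖G i θ‖ ^ 2 := by
      funext θ
      rw [Finset.sum_apply]
    rw [h2]
    exact h1
  calc ∫ θ in (0 : ℝ)..per, ‖F θ‖ ^ 2 ≤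
        ∫ θ in (0 : ℝ)..per, (Fintype.card ι : ℝ) * ∑ i, ‖G i θ‖ ^ 2 := by
        refine intervalIntegral.integral_mono_on per_pos.le hF hsum fun θ _ => ?_
        rw [h θ]
        have h1 : ‖∑ i, G i θ‖ ≤ ∑ i, ‖G i θ‖ := norm_sum_le _ _
        have h2 : (∑ i, ‖G i θ‖) ^ 2 ≤ (Finset.univ : Finset ι).card * ∑ i, ‖G i θ‖ ^ 2 :=
          sq_sum_le_card_mul_sum_sq
        rw [Finset.card_univ] at h2
        exact (pow_le_pow_left₀ (norm_nonneg _) h1 2).trans h2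
    _ = (Fintype.card ι : ℝ) * ∑ i, ∫ θ in (0 : ℝ)..per, ‖G i θ‖ ^ 2 := by
        rw [intervalIntegral.integral_const_mul, intervalIntegral.integral_finsetSum]
        exact fun i _ => hG i
    _ ≤ (Fintype.card ι : ℝ) * ∑ i : ι, C := by
        refine mul_le_mul_of_nonneg_left (Finset.sum_le_sum fun i _ => hC i) (Nat.cast_nonneg _)
    _ = (Fintype.card ι : ℝ) ^ 2 * C := by
        rw [Finset.sum_const, Finset.card_univ, nsmul_eq_mul]
        ring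

theorem MR5 (hS : ∀ d : Dat, NP d → SB d) {z : ℂ} {q : ℕ} (hq0 : 0 < q) (hq : z ^ q = 1) (hz : z ≠ 1)
    {W : ℕ} (hW : 0 < W) (h5 : 5 ∣ W) {ε : ℝ} (hε : 0 < ε) :
    ∃ A0 : ℝ, ∀ A : ℝ, A0 ≤ A → ∃ X0 : ℝ, ∀ X : ℝ, X0 ≤ X → ∀ c1 c2 : ℤ,
      ∫ θ in (0 : ℝ)..per, ‖∑ v ∈ (V' X).filter (fun v => (θ ≤ An v ∧ An v < θ + A / X) ∧ v.re ≡ c1 [ZMOD W] ∧ v.im ≡ c2 [ZMOD W]),
        z ^ (ArithmeticFunction.cardFactors (N v).natAbs)‖ ^ 2 ≤ ε * A ^ 2 := by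
  have hne : NeZero W := ⟨hW.ne'⟩
  have hdat : ∀ (χ : MulChar (RW W) ℂ) (a₀ : RW W), ∃ d : Dat, SB d ∧
      ∀ x : O, d.a x = z ^ (ArithmeticFunction.cardFactors (N x).natAbs) * psi χ a₀ (red W x) := by
    intro χ a₀
    obtain ⟨d, hD, ha, hf, ht⟩ := datum h5 hq0 hq χ a₀
    exact ⟨d, hS d (np_datum h5 χ hz d hD hf ht), ha⟩
  choose d hSB hda using hdat
  have hm : (0 : ℝ) < (Fintype.card (MulChar (RW W) ℂ) : ℝ) := by
    exact_mod_cast Fintype.card_pos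
  have hε' : 0 < ε / (Fintype.card (MulChar (RW W) ℂ) : ℝ) ^ 2 := by positivity
  choose A0 hA0 using fun χ a₀ => hSB χ a₀ _ hε'
  refine ⟨∑ χ, ∑ a₀, |A0 χ a₀|, ?_⟩
  intro A hA
  have hA' : ∀ χ a₀, A0 χ a₀ ≤ A := by
    intro χ a₀
    refine (le_abs_self _).trans (le_trans ?_ hA)
    refine le_trans (Finset.single_le_sum (f := fun a₀ => |A0 χ a₀|)
      (fun i _ => abs_nonneg _) (Finset.mem_univ a₀)) ?_
    exact Finset.single_le_sum (f := fun χ => ∑ a₀, |A0 χ a₀|)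
      (fun i _ => Finset.sum_nonneg fun j _ => abs_nonneg _) (Finset.mem_univ χ)
  choose X0 hX0 using fun χ a₀ => hA0 χ a₀ A (hA' χ a₀)
  refine ⟨∑ χ, ∑ a₀, |X0 χ a₀|, ?_⟩
  intro X hX c1 c2
  have hX' : ∀ χ a₀, X0 χ a₀ ≤ X := by
    intro χ a₀
    refine (le_abs_self _).trans (le_trans ?_ hX)
    refine le_trans (Finset.single_le_sum (f := fun a₀ => |X0 χ a₀|)
      (fun i _ => abs_nonneg _) (Finset.mem_univ a₀)) ?_
    exact Finset.single_le_sum (f := fun χ => ∑ a₀, |X0 χ a₀|)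
      (fun i _ => Finset.sum_nonneg fun j _ => abs_nonneg _) (Finset.mem_univ χ)
  have h1 := ChK_comb (ι := MulChar (RW W) ℂ)
    (fun θ => ∑ v ∈ (V' X).filter (fun v => (θ ≤ An v ∧ An v < θ + A / X) ∧
        v.re ≡ c1 [ZMOD W] ∧ v.im ≡ c2 [ZMOD W]),
        z ^ (ArithmeticFunction.cardFactors (N v).natAbs))
    (fun χ θ => ∑ v ∈ (V' X).filter (fun v => θ ≤ An v ∧ An v < θ + A / X),
      (d χ (red W ⟨c1, c2⟩)).a v) ?_ (ChK_int _ _ _ _) (fun χ => sector_int _ _ _)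
    (ε / (Fintype.card (MulChar (RW W) ℂ) : ℝ) ^ 2 * A ^ 2)
    (fun χ => hX0 χ (red W ⟨c1, c2⟩) X (hX' χ _))
  · refine h1.trans (le_of_eq ?_)
    field_simp
  · intro θ
    show ∑ v ∈ (V' X).filter (fun v => (θ ≤ An v ∧ An v < θ + A / X) ∧
        v.re ≡ c1 [ZMOD W] ∧ v.im ≡ c2 [ZMOD W]),
        z ^ (ArithmeticFunction.cardFactors (N v).natAbs) =
      ∑ χ, ∑ v ∈ (V' X).filter (fun v => θ ≤ An v ∧ An v < θ + A / X),
        (d χ (red W ⟨c1, c2⟩)).a v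
    classical
    rw [Finset.sum_comm]
    have h2 : ∀ v : O, ∑ χ, (d χ (red W ⟨c1, c2⟩)).a v =
        if red W v = red W ⟨c1, c2⟩ then z ^ (ArithmeticFunction.cardFactors (N v).natAbs)
          else 0 := by
      intro v
      rw [Finset.sum_congr rfl fun χ _ => hda χ (red W ⟨c1, c2⟩) v, ← Finset.mul_sum, sum_psi]
      split_ifs
      · rw [mul_one]
      · rw [mul_zero]
    rw [Finset.sum_congr rfl fun v _ => h2 v, ← Finset.sum_filter]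
    refine Finset.sum_congr ?_ fun v _ => rfl
    ext v
    rw [Finset.mem_filter, Finset.mem_filter, Finset.mem_filter, red_eq_iff]
    tauto

end Pool.Agent.Lib.MP_d57abb_nt.MR
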