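import Mathlib
import Pool.Agent.Lib.MP_d57abb_nt.MR.PrA

/-!
# JOB BkA: the mass of a short block

The hypothesis `hsw` is the prime number theorem with error `y / (log y)²`.
PROOF.  `L = log X`, `K = ⌈L⌉₊`, `y = exp (n / K) ∈ [X^ρ, X]` (`n / K ≥ ρ L`).  If `⌊K log N p⌋₊ = n` then `y ≤ N p < y e^(1/K) ≤ y (1 + 2/K)`.  `N p = q` is a prime; for each `q` there are at most two such `p`: one
in `PS` (`PS_inj`) and one whose swap `⟨p.im, p.re⟩` is in `PS` (`Dg.swap`, `Dg.re_ne_im`).  So the sum is at most `(2 / y) #{q prime : a < q ≤ b}` with `a = ⌈y⌉₊ - 1`, `b = ⌊y (1 + 2/K)⌋₊`, and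
`#{..} log y ≤ ∑_{a < q ≤ b} log q = θ(b) - θ(a) ≤ b - a + b / (log b)² + a / (log a)² ≤ 2 y / K + 2 + 6 y / (log a)²`, `log a ≥ (ρ / 2) L`: for `X` large (depending on `ρ` only; `K ≤ L + 1`, `y ≥ X^ρ`)
`2 + 24 y / (ρ² L²) ≤ 2 y / K` (`24 / (ρ² L²) ≤ 1 / K` for `L ≥ 50 / ρ²`, and `2 ≤ y / K`).  So `#{..} log y ≤ 4 y / K`, and the sum is `≤ (2 / y)(4 y / (K log y)) = 8 / n` (`K log y = n`).
So `C = 8` works.
-/

namespace Pool.Agent.Lib.MP_d57abb_nt.MR

open Finset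

private theorem BkA_exp {x : ℝ} (h0 : 0 ≤ x) (h1 : x ≤ 1) : Real.exp x ≤ 1 + 2 * x := by
  have h := Real.abs_exp_sub_one_sub_id_le (x := x) (by rw [abs_of_nonneg h0]; exact h1)
  have h2 := (abs_le.1 h).2
  nlinarith

private theorem BkA_card {D : ℕ} (h5 : 5 ∣ D) {z : ℝ} (S : Finset O) (hS : S ⊆ PP D z) (Q : Finset ℕ)
    (hQ : ∀ p ∈ S, (N p).natAbs ∈ Q) : S.card ≤ 2 * Q.card := by
  classical
  have h : S.card ≤ (Q ×ˢ (Finset.univ : Finset Bool)).card := by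
    refine Finset.card_le_card_of_injOn (fun p => ((N p).natAbs, decide (p.im < p.re))) ?_ ?_
    · intro p hp
      exact Finset.mem_coe.2 (Finset.mem_product.2 ⟨hQ p hp, Finset.mem_univ _⟩)
    · intro p hp p' hp' h
      obtain ⟨h1, h2⟩ := Prod.mk.injEq _ _ _ _ ▸ h
      have hd := (mem_PP.1 (hS hp)).1
      have hd' := (mem_PP.1 (hS hp')).1
      have k1 := hd.two_le
      have k2 := hd'.two_le
      have hN : N p = N p' := by omega
      have h2' : (p.im < p.re) ↔ (p'.im < p'.re) := by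
        have := decide_eq_decide.1 h2
        exact this
      by_cases hc : p.im < p.re
      · exact PS_inj (mem_PS.2 ⟨mem_PP.1 (hS hp), hc⟩) (mem_PS.2 ⟨mem_PP.1 (hS hp'), h2'.1 hc⟩) hN
      · have hc' : ¬ p'.im < p'.re := fun h => hc (h2'.2 h)
        have r1 := hd.re_ne_im h5
        have r2 := hd'.re_ne_im h5
        have e1 : N (⟨p.im, p.re⟩ : O) = N p := by unfold N; ring
        have e2 : N (⟨p'.im, p'.re⟩ : O) = N p' := by unfold N; ring
        have m1 : (⟨p.im, p.re⟩ : O) ∈ PS D z := by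
          rw [mem_PS, e1]
          refine ⟨⟨hd.swap, (mem_PP.1 (hS hp)).2⟩, ?_⟩
          show p.re < p.im
          omega
        have m2 : (⟨p'.im, p'.re⟩ : O) ∈ PS D z := by
          rw [mem_PS, e2]
          refine ⟨⟨hd'.swap, (mem_PP.1 (hS hp')).2⟩, ?_⟩
          show p'.re < p'.im
          omega
        have h3 := PS_inj m1 m2 (by rw [e1, e2, hN])
        have h4 : p.im = p'.im := congrArg QuadraticAlgebra.re h3
        have h5' : p.re = p'.re := congrArg QuadraticAlgebra.im h3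
        exact QuadraticAlgebra.ext h5' h4
  rw [Finset.card_product, Finset.card_univ, Fintype.card_bool] at h
  omega

/-- primes in a short interval -/
private theorem BkA_primes {y₀ : ℕ} (hsw : ∀ y : ℕ, y₀ ≤ y →
      |∑ n ∈ Ioc 0 y, (if n.Prime then Real.log n else 0) - (y : ℝ)| ≤ y / Real.log y ^ 2)
    {a b : ℕ} (ha : y₀ ≤ a) (hab : a ≤ b) {y : ℝ} (hy : 1 ≤ y) (hay : y ≤ a + 1) :
    (((Ioc a b).filter Nat.Prime).card : ℝ) * Real.log y ≤
      (b : ℝ) - a + b / Real.log b ^ 2 + a / Real.log a ^ 2 := by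
  have h1 : (((Ioc a b).filter Nat.Prime).card : ℝ) * Real.log y ≤
      ∑ q ∈ (Ioc a b).filter Nat.Prime, Real.log q := by
    rw [← nsmul_eq_mul]
    refine Finset.card_nsmul_le_sum _ _ _ (fun q hq => ?_)
    rw [Finset.mem_filter, Finset.mem_Ioc] at hq
    have h3 : (a : ℝ) + 1 ≤ q := by exact_mod_cast hq.1.1
    exact Real.log_le_log (by linarith) (by linarith)
  have h2 : ∑ q ∈ (Ioc a b).filter Nat.Prime, Real.log q =
      ∑ n ∈ Ioc 0 b, (if n.Prime then Real.log n else 0) - ∑ n ∈ Ioc 0 a, (if n.Prime then Real.log n else 0) := by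
    rw [Finset.sum_filter, ← Finset.sum_Ioc_consecutive (fun n : ℕ => if n.Prime then Real.log n else 0) (Nat.zero_le a) hab]
    ring
  have hb := (abs_le.1 (hsw b (ha.trans hab))).2
  have ha' := (abs_le.1 (hsw a ha)).1
  rw [h2] at h1
  linarith

theorem block_mass_aux {D : ℕ} (h5 : 5 ∣ D)
    (hsw : ∃ y₀ : ℕ, ∀ y : ℕ, y₀ ≤ y → |∑ n ∈ Ioc 0 y, (if n.Prime then Real.log n else 0) - (y : ℝ)| ≤ y / Real.log y ^ 2) :
    ∀ ρ : ℝ, 0 < ρ → ∃ X₀ : ℝ, 3 ≤ X₀ ∧ ∀ X : ℝ, X₀ ≤ X → ∀ n : ℕ,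
      ρ * (⌈Real.log X⌉₊ * Real.log X) ≤ n → (n : ℝ) ≤ ⌈Real.log X⌉₊ * Real.log X →
      ∑ p ∈ (PP D X).filter (fun p => ⌊(⌈Real.log X⌉₊ : ℝ) * Real.log (N p)⌋₊ = n), 1 / (N p : ℝ) ≤ 8 / n := by
  classical
  obtain ⟨y₀, hsw⟩ := hsw
  intro ρ hρ
  have q1 : 0 ≤ ((y₀ : ℝ) + 2) / ρ := by positivity
  have q2 : 0 ≤ 24 / ρ ^ 2 := by positivity
  refine ⟨Real.exp (2 + (y₀ + 2) / ρ + 24 / ρ ^ 2), ?_, ?_⟩
  · have h1 := Real.add_one_le_exp (2 + ((y₀ : ℝ) + 2) / ρ + 24 / ρ ^ 2)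
    linarith
  intro X hX n hn1 hn2
  have hX0 : 0 < X := lt_of_lt_of_le (Real.exp_pos _) hX
  have hL0 : 2 + ((y₀ : ℝ) + 2) / ρ + 24 / ρ ^ 2 ≤ Real.log X := (Real.le_log_iff_exp_le hX0).2 hX
  generalize hLdef : Real.log X = L at *
  have hL2 : 2 ≤ L := by linarith
  have hLρ : (y₀ : ℝ) + 2 ≤ ρ * L := by
    have h1 : ((y₀ : ℝ) + 2) / ρ ≤ L := by linarith
    rw [div_le_iff₀ hρ] at h1
    linarith
  have hL24 : 24 ≤ ρ ^ 2 * L := by
    have h1 : 24 / ρ ^ 2 ≤ L := by linarith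
    rw [div_le_iff₀ (by positivity)] at h1
    linarith
  have hKL : L ≤ (⌈L⌉₊ : ℝ) := Nat.le_ceil L
  have hKL' : (⌈L⌉₊ : ℝ) < L + 1 := Nat.ceil_lt_add_one (by linarith)
  generalize hKdef : ⌈L⌉₊ = K at *
  have hK2 : (2 : ℝ) ≤ K := by linarith
  have hK0 : (0 : ℝ) < K := by linarith
  have hn1' : ρ * L ≤ n / K := by
    rw [le_div_iff₀ hK0]
    linarith
  have hn0 : (0 : ℝ) < n := by
    have h1 : 0 < ρ * L := by positivity
    have h2 : (0 : ℝ) < n / K := lt_of_lt_of_le h1 hn1'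
    have h3 := mul_pos h2 hK0
    rwa [div_mul_cancel₀ _ hK0.ne'] at h3
  obtain ⟨y, hy⟩ : ∃ y : ℝ, y = Real.exp (n / K) := ⟨_, rfl⟩
  have hy0 : 0 < y := by rw [hy]; exact Real.exp_pos _
  have hlogy : Real.log y = n / K := by rw [hy, Real.log_exp]
  have hylow : 1 + ρ * L + (ρ * L) ^ 2 / 2 ≤ y := by
    rw [hy]
    exact (Real.quadratic_le_exp_of_nonneg (by positivity)).trans (Real.exp_le_exp.2 hn1')
  have hy1 : (y₀ : ℝ) + 3 ≤ y := by
    have h := sq_nonneg (ρ * L)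
    linarith
  have hsqL : 24 * L ≤ (ρ * L) ^ 2 := by
    have h := mul_le_mul_of_nonneg_right hL24 (by linarith : (0 : ℝ) ≤ L)
    have e1 : (ρ * L) ^ 2 = ρ ^ 2 * L * L := by ring
    rw [e1]
    exact h
  have hyK : (K : ℝ) ≤ y := by
    have h1 : 12 * L ≤ (ρ * L) ^ 2 / 2 := by linarith
    have h2 : 0 ≤ ρ * L := by positivity
    linarith
  have hy3 : 3 ≤ y := by
    have : (0 : ℝ) ≤ y₀ := Nat.cast_nonneg _
    linarith
  have hinvK : 1 / (K : ℝ) ≤ 1 := by rw [div_le_one hK0]; linarith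
  have hinvK0 : 0 ≤ 1 / (K : ℝ) := by positivity
  -- the elements of the block
  have hblock : ∀ p ∈ (PP D X).filter (fun p => ⌊(K : ℝ) * Real.log (N p)⌋₊ = n),
      y ≤ (N p : ℝ) ∧ (N p : ℝ) ≤ y * (1 + 2 / K) := by
    intro p hp
    rw [Finset.mem_filter, mem_PP] at hp
    obtain ⟨⟨hd, hpX⟩, hfl⟩ := hp
    have hN2 : (2 : ℝ) ≤ N p := by exact_mod_cast hd.two_le
    have hlog0 : 0 ≤ Real.log (N p) := Real.log_nonneg (by linarith)
    rw [Nat.floor_eq_iff (by positivity)] at hfl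
    have h1 : (n : ℝ) / K ≤ Real.log (N p) := by
      rw [div_le_iff₀ hK0]
      linarith [hfl.1]
    have h2 : Real.log (N p) ≤ n / K + 1 / K := by
      rw [← add_div, le_div_iff₀ hK0]
      linarith [hfl.2]
    constructor
    · rw [hy, ← Real.le_log_iff_exp_le (by linarith)]
      exact h1
    · have h3 : (N p : ℝ) ≤ Real.exp (n / K + 1 / K) := by
        rw [← Real.log_le_iff_le_exp (by linarith)]
        exact h2
      rw [Real.exp_add, ← hy] at h3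
      refine h3.trans (mul_le_mul_of_nonneg_left ?_ hy0.le)
      refine (BkA_exp hinvK0 hinvK).trans (le_of_eq ?_)
      ring
  obtain ⟨a, ha⟩ : ∃ a : ℕ, a = ⌈y⌉₊ - 1 := ⟨_, rfl⟩
  obtain ⟨b, hb⟩ : ∃ b : ℕ, b = ⌊y * (1 + 2 / K)⌋₊ := ⟨_, rfl⟩
  have hceil : 1 ≤ ⌈y⌉₊ := Nat.one_le_iff_ne_zero.2 (by
    intro h
    rw [Nat.ceil_eq_zero] at h
    linarith)
  have ha1 : y ≤ (a : ℝ) + 1 := by
    have h1 : a + 1 = ⌈y⌉₊ := by omega
    have h2 := Nat.le_ceil y
    rw [← h1] at h2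
    exact_mod_cast h2
  have ha2 : (a : ℝ) ≤ y := by
    have h1 : a + 1 = ⌈y⌉₊ := by omega
    have h2 := Nat.ceil_lt_add_one hy0.le
    rw [← h1] at h2
    push_cast at h2
    linarith
  have hyK2 : 2 ≤ y * (2 / K) := by
    rw [mul_div_assoc', le_div_iff₀ hK0]
    linarith
  have hb1 : (b : ℝ) ≤ y * (1 + 2 / K) := by
    rw [hb]
    exact Nat.floor_le (by positivity)
  have hb2 : y + 1 ≤ b := by
    have h1 := Nat.lt_floor_add_one (y * (1 + 2 / K))
    rw [← hb] at h1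
    linarith
  have hab : a ≤ b := by
    have : (a : ℝ) ≤ b := by linarith
    exact_mod_cast this
  have hay0 : y₀ ≤ a := by
    have : (y₀ : ℝ) ≤ a := by linarith
    exact_mod_cast this
  have hprimes := BkA_primes hsw hay0 hab (by linarith : (1 : ℝ) ≤ y) ha1
  have hcard := BkA_card h5 ((PP D X).filter (fun p => ⌊(K : ℝ) * Real.log (N p)⌋₊ = n)) (Finset.filter_subset _ _)
    ((Ioc a b).filter Nat.Prime) (by
      intro p hp
      obtain ⟨h1, h2⟩ := hblock p hp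
      rw [Finset.mem_filter, mem_PP] at hp
      have hN : ((N p).natAbs : ℝ) = N p := by
        rw [Nat.cast_natAbs, abs_of_pos (by have := hp.1.1.two_le; omega)]
      rw [Finset.mem_filter, Finset.mem_Ioc]
      refine ⟨⟨?_, ?_⟩, hp.1.1.2.1⟩
      · have h3 : ⌈y⌉₊ ≤ (N p).natAbs := Nat.ceil_le.2 (by rw [hN]; exact h1)
        omega
      · rw [hb]
        exact Nat.le_floor (by rw [hN]; exact h2))
  have hcard' : (((PP D X).filter (fun p => ⌊(K : ℝ) * Real.log (N p)⌋₊ = n)).card : ℝ) ≤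
      2 * (((Ioc a b).filter Nat.Prime).card : ℝ) := by exact_mod_cast hcard
  -- logarithms
  have hloga : ρ * L / 2 ≤ Real.log a := by
    have h1 : y / 2 ≤ a := by linarith
    have h2 : Real.log (y / 2) ≤ Real.log a := Real.log_le_log (by positivity) h1
    rw [Real.log_div hy0.ne' two_ne_zero, hlogy] at h2
    have h3 : Real.log 2 ≤ 1 := by
      have := Real.log_two_lt_d9
      linarith
    have h4 : (0 : ℝ) ≤ y₀ := Nat.cast_nonneg _
    linarith
  have hlogb : ρ * L / 2 ≤ Real.log b := by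
    refine hloga.trans (Real.log_le_log ?_ (by exact_mod_cast hab))
    linarith
  have hρL : 0 < ρ * L / 2 := by positivity
  have hA : (a : ℝ) / Real.log a ^ 2 ≤ y / (ρ * L / 2) ^ 2 := by
    refine div_le_div₀ hy0.le ha2 (by positivity) ?_
    exact pow_le_pow_left₀ hρL.le hloga 2
  have hbY : (b : ℝ) ≤ 2 * y := by
    have h1 : 2 / (K : ℝ) ≤ 1 := by rw [div_le_one hK0]; exact hK2
    have h2 : y * (1 + 2 / K) ≤ y * 2 := mul_le_mul_of_nonneg_left (by linarith) hy0.le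
    linarith
  have hB : (b : ℝ) / Real.log b ^ 2 ≤ 2 * y / (ρ * L / 2) ^ 2 := by
    refine div_le_div₀ (by positivity) hbY (by positivity) ?_
    exact pow_le_pow_left₀ hρL.le hlogb 2
  have hC : y / (ρ * L / 2) ^ 2 + 2 * y / (ρ * L / 2) ^ 2 ≤ y / K := by
    rw [← add_div, div_le_div_iff₀ (by positivity) hK0]
    have h1 : 12 * (K : ℝ) ≤ (ρ * L) ^ 2 := by linarith
    have h2 : y * (12 * (K : ℝ)) ≤ y * (ρ * L) ^ 2 := mul_le_mul_of_nonneg_left h1 hy0.le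
    have e1 : (y + 2 * y) * (K : ℝ) = y * (12 * (K : ℝ)) / 4 := by ring
    have e2 : y * (ρ * L / 2) ^ 2 = y * (ρ * L) ^ 2 / 4 := by ring
    rw [e1, e2]
    linarith
  have hD : (1 : ℝ) ≤ y / K := by rw [le_div_iff₀ hK0]; linarith
  have hfin : (((Ioc a b).filter Nat.Prime).card : ℝ) * Real.log y ≤ 4 * (y / K) := by
    refine hprimes.trans ?_
    have e1 : y * (1 + 2 / K) = y + 2 * (y / K) := by ring
    rw [e1] at hb1
    linarith
  have hsum : ∑ p ∈ (PP D X).filter (fun p => ⌊(K : ℝ) * Real.log (N p)⌋₊ = n), 1 / (N p : ℝ) ≤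
      (((PP D X).filter (fun p => ⌊(K : ℝ) * Real.log (N p)⌋₊ = n)).card : ℝ) * (1 / y) := by
    rw [← nsmul_eq_mul]
    refine Finset.sum_le_card_nsmul _ _ _ (fun p hp => ?_)
    exact one_div_le_one_div_of_le hy0 (hblock p hp).1
  refine hsum.trans ?_
  rw [hlogy] at hfin
  have hfin2 : (((Ioc a b).filter Nat.Prime).card : ℝ) * n ≤ 4 * y := by
    have h1 := mul_le_mul_of_nonneg_right hfin hK0.le
    have e1 : (((Ioc a b).filter Nat.Prime).card : ℝ) * (n / K) * K = (((Ioc a b).filter Nat.Prime).card : ℝ) * n := by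
      field_simp
    have e2 : 4 * (y / K) * K = 4 * y := by field_simp
    rwa [e1, e2] at h1
  rw [mul_one_div, div_le_div_iff₀ hy0 hn0]
  have h9 := mul_le_mul_of_nonneg_right hcard' hn0.le
  linarith

end Pool.Agent.Lib.MP_d57abb_nt.MR
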