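import Mathlib

/-!
# JOB Sch: Bessel's inequality with row sums

Let `y i = ∑_{v ∈ S} b v φ i v` and `T = ∑_i ‖y i‖²`.  `T = ∑_v b v (∑_i conj (y i) φ i v) ≤ (∑ ‖b v‖²)^(1/2) (∑_v ‖∑_i conj (y i) φ i v‖²)^(1/2)`, and the last sum is
`∑_{i,k} conj (y i) y k G i k`, `G i k = ∑_v φ i v conj (φ k v)`, at most `∑_{i,k} (‖y i‖² + ‖y k‖²)/2 ‖G i k‖ ≤ R T` (`‖G i k‖ = ‖G k i‖`).  So `T² ≤ ∑ ‖b v‖² R T`.
-/

namespace Pool.Agent.Lib.MP_d57abb_nt.MR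

open Finset

private theorem Sch_sq (z : ℂ) : ((‖z‖ ^ 2 : ℝ) : ℂ) = z * (starRingEnd ℂ) z := by
  rw [Complex.mul_conj, Complex.normSq_eq_norm_sq]

theorem schur {ι κ : Type*} (s : Finset ι) (S : Finset κ) (φ : ι → κ → ℂ) (R : ℝ)
    (hR0 : 0 ≤ R) (hR : ∀ i ∈ s, ∑ k ∈ s, ‖∑ v ∈ S, φ i v * (starRingEnd ℂ) (φ k v)‖ ≤ R) (b : κ → ℂ) :
    ∑ i ∈ s, ‖∑ v ∈ S, b v * φ i v‖ ^ 2 ≤ R * ∑ v ∈ S, ‖b v‖ ^ 2 := by
  classical
  set y : ι → ℂ := fun i => ∑ v ∈ S, b v * φ i v with hy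
  set G : ι → ι → ℂ := fun i k => ∑ v ∈ S, φ i v * (starRingEnd ℂ) (φ k v) with hG
  set u : κ → ℂ := fun v => ∑ i ∈ s, (starRingEnd ℂ) (y i) * φ i v with hu
  set T : ℝ := ∑ i ∈ s, ‖y i‖ ^ 2 with hT
  have hT0 : 0 ≤ T := Finset.sum_nonneg fun i _ => sq_nonneg _
  have hB0 : 0 ≤ ∑ v ∈ S, ‖b v‖ ^ 2 := Finset.sum_nonneg fun i _ => sq_nonneg _
  have hTc : (T : ℂ) = ∑ v ∈ S, b v * u v := by
    rw [hT, Complex.ofReal_sum]
    have h1 : ∀ i ∈ s, ((‖y i‖ ^ 2 : ℝ) : ℂ) = ∑ v ∈ S, b v * ((starRingEnd ℂ) (y i) * φ i v) := by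
      intro i _
      rw [Sch_sq, mul_comm]
      conv_lhs => rw [hy]
      simp only [Finset.mul_sum]
      exact Finset.sum_congr rfl fun v _ => by ring
    rw [Finset.sum_congr rfl h1, Finset.sum_comm]
    refine Finset.sum_congr rfl fun v _ => ?_
    rw [hu, Finset.mul_sum]
  have hT1 : T ≤ ∑ v ∈ S, ‖b v‖ * ‖u v‖ := by
    have h1 : T = ‖(T : ℂ)‖ := by rw [Complex.norm_real, Real.norm_of_nonneg hT0]
    rw [h1, hTc]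
    refine (norm_sum_le _ _).trans (le_of_eq ?_)
    exact Finset.sum_congr rfl fun v _ => norm_mul _ _
  have hT2 : T ^ 2 ≤ (∑ v ∈ S, ‖b v‖ ^ 2) * ∑ v ∈ S, ‖u v‖ ^ 2 :=
    (pow_le_pow_left₀ hT0 hT1 2).trans (Finset.sum_mul_sq_le_sq_mul_sq S _ _)
  have hGs : ∀ i k, ‖G i k‖ = ‖G k i‖ := by
    intro i k
    have h1 : G i k = (starRingEnd ℂ) (G k i) := by
      rw [hG]
      simp only [map_sum, map_mul, Complex.conj_conj]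
      exact Finset.sum_congr rfl fun v _ => mul_comm _ _
    rw [h1, Complex.norm_conj]
  have hU : ∑ v ∈ S, ‖u v‖ ^ 2 ≤ R * T := by
    have h1 : ((∑ v ∈ S, ‖u v‖ ^ 2 : ℝ) : ℂ) =
        ∑ i ∈ s, ∑ k ∈ s, (starRingEnd ℂ) (y i) * y k * G i k := by
      rw [Complex.ofReal_sum]
      have h2 : ∀ v ∈ S, ((‖u v‖ ^ 2 : ℝ) : ℂ) = ∑ i ∈ s, ∑ k ∈ s,
          (starRingEnd ℂ) (y i) * y k * (φ i v * (starRingEnd ℂ) (φ k v)) := by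
        intro v _
        rw [Sch_sq, hu]
        simp only [map_sum, map_mul, Complex.conj_conj]
        rw [Finset.sum_mul_sum]
        refine Finset.sum_congr rfl fun i _ => Finset.sum_congr rfl fun k _ => ?_
        ring
      rw [Finset.sum_congr rfl h2, Finset.sum_comm]
      refine Finset.sum_congr rfl fun i _ => ?_
      rw [Finset.sum_comm]
      refine Finset.sum_congr rfl fun k _ => ?_
      exact (Finset.mul_sum S (fun v => φ i v * (starRingEnd ℂ) (φ k v))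
        ((starRingEnd ℂ) (y i) * y k)).symm
    have h3 : (∑ v ∈ S, ‖u v‖ ^ 2) ≤ ∑ i ∈ s, ∑ k ∈ s, ‖y i‖ * ‖y k‖ * ‖G i k‖ := by
      have h4 : (∑ v ∈ S, ‖u v‖ ^ 2) = ‖((∑ v ∈ S, ‖u v‖ ^ 2 : ℝ) : ℂ)‖ := by
        rw [Complex.norm_real, Real.norm_of_nonneg (Finset.sum_nonneg fun i _ => sq_nonneg _)]
      rw [h4, h1]
      refine (norm_sum_le _ _).trans (Finset.sum_le_sum fun i _ => ?_)
      refine (norm_sum_le _ _).trans (Finset.sum_le_sum fun k _ => ?_)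
      rw [norm_mul, norm_mul, Complex.norm_conj]
    have h5 : ∀ i ∈ s, ∀ k ∈ s, ‖y i‖ * ‖y k‖ * ‖G i k‖ ≤
        (‖y i‖ ^ 2 * ‖G i k‖) / 2 + (‖y k‖ ^ 2 * ‖G k i‖) / 2 := by
      intro i _ k _
      rw [← hGs i k]
      nlinarith [mul_nonneg (sq_nonneg (‖y i‖ - ‖y k‖)) (norm_nonneg (G i k))]
    have h6 : ∑ i ∈ s, ∑ k ∈ s, ‖y i‖ * ‖y k‖ * ‖G i k‖ ≤ ∑ i ∈ s, ∑ k ∈ s, ‖y i‖ ^ 2 * ‖G i k‖ := by
      refine (Finset.sum_le_sum fun i hi => Finset.sum_le_sum fun k hk => h5 i hi k hk).trans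
        (le_of_eq ?_)
      simp only [Finset.sum_add_distrib]
      have h7 : ∑ i ∈ s, ∑ k ∈ s, (‖y k‖ ^ 2 * ‖G k i‖) / 2 =
          ∑ i ∈ s, ∑ k ∈ s, (‖y i‖ ^ 2 * ‖G i k‖) / 2 := Finset.sum_comm
      rw [h7]
      simp only [← Finset.sum_div]
      ring
    refine h3.trans (h6.trans ?_)
    rw [hT, Finset.mul_sum]
    refine Finset.sum_le_sum fun i hi => ?_
    rw [← Finset.mul_sum, mul_comm]
    exact mul_le_mul_of_nonneg_right (hR i hi) (sq_nonneg _)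
  rcases hT0.eq_or_lt with h0 | h0
  · rw [← h0]
    exact mul_nonneg hR0 hB0
  · have h1 : T * T ≤ (R * ∑ v ∈ S, ‖b v‖ ^ 2) * T := by
      calc T * T = T ^ 2 := (sq T).symm
        _ ≤ (∑ v ∈ S, ‖b v‖ ^ 2) * ∑ v ∈ S, ‖u v‖ ^ 2 := hT2
        _ ≤ (∑ v ∈ S, ‖b v‖ ^ 2) * (R * T) := mul_le_mul_of_nonneg_left hU hB0
        _ = _ := by ring
    exact le_of_mul_le_mul_right h1 h0

end Pool.Agent.Lib.MP_d57abb_nt.MR
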