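import Mathlib
import Pool.Agent.Lib.MP_d57abb_nt.MR.RmE

/-!
# JOB Tk: the Turán-Kubilius inequality over the quadrant

Let `c0 = per / (2 √5)`, `ω v = om_ S v = #{p ∈ S : p ∣ v}`, `M = mass S`.  `card_V`: `#V(y) = c0 y + O(y^(3/4))` for `y ≥ 1`; `card_mult` (for `p` and for `p p'`, both totally positive).
* `tk`.  `∑_v ω(v) = ∑_p #V(Y / N p)`.  `∑_v ω(v)² = ∑_p #V(Y / N p) + ∑_{p ≠ p'} #V(Y / (N p N p'))`, since for `p ≠ p'` in `S`: `p ∣ v ∧ p' ∣ v ↔ p p' ∣ v` (`mul_dvd`).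
  All arguments are `≥ Y / z² ≥ 1`.  So `∑ (ω - M)² = ∑ ω² - 2 M ∑ ω + M² #V(Y)`; the main terms are
  `c0 Y (M + ∑_{p ≠ p'} 1/(N p N p')) - 2 c0 Y M² + c0 Y M² ≤ c0 Y M`, the errors at most
  `C Y^(3/4) (e + e² + 2 M e + M²)`, `e = ∑_{p ∈ S} (N p)^(-3/4) ≤ C z^(1/4)` (`sum_rpow`, `S ⊆ V z`), `M ≤ ∑_{v ∈ V z} 1/N v ≤ C (1 + log z) ≤ C' z^(1/4)` (`sum_inv`).
  Total error `≤ C'' Y^(3/4) z^(1/2) ≤ C'' Y`.
* `tk_shell`.  The same expansion of `ω²`; `#{v ∈ V (Y+h) \ V Y : q ∣ v} = #V((Y+h)/N q) - #V(Y/N q) = #(V((Y + h)/N q) \ V(Y/N q)) ≤ C (h / N q + ((Y + h)/N q)^(3/4))`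
  (`card_shell`; `sum_mult` at `Y + h` and at `Y`).  Sum over `q = p` and `q = p p'`: `C h (M + M²) + C (2 Y)^(3/4) (e + e²) ≤ C h (M + M²) + C' Y^(3/4) z^(1/2)` and `z^(1/2) ≤ Y^(1/16)`.
-/

namespace Pool.Agent.Lib.MP_d57abb_nt.MR

open Finset

open Classical in
private theorem Tk_om (S : Finset O) (v : O) : om_ S v = ∑ p ∈ S, (if p ∣ v then (1 : ℝ) else 0) := by
  unfold om_
  rw [Finset.sum_boole]

open Classical in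
private theorem Tk_expand {D : ℕ} (T S : Finset O) (hS : ∀ p ∈ S, Dg D p) :
    ∑ v ∈ T, (om_ S v) ^ 2 = ∑ p ∈ S, (((T.filter (fun v => p ∣ v)).card : ℝ) +
      ∑ p' ∈ S.erase p, ((T.filter (fun v => p * p' ∣ v)).card : ℝ)) := by
  have h1 : ∀ v, (om_ S v) ^ 2 = ∑ p ∈ S, ∑ p' ∈ S, (if p ∣ v ∧ p' ∣ v then (1 : ℝ) else 0) := by
    intro v
    rw [sq, Tk_om, Finset.sum_mul_sum]
    refine Finset.sum_congr rfl fun p _ => Finset.sum_congr rfl fun p' _ => ?_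
    by_cases h : p ∣ v <;> by_cases h' : p' ∣ v <;> simp [h, h']
  rw [Finset.sum_congr rfl (fun v _ => h1 v), Finset.sum_comm]
  refine Finset.sum_congr rfl fun p hp => ?_
  rw [Finset.sum_comm, ← Finset.add_sum_erase S _ hp]
  refine congrArg₂ (fun a b : ℝ => a + b) ?_ ?_
  · rw [← Finset.sum_boole]
    refine Finset.sum_congr rfl fun v _ => ?_
    exact if_congr (and_self_iff) rfl rfl
  · refine Finset.sum_congr rfl fun p' hp' => ?_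
    rw [← Finset.sum_boole]
    refine Finset.sum_congr rfl fun v _ => ?_
    refine if_congr ?_ rfl rfl
    constructor
    · rintro ⟨a, b⟩
      exact mul_dvd (hS p hp) (hS p' (Finset.mem_of_mem_erase hp')) (Finset.ne_of_mem_erase hp').symm a b
    · intro h
      exact ⟨dvd_of_mul_right_dvd h, dvd_of_mul_left_dvd h⟩

private theorem Tk_Npos {D : ℕ} {p : O} (h : Dg D p) : (0 : ℝ) < N p := by
  exact_mod_cast h.tp.N_pos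

open Classical in
private theorem Tk_sq {D : ℕ} {T S : Finset O} {z A B : ℝ} (hz : 1 ≤ z) (hS : ∀ p ∈ S, Dg D p)
    (hSz : ∀ p ∈ S, (N p : ℝ) ≤ z) (hA : 0 ≤ A) (hB : 0 ≤ B)
    (hT : ∀ q : O, TP q → (N q : ℝ) ≤ z ^ 2 →
      ((T.filter (fun v => q ∣ v)).card : ℝ) ≤ A / N q + B * (N q : ℝ) ^ (-(3 / 4) : ℝ)) :
    ∑ v ∈ T, (om_ S v) ^ 2 ≤ A * (mass S + mass S ^ 2) +
      B * ((∑ p ∈ S, (N p : ℝ) ^ (-(3 / 4) : ℝ)) + (∑ p ∈ S, (N p : ℝ) ^ (-(3 / 4) : ℝ)) ^ 2) := by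
  rw [Tk_expand T S hS]
  have hr : ∀ p ∈ S, 0 ≤ (N p : ℝ) ^ (-(3 / 4) : ℝ) := fun p hp => Real.rpow_nonneg (Tk_Npos (hS p hp)).le _
  have hz2 : z ≤ z ^ 2 := by nlinarith
  have h1 : ∀ p ∈ S, ((T.filter (fun v => p ∣ v)).card : ℝ) ≤ A * (1 / N p) + B * (N p : ℝ) ^ (-(3 / 4) : ℝ) := by
    intro p hp
    have h2 := hT p (hS p hp).tp ((hSz p hp).trans hz2)
    rw [mul_one_div]
    exact h2
  have h3 : ∀ p ∈ S, ∑ p' ∈ S.erase p, ((T.filter (fun v => p * p' ∣ v)).card : ℝ) ≤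
      ∑ p' ∈ S, (A * ((1 / N p) * (1 / N p')) + B * ((N p : ℝ) ^ (-(3 / 4) : ℝ) * (N p' : ℝ) ^ (-(3 / 4) : ℝ))) := by
    intro p hp
    have hp0 := Tk_Npos (hS p hp)
    refine (Finset.sum_le_sum (fun p' hp' => ?_)).trans
      (Finset.sum_le_sum_of_subset_of_nonneg (Finset.erase_subset p S) ?_)
    · have hp'S := Finset.mem_of_mem_erase hp'
      have hp0' := Tk_Npos (hS p' hp'S)
      have h4 := hT (p * p') ((hS p hp).tp.mul (hS p' hp'S).tp) (by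
        rw [N_mul]
        push_cast
        calc (N p : ℝ) * N p' ≤ z * z := mul_le_mul (hSz p hp) (hSz p' hp'S) hp0'.le (by linarith)
          _ = z ^ 2 := (sq z).symm)
      rw [N_mul] at h4
      push_cast at h4
      rw [Real.mul_rpow hp0.le hp0'.le] at h4
      refine h4.trans (le_of_eq ?_)
      rw [one_div_mul_one_div, mul_one_div]
    · intro p' hp' _
      have hp0' := Tk_Npos (hS p' hp')
      have := hr p hp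
      have := hr p' hp'
      positivity
  have h5 : ∑ p ∈ S, (((T.filter (fun v => p ∣ v)).card : ℝ) +
      ∑ p' ∈ S.erase p, ((T.filter (fun v => p * p' ∣ v)).card : ℝ)) ≤
      ∑ p ∈ S, ((A * (1 / N p) + B * (N p : ℝ) ^ (-(3 / 4) : ℝ)) +
      ∑ p' ∈ S, (A * ((1 / N p) * (1 / N p')) + B * ((N p : ℝ) ^ (-(3 / 4) : ℝ) * (N p' : ℝ) ^ (-(3 / 4) : ℝ)))) :=
    Finset.sum_le_sum fun p hp => add_le_add (h1 p hp) (h3 p hp)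
  refine h5.trans (le_of_eq ?_)
  unfold mass
  simp only [Finset.sum_add_distrib, ← Finset.mul_sum, ← Finset.sum_mul]
  ring

private theorem Tk_S {D : ℕ} {z : ℝ} {S : Finset O} (hS : S ⊆ PP D z) :
    (∀ p ∈ S, Dg D p) ∧ (∀ p ∈ S, (N p : ℝ) ≤ z) ∧ S ⊆ V z := by
  refine ⟨fun p hp => (mem_PP.1 (hS hp)).1, fun p hp => (mem_PP.1 (hS hp)).2, fun p hp => ?_⟩
  have h := mem_PP.1 (hS hp)
  exact mem_V.2 ⟨h.1.1, h.2⟩

private theorem Tk_Vpos {z : ℝ} {v : O} (h : v ∈ V z) : (0 : ℝ) < N v := by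
  have h1 := (mem_V.1 h).1.tp.N_pos
  exact_mod_cast h1

/-- the common estimates for the set `S` -/
private theorem Tk_bounds : ∃ C : ℝ, 1 ≤ C ∧ ∀ (D : ℕ) (Y z : ℝ), 1 ≤ z → z ^ 8 ≤ Y → ∀ S ⊆ PP D z,
    0 ≤ mass S ∧ 0 ≤ ∑ p ∈ S, (N p : ℝ) ^ (-(3 / 4) : ℝ) ∧
    mass S ≤ C * z ^ (1 / 4 : ℝ) ∧ ∑ p ∈ S, (N p : ℝ) ^ (-(3 / 4) : ℝ) ≤ C * z ^ (1 / 4 : ℝ) ∧
    Y ^ (3 / 4 : ℝ) * (z ^ (1 / 4 : ℝ)) ^ 2 ≤ Y ^ (7 / 8 : ℝ) ∧ 1 ≤ z ^ (1 / 4 : ℝ) ∧ z ^ 2 ≤ Y ∧ 1 ≤ Y := by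
  obtain ⟨C1, hC1, h1⟩ := sum_inv
  obtain ⟨C2, hC2, h2⟩ := sum_rpow
  refine ⟨5 * C1 + C2, by linarith, ?_⟩
  intro D Y z hz hzY S hS
  obtain ⟨hD, hN, hV⟩ := Tk_S hS
  have hz0 : 0 < z := by linarith
  have hu : 1 ≤ z ^ (1 / 4 : ℝ) := Real.one_le_rpow hz (by norm_num)
  have hz8 : 1 ≤ z ^ 8 := one_le_pow₀ hz
  have hY : 1 ≤ Y := hz8.trans hzY
  have hY0 : 0 < Y := by linarith
  have h3 : mass S ≤ ∑ v ∈ V z, 1 / (N v : ℝ) := by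
    unfold mass
    refine Finset.sum_le_sum_of_subset_of_nonneg hV (fun v hv _ => ?_)
    have := Tk_Vpos hv
    positivity
  have h4 : ∑ p ∈ S, (N p : ℝ) ^ (-(3 / 4) : ℝ) ≤ ∑ v ∈ V z, (N v : ℝ) ^ (-(3 / 4) : ℝ) := by
    refine Finset.sum_le_sum_of_subset_of_nonneg hV (fun v hv _ => ?_)
    exact Real.rpow_nonneg (Tk_Vpos hv).le _
  have h5 : Real.log z ≤ 4 * z ^ (1 / 4 : ℝ) := by
    have h6 := Real.log_le_rpow_div hz0.le (by norm_num : (0 : ℝ) < 1 / 4)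
    have h7 : z ^ (1 / 4 : ℝ) / (1 / 4) = 4 * z ^ (1 / 4 : ℝ) := by ring
    rw [h7] at h6
    exact h6
  refine ⟨?_, ?_, ?_, ?_, ?_, hu, ?_, hY⟩
  · unfold mass
    refine Finset.sum_nonneg fun p hp => ?_
    have := Tk_Npos (hD p hp)
    positivity
  · exact Finset.sum_nonneg fun p hp => Real.rpow_nonneg (Tk_Npos (hD p hp)).le _
  · have h8 := h1 z hz
    have h9 : C1 * (1 + Real.log z) ≤ C1 * (5 * z ^ (1 / 4 : ℝ)) :=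
      mul_le_mul_of_nonneg_left (by linarith) (by linarith)
    have h10 : 0 ≤ C2 * z ^ (1 / 4 : ℝ) := by positivity
    calc mass S ≤ C1 * (5 * z ^ (1 / 4 : ℝ)) := h3.trans (h8.trans h9)
      _ ≤ (5 * C1 + C2) * z ^ (1 / 4 : ℝ) := by linarith
  · have h8 := h2 z hz
    have h10 : 0 ≤ 5 * C1 * z ^ (1 / 4 : ℝ) := by positivity
    calc ∑ p ∈ S, (N p : ℝ) ^ (-(3 / 4) : ℝ) ≤ C2 * z ^ (1 / 4 : ℝ) := h4.trans h8
      _ ≤ (5 * C1 + C2) * z ^ (1 / 4 : ℝ) := by linarith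
  · have h11 : (z ^ (1 / 4 : ℝ)) ^ 2 ≤ Y ^ (1 / 8 : ℝ) := by
      have h12 : (z ^ (1 / 4 : ℝ)) ^ 2 = z ^ (1 / 2 : ℝ) := by
        rw [← Real.rpow_natCast, ← Real.rpow_mul hz0.le]
        norm_num
      have h13 : z ^ (1 / 2 : ℝ) ≤ z := by
        calc z ^ (1 / 2 : ℝ) ≤ z ^ (1 : ℝ) := Real.rpow_le_rpow_of_exponent_le hz (by norm_num)
          _ = z := Real.rpow_one z
      have h14 : z = (z ^ 8) ^ (1 / 8 : ℝ) := by
        rw [← Real.rpow_natCast, ← Real.rpow_mul hz0.le]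
        norm_num
      rw [h12]
      refine h13.trans ?_
      calc z = (z ^ 8) ^ (1 / 8 : ℝ) := h14
        _ ≤ Y ^ (1 / 8 : ℝ) := Real.rpow_le_rpow (by positivity) hzY (by norm_num)
    calc Y ^ (3 / 4 : ℝ) * (z ^ (1 / 4 : ℝ)) ^ 2 ≤ Y ^ (3 / 4 : ℝ) * Y ^ (1 / 8 : ℝ) :=
          mul_le_mul_of_nonneg_left h11 (by positivity)
      _ = Y ^ (7 / 8 : ℝ) := by
          rw [← Real.rpow_add hY0]
          norm_num
  · calc z ^ 2 ≤ z ^ 8 := pow_le_pow_right₀ hz (by norm_num)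
      _ ≤ Y := hzY

private theorem Tk_div {Y N : ℝ} (hY : 0 ≤ Y) (hN : 0 < N) :
    (Y / N) ^ (3 / 4 : ℝ) = Y ^ (3 / 4 : ℝ) * N ^ (-(3 / 4) : ℝ) := by
  rw [Real.div_rpow hY hN.le, Real.rpow_neg hN.le, div_eq_mul_inv]

theorem tk (D : ℕ) : ∃ C : ℝ, 1 ≤ C ∧ ∀ Y z : ℝ, 1 ≤ z → z ^ 8 ≤ Y → ∀ S ⊆ PP D z,
    ∑ v ∈ V Y, (om_ S v - mass S) ^ 2 ≤ C * Y * (mass S + 1) := by
  classical
  obtain ⟨C1, hC1, h1⟩ := card_V
  obtain ⟨C2, hC2, h2⟩ := Tk_bounds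
  obtain ⟨c, hc⟩ : ∃ c : ℝ, c = per / (2 * √5) := ⟨_, rfl⟩
  have hc0 : 0 ≤ c := by
    rw [hc]
    exact div_nonneg per_pos.le (by positivity)
  refine ⟨c + 5 * C1 * C2 ^ 2 + 1, by nlinarith [mul_nonneg hC1.le (sq_nonneg C2)], ?_⟩
  intro Y z hz hzY S hS
  obtain ⟨hM0, he0, hM, he, hYz, hu, hz2, hY⟩ := h2 D Y z hz hzY S hS
  obtain ⟨hD, hN, -⟩ := Tk_S hS
  have hY0 : 0 < Y := by linarith
  have hcard : ∀ q : O, TP q → (N q : ℝ) ≤ z ^ 2 →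
      |(((V Y).filter (fun v => q ∣ v)).card : ℝ) - c * Y / N q| ≤
        C1 * Y ^ (3 / 4 : ℝ) * (N q : ℝ) ^ (-(3 / 4) : ℝ) := by
    intro q hq hqz
    have hq0 : (0 : ℝ) < N q := by exact_mod_cast hq.N_pos
    have h3 : 1 ≤ Y / N q := by
      rw [one_le_div hq0]
      exact hqz.trans hz2
    have h4 := h1 (Y / N q) h3
    rw [← hc, Tk_div hY0.le hq0, ← card_mult hq Y] at h4
    have h5 : c * (Y / N q) = c * Y / N q := by ring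
    rw [h5, ← mul_assoc] at h4
    exact h4
  have hsq := Tk_sq (T := V Y) hz hD hN (mul_nonneg hc0 hY0.le)
    (mul_nonneg hC1.le (Real.rpow_nonneg hY0.le (3 / 4))) (fun q hq hqz => by
      have h3 := (abs_le.1 (hcard q hq hqz)).2
      linarith)
  have hlin : c * Y * mass S - C1 * Y ^ (3 / 4 : ℝ) * ∑ p ∈ S, (N p : ℝ) ^ (-(3 / 4) : ℝ) ≤
      ∑ v ∈ V Y, om_ S v := by
    have h3 : ∑ v ∈ V Y, om_ S v = ∑ p ∈ S, (((V Y).filter (fun v => p ∣ v)).card : ℝ) := by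
      rw [Finset.sum_congr rfl (fun v _ => Tk_om S v), Finset.sum_comm]
      exact Finset.sum_congr rfl fun p _ => Finset.sum_boole _ _
    rw [h3]
    unfold mass
    rw [Finset.mul_sum, Finset.mul_sum, ← Finset.sum_sub_distrib]
    refine Finset.sum_le_sum fun p hp => ?_
    have hz2' : z ≤ z ^ 2 := by nlinarith
    have h4 := (abs_le.1 (hcard p (hD p hp).tp ((hN p hp).trans hz2'))).1
    have h5 : c * Y * (1 / (N p : ℝ)) = c * Y / N p := by ring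
    rw [h5]
    linarith
  have hV : ((V Y).card : ℝ) ≤ c * Y + C1 * Y ^ (3 / 4 : ℝ) := by
    have h3 := (abs_le.1 (h1 Y hY)).2
    rw [← hc] at h3
    linarith
  have hexp : ∑ v ∈ V Y, (om_ S v - mass S) ^ 2 =
      ∑ v ∈ V Y, (om_ S v) ^ 2 - 2 * mass S * ∑ v ∈ V Y, om_ S v + mass S ^ 2 * (V Y).card := by
    rw [Finset.mul_sum, ← Finset.sum_sub_distrib, mul_comm (mass S ^ 2), ← nsmul_eq_mul, ← Finset.sum_const,
      ← Finset.sum_add_distrib]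
    exact Finset.sum_congr rfl fun v _ => by ring
  obtain ⟨e, hedef⟩ : ∃ e : ℝ, e = ∑ p ∈ S, (N p : ℝ) ^ (-(3 / 4) : ℝ) := ⟨_, rfl⟩
  obtain ⟨M, hMdef⟩ : ∃ M : ℝ, M = mass S := ⟨_, rfl⟩
  obtain ⟨u, hudef⟩ : ∃ u : ℝ, u = z ^ (1 / 4 : ℝ) := ⟨_, rfl⟩
  obtain ⟨R, hRdef⟩ : ∃ R : ℝ, R = Y ^ (3 / 4 : ℝ) := ⟨_, rfl⟩
  have hR0 : 0 ≤ R := by
    rw [hRdef]
    exact Real.rpow_nonneg hY0.le _
  have hY78 : Y ^ (7 / 8 : ℝ) ≤ Y := by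
    calc Y ^ (7 / 8 : ℝ) ≤ Y ^ (1 : ℝ) := Real.rpow_le_rpow_of_exponent_le hY (by norm_num)
      _ = Y := Real.rpow_one Y
  rw [← hedef] at he0 he hsq hlin
  rw [← hMdef] at hM0 hM hsq hlin
  rw [← hudef] at hM he hYz hu
  rw [← hRdef] at hYz hsq hlin hV
  rw [hexp, ← hMdef]
  have hRu : R * u ^ 2 ≤ Y := hYz.trans hY78
  -- the errors
  have hC20 : 0 ≤ C2 := by linarith
  have hu0 : 0 ≤ u := by linarith
  have e1 : e ≤ C2 ^ 2 * u ^ 2 := by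
    calc e ≤ C2 * u := he
      _ ≤ (C2 * u) * (C2 * u) := le_mul_of_one_le_right (by positivity) (by nlinarith)
      _ = C2 ^ 2 * u ^ 2 := by ring
  have e2 : e ^ 2 ≤ C2 ^ 2 * u ^ 2 := by
    calc e ^ 2 ≤ (C2 * u) ^ 2 := pow_le_pow_left₀ he0 he 2
      _ = C2 ^ 2 * u ^ 2 := by ring
  have e3 : M * e ≤ C2 ^ 2 * u ^ 2 := by
    calc M * e ≤ (C2 * u) * (C2 * u) := mul_le_mul hM he he0 (by positivity)
      _ = C2 ^ 2 * u ^ 2 := by ring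
  have e4 : M ^ 2 ≤ C2 ^ 2 * u ^ 2 := by
    calc M ^ 2 ≤ (C2 * u) ^ 2 := pow_le_pow_left₀ hM0 hM 2
      _ = C2 ^ 2 * u ^ 2 := by ring
  have e5 : C1 * R * (e + e ^ 2 + 2 * (M * e) + M ^ 2) ≤ C1 * R * (5 * (C2 ^ 2 * u ^ 2)) :=
    mul_le_mul_of_nonneg_left (by linarith) (mul_nonneg hC1.le hR0)
  have e6 : C1 * R * (5 * (C2 ^ 2 * u ^ 2)) ≤ 5 * C1 * C2 ^ 2 * Y := by
    calc C1 * R * (5 * (C2 ^ 2 * u ^ 2)) = 5 * C1 * C2 ^ 2 * (R * u ^ 2) := by ring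
      _ ≤ 5 * C1 * C2 ^ 2 * Y := mul_le_mul_of_nonneg_left hRu (by positivity)
  have e7 : 2 * M * (c * Y * M - C1 * R * e) ≤ 2 * M * ∑ v ∈ V Y, om_ S v :=
    mul_le_mul_of_nonneg_left hlin (by positivity)
  have e8 : M ^ 2 * ((V Y).card : ℝ) ≤ M ^ 2 * (c * Y + C1 * R) :=
    mul_le_mul_of_nonneg_left hV (by positivity)
  have e9 : 0 ≤ 5 * C1 * C2 ^ 2 * Y * M := by positivity
  have e10 : 0 ≤ c * Y := mul_nonneg hc0 hY0.le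
  have e11 : 0 ≤ Y * (M + 1) := by positivity
  calc ∑ v ∈ V Y, (om_ S v) ^ 2 - 2 * M * ∑ v ∈ V Y, om_ S v + M ^ 2 * (V Y).card
      ≤ (c * Y * (M + M ^ 2) + C1 * R * (e + e ^ 2)) - 2 * M * (c * Y * M - C1 * R * e)
        + M ^ 2 * (c * Y + C1 * R) := by linarith
    _ = c * Y * M + C1 * R * (e + e ^ 2 + 2 * (M * e) + M ^ 2) := by ring
    _ ≤ c * Y * M + 5 * C1 * C2 ^ 2 * Y := by linarith
    _ ≤ (c + 5 * C1 * C2 ^ 2 + 1) * Y * (M + 1) := by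
      have e12 : (c + 5 * C1 * C2 ^ 2 + 1) * Y * (M + 1) = (c * Y * M + 5 * C1 * C2 ^ 2 * Y) +
        (c * Y + 5 * C1 * C2 ^ 2 * Y * M + Y * (M + 1)) := by ring
      rw [e12]
      linarith

theorem tk_shell (D : ℕ) : ∃ C : ℝ, 1 ≤ C ∧ ∀ Y z h : ℝ, 1 ≤ z → z ^ 8 ≤ Y → 0 ≤ h → h ≤ Y → ∀ S ⊆ PP D z,
    ∑ v ∈ V (Y + h) \ V Y, (om_ S v) ^ 2 ≤ C * (h * (mass S + mass S ^ 2) + Y ^ (7 / 8 : ℝ)) := by
  classical
  obtain ⟨C1, hC1, h1⟩ := card_shell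
  obtain ⟨C2, hC2, h2⟩ := Tk_bounds
  refine ⟨C1 + 4 * C1 * C2 ^ 2, by nlinarith [mul_nonneg (by linarith : (0 : ℝ) ≤ C1) (sq_nonneg C2)], ?_⟩
  intro Y z h hz hzY hh hhY S hS
  obtain ⟨hM0, he0, hM, he, hYz, hu, hz2, hY⟩ := h2 D Y z hz hzY S hS
  obtain ⟨hD, hN, -⟩ := Tk_S hS
  have hY0 : 0 < Y := by linarith
  have hC10 : 0 ≤ C1 := by linarith
  have hsub : V Y ⊆ V (Y + h) := V_mono (by linarith)
  have hcard : ∀ q : O, TP q → (N q : ℝ) ≤ z ^ 2 →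
      ((((V (Y + h) \ V Y)).filter (fun v => q ∣ v)).card : ℝ) ≤
        C1 * h / N q + 2 * C1 * Y ^ (3 / 4 : ℝ) * (N q : ℝ) ^ (-(3 / 4) : ℝ) := by
    intro q hq hqz
    have hq0 : (0 : ℝ) < N q := by exact_mod_cast hq.N_pos
    have h3 : 1 ≤ Y / N q := by
      rw [one_le_div hq0]
      exact hqz.trans hz2
    have h4 := h1 (Y / N q) (h / N q) h3 (div_nonneg hh hq0.le)
    have h5 : Y / N q + h / N q = (Y + h) / N q := by ring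
    rw [h5, Tk_div (by linarith) hq0] at h4
    have h6 : ((V (Y + h) \ V Y).filter (fun v => q ∣ v)).card + ((V Y).filter (fun v => q ∣ v)).card =
        ((V (Y + h)).filter (fun v => q ∣ v)).card := by
      rw [← Finset.card_union_of_disjoint, ← Finset.filter_union, Finset.sdiff_union_of_subset hsub]
      exact Finset.disjoint_filter_filter Finset.sdiff_disjoint
    have hsub2 : V (Y / N q) ⊆ V ((Y + h) / N q) := V_mono (by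
      rw [← h5]
      have := div_nonneg hh hq0.le
      linarith)
    have h7 : (V ((Y + h) / N q) \ V (Y / N q)).card + (V (Y / N q)).card = (V ((Y + h) / N q)).card :=
      Finset.card_sdiff_add_card_eq_card hsub2
    rw [card_mult hq Y, card_mult hq (Y + h), ← h7] at h6
    have h8 := Nat.add_right_cancel h6
    rw [h8]
    refine h4.trans ?_
    have h9 : (Y + h) ^ (3 / 4 : ℝ) ≤ 2 * Y ^ (3 / 4 : ℝ) := by
      calc (Y + h) ^ (3 / 4 : ℝ) ≤ (2 * Y) ^ (3 / 4 : ℝ) :=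
            Real.rpow_le_rpow (by linarith) (by linarith) (by norm_num)
        _ = 2 ^ (3 / 4 : ℝ) * Y ^ (3 / 4 : ℝ) := Real.mul_rpow (by norm_num) hY0.le
        _ ≤ 2 * Y ^ (3 / 4 : ℝ) := by
          refine mul_le_mul_of_nonneg_right ?_ (Real.rpow_nonneg hY0.le _)
          calc (2 : ℝ) ^ (3 / 4 : ℝ) ≤ 2 ^ (1 : ℝ) := Real.rpow_le_rpow_of_exponent_le (by norm_num) (by norm_num)
            _ = 2 := Real.rpow_one 2
    have h10 : 0 ≤ (N q : ℝ) ^ (-(3 / 4) : ℝ) := Real.rpow_nonneg hq0.le _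
    have h11 : (Y + h) ^ (3 / 4 : ℝ) * (N q : ℝ) ^ (-(3 / 4) : ℝ) ≤
        2 * Y ^ (3 / 4 : ℝ) * (N q : ℝ) ^ (-(3 / 4) : ℝ) := mul_le_mul_of_nonneg_right h9 h10
    calc C1 * (h / N q + (Y + h) ^ (3 / 4 : ℝ) * (N q : ℝ) ^ (-(3 / 4) : ℝ))
        ≤ C1 * (h / N q + 2 * Y ^ (3 / 4 : ℝ) * (N q : ℝ) ^ (-(3 / 4) : ℝ)) :=
          mul_le_mul_of_nonneg_left (by linarith) hC10
      _ = C1 * h / N q + 2 * C1 * Y ^ (3 / 4 : ℝ) * (N q : ℝ) ^ (-(3 / 4) : ℝ) := by ring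
  have hsq := Tk_sq (T := V (Y + h) \ V Y) hz hD hN (mul_nonneg hC10 hh)
    (mul_nonneg (by linarith : (0 : ℝ) ≤ 2 * C1) (Real.rpow_nonneg hY0.le (3 / 4))) hcard
  refine hsq.trans ?_
  obtain ⟨e, hedef⟩ : ∃ e : ℝ, e = ∑ p ∈ S, (N p : ℝ) ^ (-(3 / 4) : ℝ) := ⟨_, rfl⟩
  obtain ⟨u, hudef⟩ : ∃ u : ℝ, u = z ^ (1 / 4 : ℝ) := ⟨_, rfl⟩
  obtain ⟨R, hRdef⟩ : ∃ R : ℝ, R = Y ^ (3 / 4 : ℝ) := ⟨_, rfl⟩
  have hR0 : 0 ≤ R := by
    rw [hRdef]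
    exact Real.rpow_nonneg hY0.le _
  have hQ0 : 0 ≤ Y ^ (7 / 8 : ℝ) := Real.rpow_nonneg hY0.le _
  rw [← hedef] at he0 he ⊢
  rw [← hudef] at he hYz hu
  rw [← hRdef] at hYz ⊢
  have hC20 : 0 ≤ C2 := by linarith
  have hu0 : 0 ≤ u := by linarith
  have e1 : e ≤ C2 ^ 2 * u ^ 2 := by
    calc e ≤ C2 * u := he
      _ ≤ (C2 * u) * (C2 * u) := le_mul_of_one_le_right (by positivity) (by nlinarith)
      _ = C2 ^ 2 * u ^ 2 := by ring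
  have e2 : e ^ 2 ≤ C2 ^ 2 * u ^ 2 := by
    calc e ^ 2 ≤ (C2 * u) ^ 2 := pow_le_pow_left₀ he0 he 2
      _ = C2 ^ 2 * u ^ 2 := by ring
  have e5 : 2 * C1 * R * (e + e ^ 2) ≤ 2 * C1 * R * (2 * (C2 ^ 2 * u ^ 2)) :=
    mul_le_mul_of_nonneg_left (by linarith) (mul_nonneg (by linarith) hR0)
  have e6 : 2 * C1 * R * (2 * (C2 ^ 2 * u ^ 2)) ≤ 4 * C1 * C2 ^ 2 * Y ^ (7 / 8 : ℝ) := by
    calc 2 * C1 * R * (2 * (C2 ^ 2 * u ^ 2)) = 4 * C1 * C2 ^ 2 * (R * u ^ 2) := by ring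
      _ ≤ 4 * C1 * C2 ^ 2 * Y ^ (7 / 8 : ℝ) := mul_le_mul_of_nonneg_left hYz (by positivity)
  have e7 : 0 ≤ 4 * C1 * C2 ^ 2 * (h * (mass S + mass S ^ 2)) := by positivity
  have e8 : 0 ≤ C1 * Y ^ (7 / 8 : ℝ) := by positivity
  calc C1 * h * (mass S + mass S ^ 2) + 2 * C1 * R * (e + e ^ 2)
      ≤ C1 * h * (mass S + mass S ^ 2) + 4 * C1 * C2 ^ 2 * Y ^ (7 / 8 : ℝ) := by linarith
    _ ≤ (C1 + 4 * C1 * C2 ^ 2) * (h * (mass S + mass S ^ 2) + Y ^ (7 / 8 : ℝ)) := by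
      have e12 : (C1 + 4 * C1 * C2 ^ 2) * (h * (mass S + mass S ^ 2) + Y ^ (7 / 8 : ℝ)) =
        (C1 * h * (mass S + mass S ^ 2) + 4 * C1 * C2 ^ 2 * Y ^ (7 / 8 : ℝ)) +
        (4 * C1 * C2 ^ 2 * (h * (mass S + mass S ^ 2)) + C1 * Y ^ (7 / 8 : ℝ)) := by ring
      rw [e12]
      linarith

theorem mass_le (D : ℕ) : ∃ C : ℝ, 1 ≤ C ∧ ∀ z : ℝ, 1 ≤ z → mass (PP D z) ≤ C * (1 + Real.log z) := by
  obtain ⟨C1, hC1, h1⟩ := sum_inv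
  refine ⟨C1, hC1, fun z hz => ?_⟩
  refine le_trans ?_ (h1 z hz)
  unfold mass
  refine Finset.sum_le_sum_of_subset_of_nonneg (Tk_S (Finset.Subset.refl (PP D z))).2.2 (fun v hv _ => ?_)
  have := Tk_Vpos hv
  positivity

end Pool.Agent.Lib.MP_d57abb_nt.MR
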