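import Mathlib
import Pool.Agent.Lib.MP_50b5e1_nt.X.Dif

/-!
# JOB WyA: iterated differences of `(log (x + β) - log (x + α)) / (β - α)`

Model: `Pool/Agent/Lib/MP_50b5e1_nt/X/Dif.lean` (`vv 1 l` are the iterated differences of `1 / x`).
* `VL_eq`: `log (x + β) - log (x + α) = ∫_α^β dt / (x + t)` (`x + α > 0`); induction on `l`: `vv 1 (h :: l) (x + t) = vv 1 l (x + t) - vv 1 l (x + h + t)`, linearity of the
  integral (`vv 1 l` is continuous on `(0, ∞)`: prove by induction on `l`, `vv 1 [] x = 1 / x ^ 1`).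
* `VL_step`: by `VL_eq`, `VL l x - VL l (x + 1)` is the average over `t ∈ [α, β]` of `vv 1 l (x + t) - vv 1 l (x + t + 1)`; `vv_step` at `x + t` and
  `x + α ≤ x + t ≤ x + β`; monotonicity of the integral (`intervalIntegral.integral_mono_on`).
* `VL_convex`: the same with `vv_convex`.
-/

namespace Pool.Agent.Lib.MP_d57abb_nt.MR

open Finset Real
open Pool.Agent.Lib.MP_50b5e1_nt (vv vv_step vv_convex vv_pos vv_bounds)

/-- the average of `1 / (x + t)` over `t ∈ [α, β]` -/
noncomputable def LL (α β x : ℝ) : ℝ := (Real.log (x + β) - Real.log (x + α)) / (β - α)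

/-- iterated differences of `LL` -/
noncomputable def VL (α β : ℝ) : List ℕ → ℝ → ℝ
  | [], x => LL α β x
  | h :: l, x => VL α β l x - VL α β l (x + h)

private theorem WyA_cont (l : List ℕ) : ContinuousOn (vv 1 l) (Set.Ioi 0) := by
  induction l with
  | nil =>
    have h1 : vv 1 [] = fun y : ℝ => 1 / y ^ 1 := by
      funext y
      rfl
    rw [h1]
    apply ContinuousOn.div continuousOn_const (by fun_prop)
    intro y hy
    have h2 : (0 : ℝ) < y := hy
    positivity
  | cons h l ih =>
    have h1 : vv 1 (h :: l) = fun y : ℝ => vv 1 l y - vv 1 l (y + h) := by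
      funext y
      rfl
    rw [h1]
    apply ih.sub
    apply ih.comp (by fun_prop)
    intro y hy
    have h2 : (0 : ℝ) < y := hy
    have h3 : (0 : ℝ) ≤ h := Nat.cast_nonneg h
    change (0 : ℝ) < y + h
    linarith

private theorem WyA_int {α β : ℝ} (hαβ : α < β) (l : List ℕ) {x : ℝ} (hx : 0 < x + α) :
    IntervalIntegrable (fun t => vv 1 l (x + t)) MeasureTheory.volume α β := by
  apply ContinuousOn.intervalIntegrable_of_Icc hαβ.le
  apply (WyA_cont l).comp (by fun_prop)
  intro t ht
  change (0 : ℝ) < x + t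
  linarith [ht.1]

theorem VL_eq {α β : ℝ} (hαβ : α < β) (l : List ℕ) {x : ℝ} (hx : 0 < x + α) :
    VL α β l x = (∫ t in α..β, vv 1 l (x + t)) / (β - α) := by
  induction l generalizing x with
  | nil =>
    have h1 : (∫ t in α..β, vv 1 [] (x + t)) = Real.log (x + β) - Real.log (x + α) := by
      have h2 : (fun t : ℝ => vv 1 [] (x + t)) = fun t => (fun u : ℝ => u⁻¹) (x + t) := by
        funext t
        change 1 / (x + t) ^ 1 = (x + t)⁻¹
        rw [pow_one, one_div]
      rw [h2, intervalIntegral.integral_comp_add_left (fun u : ℝ => u⁻¹) x,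
        integral_inv_of_pos hx (by linarith), Real.log_div (by linarith) (by linarith)]
    rw [h1]
    rfl
  | cons h l ih =>
    have hh : (0 : ℝ) ≤ h := Nat.cast_nonneg h
    have h1 : VL α β (h :: l) x = VL α β l x - VL α β l (x + h) := rfl
    have h2 : (fun t : ℝ => vv 1 (h :: l) (x + t)) =
        fun t => vv 1 l (x + t) - vv 1 l (x + h + t) := by
      funext t
      change vv 1 l (x + t) - vv 1 l (x + t + h) = _
      have h3 : x + t + h = x + h + t := by ring
      rw [h3]
    rw [h1, ih hx, ih (x := x + h) (by linarith), h2,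
      intervalIntegral.integral_sub (WyA_int hαβ l hx) (WyA_int hαβ l (by linarith)), sub_div]

private theorem WyA_sub {α β : ℝ} (hαβ : α < β) (l : List ℕ) {x : ℝ} (hx : 0 < x + α) :
    VL α β l x - VL α β l (x + 1) =
      (∫ t in α..β, (vv 1 l (x + t) - vv 1 l (x + 1 + t))) / (β - α) := by
  rw [VL_eq hαβ l hx, VL_eq hαβ l (x := x + 1) (by linarith),
    intervalIntegral.integral_sub (WyA_int hαβ l hx) (WyA_int hαβ l (by linarith)), sub_div]

theorem VL_step {α β : ℝ} (hαβ : α < β) (l : List ℕ) (hl : ∀ h ∈ l, 1 ≤ h) {x : ℝ} (hx : 0 < x + α) :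
    ((l.prod : ℕ) : ℝ) * ((l.length + 1).factorial : ℕ) / (x + β + 1 + (l.sum : ℕ)) ^ (l.length + 2) ≤
      VL α β l x - VL α β l (x + 1) ∧
    VL α β l x - VL α β l (x + 1) ≤
      ((l.prod : ℕ) : ℝ) * ((l.length + 1).factorial : ℕ) / (x + α) ^ (l.length + 2) := by
  have hD : 0 < β - α := sub_pos.2 hαβ
  have hI : IntervalIntegrable (fun t => vv 1 l (x + t) - vv 1 l (x + 1 + t))
      MeasureTheory.volume α β := (WyA_int hαβ l hx).sub (WyA_int hαβ l (by linarith))
  have key : ∀ t ∈ Set.Icc α β,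
      ((l.prod : ℕ) : ℝ) * ((l.length + 1).factorial : ℕ) / (x + β + 1 + (l.sum : ℕ)) ^ (l.length + 2) ≤
        vv 1 l (x + t) - vv 1 l (x + 1 + t) ∧
      vv 1 l (x + t) - vv 1 l (x + 1 + t) ≤
        ((l.prod : ℕ) : ℝ) * ((l.length + 1).factorial : ℕ) / (x + α) ^ (l.length + 2) := by
    intro t ht
    have hxt : 0 < x + t := by linarith [ht.1]
    have hsum : (0 : ℝ) ≤ (l.sum : ℕ) := Nat.cast_nonneg _
    obtain ⟨b1, b2⟩ := vv_step l hl (x + t) hxt
    have e : x + 1 + t = x + t + 1 := by ring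
    rw [e]
    constructor
    · refine le_trans ?_ b1
      apply div_le_div_of_nonneg_left (by positivity) (by positivity)
      exact pow_le_pow_left₀ (by positivity) (by linarith [ht.2]) _
    · refine b2.trans ?_
      apply div_le_div_of_nonneg_left (by positivity) (by positivity)
      exact pow_le_pow_left₀ hx.le (by linarith [ht.1]) _
  rw [WyA_sub hαβ l hx, le_div_iff₀ hD, div_le_iff₀ hD]
  constructor
  · have h1 := intervalIntegral.integral_mono_on hαβ.le
      (intervalIntegrable_const (c := ((l.prod : ℕ) : ℝ) * ((l.length + 1).factorial : ℕ) /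
        (x + β + 1 + (l.sum : ℕ)) ^ (l.length + 2))) hI (fun t ht => (key t ht).1)
    rw [intervalIntegral.integral_const, smul_eq_mul, mul_comm] at h1
    exact h1
  · have h1 := intervalIntegral.integral_mono_on hαβ.le hI
      (intervalIntegrable_const (c := ((l.prod : ℕ) : ℝ) * ((l.length + 1).factorial : ℕ) /
        (x + α) ^ (l.length + 2))) (fun t ht => (key t ht).2)
    rw [intervalIntegral.integral_const, smul_eq_mul, mul_comm (β - α)] at h1
    exact h1

theorem VL_convex {α β : ℝ} (hαβ : α < β) (l : List ℕ) (hl : ∀ h ∈ l, 1 ≤ h) {x : ℝ} (hx : 0 < x + α) :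
    VL α β l (x + 1) - VL α β l (x + 2) ≤ VL α β l x - VL α β l (x + 1) := by
  have hD : 0 < β - α := sub_pos.2 hαβ
  have e2 : x + 2 = x + 1 + 1 := by ring
  rw [e2, WyA_sub hαβ l hx, WyA_sub hαβ l (x := x + 1) (by linarith)]
  apply div_le_div_of_nonneg_right _ hD.le
  apply intervalIntegral.integral_mono_on hαβ.le
    ((WyA_int hαβ l (by linarith)).sub (WyA_int hαβ l (by linarith)))
    ((WyA_int hαβ l hx).sub (WyA_int hαβ l (by linarith)))
  intro t ht
  have hxt : 0 < x + t := by linarith [ht.1]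
  have h1 := vv_convex l hl (x + t) hxt
  have e3 : x + 1 + t = x + t + 1 := by ring
  have e4 : x + 1 + 1 + t = x + t + 2 := by ring
  rw [e3, e4]
  exact h1

end Pool.Agent.Lib.MP_d57abb_nt.MR
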