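import Mathlib
import Pool.Agent.Lib.MP_d57abb_nt.MR.WyA
import Pool.Agent.Lib.MP_50b5e1_nt.X.VdC
import Pool.Agent.Lib.MP_50b5e1_nt.X.KL

/-!
# JOB WyB: the iterated van der Corput inequality for `∑ e (y LL α β n)`

Copy `Pool/Agent/Lib/MP_50b5e1_nt/X/Iter.lean` (its header contains the proof; `iter_base`, `iter_claim`, `iter_harm`, `iter_norm_neg`, `iter_trivial` are private there)
with `vv 1 l n` replaced by `VL α β l n`, the hypotheses `G ≤ a`, `b ≤ 16 G` replaced by `G ≤ a + α`, `b + β ≤ 16 G` (real numbers), and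
`vv_step`, `vv_convex` by `VL_step`, `VL_convex`.  In the base step: for `a ≤ n`, `n + 1 < b`: `n + α ≥ G > 0` and
`n + β + 1 + l.sum ≤ 16 G + G = 17 G`.  The number of terms is `b - a ≤ 16 G` if `a ≤ b`: `b - a ≤ 16 G - β - G + α ≤ 16 G` (`α < β`).
At the end `VL α β [] n = LL α β n`.
-/

namespace Pool.Agent.Lib.MP_d57abb_nt.MR

open Finset Real
open Pool.Agent.Lib.MP_2a816b_nt (e norm_e conj_e e_add e_neg)
open Pool.Agent.Lib.MP_50b5e1_nt (kusmin_landau vdc)

private lemma WyB_iter_norm_neg (s : Finset ℕ) (F : ℕ → ℝ) :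
    ‖∑ n ∈ s, e (-(F n))‖ = ‖∑ n ∈ s, e (F n)‖ := by
  have h : ∑ n ∈ s, e (-(F n)) = (starRingEnd ℂ) (∑ n ∈ s, e (F n)) := by
    rw [map_sum]
    exact Finset.sum_congr rfl fun n _ => (conj_e _).symm
  rw [h, Complex.norm_conj]

private lemma WyB_iter_trivial (a b : ℕ) (F : ℕ → ℝ) : ‖∑ n ∈ Ico a b, e (F n)‖ ≤ ((b - a : ℕ) : ℝ) := by
  refine (norm_sum_le _ _).trans ?_
  simp [norm_e]

private lemma WyB_iter_base (q G H : ℕ) (y α β : ℝ) (hαβ : α < β) (hy : 0 < y) (hG : 1 ≤ G) (hH : 1 ≤ H) (hqH : q * H ≤ G)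
    (hA : y * ((q + 1).factorial : ℕ) * (H : ℝ) ^ q ≤ (G : ℝ) ^ (q + 2) / 2)
    (l : List ℕ) (hl : l.length = q) (hlH : ∀ h ∈ l, 1 ≤ h ∧ h < H)
    (a b : ℕ) (ha : (G : ℝ) ≤ a + α) (hb : (b : ℝ) + β ≤ 16 * G) :
    ‖∑ n ∈ Ico a b, e (y * VL α β l n)‖ / (16 * G) ≤
      16 * (1 / H + 17 ^ (q + 2) * (G : ℝ) ^ (q + 1) / y / (l.prod : ℕ)) := by
  have hG0 : (0 : ℝ) < G := by exact_mod_cast hG
  have hH0 : (0 : ℝ) < H := by exact_mod_cast hH
  have hl1 : ∀ h ∈ l, 1 ≤ h := fun h hh => (hlH h hh).1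
  have hprod1 : 1 ≤ l.prod := List.one_le_prod_of_one_le hl1
  have hprod0 : (0 : ℝ) < (l.prod : ℕ) := by exact_mod_cast hprod1
  have hprodle : l.prod ≤ H ^ q := by
    have := List.prod_le_pow_card l H (fun x hx => (hlH x hx).2.le)
    rwa [hl] at this
  have hprodle' : ((l.prod : ℕ) : ℝ) ≤ (H : ℝ) ^ q := by exact_mod_cast hprodle
  have hsum : l.sum ≤ G := by
    have := List.sum_le_card_nsmul l H (fun x hx => (hlH x hx).2.le)
    rw [hl, smul_eq_mul] at this
    exact this.trans hqH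
  have hsum' : ((l.sum : ℕ) : ℝ) ≤ G := by exact_mod_cast hsum
  have hf0 : (0 : ℝ) < ((q + 1).factorial : ℕ) := by exact_mod_cast Nat.factorial_pos _
  have hf1 : (1 : ℝ) ≤ ((q + 1).factorial : ℕ) := by exact_mod_cast Nat.factorial_pos _
  set f : ℝ := (((q + 1).factorial : ℕ) : ℝ) with hf
  set θ : ℝ := y * (l.prod : ℕ) * f / (17 * G) ^ (q + 2) with hθdef
  have hθ0 : 0 < θ := by positivity
  have hupper : y * ((l.prod : ℕ) : ℝ) * f / (G : ℝ) ^ (q + 2) ≤ 1 / 2 := by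
    rw [div_le_iff₀ (by positivity)]
    calc y * ((l.prod : ℕ) : ℝ) * f ≤ y * (H : ℝ) ^ q * f := by gcongr
      _ = y * f * (H : ℝ) ^ q := by ring
      _ ≤ _ := by rw [hf]; linarith
  have hθ2 : θ ≤ 1 / 2 := by
    refine le_trans ?_ hupper
    rw [hθdef]
    gcongr
    linarith
  have hstep : ∀ n : ℕ, 0 < (n : ℝ) + α → ((l.prod : ℕ) : ℝ) * f / ((n : ℝ) + β + 1 + (l.sum : ℕ)) ^ (q + 2) ≤
      VL α β l n - VL α β l ((n : ℝ) + 1) ∧
      VL α β l n - VL α β l ((n : ℝ) + 1) ≤ ((l.prod : ℕ) : ℝ) * f / ((n : ℝ) + α) ^ (q + 2) := by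
    intro n hn
    have := VL_step hαβ l hl1 hn
    rw [hl] at this
    exact this
  have hKL := kusmin_landau (fun n => -(y * VL α β l n)) a b θ hθ0 hθ2 ?_ ?_ ?_
  · rw [WyB_iter_norm_neg] at hKL
    rw [div_le_iff₀ (by positivity)]
    refine hKL.trans ?_
    have e1 : 2 / θ = 2 * (17 * G) ^ (q + 2) / (y * (l.prod : ℕ) * f) := by
      rw [hθdef]; field_simp
    rw [e1]
    have e2 : 2 * (17 * (G : ℝ)) ^ (q + 2) / (y * (l.prod : ℕ) * f) ≤
        2 * (17 * (G : ℝ)) ^ (q + 2) / (y * (l.prod : ℕ)) := by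
      apply div_le_div_of_nonneg_left (by positivity) (by positivity)
      exact le_mul_of_one_le_right (by positivity) hf1
    refine e2.trans ?_
    have e3 : 2 * (17 * (G : ℝ)) ^ (q + 2) / (y * (l.prod : ℕ)) =
        2 * G * (17 ^ (q + 2) * (G : ℝ) ^ (q + 1) / y / (l.prod : ℕ)) := by
      rw [mul_pow]; field_simp; ring
    rw [e3]
    have e4 : 0 ≤ 17 ^ (q + 2) * (G : ℝ) ^ (q + 1) / y / (l.prod : ℕ) := by positivity
    have e5 : 0 ≤ (1 : ℝ) / H := by positivity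
    nlinarith [mul_nonneg hG0.le e4, mul_nonneg hG0.le e5]
  · intro n hn hnb
    have hn' : (a : ℝ) ≤ n := by exact_mod_cast hn
    have hn0 : 0 < (n : ℝ) + α := by linarith
    have hn1 : 0 < (n : ℝ) + β := by linarith
    obtain ⟨h1, -⟩ := hstep n hn0
    push_cast
    have h2 : θ ≤ y * (((l.prod : ℕ) : ℝ) * f / ((n : ℝ) + β + 1 + (l.sum : ℕ)) ^ (q + 2)) := by
      rw [hθdef, ← mul_div_assoc, ← mul_assoc]
      gcongr
      have h3 : (n : ℝ) + 1 ≤ b := by
        have : n + 1 ≤ b := by omega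
        exact_mod_cast this
      linarith
    have h4 : y * (((l.prod : ℕ) : ℝ) * f / ((n : ℝ) + β + 1 + (l.sum : ℕ)) ^ (q + 2)) ≤
        y * (VL α β l n - VL α β l ((n : ℝ) + 1)) := by gcongr
    linarith
  · intro n hn hnb
    have hn' : (a : ℝ) ≤ n := by exact_mod_cast hn
    have hn0 : 0 < (n : ℝ) + α := by linarith
    obtain ⟨-, h1⟩ := hstep n hn0
    push_cast
    have h4 : y * (VL α β l n - VL α β l ((n : ℝ) + 1)) ≤ y * (((l.prod : ℕ) : ℝ) * f / ((n : ℝ) + α) ^ (q + 2)) := by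
      gcongr
    have h5 : y * (((l.prod : ℕ) : ℝ) * f / ((n : ℝ) + α) ^ (q + 2)) ≤ y * ((l.prod : ℕ) : ℝ) * f / (G : ℝ) ^ (q + 2) := by
      rw [← mul_div_assoc, ← mul_assoc]
      gcongr
      linarith
    linarith
  · intro n hn hnb
    have hn' : (a : ℝ) ≤ n := by exact_mod_cast hn
    have hn0 : 0 < (n : ℝ) + α := by linarith
    have := VL_convex hαβ l hl1 hn0
    push_cast
    nlinarith

private lemma WyB_iter_harm (H : ℕ) (hH : 1 ≤ H) : ∑ h ∈ Ico 1 H, (1 : ℝ) / h ≤ 1 + Real.log H := by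
  have h1 : ∑ h ∈ Ico 1 H, (1 : ℝ) / h ≤ ∑ h ∈ Icc 1 H, (1 : ℝ) / h := by
    refine Finset.sum_le_sum_of_subset_of_nonneg ?_ (fun i _ _ => by positivity)
    intro x hx
    rw [mem_Ico] at hx
    rw [mem_Icc]
    omega
  have h2 := harmonic_le_one_add_log H
  rw [harmonic_eq_sum_Icc] at h2
  push_cast at h2
  refine h1.trans (le_trans (le_of_eq ?_) h2)
  exact Finset.sum_congr rfl fun x _ => one_div _

private lemma WyB_iter_claim (q G H : ℕ) (y α β : ℝ) (hαβ : α < β) (hy : 0 < y) (hG : 1 ≤ G) (hH : 1 ≤ H) (hHG : H * H ≤ G)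
    (hqH : q * H ≤ G)
    (hA : y * ((q + 1).factorial : ℕ) * (H : ℝ) ^ q ≤ (G : ℝ) ^ (q + 2) / 2) (r : ℕ) :
    ∀ l : List ℕ, l.length + r = q → (∀ h ∈ l, 1 ≤ h ∧ h < H) → ∀ a b : ℕ, (G : ℝ) ≤ a + α → (b : ℝ) + β ≤ 16 * G →
      (‖∑ n ∈ Ico a b, e (y * VL α β l n)‖ / (16 * G)) ^ (2 ^ r) ≤
      16 ^ (2 ^ r) * (1 / H + 17 ^ (q + 2) * (G : ℝ) ^ (q + 1) / y * ((1 + Real.log H) / H) ^ r /
        (l.prod : ℕ)) := by
  have hG0 : (0 : ℝ) < G := by exact_mod_cast hG
  have hH0 : (0 : ℝ) < H := by exact_mod_cast hH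
  have hH1 : (1 : ℝ) ≤ H := by exact_mod_cast hH
  have hlogH : 0 ≤ Real.log H := Real.log_nonneg hH1
  set Θ : ℝ := 17 ^ (q + 2) * (G : ℝ) ^ (q + 1) / y with hΘ
  have hΘ0 : 0 < Θ := by positivity
  set lam : ℝ := (1 + Real.log H) / H with hlam
  have hlam0 : 0 < lam := by positivity
  induction r with
  | zero =>
    intro l hl hlH a b ha hb
    have := WyB_iter_base q G H y α β hαβ hy hG hH hqH hA l (by omega) hlH a b ha hb
    simpa using this
  | succ r ih =>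
    intro l hl hlH a b ha hb
    have hl1 : ∀ h ∈ l, 1 ≤ h := fun h hh => (hlH h hh).1
    have hprod1 : 1 ≤ l.prod := List.one_le_prod_of_one_le hl1
    have hprod0 : (0 : ℝ) < (l.prod : ℕ) := by exact_mod_cast hprod1
    set X : ℝ := ‖∑ n ∈ Ico a b, e (y * VL α β l n)‖ / (16 * G) with hX
    have hX0 : 0 ≤ X := by positivity
    set B : ℝ := 1 / H + Θ * lam ^ (r + 1) / (l.prod : ℕ) with hB
    have hB1 : 1 / (H : ℝ) ≤ B := by
      rw [hB]
      have : 0 ≤ Θ * lam ^ (r + 1) / (l.prod : ℕ) := by positivity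
      linarith
    have hB0 : 0 < B := lt_of_lt_of_le (by positivity) hB1
    by_cases hcase : b - a < H
    · -- short interval
      have h1 : X ≤ 1 / H := by
        rw [hX, div_le_iff₀ (by positivity)]
        have h2 := WyB_iter_trivial a b (fun n => y * VL α β l n)
        have h3 : ((b - a : ℕ) : ℝ) ≤ H := by exact_mod_cast hcase.le
        have h4 : (H : ℝ) * H ≤ G := by exact_mod_cast hHG
        have h5 : (H : ℝ) ≤ 1 / H * (16 * G) := by
          rw [one_div, ← div_eq_inv_mul, le_div_iff₀ hH0]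
          linarith
        linarith
      have h2 : (1 : ℝ) / H ≤ 1 := by
        rw [div_le_one hH0]; exact hH1
      have h3 : X ^ (2 ^ (r + 1)) ≤ X := pow_le_of_le_one hX0 (h1.trans h2) (by positivity)
      have h4 : (1 : ℝ) ≤ 16 ^ (2 ^ (r + 1)) := one_le_pow₀ (by norm_num)
      calc X ^ (2 ^ (r + 1)) ≤ 1 * B := by linarith
        _ ≤ 16 ^ (2 ^ (r + 1)) * B := by gcongr
    · push Not at hcase
      have hab : a ≤ b := by omega
      have hv := vdc (fun n => y * VL α β l n) a b H hab hH hcase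
      set N : ℝ := (b : ℝ) - a with hN
      have hN0 : 0 ≤ N := by
        rw [hN]
        have : (a : ℝ) ≤ b := by exact_mod_cast hab
        linarith
      have hN16 : N ≤ 16 * G := by
        rw [hN]; linarith
      obtain ⟨Xh, hXh⟩ : ∃ Xh : ℕ → ℝ, ∀ h,
          Xh h = ‖∑ n ∈ Ico a (b - h), e (y * VL α β (h :: l) n)‖ / (16 * G) := ⟨_, fun _ => rfl⟩
      have hXh0 : ∀ h, 0 ≤ Xh h := fun h => by rw [hXh]; positivity
      have hterm : ∀ h ∈ Ico 1 H, ‖∑ n ∈ Ico a (b - h), e (y * VL α β l ((n + h : ℕ) : ℝ) - y * VL α β l n)‖ =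
          Xh h * (16 * G) := by
        intro h _
        have h1 : ∀ n : ℕ, y * VL α β l ((n + h : ℕ) : ℝ) - y * VL α β l n = -(y * VL α β (h :: l) n) := by
          intro n
          simp only [VL]
          push_cast
          ring
        simp only [h1]
        rw [WyB_iter_norm_neg, hXh]
        field_simp
      rw [Finset.sum_congr rfl hterm, ← Finset.sum_mul] at hv
      obtain ⟨SX, hSX⟩ : ∃ SX : ℝ, SX = ∑ h ∈ Ico 1 H, Xh h := ⟨_, rfl⟩
      rw [← hSX] at hv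
      have hSX0 : 0 ≤ SX := by rw [hSX]; exact Finset.sum_nonneg fun h _ => hXh0 h
      have hX2 : X ^ 2 ≤ 2 / H + 4 * (SX / H) := by
        rw [hX, div_pow, div_le_iff₀ (by positivity)]
        refine hv.trans ?_
        have k1 : 2 * N / H ≤ 2 * (16 * G) / H :=
          div_le_div_of_nonneg_right (by linarith) hH0.le
        have k2 : N + 2 * (SX * (16 * G)) ≤ 16 * G + 2 * (SX * (16 * G)) := by linarith
        have k3 : 0 ≤ N + 2 * (SX * (16 * G)) := by
          have := mul_nonneg hSX0 (mul_nonneg (by norm_num : (0 : ℝ) ≤ 16) hG0.le)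
          linarith
        have k4 : 0 ≤ 2 * (16 * (G : ℝ)) / H := div_nonneg (by linarith) hH0.le
        refine (mul_le_mul k1 k2 k3 k4).trans (le_of_eq ?_)
        ring
      set m : ℕ := 2 ^ r with hm
      have hm1 : 1 ≤ m := Nat.one_le_two_pow
      have hpow : X ^ (2 ^ (r + 1)) = (X ^ 2) ^ m := by
        rw [← pow_mul, hm, pow_succ]
        congr 1
        ring
      -- Jensen
      have hJ : (SX / H) ^ m ≤ (∑ h ∈ Ico 1 H, Xh h ^ m) / H := by
        obtain ⟨m', hm'⟩ : ∃ m', m = m' + 1 := ⟨m - 1, by omega⟩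
        rw [hm']
        by_cases hH2 : H = 1
        · subst hH2
          simp [hSX]
        have hcard : (#(Ico 1 H) : ℝ) ≤ H := by
          rw [Nat.card_Ico]
          exact_mod_cast Nat.sub_le _ _
        have hcard0 : (0 : ℝ) < #(Ico 1 H) := by
          rw [Nat.card_Ico]
          exact_mod_cast (by omega : 0 < H - 1)
        have hj := pow_sum_div_card_le_sum_pow (s := Ico 1 H) (f := Xh) (fun a _ => hXh0 a) m'
        rw [div_le_iff₀ (by positivity), ← hSX] at hj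
        rw [div_pow, div_le_div_iff₀ (by positivity) hH0]
        calc SX ^ (m' + 1) * H ≤ ((∑ x ∈ Ico 1 H, Xh x ^ (m' + 1)) * (#(Ico 1 H) : ℝ) ^ m') * H := by gcongr
          _ ≤ ((∑ x ∈ Ico 1 H, Xh x ^ (m' + 1)) * (H : ℝ) ^ m') * H := by
              have : 0 ≤ ∑ x ∈ Ico 1 H, Xh x ^ (m' + 1) := Finset.sum_nonneg fun h _ => pow_nonneg (hXh0 h) _
              gcongr
          _ = _ := by ring
      -- the induction hypothesis
      have hIH : ∀ h ∈ Ico 1 H, Xh h ^ m ≤ 16 ^ m * (1 / H + Θ * lam ^ r / (l.prod : ℕ) * (1 / h)) := by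
        intro h hh
        rw [mem_Ico] at hh
        rw [hXh]
        have := ih (h :: l) (by simp only [List.length_cons]; omega) (by
          intro x hx
          rcases List.mem_cons.1 hx with hx | hx
          · subst hx; exact hh
          · exact hlH x hx) a (b - h) ha (by
            have : ((b - h : ℕ) : ℝ) ≤ b := by exact_mod_cast Nat.sub_le _ _
            linarith)
        refine this.trans (le_of_eq ?_)
        have hh0 : (0 : ℝ) < h := by exact_mod_cast hh.1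
        rw [List.prod_cons]
        push_cast
        field_simp
      have hsumX : (∑ h ∈ Ico 1 H, Xh h ^ m) / H ≤ 16 ^ m * B := by
        rw [div_le_iff₀ hH0]
        have hharm := WyB_iter_harm H hH
        have hcard : (#(Ico 1 H) : ℝ) ≤ H := by
          rw [Nat.card_Ico]
          exact_mod_cast Nat.sub_le _ _
        calc ∑ h ∈ Ico 1 H, Xh h ^ m ≤ ∑ h ∈ Ico 1 H, 16 ^ m * (1 / H + Θ * lam ^ r / (l.prod : ℕ) * (1 / h)) :=
              Finset.sum_le_sum hIH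
          _ = 16 ^ m * (#(Ico 1 H) * (1 / H) + Θ * lam ^ r / (l.prod : ℕ) * ∑ h ∈ Ico 1 H, (1 : ℝ) / h) := by
              rw [← Finset.mul_sum, Finset.sum_add_distrib, Finset.sum_const, nsmul_eq_mul, ← Finset.mul_sum]
          _ ≤ 16 ^ m * (H * (1 / H) + Θ * lam ^ r / (l.prod : ℕ) * (1 + Real.log H)) := by gcongr
          _ = 16 ^ m * B * H := by
              rw [hB, hlam, pow_succ]
              field_simp
      have h2H : ((2 : ℝ) / H) ^ m ≤ 2 ^ m * B := by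
        rw [div_eq_mul_one_div, mul_pow]
        have h1 : (1 / (H : ℝ)) ^ m ≤ 1 / H := pow_le_of_le_one (by positivity) (by
          rw [div_le_one hH0]; exact hH1) (by omega)
        have h3 : (1 / (H : ℝ)) ^ m ≤ B := h1.trans hB1
        gcongr
      have hfin : (X ^ 2) ^ m ≤ 2 ^ m * (2 ^ m * B + 4 ^ m * (16 ^ m * B)) := by
        calc (X ^ 2) ^ m ≤ (2 / H + 4 * (SX / H)) ^ m := by gcongr
          _ ≤ 2 ^ (m - 1) * ((2 / H) ^ m + (4 * (SX / H)) ^ m) := add_pow_le (by positivity) (by positivity) m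
          _ ≤ 2 ^ m * ((2 / H) ^ m + (4 * (SX / H)) ^ m) := by
              gcongr
              · norm_num
              · omega
          _ = 2 ^ m * ((2 / H) ^ m + 4 ^ m * (SX / H) ^ m) := by rw [mul_pow (4 : ℝ)]
          _ ≤ _ := by
              have := hJ.trans hsumX
              gcongr
      rw [hpow]
      refine hfin.trans ?_
      have e1 : (2 : ℝ) ^ m * (2 ^ m * B + 4 ^ m * (16 ^ m * B)) = (4 ^ m + 128 ^ m) * B := by
        have a1 : (4 : ℝ) ^ m = 2 ^ m * 2 ^ m := by rw [← mul_pow]; norm_num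
        have a2 : (128 : ℝ) ^ m = 2 ^ m * (4 ^ m * 16 ^ m) := by rw [← mul_pow, ← mul_pow]; norm_num
        rw [a2]
        linear_combination (-B) * a1
      have e2 : (4 : ℝ) ^ m + 128 ^ m ≤ 16 ^ (2 ^ (r + 1)) := by
        have a1 : (4 : ℝ) ^ m ≤ 128 ^ m := by gcongr; norm_num
        have a2 : (2 : ℝ) ≤ 2 ^ m := by
          calc (2 : ℝ) = 2 ^ 1 := by norm_num
            _ ≤ 2 ^ m := by gcongr; norm_num
        have a3 : (16 : ℝ) ^ (2 ^ (r + 1)) = 2 ^ m * 128 ^ m := by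
          rw [← mul_pow, hm, pow_succ, mul_comm (2 ^ r) 2, pow_mul]
          norm_num
        rw [a3]
        have a4 : (0 : ℝ) < 128 ^ m := by positivity
        nlinarith
      rw [e1]
      gcongr

theorem iter_bound2 (q G H : ℕ) (y α β : ℝ) (hαβ : α < β) (hy : 0 < y) (hG : 1 ≤ G) (hH : 1 ≤ H) (hHG : H * H ≤ G)
    (hqH : q * H ≤ G) (hA : y * ((q + 1).factorial : ℕ) * (H : ℝ) ^ q ≤ (G : ℝ) ^ (q + 2) / 2)
    (a b : ℕ) (ha : (G : ℝ) ≤ a + α) (hb : b + β ≤ 16 * G) :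
    ‖∑ n ∈ Ico a b, e (y * LL α β n)‖ ^ (2 ^ q) ≤ (256 * (G : ℝ)) ^ (2 ^ q) *
      (1 / H + 17 ^ (q + 2) * (G : ℝ) ^ (q + 1) / y * ((1 + Real.log H) / H) ^ q) := by
  have hG0 : (0 : ℝ) < G := by exact_mod_cast hG
  have h := WyB_iter_claim q G H y α β hαβ hy hG hH hHG hqH hA q [] (by simp) (by simp) a b ha hb
  have e1 : ∑ n ∈ Ico a b, e (y * VL α β [] n) = ∑ n ∈ Ico a b, e (y * LL α β n) := rfl
  rw [e1, div_pow, div_le_iff₀ (by positivity)] at h
  refine h.trans (le_of_eq ?_)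
  simp only [List.prod_nil, Nat.cast_one, div_one]
  have e2 : (256 * (G : ℝ)) ^ (2 ^ q) = 16 ^ (2 ^ q) * (16 * G) ^ (2 ^ q) := by
    rw [← mul_pow]; congr 1; ring
  rw [e2]
  ring

end Pool.Agent.Lib.MP_d57abb_nt.MR
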