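import Mathlib
import Pool.Agent.Lib.MP_d57abb_nt.MR.WyC
import Pool.Agent.Lib.MP_d57abb_nt.MR.Bas

/-!
# JOB WyD: one row

PROOF.  `An ⟨a, b⟩ = log (a + b al) - log (a + b be) = (β - α) LL α β a` with `α = b be`, `β = b al`, `β - α = √5 b`.  So `κ An ⟨a, b⟩ / per = y LL α β a` with
`y = κ √5 b / per`, `|κ| b ≤ |y| ≤ 2 |κ| b` (`1 < per < 2 < √5`, and `√5 / per ≤ 2`: `one_lt_per` gives only `√5 / per ≤ √5`; take `|y| ≤ 3 |κ| b`).
Take `Y` large (`Y ≥ Y₀(B)`; for `Y ≤ Y₀` the trivial bound `√Y₀`).  Split `1 ≤ a ≤ x` into `a ∈ [1, b)` and `a ∈ [2^(i-1) b, 2^i b)`, `i ≥ 1`, `2^(i-1) b ≤ x ≤ √Y`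
(cut at `⌊x⌋₊`), at most `2 + log Y` segments (`2^(i-1) ≤ √Y / b ≤ Y^(1/50)`).
First segment: `G = ⌊be * b⌋₊` (`b ≥ 7`): `G ≤ 1 + α`, and `b + β ≤ 3.62 b ≤ 16 (0.38 b - 1) ≤ 16 G`.  Other segments: `G = 2^(i-1) b`, `G ≤ a + α`,
`2^i b + β ≤ 16 G`.  In all cases `0.3 Y^(12/25) ≤ G ≤ √Y` (first segment: `G ≤ b`).
`weyl2 (1/10) (3 B + 3)`: `|y| ≥ |κ| b ≥ Y^(1/8 + 12/25) = Y^(0.605) ≥ (√Y)^(1.1) ≥ G^(1.1)`, `|y| ≤ 3 Y^(B + 1/2) ≤ (0.3 Y^(12/25))^(3 B + 3) ≤ G^(3B+3)` for large `Y`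
(`(12/25) (3B + 3) = 1.44 B + 1.44`).  So every segment is at most `C (√Y)^(1 - η)`, the sum at most `C (2 + log Y) Y^(1/2 - η/2) ≤ C' Y^(1/2 - η/4)`.
-/

namespace Pool.Agent.Lib.MP_d57abb_nt.MR

open Finset Real
open Pool.Agent.Lib.MP_2a816b_nt (e)
open Pool.Agent.Lib.MP_d57abb_nt (al be al_add_be al_sub_be al_lo al_hi be_lo be_hi sqrt5_lo sqrt5_hi)

/-- the phase of a row -/
private theorem WyD_phase (κ : ℤ) {a b : ℕ} (hb : 0 < b) :
    (κ : ℝ) * An ⟨(a : ℤ), (b : ℤ)⟩ / per =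
      ((κ : ℝ) * (√5 * b) / per) * LL (b * be) (b * al) (a : ℝ) := by
  have h5 : (0 : ℝ) < √5 := by linarith [sqrt5_lo]
  have hb' : (0 : ℝ) < b := by exact_mod_cast hb
  have hab : (b : ℝ) * al - b * be = √5 * b := by
    rw [← mul_sub, al_sub_be, mul_comm]
  have h1 : An ⟨(a : ℤ), (b : ℤ)⟩ = Real.log (a + b * al) - Real.log (a + b * be) := by
    unfold An s1 s2
    push_cast
    rfl
  unfold LL
  rw [h1, hab]
  have h6 : √5 * (b : ℝ) ≠ 0 := by positivity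
  have hper : per ≠ 0 := per_pos.ne'
  field_simp

private theorem WyD_Y0 {B Y : ℝ} (hB : 1 ≤ B) (hY : 3 * (10 / 3 : ℝ) ^ (3 * B + 3) ≤ Y) :
    (3375 : ℝ) ≤ Y := by
  have h1 : (10 / 3 : ℝ) ^ (6 : ℝ) ≤ (10 / 3 : ℝ) ^ (3 * B + 3) :=
    Real.rpow_le_rpow_of_exponent_le (by norm_num) (by linarith)
  have h2 : (10 / 3 : ℝ) ^ (6 : ℝ) = (10 / 3 : ℝ) ^ (6 : ℕ) := by
    rw [← Real.rpow_natCast]
    norm_num
  rw [h2] at h1
  norm_num at h1 ⊢
  linarith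

/-- `Y ^ (12 / 25)` is at least `15` -/
private theorem WyD_big {Y : ℝ} (hY : (3375 : ℝ) ≤ Y) : (15 : ℝ) ≤ Y ^ (12 / 25 : ℝ) := by
  have hY1 : (1 : ℝ) ≤ Y := by linarith
  have h1 : (15 : ℝ) = (3375 : ℝ) ^ (1 / 3 : ℝ) := by
    have : (3375 : ℝ) = (15 : ℝ) ^ (3 : ℝ) := by norm_num
    rw [this, ← Real.rpow_mul (by norm_num)]
    norm_num
  rw [h1]
  refine (Real.rpow_le_rpow (by norm_num) hY (by norm_num)).trans ?_
  exact Real.rpow_le_rpow_of_exponent_le hY1 (by norm_num)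

/-- the size conditions of `weyl2` -/
private theorem WyD_sizes {B Y : ℝ} (hB : 1 ≤ B) (hY : 3 * (10 / 3 : ℝ) ^ (3 * B + 3) ≤ Y) {κ : ℤ}
    (hκ1 : Y ^ (1 / 8 : ℝ) ≤ |(κ : ℝ)|) (hκ2 : |(κ : ℝ)| ≤ Y ^ B) {b : ℕ}
    (hb1 : Y ^ (12 / 25 : ℝ) ≤ b) (hb2 : (b : ℝ) ≤ √Y) {G : ℕ}
    (hG1 : 0.3 * Y ^ (12 / 25 : ℝ) ≤ G) (hG2 : (G : ℝ) ≤ √Y) :
    (G : ℝ) ^ (1 + 1 / 10 : ℝ) ≤ |(κ : ℝ) * (√5 * b) / per| ∧
      |(κ : ℝ) * (√5 * b) / per| ≤ (G : ℝ) ^ (3 * B + 3) := by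
  have hY3 := WyD_Y0 hB hY
  have hY1 : (1 : ℝ) ≤ Y := by linarith
  have hY0 : (0 : ℝ) < Y := by linarith
  have hb0 : (0 : ℝ) ≤ b := Nat.cast_nonneg b
  have h5 : (0 : ℝ) < √5 := by linarith [sqrt5_lo]
  have habs : |(κ : ℝ) * (√5 * b) / per| = |(κ : ℝ)| * b * (√5 / per) := by
    rw [abs_div, abs_mul, abs_of_pos per_pos, abs_of_nonneg (mul_nonneg h5.le hb0)]
    ring
  have hr1 : (1 : ℝ) ≤ √5 / per := by
    rw [le_div_iff₀ per_pos]
    linarith [sqrt5_lo, per_lt_two]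
  have hr2 : √5 / per ≤ 3 := by
    rw [div_le_iff₀ per_pos]
    linarith [sqrt5_hi, one_lt_per]
  have hk0 : (0 : ℝ) ≤ |(κ : ℝ)| * b := mul_nonneg (abs_nonneg _) hb0
  have hsq : √Y = Y ^ (1 / 2 : ℝ) := Real.sqrt_eq_rpow Y
  rw [habs]
  constructor
  · calc (G : ℝ) ^ (1 + 1 / 10 : ℝ) ≤ (√Y) ^ (1 + 1 / 10 : ℝ) :=
          Real.rpow_le_rpow (Nat.cast_nonneg G) hG2 (by norm_num)
      _ = Y ^ (11 / 20 : ℝ) := by
          rw [hsq, ← Real.rpow_mul hY0.le]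
          norm_num
      _ ≤ Y ^ (1 / 8 + 12 / 25 : ℝ) := Real.rpow_le_rpow_of_exponent_le hY1 (by norm_num)
      _ = Y ^ (1 / 8 : ℝ) * Y ^ (12 / 25 : ℝ) := Real.rpow_add hY0 _ _
      _ ≤ |(κ : ℝ)| * b := mul_le_mul hκ1 hb1 (by positivity) (abs_nonneg _)
      _ ≤ |(κ : ℝ)| * b * (√5 / per) := le_mul_of_one_le_right hk0 hr1
  · have hG3 : (0.3 * Y ^ (12 / 25 : ℝ)) ^ (3 * B + 3) ≤ (G : ℝ) ^ (3 * B + 3) :=
      Real.rpow_le_rpow (by positivity) hG1 (by linarith)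
    refine le_trans ?_ hG3
    have e1 : (0.3 * Y ^ (12 / 25 : ℝ)) ^ (3 * B + 3) =
        (0.3 : ℝ) ^ (3 * B + 3) * Y ^ (12 / 25 * (3 * B + 3) : ℝ) := by
      rw [Real.mul_rpow (by norm_num) (by positivity), ← Real.rpow_mul hY0.le]
    rw [e1]
    have e2 : |(κ : ℝ)| * b * (√5 / per) ≤ Y ^ B * Y ^ (1 / 2 : ℝ) * 3 := by
      have h1 : |(κ : ℝ)| * b ≤ Y ^ B * Y ^ (1 / 2 : ℝ) := by
        rw [← hsq]
        exact mul_le_mul hκ2 hb2 hb0 (by positivity)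
      exact mul_le_mul h1 hr2 (by linarith) (by positivity)
    refine e2.trans ?_
    rw [← Real.rpow_add hY0]
    have e3 : Y ^ (12 / 25 * (3 * B + 3) : ℝ) = Y ^ (B + 1 / 2 : ℝ) * Y ^ ((11 / 25) * B + 47 / 50 : ℝ) := by
      rw [← Real.rpow_add hY0]
      congr 1
      ring
    rw [e3]
    have e4 : (3 : ℝ) ≤ (0.3 : ℝ) ^ (3 * B + 3) * Y ^ ((11 / 25) * B + 47 / 50 : ℝ) := by
      have h1 : Y ≤ Y ^ ((11 / 25) * B + 47 / 50 : ℝ) := by
        have h2 := Real.rpow_le_rpow_of_exponent_le hY1 (by linarith : (1 : ℝ) ≤ (11 / 25) * B + 47 / 50)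
        rwa [Real.rpow_one] at h2
      have h3 : (0.3 : ℝ) ^ (3 * B + 3) * (10 / 3 : ℝ) ^ (3 * B + 3) = 1 := by
        rw [← Real.mul_rpow (by norm_num) (by norm_num)]
        norm_num
      have h4 : (0 : ℝ) < (0.3 : ℝ) ^ (3 * B + 3) := by positivity
      calc (3 : ℝ) = (0.3 : ℝ) ^ (3 * B + 3) * (3 * (10 / 3 : ℝ) ^ (3 * B + 3)) := by
            linear_combination (-3) * h3
        _ ≤ (0.3 : ℝ) ^ (3 * B + 3) * Y ^ ((11 / 25) * B + 47 / 50 : ℝ) :=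
            mul_le_mul_of_nonneg_left (hY.trans h1) h4.le
    have h5 : (0 : ℝ) ≤ Y ^ (B + 1 / 2 : ℝ) := by positivity
    calc Y ^ (B + 1 / 2 : ℝ) * 3 ≤
          Y ^ (B + 1 / 2 : ℝ) * ((0.3 : ℝ) ^ (3 * B + 3) * Y ^ ((11 / 25) * B + 47 / 50 : ℝ)) :=
          mul_le_mul_of_nonneg_left e4 h5
      _ = _ := by ring

theorem row_weyl (B : ℝ) (hB : 1 ≤ B) : ∃ σ C : ℝ, 0 < σ ∧ σ ≤ 1 / 16 ∧ 1 ≤ C ∧ ∀ Y : ℝ, 1 ≤ Y → ∀ κ : ℤ,
    Y ^ (1 / 8 : ℝ) ≤ |(κ : ℝ)| → |(κ : ℝ)| ≤ Y ^ B → ∀ b : ℕ, Y ^ (12 / 25 : ℝ) ≤ b → (b : ℝ) ≤ √Y →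
    ∀ x : ℝ, 0 ≤ x → x ≤ √Y → ‖∑ a ∈ Icc 1 ⌊x⌋₊, e (κ * An ⟨a, b⟩ / per)‖ ≤ C * Y ^ (1 / 2 - σ) := by
  obtain ⟨η, hη0, hη1, C, hC1, hw⟩ := weyl2 (1 / 10) (3 * B + 3) (by norm_num) (by linarith)
  set Y₀ : ℝ := 3 * (10 / 3 : ℝ) ^ (3 * B + 3) with hY₀
  have hY₀0 : 0 ≤ Y₀ := by positivity
  refine ⟨η / 4, C * (4 / η + 2) + √Y₀, by positivity, by linarith, ?_, ?_⟩
  · have h1 : 0 < 4 / η := by positivity
    have h2 : 0 ≤ √Y₀ := Real.sqrt_nonneg _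
    nlinarith
  intro Y hY κ hκ1 hκ2 b hb1 hb2 x hx0 hx1
  have hY0 : (0 : ℝ) < Y := by linarith
  have hpow1 : (1 : ℝ) ≤ Y ^ (1 / 2 - η / 4) := Real.one_le_rpow hY (by linarith)
  have hCpos : 0 ≤ C * (4 / η + 2) := by positivity
  set n : ℕ := ⌊x⌋₊ with hn
  have hnx : (n : ℝ) ≤ √Y := (Nat.floor_le hx0).trans hx1
  have hbpos' : (0 : ℝ) < b := lt_of_lt_of_le (by positivity) hb1
  have hbpos : 0 < b := by exact_mod_cast hbpos'
  rcases lt_or_ge Y Y₀ with hlt | hge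
  · -- small `Y`
    have h1 : ‖∑ a ∈ Icc 1 n, e (κ * An ⟨a, b⟩ / per)‖ ≤ n := by
      refine (norm_sum_le _ _).trans ?_
      have h2 : ∀ a ∈ Icc 1 n, ‖e ((κ : ℝ) * An ⟨(a : ℤ), (b : ℤ)⟩ / per)‖ ≤ 1 := by
        intro a _
        exact (Pool.Agent.Lib.MP_2a816b_nt.norm_e _).le
      refine (Finset.sum_le_card_nsmul _ _ _ h2).trans ?_
      simp
    refine h1.trans (hnx.trans ?_)
    have h3 : √Y ≤ √Y₀ := Real.sqrt_le_sqrt hlt.le
    have h4 : 0 ≤ √Y₀ := Real.sqrt_nonneg _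
    calc √Y ≤ √Y₀ := h3
      _ ≤ C * (4 / η + 2) + √Y₀ := by linarith
      _ ≤ (C * (4 / η + 2) + √Y₀) * Y ^ (1 / 2 - η / 4) :=
          le_mul_of_one_le_right (by linarith) hpow1
  -- large `Y`
  have hY3 := WyD_Y0 hB hge
  have h15 := WyD_big hY3
  have hb15 : (15 : ℝ) ≤ b := h15.trans hb1
  set y : ℝ := (κ : ℝ) * (√5 * b) / per with hy
  set F : ℕ → ℂ := fun a => e (y * LL (b * be) (b * al) (a : ℝ)) with hF
  have hsumF : ∀ a : ℕ, e ((κ : ℝ) * An ⟨(a : ℤ), (b : ℤ)⟩ / per) = F a := by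
    intro a
    rw [hF]
    simp only
    rw [WyD_phase κ hbpos]
  have hαβ : (b : ℝ) * be < b * al := by
    have : be < al := by linarith [be_hi, al_lo]
    exact mul_lt_mul_of_pos_left this hbpos'
  set M : ℝ := C * (√Y) ^ (1 - η) with hM
  have hM0 : 0 ≤ M := by positivity
  have hGM : ∀ G : ℕ, (G : ℝ) ≤ √Y → C * (G : ℝ) ^ (1 - η) ≤ M := by
    intro G hG
    rw [hM]
    exact mul_le_mul_of_nonneg_left (Real.rpow_le_rpow (Nat.cast_nonneg G) hG (by linarith))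
      (by linarith)
  -- one segment
  have hseg : ∀ (G u v : ℕ), 1 ≤ G → 0.3 * Y ^ (12 / 25 : ℝ) ≤ G → (G : ℝ) ≤ √Y →
      (G : ℝ) ≤ u + b * be → (v : ℝ) + b * al ≤ 16 * G → ‖∑ a ∈ Ico u v, F a‖ ≤ M := by
    intro G u v hG0 hG1 hG2 hu hv
    obtain ⟨hs1, hs2⟩ := WyD_sizes hB hge hκ1 hκ2 hb1 hb2 hG1 hG2
    exact (hw G y (b * be) (b * al) hG0 hαβ hs1 hs2 u v hu hv).trans (hGM G hG2)
  -- the cut points
  set T : ℕ → ℕ := fun i => min (2 ^ i * b) (n + 1) with hT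
  have hT1 : ∀ i, 1 ≤ T i := by
    intro i
    rw [hT]
    simp only
    have : 1 ≤ 2 ^ i * b := Nat.one_le_iff_ne_zero.2 (by positivity)
    exact le_min this (by omega)
  have hmain : ∀ i, ‖∑ a ∈ Ico 1 (T i), F a‖ ≤ (i + 1) * M := by
    intro i
    induction i with
    | zero =>
      have hfl : (⌊(b : ℝ) * be⌋₊ : ℝ) ≤ b * be := Nat.floor_le (by
        have := be_lo
        positivity)
      have hfl2 : (b : ℝ) * be < ⌊(b : ℝ) * be⌋₊ + 1 := Nat.lt_floor_add_one _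
      have hbe1 : (b : ℝ) * 0.3815 ≤ b * be := mul_le_mul_of_nonneg_left be_lo.le hbpos'.le
      have hbe2 : (b : ℝ) * be ≤ b * 0.382 := mul_le_mul_of_nonneg_left be_hi.le hbpos'.le
      have hal2 : (b : ℝ) * al ≤ b * 2.6185 := mul_le_mul_of_nonneg_left al_hi.le hbpos'.le
      have hTb : ((T 0 : ℕ) : ℝ) ≤ b := by
        have : T 0 ≤ b := by
          rw [hT]
          simp only [pow_zero, one_mul]
          exact min_le_left _ _
        exact_mod_cast this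
      have h0 := hseg ⌊(b : ℝ) * be⌋₊ 1 (T 0) (by
          have : (1 : ℝ) ≤ (⌊(b : ℝ) * be⌋₊ : ℝ) := by nlinarith
          exact_mod_cast this) (by nlinarith) (by nlinarith) (by push_cast; linarith) (by nlinarith)
      simpa using h0
    | succ i ih =>
      have hle : T i ≤ T (i + 1) := by
        rw [hT]
        simp only
        apply min_le_min_right
        rw [pow_succ]
        nlinarith [Nat.zero_le (2 ^ i * b)]
      have hsplit : ∑ a ∈ Ico 1 (T (i + 1)), F a =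
          ∑ a ∈ Ico 1 (T i), F a + ∑ a ∈ Ico (T i) (T (i + 1)), F a :=
        (Finset.sum_Ico_consecutive F (hT1 i) hle).symm
      have hs : ‖∑ a ∈ Ico (T i) (T (i + 1)), F a‖ ≤ M := by
        rcases Nat.lt_or_ge n (2 ^ i * b) with hn1 | hn1
        · have e1 : T i = n + 1 := by
            rw [hT]
            simp only
            exact min_eq_right (by omega)
          have e2 : T (i + 1) ≤ n + 1 := by
            rw [hT]
            simp only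
            exact min_le_right _ _
          rw [Finset.Ico_eq_empty_of_le (by omega), Finset.sum_empty, norm_zero]
          exact hM0
        · have e1 : T i = 2 ^ i * b := by
            rw [hT]
            simp only
            exact min_eq_left (by omega)
          have e2 : T (i + 1) ≤ 2 ^ (i + 1) * b := by
            rw [hT]
            simp only
            exact min_le_left _ _
          have e2' : ((T (i + 1) : ℕ) : ℝ) ≤ 2 * ((2 ^ i * b : ℕ) : ℝ) := by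
            have : T (i + 1) ≤ 2 * (2 ^ i * b) := by
              rw [← mul_assoc, ← pow_succ']
              exact e2
            exact_mod_cast this
          have e3 : (b : ℝ) ≤ ((2 ^ i * b : ℕ) : ℝ) := by
            have : b ≤ 2 ^ i * b := Nat.le_mul_of_pos_left b (by positivity)
            exact_mod_cast this
          have e4 : ((2 ^ i * b : ℕ) : ℝ) ≤ n := by exact_mod_cast hn1
          have hal2 : (b : ℝ) * al ≤ b * 2.6185 := mul_le_mul_of_nonneg_left al_hi.le hbpos'.le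
          have hbe0 : (0 : ℝ) ≤ b * be := by
            have := be_lo
            positivity
          rw [e1]
          refine hseg (2 ^ i * b) (2 ^ i * b) (T (i + 1)) (Nat.one_le_iff_ne_zero.2 (by positivity))
            ?_ (e4.trans hnx) ?_ ?_
          · linarith
          · linarith
          · linarith
      rw [hsplit]
      refine (norm_add_le _ _).trans ?_
      push_cast
      linarith
  -- the number of segments
  set K : ℕ := Nat.log 2 n + 1 with hK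
  have hTK : T K = n + 1 := by
    rw [hT]
    simp only
    apply min_eq_right
    have h1 : n < 2 ^ K := by
      rw [hK]
      exact Nat.lt_pow_succ_log_self (by norm_num) n
    have h2 : 2 ^ K ≤ 2 ^ K * b := Nat.le_mul_of_pos_right _ hbpos
    omega
  have hKle : (K : ℝ) + 1 ≤ (4 / η + 2) * Y ^ (η / 4) := by
    have hYη : (1 : ℝ) ≤ Y ^ (η / 4) := Real.one_le_rpow hY (by positivity)
    have h1 : ((Nat.log 2 n : ℕ) : ℝ) ≤ Real.log Y := by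
      rcases Nat.eq_zero_or_pos n with h0 | h0
      · rw [h0]
        simp only [Nat.log_zero_right, Nat.cast_zero]
        exact Real.log_nonneg hY
      · have h2 : 2 ^ (Nat.log 2 n) ≤ n := Nat.pow_log_le_self 2 h0.ne'
        have h3 : ((2 : ℝ)) ^ (Nat.log 2 n) ≤ √Y := le_trans (by exact_mod_cast h2) hnx
        have h4 := Real.log_le_log (by positivity) h3
        rw [Real.log_pow, Real.log_sqrt hY0.le] at h4
        have h5 : (0.6931471803 : ℝ) < Real.log 2 := Real.log_two_gt_d9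
        have h6 : (0 : ℝ) ≤ (Nat.log 2 n : ℕ) := Nat.cast_nonneg _
        have h7 : (0 : ℝ) ≤ Real.log Y := Real.log_nonneg hY
        nlinarith
    have h2 : Real.log Y ≤ Y ^ (η / 4) / (η / 4) := Real.log_le_rpow_div hY0.le (by positivity)
    have h3 : Y ^ (η / 4) / (η / 4) = 4 / η * Y ^ (η / 4) := by
      field_simp
    rw [hK]
    push_cast
    rw [h3] at h2
    nlinarith
  have hIcc : ∑ a ∈ Icc 1 n, e (κ * An ⟨a, b⟩ / per) = ∑ a ∈ Ico 1 (T K), F a := by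
    rw [hTK]
    have : Icc 1 n = Ico 1 (n + 1) := by
      ext a
      simp only [Finset.mem_Icc, Finset.mem_Ico]
      omega
    rw [this]
    exact Finset.sum_congr rfl (fun a _ => hsumF a)
  rw [hIcc]
  refine (hmain K).trans ?_
  have hMY : M * Y ^ (η / 4) = C * Y ^ (1 / 2 - η / 4) := by
    rw [hM, Real.sqrt_eq_rpow, ← Real.rpow_mul hY0.le, mul_assoc, ← Real.rpow_add hY0]
    congr 2
    ring
  calc ((K : ℝ) + 1) * M ≤ ((4 / η + 2) * Y ^ (η / 4)) * M := mul_le_mul_of_nonneg_right hKle hM0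
    _ = (4 / η + 2) * (M * Y ^ (η / 4)) := by ring
    _ = C * (4 / η + 2) * Y ^ (1 / 2 - η / 4) := by
        rw [hMY]
        ring
    _ ≤ (C * (4 / η + 2) + √Y₀) * Y ^ (1 / 2 - η / 4) := by
        apply mul_le_mul_of_nonneg_right _ (by linarith)
        linarith [Real.sqrt_nonneg Y₀]

end Pool.Agent.Lib.MP_d57abb_nt.MR
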