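import Mathlib
import Pool.Agent.Lib.MP_d57abb_nt.MR.WyD
import Pool.Agent.Lib.MP_d57abb_nt.MR.RmE

/-!
# JOB WyE: Weyl sums over the quadrant

PROOF of `weyl`.  If `|κ| < Y^(1/8)`: `riem` gives `≤ C (1 + Y^(1/8)) Y^(3/4) ≤ 2 C Y^(7/8)`.  Otherwise `V_rows`: the rows `b < Y^(12/25)` have at most `gg Y b ≤ √Y` terms:
`≤ (Y^(12/25) + 1) √Y ≤ 2 Y^(0.98)`; the other rows, at most `√Y + 1` of them, are `≤ C Y^(1/2 - σ)` by `row_weyl` (`x = gg Y b`, `gg_nonneg`, `gg_le`).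
With `σ' = min σ (1/50)` all is `≤ C' Y^(1 - σ')`.
`weyl_E`: `E t j v * conj (E t k v) = e ((j - k) An v / per)`; `weyl_mult`: for totally positive `p` (`N p ≤ Y`): `v ↦ e (κ An v / per)` is invariant under `omu` (`κ` an integer) and
multiplicative, so `sum_mult` gives `∑_{v ∈ V Y, p ∣ v} e (κ An v / per) = e (κ An p / per) ∑_{u ∈ V (Y / N p)} e (κ An u / per)`.
`weyl'`: the same bound for the sum over multiples with `Y / N p` in place of `Y`; if `Y / N p < 1` the sum is empty.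
-/

namespace Pool.Agent.Lib.MP_d57abb_nt.MR

open Finset Real
open Pool.Agent.Lib.MP_2a816b_nt (e)

private theorem WyE_cnt {Y : ℝ} (hY : 1 ≤ Y) (n : ℕ) :
    ∑ b ∈ range n, (if (b : ℝ) < Y ^ (12 / 25 : ℝ) then √Y else 0) ≤ 2 * Y ^ (49 / 50 : ℝ) := by
  have hY0 : 0 < Y := by linarith
  rw [← Finset.sum_filter, Finset.sum_const, nsmul_eq_mul]
  have h1 : ((range n).filter (fun b : ℕ => (b : ℝ) < Y ^ (12 / 25 : ℝ))) ⊆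
      range (⌊Y ^ (12 / 25 : ℝ)⌋₊ + 1) := by
    intro b hb
    rw [mem_filter] at hb
    rw [mem_range]
    exact Nat.lt_succ_of_le (Nat.le_floor hb.2.le)
  have h2 : ((((range n).filter (fun b : ℕ => (b : ℝ) < Y ^ (12 / 25 : ℝ))).card : ℕ) : ℝ) ≤
      2 * Y ^ (12 / 25 : ℝ) := by
    have h3 := card_le_card h1
    rw [card_range] at h3
    have h4 : ((((range n).filter (fun b : ℕ => (b : ℝ) < Y ^ (12 / 25 : ℝ))).card : ℕ) : ℝ) ≤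
        (⌊Y ^ (12 / 25 : ℝ)⌋₊ : ℝ) + 1 := by exact_mod_cast h3
    have h5 : (⌊Y ^ (12 / 25 : ℝ)⌋₊ : ℝ) ≤ Y ^ (12 / 25 : ℝ) := Nat.floor_le (by positivity)
    have h6 : (1 : ℝ) ≤ Y ^ (12 / 25 : ℝ) := Real.one_le_rpow hY (by norm_num)
    linarith
  have h3 : √Y = Y ^ (1 / 2 : ℝ) := Real.sqrt_eq_rpow Y
  calc ((((range n).filter (fun b : ℕ => (b : ℝ) < Y ^ (12 / 25 : ℝ))).card : ℕ) : ℝ) * √Y
      ≤ 2 * Y ^ (12 / 25 : ℝ) * √Y := mul_le_mul_of_nonneg_right h2 (Real.sqrt_nonneg _)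
    _ = 2 * Y ^ (49 / 50 : ℝ) := by
        rw [h3, mul_assoc, ← Real.rpow_add hY0]
        norm_num

private theorem WyE_large {B σ C : ℝ} (hσ : 0 < σ) (hC : 1 ≤ C)
    (H : ∀ Y : ℝ, 1 ≤ Y → ∀ κ : ℤ,
      Y ^ (1 / 8 : ℝ) ≤ |(κ : ℝ)| → |(κ : ℝ)| ≤ Y ^ B → ∀ b : ℕ, Y ^ (12 / 25 : ℝ) ≤ b →
      (b : ℝ) ≤ √Y → ∀ x : ℝ, 0 ≤ x → x ≤ √Y →
      ‖∑ a ∈ Icc 1 ⌊x⌋₊, e (κ * An ⟨a, b⟩ / per)‖ ≤ C * Y ^ (1 / 2 - σ))
    {Y : ℝ} (hY : 1 ≤ Y) {κ : ℤ} (h1 : Y ^ (1 / 8 : ℝ) ≤ |(κ : ℝ)|) (h2 : |(κ : ℝ)| ≤ Y ^ B) :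
    ‖∑ v ∈ V Y, e (κ * An v / per)‖ ≤ 2 * Y ^ (49 / 50 : ℝ) + 2 * C * Y ^ (1 - σ) := by
  have hY0 : 0 < Y := by linarith
  have hsq : √Y = Y ^ (1 / 2 : ℝ) := Real.sqrt_eq_rpow Y
  have hs1 : 1 ≤ √Y := Real.one_le_sqrt.2 hY
  rw [V_rows hY (fun v => e (κ * An v / per))]
  refine (norm_sum_le _ _).trans ?_
  have hrow : ∀ b ∈ range (⌊√Y⌋₊ + 1),
      ‖∑ a ∈ Icc 1 ⌊gg Y b⌋₊, e (κ * An ⟨(a : ℤ), (b : ℤ)⟩ / per)‖ ≤
        (if (b : ℝ) < Y ^ (12 / 25 : ℝ) then √Y else 0) + C * Y ^ (1 / 2 - σ) := by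
    intro b hb
    rw [mem_range] at hb
    have hb1 : (b : ℝ) ≤ √Y :=
      (Nat.cast_le.2 (Nat.le_of_lt_succ hb)).trans (Nat.floor_le (Real.sqrt_nonneg _))
    have hb0 : (0 : ℝ) ≤ b := Nat.cast_nonneg b
    have hb2 : (b : ℝ) ^ 2 ≤ Y := by
      have h3 := pow_le_pow_left₀ hb0 hb1 2
      rwa [Real.sq_sqrt hY0.le] at h3
    have hg0 := gg_nonneg hb0 hb2
    have hg1 := gg_le hb0 hb2
    have hpos : 0 ≤ C * Y ^ (1 / 2 - σ) := by positivity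
    by_cases hcase : (b : ℝ) < Y ^ (12 / 25 : ℝ)
    · rw [if_pos hcase]
      have h4 : ‖∑ a ∈ Icc 1 ⌊gg Y b⌋₊, e (κ * An ⟨(a : ℤ), (b : ℤ)⟩ / per)‖ ≤ gg Y b := by
        refine (norm_sum_le _ _).trans ?_
        have h5 : ∀ a ∈ Icc 1 ⌊gg Y b⌋₊, ‖e (κ * An ⟨(a : ℤ), (b : ℤ)⟩ / per)‖ = 1 :=
          fun a _ => Pool.Agent.Lib.MP_2a816b_nt.norm_e _
        rw [Finset.sum_congr rfl h5, Finset.sum_const, nsmul_eq_mul, mul_one, Nat.card_Icc,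
          Nat.add_sub_cancel]
        exact Nat.floor_le hg0
      linarith
    · rw [if_neg hcase, zero_add]
      exact H Y hY κ h1 h2 b (not_lt.1 hcase) hb1 _ hg0 hg1
  refine (Finset.sum_le_sum hrow).trans ?_
  rw [Finset.sum_add_distrib, Finset.sum_const, card_range, nsmul_eq_mul]
  refine add_le_add (WyE_cnt hY _) ?_
  have h6 : (((⌊√Y⌋₊ + 1 : ℕ)) : ℝ) ≤ 2 * √Y := by
    push_cast
    have := Nat.floor_le (Real.sqrt_nonneg Y)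
    linarith
  calc (((⌊√Y⌋₊ + 1 : ℕ)) : ℝ) * (C * Y ^ (1 / 2 - σ))
      ≤ 2 * √Y * (C * Y ^ (1 / 2 - σ)) := mul_le_mul_of_nonneg_right h6 (by positivity)
    _ = 2 * C * (Y ^ (1 / 2 : ℝ) * Y ^ (1 / 2 - σ)) := by rw [hsq]; ring
    _ = 2 * C * Y ^ (1 - σ) := by
        rw [← Real.rpow_add hY0]
        congr 2
        ring

theorem weyl (B : ℝ) (hB : 1 ≤ B) : ∃ σ C : ℝ, 0 < σ ∧ σ ≤ 1 / 50 ∧ 1 ≤ C ∧ ∀ Y : ℝ, 1 ≤ Y → ∀ κ : ℤ, κ ≠ 0 →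
    |(κ : ℝ)| ≤ Y ^ B → ‖∑ v ∈ V Y, e (κ * An v / per)‖ ≤ C * Y ^ (1 - σ) := by
  obtain ⟨σ, C₁, hσ, -, hC₁, H⟩ := row_weyl B hB
  obtain ⟨C₂, hC₂, R⟩ := riem
  refine ⟨min σ (1 / 50), 2 * C₂ + 2 + 2 * C₁, lt_min hσ (by norm_num), min_le_right _ _,
    by linarith, ?_⟩
  intro Y hY κ hκ hκB
  have hY0 : 0 < Y := by linarith
  have hm1 : min σ (1 / 50) ≤ σ := min_le_left _ _
  have hm2 : min σ (1 / 50) ≤ 1 / 50 := min_le_right _ _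
  have hP : 0 < Y ^ (1 - min σ (1 / 50)) := Real.rpow_pos_of_pos hY0 _
  by_cases hcase : |(κ : ℝ)| < Y ^ (1 / 8 : ℝ)
  · have h1 := R Y hY κ
    rw [if_neg hκ, sub_zero] at h1
    refine h1.trans ?_
    have h2 : (1 : ℝ) ≤ Y ^ (1 / 8 : ℝ) := Real.one_le_rpow hY (by norm_num)
    have h3 : Y ^ (1 / 8 : ℝ) * Y ^ (3 / 4 : ℝ) ≤ Y ^ (1 - min σ (1 / 50)) := by
      rw [← Real.rpow_add hY0]
      refine Real.rpow_le_rpow_of_exponent_le hY ?_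
      linarith
    have h4 : 0 < Y ^ (3 / 4 : ℝ) := Real.rpow_pos_of_pos hY0 _
    calc C₂ * (1 + |(κ : ℝ)|) * Y ^ (3 / 4 : ℝ)
        ≤ C₂ * (2 * Y ^ (1 / 8 : ℝ)) * Y ^ (3 / 4 : ℝ) := by
          refine mul_le_mul_of_nonneg_right (mul_le_mul_of_nonneg_left ?_ hC₂.le) h4.le
          linarith
      _ = 2 * C₂ * (Y ^ (1 / 8 : ℝ) * Y ^ (3 / 4 : ℝ)) := by ring
      _ ≤ 2 * C₂ * Y ^ (1 - min σ (1 / 50)) := mul_le_mul_of_nonneg_left h3 (by linarith)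
      _ ≤ (2 * C₂ + 2 + 2 * C₁) * Y ^ (1 - min σ (1 / 50)) :=
          mul_le_mul_of_nonneg_right (by linarith) hP.le
  · have h1 := WyE_large hσ hC₁ H hY (not_lt.1 hcase) hκB
    have h2 : Y ^ (49 / 50 : ℝ) ≤ Y ^ (1 - min σ (1 / 50)) :=
      Real.rpow_le_rpow_of_exponent_le hY (by linarith)
    have h3 : Y ^ (1 - σ) ≤ Y ^ (1 - min σ (1 / 50)) :=
      Real.rpow_le_rpow_of_exponent_le hY (by linarith)
    refine h1.trans ?_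
    have h4 : 2 * C₁ * Y ^ (1 - σ) ≤ 2 * C₁ * Y ^ (1 - min σ (1 / 50)) :=
      mul_le_mul_of_nonneg_left h3 (by linarith)
    have h5 : 0 ≤ 2 * C₂ * Y ^ (1 - min σ (1 / 50)) := mul_nonneg (by linarith) hP.le
    calc 2 * Y ^ (49 / 50 : ℝ) + 2 * C₁ * Y ^ (1 - σ)
        ≤ 2 * Y ^ (1 - min σ (1 / 50)) + 2 * C₁ * Y ^ (1 - min σ (1 / 50)) := by linarith
      _ ≤ (2 * C₂ + 2 + 2 * C₁) * Y ^ (1 - min σ (1 / 50)) := by
          have h6 : (2 * C₂ + 2 + 2 * C₁) * Y ^ (1 - min σ (1 / 50)) =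
            2 * C₂ * Y ^ (1 - min σ (1 / 50)) + 2 * Y ^ (1 - min σ (1 / 50)) +
              2 * C₁ * Y ^ (1 - min σ (1 / 50)) := by ring
          linarith

open Classical in
theorem weyl_mult {p : O} (hp : TP p) (κ : ℤ) (Y : ℝ) :
    ∑ v ∈ (V Y).filter (fun v => p ∣ v), e (κ * An v / per) =
      e (κ * An p / per) * ∑ u ∈ V (Y / N p), e (κ * An u / per) := by
  have hper : per ≠ 0 := per_pos.ne'
  have hG : ∀ (k : ℤ) (x : O), TP x → (fun v => e (κ * An v / per)) (((omu ^ k : Oˣ) : O) * x) =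
      (fun v => e (κ * An v / per)) x := by
    intro k x hx
    show e (κ * An (((omu ^ k : Oˣ) : O) * x) / per) = e (κ * An x / per)
    rw [An_mul (TP_omu k) hx, An_omu]
    have h1 : (κ : ℝ) * ((k : ℝ) * per + An x) / per = κ * An x / per + ((κ * k : ℤ) : ℝ) := by
      push_cast
      field_simp
      ring
    rw [h1, Pool.Agent.Lib.MP_2a816b_nt.e_add_int]
  have h2 := sum_mult (G := fun v => e (κ * An v / per)) hG hp Y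
  refine h2.trans ?_
  rw [Finset.mul_sum]
  refine Finset.sum_congr rfl fun u hu => ?_
  show e (κ * An (p * u) / per) = _
  rw [An_mul hp (mem_V.1 hu).1.tp, ← Pool.Agent.Lib.MP_2a816b_nt.e_add]
  congr 1
  ring

theorem E_conj (t : ℝ) (j k : ℤ) (v : O) :
    E t j v * (starRingEnd ℂ) (E t k v) = e (((j - k : ℤ) : ℝ) * An v / per) := by
  unfold E
  rw [Pool.Agent.Lib.MP_2a816b_nt.conj_e, ← Pool.Agent.Lib.MP_2a816b_nt.e_add]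
  congr 1
  push_cast
  ring

end Pool.Agent.Lib.MP_d57abb_nt.MR
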