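import Mathlib
import Pool.Agent.Lib.MP_d57abb_nt.MR.Sch
import Pool.Agent.Lib.MP_d57abb_nt.MR.WyE
import Pool.Agent.Lib.MP_d57abb_nt.MR.Tk

/-!
# JOB BsA: almost orthogonality

`σ, C` from `weyl 3`; `s = σ / 8` (`σ ≤ 1/50`, so `s ≤ 1/400`).  Let `X` be large, `|j|, |k| ≤ X`, `j ≠ k`, `κ = j - k`, `0 < |κ| ≤ 2 X`.
* `bessel1` (`X^(4/5) ≤ Y ≤ X`): `schur` with `φ j v = E t j v`: by `E_conj` the Gram entries are `∑_{v ∈ V Y} e (κ An v / per)`: `#V(Y) ≤ C Y` for `j = k`, `≤ C Y^(1-σ)` otherwise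
  (`2 X ≤ Y^3`); the row sum is at most `C Y + X^s C Y^(1-σ) ≤ 2 C Y` (`X^s ≤ Y^σ` as `s ≤ (4/5) σ`).
* `bessel2` (`X^(9/10) ≤ Y ≤ X`, `z ≤ X^s`): `schur` with the index set `U × PP D z` and `φ (j, p) v = (N p [p ∣ v] - 1) (N p)^(-1/2) E t j v`.  Gram entry of `(j, p)`, `(k, p')`:
  `(N p N p')^(-1/2) ∑_v (N p [p∣v] - 1)(N p' [p'∣v] - 1) e (κ An v / per)`.
  - `j ≠ k`: expand; `{p ∣ v, p' ∣ v}` are the multiples of `p p'` (`p ≠ p'`, `mul_dvd`) or of `p`; by `weyl_mult` each of the four sums `∑_{q ∣ v} e(..)` is at most `C (Y / N q)^(1-σ) ≤ C Y^(1-σ)`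
    (`Y / N q ≥ X^(9/10 - 2s) ≥ X^(4/5)`, so `2 X ≤ (Y / N q)^3`); total `≤ 4 (N p N p')^(1/2) C Y^(1-σ) ≤ 4 C z Y^(1-σ)`.
  - `j = k`, `p = p'`: `(N p)^(-1) ((N p² - 2 N p) #V(Y/N p) + #V(Y)) ≤ C Y`.
  - `j = k`, `p ≠ p'`: `(N p N p')^(-1/2) (N p N p' #V(Y/(N p N p')) - N p #V(Y/N p) - N p' #V(Y/N p') + #V(Y))`: the main terms of `card_V` cancel, the error is
    `≤ (N p N p')^(-1/2) 4 N p N p' C Y^(3/4) ≤ 4 C z Y^(3/4)`.
  Row sum `≤ C Y + #PP (4 C z Y^(3/4)) + #U #PP (4 C z Y^(1-σ)) ≤ C' Y` since `#PP ≤ C z`, `z² Y^(3/4) ≤ Y`, `X^s z² Y^(-σ) ≤ X^(3s - (9/10) σ) ≤ 1`.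
`X₀` only ensures inequalities such as `2 X ≤ X^(12/5)` and the card bounds; the constants are absolute.
-/

namespace Pool.Agent.Lib.MP_d57abb_nt.MR

open Finset

open Classical in
/-- the two Bessel inequalities with exponent `s` -/
def Bes (s C X₀ : ℝ) : Prop :=
  ∀ X : ℝ, X₀ ≤ X → ∀ (t : ℝ) (U : Finset ℤ), (∀ j ∈ U, |(j : ℝ)| ≤ X) → (U.card : ℝ) ≤ X ^ s →
    (∀ Y : ℝ, X ^ (4 / 5 : ℝ) ≤ Y → Y ≤ X → ∀ b : O → ℂ,
      ∑ j ∈ U, ‖∑ v ∈ V Y, b v * E t j v‖ ^ 2 ≤ C * Y * ∑ v ∈ V Y, ‖b v‖ ^ 2) ∧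
    (∀ (D : ℕ) (z Y : ℝ), 1 ≤ z → z ≤ X ^ s → X ^ (9 / 10 : ℝ) ≤ Y → Y ≤ X → ∀ b : O → ℂ,
      ∑ p ∈ PP D z, 1 / (N p : ℝ) * ∑ j ∈ U,
        ‖∑ v ∈ V Y, b v * (((N p : ℝ) * (if p ∣ v then 1 else 0) - 1 : ℝ) : ℂ) * E t j v‖ ^ 2 ≤
        C * Y * ∑ v ∈ V Y, ‖b v‖ ^ 2)

open Pool.Agent.Lib.MP_2a816b_nt (e)

open Classical in
/-- the weight of `p` at `v` -/
private noncomputable def BsA_w (p v : O) : ℝ := (N p : ℝ) * (if p ∣ v then 1 else 0) - 1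

open Classical in
private theorem BsA_expand (p q : O) (g : O → ℂ) (Y : ℝ) :
    ∑ v ∈ V Y, (BsA_w p v : ℂ) * (BsA_w q v : ℂ) * g v =
      (N p : ℂ) * (N q : ℂ) * ∑ v ∈ (V Y).filter (fun v => p ∣ v ∧ q ∣ v), g v
      - (N p : ℂ) * ∑ v ∈ (V Y).filter (fun v => p ∣ v), g v
      - (N q : ℂ) * ∑ v ∈ (V Y).filter (fun v => q ∣ v), g v + ∑ v ∈ V Y, g v := by
  rw [Finset.sum_filter, Finset.sum_filter, Finset.sum_filter, Finset.mul_sum, Finset.mul_sum, Finset.mul_sum,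
    ← Finset.sum_sub_distrib, ← Finset.sum_sub_distrib, ← Finset.sum_add_distrib]
  refine Finset.sum_congr rfl fun v _ => ?_
  unfold BsA_w
  by_cases h : p ∣ v <;> by_cases h' : q ∣ v <;> simp [h, h'] <;> ring

private theorem BsA_e0 (v : O) : e (((0 : ℤ) : ℝ) * An v / per) = 1 := by
  rw [Int.cast_zero, zero_mul, zero_div, Pool.Agent.Lib.MP_2a816b_nt.e_zero]

/-- the constants -/
private theorem BsA_Npos {D : ℕ} {p : O} (h : Dg D p) : (1 : ℝ) ≤ N p := by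
  have h1 := h.two_le
  have h2 : (2 : ℝ) ≤ N p := by exact_mod_cast h1
  linarith

open Classical in
/-- intersection of the multiples of two primes -/
private theorem BsA_inter {D : ℕ} {p q : O} (hp : Dg D p) (hq : Dg D q) : ∃ r : O, TP r ∧ 1 ≤ (N r : ℝ) ∧
    (N r : ℝ) ≤ N p * N q ∧ (∀ v : O, (p ∣ v ∧ q ∣ v) ↔ r ∣ v) ∧ (p ≠ q → r = p * q) ∧ (p = q → r = p) := by
  have hp1 := BsA_Npos hp
  have hq1 := BsA_Npos hq
  by_cases h : p = q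
  · refine ⟨p, hp.tp, hp1, ?_, fun v => ?_, fun h' => absurd h h', fun _ => rfl⟩
    · exact le_mul_of_one_le_right (by linarith) hq1
    · rw [← h]
      exact and_self_iff
  · refine ⟨p * q, hp.tp.mul hq.tp, ?_, ?_, fun v => ⟨fun hv => mul_dvd hp hq h hv.1 hv.2, fun hv =>
      ⟨dvd_of_mul_right_dvd hv, dvd_of_mul_left_dvd hv⟩⟩, fun _ => rfl, fun h' => absurd h' h⟩
    · rw [N_mul]
      push_cast
      exact one_le_mul_of_one_le_of_one_le hp1 hq1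
    · rw [N_mul]
      push_cast
      exact le_refl _

open Classical in
/-- the sum over the multiples of `r` -/
private theorem BsA_mult {σ C Y X : ℝ} (hC : 1 ≤ C) (hσ : 0 < σ) (hσ1 : σ ≤ 1)
    (H : ∀ Y : ℝ, 1 ≤ Y → ∀ κ : ℤ, κ ≠ 0 → |(κ : ℝ)| ≤ Y ^ (3 : ℝ) →
      ‖∑ v ∈ V Y, e (κ * An v / per)‖ ≤ C * Y ^ (1 - σ))
    {r : O} (hr : TP r) (hr1 : 1 ≤ (N r : ℝ)) (hX : 2 ≤ X) (hY : X ^ (4 / 5 : ℝ) ≤ Y / N r) {κ : ℤ} (hκ : κ ≠ 0)
    (hκX : |(κ : ℝ)| ≤ 2 * X) :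
    ‖∑ v ∈ (V Y).filter (fun v => r ∣ v), e (κ * An v / per)‖ ≤ C * Y ^ (1 - σ) := by
  have hX0 : 0 < X := by linarith
  have hX1 : (1 : ℝ) ≤ X ^ (4 / 5 : ℝ) := Real.one_le_rpow (by linarith) (by norm_num)
  have hr0 : (0 : ℝ) < N r := by linarith
  have hY0 : 0 < Y := by
    have h1 : 0 < Y / N r := by linarith
    rwa [div_pos_iff_of_pos_right hr0] at h1
  rw [weyl_mult hr, norm_mul, Pool.Agent.Lib.MP_2a816b_nt.norm_e, one_mul]
  refine (H (Y / N r) (hX1.trans hY) κ hκ (hκX.trans ?_)).trans ?_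
  · have h1 : (X ^ (4 / 5 : ℝ)) ^ (3 : ℝ) ≤ (Y / N r) ^ (3 : ℝ) :=
      Real.rpow_le_rpow (by positivity) hY (by norm_num)
    refine le_trans ?_ h1
    rw [← Real.rpow_mul hX0.le]
    have h2 : X ^ (4 / 5 * 3 : ℝ) = X * X ^ (7 / 5 : ℝ) := by
      rw [← Real.rpow_one_add' hX0.le (by norm_num)]
      norm_num
    have h3 : X ≤ X ^ (7 / 5 : ℝ) := by
      calc X = X ^ (1 : ℝ) := (Real.rpow_one X).symm
        _ ≤ X ^ (7 / 5 : ℝ) := Real.rpow_le_rpow_of_exponent_le (by linarith) (by norm_num)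
    rw [h2]
    nlinarith
  · refine mul_le_mul_of_nonneg_left ?_ (by linarith)
    refine Real.rpow_le_rpow (by positivity) ?_ (by linarith)
    exact div_le_self hY0.le hr1

open Classical in
/-- the entries of the Gram matrix: different frequencies -/
private theorem BsA_off {σ C Y X z : ℝ} (hC : 1 ≤ C) (hσ : 0 < σ) (hσ1 : σ ≤ 1)
    (H : ∀ Y : ℝ, 1 ≤ Y → ∀ κ : ℤ, κ ≠ 0 → |(κ : ℝ)| ≤ Y ^ (3 : ℝ) →
      ‖∑ v ∈ V Y, e (κ * An v / per)‖ ≤ C * Y ^ (1 - σ))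
    (hX : 2 ≤ X) (hz : 1 ≤ z) (hY : X ^ (4 / 5 : ℝ) ≤ Y / z ^ 2) {κ : ℤ} (hκ : κ ≠ 0)
    (hκX : |(κ : ℝ)| ≤ 2 * X) {D : ℕ} {p q : O} (hp : Dg D p) (hq : Dg D q) (hpz : (N p : ℝ) ≤ z)
    (hqz : (N q : ℝ) ≤ z) :
    ‖∑ v ∈ V Y, (BsA_w p v : ℂ) * (BsA_w q v : ℂ) * e (κ * An v / per)‖ ≤
      4 * (N p * N q) * (C * Y ^ (1 - σ)) := by
  obtain ⟨r, hr, hr1, hr2, hr3, -, -⟩ := BsA_inter hp hq
  have hp1 := BsA_Npos hp
  have hq1 := BsA_Npos hq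
  have hX0 : 0 < X := by linarith
  have hz2 : 0 < z ^ 2 := by positivity
  have hY0 : 0 < Y := by
    have h1 : 0 < Y / z ^ 2 := lt_of_lt_of_le (by positivity) hY
    rwa [div_pos_iff_of_pos_right hz2] at h1
  have hle : ∀ x : ℝ, 0 < x → x ≤ z ^ 2 → X ^ (4 / 5 : ℝ) ≤ Y / x := fun x hx hxz =>
    hY.trans (div_le_div_of_nonneg_left hY0.le hx hxz)
  have hzz : z ≤ z ^ 2 := by nlinarith
  have hpq : (N p : ℝ) * N q ≤ z ^ 2 := by
    rw [sq]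
    exact mul_le_mul hpz hqz (by linarith) (by linarith)
  have b1 := BsA_mult hC hσ hσ1 H hr hr1 hX (hle _ (by linarith) (hr2.trans hpq)) hκ hκX
  have b2 := BsA_mult hC hσ hσ1 H hp.tp hp1 hX (hle _ (by linarith) (hpz.trans hzz)) hκ hκX
  have b3 := BsA_mult hC hσ hσ1 H hq.tp hq1 hX (hle _ (by linarith) (hqz.trans hzz)) hκ hκX
  have b4 := BsA_mult (r := 1) (X := X) (Y := Y) (κ := κ) hC hσ hσ1 H TP_one (by rw [N_one]; norm_num) hX
    (hle _ (by rw [N_one]; norm_num) (by rw [N_one]; push_cast; nlinarith)) hκ hκX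
  have hf1 : (V Y).filter (fun v => p ∣ v ∧ q ∣ v) = (V Y).filter (fun v => r ∣ v) :=
    Finset.filter_congr fun v _ => hr3 v
  have hf4 : (V Y).filter (fun v => (1 : O) ∣ v) = V Y :=
    Finset.filter_true_of_mem fun v _ => one_dvd v
  rw [hf4] at b4
  rw [BsA_expand, hf1]
  obtain ⟨M, hM⟩ : ∃ M : ℝ, M = C * Y ^ (1 - σ) := ⟨_, rfl⟩
  rw [← hM] at b1 b2 b3 b4 ⊢
  have hM0 : 0 ≤ M := (norm_nonneg _).trans b4
  have n1 : ‖(N p : ℂ)‖ = N p := by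
    rw [Complex.norm_intCast]
    exact abs_of_nonneg (by linarith)
  have n2 : ‖(N q : ℂ)‖ = N q := by
    rw [Complex.norm_intCast]
    exact abs_of_nonneg (by linarith)
  refine (norm_add_le _ _).trans ?_
  refine (add_le_add ((norm_sub_le _ _).trans (add_le_add (norm_sub_le _ _) le_rfl)) le_rfl).trans ?_
  rw [norm_mul, norm_mul, norm_mul, norm_mul, n1, n2]
  have c1 : (N p : ℝ) * N q * ‖∑ v ∈ (V Y).filter (fun v => r ∣ v), e (κ * An v / per)‖ ≤ N p * N q * M :=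
    mul_le_mul_of_nonneg_left b1 (by positivity)
  have c2 : (N p : ℝ) * ‖∑ v ∈ (V Y).filter (fun v => p ∣ v), e (κ * An v / per)‖ ≤ N p * N q * M :=
    (mul_le_mul_of_nonneg_left b2 (by linarith)).trans
      (mul_le_mul_of_nonneg_right (le_mul_of_one_le_right (by linarith) hq1) hM0)
  have c3 : (N q : ℝ) * ‖∑ v ∈ (V Y).filter (fun v => q ∣ v), e (κ * An v / per)‖ ≤ N p * N q * M :=
    (mul_le_mul_of_nonneg_left b3 (by linarith)).trans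
      (mul_le_mul_of_nonneg_right (le_mul_of_one_le_left (by linarith) hp1) hM0)
  have c4 : ‖∑ v ∈ V Y, e (κ * An v / per)‖ ≤ N p * N q * M :=
    b4.trans (le_mul_of_one_le_left hM0 (one_le_mul_of_one_le_of_one_le hp1 hq1))
  linarith

open Classical in
/-- the entries of the Gram matrix: equal frequencies -/
private theorem BsA_on {C₁ C₂ Y X z : ℝ} (hC₂ : 0 < C₂)
    (H₁ : ∀ Y : ℝ, 0 ≤ Y → ((V Y).card : ℝ) ≤ C₁ * Y)
    (H₂ : ∀ Y : ℝ, 1 ≤ Y → |((V Y).card : ℝ) - per / (2 * √5) * Y| ≤ C₂ * Y ^ (3 / 4 : ℝ))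
    (hX : 2 ≤ X) (hz : 1 ≤ z) (hY : X ^ (4 / 5 : ℝ) ≤ Y / z ^ 2)
    {D : ℕ} {p q : O} (hp : Dg D p) (hq : Dg D q) (hpz : (N p : ℝ) ≤ z) (hqz : (N q : ℝ) ≤ z) :
    ‖∑ v ∈ V Y, (BsA_w p v : ℂ) * (BsA_w q v : ℂ) * e (((0 : ℤ) : ℝ) * An v / per)‖ ≤
      (if p = q then 2 * (N p : ℝ) * (C₁ * Y) else 0) + 4 * (N p * N q) * (C₂ * Y ^ (3 / 4 : ℝ)) := by
  obtain ⟨r, hr, hr1, hr2, hr3, hr4, hr5⟩ := BsA_inter hp hq
  have hp1 := BsA_Npos hp
  have hq1 := BsA_Npos hq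
  have hX0 : 0 < X := by linarith
  have hX1 : (1 : ℝ) ≤ X ^ (4 / 5 : ℝ) := Real.one_le_rpow (by linarith) (by norm_num)
  have hz2 : 0 < z ^ 2 := by positivity
  have hY0 : 0 < Y := by
    have h1 : 0 < Y / z ^ 2 := by linarith
    rwa [div_pos_iff_of_pos_right hz2] at h1
  have hle : ∀ x : ℝ, 0 < x → x ≤ z ^ 2 → 1 ≤ Y / x := fun x hx hxz =>
    (hX1.trans hY).trans (div_le_div_of_nonneg_left hY0.le hx hxz)
  have hzz : z ≤ z ^ 2 := by nlinarith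
  have hpq : (N p : ℝ) * N q ≤ z ^ 2 := by
    rw [sq]
    exact mul_le_mul hpz hqz (by linarith) (by linarith)
  have hf1 : (V Y).filter (fun v => p ∣ v ∧ q ∣ v) = (V Y).filter (fun v => r ∣ v) :=
    Finset.filter_congr fun v _ => hr3 v
  have hone : ∀ S : Finset O, ∑ v ∈ S, e (((0 : ℤ) : ℝ) * An v / per) = ((S.card : ℝ) : ℂ) := by
    intro S
    rw [Finset.sum_congr rfl fun v _ => BsA_e0 v, Finset.sum_const, nsmul_eq_mul, mul_one]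
    push_cast
    rfl
  have hreal : ∑ v ∈ V Y, (BsA_w p v : ℂ) * (BsA_w q v : ℂ) * e (((0 : ℤ) : ℝ) * An v / per) =
      (((N p : ℝ) * N q * (V (Y / N r)).card - N p * (V (Y / N p)).card - N q * (V (Y / N q)).card +
        (V Y).card : ℝ) : ℂ) := by
    rw [BsA_expand, hf1, hone, hone, hone, hone, card_mult hr, card_mult hp.tp, card_mult hq.tp]
    push_cast
    ring
  rw [hreal, Complex.norm_real, Real.norm_eq_abs]
  have hR0 : 0 ≤ C₂ * Y ^ (3 / 4 : ℝ) := by positivity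
  by_cases h : p = q
  · rw [if_pos h]
    have hr' : r = p := hr5 h
    rw [hr', ← h]
    have h1 := H₁ (Y / N p) (by positivity)
    have h2 := H₁ Y hY0.le
    have h3 : (0 : ℝ) ≤ (V (Y / N p)).card := Nat.cast_nonneg _
    have h4 : (0 : ℝ) ≤ (V Y).card := Nat.cast_nonneg _
    have h5 : (2 : ℝ) ≤ N p := by exact_mod_cast hp.two_le
    have h6 : (N p : ℝ) * N p * (V (Y / N p)).card - N p * (V (Y / N p)).card - N p * (V (Y / N p)).card +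
        (V Y).card = (N p * (N p - 2)) * (V (Y / N p)).card + (V Y).card := by ring
    rw [h6, abs_of_nonneg (add_nonneg (mul_nonneg (mul_nonneg (by linarith) (by linarith)) h3) h4)]
    have h7 : (N p * ((N p : ℝ) - 2)) * (V (Y / N p)).card ≤ (N p * (N p - 2)) * (C₁ * (Y / N p)) :=
      mul_le_mul_of_nonneg_left h1 (mul_nonneg (by linarith) (by linarith))
    have h8 : (N p * ((N p : ℝ) - 2)) * (C₁ * (Y / N p)) = (N p - 2) * (C₁ * Y) := by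
      field_simp
    have h9 : 0 ≤ C₁ * Y := h4.trans h2
    have h10 : 0 ≤ 4 * ((N p : ℝ) * N p) * (C₂ * Y ^ (3 / 4 : ℝ)) := by positivity
    nlinarith [mul_nonneg (by linarith : (0 : ℝ) ≤ N p) h9]
  · rw [if_neg h, zero_add, hr4 h]
    have hNr : (N (p * q) : ℝ) = N p * N q := by
      rw [N_mul]
      push_cast
      rfl
    rw [hNr]
    have hc : ∀ x : ℝ, 1 ≤ x → x ≤ z ^ 2 → |x * (V (Y / x)).card - per / (2 * √5) * Y| ≤ x * (C₂ * Y ^ (3 / 4 : ℝ)) := by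
      intro x hx hxz
      have hx0 : 0 < x := by linarith
      have h1 := H₂ (Y / x) (hle x hx0 hxz)
      have h2 : x * ((V (Y / x)).card : ℝ) - per / (2 * √5) * Y = x * ((V (Y / x)).card - per / (2 * √5) * (Y / x)) := by
        field_simp
      rw [h2, abs_mul, abs_of_pos hx0]
      refine mul_le_mul_of_nonneg_left (h1.trans ?_) hx0.le
      refine mul_le_mul_of_nonneg_left ?_ hC₂.le
      exact Real.rpow_le_rpow (by positivity) (div_le_self hY0.le hx) (by norm_num)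
    have a1 := abs_le.1 (hc (N p * N q) (one_le_mul_of_one_le_of_one_le hp1 hq1) hpq)
    have a2 := abs_le.1 (hc (N p) hp1 (hpz.trans hzz))
    have a3 := abs_le.1 (hc (N q) hq1 (hqz.trans hzz))
    have a4 := abs_le.1 (hc 1 le_rfl (by nlinarith))
    rw [div_one, one_mul] at a4
    have c2 : (N p : ℝ) * (C₂ * Y ^ (3 / 4 : ℝ)) ≤ N p * N q * (C₂ * Y ^ (3 / 4 : ℝ)) :=
      mul_le_mul_of_nonneg_right (le_mul_of_one_le_right (by linarith) hq1) hR0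
    have c3 : (N q : ℝ) * (C₂ * Y ^ (3 / 4 : ℝ)) ≤ N p * N q * (C₂ * Y ^ (3 / 4 : ℝ)) :=
      mul_le_mul_of_nonneg_right (le_mul_of_one_le_left (by linarith) hp1) hR0
    have c4 : 1 * (C₂ * Y ^ (3 / 4 : ℝ)) ≤ N p * N q * (C₂ * Y ^ (3 / 4 : ℝ)) :=
      mul_le_mul_of_nonneg_right (one_le_mul_of_one_le_of_one_le hp1 hq1) hR0
    rw [abs_le]
    constructor <;> linarith [a1.1, a1.2, a2.1, a2.2, a3.1, a3.2, a4.1, a4.2]

/-- the powers -/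
private theorem BsA_pow {X Y s σ a : ℝ} (hX : 1 ≤ X) (ha : 0 < a) (hY : X ^ a ≤ Y) (hs : 0 ≤ s)
    (h : s ≤ a * σ) : X ^ s ≤ Y ^ σ := by
  have hX0 : 0 < X := by linarith
  have hσ : 0 ≤ σ := by
    by_contra hcon
    nlinarith
  calc X ^ s ≤ X ^ (a * σ) := Real.rpow_le_rpow_of_exponent_le hX h
    _ = (X ^ a) ^ σ := Real.rpow_mul hX0.le _ _
    _ ≤ Y ^ σ := Real.rpow_le_rpow (by positivity) hY hσ

private theorem BsA_first {σ s Cw Cl X Y : ℝ} (hσ : 0 < σ) (hσ1 : σ ≤ 1 / 50) (hs : s = σ / 8) (hCw : 1 ≤ Cw)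
    (H : ∀ Y : ℝ, 1 ≤ Y → ∀ κ : ℤ, κ ≠ 0 → |(κ : ℝ)| ≤ Y ^ (3 : ℝ) →
      ‖∑ v ∈ V Y, e (κ * An v / per)‖ ≤ Cw * Y ^ (1 - σ))
    (H₁ : ∀ Y : ℝ, 0 ≤ Y → ((V Y).card : ℝ) ≤ Cl * Y) (hX : 2 ≤ X)
    (t : ℝ) (U : Finset ℤ) (hU : ∀ j ∈ U, |(j : ℝ)| ≤ X) (hU1 : (U.card : ℝ) ≤ X ^ s)
    (hY : X ^ (4 / 5 : ℝ) ≤ Y) (b : O → ℂ) :
    ∑ j ∈ U, ‖∑ v ∈ V Y, b v * E t j v‖ ^ 2 ≤ (Cl + Cw) * Y * ∑ v ∈ V Y, ‖b v‖ ^ 2 := by
  classical
  have hX0 : 0 < X := by linarith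
  have hX1 : (1 : ℝ) ≤ X ^ (4 / 5 : ℝ) := Real.one_le_rpow (by linarith) (by norm_num)
  have hY1 : 1 ≤ Y := hX1.trans hY
  have hY0 : 0 < Y := by linarith
  have hone : ∀ S : Finset O, ∑ v ∈ S, e (((0 : ℤ) : ℝ) * An v / per) = ((S.card : ℝ) : ℂ) := by
    intro S
    rw [Finset.sum_congr rfl fun v _ => BsA_e0 v, Finset.sum_const, nsmul_eq_mul, mul_one]
    push_cast
    rfl
  have hr1 : (1 : ℝ) ≤ (N (1 : O) : ℝ) := by
    rw [N_one]
    norm_num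
  have hf4 : (V Y).filter (fun v => (1 : O) ∣ v) = V Y :=
    Finset.filter_true_of_mem fun v _ => one_dvd v
  have hM0 : 0 ≤ Cw * Y ^ (1 - σ) := by positivity
  have hR0 : 0 ≤ (Cl + Cw) * Y := by
    have h1 := H₁ Y hY0.le
    have h2 : (0 : ℝ) ≤ ((V Y).card : ℝ) := Nat.cast_nonneg _
    have h3 : 0 ≤ Cw * Y := mul_nonneg (by linarith) hY0.le
    rw [add_mul]
    linarith
  refine schur U (V Y) (fun j v => E t j v) ((Cl + Cw) * Y) hR0 ?_ b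
  intro j hj
  have hent : ∀ k ∈ U, ‖∑ v ∈ V Y, E t j v * (starRingEnd ℂ) (E t k v)‖ ≤
      (if j = k then Cl * Y else 0) + Cw * Y ^ (1 - σ) := by
    intro k hk
    rw [Finset.sum_congr rfl fun v _ => E_conj t j k v]
    by_cases h : j = k
    · rw [if_pos h, h, sub_self, hone, Complex.norm_real, Real.norm_of_nonneg (Nat.cast_nonneg _)]
      have := H₁ Y hY0.le
      linarith
    · rw [if_neg h, zero_add]
      have h1 := BsA_mult (r := 1) (X := X) (Y := Y) (κ := j - k) hCw hσ (by linarith) H TP_one hr1 hX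
        (by rw [N_one]; simpa using hY) (sub_ne_zero.2 h) (by
          push_cast
          refine (abs_sub _ _).trans ?_
          have h2 := hU j hj
          have h3 := hU k hk
          linarith)
      rw [hf4] at h1
      exact h1
  refine (Finset.sum_le_sum hent).trans ?_
  rw [Finset.sum_add_distrib, Finset.sum_ite_eq, if_pos hj, Finset.sum_const, nsmul_eq_mul]
  have h1 : X ^ s ≤ Y ^ σ := BsA_pow (by linarith) (by norm_num) hY (by rw [hs]; positivity) (by rw [hs]; linarith)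
  have h2 : (U.card : ℝ) * (Cw * Y ^ (1 - σ)) ≤ Cw * Y := by
    calc (U.card : ℝ) * (Cw * Y ^ (1 - σ)) ≤ Y ^ σ * (Cw * Y ^ (1 - σ)) :=
          mul_le_mul_of_nonneg_right (hU1.trans h1) hM0
      _ = Cw * (Y ^ σ * Y ^ (1 - σ)) := by ring
      _ = Cw * Y := by
          rw [← Real.rpow_add hY0]
          have : σ + (1 - σ) = 1 := by ring
          rw [this, Real.rpow_one]
  linarith

open Classical in
private theorem BsA_second {σ s Cw Cl Cv X Y z : ℝ} (hσ : 0 < σ) (hσ1 : σ ≤ 1 / 50) (hs : s = σ / 8)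
    (hCw : 1 ≤ Cw) (hCl : 1 ≤ Cl) (hCv : 0 < Cv)
    (H : ∀ Y : ℝ, 1 ≤ Y → ∀ κ : ℤ, κ ≠ 0 → |(κ : ℝ)| ≤ Y ^ (3 : ℝ) →
      ‖∑ v ∈ V Y, e (κ * An v / per)‖ ≤ Cw * Y ^ (1 - σ))
    (H₁ : ∀ Y : ℝ, 0 ≤ Y → ((V Y).card : ℝ) ≤ Cl * Y)
    (H₂ : ∀ Y : ℝ, 1 ≤ Y → |((V Y).card : ℝ) - per / (2 * √5) * Y| ≤ Cv * Y ^ (3 / 4 : ℝ))
    (hX : 2 ≤ X) (t : ℝ) (U : Finset ℤ) (hU : ∀ j ∈ U, |(j : ℝ)| ≤ X) (hU1 : (U.card : ℝ) ≤ X ^ s)
    (D : ℕ) (hz : 1 ≤ z) (hzX : z ≤ X ^ s) (hY : X ^ (9 / 10 : ℝ) ≤ Y) (b : O → ℂ) :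
    ∑ p ∈ PP D z, 1 / (N p : ℝ) * ∑ j ∈ U,
        ‖∑ v ∈ V Y, b v * (((N p : ℝ) * (if p ∣ v then 1 else 0) - 1 : ℝ) : ℂ) * E t j v‖ ^ 2 ≤
      (2 * Cl + 4 * Cl * Cw + 4 * Cl * Cv) * Y * ∑ v ∈ V Y, ‖b v‖ ^ 2 := by
  have hX0 : 0 < X := by linarith
  have hXa : (1 : ℝ) ≤ X := by linarith
  have hX1 : (1 : ℝ) ≤ X ^ (9 / 10 : ℝ) := Real.one_le_rpow hXa (by norm_num)
  have hY1 : 1 ≤ Y := hX1.trans hY
  have hY0 : 0 < Y := by linarith
  have hz0 : 0 < z := by linarith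
  have hs0 : 0 < s := by rw [hs]; positivity
  have hz2 : z ^ 2 ≤ X ^ (1 / 10 : ℝ) := by
    calc z ^ 2 ≤ (X ^ s) ^ 2 := pow_le_pow_left₀ hz0.le hzX 2
      _ = X ^ (s * 2) := by
          rw [← Real.rpow_natCast, ← Real.rpow_mul hX0.le]
          norm_num
      _ ≤ X ^ (1 / 10 : ℝ) := Real.rpow_le_rpow_of_exponent_le hXa (by rw [hs]; linarith)
  have hYz : X ^ (4 / 5 : ℝ) ≤ Y / z ^ 2 := by
    rw [le_div_iff₀ (by positivity)]
    calc X ^ (4 / 5 : ℝ) * z ^ 2 ≤ X ^ (4 / 5 : ℝ) * X ^ (1 / 10 : ℝ) :=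
          mul_le_mul_of_nonneg_left hz2 (by positivity)
      _ = X ^ (9 / 10 : ℝ) := by
          rw [← Real.rpow_add hX0]
          norm_num
      _ ≤ Y := hY
  have hw : ∀ p v : O, (((N p : ℝ) * (if p ∣ v then 1 else 0) - 1 : ℝ) : ℂ) = (BsA_w p v : ℂ) := fun _ _ => rfl
  obtain ⟨φ, hφ⟩ : ∃ φ : O × ℤ → O → ℂ, ∀ x v, φ x v = ((1 / √(N x.1 : ℝ) : ℝ) : ℂ) * (BsA_w x.1 v : ℂ) * E t x.2 v :=
    ⟨_, fun _ _ => rfl⟩
  have hPP : ∀ p ∈ PP D z, Dg D p ∧ (N p : ℝ) ≤ z := fun p hp => mem_PP.1 hp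
  have hMw : 0 ≤ Cw * Y ^ (1 - σ) := by positivity
  have hMv : 0 ≤ Cv * Y ^ (3 / 4 : ℝ) := by positivity
  have key : ∀ x ∈ PP D z ×ˢ U, ∑ y ∈ PP D z ×ˢ U, ‖∑ v ∈ V Y, φ x v * (starRingEnd ℂ) (φ y v)‖ ≤
      (2 * Cl + 4 * Cl * Cw + 4 * Cl * Cv) * Y := by
    intro x hx
    obtain ⟨hx1, hx2⟩ := Finset.mem_product.1 hx
    obtain ⟨hxD, hxz⟩ := hPP x.1 hx1
    have hxN := BsA_Npos hxD
    have hent : ∀ y ∈ PP D z ×ˢ U, ‖∑ v ∈ V Y, φ x v * (starRingEnd ℂ) (φ y v)‖ ≤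
        (if x = y then 2 * (Cl * Y) else 0) + 4 * z * (Cw * Y ^ (1 - σ) + Cv * Y ^ (3 / 4 : ℝ)) := by
      intro y hy
      obtain ⟨hy1, hy2⟩ := Finset.mem_product.1 hy
      obtain ⟨hyD, hyz⟩ := hPP y.1 hy1
      have hyN := BsA_Npos hyD
      have hprod : ∀ v, φ x v * (starRingEnd ℂ) (φ y v) =
          ((1 / √(N x.1 : ℝ) * (1 / √(N y.1 : ℝ)) : ℝ) : ℂ) *
            ((BsA_w x.1 v : ℂ) * (BsA_w y.1 v : ℂ) * e (((x.2 - y.2 : ℤ) : ℝ) * An v / per)) := by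
        intro v
        rw [hφ, hφ, map_mul, map_mul, Complex.conj_ofReal, Complex.conj_ofReal, ← E_conj t x.2 y.2 v]
        push_cast
        ring
      rw [Finset.sum_congr rfl fun v _ => hprod v, ← Finset.mul_sum, norm_mul, Complex.norm_real,
        Real.norm_of_nonneg (by positivity)]
      have hsq : 1 / √(N x.1 : ℝ) * (1 / √(N y.1 : ℝ)) * (N x.1 * N y.1) ≤ z := by
        have e1 : 1 / √(N x.1 : ℝ) * (1 / √(N y.1 : ℝ)) * (N x.1 * N y.1) = √(N x.1 : ℝ) * √(N y.1 : ℝ) := by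
          have f1 : √(N x.1 : ℝ) ≠ 0 := (Real.sqrt_pos.2 (by linarith)).ne'
          have f2 : √(N y.1 : ℝ) ≠ 0 := (Real.sqrt_pos.2 (by linarith)).ne'
          have g1 : (N x.1 : ℝ) = √(N x.1 : ℝ) * √(N x.1 : ℝ) := (Real.mul_self_sqrt (by linarith)).symm
          have g2 : (N y.1 : ℝ) = √(N y.1 : ℝ) * √(N y.1 : ℝ) := (Real.mul_self_sqrt (by linarith)).symm
          calc 1 / √(N x.1 : ℝ) * (1 / √(N y.1 : ℝ)) * (N x.1 * N y.1) =
              1 / √(N x.1 : ℝ) * (1 / √(N y.1 : ℝ)) *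
                ((√(N x.1 : ℝ) * √(N x.1 : ℝ)) * (√(N y.1 : ℝ) * √(N y.1 : ℝ))) := by rw [← g1, ← g2]
            _ = √(N x.1 : ℝ) * √(N y.1 : ℝ) := by field_simp
        rw [e1]
        have h1 : √(N x.1 : ℝ) ≤ √z := Real.sqrt_le_sqrt hxz
        have h2 : √(N y.1 : ℝ) ≤ √z := Real.sqrt_le_sqrt hyz
        calc √(N x.1 : ℝ) * √(N y.1 : ℝ) ≤ √z * √z := mul_le_mul h1 h2 (Real.sqrt_nonneg _) (Real.sqrt_nonneg _)
          _ = z := Real.mul_self_sqrt hz0.le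
      have hc0 : 0 ≤ 1 / √(N x.1 : ℝ) * (1 / √(N y.1 : ℝ)) := by positivity
      by_cases h : x.2 = y.2
      · have h1 := BsA_on (p := x.1) (q := y.1) (Y := Y) hCv H₁ H₂ hX hz hYz hxD hyD hxz hyz
        rw [h, sub_self]
        have h2 := mul_le_mul_of_nonneg_left h1 hc0
        refine h2.trans ?_
        rw [mul_add]
        refine add_le_add ?_ ?_
        · by_cases h3 : x.1 = y.1
          · rw [if_pos h3, if_pos (Prod.ext h3 h), ← h3]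
            have f1 : √(N x.1 : ℝ) ≠ 0 := (Real.sqrt_pos.2 (by linarith)).ne'
            have g1 : (N x.1 : ℝ) = √(N x.1 : ℝ) * √(N x.1 : ℝ) := (Real.mul_self_sqrt (by linarith)).symm
            refine le_of_eq ?_
            calc 1 / √(N x.1 : ℝ) * (1 / √(N x.1 : ℝ)) * (2 * (N x.1 : ℝ) * (Cl * Y)) =
                1 / √(N x.1 : ℝ) * (1 / √(N x.1 : ℝ)) * (2 * (√(N x.1 : ℝ) * √(N x.1 : ℝ)) * (Cl * Y)) := by
                  rw [← g1]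
              _ = 2 * (Cl * Y) := by field_simp
          · rw [if_neg h3, if_neg (fun h4 => h3 (congrArg Prod.fst h4)), mul_zero]
        · calc 1 / √(N x.1 : ℝ) * (1 / √(N y.1 : ℝ)) * (4 * (N x.1 * N y.1) * (Cv * Y ^ (3 / 4 : ℝ))) =
              4 * (1 / √(N x.1 : ℝ) * (1 / √(N y.1 : ℝ)) * (N x.1 * N y.1)) * (Cv * Y ^ (3 / 4 : ℝ)) := by ring
            _ ≤ 4 * z * (Cv * Y ^ (3 / 4 : ℝ)) :=
                mul_le_mul_of_nonneg_right (by linarith) hMv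
            _ ≤ 4 * z * (Cw * Y ^ (1 - σ) + Cv * Y ^ (3 / 4 : ℝ)) :=
                mul_le_mul_of_nonneg_left (by linarith) (by linarith)
      · have h1 := BsA_off (p := x.1) (q := y.1) (κ := x.2 - y.2) hCw hσ (by linarith) H hX hz hYz
          (sub_ne_zero.2 h) (by
            push_cast
            refine (abs_sub _ _).trans ?_
            have h2 := hU x.2 hx2
            have h3 := hU y.2 hy2
            linarith) hxD hyD hxz hyz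
        have h2 := mul_le_mul_of_nonneg_left h1 hc0
        refine h2.trans ?_
        rw [if_neg (fun h4 => h (congrArg Prod.snd h4)), zero_add]
        calc 1 / √(N x.1 : ℝ) * (1 / √(N y.1 : ℝ)) * (4 * (N x.1 * N y.1) * (Cw * Y ^ (1 - σ))) =
            4 * (1 / √(N x.1 : ℝ) * (1 / √(N y.1 : ℝ)) * (N x.1 * N y.1)) * (Cw * Y ^ (1 - σ)) := by ring
          _ ≤ 4 * z * (Cw * Y ^ (1 - σ)) :=
              mul_le_mul_of_nonneg_right (by linarith) hMw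
          _ ≤ 4 * z * (Cw * Y ^ (1 - σ) + Cv * Y ^ (3 / 4 : ℝ)) :=
              mul_le_mul_of_nonneg_left (by linarith) (by linarith)
    refine (Finset.sum_le_sum hent).trans ?_
    rw [Finset.sum_add_distrib, Finset.sum_ite_eq, if_pos hx, Finset.sum_const, nsmul_eq_mul, Finset.card_product]
    have hcP : ((PP D z).card : ℝ) ≤ Cl * z := by
      have h1 : (PP D z).card ≤ (V z).card := Finset.card_le_card (Finset.filter_subset _ _)
      have h2 : ((PP D z).card : ℝ) ≤ (V z).card := by exact_mod_cast h1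
      exact h2.trans (H₁ z hz0.le)
    have hc : ((((PP D z).card * U.card : ℕ)) : ℝ) * z ≤ Cl * X ^ (3 * s) := by
      have h1 : X ^ (3 * s) = X ^ s * X ^ s * X ^ s := by
        rw [← Real.rpow_add hX0, ← Real.rpow_add hX0]
        congr 1
        ring
      have h2 : 0 ≤ X ^ s := by positivity
      push_cast
      calc ((PP D z).card : ℝ) * U.card * z ≤ (Cl * z) * X ^ s * z := by
            refine mul_le_mul_of_nonneg_right ?_ hz0.le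
            exact mul_le_mul hcP hU1 (Nat.cast_nonneg _) (by positivity)
        _ = Cl * (z * X ^ s * z) := by ring
        _ ≤ Cl * (X ^ s * X ^ s * X ^ s) := by
            refine mul_le_mul_of_nonneg_left ?_ (by linarith)
            exact mul_le_mul (mul_le_mul_of_nonneg_right hzX h2) hzX hz0.le (by positivity)
        _ = Cl * X ^ (3 * s) := by rw [h1]
    have p1 : X ^ (3 * s) ≤ Y ^ σ := BsA_pow hXa (by norm_num) hY (by positivity) (by rw [hs]; linarith)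
    have p2 : X ^ (3 * s) ≤ Y ^ (1 / 4 : ℝ) := BsA_pow hXa (by norm_num) hY (by positivity) (by rw [hs]; linarith)
    have q1 : X ^ (3 * s) * Y ^ (1 - σ) ≤ Y := by
      calc X ^ (3 * s) * Y ^ (1 - σ) ≤ Y ^ σ * Y ^ (1 - σ) := mul_le_mul_of_nonneg_right p1 (by positivity)
        _ = Y := by
            rw [← Real.rpow_add hY0]
            have : σ + (1 - σ) = 1 := by ring
            rw [this, Real.rpow_one]
    have q2 : X ^ (3 * s) * Y ^ (3 / 4 : ℝ) ≤ Y := by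
      calc X ^ (3 * s) * Y ^ (3 / 4 : ℝ) ≤ Y ^ (1 / 4 : ℝ) * Y ^ (3 / 4 : ℝ) :=
            mul_le_mul_of_nonneg_right p2 (by positivity)
        _ = Y := by
            rw [← Real.rpow_add hY0]
            norm_num
    calc 2 * (Cl * Y) + ((((PP D z).card * U.card : ℕ)) : ℝ) * (4 * z * (Cw * Y ^ (1 - σ) + Cv * Y ^ (3 / 4 : ℝ))) =
        2 * (Cl * Y) + 4 * (((((PP D z).card * U.card : ℕ)) : ℝ) * z) * (Cw * Y ^ (1 - σ) + Cv * Y ^ (3 / 4 : ℝ)) := by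
          ring
      _ ≤ 2 * (Cl * Y) + 4 * (Cl * X ^ (3 * s)) * (Cw * Y ^ (1 - σ) + Cv * Y ^ (3 / 4 : ℝ)) := by
          refine add_le_add le_rfl (mul_le_mul_of_nonneg_right ?_ (by linarith))
          linarith
      _ = 2 * Cl * Y + 4 * Cl * Cw * (X ^ (3 * s) * Y ^ (1 - σ)) + 4 * Cl * Cv * (X ^ (3 * s) * Y ^ (3 / 4 : ℝ)) := by
          ring
      _ ≤ 2 * Cl * Y + 4 * Cl * Cw * Y + 4 * Cl * Cv * Y := by
          have r1 : 4 * Cl * Cw * (X ^ (3 * s) * Y ^ (1 - σ)) ≤ 4 * Cl * Cw * Y :=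
            mul_le_mul_of_nonneg_left q1 (by positivity)
          have r2 : 4 * Cl * Cv * (X ^ (3 * s) * Y ^ (3 / 4 : ℝ)) ≤ 4 * Cl * Cv * Y :=
            mul_le_mul_of_nonneg_left q2 (by positivity)
          linarith
      _ = (2 * Cl + 4 * Cl * Cw + 4 * Cl * Cv) * Y := by ring
  have hfin := schur (PP D z ×ˢ U) (V Y) φ ((2 * Cl + 4 * Cl * Cw + 4 * Cl * Cv) * Y) (by positivity) key b
  refine le_trans (le_of_eq ?_) hfin
  rw [Finset.sum_product]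
  refine Finset.sum_congr rfl fun p hp => ?_
  have hpN := BsA_Npos (hPP p hp).1
  rw [Finset.mul_sum]
  refine Finset.sum_congr rfl fun j _ => ?_
  have h1 : ∑ v ∈ V Y, b v * φ (p, j) v = ((1 / √(N p : ℝ) : ℝ) : ℂ) *
      ∑ v ∈ V Y, b v * (((N p : ℝ) * (if p ∣ v then 1 else 0) - 1 : ℝ) : ℂ) * E t j v := by
    rw [Finset.mul_sum]
    refine Finset.sum_congr rfl fun v _ => ?_
    rw [hφ, hw]
    ring
  rw [h1, norm_mul, mul_pow, Complex.norm_real, Real.norm_of_nonneg (by positivity), div_pow, one_pow,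
    Real.sq_sqrt (by linarith)]

theorem bessel : ∃ s C X₀ : ℝ, 0 < s ∧ s ≤ 1 / 400 ∧ 1 ≤ C ∧ 1 ≤ X₀ ∧ Bes s C X₀ := by
  obtain ⟨σ, Cw, hσ, hσ1, hCw, H⟩ := weyl 3 (by norm_num)
  obtain ⟨Cv, hCv, H₂⟩ := card_V
  obtain ⟨Cl, hCl, H₁⟩ := card_V_le
  refine ⟨σ / 8, 2 * Cl + 4 * Cl * Cw + 4 * Cl * Cv, 2, by positivity, by linarith, ?_, by norm_num, ?_⟩
  · nlinarith [mul_nonneg (by linarith : (0 : ℝ) ≤ Cl) (by linarith : (0 : ℝ) ≤ Cw),
      mul_nonneg (by linarith : (0 : ℝ) ≤ Cl) hCv.le]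
  · intro X hX t U hU hU1
    refine ⟨fun Y hY _ b => ?_, fun D z Y hz hzX hY _ b => ?_⟩
    · have h1 := BsA_first hσ hσ1 rfl hCw H H₁ hX t U hU hU1 hY b
      refine h1.trans ?_
      have hX1 : (1 : ℝ) ≤ X ^ (4 / 5 : ℝ) := Real.one_le_rpow (by linarith) (by norm_num)
      have hY0 : 0 ≤ Y := by linarith
      refine mul_le_mul_of_nonneg_right (mul_le_mul_of_nonneg_right ?_ hY0) (by positivity)
      have h2 : 0 ≤ Cl * Cv := by positivity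
      have h3 : Cw ≤ Cl * Cw := le_mul_of_one_le_left (by linarith) hCl
      nlinarith
    · exact BsA_second hσ hσ1 rfl hCw hCl hCv H H₁ H₂ hX t U hU hU1 D hz hzX hY b

end Pool.Agent.Lib.MP_d57abb_nt.MR
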