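import Mathlib
import Pool.Agent.Lib.MP_d57abb_nt.MR.BsA

/-!
# JOB BsB: the total defect

All sums over `V' Y` are sums over `V Y` with `b v = if Pm v then a v else 0`.
* `c_bound`: `Bes` (first part): `∑_j ‖c j Y‖² = Y^(-2) ∑_j ‖∑ b v E j v‖² ≤ Y^(-2) C Y #V(Y) ≤ C'` (`card_V_le`).
* `c_shift` (`Y ≤ Y' ≤ (1 + δ) Y`, `0 ≤ δ ≤ 1`): `c j Y' - c j Y = (1/Y' - 1/Y) ∑_{V' Y} + (1/Y') ∑_{V' Y' \ V' Y}`; `‖x + y‖² ≤ 2‖x‖² + 2‖y‖²`; the first part: `|1/Y' - 1/Y| ≤ δ / Y`, so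
  `2 δ² C'`; the second part: `Bes` at `Y'` with `b` supported on the shell: `2 Y'^(-2) C Y' #(V Y' \ V Y) ≤ C'' (δ + Y^(-1/4))` (`card_shell` with `h = Y' - Y ≤ δ Y`).
* `defect` (`X^(9/10) ≤ Y ≤ X`, `z ≤ X^s`): for `p ∈ PP D z`:
  `∑_{v ∈ V Y} b v (N p [p ∣ v] - 1) E j v = N p ∑_{v ∈ V' Y, p ∣ v} a v E j v - Y c j Y`, and by `c_mult`
  `N p ∑_{v ∈ V' Y, p∣v} a E = N p F j p ∑_{u ∈ V' (Y/N p), star p ∤ u} a u E j u = Y F j p c j (Y / N p) - N p F j p R_j`, `R_j = ∑_{u ∈ V' (Y/N p), star p ∣ u} a u E j u`.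
  So `F j p c j (Y / N p) - c j Y = Y^(-1) (the Bessel sum) + Y^(-1) N p F j p R_j`, and
  `∑_j ‖..‖² ≤ 2 Y^(-2) ∑_j ‖Bessel sum‖² + 2 Y^(-2) N p² ∑_j ‖R_j‖²`.  By `Bes` (first part, at `Y / N p ≥ X^(9/10 - s) ≥ X^(4/5)`):
  `∑_j ‖R_j‖² ≤ C (Y / N p) #{u ∈ V (Y / N p) : star p ∣ u} = C (Y/N p) #V(Y/N p²) ≤ C' Y² / N p³` (`card_mult` with the totally positive `star p`, `N_star`).
  So the second part is `≤ 2 C' / N p`, and `∑_p (1/N p)(2 C' / N p) ≤ C''` (`sum_inv_sq`; `N p^(-2) ≤ N p^(-3/2)`).  The first part summed over `p` with weights `1/N p` is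
  `≤ 2 Y^(-2) C Y #V(Y) ≤ C''`.
-/

namespace Pool.Agent.Lib.MP_d57abb_nt.MR

open Finset

/-- the three estimates used below -/
structure Est (d : Dat) (s C X₀ : ℝ) : Prop where
  s0 : 0 < s
  s1 : s ≤ 1 / 400
  C1 : 1 ≤ C
  X1 : 1 ≤ X₀
  bound : ∀ X : ℝ, X₀ ≤ X → ∀ U : Finset ℤ, (∀ j ∈ U, |(j : ℝ)| ≤ X) → (U.card : ℝ) ≤ X ^ s →
    ∀ Y : ℝ, X ^ (4 / 5 : ℝ) ≤ Y → Y ≤ X → ∑ j ∈ U, ‖d.c j Y‖ ^ 2 ≤ C
  shift : ∀ X : ℝ, X₀ ≤ X → ∀ U : Finset ℤ, (∀ j ∈ U, |(j : ℝ)| ≤ X) → (U.card : ℝ) ≤ X ^ s →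
    ∀ Y Y' δ : ℝ, X ^ (4 / 5 : ℝ) ≤ Y → Y ≤ Y' → Y' ≤ X → Y' ≤ (1 + δ) * Y → δ ≤ 1 →
    ∑ j ∈ U, ‖d.c j Y' - d.c j Y‖ ^ 2 ≤ C * (δ + Y ^ (-(1 / 4) : ℝ))
  defect : ∀ X : ℝ, X₀ ≤ X → ∀ U : Finset ℤ, (∀ j ∈ U, |(j : ℝ)| ≤ X) → (U.card : ℝ) ≤ X ^ s →
    ∀ z Y : ℝ, 1 ≤ z → z ≤ X ^ s → X ^ (9 / 10 : ℝ) ≤ Y → Y ≤ X →
    ∑ p ∈ PP d.D z, 1 / (N p : ℝ) * ∑ j ∈ U, ‖d.F j p * d.c j (Y / N p) - d.c j Y‖ ^ 2 ≤ C

/-- the coefficients -/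
private noncomputable def BsB_b (d : Dat) (v : O) : ℂ := if Pm v then d.a v else 0

private theorem BsB_le (d : Dat) (v : O) : ‖BsB_b d v‖ ^ 2 ≤ 1 := by
  unfold BsB_b
  split_ifs
  · exact pow_le_one₀ (norm_nonneg _) (d.a_le v)
  · simp

private theorem BsB_sum (d : Dat) (j : ℤ) (Y : ℝ) :
    ∑ v ∈ V' Y, d.a v * E d.t j v = ∑ v ∈ V Y, BsB_b d v * E d.t j v := by
  unfold V' BsB_b
  rw [Finset.sum_filter]
  refine Finset.sum_congr rfl fun v _ => ?_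
  split_ifs
  · rfl
  · rw [zero_mul]

private theorem BsB_cY (d : Dat) (j : ℤ) {Y : ℝ} (hY : 0 < Y) :
    ∑ v ∈ V' Y, d.a v * E d.t j v = (Y : ℂ) * d.c j Y := by
  unfold Dat.c
  have hY' : (Y : ℂ) ≠ 0 := by exact_mod_cast hY.ne'
  push_cast
  field_simp

private theorem BsB_bound (d : Dat) {s C X₀ Cl : ℝ} (hC : 1 ≤ C) (hB : Bes s C X₀)
    (H₁ : ∀ Y : ℝ, 0 ≤ Y → ((V Y).card : ℝ) ≤ Cl * Y) {X : ℝ} (hX0 : 1 ≤ X) (hX : X₀ ≤ X) (U : Finset ℤ)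
    (hU : ∀ j ∈ U, |(j : ℝ)| ≤ X) (hU1 : (U.card : ℝ) ≤ X ^ s) {Y : ℝ} (hY : X ^ (4 / 5 : ℝ) ≤ Y) (hYX : Y ≤ X) :
    ∑ j ∈ U, ‖d.c j Y‖ ^ 2 ≤ C * Cl := by
  have hX1 : (1 : ℝ) ≤ X ^ (4 / 5 : ℝ) := Real.one_le_rpow hX0 (by norm_num)
  have hY0 : 0 < Y := by linarith
  have h1 := (hB X hX d.t U hU hU1).1 Y hY hYX (BsB_b d)
  have h2 : ∑ v ∈ V Y, ‖BsB_b d v‖ ^ 2 ≤ Cl * Y := by
    refine le_trans ?_ (H₁ Y hY0.le)
    calc ∑ v ∈ V Y, ‖BsB_b d v‖ ^ 2 ≤ ∑ _v ∈ V Y, (1 : ℝ) := Finset.sum_le_sum fun v _ => BsB_le d v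
      _ = (V Y).card := by rw [Finset.sum_const, nsmul_eq_mul, mul_one]
  have h3 : ∀ j ∈ U, ‖∑ v ∈ V Y, BsB_b d v * E d.t j v‖ ^ 2 = Y ^ 2 * ‖d.c j Y‖ ^ 2 := by
    intro j _
    rw [← BsB_sum, BsB_cY d j hY0, norm_mul, mul_pow, Complex.norm_real, Real.norm_of_nonneg hY0.le]
  rw [Finset.sum_congr rfl h3, ← Finset.mul_sum] at h1
  have h4 : Y ^ 2 * ∑ j ∈ U, ‖d.c j Y‖ ^ 2 ≤ Y ^ 2 * (C * Cl) := by
    refine h1.trans ?_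
    calc C * Y * ∑ v ∈ V Y, ‖BsB_b d v‖ ^ 2 ≤ C * Y * (Cl * Y) := mul_le_mul_of_nonneg_left h2 (by positivity)
      _ = Y ^ 2 * (C * Cl) := by ring
  exact le_of_mul_le_mul_left h4 (by positivity)

private theorem BsB_two (x y : ℂ) : ‖x + y‖ ^ 2 ≤ 2 * ‖x‖ ^ 2 + 2 * ‖y‖ ^ 2 := by
  have h1 := norm_add_le x y
  have h2 : ‖x + y‖ ^ 2 ≤ (‖x‖ + ‖y‖) ^ 2 := pow_le_pow_left₀ (norm_nonneg _) h1 2
  nlinarith [sq_nonneg (‖x‖ - ‖y‖)]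

open Classical in
private theorem BsB_shift (d : Dat) {s C X₀ Cl Cs : ℝ} (hC : 1 ≤ C) (hCl : 1 ≤ Cl) (hCs : 1 ≤ Cs) (hB : Bes s C X₀)
    (H₁ : ∀ Y : ℝ, 0 ≤ Y → ((V Y).card : ℝ) ≤ Cl * Y)
    (H₃ : ∀ Y h : ℝ, 1 ≤ Y → 0 ≤ h → ((V (Y + h) \ V Y).card : ℝ) ≤ Cs * (h + (Y + h) ^ (3 / 4 : ℝ)))
    {X : ℝ} (hX0 : 1 ≤ X) (hX : X₀ ≤ X) (U : Finset ℤ)
    (hU : ∀ j ∈ U, |(j : ℝ)| ≤ X) (hU1 : (U.card : ℝ) ≤ X ^ s) {Y Y' δ : ℝ} (hY : X ^ (4 / 5 : ℝ) ≤ Y)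
    (hYY : Y ≤ Y') (hYX : Y' ≤ X) (hδ : Y' ≤ (1 + δ) * Y) (hδ1 : δ ≤ 1) :
    ∑ j ∈ U, ‖d.c j Y' - d.c j Y‖ ^ 2 ≤ (2 * C * Cs + 2 * C * Cl) * (δ + Y ^ (-(1 / 4) : ℝ)) := by
  have hX1 : (1 : ℝ) ≤ X ^ (4 / 5 : ℝ) := Real.one_le_rpow hX0 (by norm_num)
  have hY1 : 1 ≤ Y := by linarith
  have hY0 : 0 < Y := by linarith
  have hY'0 : 0 < Y' := by linarith
  have hδ0 : 0 ≤ δ := by
    by_contra hcon
    nlinarith
  have hsub : V Y ⊆ V Y' := V_mono hYY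
  obtain ⟨g, hg⟩ : ∃ g : O → ℂ, ∀ v, g v = if v ∈ V Y then 0 else BsB_b d v := ⟨_, fun _ => rfl⟩
  have hsum : ∀ j, ∑ v ∈ V Y', g v * E d.t j v =
      ∑ v ∈ V' Y', d.a v * E d.t j v - ∑ v ∈ V' Y, d.a v * E d.t j v := by
    intro j
    rw [BsB_sum, BsB_sum, eq_sub_iff_add_eq]
    have h1 : ∑ v ∈ V Y, BsB_b d v * E d.t j v = ∑ v ∈ V Y', (if v ∈ V Y then BsB_b d v * E d.t j v else 0) := by
      rw [Finset.sum_ite_mem, Finset.inter_eq_right.2 hsub]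
    rw [h1, ← Finset.sum_add_distrib]
    refine Finset.sum_congr rfl fun v _ => ?_
    rw [hg]
    by_cases h : v ∈ V Y
    · rw [if_pos h, if_pos h, zero_mul, zero_add]
    · rw [if_neg h, if_neg h, add_zero]
  have hnum : ∑ v ∈ V Y', ‖g v‖ ^ 2 ≤ Cs * (δ * Y' + Y' ^ (3 / 4 : ℝ)) := by
    have h1 : ∑ v ∈ V Y', ‖g v‖ ^ 2 ≤ ((V Y' \ V Y).card : ℝ) := by
      have h2 : ∀ v ∈ V Y', ‖g v‖ ^ 2 ≤ if v ∈ V Y' \ V Y then (1 : ℝ) else 0 := by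
        intro v hv
        rw [hg]
        by_cases h : v ∈ V Y
        · rw [if_pos h, if_neg (fun h3 => (Finset.mem_sdiff.1 h3).2 h)]
          simp
        · rw [if_neg h, if_pos (Finset.mem_sdiff.2 ⟨hv, h⟩)]
          exact BsB_le d v
      refine (Finset.sum_le_sum h2).trans ?_
      rw [Finset.sum_ite_mem, Finset.sum_const, nsmul_eq_mul, mul_one]
      exact_mod_cast Finset.card_le_card Finset.inter_subset_right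
    have h2 := H₃ Y (Y' - Y) hY1 (by linarith)
    have h3 : Y + (Y' - Y) = Y' := by ring
    rw [h3] at h2
    refine h1.trans (h2.trans ?_)
    refine mul_le_mul_of_nonneg_left ?_ (by linarith)
    have h4 : Y' - Y ≤ δ * Y := by linarith
    have h5 : δ * Y ≤ δ * Y' := mul_le_mul_of_nonneg_left hYY hδ0
    linarith
  have hBes := (hB X hX d.t U hU hU1).1 Y' (hY.trans hYY) hYX g
  have hx : ∑ j ∈ U, ‖((1 / Y' : ℝ) : ℂ) * ∑ v ∈ V Y', g v * E d.t j v‖ ^ 2 ≤ C * Cs * (δ + Y ^ (-(1 / 4) : ℝ)) := by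
    have h1 : ∀ j ∈ U, ‖((1 / Y' : ℝ) : ℂ) * ∑ v ∈ V Y', g v * E d.t j v‖ ^ 2 =
        (1 / Y') ^ 2 * ‖∑ v ∈ V Y', g v * E d.t j v‖ ^ 2 := by
      intro j _
      rw [norm_mul, mul_pow, Complex.norm_real, Real.norm_of_nonneg (by positivity)]
    rw [Finset.sum_congr rfl h1, ← Finset.mul_sum]
    have h2 : (1 / Y') ^ 2 * ∑ j ∈ U, ‖∑ v ∈ V Y', g v * E d.t j v‖ ^ 2 ≤
        (1 / Y') ^ 2 * (C * Y' * (Cs * (δ * Y' + Y' ^ (3 / 4 : ℝ)))) := by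
      refine mul_le_mul_of_nonneg_left (hBes.trans ?_) (by positivity)
      exact mul_le_mul_of_nonneg_left hnum (by positivity)
    refine h2.trans ?_
    have h3 : Y' ^ (3 / 4 : ℝ) = Y' * Y' ^ (-(1 / 4) : ℝ) := by
      rw [← Real.rpow_one_add' hY'0.le (by norm_num)]
      norm_num
    have h4 : (1 / Y') ^ 2 * (C * Y' * (Cs * (δ * Y' + Y' ^ (3 / 4 : ℝ)))) = C * Cs * (δ + Y' ^ (-(1 / 4) : ℝ)) := by
      rw [h3]
      field_simp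
    rw [h4]
    refine mul_le_mul_of_nonneg_left ?_ (by positivity)
    have h5 : Y' ^ (-(1 / 4) : ℝ) ≤ Y ^ (-(1 / 4) : ℝ) := Real.rpow_le_rpow_of_nonpos hY0 hYY (by norm_num)
    linarith
  have hy : ∑ j ∈ U, ‖((Y / Y' - 1 : ℝ) : ℂ) * d.c j Y‖ ^ 2 ≤ C * Cl * δ := by
    have h1 : ∀ j ∈ U, ‖((Y / Y' - 1 : ℝ) : ℂ) * d.c j Y‖ ^ 2 = (Y / Y' - 1) ^ 2 * ‖d.c j Y‖ ^ 2 := by
      intro j _
      rw [norm_mul, mul_pow, Complex.norm_real, Real.norm_eq_abs, sq_abs]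
    rw [Finset.sum_congr rfl h1, ← Finset.mul_sum]
    have h2 := BsB_bound d hC hB H₁ hX0 hX U hU hU1 hY (hYY.trans hYX)
    have h3 : (Y / Y' - 1) ^ 2 ≤ δ := by
      have h4 : 1 - Y / Y' ≤ δ := by
        have h5 : (1 - δ) * Y' ≤ Y := by
          have h6 : (1 - δ) * Y' ≤ (1 - δ) * ((1 + δ) * Y) := mul_le_mul_of_nonneg_left hδ (by linarith)
          nlinarith [mul_nonneg (mul_nonneg hδ0 hδ0) hY0.le]
        have h7 : 1 - δ ≤ Y / Y' := by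
          rw [le_div_iff₀ hY'0]
          exact h5
        linarith
      have h8 : Y / Y' ≤ 1 := by
        rw [div_le_one hY'0]
        exact hYY
      have h9 : 0 ≤ 1 - Y / Y' := by linarith
      calc (Y / Y' - 1) ^ 2 = (1 - Y / Y') * (1 - Y / Y') := by ring
        _ ≤ δ * 1 := mul_le_mul h4 (by linarith [div_nonneg hY0.le hY'0.le]) h9 hδ0
        _ = δ := mul_one δ
    have h10 : 0 ≤ ∑ j ∈ U, ‖d.c j Y‖ ^ 2 := Finset.sum_nonneg fun _ _ => by positivity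
    calc (Y / Y' - 1) ^ 2 * ∑ j ∈ U, ‖d.c j Y‖ ^ 2 ≤ δ * (C * Cl) := mul_le_mul h3 h2 h10 hδ0
      _ = C * Cl * δ := by ring
  have hdec : ∀ j ∈ U, ‖d.c j Y' - d.c j Y‖ ^ 2 ≤
      2 * ‖((1 / Y' : ℝ) : ℂ) * ∑ v ∈ V Y', g v * E d.t j v‖ ^ 2 + 2 * ‖((Y / Y' - 1 : ℝ) : ℂ) * d.c j Y‖ ^ 2 := by
    intro j _
    have h1 : d.c j Y' - d.c j Y = ((1 / Y' : ℝ) : ℂ) * ∑ v ∈ V Y', g v * E d.t j v +
        ((Y / Y' - 1 : ℝ) : ℂ) * d.c j Y := by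
      rw [hsum, BsB_cY d j hY0, BsB_cY d j hY'0]
      have h2 : (Y' : ℂ) ≠ 0 := by exact_mod_cast hY'0.ne'
      push_cast
      field_simp
      ring
    rw [h1]
    exact BsB_two _ _
  refine (Finset.sum_le_sum hdec).trans ?_
  rw [Finset.sum_add_distrib, ← Finset.mul_sum, ← Finset.mul_sum]
  have hpos : 0 ≤ Y ^ (-(1 / 4) : ℝ) := by positivity
  have h1 : 0 ≤ 2 * C * Cl * Y ^ (-(1 / 4) : ℝ) := by positivity
  nlinarith [hx, hy]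

open Classical in
private theorem BsB_defect (d : Dat) {s C X₀ Cl C3 : ℝ} (hs1 : s ≤ 1 / 400) (hC : 1 ≤ C) (hCl : 1 ≤ Cl)
    (hB : Bes s C X₀)
    (H₁ : ∀ Y : ℝ, 0 ≤ Y → ((V Y).card : ℝ) ≤ Cl * Y)
    (H₄ : ∀ Y : ℝ, ∑ v ∈ V Y, (N v : ℝ) ^ (-(3 / 2) : ℝ) ≤ C3)
    {X : ℝ} (hX0 : 1 ≤ X) (hX : X₀ ≤ X) (U : Finset ℤ)
    (hU : ∀ j ∈ U, |(j : ℝ)| ≤ X) (hU1 : (U.card : ℝ) ≤ X ^ s) {z Y : ℝ} (hz : 1 ≤ z) (hzX : z ≤ X ^ s)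
    (hY : X ^ (9 / 10 : ℝ) ≤ Y) (hYX : Y ≤ X) :
    ∑ p ∈ PP d.D z, 1 / (N p : ℝ) * ∑ j ∈ U, ‖d.F j p * d.c j (Y / N p) - d.c j Y‖ ^ 2 ≤
      2 * C * Cl + 2 * C * Cl * C3 := by
  have hXp : 0 < X := by linarith
  have hX1 : (1 : ℝ) ≤ X ^ (9 / 10 : ℝ) := Real.one_le_rpow hX0 (by norm_num)
  have hY1 : 1 ≤ Y := by linarith
  have hY0 : 0 < Y := by linarith
  have hPP : ∀ p ∈ PP d.D z, Dg d.D p ∧ (N p : ℝ) ≤ z := fun p hp => mem_PP.1 hp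
  have hN2 : ∀ p ∈ PP d.D z, (2 : ℝ) ≤ N p := by
    intro p hp
    exact_mod_cast (hPP p hp).1.two_le
  -- the Bessel sums
  obtain ⟨Bs, hBs⟩ : ∃ Bs : ℤ → O → ℂ, ∀ j p, Bs j p = ∑ v ∈ V Y, BsB_b d v *
      (((N p : ℝ) * (if p ∣ v then 1 else 0) - 1 : ℝ) : ℂ) * E d.t j v := ⟨_, fun _ _ => rfl⟩
  obtain ⟨R, hR⟩ : ∃ R : ℤ → O → ℂ, ∀ j p, R j p = ∑ u ∈ (V' (Y / N p)).filter (fun u => star p ∣ u),
      d.a u * E d.t j u := ⟨_, fun _ _ => rfl⟩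
  have hkey : ∀ p ∈ PP d.D z, ∀ j, d.F j p * d.c j (Y / N p) - d.c j Y =
      ((1 / Y : ℝ) : ℂ) * Bs j p + (((N p : ℝ) / Y : ℝ) : ℂ) * (d.F j p * R j p) := by
    intro p hp j
    have hp0 : (0 : ℝ) < N p := by linarith [hN2 p hp]
    have hYp : 0 < Y / N p := by positivity
    have h1 : Bs j p = (N p : ℂ) * ∑ v ∈ (V' Y).filter (fun v => p ∣ v), d.a v * E d.t j v -
        (Y : ℂ) * d.c j Y := by
      rw [hBs, ← BsB_cY d j hY0, BsB_sum]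
      have h2 : ∑ v ∈ (V' Y).filter (fun v => p ∣ v), d.a v * E d.t j v =
          ∑ v ∈ V Y, (if p ∣ v then BsB_b d v * E d.t j v else 0) := by
        rw [← Finset.sum_filter]
        unfold V' BsB_b
        rw [Finset.filter_filter, Finset.sum_filter, Finset.sum_filter]
        refine Finset.sum_congr rfl fun v _ => ?_
        by_cases h3 : Pm v <;> by_cases h4 : p ∣ v <;> simp [h3, h4]
      rw [h2, Finset.mul_sum, ← Finset.sum_sub_distrib]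
      refine Finset.sum_congr rfl fun v _ => ?_
      by_cases h4 : p ∣ v
      · rw [if_pos h4, if_pos h4]
        push_cast
        ring
      · rw [if_neg h4, if_neg h4]
        push_cast
        ring
    have h2 : ∑ u ∈ (V' (Y / N p)).filter (fun u => ¬ star p ∣ u), d.a u * E d.t j u =
        ((Y / N p : ℝ) : ℂ) * d.c j (Y / N p) - R j p := by
      rw [hR, ← BsB_cY d j hYp, eq_sub_iff_add_eq, add_comm]
      exact Finset.sum_filter_add_sum_filter_not _ _ _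
    rw [h1, c_mult d j (hPP p hp).1 Y, h2]
    have h3 : (Y : ℂ) ≠ 0 := by exact_mod_cast hY0.ne'
    have h4 : ((N p : ℤ) : ℂ) ≠ 0 := by
      have : ((N p : ℝ) : ℂ) ≠ 0 := by exact_mod_cast hp0.ne'
      simpa using this
    push_cast
    field_simp
    ring
  -- the first part
  have hfirst : ∑ p ∈ PP d.D z, 1 / (N p : ℝ) * ∑ j ∈ U, ‖Bs j p‖ ^ 2 ≤ C * Y * (Cl * Y) := by
    have h1 := (hB X hX d.t U hU hU1).2 d.D z Y hz hzX hY hYX (BsB_b d)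
    have h2 : ∑ v ∈ V Y, ‖BsB_b d v‖ ^ 2 ≤ Cl * Y := by
      refine le_trans ?_ (H₁ Y hY0.le)
      calc ∑ v ∈ V Y, ‖BsB_b d v‖ ^ 2 ≤ ∑ _v ∈ V Y, (1 : ℝ) := Finset.sum_le_sum fun v _ => BsB_le d v
        _ = (V Y).card := by rw [Finset.sum_const, nsmul_eq_mul, mul_one]
    have h3 : ∑ p ∈ PP d.D z, 1 / (N p : ℝ) * ∑ j ∈ U, ‖Bs j p‖ ^ 2 ≤ C * Y * ∑ v ∈ V Y, ‖BsB_b d v‖ ^ 2 := by
      refine le_trans (le_of_eq ?_) h1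
      refine Finset.sum_congr rfl fun p _ => ?_
      refine congrArg (fun x : ℝ => 1 / (N p : ℝ) * x) (Finset.sum_congr rfl fun j _ => ?_)
      rw [hBs]
    exact h3.trans (mul_le_mul_of_nonneg_left h2 (by positivity))
  -- the second part
  have hsecond : ∀ p ∈ PP d.D z, ∑ j ∈ U, ‖R j p‖ ^ 2 ≤ C * Cl * (Y ^ 2 / (N p : ℝ) ^ 3) := by
    intro p hp
    have hp2 := hN2 p hp
    have hp0 : (0 : ℝ) < N p := by linarith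
    have hYp : 0 < Y / N p := by positivity
    have hge : X ^ (4 / 5 : ℝ) ≤ Y / N p := by
      rw [le_div_iff₀ hp0]
      calc X ^ (4 / 5 : ℝ) * N p ≤ X ^ (4 / 5 : ℝ) * X ^ (1 / 10 : ℝ) := by
            refine mul_le_mul_of_nonneg_left ?_ (by positivity)
            refine ((hPP p hp).2.trans hzX).trans ?_
            exact Real.rpow_le_rpow_of_exponent_le hX0 (by linarith)
        _ = X ^ (9 / 10 : ℝ) := by
            rw [← Real.rpow_add hXp]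
            norm_num
        _ ≤ Y := hY
    have hle : Y / N p ≤ X := (div_le_self hY0.le (by linarith)).trans hYX
    obtain ⟨g, hg⟩ : ∃ g : O → ℂ, ∀ v, g v = if star p ∣ v then BsB_b d v else 0 := ⟨_, fun _ => rfl⟩
    have h1 := (hB X hX d.t U hU hU1).1 (Y / N p) hge hle g
    have h2 : ∀ j ∈ U, ‖∑ v ∈ V (Y / N p), g v * E d.t j v‖ ^ 2 = ‖R j p‖ ^ 2 := by
      intro j _
      have h3 : ∑ v ∈ V (Y / N p), g v * E d.t j v = R j p := by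
        rw [hR]
        unfold V'
        rw [Finset.filter_filter, Finset.sum_filter]
        refine Finset.sum_congr rfl fun v _ => ?_
        rw [hg]
        unfold BsB_b
        by_cases h3 : Pm v <;> by_cases h4 : star p ∣ v <;> simp [h3, h4]
      rw [h3]
    rw [Finset.sum_congr rfl h2] at h1
    refine h1.trans ?_
    have h5 : ∑ v ∈ V (Y / N p), ‖g v‖ ^ 2 ≤ Cl * (Y / (N p : ℝ) ^ 2) := by
      have h6 : ∑ v ∈ V (Y / N p), ‖g v‖ ^ 2 ≤ (((V (Y / N p)).filter (fun v => star p ∣ v)).card : ℝ) := by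
        rw [← Finset.sum_boole]
        refine Finset.sum_le_sum fun v _ => ?_
        rw [hg]
        by_cases h7 : star p ∣ v
        · rw [if_pos h7, if_pos h7]
          exact BsB_le d v
        · rw [if_neg h7, if_neg h7]
          simp
      rw [card_mult (hPP p hp).1.tp.star, N_star] at h6
      refine h6.trans ((H₁ _ (by positivity)).trans (le_of_eq ?_))
      rw [div_div, sq]
    calc C * (Y / N p) * ∑ v ∈ V (Y / N p), ‖g v‖ ^ 2 ≤ C * (Y / N p) * (Cl * (Y / (N p : ℝ) ^ 2)) :=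
          mul_le_mul_of_nonneg_left h5 (by positivity)
      _ = C * Cl * (Y ^ 2 / (N p : ℝ) ^ 3) := by
          field_simp
  have hsq : ∑ p ∈ PP d.D z, 1 / (N p : ℝ) ^ 2 ≤ C3 := by
    refine le_trans ?_ (H₄ z)
    have h1 : ∑ p ∈ PP d.D z, 1 / (N p : ℝ) ^ 2 ≤ ∑ p ∈ PP d.D z, (N p : ℝ) ^ (-(3 / 2) : ℝ) := by
      refine Finset.sum_le_sum fun p hp => ?_
      have hp2 := hN2 p hp
      have h2 : 1 / (N p : ℝ) ^ 2 = (N p : ℝ) ^ (-2 : ℝ) := by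
        rw [Real.rpow_neg (by linarith), one_div]
        norm_num
      rw [h2]
      exact Real.rpow_le_rpow_of_exponent_le (by linarith) (by norm_num)
    refine h1.trans ?_
    refine Finset.sum_le_sum_of_subset_of_nonneg (Finset.filter_subset _ _) fun v hv _ => ?_
    have h3 : (0 : ℝ) < N v := by exact_mod_cast (mem_V.1 hv).1.tp.N_pos
    positivity
  -- assembly
  have hterm : ∀ p ∈ PP d.D z, 1 / (N p : ℝ) * ∑ j ∈ U, ‖d.F j p * d.c j (Y / N p) - d.c j Y‖ ^ 2 ≤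
      2 / Y ^ 2 * (1 / (N p : ℝ) * ∑ j ∈ U, ‖Bs j p‖ ^ 2) + 2 * C * Cl * (1 / (N p : ℝ) ^ 2) := by
    intro p hp
    have hp2 := hN2 p hp
    have hp0 : (0 : ℝ) < N p := by linarith
    have h1 : ∀ j ∈ U, ‖d.F j p * d.c j (Y / N p) - d.c j Y‖ ^ 2 ≤
        2 / Y ^ 2 * ‖Bs j p‖ ^ 2 + 2 * (N p : ℝ) ^ 2 / Y ^ 2 * ‖R j p‖ ^ 2 := by
      intro j _
      rw [hkey p hp j]
      refine (BsB_two _ _).trans (le_of_eq ?_)
      rw [norm_mul, norm_mul, norm_mul, norm_F d j (hPP p hp).1, one_mul, Complex.norm_real, Complex.norm_real,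
        Real.norm_of_nonneg (by positivity), Real.norm_of_nonneg (by positivity)]
      field_simp
    have h2 : ∑ j ∈ U, ‖d.F j p * d.c j (Y / N p) - d.c j Y‖ ^ 2 ≤
        2 / Y ^ 2 * ∑ j ∈ U, ‖Bs j p‖ ^ 2 + 2 * (N p : ℝ) ^ 2 / Y ^ 2 * (C * Cl * (Y ^ 2 / (N p : ℝ) ^ 3)) := by
      refine (Finset.sum_le_sum h1).trans ?_
      rw [Finset.sum_add_distrib, ← Finset.mul_sum, ← Finset.mul_sum]
      exact add_le_add le_rfl (mul_le_mul_of_nonneg_left (hsecond p hp) (by positivity))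
    calc 1 / (N p : ℝ) * ∑ j ∈ U, ‖d.F j p * d.c j (Y / N p) - d.c j Y‖ ^ 2 ≤
        1 / (N p : ℝ) * (2 / Y ^ 2 * ∑ j ∈ U, ‖Bs j p‖ ^ 2 +
          2 * (N p : ℝ) ^ 2 / Y ^ 2 * (C * Cl * (Y ^ 2 / (N p : ℝ) ^ 3))) :=
          mul_le_mul_of_nonneg_left h2 (by positivity)
      _ = 2 / Y ^ 2 * (1 / (N p : ℝ) * ∑ j ∈ U, ‖Bs j p‖ ^ 2) + 2 * C * Cl * (1 / (N p : ℝ) ^ 2) := by
          field_simp
  refine (Finset.sum_le_sum hterm).trans ?_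
  rw [Finset.sum_add_distrib, ← Finset.mul_sum, ← Finset.mul_sum]
  have h1 : 2 / Y ^ 2 * ∑ p ∈ PP d.D z, 1 / (N p : ℝ) * ∑ j ∈ U, ‖Bs j p‖ ^ 2 ≤ 2 * C * Cl := by
    calc 2 / Y ^ 2 * ∑ p ∈ PP d.D z, 1 / (N p : ℝ) * ∑ j ∈ U, ‖Bs j p‖ ^ 2 ≤ 2 / Y ^ 2 * (C * Y * (Cl * Y)) :=
          mul_le_mul_of_nonneg_left hfirst (by positivity)
      _ = 2 * C * Cl := by field_simp
  have h2 : 2 * C * Cl * ∑ p ∈ PP d.D z, 1 / (N p : ℝ) ^ 2 ≤ 2 * C * Cl * C3 :=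
    mul_le_mul_of_nonneg_left hsq (by positivity)
  linarith

theorem est (d : Dat) : ∃ s C X₀ : ℝ, Est d s C X₀ := by
  obtain ⟨s, C, X₀, hs, hs1, hC, hX₀, hB⟩ := bessel
  obtain ⟨Cl, hCl, H₁⟩ := card_V_le
  obtain ⟨Cs, hCs, H₃⟩ := card_shell
  obtain ⟨C3, hC3, H₄⟩ := sum_inv_sq
  have p1 : 1 ≤ C * Cl := one_le_mul_of_one_le_of_one_le hC hCl
  have p2 : 1 ≤ C * Cs := one_le_mul_of_one_le_of_one_le hC hCs
  have p3 : 1 ≤ C * Cl * C3 := one_le_mul_of_one_le_of_one_le p1 hC3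
  refine ⟨s, 2 * C * Cl + 2 * C * Cl * C3 + 2 * C * Cs, X₀, hs, hs1, by linarith, hX₀, ?_, ?_, ?_⟩
  · intro X hX U hU hU1 Y hY hYX
    have h1 := BsB_bound d hC hB H₁ (hX₀.trans hX) hX U hU hU1 hY hYX
    linarith
  · intro X hX U hU hU1 Y Y' δ hY hYY hYX hδ hδ1
    have h1 := BsB_shift d hC hCl hCs hB H₁ H₃ (hX₀.trans hX) hX U hU hU1 hY hYY hYX hδ hδ1
    refine h1.trans ?_
    have hX1 : (1 : ℝ) ≤ X ^ (4 / 5 : ℝ) := Real.one_le_rpow (hX₀.trans hX) (by norm_num)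
    have hY0 : 0 < Y := by linarith
    have hδ0 : 0 ≤ δ := by
      by_contra hcon
      nlinarith
    have hpos : 0 ≤ Y ^ (-(1 / 4) : ℝ) := by positivity
    refine mul_le_mul_of_nonneg_right ?_ (by linarith)
    linarith
  · intro X hX U hU hU1 z Y hz hzX hY hYX
    have h1 := BsB_defect d hs1 hC hCl hB H₁ H₄ (hX₀.trans hX) hX U hU hU1 hz hzX hY hYX
    linarith

end Pool.Agent.Lib.MP_d57abb_nt.MR
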