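import Mathlib
import Pool.Agent.Lib.MP_d57abb_nt.MR.EuB
import Pool.Agent.Lib.MP_d57abb_nt.MR.EuC
import Pool.Agent.Lib.MP_d57abb_nt.MR.PrA
import Pool.Agent.Lib.MP_d57abb_nt.MR.WyE

/-!
# JOB DlA: distance of the harmonics from the norm characters

* `nit_eq`: for `n > 0`: `(n : ℂ)^(-(τ I)) = exp (-(τ I) log n)` (`Complex.cpow_def_of_ne_zero`, `Complex.ofReal_log` / `natCast_log`) `= e (-(τ log n / (2 π)))`.
* `comp_h`: `An`, `log N` are additive on totally positive elements (`An_mul`, `N_mul`, `TP.N_pos`), `An (om x) = per + An x` and `e κ = 1`, `N (om x) = N x`; `‖e x‖ = 1`.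
* `dl_hecke`.  Let `C₀` be from `euler`, `C₁ ≥ 1` from `card_V_le`, `C₃` from `mass_PP_lower`.  We may take `T ≥ 0`, `K ≥ 1`.  Choose `b ≥ 1` with `2 C₀ (2 + T) C₁ / b ≤ ρ exp (-(B + C₃ + 1))` and take
  `σ, C₂` from `weyl b`.  Let `X` be large, `L = ρ log X ≥ 1` (`exp L = X^ρ`), `g v = e (κ An v / per) nit τ v` (`comp_h`), `y₁ = (K X)^(1/b) ≥ 1`.  For `t ≥ y₁`, `|κ| ≤ K X ≤ t^b`, so
  `‖∑_{V t} e (κ An v / per)‖ ≤ C₂ t^(1 - σ)`, and always `≤ #V t ≤ C₁ t`.  `L_bound` (with `σ := 1 + 1/L`, `η := σ`; the summand of `euler` is the one of `L_bound` by `nit_eq`) gives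
  `‖∑' g v N^(-(1 + 1/L))‖ ≤ (2 + T)(C₁ log y₁ + C₂ / σ) = (2 + T)(C₁ (log X + log K) / b + C₂ / σ) ≤ (2 + T) 2 C₁ log X / b` for `X` large.  By `euler`
  `∑_{PP D (X^ρ)} Re g / N p ≤ log (C₀ (2 + T) 2 C₁ log X / b) ≤ log (ρ log X) - (B + C₃ + 1)`, and by `mass_PP_lower` (`P = 3`)
  `∑_{PP D (X^ρ)} 1 / N p ≥ log (ρ log X) - log log 3 - C₃`, `log log 3 ≤ 1`.  Subtract.
-/

namespace Pool.Agent.Lib.MP_d57abb_nt.MR

open Finset
open Pool.Agent.Lib.MP_2a816b_nt (e)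

/-- the norm character `v ↦ (N v)^(-iτ)` -/
noncomputable def nit (τ : ℝ) (v : O) : ℂ := e (-(τ * Real.log (N v) / (2 * Real.pi)))

theorem nit_eq (τ : ℝ) {v : O} (hv : 0 < N v) : nit τ v = (N v : ℂ) ^ (-(τ * Complex.I)) := by
  have hN : (0 : ℝ) < (N v : ℝ) := by exact_mod_cast hv
  have hN' : ((N v : ℂ)) ≠ 0 := by exact_mod_cast hv.ne'
  have hlog : Complex.log (N v : ℂ) = ((Real.log (N v) : ℝ) : ℂ) := by
    rw [Complex.ofReal_log hN.le]
    norm_cast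
  unfold nit e
  rw [Complex.cpow_def_of_ne_zero hN', hlog]
  congr 1
  have hpi : (Real.pi : ℂ) ≠ 0 := by exact_mod_cast Real.pi_ne_zero
  push_cast
  field_simp

theorem norm_nit (τ : ℝ) (v : O) : ‖nit τ v‖ = 1 := by
  unfold nit
  exact Pool.Agent.Lib.MP_2a816b_nt.norm_e _

theorem comp_h (κ : ℤ) (τ : ℝ) : Comp (fun v => e (κ * An v / per) * nit τ v) := by
  have hper : per ≠ 0 := per_pos.ne'
  refine ⟨?_, ?_, ?_, ?_⟩
  · unfold nit
    rw [← Pool.Agent.Lib.MP_2a816b_nt.e_add, An_one, N_one]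
    simp
  · intro x y hx hy
    have h1 : (N x : ℝ) ≠ 0 := by exact_mod_cast hx.N_pos.ne'
    have h2 : (N y : ℝ) ≠ 0 := by exact_mod_cast hy.N_pos.ne'
    show e (κ * An (x * y) / per) * nit τ (x * y) =
      e (κ * An x / per) * nit τ x * (e (κ * An y / per) * nit τ y)
    unfold nit
    rw [← Pool.Agent.Lib.MP_2a816b_nt.e_add, ← Pool.Agent.Lib.MP_2a816b_nt.e_add,
      ← Pool.Agent.Lib.MP_2a816b_nt.e_add, ← Pool.Agent.Lib.MP_2a816b_nt.e_add, An_mul hx hy, N_mul]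
    congr 1
    push_cast
    rw [Real.log_mul h1 h2]
    ring
  · intro x hx
    show e (κ * An (om * x) / per) * nit τ (om * x) = e (κ * An x / per) * nit τ x
    have h1 : e (κ * An (om * x) / per) = e (κ * An x / per) := by
      rw [An_mul TP_om hx, An_om]
      have h2 : (κ : ℝ) * (per + An x) / per = κ * An x / per + (κ : ℤ) := by
        field_simp
        ring
      rw [h2, Pool.Agent.Lib.MP_2a816b_nt.e_add_int]
    have h3 : nit τ (om * x) = nit τ x := by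
      unfold nit
      rw [N_mul, N_om, one_mul]
    rw [h1, h3]
  · intro x
    rw [norm_mul, norm_nit, Pool.Agent.Lib.MP_2a816b_nt.norm_e, mul_one]

theorem dl_hecke {D : ℕ} (h5 : 5 ∣ D) (hD : 0 < D) (ρ T K B : ℝ) (hρ : 0 < ρ) : ∃ X₀ : ℝ, 1 ≤ X₀ ∧ ∀ X : ℝ, X₀ ≤ X →
    ∀ κ : ℤ, κ ≠ 0 → |(κ : ℝ)| ≤ K * X → ∀ τ : ℝ, |τ| ≤ T →
    B ≤ ∑ p ∈ PP D (X ^ ρ), (1 - (e (κ * An p / per) * nit τ p).re) / (N p : ℝ) := by
  obtain ⟨C₀, hC₀, hE⟩ := euler h5 hD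
  obtain ⟨C₁, hC₁, hV⟩ := card_V_le
  obtain ⟨C₃, hP⟩ := mass_PP_lower h5 hD
  obtain ⟨T', hT'⟩ : ∃ T' : ℝ, T' = |T| := ⟨_, rfl⟩
  have hT0 : 0 ≤ T' := by rw [hT']; exact abs_nonneg T
  obtain ⟨K', hK'⟩ : ∃ K' : ℝ, K' = max K 1 := ⟨_, rfl⟩
  have hK1 : 1 ≤ K' := by rw [hK']; exact le_max_right _ _
  have hKK : K ≤ K' := by rw [hK']; exact le_max_left _ _
  obtain ⟨A, hA⟩ : ∃ A : ℝ, A = Real.exp (-(B + C₃ + 1)) := ⟨_, rfl⟩
  have hA0 : 0 < A := by rw [hA]; exact Real.exp_pos _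
  obtain ⟨b, hb⟩ : ∃ b : ℝ, b = max 1 (2 * C₀ * (2 + T') * C₁ / (ρ * A)) := ⟨_, rfl⟩
  have hb1 : 1 ≤ b := by rw [hb]; exact le_max_left _ _
  have hb0 : 0 < b := by linarith
  have hbA : 2 * C₀ * (2 + T') * C₁ ≤ b * (ρ * A) := by
    have h1 : 2 * C₀ * (2 + T') * C₁ / (ρ * A) ≤ b := by rw [hb]; exact le_max_right _ _
    rwa [div_le_iff₀ (mul_pos hρ hA0)] at h1
  obtain ⟨σ, C₂, hσ, -, hC₂, hW⟩ := weyl b hb1
  have hlogK : 0 ≤ Real.log K' := Real.log_nonneg hK1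
  have hbC : 0 ≤ b * C₂ / σ := by positivity
  obtain ⟨M, hM⟩ : ∃ M : ℝ, M = max (2 / ρ) (Real.log K' + b * C₂ / σ) := ⟨_, rfl⟩
  have hM1 : 2 / ρ ≤ M := by rw [hM]; exact le_max_left _ _
  have hM2 : Real.log K' + b * C₂ / σ ≤ M := by rw [hM]; exact le_max_right _ _
  have hM0 : 0 ≤ M := le_trans (by positivity) hM2
  refine ⟨Real.exp M, Real.one_le_exp hM0, ?_⟩
  intro X hX κ hκ hκX τ hτ
  have hX0 : 0 < X := lt_of_lt_of_le (Real.exp_pos _) hX
  have hX1 : 1 ≤ X := (Real.one_le_exp hM0).trans hX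
  have hlX : M ≤ Real.log X := by
    rw [Real.le_log_iff_exp_le hX0]
    exact hX
  obtain ⟨l, hl⟩ : ∃ l : ℝ, l = Real.log X := ⟨_, rfl⟩
  rw [← hl] at hlX
  have hl0 : 0 < l := lt_of_lt_of_le (by positivity) (hM1.trans hlX)
  obtain ⟨L, hL⟩ : ∃ L : ℝ, L = ρ * l := ⟨_, rfl⟩
  have hL2 : 2 ≤ L := by
    have h1 : 2 / ρ ≤ l := hM1.trans hlX
    rw [div_le_iff₀ hρ] at h1
    rw [hL]
    linarith
  have hL0 : 0 < L := by linarith
  have hXL : X ^ ρ = Real.exp L := by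
    rw [Real.rpow_def_of_pos hX0, hL, hl]
    congr 1
    ring
  have hτT : |τ| ≤ T' := hτ.trans (by rw [hT']; exact le_abs_self T)
  -- the Dirichlet series
  obtain ⟨y₁, hy₁⟩ : ∃ y₁ : ℝ, y₁ = (K' * X) ^ (1 / b) := ⟨_, rfl⟩
  have hKX : 1 ≤ K' * X := one_le_mul_of_one_le_of_one_le hK1 hX1
  have hKX0 : 0 < K' * X := by linarith
  have hy1 : 1 ≤ y₁ := by
    rw [hy₁]
    exact Real.one_le_rpow hKX (by positivity)
  have hy0 : 0 < y₁ := by linarith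
  have hlogy : Real.log y₁ = (Real.log K' + l) / b := by
    rw [hy₁, Real.log_rpow hKX0, Real.log_mul (by linarith) hX0.ne', ← hl]
    ring
  have hyb : y₁ ^ b = K' * X := by
    rw [hy₁, ← Real.rpow_mul hKX0.le, one_div_mul_cancel hb0.ne', Real.rpow_one]
  have hs2 : 1 + 1 / L ≤ 2 := by
    have h1 : 1 / L ≤ 1 := by
      rw [div_le_one hL0]
      linarith
    linarith
  have hs1 : 1 < 1 + 1 / L := by
    have h1 : 0 < 1 / L := by positivity
    linarith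
  have hLb := L_bound (h := fun v => e (κ * An v / per))
    (fun v => (Pool.Agent.Lib.MP_2a816b_nt.norm_e _).le) (σ := 1 + 1 / L) (τ := τ) (C₁ := C₁) (C₂ := C₂)
    (y₁ := y₁) (η := σ) hs1 hs2 hy1 hσ
    (by
      intro t ht
      refine le_trans (norm_sum_le _ _) ?_
      refine le_trans (le_of_eq ?_) (hV t (by linarith))
      simp [Pool.Agent.Lib.MP_2a816b_nt.norm_e])
    (by
      intro t ht
      refine hW t (hy1.trans ht) κ hκ ?_
      calc |(κ : ℝ)| ≤ K * X := hκX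
        _ ≤ K' * X := mul_le_mul_of_nonneg_right hKK hX0.le
        _ = y₁ ^ b := hyb.symm
        _ ≤ t ^ b := Real.rpow_le_rpow hy0.le ht hb0.le)
  have hEu := hE (fun v => e (κ * An v / per) * nit τ v) (comp_h κ τ) L (by linarith)
  have hts : ∑' v : {v : O // Qd v}, (fun v => e (κ * An v / per) * nit τ v) v.1 *
      (((N v.1 : ℝ) ^ (-(1 + 1 / L)) : ℝ) : ℂ) =
      ∑' v : {v : O // Qd v}, (fun v => e (κ * An v / per)) v.1 * (N v.1 : ℂ) ^ (-(τ * Complex.I)) *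
        (((N v.1 : ℝ) ^ (-(1 + 1 / L)) : ℝ) : ℂ) := by
    refine tsum_congr fun v => ?_
    have h1 := nit_eq τ v.2.tp.N_pos
    show e (κ * An v.1 / per) * nit τ v.1 * _ = e (κ * An v.1 / per) * _ * _
    rw [h1]
  rw [hts] at hEu
  obtain ⟨Z, hZ⟩ : ∃ Z : ℝ, Z = ‖∑' v : {v : O // Qd v}, (fun v => e (κ * An v / per)) v.1 *
      (N v.1 : ℂ) ^ (-(τ * Complex.I)) * (((N v.1 : ℝ) ^ (-(1 + 1 / L)) : ℝ) : ℂ)‖ := ⟨_, rfl⟩
  rw [← hZ] at hLb hEu
  obtain ⟨S, hS⟩ : ∃ S : ℝ, S = ∑ p ∈ PP D (Real.exp L), (e (κ * An p / per) * nit τ p).re / (N p : ℝ) := ⟨_, rfl⟩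
  have hEu' : Real.exp S ≤ C₀ * Z := by
    rw [hS]
    exact hEu
  have hZle : Z ≤ (2 + T') * (2 * C₁ * l / b) := by
    refine hLb.trans ?_
    rw [hlogy]
    have h1 : C₁ * ((Real.log K' + l) / b) + C₂ / σ ≤ 2 * C₁ * l / b := by
      have h2 : Real.log K' + b * C₂ / σ ≤ l := hM2.trans hlX
      have h3 : C₂ / σ = (b * C₂ / σ) / b := by
        field_simp
      rw [h3, ← mul_div_assoc, ← add_div]
      apply div_le_div_of_nonneg_right _ hb0.le
      have h4 : b * C₂ / σ ≤ C₁ * (b * C₂ / σ) := le_mul_of_one_le_left hbC hC₁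
      have h5 : C₁ * (Real.log K' + b * C₂ / σ) ≤ C₁ * l := mul_le_mul_of_nonneg_left h2 (by linarith)
      nlinarith
    have h6 : 0 ≤ C₁ * ((Real.log K' + l) / b) + C₂ / σ := by
      have h7 : 0 ≤ Real.log K' + l := by linarith
      positivity
    calc (2 + |τ|) * (C₁ * ((Real.log K' + l) / b) + C₂ / σ)
        ≤ (2 + T') * (C₁ * ((Real.log K' + l) / b) + C₂ / σ) :=
          mul_le_mul_of_nonneg_right (by linarith) h6
      _ ≤ (2 + T') * (2 * C₁ * l / b) := mul_le_mul_of_nonneg_left h1 (by linarith)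
  have hSle : Real.exp S ≤ L * A := by
    calc Real.exp S ≤ C₀ * Z := hEu'
      _ ≤ C₀ * ((2 + T') * (2 * C₁ * l / b)) := mul_le_mul_of_nonneg_left hZle hC₀.le
      _ = (2 * C₀ * (2 + T') * C₁) * l / b := by ring
      _ ≤ (b * (ρ * A)) * l / b := by
          apply div_le_div_of_nonneg_right _ hb0.le
          exact mul_le_mul_of_nonneg_right hbA hl0.le
      _ = L * A := by
          rw [hL]
          field_simp
  have hSlog : S ≤ Real.log L - (B + C₃ + 1) := by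
    have h1 : S ≤ Real.log (L * A) := by
      rw [Real.le_log_iff_exp_le (mul_pos hL0 hA0)]
      exact hSle
    rw [Real.log_mul hL0.ne' hA0.ne', hA, Real.log_exp] at h1
    linarith
  -- the mass
  have hlog3 : Real.log 3 ≤ Real.exp 1 := by
    have h1 := Real.log_le_sub_one_of_pos (show (0 : ℝ) < 3 by norm_num)
    have h2 := Real.exp_one_gt_d9
    linarith
  have hlog30 : 0 < Real.log 3 := Real.log_pos (by norm_num)
  have h3Q : (3 : ℝ) ≤ Real.exp L := by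
    have h1 := Real.add_one_le_exp L
    linarith
  have hPm := hP 3 (Real.exp L) le_rfl h3Q
  rw [Real.log_exp] at hPm
  have hlg : Real.log L - 1 ≤ Real.log (L / Real.log 3) := by
    rw [Real.log_div hL0.ne' hlog30.ne']
    have h1 : Real.log (Real.log 3) ≤ 1 := by
      rw [Real.log_le_iff_le_exp hlog30]
      exact hlog3
    linarith
  have hmass : mass ((PP D (Real.exp L)).filter (fun p => (3 : ℝ) ≤ (N p : ℝ))) ≤
      ∑ p ∈ PP D (Real.exp L), 1 / (N p : ℝ) := by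
    unfold mass
    apply Finset.sum_le_sum_of_subset_of_nonneg (Finset.filter_subset _ _)
    intro p hp _
    rw [mem_PP] at hp
    have h1 : (0 : ℝ) < (N p : ℝ) := by exact_mod_cast hp.1.1.tp.N_pos
    positivity
  rw [hXL]
  have hsplit : ∑ p ∈ PP D (Real.exp L), (1 - (e (κ * An p / per) * nit τ p).re) / (N p : ℝ) =
      ∑ p ∈ PP D (Real.exp L), 1 / (N p : ℝ) - S := by
    rw [hS, ← Finset.sum_sub_distrib]
    apply Finset.sum_congr rfl
    intro p _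
    rw [sub_div]
  rw [hsplit]
  linarith

end Pool.Agent.Lib.MP_d57abb_nt.MR
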