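import Mathlib
import Pool.Agent.Lib.MP_d57abb_nt.MR.DlA

/-!
# JOB DlB: distance of the norm characters from 1

PROOF.  `g = nit τ` satisfies `Comp` (`comp_h 0 τ`).  `L = log z ≥ 1`, `z = exp L`.  By `euler`, `nit_eq` and `L_zeta` (`σ = 1 + 1/L ≤ 2`):
`exp (∑_{PP D z} Re g / N p) ≤ C₀ C (2 + T)(1 / ‖1/L + i τ‖ + 1)`.  `‖1/L + iτ‖ ≥ (1/L + |τ|)/2` and `1 ≤ (1 + T) L / (1 + |τ| L)` (as `1 + |τ| L ≤ (1 + T) L`), so the bracket is
`≤ 2 L / (1 + |τ| L) + (1 + T) L / (1 + |τ| L) ≤ (3 + T) L / (1 + |τ| L)`.  Hence `∑ Re g / N p ≤ log L - log (1 + |τ| L) + C'`.  With `mass_PP_lower` (`P = 3`):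
`∑ 1/N p ≥ log L - log log 3 - C₃`.  Subtract.  (If `T < 0` there is no `τ`.)
-/

namespace Pool.Agent.Lib.MP_d57abb_nt.MR

open Finset

private theorem DlB_comp (τ : ℝ) : Comp (nit τ) := by
  have h := comp_h 0 τ
  have h1 : (fun v => Pool.Agent.Lib.MP_2a816b_nt.e (((0 : ℤ) : ℝ) * An v / per) * nit τ v) = nit τ := by
    funext v
    have h2 : ((0 : ℤ) : ℝ) * An v / per = 0 := by
      rw [Int.cast_zero, zero_mul, zero_div]
    rw [h2]
    have h3 : Pool.Agent.Lib.MP_2a816b_nt.e 0 = 1 := by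
      simp [Pool.Agent.Lib.MP_2a816b_nt.e]
    rw [h3, one_mul]
  rw [h1] at h
  exact h

private theorem DlB_norm {L τ : ℝ} (hL : 0 < L) :
    (1 + |τ| * L) / (2 * L) ≤ ‖(((1 + 1 / L : ℝ)) : ℂ) - 1 + τ * Complex.I‖ := by
  have h1 := Complex.abs_re_le_norm ((((1 + 1 / L : ℝ)) : ℂ) - 1 + τ * Complex.I)
  have h2 := Complex.abs_im_le_norm ((((1 + 1 / L : ℝ)) : ℂ) - 1 + τ * Complex.I)
  have e1 : ((((1 + 1 / L : ℝ)) : ℂ) - 1 + τ * Complex.I).re = 1 / L := by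
    simp
  have e2 : ((((1 + 1 / L : ℝ)) : ℂ) - 1 + τ * Complex.I).im = τ := by
    simp
  rw [e1, abs_of_pos (by positivity)] at h1
  rw [e2] at h2
  have e3 : (1 + |τ| * L) / (2 * L) = (1 / L + |τ|) / 2 := by
    field_simp
  rw [e3]
  linarith

theorem dl_norm {D : ℕ} (h5 : 5 ∣ D) (hD : 0 < D) (T : ℝ) : ∃ C : ℝ, ∀ z τ : ℝ, 3 ≤ z → |τ| ≤ T →
    Real.log (1 + |τ| * Real.log z) - C ≤ ∑ p ∈ PP D z, (1 - (nit τ p).re) / (N p : ℝ) := by
  obtain ⟨C₀, hC₀, heu⟩ := euler h5 hD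
  obtain ⟨C, hC, hLz⟩ := L_zeta
  obtain ⟨C₃, hm⟩ := mass_PP_lower h5 hD
  refine ⟨Real.log (C₀ * C * (2 + |T|) * (3 + |T|)) + Real.log (Real.log 3) + C₃,
    fun z τ hz hτ => ?_⟩
  have hτT : |τ| ≤ |T| := hτ.trans (le_abs_self T)
  have hT0 : 0 ≤ |T| := abs_nonneg T
  have hz0 : 0 < z := by linarith
  obtain ⟨L, hL⟩ : ∃ L : ℝ, L = Real.log z := ⟨_, rfl⟩
  have hl3 : 1 < Real.log 3 := by
    rw [Real.lt_log_iff_exp_lt (by norm_num)]
    have := Real.exp_one_lt_d9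
    linarith
  have hL1 : 1 ≤ L := by
    rw [hL]
    exact hl3.le.trans (Real.log_le_log (by norm_num) hz)
  have hL0 : 0 < L := by linarith
  have hexp : Real.exp L = z := by
    rw [hL, Real.exp_log hz0]
  rw [← hL]
  have h1 := heu (nit τ) (DlB_comp τ) L hL1
  rw [hexp] at h1
  have e1 : ∑' v : {v : O // Qd v}, nit τ v.1 * (((N v.1 : ℝ) ^ (-(1 + 1 / L)) : ℝ) : ℂ) =
      ∑' v : {v : O // Qd v}, (N v.1 : ℂ) ^ (-(τ * Complex.I)) *
        (((N v.1 : ℝ) ^ (-(1 + 1 / L)) : ℝ) : ℂ) := by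
    refine tsum_congr fun v => ?_
    rw [nit_eq τ v.2.tp.N_pos]
  have h2 := hLz (1 + 1 / L) τ (by
    have : 0 < 1 / L := by positivity
    linarith) (by
    have : 1 / L ≤ 1 := by
      rw [div_le_one hL0]
      exact hL1
    linarith)
  rw [← e1] at h2
  have hpos : 0 < 1 + |τ| * L := by positivity
  have h3 : 1 / ‖(((1 + 1 / L : ℝ)) : ℂ) - 1 + τ * Complex.I‖ + 1 ≤
      (3 + |T|) * L / (1 + |τ| * L) := by
    have k1 := DlB_norm (L := L) (τ := τ) hL0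
    have k2 : 1 / ‖(((1 + 1 / L : ℝ)) : ℂ) - 1 + τ * Complex.I‖ ≤
        1 / ((1 + |τ| * L) / (2 * L)) := one_div_le_one_div_of_le (by positivity) k1
    have k3 : 1 / ((1 + |τ| * L) / (2 * L)) = 2 * L / (1 + |τ| * L) := by
      rw [one_div_div]
    have k4 : 1 ≤ (1 + |T|) * L / (1 + |τ| * L) := by
      rw [le_div_iff₀ hpos]
      nlinarith [mul_le_mul_of_nonneg_right hτT hL0.le]
    have k5 : (3 + |T|) * L / (1 + |τ| * L) = 2 * L / (1 + |τ| * L) + (1 + |T|) * L / (1 + |τ| * L) := by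
      ring
    rw [k5]
    linarith
  have hK : 0 < C₀ * C * (2 + |T|) * (3 + |T|) := by positivity
  have h4 : Real.exp (∑ p ∈ PP D z, (nit τ p).re / (N p : ℝ)) ≤
      C₀ * C * (2 + |T|) * (3 + |T|) * (L / (1 + |τ| * L)) := by
    refine h1.trans ?_
    have k1 : C * (2 + |τ|) * (1 / ‖(((1 + 1 / L : ℝ)) : ℂ) - 1 + τ * Complex.I‖ + 1) ≤
        C * (2 + |T|) * ((3 + |T|) * L / (1 + |τ| * L)) := by
      refine mul_le_mul ?_ h3 (by positivity) (by positivity)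
      exact mul_le_mul_of_nonneg_left (by linarith) hC.le
    have k2 := mul_le_mul_of_nonneg_left (h2.trans k1) hC₀.le
    refine k2.trans (le_of_eq ?_)
    ring
  have h5' : ∑ p ∈ PP D z, (nit τ p).re / (N p : ℝ) ≤
      Real.log (C₀ * C * (2 + |T|) * (3 + |T|)) + (Real.log L - Real.log (1 + |τ| * L)) := by
    rw [← Real.log_div hL0.ne' hpos.ne', ← Real.log_mul hK.ne' (by positivity)]
    exact (Real.le_log_iff_exp_le (by positivity)).2 h4
  have h6 : Real.log L - Real.log (Real.log 3) - C₃ ≤ ∑ p ∈ PP D z, 1 / (N p : ℝ) := by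
    have k1 := hm 3 z le_rfl hz
    rw [← hL, Real.log_div hL0.ne' (by positivity)] at k1
    refine k1.trans ?_
    unfold mass
    refine Finset.sum_le_sum_of_subset_of_nonneg (Finset.filter_subset _ _) fun p hp _ => ?_
    have := (mem_PP.1 hp).1.tp.N_pos
    have h7 : (0 : ℝ) < N p := by exact_mod_cast this
    positivity
  have h8 : ∑ p ∈ PP D z, (1 - (nit τ p).re) / (N p : ℝ) =
      ∑ p ∈ PP D z, 1 / (N p : ℝ) - ∑ p ∈ PP D z, (nit τ p).re / (N p : ℝ) := by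
    rw [← Finset.sum_sub_distrib]
    exact Finset.sum_congr rfl fun p _ => by rw [sub_div]
  rw [h8]
  linarith

end Pool.Agent.Lib.MP_d57abb_nt.MR
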