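import Mathlib
import Pool.Agent.Lib.MP_d57abb_nt.MR.NPd
import Pool.Agent.Lib.MP_d57abb_nt.MR.DlB
import Pool.Agent.Lib.MP_d57abb_nt.MR.Nf

/-!
# JOB DlC: the distance lower bound for all frequencies

PROOF of `DL`.  `Q = d.Q ≥ 1`, `Q t = n` (`t_int`).  For `p ∈ PP` let `w = F j p * nit τ p`, `‖w‖ = 1` (`norm_F`, `norm_nit`).  `w^Q - 1 = (w - 1)(1 + .. + w^(Q-1))`, so `‖w^Q - 1‖ ≤ Q ‖w - 1‖`;
`w^Q = f^Q e (Q (j + t) An p / per) nit (Q τ) p = e (κ An p / per) nit (Q τ) p` with `κ = Q j + n` (`f_pow`), and `‖u - 1‖² = 2 (1 - Re u)` for `‖u‖ = 1`.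
So `∑ ‖w - 1‖² / N p ≥ (2 / Q²) ∑ (1 - Re (e (κ An p / per) nit (Qτ) p)) / N p`.
* `κ ≠ 0`: `|κ| ≤ Q X + |n| ≤ (Q + |n|) X`; `dl_hecke` with `ρ, Q T, Q + |n|, B Q² / 2`.
* `κ = 0`: then `Q (j + t) = 0`, so `j + t = 0`, `t = -j` is an integer and `F j p = f p` (`E = e 0 = 1`).  `z = X^ρ`.  Let `C` be from `dl_norm (Q T)`, `K = exp (B Q² / 2 + C)`.
  If `Q |τ| log z ≥ K`, then `(2 / Q²)(log (1 + Q |τ| log z) - C) ≥ B` and `dl_norm` finishes.  Otherwise `|τ| log z ≤ K / Q`.  `NP` (for the fixed `d`) gives `z₁ ≥ 2` (enlarge it; `PP` is monotone) with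
  `B Q² ≤ ∑_{p ∈ PP z₁, f p ≠ 1} 1 / N p`.  For `X` large, `z₁ ≤ z` and `K log z₁ ≤ log z`; then for `p ∈ PP z₁`: `‖nit τ p - 1‖ ≤ |τ| log N p ≤ (K / (Q log z)) log z₁ ≤ 1 / Q`
  (`|e x - 1| ≤ 2 π |x|`).  If `f p ≠ 1`, then `‖f p - 1‖ ≥ 2 / Q` (`root_far`), so `‖f p nit τ p - 1‖ ≥ ‖f p - 1‖ - ‖nit τ p - 1‖ ≥ 1 / Q`, and the sum is `≥ B Q² / Q² = B`.
`root_far`: `w^Q = 1`, `w ≠ 1`: `∑_{i<Q} w^i = 0`, so `-Q = ∑_{i<Q} (w^i - 1)` and `Q ≤ ∑_{i<Q} i ‖w - 1‖ ≤ (Q²/2) ‖w - 1‖`.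
-/

namespace Pool.Agent.Lib.MP_d57abb_nt.MR

open Finset
open Pool.Agent.Lib.MP_2a816b_nt (e)

private theorem DlC_pow {w : ℂ} (hw : ‖w‖ = 1) (n : ℕ) : ‖w ^ n - 1‖ ≤ n * ‖w - 1‖ := by
  induction n with
  | zero => simp
  | succ n ih =>
    have h1 : w ^ (n + 1) - 1 = w * (w ^ n - 1) + (w - 1) := by ring
    rw [h1]
    refine (norm_add_le _ _).trans ?_
    rw [norm_mul, hw, one_mul]
    push_cast
    linarith

private theorem DlC_norm_one {w : ℂ} {Q : ℕ} (hQ : 0 < Q) (h : w ^ Q = 1) : ‖w‖ = 1 := by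
  have h1 := congrArg norm h
  rw [norm_pow, norm_one] at h1
  exact (pow_eq_one_iff_of_nonneg (norm_nonneg _) hQ.ne').mp h1

theorem root_far {w : ℂ} {Q : ℕ} (hQ : 0 < Q) (h : w ^ Q = 1) (h1 : w ≠ 1) : 2 / (Q : ℝ) ≤ ‖w - 1‖ := by
  have hw := DlC_norm_one hQ h
  have hQ' : (0 : ℝ) < (Q : ℝ) := by exact_mod_cast hQ
  have hs : ∑ i ∈ range Q, w ^ i = 0 := by
    have h2 : (∑ i ∈ range Q, w ^ i) * (w - 1) = w ^ Q - 1 := geom_sum_mul w Q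
    rw [h, sub_self] at h2
    exact (mul_eq_zero.1 h2).resolve_right (sub_ne_zero.2 h1)
  have hs2 : ∑ i ∈ range Q, (w ^ i - 1) = -(Q : ℂ) := by
    rw [Finset.sum_sub_distrib, hs]
    simp
  have hn : (Q : ℝ) ≤ ∑ i ∈ range Q, (i : ℝ) * ‖w - 1‖ := by
    have h3 : (Q : ℝ) = ‖∑ i ∈ range Q, (w ^ i - 1)‖ := by
      rw [hs2, norm_neg, Complex.norm_natCast]
    rw [h3]
    refine (norm_sum_le _ _).trans (Finset.sum_le_sum fun i _ => DlC_pow hw i)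
  rw [← Finset.sum_mul] at hn
  have hg : (∑ i ∈ range Q, (i : ℝ)) * 2 ≤ (Q : ℝ) * Q := by
    have h4 := Finset.sum_range_id_mul_two Q
    have h5 : (∑ i ∈ range Q, (i : ℝ)) * 2 = ((Q * (Q - 1) : ℕ) : ℝ) := by
      rw [← h4]
      push_cast
      rfl
    rw [h5]
    have h6 : Q * (Q - 1) ≤ Q * Q := Nat.mul_le_mul_left _ (Nat.sub_le _ _)
    exact_mod_cast h6
  rw [div_le_iff₀ hQ']
  have h7 : (∑ i ∈ range Q, (i : ℝ)) * 2 * ‖w - 1‖ ≤ (Q : ℝ) * Q * ‖w - 1‖ :=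
    mul_le_mul_of_nonneg_right hg (norm_nonneg _)
  have h8 : (Q : ℝ) * 2 ≤ (Q : ℝ) * (‖w - 1‖ * Q) := by nlinarith
  exact le_of_mul_le_mul_left h8 hQ'

private theorem DlC_re {u : ℂ} (hu : ‖u‖ = 1) : ‖u - 1‖ ^ 2 = 2 * (1 - u.re) := by
  have h1 : ‖u‖ ^ 2 = u.re ^ 2 + u.im ^ 2 := by
    rw [Complex.sq_norm, Complex.normSq_apply]
    ring
  rw [Complex.sq_norm, Complex.normSq_apply, Complex.sub_re, Complex.sub_im, Complex.one_re, Complex.one_im]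
  rw [hu] at h1
  linear_combination -h1

private theorem DlC_nit_pow (τ : ℝ) (p : O) (Q : ℕ) : nit τ p ^ Q = nit (Q * τ) p := by
  unfold nit
  rw [← Pool.Agent.Lib.MP_2a816b_nt.e_nat_mul]
  congr 1
  ring

private theorem DlC_upow (d : Dat) (j : ℤ) (τ : ℝ) (n : ℤ) (hn : (d.Q : ℝ) * d.t = n) {p : O} (hp : Dg d.D p) :
    (d.F j p * nit τ p) ^ d.Q = e (((d.Q * j + n : ℤ) : ℝ) * An p / per) * nit (d.Q * τ) p := by
  rw [mul_pow, DlC_nit_pow]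
  congr 1
  unfold Dat.F E
  rw [mul_pow, d.f_pow p hp, one_mul, ← Pool.Agent.Lib.MP_2a816b_nt.e_nat_mul]
  congr 1
  push_cast
  rw [← hn]
  ring

private theorem DlC_key (d : Dat) (j : ℤ) (τ : ℝ) (n : ℤ) (hn : (d.Q : ℝ) * d.t = n) {p : O} (hp : Dg d.D p) :
    2 / (d.Q : ℝ) ^ 2 * (1 - (e (((d.Q * j + n : ℤ) : ℝ) * An p / per) * nit (d.Q * τ) p).re) ≤
      ‖d.F j p * nit τ p - 1‖ ^ 2 := by
  have hQ : (0 : ℝ) < (d.Q : ℝ) := by exact_mod_cast d.Q0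
  have h1 := DlC_upow d j τ n hn hp
  have hw : ‖d.F j p * nit τ p‖ = 1 := by rw [norm_mul, norm_F d j hp, norm_nit, one_mul]
  have hu : ‖e (((d.Q * j + n : ℤ) : ℝ) * An p / per) * nit (d.Q * τ) p‖ = 1 := by
    rw [norm_mul, Pool.Agent.Lib.MP_2a816b_nt.norm_e, norm_nit, one_mul]
  have h2 := DlC_pow hw d.Q
  rw [h1] at h2
  have h3 := DlC_re hu
  have h4 : ‖e (((d.Q * j + n : ℤ) : ℝ) * An p / per) * nit (d.Q * τ) p - 1‖ ^ 2 ≤
      ((d.Q : ℝ) * ‖d.F j p * nit τ p - 1‖) ^ 2 := pow_le_pow_left₀ (norm_nonneg _) h2 2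
  rw [h3, mul_pow] at h4
  rw [div_mul_eq_mul_div, div_le_iff₀ (by positivity)]
  linarith

private theorem DlC_sum (d : Dat) (j : ℤ) (τ z B : ℝ) (n : ℤ) (hn : (d.Q : ℝ) * d.t = n)
    (h : B * (d.Q : ℝ) ^ 2 / 2 ≤ ∑ p ∈ PP d.D z,
      (1 - (e (((d.Q * j + n : ℤ) : ℝ) * An p / per) * nit (d.Q * τ) p).re) / (N p : ℝ)) :
    B ≤ ∑ p ∈ PP d.D z, 1 / (N p : ℝ) * ‖d.F j p * nit τ p - 1‖ ^ 2 := by
  have hQ : (0 : ℝ) < (d.Q : ℝ) := by exact_mod_cast d.Q0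
  have h1 : 2 / (d.Q : ℝ) ^ 2 * (B * (d.Q : ℝ) ^ 2 / 2) = B := by field_simp
  have h2 : 2 / (d.Q : ℝ) ^ 2 * ∑ p ∈ PP d.D z,
      (1 - (e (((d.Q * j + n : ℤ) : ℝ) * An p / per) * nit (d.Q * τ) p).re) / (N p : ℝ) ≤
      ∑ p ∈ PP d.D z, 1 / (N p : ℝ) * ‖d.F j p * nit τ p - 1‖ ^ 2 := by
    rw [Finset.mul_sum]
    apply Finset.sum_le_sum
    intro p hp
    have hp' := (mem_PP.1 hp).1
    have hN : (0 : ℝ) < (N p : ℝ) := by exact_mod_cast hp'.1.tp.N_pos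
    have h3 := DlC_key d j τ n hn hp'
    rw [mul_div_assoc', one_div_mul_eq_div]
    exact div_le_div_of_nonneg_right h3 hN.le
  calc B = 2 / (d.Q : ℝ) ^ 2 * (B * (d.Q : ℝ) ^ 2 / 2) := h1.symm
    _ ≤ _ := mul_le_mul_of_nonneg_left h (by positivity)
    _ ≤ _ := h2

private theorem DlC_big (ρ : ℝ) (hρ : 0 < ρ) (M : ℝ) : ∃ X₀ : ℝ, 1 ≤ X₀ ∧ ∀ X : ℝ, X₀ ≤ X → M ≤ X ^ ρ := by
  have h := (tendsto_rpow_atTop hρ).eventually_ge_atTop M
  obtain ⟨a, ha⟩ := Filter.eventually_atTop.1 h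
  exact ⟨max a 1, le_max_right _ _, fun X hX => ha X ((le_max_left _ _).trans hX)⟩

private theorem DlC_nit (τ : ℝ) {p : O} (hp : Qd p) : ‖nit τ p - 1‖ ≤ |τ| * Real.log (N p) := by
  have hN : (1 : ℝ) ≤ (N p : ℝ) := by
    have h1 := hp.tp.N_pos
    exact_mod_cast h1
  have hl := Real.log_nonneg hN
  unfold nit
  rw [Pool.Agent.Lib.MP_2a816b_nt.norm_e_sub_one]
  have h2 : |Real.sin (Real.pi * -(τ * Real.log (N p) / (2 * Real.pi)))| ≤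
      |Real.pi * -(τ * Real.log (N p) / (2 * Real.pi))| := Real.abs_sin_le_abs
  have h3 : Real.pi * -(τ * Real.log (N p) / (2 * Real.pi)) = -(τ * Real.log (N p) / 2) := by
    have := Real.pi_ne_zero
    field_simp
  rw [h3] at h2 ⊢
  rw [abs_neg (τ * Real.log (N p) / 2), abs_div, abs_mul, abs_of_nonneg hl] at h2
  have h4 : |(2 : ℝ)| = 2 := abs_of_pos (by norm_num)
  rw [h4] at h2
  linarith

theorem DL (d : Dat) (h : NP d) (T B ρ : ℝ) (hρ : 0 < ρ) : ∃ X₀ : ℝ, 1 ≤ X₀ ∧ ∀ X : ℝ, X₀ ≤ X → ∀ j : ℤ, |(j : ℝ)| ≤ X →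
    ∀ τ : ℝ, |τ| ≤ T → B ≤ ∑ p ∈ PP d.D (X ^ ρ), 1 / (N p : ℝ) * ‖d.F j p * nit τ p - 1‖ ^ 2 := by
  obtain ⟨n, hn⟩ := d.t_int
  have hQ : (0 : ℝ) < (d.Q : ℝ) := by exact_mod_cast d.Q0
  obtain ⟨X₁, hX₁, H₁⟩ := dl_hecke d.D5 d.D0 ρ (d.Q * T) (d.Q + |(n : ℝ)|) (B * (d.Q : ℝ) ^ 2 / 2) hρ
  -- the bound for `κ ≠ 0`
  have hcase1 : ∀ X : ℝ, X₁ ≤ X → ∀ j : ℤ, |(j : ℝ)| ≤ X → (d.Q * j + n : ℤ) ≠ 0 → ∀ τ : ℝ, |τ| ≤ T →
      B ≤ ∑ p ∈ PP d.D (X ^ ρ), 1 / (N p : ℝ) * ‖d.F j p * nit τ p - 1‖ ^ 2 := by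
    intro X hX j hj hκ τ hτ
    apply DlC_sum d j τ _ B n hn
    apply H₁ X hX _ hκ
    · have hX1 : 1 ≤ X := hX₁.trans hX
      push_cast
      have h1 : |(d.Q : ℝ) * j + n| ≤ (d.Q : ℝ) * |(j : ℝ)| + |(n : ℝ)| := by
        refine (abs_add_le _ _).trans ?_
        rw [abs_mul, abs_of_pos hQ]
      have h2 : 0 ≤ |(n : ℝ)| := abs_nonneg _
      nlinarith
    · rw [abs_mul, abs_of_pos hQ]
      exact mul_le_mul_of_nonneg_left hτ hQ.le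
  by_cases ht : ∃ m : ℤ, d.t = m
  · obtain ⟨C, hC⟩ := dl_norm d.D5 d.D0 (d.Q * T)
    obtain ⟨z₁, hz₁⟩ := h ht (B * (d.Q : ℝ) ^ 2)
    set K : ℝ := Real.exp (B * (d.Q : ℝ) ^ 2 / 2 + C) with hK
    have hK0 : 0 < K := Real.exp_pos _
    set z₂ : ℝ := max z₁ 3 with hz₂
    have hz₂3 : 3 ≤ z₂ := le_max_right _ _
    obtain ⟨X₂, hX₂, H₂⟩ := DlC_big ρ hρ (max z₂ (Real.exp (K * Real.log z₂)))
    refine ⟨max X₁ X₂, hX₁.trans (le_max_left _ _), ?_⟩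
    intro X hX j hj τ hτ
    by_cases hκ : (d.Q * j + n : ℤ) = 0
    swap
    · exact hcase1 X ((le_max_left _ _).trans hX) j hj hκ τ hτ
    have hM := H₂ X ((le_max_right _ _).trans hX)
    set z : ℝ := X ^ ρ with hz
    have hzz₂ : z₂ ≤ z := (le_max_left _ _).trans hM
    have hz3 : 3 ≤ z := hz₂3.trans hzz₂
    have hz0 : 0 < z := by linarith
    have hKz : K * Real.log z₂ ≤ Real.log z :=
      (Real.le_log_iff_exp_le hz0).2 ((le_max_right _ _).trans hM)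
    have hτQ : |(d.Q : ℝ) * τ| = d.Q * |τ| := by rw [abs_mul, abs_of_pos hQ]
    by_cases hbig : K ≤ d.Q * |τ| * Real.log z
    · apply DlC_sum d j τ _ B n hn
      have h1 := hC z (d.Q * τ) hz3 (by
        rw [hτQ]
        exact mul_le_mul_of_nonneg_left hτ hQ.le)
      have h2 : B * (d.Q : ℝ) ^ 2 / 2 + C ≤ Real.log (1 + |(d.Q : ℝ) * τ| * Real.log z) := by
        rw [hτQ]
        have h3 : K ≤ 1 + d.Q * |τ| * Real.log z := by linarith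
        rw [Real.le_log_iff_exp_le (hK0.trans_le h3)]
        exact h3
      have h4 : ∀ p : O, e (((d.Q * j + n : ℤ) : ℝ) * An p / per) = 1 := by
        intro p
        rw [hκ, Int.cast_zero, zero_mul, zero_div, Pool.Agent.Lib.MP_2a816b_nt.e_zero]
      simp only [h4, one_mul]
      linarith
    · push Not at hbig
      -- `t = - j`
      have htj : (j : ℝ) + d.t = 0 := by
        have h1 : ((d.Q * j + n : ℤ) : ℝ) = 0 := by rw [hκ, Int.cast_zero]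
        push_cast at h1
        rw [← hn] at h1
        have h2 : (d.Q : ℝ) * ((j : ℝ) + d.t) = 0 := by linarith
        exact (mul_eq_zero.1 h2).resolve_left hQ.ne'
      have hF : ∀ p : O, d.F j p = d.f p := by
        intro p
        unfold Dat.F E
        rw [htj, zero_mul, zero_div, Pool.Agent.Lib.MP_2a816b_nt.e_zero, mul_one]
      have hlz₂ : 0 < Real.log z₂ := Real.log_pos (by linarith)
      have hsmall : (d.Q : ℝ) * |τ| * Real.log z₂ ≤ 1 := by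
        have h1 : (d.Q : ℝ) * |τ| * (K * Real.log z₂) ≤ d.Q * |τ| * Real.log z :=
          mul_le_mul_of_nonneg_left hKz (by positivity)
        have h2 : K * ((d.Q : ℝ) * |τ| * Real.log z₂) ≤ K * 1 := by
          rw [mul_one]
          calc K * ((d.Q : ℝ) * |τ| * Real.log z₂) = (d.Q : ℝ) * |τ| * (K * Real.log z₂) := by ring
            _ ≤ d.Q * |τ| * Real.log z := h1
            _ ≤ K := hbig.le
        exact le_of_mul_le_mul_left h2 hK0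
      have hsub : (PP d.D z₁).filter (fun p => d.f p ≠ 1) ⊆ PP d.D z := by
        intro p hp
        have h1 := mem_PP.1 (Finset.mem_filter.1 hp).1
        exact mem_PP.2 ⟨h1.1, h1.2.trans ((le_max_left _ _).trans hzz₂)⟩
      have hterm : ∀ p ∈ (PP d.D z₁).filter (fun p => d.f p ≠ 1),
          1 / (d.Q : ℝ) ^ 2 * (1 / (N p : ℝ)) ≤ 1 / (N p : ℝ) * ‖d.F j p * nit τ p - 1‖ ^ 2 := by
        intro p hp
        obtain ⟨hp1, hpf⟩ := Finset.mem_filter.1 hp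
        obtain ⟨hpD, hpz⟩ := mem_PP.1 hp1
        have hN : (0 : ℝ) < (N p : ℝ) := by exact_mod_cast hpD.1.tp.N_pos
        have h1 := DlC_nit τ hpD.1
        have h2 : Real.log (N p) ≤ Real.log z₂ :=
          Real.log_le_log hN (hpz.trans (le_max_left _ _))
        have h3 : (d.Q : ℝ) * ‖nit τ p - 1‖ ≤ 1 := by
          calc (d.Q : ℝ) * ‖nit τ p - 1‖ ≤ d.Q * (|τ| * Real.log (N p)) :=
                mul_le_mul_of_nonneg_left h1 hQ.le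
            _ ≤ d.Q * (|τ| * Real.log z₂) :=
                mul_le_mul_of_nonneg_left (mul_le_mul_of_nonneg_left h2 (abs_nonneg _)) hQ.le
            _ = d.Q * |τ| * Real.log z₂ := by ring
            _ ≤ 1 := hsmall
        have h4 := root_far d.Q0 (d.f_pow p hpD) hpf
        rw [div_le_iff₀ hQ] at h4
        have h5 : ‖d.f p - 1‖ ≤ ‖d.f p * nit τ p - 1‖ + ‖nit τ p - 1‖ := by
          have h6 : d.f p - 1 = (d.f p * nit τ p - 1) - d.f p * (nit τ p - 1) := by ring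
          have h7 : ‖d.f p * (nit τ p - 1)‖ = ‖nit τ p - 1‖ := by
            rw [norm_mul, norm_f d hpD, one_mul]
          calc ‖d.f p - 1‖ = ‖(d.f p * nit τ p - 1) - d.f p * (nit τ p - 1)‖ := by rw [← h6]
            _ ≤ ‖d.f p * nit τ p - 1‖ + ‖d.f p * (nit τ p - 1)‖ := norm_sub_le _ _
            _ = _ := by rw [h7]
        have h8 : 1 / (d.Q : ℝ) ≤ ‖d.F j p * nit τ p - 1‖ := by
          rw [hF, div_le_iff₀ hQ]
          nlinarith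
        have h9 : 1 / (d.Q : ℝ) ^ 2 ≤ ‖d.F j p * nit τ p - 1‖ ^ 2 := by
          have h10 := pow_le_pow_left₀ (by positivity) h8 2
          rwa [div_pow, one_pow] at h10
        rw [mul_comm]
        exact mul_le_mul_of_nonneg_left h9 (by positivity)
      calc B = 1 / (d.Q : ℝ) ^ 2 * (B * (d.Q : ℝ) ^ 2) := by field_simp
        _ ≤ 1 / (d.Q : ℝ) ^ 2 * ∑ p ∈ (PP d.D z₁).filter (fun p => d.f p ≠ 1), 1 / (N p : ℝ) :=
            mul_le_mul_of_nonneg_left hz₁ (by positivity)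
        _ = ∑ p ∈ (PP d.D z₁).filter (fun p => d.f p ≠ 1), 1 / (d.Q : ℝ) ^ 2 * (1 / (N p : ℝ)) :=
            Finset.mul_sum _ _ _
        _ ≤ ∑ p ∈ (PP d.D z₁).filter (fun p => d.f p ≠ 1),
              1 / (N p : ℝ) * ‖d.F j p * nit τ p - 1‖ ^ 2 := Finset.sum_le_sum hterm
        _ ≤ ∑ p ∈ PP d.D z, 1 / (N p : ℝ) * ‖d.F j p * nit τ p - 1‖ ^ 2 := by
            apply Finset.sum_le_sum_of_subset_of_nonneg hsub
            intro p hp _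
            have hN : (0 : ℝ) < (N p : ℝ) := by exact_mod_cast (mem_PP.1 hp).1.1.tp.N_pos
            positivity
  · refine ⟨X₁, hX₁, ?_⟩
    intro X hX j hj τ hτ
    apply hcase1 X hX j hj _ τ hτ
    intro hκ
    apply ht
    refine ⟨-j, ?_⟩
    have h1 : ((d.Q * j + n : ℤ) : ℝ) = 0 := by rw [hκ, Int.cast_zero]
    push_cast at h1 ⊢
    rw [← hn] at h1
    have h2 : (d.Q : ℝ) * ((j : ℝ) + d.t) = 0 := by linarith
    have h3 := (mul_eq_zero.1 h2).resolve_left hQ.ne'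
    linarith

end Pool.Agent.Lib.MP_d57abb_nt.MR
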