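import Mathlib
import Pool.Agent.Lib.MP_2a816b_nt.Expo

/-!
# JOB PlA: a Plancherel inequality for finite sequences

* `parseval`: expand the square; `∫_{-1/2}^{1/2} e (m ξ) dξ` is `1` for `m = 0` and `0` for an integer `m ≠ 0` (`integral_exp_mul_complex`, `e (m/2) = e (-m/2)`).
* `planch`: `Fh ξ = ∑_{k ∈ S} F k e (-(k ξ))`.  For `i ∈ P` the sequence `G k = f i F (k - n i) - F k` vanishes outside `R i = S ∪ (S + n i)`, and
  `∑_{k ∈ R i} G k e (-(k ξ)) = (f i e (-(n i ξ)) - 1) Fh ξ` (substitute `k = l + n i`; extend sums over `S`, `S + n i` to `R i`, where the other terms vanish).  By the hypothesis, for `|ξ| ≤ 1/2`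
  `‖Fh ξ‖² ≤ ∑_i ω i ‖(f i e (-(n i ξ)) - 1) Fh ξ‖²`; integrate over `[-1/2, 1/2]` (`intervalIntegral.integral_mono_on`, everything is continuous) and use `parseval` on both sides.
-/

namespace Pool.Agent.Lib.MP_d57abb_nt.MR

open Finset
open Pool.Agent.Lib.MP_2a816b_nt (e)

private theorem PlA_cont : Continuous e := by
  have h : e = fun x : ℝ => Complex.exp (2 * Real.pi * x * Complex.I) := rfl
  rw [h]
  fun_prop

private theorem PlA_int (m : ℤ) :
    ∫ ξ in (-(1 / 2) : ℝ)..(1 / 2), e (m * ξ) = if m = 0 then 1 else 0 := by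
  by_cases hm : m = 0
  · rw [if_pos hm, hm]
    have h : ∀ ξ : ℝ, e (((0 : ℤ) : ℝ) * ξ) = 1 := by
      intro ξ
      rw [Int.cast_zero, zero_mul, Pool.Agent.Lib.MP_2a816b_nt.e_zero]
    simp_rw [h]
    rw [intervalIntegral.integral_const]
    norm_num
  · rw [if_neg hm]
    have hc : (2 * Real.pi * m * Complex.I : ℂ) ≠ 0 := by
      have h1 : (Real.pi : ℂ) ≠ 0 := Complex.ofReal_ne_zero.2 Real.pi_ne_zero
      have h2 : (m : ℂ) ≠ 0 := Int.cast_ne_zero.2 hm
      exact mul_ne_zero (mul_ne_zero (mul_ne_zero two_ne_zero h1) h2) Complex.I_ne_zero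
    have h : ∀ ξ : ℝ, e ((m : ℝ) * ξ) = Complex.exp ((2 * Real.pi * m * Complex.I : ℂ) * ξ) := by
      intro ξ
      unfold Pool.Agent.Lib.MP_2a816b_nt.e
      congr 1
      push_cast
      ring
    simp_rw [h]
    rw [integral_exp_mul_complex hc]
    have h3 : Complex.exp ((2 * Real.pi * m * Complex.I : ℂ) * ((1 / 2 : ℝ) : ℂ)) =
        Complex.exp ((2 * Real.pi * m * Complex.I : ℂ) * ((-(1 / 2) : ℝ) : ℂ)) := by
      have h4 : (2 * Real.pi * m * Complex.I : ℂ) * ((1 / 2 : ℝ) : ℂ) =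
          (2 * Real.pi * m * Complex.I : ℂ) * ((-(1 / 2) : ℝ) : ℂ) + m * (2 * Real.pi * Complex.I) := by
        push_cast
        ring
      rw [h4, Complex.exp_add, Complex.exp_int_mul_two_pi_mul_I, mul_one]
    rw [h3, sub_self, zero_div]

theorem parseval (S : Finset ℤ) (G : ℤ → ℂ) :
    ∫ ξ in (-(1 / 2) : ℝ)..(1 / 2), ‖∑ k ∈ S, G k * e (-(k * ξ))‖ ^ 2 = ∑ k ∈ S, ‖G k‖ ^ 2 := by
  have hcont : ∀ m : ℤ, Continuous fun ξ : ℝ => e ((m : ℝ) * ξ) := fun m =>
    PlA_cont.comp (continuous_const.mul continuous_id)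
  have h1 : ((∫ ξ in (-(1 / 2) : ℝ)..(1 / 2), ‖∑ k ∈ S, G k * e (-(k * ξ))‖ ^ 2 : ℝ) : ℂ) =
      ((∑ k ∈ S, ‖G k‖ ^ 2 : ℝ) : ℂ) := by
    rw [← intervalIntegral.integral_ofReal]
    have h2 : ∀ ξ : ℝ, ((‖∑ k ∈ S, G k * e (-(k * ξ))‖ ^ 2 : ℝ) : ℂ) =
        ∑ k ∈ S, ∑ l ∈ S, G k * (starRingEnd ℂ) (G l) * e (((l - k : ℤ) : ℝ) * ξ) := by
      intro ξ
      rw [Complex.ofReal_pow, ← Complex.mul_conj', map_sum, Finset.sum_mul_sum]
      refine Finset.sum_congr rfl fun k _ => Finset.sum_congr rfl fun l _ => ?_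
      rw [map_mul, Pool.Agent.Lib.MP_2a816b_nt.conj_e, neg_neg]
      have h3 : e (((l - k : ℤ) : ℝ) * ξ) = e (-(k * ξ)) * e (l * ξ) := by
        rw [← Pool.Agent.Lib.MP_2a816b_nt.e_add]
        congr 1
        push_cast
        ring
      rw [h3]
      ring
    simp_rw [h2]
    rw [intervalIntegral.integral_finsetSum]
    · rw [Complex.ofReal_sum]
      refine Finset.sum_congr rfl fun k hk => ?_
      rw [intervalIntegral.integral_finsetSum]
      · have h4 : ∀ l ∈ S, ∫ ξ in (-(1 / 2) : ℝ)..(1 / 2),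
            G k * (starRingEnd ℂ) (G l) * e (((l - k : ℤ) : ℝ) * ξ) =
            if l = k then G k * (starRingEnd ℂ) (G k) else 0 := by
          intro l _
          rw [intervalIntegral.integral_const_mul, PlA_int]
          by_cases hlk : l = k
          · rw [if_pos hlk, if_pos (sub_eq_zero.2 hlk), hlk, mul_one]
          · rw [if_neg hlk, if_neg (fun h => hlk (sub_eq_zero.1 h)), mul_zero]
        rw [Finset.sum_congr rfl h4, Finset.sum_ite_eq' S k, if_pos hk, Complex.mul_conj',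
          Complex.ofReal_pow]
      · intro l _
        exact (continuous_const.mul (hcont (l - k))).intervalIntegrable _ _
    · intro k _
      exact (continuous_finsetSum S fun l _ => continuous_const.mul (hcont (l - k))).intervalIntegrable _ _
  exact Complex.ofReal_injective h1

theorem planch {ι : Type*} (P : Finset ι) (ω : ι → ℝ) (hω : ∀ i ∈ P, 0 ≤ ω i) (f : ι → ℂ) (n : ι → ℤ)
    (h : ∀ ξ : ℝ, |ξ| ≤ 1 / 2 → 1 ≤ ∑ i ∈ P, ω i * ‖f i * e (-(n i * ξ)) - 1‖ ^ 2) (S : Finset ℤ) (F : ℤ → ℂ)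
    (hF : ∀ k, k ∉ S → F k = 0) :
    ∑ k ∈ S, ‖F k‖ ^ 2 ≤ ∑ i ∈ P, ω i * ∑ k ∈ S ∪ S.image (fun l => l + n i), ‖f i * F (k - n i) - F k‖ ^ 2 := by
  have hcont : ∀ (T : Finset ℤ) (H : ℤ → ℂ),
      Continuous fun ξ : ℝ => ‖∑ k ∈ T, H k * e (-(k * ξ))‖ ^ 2 := by
    intro T H
    exact ((continuous_finsetSum T fun k _ => continuous_const.mul
      (PlA_cont.comp (continuous_const.mul continuous_id).neg)).norm).pow 2
  have hkey : ∀ i ∈ P, ∀ ξ : ℝ,
      ∑ k ∈ S ∪ S.image (fun l => l + n i), (f i * F (k - n i) - F k) * e (-(k * ξ)) =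
        (f i * e (-(n i * ξ)) - 1) * ∑ k ∈ S, F k * e (-(k * ξ)) := by
    intro i _ ξ
    have h1 : ∑ k ∈ S, F k * e (-(k * ξ)) =
        ∑ k ∈ S ∪ S.image (fun l => l + n i), F k * e (-(k * ξ)) := by
      refine Finset.sum_subset Finset.subset_union_left fun k _ hk => ?_
      rw [hF k hk, zero_mul]
    have h2 : ∑ k ∈ S.image (fun l => l + n i), F (k - n i) * e (-(k * ξ)) =
        ∑ k ∈ S ∪ S.image (fun l => l + n i), F (k - n i) * e (-(k * ξ)) := by
      refine Finset.sum_subset Finset.subset_union_right fun k _ hk => ?_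
      have h3 : k - n i ∉ S := by
        intro h4
        exact hk (Finset.mem_image.2 ⟨k - n i, h4, by ring⟩)
      rw [hF _ h3, zero_mul]
    have h4 : ∑ k ∈ S.image (fun l => l + n i), F (k - n i) * e (-(k * ξ)) =
        e (-(n i * ξ)) * ∑ k ∈ S, F k * e (-(k * ξ)) := by
      rw [Finset.sum_image (fun a _ b _ hab => by simpa using hab), Finset.mul_sum]
      refine Finset.sum_congr rfl fun l _ => ?_
      have h5 : e (-(((l + n i : ℤ) : ℝ) * ξ)) = e (-(n i * ξ)) * e (-(l * ξ)) := by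
        rw [← Pool.Agent.Lib.MP_2a816b_nt.e_add]
        congr 1
        push_cast
        ring
      rw [h5, add_sub_cancel_right]
      ring
    have h6 : ∑ k ∈ S ∪ S.image (fun l => l + n i), (f i * F (k - n i) - F k) * e (-(k * ξ)) =
        f i * (∑ k ∈ S ∪ S.image (fun l => l + n i), F (k - n i) * e (-(k * ξ))) -
          ∑ k ∈ S ∪ S.image (fun l => l + n i), F k * e (-(k * ξ)) := by
      rw [Finset.mul_sum, ← Finset.sum_sub_distrib]
      refine Finset.sum_congr rfl fun k _ => ?_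
      ring
    rw [h6, ← h1, ← h2, h4]
    ring
  have hpt : ∀ ξ ∈ Set.Icc (-(1 / 2) : ℝ) (1 / 2), ‖∑ k ∈ S, F k * e (-(k * ξ))‖ ^ 2 ≤
      ∑ i ∈ P, ω i * ‖∑ k ∈ S ∪ S.image (fun l => l + n i),
        (f i * F (k - n i) - F k) * e (-(k * ξ))‖ ^ 2 := by
    intro ξ hξ
    have h1 := h ξ (abs_le.2 hξ)
    have h2 : ∑ i ∈ P, ω i * ‖∑ k ∈ S ∪ S.image (fun l => l + n i),
        (f i * F (k - n i) - F k) * e (-(k * ξ))‖ ^ 2 =
        (∑ i ∈ P, ω i * ‖f i * e (-(n i * ξ)) - 1‖ ^ 2) * ‖∑ k ∈ S, F k * e (-(k * ξ))‖ ^ 2 := by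
      rw [Finset.sum_mul]
      refine Finset.sum_congr rfl fun i hi => ?_
      rw [hkey i hi ξ, norm_mul, mul_pow, mul_assoc]
    rw [h2]
    exact le_mul_of_one_le_left (sq_nonneg _) h1
  have hle : (-(1 / 2) : ℝ) ≤ 1 / 2 := by norm_num
  have hc1 : Continuous fun ξ : ℝ => ∑ i ∈ P, ω i * ‖∑ k ∈ S ∪ S.image (fun l => l + n i),
        (f i * F (k - n i) - F k) * e (-(k * ξ))‖ ^ 2 := continuous_finsetSum P fun i _ =>
      continuous_const.mul (hcont (S ∪ S.image (fun l => l + n i)) (fun k => f i * F (k - n i) - F k))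
  have h3 := intervalIntegral.integral_mono_on (μ := MeasureTheory.volume) hle
    ((hcont S F).intervalIntegrable _ _) (hc1.intervalIntegrable _ _) hpt
  rw [parseval, intervalIntegral.integral_finsetSum] at h3
  refine h3.trans (le_of_eq (Finset.sum_congr rfl fun i _ => ?_))
  · rw [intervalIntegral.integral_const_mul]
    congr 1
    exact parseval (S ∪ S.image (fun l => l + n i)) (fun k => f i * F (k - n i) - F k)
  · intro i _
    exact (continuous_const.mul (hcont (S ∪ S.image (fun l => l + n i))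
      (fun k => f i * F (k - n i) - F k))).intervalIntegrable _ _

end Pool.Agent.Lib.MP_d57abb_nt.MR
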