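import Mathlib
import Pool.Agent.Lib.MP_d57abb_nt.MR.PlA

/-!
# JOB PlB: the window estimate

Let `I = Icc k₁ k₂`.  For `j ∈ U` put `F_j k = y j k` for `k ∈ I` and `0` otherwise.
PROOF.  `planch` for each `j` with the index set `P ⊕ Icc 1 H` (`Finset.disjSum`; or apply it to `Option`-like sum types; `ω = β ω_p`, `f = Fc j p`, `n = n p` for `p ∈ P`; `ω = 1/H`, `f = 1`, `n = h` for `h`)
and `S = I`.  Sum over `j`.
For a shift `n ≥ 0` and `‖f_j‖ ≤ 1`: `∑_j ∑_{k ∈ I ∪ (I + n)} ‖f_j F_j (k - n) - F_j k‖²` is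
`≤ ∑_{k ∈ I, k - n ∈ I} ∑_j ‖f_j y j (k - n) - y j k‖² + ∑_{k ∈ I, k - n ∉ I} ∑_j ‖y j k‖² + ∑_{k ∉ I, k - n ∈ I} ∑_j ‖y j (k - n)‖²`; the last two have at most `n` values of `k` each, every one
contributes `≤ C` (`ha`): `≤ 2 C n`.
* For `p ∈ P`: weights `β ω p`: total `≤ β (∑_{k ∈ I} ∑_p ω p ∑_j ‖Fc j p y j (k - n p) - y j k‖² + 2 C ∑_p ω p n p) ≤ β (C #I + 2 C M)` (`hb`, `hd`).
* For `h ∈ Icc 1 H`: weights `1 / H`: each `h` gives `≤ η #I + 2 C h ≤ η #I + 2 C H` (`hc`).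
-/

namespace Pool.Agent.Lib.MP_d57abb_nt.MR

open Finset
open Pool.Agent.Lib.MP_2a816b_nt (e)

private theorem PlB_shift (U : Finset ℤ) (f : ℤ → ℂ) (n : ℕ) (y : ℤ → ℤ → ℂ) (k₁ k₂ : ℤ) (C : ℝ) (hC : 0 ≤ C)
    (hf : ∀ j ∈ U, ‖f j‖ ≤ 1) (ha : ∀ k ∈ Icc k₁ k₂, ∑ j ∈ U, ‖y j k‖ ^ 2 ≤ C) :
    ∑ j ∈ U, ∑ k ∈ Icc k₁ k₂ ∪ (Icc k₁ k₂).image (fun l => l + (n : ℤ)),
      ‖f j * (if k - n ∈ Icc k₁ k₂ then y j (k - n) else 0) -
        (if k ∈ Icc k₁ k₂ then y j k else 0)‖ ^ 2 ≤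
      ∑ k ∈ (Icc k₁ k₂).filter (fun k : ℤ => k - (n : ℤ) ∈ Icc k₁ k₂),
        ∑ j ∈ U, ‖f j * y j (k - n) - y j k‖ ^ 2 + 2 * C * n := by
  rw [Finset.sum_comm]
  set R := Icc k₁ k₂ ∪ (Icc k₁ k₂).image (fun l => l + (n : ℤ)) with hR
  have h1 : ∀ k ∈ R, ∑ j ∈ U, ‖f j * (if k - n ∈ Icc k₁ k₂ then y j (k - n) else 0) -
        (if k ∈ Icc k₁ k₂ then y j k else 0)‖ ^ 2 ≤
      (if k ∈ Icc k₁ k₂ ∧ k - n ∈ Icc k₁ k₂ then ∑ j ∈ U, ‖f j * y j (k - n) - y j k‖ ^ 2 else 0) +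
      (if k ∈ Icc k₁ k₂ ∧ k - n ∉ Icc k₁ k₂ then C else 0) +
      (if k ∉ Icc k₁ k₂ ∧ k - n ∈ Icc k₁ k₂ then C else 0) := by
    intro k _
    by_cases a : k ∈ Icc k₁ k₂
    · by_cases b : k - n ∈ Icc k₁ k₂
      · rw [if_pos ⟨a, b⟩, if_neg (fun h => h.2 b), if_neg (fun h => h.1 a), add_zero, add_zero]
        simp only [if_pos a, if_pos b]
        exact le_rfl
      · rw [if_neg (fun h => b h.2), if_pos ⟨a, b⟩, if_neg (fun h => h.1 a), add_zero, zero_add]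
        simp only [if_pos a, if_neg b, mul_zero, zero_sub, norm_neg]
        exact ha k a
    · by_cases b : k - n ∈ Icc k₁ k₂
      · rw [if_neg (fun h => a h.1), if_neg (fun h => h.2 b), if_pos ⟨a, b⟩, add_zero, zero_add]
        simp only [if_neg a, if_pos b, sub_zero]
        refine le_trans (Finset.sum_le_sum fun j hj => ?_) (ha (k - n) b)
        rw [norm_mul]
        have h2 := hf j hj
        have h3 : ‖f j‖ * ‖y j (k - n)‖ ≤ ‖y j (k - n)‖ :=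
          mul_le_of_le_one_left (norm_nonneg _) h2
        exact pow_le_pow_left₀ (mul_nonneg (norm_nonneg _) (norm_nonneg _)) h3 2
      · rw [if_neg (fun h => a h.1), if_neg (fun h => a h.1), if_neg (fun h => b h.2), add_zero,
          add_zero]
        simp only [if_neg a, if_neg b, mul_zero, sub_zero, norm_zero]
        rw [zero_pow two_ne_zero, Finset.sum_const_zero]
  refine (Finset.sum_le_sum h1).trans ?_
  rw [Finset.sum_add_distrib, Finset.sum_add_distrib]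
  have e1 : ∑ k ∈ R, (if k ∈ Icc k₁ k₂ ∧ k - n ∈ Icc k₁ k₂ then
      ∑ j ∈ U, ‖f j * y j (k - n) - y j k‖ ^ 2 else 0) =
      ∑ k ∈ (Icc k₁ k₂).filter (fun k : ℤ => k - (n : ℤ) ∈ Icc k₁ k₂),
        ∑ j ∈ U, ‖f j * y j (k - n) - y j k‖ ^ 2 := by
    rw [← Finset.sum_filter]
    refine Finset.sum_congr ?_ fun _ _ => rfl
    ext k
    rw [Finset.mem_filter, Finset.mem_filter, hR, Finset.mem_union]
    tauto
  have e2 : ∑ k ∈ R, (if k ∈ Icc k₁ k₂ ∧ k - n ∉ Icc k₁ k₂ then C else 0) ≤ C * n := by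
    rw [← Finset.sum_filter, Finset.sum_const, nsmul_eq_mul, mul_comm]
    refine mul_le_mul_of_nonneg_left ?_ hC
    have h2 : R.filter (fun k => k ∈ Icc k₁ k₂ ∧ k - n ∉ Icc k₁ k₂) ⊆ Ico k₁ (k₁ + n) := by
      intro k hk
      rw [Finset.mem_filter] at hk
      obtain ⟨_, h3, h4⟩ := hk
      rw [Finset.mem_Icc] at h3 h4
      rw [Finset.mem_Ico]
      omega
    have h3 := Finset.card_le_card h2
    rw [Int.card_Ico] at h3
    have h4 : (R.filter (fun k => k ∈ Icc k₁ k₂ ∧ k - n ∉ Icc k₁ k₂)).card ≤ n := by omega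
    exact_mod_cast h4
  have e3 : ∑ k ∈ R, (if k ∉ Icc k₁ k₂ ∧ k - n ∈ Icc k₁ k₂ then C else 0) ≤ C * n := by
    rw [← Finset.sum_filter, Finset.sum_const, nsmul_eq_mul, mul_comm]
    refine mul_le_mul_of_nonneg_left ?_ hC
    have h2 : R.filter (fun k => k ∉ Icc k₁ k₂ ∧ k - n ∈ Icc k₁ k₂) ⊆ Ioc k₂ (k₂ + n) := by
      intro k hk
      rw [Finset.mem_filter] at hk
      obtain ⟨_, h3, h4⟩ := hk
      rw [Finset.mem_Icc] at h3 h4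
      rw [Finset.mem_Ioc]
      omega
    have h3 := Finset.card_le_card h2
    rw [Int.card_Ioc] at h3
    have h4 : (R.filter (fun k => k ∉ Icc k₁ k₂ ∧ k - n ∈ Icc k₁ k₂)).card ≤ n := by omega
    exact_mod_cast h4
  rw [e1]
  linarith

theorem window_est {ι : Type} (U : Finset ℤ) (P : Finset ι) (ω : ι → ℝ) (n : ι → ℕ) (Fc : ℤ → ι → ℂ) (y : ℤ → ℤ → ℂ)
    (k₁ k₂ : ℤ) (H : ℕ) (C β η M : ℝ) (hω : ∀ p ∈ P, 0 ≤ ω p) (hβ : 0 ≤ β) (hH : 1 ≤ H) (hF : ∀ j ∈ U, ∀ p ∈ P, ‖Fc j p‖ ≤ 1)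
    (hη : 0 ≤ η)
    (ha : ∀ k ∈ Icc k₁ k₂, ∑ j ∈ U, ‖y j k‖ ^ 2 ≤ C)
    (hb : ∀ k ∈ Icc k₁ k₂, ∑ p ∈ P, ω p * ∑ j ∈ U, ‖Fc j p * y j (k - n p) - y j k‖ ^ 2 ≤ C)
    (hc : ∀ k ∈ Icc k₁ k₂, ∀ h : ℕ, h ≤ H → k - h ∈ Icc k₁ k₂ → ∑ j ∈ U, ‖y j (k - h) - y j k‖ ^ 2 ≤ η)
    (hd : ∑ p ∈ P, ω p * n p ≤ M) (hC : 0 ≤ C)
    (he : ∀ j ∈ U, ∀ ξ : ℝ, |ξ| ≤ 1 / 2 → 1 ≤ β * ∑ p ∈ P, ω p * ‖Fc j p * e (-(n p * ξ)) - 1‖ ^ 2 +
      1 / H * ∑ h ∈ Icc 1 H, ‖e (-(h * ξ)) - 1‖ ^ 2) :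
    ∑ k ∈ Icc k₁ k₂, ∑ j ∈ U, ‖y j k‖ ^ 2 ≤
      β * (C * ((Icc k₁ k₂).card : ℝ) + 2 * C * M) + η * ((Icc k₁ k₂).card : ℝ) + 2 * C * H := by
  have hH0 : (0 : ℝ) < H := by exact_mod_cast hH
  have hpl : ∀ j ∈ U, ∑ k ∈ Icc k₁ k₂, ‖y j k‖ ^ 2 ≤
      (∑ p ∈ P, β * ω p * ∑ k ∈ Icc k₁ k₂ ∪ (Icc k₁ k₂).image (fun l => l + (n p : ℤ)),
        ‖Fc j p * (if k - n p ∈ Icc k₁ k₂ then y j (k - n p) else 0) -
          (if k ∈ Icc k₁ k₂ then y j k else 0)‖ ^ 2) +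
      ∑ h ∈ Icc 1 H, 1 / (H : ℝ) * ∑ k ∈ Icc k₁ k₂ ∪ (Icc k₁ k₂).image (fun l => l + (h : ℤ)),
        ‖1 * (if k - h ∈ Icc k₁ k₂ then y j (k - h) else 0) -
          (if k ∈ Icc k₁ k₂ then y j k else 0)‖ ^ 2 := by
    intro j hj
    have h1 := planch (P.disjSum (Icc 1 H)) (Sum.elim (fun p => β * ω p) (fun _ => 1 / (H : ℝ)))
      (by
        intro i hi
        rcases i with p | h
        · rw [Finset.inl_mem_disjSum] at hi
          exact mul_nonneg hβ (hω p hi)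
        · exact (div_pos one_pos hH0).le)
      (Sum.elim (fun p => Fc j p) (fun _ => 1))
      (Sum.elim (fun p => (n p : ℤ)) (fun h => (h : ℤ)))
      (by
        intro ξ hξ
        rw [Finset.sum_disjSum]
        simp only [Sum.elim_inl, Sum.elim_inr, Int.cast_natCast, one_mul, mul_assoc]
        rw [← Finset.mul_sum, ← Finset.mul_sum]
        exact he j hj ξ hξ)
      (Icc k₁ k₂) (fun k => if k ∈ Icc k₁ k₂ then y j k else 0)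
      (by
        intro k hk
        exact if_neg hk)
    rw [Finset.sum_disjSum] at h1
    simp only [Sum.elim_inl, Sum.elim_inr] at h1
    refine le_trans (le_of_eq ?_) h1
    refine Finset.sum_congr rfl fun k hk => ?_
    rw [if_pos hk]
  have h1 : ∑ k ∈ Icc k₁ k₂, ∑ j ∈ U, ‖y j k‖ ^ 2 ≤
      (∑ p ∈ P, β * ω p * ∑ j ∈ U, ∑ k ∈ Icc k₁ k₂ ∪ (Icc k₁ k₂).image (fun l => l + (n p : ℤ)),
        ‖Fc j p * (if k - n p ∈ Icc k₁ k₂ then y j (k - n p) else 0) -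
          (if k ∈ Icc k₁ k₂ then y j k else 0)‖ ^ 2) +
      ∑ h ∈ Icc 1 H, 1 / (H : ℝ) * ∑ j ∈ U,
        ∑ k ∈ Icc k₁ k₂ ∪ (Icc k₁ k₂).image (fun l => l + (h : ℤ)),
        ‖1 * (if k - h ∈ Icc k₁ k₂ then y j (k - h) else 0) -
          (if k ∈ Icc k₁ k₂ then y j k else 0)‖ ^ 2 := by
    rw [Finset.sum_comm]
    refine (Finset.sum_le_sum hpl).trans (le_of_eq ?_)
    rw [Finset.sum_add_distrib, Finset.sum_comm]
    congr 1
    · refine Finset.sum_congr rfl fun p _ => ?_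
      rw [Finset.mul_sum]
    · rw [Finset.sum_comm]
      refine Finset.sum_congr rfl fun h _ => ?_
      rw [Finset.mul_sum]
  have h2 : ∑ p ∈ P, β * ω p * ∑ j ∈ U,
      ∑ k ∈ Icc k₁ k₂ ∪ (Icc k₁ k₂).image (fun l => l + (n p : ℤ)),
        ‖Fc j p * (if k - n p ∈ Icc k₁ k₂ then y j (k - n p) else 0) -
          (if k ∈ Icc k₁ k₂ then y j k else 0)‖ ^ 2 ≤
      β * (C * ((Icc k₁ k₂).card : ℝ) + 2 * C * M) := by
    have h3 : ∀ p ∈ P, β * ω p * ∑ j ∈ U,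
        ∑ k ∈ Icc k₁ k₂ ∪ (Icc k₁ k₂).image (fun l => l + (n p : ℤ)),
        ‖Fc j p * (if k - n p ∈ Icc k₁ k₂ then y j (k - n p) else 0) -
          (if k ∈ Icc k₁ k₂ then y j k else 0)‖ ^ 2 ≤
        β * (ω p * ∑ k ∈ Icc k₁ k₂, ∑ j ∈ U, ‖Fc j p * y j (k - n p) - y j k‖ ^ 2) +
          β * (2 * C * (ω p * n p)) := by
      intro p hp
      have h4 := PlB_shift U (fun j => Fc j p) (n p) y k₁ k₂ C hC (fun j hj => hF j hj p hp) ha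
      have h5 : ∑ k ∈ (Icc k₁ k₂).filter (fun k : ℤ => k - (n p : ℤ) ∈ Icc k₁ k₂),
          ∑ j ∈ U, ‖Fc j p * y j (k - n p) - y j k‖ ^ 2 ≤
          ∑ k ∈ Icc k₁ k₂, ∑ j ∈ U, ‖Fc j p * y j (k - n p) - y j k‖ ^ 2 :=
        Finset.sum_le_sum_of_subset_of_nonneg (Finset.filter_subset _ _)
          (fun k _ _ => Finset.sum_nonneg fun j _ => sq_nonneg _)
      have h6 := mul_le_mul_of_nonneg_left (h4.trans (add_le_add_left h5 _))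
        (mul_nonneg hβ (hω p hp))
      refine h6.trans (le_of_eq ?_)
      ring
    refine (Finset.sum_le_sum h3).trans ?_
    rw [Finset.sum_add_distrib, ← Finset.mul_sum, ← Finset.mul_sum, ← mul_add]
    refine mul_le_mul_of_nonneg_left ?_ hβ
    rw [← Finset.mul_sum]
    have h4 : ∑ p ∈ P, ω p * ∑ k ∈ Icc k₁ k₂, ∑ j ∈ U, ‖Fc j p * y j (k - n p) - y j k‖ ^ 2 ≤
        C * ((Icc k₁ k₂).card : ℝ) := by
      have h5 : ∑ p ∈ P, ω p * ∑ k ∈ Icc k₁ k₂, ∑ j ∈ U, ‖Fc j p * y j (k - n p) - y j k‖ ^ 2 =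
          ∑ k ∈ Icc k₁ k₂, ∑ p ∈ P, ω p * ∑ j ∈ U, ‖Fc j p * y j (k - n p) - y j k‖ ^ 2 := by
        rw [Finset.sum_comm]
        refine Finset.sum_congr rfl fun p _ => ?_
        rw [Finset.mul_sum]
      rw [h5]
      refine (Finset.sum_le_sum hb).trans (le_of_eq ?_)
      rw [Finset.sum_const, nsmul_eq_mul, mul_comm]
    have h6 : 2 * C * ∑ p ∈ P, ω p * n p ≤ 2 * C * M :=
      mul_le_mul_of_nonneg_left hd (by linarith)
    linarith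
  have h3 : ∑ h ∈ Icc 1 H, 1 / (H : ℝ) * ∑ j ∈ U,
        ∑ k ∈ Icc k₁ k₂ ∪ (Icc k₁ k₂).image (fun l => l + (h : ℤ)),
        ‖1 * (if k - h ∈ Icc k₁ k₂ then y j (k - h) else 0) -
          (if k ∈ Icc k₁ k₂ then y j k else 0)‖ ^ 2 ≤
      η * ((Icc k₁ k₂).card : ℝ) + 2 * C * H := by
    have h4 : ∀ h ∈ Icc 1 H, 1 / (H : ℝ) * ∑ j ∈ U,
        ∑ k ∈ Icc k₁ k₂ ∪ (Icc k₁ k₂).image (fun l => l + (h : ℤ)),
        ‖1 * (if k - h ∈ Icc k₁ k₂ then y j (k - h) else 0) -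
          (if k ∈ Icc k₁ k₂ then y j k else 0)‖ ^ 2 ≤
        1 / (H : ℝ) * (η * ((Icc k₁ k₂).card : ℝ) + 2 * C * H) := by
      intro h hh
      rw [Finset.mem_Icc] at hh
      refine mul_le_mul_of_nonneg_left ?_ (div_pos one_pos hH0).le
      have h5 := PlB_shift U (fun _ => 1) h y k₁ k₂ C hC (fun j _ => by rw [norm_one]) ha
      refine h5.trans ?_
      have h6 : ∑ k ∈ (Icc k₁ k₂).filter (fun k : ℤ => k - (h : ℤ) ∈ Icc k₁ k₂),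
          ∑ j ∈ U, ‖1 * y j (k - h) - y j k‖ ^ 2 ≤ η * ((Icc k₁ k₂).card : ℝ) := by
        have h7 : ∀ k ∈ (Icc k₁ k₂).filter (fun k : ℤ => k - (h : ℤ) ∈ Icc k₁ k₂),
            ∑ j ∈ U, ‖1 * y j (k - h) - y j k‖ ^ 2 ≤ η := by
          intro k hk
          rw [Finset.mem_filter] at hk
          simp only [one_mul]
          exact hc k hk.1 h hh.2 hk.2
        refine (Finset.sum_le_sum h7).trans ?_
        rw [Finset.sum_const, nsmul_eq_mul, mul_comm]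
        refine mul_le_mul_of_nonneg_left ?_ hη
        exact_mod_cast Finset.card_filter_le _ _
      have h8 : (h : ℝ) ≤ H := by exact_mod_cast hh.2
      have h9 : 2 * C * (h : ℝ) ≤ 2 * C * H := mul_le_mul_of_nonneg_left h8 (by linarith)
      linarith
    refine (Finset.sum_le_sum h4).trans (le_of_eq ?_)
    rw [Finset.sum_const, Nat.card_Icc, Nat.add_sub_cancel, nsmul_eq_mul, ← mul_assoc,
      mul_one_div_cancel hH0.ne', one_mul]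
  linarith

end Pool.Agent.Lib.MP_d57abb_nt.MR
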