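import Mathlib
import Pool.Agent.Lib.MP_d57abb_nt.MR.DlA
import Pool.Agent.Lib.MP_d57abb_nt.MR.Tk

/-!
# JOB PlC: the pointwise lower bound on the frequency side

`H = ⌈h₀ K⌉₊ ≥ 1`, `h₀ K ≤ H`, `n_p = ⌊K log N p⌋₊`, `C` from `mass_le`.
* `|ξ| ≤ 1 / H`.  `τ = 2 π K ξ`, `|τ| ≤ 2 π K / H ≤ 2 π / h₀`.  `nit τ p = e (-(K ξ log N p))`, `|e x - e y| ≤ 2 π |x - y|`, so `‖e (-(n_p ξ)) - nit τ p‖ ≤ 2 π |ξ| ≤ 2 π / (h₀ K)`
  (`0 ≤ K log N p - n_p ≤ 1`, `N p ≥ 2`).  From `‖a‖² ≤ 2 ‖b‖² + 2 ‖a - b‖²`: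
  `‖Fp p * e (-(n_p ξ)) - 1‖² ≥ (1/2) ‖Fp p * nit τ p - 1‖² - (2 π / (h₀ K))²`.  Sum with weights `1 / N p`: `≥ B/2 - (2 π / (h₀ K))² mass (PP D z) ≥ B / 2 - (40 / (h₀ K)²) C (1 + K) ≥ B/2 - 1/4 ≥ B / 4` for
  `K ≥ K₀` (`mass_le`, `log z ≤ K`, `B ≥ 1`, `4 π² ≤ 40`).  Times `4 / B`: `≥ 1`; the other term is nonnegative.
* `1 / H < |ξ| ≤ 1/2`.  `‖e x - 1‖² = 2 - 2 Re (e x)`, so `(1/H) ∑_{h=1}^H ‖e (-(h ξ)) - 1‖² = 2 - (2/H) Re ∑_{h=1}^H e (-(h ξ))`, and the geometric sum satisfies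
  `‖∑_{h=1}^H e (-(h ξ))‖ ≤ 2 / ‖e (-ξ) - 1‖ = 1 / |sin (π ξ)| ≤ 1 / (2 |ξ|) < H / 2` (`Real.mul_le_sin`-type inequality: `sin (π x) ≥ 2 x` for `0 ≤ x ≤ 1/2`).  So the term is `≥ 1`.
-/

namespace Pool.Agent.Lib.MP_d57abb_nt.MR

open Finset
open Pool.Agent.Lib.MP_2a816b_nt (e)

open Pool.Agent.Lib.MP_2a816b_nt (norm_e e_add norm_e_sub_one nn norm_D_mul_nn e_zero)

private theorem PlC_lip (x y : ℝ) : ‖e x - e y‖ ≤ 2 * Real.pi * |x - y| := by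
  have h1 : e x - e y = e y * (e (x - y) - 1) := by
    rw [mul_sub, ← e_add, mul_one]
    have h2 : y + (x - y) = x := by ring
    rw [h2]
  rw [h1, norm_mul, norm_e, one_mul, norm_e_sub_one]
  have h3 : |Real.sin (Real.pi * (x - y))| ≤ |Real.pi * (x - y)| := Real.abs_sin_le_abs
  rw [abs_mul, abs_of_pos Real.pi_pos] at h3
  linarith

private theorem PlC_sq (w : ℂ) (hw : ‖w‖ = 1) : ‖w - 1‖ ^ 2 = 2 - 2 * w.re := by
  have h1 : ‖w‖ ^ 2 = w.re ^ 2 + w.im ^ 2 := by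
    rw [← Complex.normSq_eq_norm_sq, Complex.normSq_apply]
    ring
  have h2 : ‖w - 1‖ ^ 2 = (w.re - 1) ^ 2 + w.im ^ 2 := by
    rw [← Complex.normSq_eq_norm_sq, Complex.normSq_apply, Complex.sub_re, Complex.sub_im, Complex.one_re, Complex.one_im]
    ring
  rw [hw] at h1
  rw [h2]
  linarith

private theorem PlC_nn (x : ℝ) (hx : |x| ≤ 1 / 2) : |x| ≤ nn x := by
  unfold nn
  rcases eq_or_ne (round x) 0 with h | h
  · rw [h]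
    simp
  · have h1 : (1 : ℝ) ≤ |((round x : ℤ) : ℝ)| := by
      have h2 : (1 : ℤ) ≤ |round x| := Int.one_le_abs h
      have h3 : ((1 : ℤ) : ℝ) ≤ ((|round x| : ℤ) : ℝ) := by exact_mod_cast h2
      rw [Int.cast_abs] at h3
      simpa using h3
    have h4 : |((round x : ℤ) : ℝ)| - |x| ≤ |x - ((round x : ℤ) : ℝ)| := by
      rw [abs_sub_comm]
      exact abs_sub_abs_le_abs_sub _ _
    linarith

private theorem PlC_geom (H : ℕ) (ξ : ℝ) (hH : 1 ≤ H) (h1 : 1 / (H : ℝ) < |ξ|) (h2 : |ξ| ≤ 1 / 2) :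
    1 ≤ 1 / (H : ℝ) * ∑ h ∈ Icc 1 H, ‖e (-((h : ℝ) * ξ)) - 1‖ ^ 2 := by
  have hH0 : (0 : ℝ) < H := by exact_mod_cast hH
  have h3 : ∀ h ∈ Icc 1 H, ‖e (-((h : ℝ) * ξ)) - 1‖ ^ 2 = 2 - 2 * (e (-((h : ℝ) * ξ))).re :=
    fun h _ => PlC_sq _ (norm_e _)
  rw [Finset.sum_congr rfl h3, Finset.sum_sub_distrib, ← Finset.mul_sum, ← Complex.re_sum]
  have h4 : ∑ h ∈ Icc 1 H, e (-((h : ℝ) * ξ)) = e (-ξ) * Pool.Agent.Lib.MP_2a816b_nt.D H (-ξ) := by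
    unfold Pool.Agent.Lib.MP_2a816b_nt.D
    rw [Finset.mul_sum]
    have h5 : Icc 1 H = Ico (0 + 1) (H + 1) := by
      ext x
      simp only [mem_Icc, mem_Ico]
      omega
    rw [h5, ← Finset.sum_Ico_add' (fun h : ℕ => e (-((h : ℝ) * ξ))) 0 H 1, Finset.range_eq_Ico]
    refine Finset.sum_congr rfl fun u _ => ?_
    rw [← e_add]
    have h6 : -(((u + 1 : ℕ) : ℝ) * ξ) = -ξ + (u : ℝ) * -ξ := by
      push_cast
      ring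
    rw [h6]
  have h7 : ‖Pool.Agent.Lib.MP_2a816b_nt.D H (-ξ)‖ ≤ H / 2 := by
    have h8 := norm_D_mul_nn H (-ξ)
    have h9 : |ξ| ≤ nn (-ξ) := by
      have := PlC_nn (-ξ) (by rw [abs_neg]; exact h2)
      rwa [abs_neg] at this
    have h10 : 1 / (H : ℝ) < nn (-ξ) := lt_of_lt_of_le h1 h9
    have h11 : ‖Pool.Agent.Lib.MP_2a816b_nt.D H (-ξ)‖ * (2 * (1 / (H : ℝ))) ≤ 1 := by
      refine le_trans ?_ h8
      exact mul_le_mul_of_nonneg_left (by linarith) (norm_nonneg _)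
    have h12 : ‖Pool.Agent.Lib.MP_2a816b_nt.D H (-ξ)‖ * (2 * (1 / (H : ℝ))) = ‖Pool.Agent.Lib.MP_2a816b_nt.D H (-ξ)‖ * 2 / H := by
      ring
    rw [h12, div_le_iff₀ hH0] at h11
    linarith
  have h13 : (∑ h ∈ Icc 1 H, e (-((h : ℝ) * ξ))).re ≤ H / 2 := by
    refine (Complex.re_le_norm _).trans ?_
    rw [h4, norm_mul, norm_e, one_mul]
    exact h7
  have h14 : ∑ _h ∈ Icc 1 H, (2 : ℝ) = 2 * H := by
    rw [Finset.sum_const, Nat.card_Icc]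
    simp
    ring
  rw [h14, one_div, inv_mul_eq_div, le_div_iff₀ hH0]
  linarith

private theorem PlC_two {u v : ℂ} {δ : ℝ} (h : ‖u - v‖ ≤ δ) : ‖u‖ ^ 2 ≤ 2 * ‖v‖ ^ 2 + 2 * δ ^ 2 := by
  have h1 : ‖u‖ ≤ ‖v‖ + δ := by
    have h2 : u = v + (u - v) := by ring
    calc ‖u‖ = ‖v + (u - v)‖ := by rw [← h2]
      _ ≤ ‖v‖ + ‖u - v‖ := norm_add_le _ _
      _ ≤ ‖v‖ + δ := by linarith
  have h3 : ‖u‖ ^ 2 ≤ (‖v‖ + δ) ^ 2 := pow_le_pow_left₀ (norm_nonneg _) h1 2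
  nlinarith [sq_nonneg (‖v‖ - δ)]

theorem pw_lower (D : ℕ) {h₀ : ℝ} (h0 : 0 < h₀) (h1 : h₀ ≤ 1) : ∃ K₀ : ℕ, 1 ≤ K₀ ∧ ∀ K : ℕ, K₀ ≤ K → ∀ z : ℝ, 1 ≤ z →
    Real.log z ≤ K → ∀ (Fp : O → ℂ) (_ : ∀ p ∈ PP D z, ‖Fp p‖ ≤ 1) (B : ℝ), 1 ≤ B →
    (∀ τ : ℝ, |τ| ≤ 2 * Real.pi / h₀ → B ≤ ∑ p ∈ PP D z, 1 / (N p : ℝ) * ‖Fp p * nit τ p - 1‖ ^ 2) →
    ∀ ξ : ℝ, |ξ| ≤ 1 / 2 →
      1 ≤ 4 / B * ∑ p ∈ PP D z, 1 / (N p : ℝ) * ‖Fp p * e (-((⌊(K : ℝ) * Real.log (N p)⌋₊ : ℝ) * ξ)) - 1‖ ^ 2 +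
        1 / (⌈h₀ * K⌉₊ : ℝ) * ∑ h ∈ Icc 1 ⌈h₀ * K⌉₊, ‖e (-((h : ℝ) * ξ)) - 1‖ ^ 2 := by
  obtain ⟨C, hC, hm⟩ := mass_le D
  have hpi := Real.pi_pos
  refine ⟨max 1 ⌈320 * C / h₀ ^ 2⌉₊, le_max_left _ _, ?_⟩
  intro K hK z hz hlz Fp hFp B hB hτ ξ hξ
  have hK1 : 1 ≤ K := (le_max_left _ _).trans hK
  have hK1r : (1 : ℝ) ≤ K := by exact_mod_cast hK1
  have hK0r : (0 : ℝ) < K := by linarith
  have hK2 : 320 * C / h₀ ^ 2 ≤ K := by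
    refine (Nat.le_ceil _).trans ?_
    exact_mod_cast (le_max_right _ _).trans hK
  have hhK : 0 < h₀ * K := by positivity
  set H : ℕ := ⌈h₀ * K⌉₊ with hHdef
  have hHle : h₀ * K ≤ (H : ℝ) := Nat.le_ceil _
  have hH0 : (0 : ℝ) < H := lt_of_lt_of_le hhK hHle
  have hH1 : 1 ≤ H := by exact_mod_cast hH0
  have hpos1 : 0 ≤ ∑ p ∈ PP D z, 1 / (N p : ℝ) * ‖Fp p * e (-((⌊(K : ℝ) * Real.log (N p)⌋₊ : ℝ) * ξ)) - 1‖ ^ 2 := by
    refine Finset.sum_nonneg fun p hp => ?_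
    have h3 := (mem_PP.1 hp).1.1.tp.N_pos
    have h4 : (0 : ℝ) < (N p : ℝ) := by exact_mod_cast h3
    positivity
  have hpos2 : 0 ≤ 1 / (H : ℝ) * ∑ h ∈ Icc 1 H, ‖e (-((h : ℝ) * ξ)) - 1‖ ^ 2 := by positivity
  have hB0 : 0 < B := by linarith
  rcases le_or_gt |ξ| (1 / (H : ℝ)) with hc | hc
  · -- small frequencies
    have h5 := hτ (2 * Real.pi * K * ξ) (by
      rw [abs_mul, abs_of_pos (by positivity : 0 < 2 * Real.pi * (K : ℝ))]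
      calc 2 * Real.pi * K * |ξ| ≤ 2 * Real.pi * K * (1 / (H : ℝ)) := mul_le_mul_of_nonneg_left hc (by positivity)
        _ ≤ 2 * Real.pi * K * (1 / (h₀ * K)) :=
          mul_le_mul_of_nonneg_left (one_div_le_one_div_of_le hhK hHle) (by positivity)
        _ = 2 * Real.pi / h₀ := by field_simp)
    set δ : ℝ := 2 * Real.pi / (h₀ * K) with hδ
    have hδ0 : 0 ≤ δ := by positivity
    have h6 : ∀ p ∈ PP D z, 1 / (N p : ℝ) * ‖Fp p * nit (2 * Real.pi * K * ξ) p - 1‖ ^ 2 ≤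
        2 * (1 / (N p : ℝ) * ‖Fp p * e (-((⌊(K : ℝ) * Real.log (N p)⌋₊ : ℝ) * ξ)) - 1‖ ^ 2) +
          2 * δ ^ 2 * (1 / (N p : ℝ)) := by
      intro p hp
      have h3 : 1 ≤ N p := (mem_PP.1 hp).1.1.tp.N_pos
      have h4 : (1 : ℝ) ≤ (N p : ℝ) := by exact_mod_cast h3
      have h40 : (0 : ℝ) < (N p : ℝ) := by linarith
      have hlog : 0 ≤ Real.log (N p) := Real.log_nonneg h4
      have h7 : nit (2 * Real.pi * K * ξ) p = e (-((K : ℝ) * Real.log (N p) * ξ)) := by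
        unfold nit
        have h8 : 2 * Real.pi * K * ξ * Real.log (N p) / (2 * Real.pi) = (K : ℝ) * Real.log (N p) * ξ := by
          field_simp
        rw [h8]
      rw [h7]
      set x : ℝ := (K : ℝ) * Real.log (N p) with hx
      have hx0 : 0 ≤ x := by positivity
      have h9 : (⌊x⌋₊ : ℝ) ≤ x := Nat.floor_le hx0
      have h10 : x < (⌊x⌋₊ : ℝ) + 1 := Nat.lt_floor_add_one x
      have h11 : ‖(Fp p * e (-(x * ξ)) - 1) - (Fp p * e (-((⌊x⌋₊ : ℝ) * ξ)) - 1)‖ ≤ δ := by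
        have h12 : (Fp p * e (-(x * ξ)) - 1) - (Fp p * e (-((⌊x⌋₊ : ℝ) * ξ)) - 1) =
            Fp p * (e (-(x * ξ)) - e (-((⌊x⌋₊ : ℝ) * ξ))) := by ring
        rw [h12, norm_mul]
        have h13 := PlC_lip (-(x * ξ)) (-((⌊x⌋₊ : ℝ) * ξ))
        have h14 : -(x * ξ) - -((⌊x⌋₊ : ℝ) * ξ) = -((x - (⌊x⌋₊ : ℝ)) * ξ) := by ring
        rw [h14, abs_neg, abs_mul, abs_of_nonneg (by linarith : 0 ≤ x - (⌊x⌋₊ : ℝ))] at h13
        have h15 : (x - (⌊x⌋₊ : ℝ)) * |ξ| ≤ 1 * |ξ| := mul_le_mul_of_nonneg_right (by linarith) (abs_nonneg _)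
        have h16 : |ξ| ≤ 1 / (h₀ * K) := hc.trans (one_div_le_one_div_of_le hhK hHle)
        have h17 : ‖e (-(x * ξ)) - e (-((⌊x⌋₊ : ℝ) * ξ))‖ ≤ δ := by
          refine h13.trans ?_
          calc 2 * Real.pi * ((x - (⌊x⌋₊ : ℝ)) * |ξ|) ≤ 2 * Real.pi * (1 / (h₀ * K)) :=
              mul_le_mul_of_nonneg_left (by linarith) (by positivity)
            _ = δ := by rw [hδ]; ring
        calc ‖Fp p‖ * ‖e (-(x * ξ)) - e (-((⌊x⌋₊ : ℝ) * ξ))‖ ≤ 1 * δ :=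
            mul_le_mul (hFp p hp) h17 (norm_nonneg _) (by norm_num)
          _ = δ := one_mul δ
      have h18 := PlC_two h11
      have h19 : 0 ≤ 1 / (N p : ℝ) := by positivity
      calc 1 / (N p : ℝ) * ‖Fp p * e (-(x * ξ)) - 1‖ ^ 2 ≤
          1 / (N p : ℝ) * (2 * ‖Fp p * e (-((⌊x⌋₊ : ℝ) * ξ)) - 1‖ ^ 2 + 2 * δ ^ 2) :=
            mul_le_mul_of_nonneg_left h18 h19
        _ = _ := by ring
    have h20 := h5.trans (Finset.sum_le_sum h6)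
    rw [Finset.sum_add_distrib, ← Finset.mul_sum, ← Finset.mul_sum] at h20
    have h21 : ∑ p ∈ PP D z, 1 / (N p : ℝ) = mass (PP D z) := rfl
    rw [h21] at h20
    have h22 : mass (PP D z) ≤ C * (1 + K) := by
      refine (hm z hz).trans ?_
      exact mul_le_mul_of_nonneg_left (by linarith) (by linarith)
    have h23 : 2 * δ ^ 2 * mass (PP D z) ≤ 1 / 2 := by
      have h24 : δ ^ 2 ≤ 40 / (h₀ * K) ^ 2 := by
        rw [hδ, div_pow]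
        refine div_le_div_of_nonneg_right ?_ (by positivity)
        have h25 := Real.pi_lt_d2
        nlinarith
      have h26 : mass (PP D z) ≤ C * (2 * K) := h22.trans (mul_le_mul_of_nonneg_left (by linarith) (by linarith))
      have h27 : 0 ≤ C * (2 * (K : ℝ)) := by positivity
      have h28 : 320 * C ≤ K * h₀ ^ 2 := by
        rw [div_le_iff₀ (by positivity)] at hK2
        exact hK2
      calc 2 * δ ^ 2 * mass (PP D z) ≤ 2 * δ ^ 2 * (C * (2 * K)) := mul_le_mul_of_nonneg_left h26 (by positivity)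
        _ ≤ 2 * (40 / (h₀ * K) ^ 2) * (C * (2 * K)) :=
          mul_le_mul_of_nonneg_right (by linarith) h27
        _ = 160 * C / (K * h₀ ^ 2) := by
          field_simp
          ring
        _ ≤ 1 / 2 := by
          rw [div_le_iff₀ (by positivity)]
          linarith
    have h29 : B / 4 ≤ ∑ p ∈ PP D z, 1 / (N p : ℝ) * ‖Fp p * e (-((⌊(K : ℝ) * Real.log (N p)⌋₊ : ℝ) * ξ)) - 1‖ ^ 2 := by
      linarith
    have h30 : 4 / B * (B / 4) = 1 := by field_simp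
    have h31 := mul_le_mul_of_nonneg_left h29 (by positivity : 0 ≤ 4 / B)
    rw [h30] at h31
    linarith
  · have h32 := PlC_geom H ξ hH1 hc hξ
    have h33 := mul_nonneg (by positivity : 0 ≤ 4 / B) hpos1
    linarith

end Pool.Agent.Lib.MP_d57abb_nt.MR
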