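import Mathlib
import Pool.Agent.Lib.MP_d57abb_nt.MR.PlB
import Pool.Agent.Lib.MP_d57abb_nt.MR.PlC
import Pool.Agent.Lib.MP_d57abb_nt.MR.DlC
import Pool.Agent.Lib.MP_d57abb_nt.MR.BsB

/-!
# JOB PlD: the average over a window

Notation: `L = log X`, `K = ⌈L⌉₊`, `L ≤ K ≤ L + 1`, `Y k = exp (k / K)`, `I = wnd w X`.  `C` is the constant of `hE`, `C₄` the one of `mass_le`.
For `X` large: `k ∈ I` gives `X^(9/10) ≤ Y k ≤ X` (`(1 - 2w) K L - 2 ≥ (1 - 3 w) K L`), and `#I ≤ w K L + 4 ≤ 2 w K L`.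
PARAMETERS.  `C' = 2 C + 12 C C₄ + C`, `h₀ = min (1/4) (ε / (30 C))`, `B = max 1 (64 C' / ε)`, `ρ = min w s`, `z = X^ρ ≤ X^s`, `T = 2 π / h₀`, `P = PP D z`, `ω p = 1 / N p`, `n p = ⌊K log N p⌋₊`,
`Fc j p = F j p`, `y j k = c j (Y k)`, `H = ⌈h₀ K⌉₊`, `β = 4 / B`.  Apply `window_est` with the constant `C'` in the place of `C`:
* `ha`: `hE.bound`.
* `hb`: for `p ∈ P`: `Y k / N p ≤ exp ((k - n p) / K) ≤ e^(1/K) Y k / N p` (`n p ≤ K log N p < n p + 1`).  `hE.shift` (`Y := Y k / N p ≥ X^(9/10 - ..)`: precisely `Y k ≥ X^(1 - 3w)`, `N p ≤ X^w`, so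
  `Y ≥ X^(9/10) ≥ X^(4/5)`; `Y' ≤ X`; `δ = 2 / K ≤ 1`, `e^(1/K) ≤ 1 + 2/K`): `∑_j ‖c j (exp ((k - n p)/K)) - c j (Y k / N p)‖² ≤ C (2 / K + X^(-1/5)) ≤ 3 C / K` for `X` large.
  So `∑_p ω p ∑_j ‖F c j (exp ((k - n p)/K)) - c j (Y k)‖² ≤ 2 * (hE.defect) + 2 * (3 C / K) mass P ≤ 2 C + (6 C / K) C₄ (1 + log z) ≤ 2 C + 12 C C₄ ≤ C'` (`log z ≤ K`).
* `hc`: `k, k - h ∈ I`, `h ≤ H ≤ h₀ K + 1 ≤ 2 h₀ K`: `e^(h/K) ≤ 1 + 4 h₀`; `hE.shift` with `δ = 4 h₀ ≤ 1`: `≤ C (4 h₀ + X^(-1/5)) ≤ 5 C h₀ =: η` for `X` large.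
* `hd`: `∑ n p / N p ≤ K ∑ log N p / N p ≤ K (2 ρ L + 16) ≤ 3 w K L =: M` (`sum_log_PP`, `16 ≤ w L`).
* `he`: `pw_lower` with `Fp = F j` and `DL d h T B ρ`.
CONCLUSION: `∑ ≤ (4/B)(C' 2 w K L + 6 C' w K L) + 5 C h₀ 2 w K L + 2 C' (h₀ K + 1) ≤ w K L (32 C' / B + 10 C h₀ + ε / 6) ≤ ε w K L`, since `32 C' / B ≤ ε / 2`, `10 C h₀ ≤ ε / 3`
and `2 C' (h₀ K + 1) ≤ (ε / 6) w K L` for `X` large.
-/

namespace Pool.Agent.Lib.MP_d57abb_nt.MR

open Finset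

/-- the window -/
noncomputable def wnd (w X : ℝ) : Finset ℤ :=
  Icc (⌈(1 - 2 * w) * (⌈Real.log X⌉₊ * Real.log X)⌉ - 2) ⌊(1 - w) * (⌈Real.log X⌉₊ * Real.log X)⌋

private theorem PlD_exp {x : ℝ} (h0 : 0 ≤ x) (h1 : x ≤ 1) : Real.exp x ≤ 1 + 2 * x := by
  have h := Real.abs_exp_sub_one_sub_id_le (x := x) (by rw [abs_of_nonneg h0]; exact h1)
  have h2 := (abs_le.1 h).2
  have h3 : x ^ 2 ≤ x := by
    have := mul_le_mul_of_nonneg_left h1 h0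
    have e1 : x ^ 2 = x * x := by ring
    rw [e1]
    linarith
  linarith

private theorem PlD_inv {L K : ℝ} (hL : 40 ≤ L) (hK0 : 0 < K) (hK : K ≤ L + 1) {a : ℝ} (ha : 4 / 5 * L ≤ a) :
    Real.exp a ^ (-(1 / 4) : ℝ) ≤ 1 / K := by
  rw [← Real.exp_mul]
  have h1 : a * (-(1 / 4)) ≤ -(L / 5) := by linarith
  have h2 : Real.exp (a * (-(1 / 4))) ≤ Real.exp (-(L / 5)) := Real.exp_le_exp.2 h1
  have h3 : K ≤ Real.exp (L / 5) := by
    have h4 := Real.quadratic_le_exp_of_nonneg (by linarith : 0 ≤ L / 5)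
    have h5 : 40 * L ≤ L * L := mul_le_mul_of_nonneg_right hL (by linarith)
    have e1 : (L / 5) ^ 2 / 2 = L * L / 50 := by ring
    rw [e1] at h4
    linarith
  rw [Real.exp_neg, ← one_div] at h2
  exact h2.trans (one_div_le_one_div_of_le hK0 h3)

/-- the shift estimate on the logarithmic scale -/
private theorem PlD_shift {d : Dat} {s C X₀ : ℝ} (hE : Est d s C X₀) {L K : ℝ} (hL : 40 ≤ L) (hK0 : 0 < K)
    (hK : K ≤ L + 1) (hX : X₀ ≤ Real.exp L) {U : Finset ℤ} (hU : ∀ j ∈ U, |(j : ℝ)| ≤ Real.exp L)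
    (hUc : (U.card : ℝ) ≤ Real.exp L ^ s) {a b δ : ℝ} (ha : 4 / 5 * L ≤ a) (hab : a ≤ b) (hb : b ≤ L)
    (hδ : b - a ≤ δ) (hδ1 : δ ≤ 1 / 2) :
    ∑ j ∈ U, ‖d.c j (Real.exp b) - d.c j (Real.exp a)‖ ^ 2 ≤ C * (2 * δ + 1 / K) := by
  have h0 : 0 ≤ b - a := by linarith
  have g1 : Real.exp L ^ (4 / 5 : ℝ) ≤ Real.exp a := by
    rw [← Real.exp_mul]
    exact Real.exp_le_exp.2 (by linarith)
  have g2 : Real.exp b ≤ (1 + 2 * δ) * Real.exp a := by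
    have e1 : Real.exp b = Real.exp (b - a) * Real.exp a := by
      rw [← Real.exp_add, sub_add_cancel]
    rw [e1]
    refine mul_le_mul_of_nonneg_right ?_ (Real.exp_pos _).le
    exact (PlD_exp h0 (by linarith)).trans (by linarith)
  have h := hE.shift (Real.exp L) hX U hU hUc (Real.exp a) (Real.exp b) (2 * δ) g1 (Real.exp_le_exp.2 hab)
    (Real.exp_le_exp.2 hb) g2 (by linarith)
  refine h.trans (mul_le_mul_of_nonneg_left ?_ (by linarith [hE.C1]))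
  linarith [PlD_inv hL hK0 hK ha]

private theorem PlD_sq (x y : ℂ) : ‖x + y‖ ^ 2 ≤ 2 * ‖x‖ ^ 2 + 2 * ‖y‖ ^ 2 := by
  have h1 := norm_add_le x y
  have h2 := pow_le_pow_left₀ (norm_nonneg _) h1 2
  have h3 := sq_nonneg (‖x‖ - ‖y‖)
  have e1 : (‖x‖ + ‖y‖) ^ 2 = 2 * ‖x‖ ^ 2 + 2 * ‖y‖ ^ 2 - (‖x‖ - ‖y‖) ^ 2 := by ring
  linarith

private theorem PlD_b {d : Dat} {s C X₀ : ℝ} (hE : Est d s C X₀) {L K : ℝ} (hL : 40 ≤ L) (hLK : L ≤ K)
    (hK : K ≤ L + 1) (hX : X₀ ≤ Real.exp L) {U : Finset ℤ} (hU : ∀ j ∈ U, |(j : ℝ)| ≤ Real.exp L)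
    (hUc : (U.card : ℝ) ≤ Real.exp L ^ s) {ρ κ C₄ : ℝ} (hρ0 : 0 < ρ) (hρs : ρ ≤ s) (hρw : ρ ≤ 1 / 40)
    (hκ : 37 / 40 * L ≤ κ) (hκL : κ ≤ L) (hC4 : 1 ≤ C₄)
    (hm : mass (PP d.D (Real.exp L ^ ρ)) ≤ C₄ * (1 + Real.log (Real.exp L ^ ρ))) :
    ∑ p ∈ PP d.D (Real.exp L ^ ρ), 1 / (N p : ℝ) * ∑ j ∈ U,
      ‖d.F j p * d.c j (Real.exp (κ - (⌊K * Real.log (N p)⌋₊ : ℝ) / K)) - d.c j (Real.exp κ)‖ ^ 2 ≤
      2 * C + 12 * C * C₄ := by
  have hC1 := hE.C1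
  have hK0 : 0 < K := by linarith
  have hlz : Real.log (Real.exp L ^ ρ) = L * ρ := by rw [← Real.exp_mul, Real.log_exp]
  have hz1 : 1 ≤ Real.exp L ^ ρ := by
    rw [← Real.exp_mul]
    exact Real.one_le_exp (by positivity)
  have hzs : Real.exp L ^ ρ ≤ Real.exp L ^ s := by
    rw [← Real.exp_mul, ← Real.exp_mul]
    exact Real.exp_le_exp.2 (mul_le_mul_of_nonneg_left hρs (by linarith))
  have hY9 : Real.exp L ^ (9 / 10 : ℝ) ≤ Real.exp κ := by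
    rw [← Real.exp_mul]
    exact Real.exp_le_exp.2 (by linarith)
  have hdef := hE.defect (Real.exp L) hX U hU hUc (Real.exp L ^ ρ) (Real.exp κ) hz1 hzs hY9 (Real.exp_le_exp.2 hκL)
  have hLρ : L * ρ ≤ L * (1 / 40) := mul_le_mul_of_nonneg_left hρw (by linarith)
  have hterm : ∀ p ∈ PP d.D (Real.exp L ^ ρ), 1 / (N p : ℝ) * ∑ j ∈ U,
      ‖d.F j p * d.c j (Real.exp (κ - (⌊K * Real.log (N p)⌋₊ : ℝ) / K)) - d.c j (Real.exp κ)‖ ^ 2 ≤
      6 * C / K * (1 / (N p : ℝ)) + 2 * (1 / (N p : ℝ) * ∑ j ∈ U,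
        ‖d.F j p * d.c j (Real.exp κ / N p) - d.c j (Real.exp κ)‖ ^ 2) := by
    intro p hp
    rw [mem_PP] at hp
    obtain ⟨hd, hpz⟩ := hp
    have hN2 : (2 : ℝ) ≤ N p := by exact_mod_cast hd.two_le
    have hN0 : (0 : ℝ) < N p := by linarith
    have hlog0 : 0 ≤ Real.log (N p) := Real.log_nonneg (by linarith)
    have hlogz : Real.log (N p) ≤ L * ρ := by
      rw [← hlz]
      exact Real.log_le_log hN0 hpz
    have hf1 : (⌊K * Real.log (N p)⌋₊ : ℝ) ≤ K * Real.log (N p) := Nat.floor_le (by positivity)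
    have hf2 : K * Real.log (N p) < (⌊K * Real.log (N p)⌋₊ : ℝ) + 1 := Nat.lt_floor_add_one _
    have hf0 : (0 : ℝ) ≤ (⌊K * Real.log (N p)⌋₊ : ℝ) := Nat.cast_nonneg _
    generalize (⌊K * Real.log (N p)⌋₊ : ℝ) = m at hf0 hf1 hf2
    have hm0 : 0 ≤ m / K := div_nonneg hf0 hK0.le
    have hm1 : m / K ≤ Real.log (N p) := by
      rw [div_le_iff₀ hK0]
      linarith
    have hm2 : Real.log (N p) ≤ m / K + 1 / K := by
      rw [← add_div, le_div_iff₀ hK0]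
      linarith
    have e1 : Real.exp κ / N p = Real.exp (κ - Real.log (N p)) := by
      rw [Real.exp_sub, Real.exp_log hN0]
    have hK40 : 1 / K ≤ 1 / 2 := one_div_le_one_div_of_le two_pos (by linarith)
    have hsh := PlD_shift hE hL hK0 hK hX hU hUc (a := κ - Real.log (N p)) (b := κ - m / K) (δ := 1 / K)
      (by linarith) (by linarith) (by linarith) (by linarith) hK40
    have hsum : ∑ j ∈ U, ‖d.F j p * d.c j (Real.exp (κ - m / K)) - d.c j (Real.exp κ)‖ ^ 2 ≤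
        2 * ∑ j ∈ U, ‖d.c j (Real.exp (κ - m / K)) - d.c j (Real.exp (κ - Real.log (N p)))‖ ^ 2 +
        2 * ∑ j ∈ U, ‖d.F j p * d.c j (Real.exp κ / N p) - d.c j (Real.exp κ)‖ ^ 2 := by
      rw [Finset.mul_sum, Finset.mul_sum, ← Finset.sum_add_distrib]
      refine Finset.sum_le_sum (fun j _ => ?_)
      have h1 := PlD_sq (d.F j p * (d.c j (Real.exp (κ - m / K)) - d.c j (Real.exp (κ - Real.log (N p)))))
        (d.F j p * d.c j (Real.exp κ / N p) - d.c j (Real.exp κ))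
      rw [norm_mul (d.F j p), norm_F d j hd, one_mul] at h1
      have e2 : d.F j p * (d.c j (Real.exp (κ - m / K)) - d.c j (Real.exp (κ - Real.log (N p)))) +
          (d.F j p * d.c j (Real.exp κ / N p) - d.c j (Real.exp κ)) =
          d.F j p * d.c j (Real.exp (κ - m / K)) - d.c j (Real.exp κ) := by
        rw [e1]
        ring
      rwa [e2] at h1
    have hN1 : 0 ≤ 1 / (N p : ℝ) := by positivity
    have h3 := mul_le_mul_of_nonneg_left (hsum.trans (add_le_add_left (mul_le_mul_of_nonneg_left hsh (by norm_num : (0 : ℝ) ≤ 2)) _)) hN1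
    refine h3.trans (le_of_eq ?_)
    ring
  refine (Finset.sum_le_sum hterm).trans ?_
  rw [Finset.sum_add_distrib, ← Finset.mul_sum, ← Finset.mul_sum]
  have hm' : ∑ p ∈ PP d.D (Real.exp L ^ ρ), 1 / (N p : ℝ) ≤ C₄ * (2 * K) := by
    refine (show ∑ p ∈ PP d.D (Real.exp L ^ ρ), 1 / (N p : ℝ) ≤ _ from hm).trans ?_
    rw [hlz]
    exact mul_le_mul_of_nonneg_left (by linarith) (by linarith)
  have h5 : 6 * C / K * ∑ p ∈ PP d.D (Real.exp L ^ ρ), 1 / (N p : ℝ) ≤ 6 * C / K * (C₄ * (2 * K)) :=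
    mul_le_mul_of_nonneg_left hm' (by positivity)
  have e3 : 6 * C / K * (C₄ * (2 * K)) = 12 * C * C₄ := by
    field_simp
    ring
  rw [e3] at h5
  linarith

theorem large_avg (d : Dat) (h : NP d) {s C X₀ : ℝ} (hE : Est d s C X₀) {ε w : ℝ} (hε : 0 < ε) (hw : 0 < w) (hw1 : w ≤ 1 / 40) :
    ∃ X₁ : ℝ, 3 ≤ X₁ ∧ ∀ X : ℝ, X₁ ≤ X → ∀ U : Finset ℤ, (∀ j ∈ U, |(j : ℝ)| ≤ X) → (U.card : ℝ) ≤ X ^ s →
      ∑ k ∈ wnd w X, ∑ j ∈ U, ‖d.c j (Real.exp (k / ⌈Real.log X⌉₊))‖ ^ 2 ≤ ε * (w * (⌈Real.log X⌉₊ * Real.log X)) := by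
  obtain ⟨C₄, hC4, hmass⟩ := mass_le d.D
  have hC1 := hE.C1
  have hs0 := hE.s0
  have hC0 : 0 < C := by linarith
  obtain ⟨h₀, hh₀⟩ : ∃ h₀ : ℝ, h₀ = min (1 / 4) (ε / (30 * C)) := ⟨_, rfl⟩
  have h00 : 0 < h₀ := by
    rw [hh₀]
    exact lt_min (by norm_num) (by positivity)
  have h04 : h₀ ≤ 1 / 4 := by rw [hh₀]; exact min_le_left _ _
  have h0C : 10 * C * h₀ ≤ ε / 3 := by
    have h1 : h₀ ≤ ε / (30 * C) := by rw [hh₀]; exact min_le_right _ _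
    rw [le_div_iff₀ (by positivity)] at h1
    linarith
  obtain ⟨C', hC'⟩ : ∃ C' : ℝ, C' = 2 * C + 12 * C * C₄ + C := ⟨_, rfl⟩
  have hCC4 : 0 ≤ C * C₄ := by positivity
  have hC'C : C ≤ C' := by linarith
  have hC'b : 2 * C + 12 * C * C₄ ≤ C' := by linarith
  have hC'0 : 0 < C' := by linarith
  obtain ⟨B, hB⟩ : ∃ B : ℝ, B = max 1 (64 * C' / ε) := ⟨_, rfl⟩
  have hB1 : 1 ≤ B := by rw [hB]; exact le_max_left _ _
  have hB0 : 0 < B := by linarith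
  have hBC : 32 * C' / B ≤ ε / 2 := by
    have h1 : 64 * C' / ε ≤ B := by rw [hB]; exact le_max_right _ _
    rw [div_le_iff₀ hε] at h1
    rw [div_le_iff₀ hB0]
    linarith
  obtain ⟨ρ, hρ⟩ : ∃ ρ : ℝ, ρ = min w s := ⟨_, rfl⟩
  have hρ0 : 0 < ρ := by rw [hρ]; exact lt_min hw hs0
  have hρw : ρ ≤ w := by rw [hρ]; exact min_le_left _ _
  have hρs : ρ ≤ s := by rw [hρ]; exact min_le_right _ _
  obtain ⟨XD, hXD1, hDL⟩ := DL d h (2 * Real.pi / h₀) B ρ hρ0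
  obtain ⟨K₀, hK01, hpw⟩ := pw_lower d.D h00 (by linarith : h₀ ≤ 1)
  have q1 : 0 < 16 / w := by positivity
  have q2 : (0 : ℝ) ≤ K₀ := Nat.cast_nonneg _
  have q3 : 0 < 1 / h₀ := by positivity
  have q4 : 0 < 6 * C' / (ε * w) := by positivity
  refine ⟨max (max X₀ XD) (max 3 (Real.exp (40 + 16 / w + K₀ + 1 / h₀ + 6 * C' / (ε * w)))),
    (le_max_left _ _).trans (le_max_right _ _), ?_⟩
  intro X hX U hU hUc
  have hX3 : 3 ≤ X := ((le_max_left _ _).trans (le_max_right _ _)).trans hX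
  have hXX0 : X₀ ≤ X := ((le_max_left _ _).trans (le_max_left _ _)).trans hX
  have hXXD : XD ≤ X := ((le_max_right _ _).trans (le_max_left _ _)).trans hX
  have hXe : Real.exp (40 + 16 / w + K₀ + 1 / h₀ + 6 * C' / (ε * w)) ≤ X :=
    ((le_max_right _ _).trans (le_max_right _ _)).trans hX
  clear hX
  obtain ⟨L, rfl⟩ : ∃ L, X = Real.exp L := ⟨Real.log X, (Real.exp_log (by linarith)).symm⟩
  rw [Real.exp_le_exp] at hXe
  unfold wnd
  simp only [Real.log_exp]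
  have hL40 : 40 ≤ L := by linarith
  have hLw : 16 ≤ w * L := by
    have h1 : 16 / w ≤ L := by linarith
    rw [div_le_iff₀ hw] at h1
    linarith
  have hLh : 1 ≤ h₀ * L := by
    have h1 : 1 / h₀ ≤ L := by linarith
    rw [div_le_iff₀ h00] at h1
    linarith
  have hLC : 6 * C' ≤ ε * w * L := by
    have h1 : 6 * C' / (ε * w) ≤ L := by linarith
    rw [div_le_iff₀ (by positivity)] at h1
    linarith
  have hKL : L ≤ (⌈L⌉₊ : ℝ) := Nat.le_ceil L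
  have hKL' : (⌈L⌉₊ : ℝ) ≤ L + 1 := (Nat.ceil_lt_add_one (by linarith)).le
  generalize ⌈L⌉₊ = K at hKL hKL' ⊢
  have hK0 : (0 : ℝ) < K := by linarith
  have hK1 : (1 : ℝ) ≤ K := by linarith
  have hKK0 : K₀ ≤ K := by
    have : (K₀ : ℝ) ≤ K := by linarith
    exact_mod_cast this
  have hL0 : 0 < L := by linarith
  have hwKL : 16 * (K : ℝ) ≤ w * (K * L) := by
    have h1 := mul_le_mul_of_nonneg_left hLw hK0.le
    have e1 : w * ((K : ℝ) * L) = K * (w * L) := by ring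
    rw [e1]
    linarith
  -- the window
  have hwin : ∀ k ∈ Icc (⌈(1 - 2 * w) * ((K : ℝ) * L)⌉ - 2) ⌊(1 - w) * ((K : ℝ) * L)⌋,
      37 / 40 * L ≤ (k : ℝ) / K ∧ (k : ℝ) / K ≤ L := by
    intro k hk
    rw [Finset.mem_Icc] at hk
    have h1 : (1 - 2 * w) * ((K : ℝ) * L) - 2 ≤ k := by
      have h2 := Int.le_ceil ((1 - 2 * w) * ((K : ℝ) * L))
      have h3 : ((⌈(1 - 2 * w) * ((K : ℝ) * L)⌉ - 2 : ℤ) : ℝ) ≤ k := by exact_mod_cast hk.1
      push_cast at h3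
      linarith
    have h2 : (k : ℝ) ≤ (1 - w) * ((K : ℝ) * L) := Int.le_floor.1 hk.2
    have hKL0 : 0 ≤ (K : ℝ) * L := by positivity
    constructor
    · rw [le_div_iff₀ hK0]
      have h3 : w * ((K : ℝ) * L) ≤ 1 / 40 * (K * L) := mul_le_mul_of_nonneg_right hw1 hKL0
      linarith
    · rw [div_le_iff₀ hK0]
      have h3 : 0 ≤ w * ((K : ℝ) * L) := by positivity
      linarith
  have hcard : (((Icc (⌈(1 - 2 * w) * ((K : ℝ) * L)⌉ - 2) ⌊(1 - w) * ((K : ℝ) * L)⌋).card : ℕ) : ℝ) ≤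
      2 * (w * (K * L)) := by
    rw [Int.card_Icc]
    have h1 : ((⌊(1 - w) * ((K : ℝ) * L)⌋ + 1 - (⌈(1 - 2 * w) * ((K : ℝ) * L)⌉ - 2)).toNat : ℤ) ≤
        max (⌊(1 - w) * ((K : ℝ) * L)⌋ + 1 - (⌈(1 - 2 * w) * ((K : ℝ) * L)⌉ - 2)) 0 := by
      rw [Int.ofNat_toNat]
    have h2 : (((⌊(1 - w) * ((K : ℝ) * L)⌋ + 1 - (⌈(1 - 2 * w) * ((K : ℝ) * L)⌉ - 2)).toNat : ℕ) : ℝ) ≤
        max (((⌊(1 - w) * ((K : ℝ) * L)⌋ + 1 - (⌈(1 - 2 * w) * ((K : ℝ) * L)⌉ - 2) : ℤ)) : ℝ) 0 := by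
      exact_mod_cast h1
    refine h2.trans (max_le ?_ (by positivity))
    push_cast
    have h3 := Int.le_ceil ((1 - 2 * w) * ((K : ℝ) * L))
    have h4 := Int.floor_le ((1 - w) * ((K : ℝ) * L))
    linarith
  have hlz : Real.log (Real.exp L ^ ρ) = L * ρ := by rw [← Real.exp_mul, Real.log_exp]
  have hz1 : 1 ≤ Real.exp L ^ ρ := by
    rw [← Real.exp_mul]
    exact Real.one_le_exp (by positivity)
  have hLρ : L * ρ ≤ L * w := mul_le_mul_of_nonneg_left hρw hL0.le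
  have hLw1 : L * w ≤ L * (1 / 40) := mul_le_mul_of_nonneg_left hw1 hL0.le
  have hceil1 : (⌈h₀ * (K : ℝ)⌉₊ : ℝ) ≤ 2 * (h₀ * K) := by
    have h1 := Nat.ceil_lt_add_one (by positivity : 0 ≤ h₀ * (K : ℝ))
    have h2 : h₀ * L ≤ h₀ * K := mul_le_mul_of_nonneg_left hKL h00.le
    linarith
  have hh0K : h₀ * (K : ℝ) ≤ 1 / 4 * K := mul_le_mul_of_nonneg_right h04 hK0.le
  have hinvK : 1 / (K : ℝ) ≤ h₀ := by
    rw [div_le_iff₀ hK0]
    have h2 : h₀ * L ≤ h₀ * K := mul_le_mul_of_nonneg_left hKL h00.le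
    linarith
  have key := window_est U (PP d.D (Real.exp L ^ ρ)) (fun p => 1 / (N p : ℝ)) (fun p => ⌊(K : ℝ) * Real.log (N p)⌋₊)
    (fun j p => d.F j p) (fun j k => d.c j (Real.exp ((k : ℝ) / K))) (⌈(1 - 2 * w) * ((K : ℝ) * L)⌉ - 2)
    ⌊(1 - w) * ((K : ℝ) * L)⌋ ⌈h₀ * (K : ℝ)⌉₊ C' (4 / B) (5 * C * h₀) (3 * (w * (K * L)))
    (fun p hp => by
      have := (mem_PP.1 hp).1.two_le
      have h2 : (0 : ℝ) < N p := by exact_mod_cast (by omega : (0 : ℤ) < N p)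
      positivity)
    (by positivity)
    (Nat.one_le_iff_ne_zero.2 (by
      intro h0
      rw [Nat.ceil_eq_zero] at h0
      have : 0 < h₀ * (K : ℝ) := by positivity
      linarith))
    (fun j _ p hp => (norm_F d j (mem_PP.1 hp).1).le)
    (by positivity)
    (by
      -- ha
      intro k hk
      obtain ⟨h1, h2⟩ := hwin k hk
      refine (hE.bound (Real.exp L) hXX0 U hU hUc (Real.exp ((k : ℝ) / K)) ?_ (Real.exp_le_exp.2 h2)).trans hC'C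
      rw [← Real.exp_mul]
      exact Real.exp_le_exp.2 (by linarith))
    (by
      -- hb
      intro k hk
      obtain ⟨h1, h2⟩ := hwin k hk
      have e1 : ∀ m : ℕ, (((k - (m : ℤ) : ℤ)) : ℝ) / K = (k : ℝ) / K - (m : ℝ) / K := by
        intro m
        push_cast
        ring
      simp only [e1]
      exact (PlD_b hE hL40 hKL hKL' hXX0 hU hUc hρ0 hρs (hρw.trans hw1) h1 h2 hC4 (hmass _ hz1)).trans hC'b)
    (by
      -- hc
      intro k hk m hm hk'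
      obtain ⟨h1, h2⟩ := hwin k hk
      obtain ⟨h3, h4⟩ := hwin _ hk'
      have e1 : (((k - (m : ℤ) : ℤ)) : ℝ) / K = (k : ℝ) / K - (m : ℝ) / K := by
        push_cast
        ring
      simp only [e1] at h3 h4 ⊢
      have hm' : (m : ℝ) ≤ 2 * (h₀ * K) := by
        have : (m : ℝ) ≤ (⌈h₀ * (K : ℝ)⌉₊ : ℝ) := by exact_mod_cast hm
        linarith
      have hm1 : (m : ℝ) / K ≤ 2 * h₀ := by
        rw [div_le_iff₀ hK0]
        linarith
      have hm0 : 0 ≤ (m : ℝ) / K := by positivity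
      have hs := PlD_shift hE hL40 hK0 hKL' hXX0 hU hUc (a := (k : ℝ) / K - (m : ℝ) / K) (b := (k : ℝ) / K)
        (δ := 2 * h₀) (by linarith) (by linarith) h2 (by linarith) (by linarith)
      have e2 : ∀ j : ℤ, ‖d.c j (Real.exp ((k : ℝ) / K - (m : ℝ) / K)) - d.c j (Real.exp ((k : ℝ) / K))‖ =
          ‖d.c j (Real.exp ((k : ℝ) / K)) - d.c j (Real.exp ((k : ℝ) / K - (m : ℝ) / K))‖ :=
        fun j => norm_sub_rev _ _
      simp only [e2]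
      refine hs.trans ?_
      have e3 : 5 * C * h₀ = C * (5 * h₀) := by ring
      rw [e3]
      exact mul_le_mul_of_nonneg_left (by linarith) hC0.le)
    (by
      -- hd
      have h1 : ∀ p ∈ PP d.D (Real.exp L ^ ρ), 1 / (N p : ℝ) * (⌊(K : ℝ) * Real.log (N p)⌋₊ : ℝ) ≤
          K * (Real.log (N p) / (N p : ℝ)) := by
        intro p hp
        have h2 := (mem_PP.1 hp).1.two_le
        have hN2 : (2 : ℝ) ≤ N p := by exact_mod_cast h2
        have hN0 : (0 : ℝ) < N p := by linarith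
        have hlog0 : 0 ≤ Real.log (N p) := Real.log_nonneg (by linarith)
        have hf1 : (⌊(K : ℝ) * Real.log (N p)⌋₊ : ℝ) ≤ K * Real.log (N p) := Nat.floor_le (by positivity)
        refine (mul_le_mul_of_nonneg_left hf1 (by positivity)).trans (le_of_eq ?_)
        ring
      refine (Finset.sum_le_sum h1).trans ?_
      rw [← Finset.mul_sum]
      have h2 := sum_log_PP d.D5 hz1
      rw [hlz] at h2
      have h3 := mul_le_mul_of_nonneg_left h2 hK0.le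
      refine h3.trans ?_
      have e1 : 3 * (w * ((K : ℝ) * L)) = K * (3 * (L * w)) := by ring
      rw [e1]
      refine mul_le_mul_of_nonneg_left ?_ hK0.le
      linarith)
    hC'0.le
    (by
      -- he
      intro j hj ξ hξ
      exact hpw K hKK0 (Real.exp L ^ ρ) hz1 (by rw [hlz]; linarith) (fun p => d.F j p)
        (fun p hp => (norm_F d j (mem_PP.1 hp).1).le) B hB1
        (fun τ hτ => hDL (Real.exp L) hXXD j (hU j hj) τ hτ) ξ hξ)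
  refine key.trans ?_
  have hW0 : 0 ≤ w * ((K : ℝ) * L) := by positivity
  generalize (((Icc (⌈(1 - 2 * w) * ((K : ℝ) * L)⌉ - 2) ⌊(1 - w) * ((K : ℝ) * L)⌋).card : ℕ) : ℝ) = c at hcard ⊢
  generalize (⌈h₀ * (K : ℝ)⌉₊ : ℝ) = H at hceil1 ⊢
  have hCK : 6 * C' * K ≤ ε * (w * (K * L)) := by
    have h1 := mul_le_mul_of_nonneg_right hLC hK0.le
    have e1 : ε * (w * ((K : ℝ) * L)) = ε * w * L * K := by ring
    rw [e1]
    exact h1
  generalize hWdef : w * ((K : ℝ) * L) = W at *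
  have t1 : 4 / B * (C' * c + 2 * C' * (3 * W)) ≤ ε / 2 * W := by
    have h1 : C' * c ≤ C' * (2 * W) := mul_le_mul_of_nonneg_left hcard hC'0.le
    have h2 : 4 / B * (C' * c + 2 * C' * (3 * W)) ≤ 4 / B * (C' * (2 * W) + 2 * C' * (3 * W)) :=
      mul_le_mul_of_nonneg_left (by linarith) (by positivity)
    refine h2.trans ?_
    have e1 : 4 / B * (C' * (2 * W) + 2 * C' * (3 * W)) = 32 * C' / B * W := by ring
    rw [e1]
    exact mul_le_mul_of_nonneg_right hBC hW0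
  have t2 : 5 * C * h₀ * c ≤ ε / 3 * W := by
    have h1 : 5 * C * h₀ * c ≤ 5 * C * h₀ * (2 * W) := mul_le_mul_of_nonneg_left hcard (by positivity)
    refine h1.trans ?_
    have e1 : 5 * C * h₀ * (2 * W) = 10 * C * h₀ * W := by ring
    rw [e1]
    exact mul_le_mul_of_nonneg_right h0C hW0
  have t3 : 2 * C' * H ≤ ε / 6 * W := by
    have h1 : 2 * C' * H ≤ 2 * C' * (2 * (1 / 4 * K)) := mul_le_mul_of_nonneg_left (by linarith) (by positivity)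
    have e1 : 2 * C' * (2 * (1 / 4 * (K : ℝ))) = C' * K := by ring
    rw [e1] at h1
    linarith
  linarith

end Pool.Agent.Lib.MP_d57abb_nt.MR
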