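import Mathlib
import Pool.Agent.Lib.MP_d57abb_nt.MR.PlD
import Pool.Agent.Lib.MP_d57abb_nt.MR.BkA

/-!
# JOB AlA: one dyadic window of primes

Notation: `L = log X`, `K = ⌈L⌉₊`, `E Y = ∑_{j ∈ U} ‖c j Y‖²`, `Y k = exp (k / K)`, `k₀ = ⌊K L⌋`, `n_p = ⌊K log N p⌋₊`, `k_p = k₀ - n_p - 1`.  `hbm` is the statement of `block_mass`.
PROOF.  Let `p ∈ PP D X`, `X^w ≤ N p ≤ X^(2w)`.  `K log (X / N p) = K L - K log N p ∈ (k₀ - n_p - 1, k₀ - n_p + 1)`, so `Y k_p < X / N p ≤ e^(2/K) Y k_p`.  For `X` large `Y k_p ≥ X^(4/5)`, so `hE.shift` with `δ = 4 / K`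
(`e^(2/K) ≤ 1 + 4/K`) gives `E (X / N p) ≤ 2 E (Y k_p) + 2 C (4 / K + X^(-1/5)) ≤ 2 E (Y k_p) + 10 C / K`.
`w K L - 1 < n_p ≤ 2 w K L`, hence `k_p ∈ wnd w X`: `k_p ≤ K L - n_p - 1 ≤ (1 - w) K L`, and `k_p ≥ K L - 1 - 2 w K L - 1 = (1 - 2w) K L - 2` (integers: `k_p + 2 ≥ (1 - 2w) K L`, so `k_p + 2 ≥ ⌈..⌉`).
Group the primes by `n = n_p`: `∑_p (1/N p) E (Y k_p) = ∑_n E (Y (k₀ - n - 1)) (∑_{n_p = n} 1 / N p) ≤ ∑_n E (Y (k₀ - n - 1)) 8 / n` (`hbm` with `ρ = w / 2`, `n ≥ w K L - 1 ≥ (w/2) K L`)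
`≤ (16 / (w K L)) ∑_{k ∈ wnd w X} E (Y k) ≤ 16 ε'` with `ε' = ε / 32` in `large_avg` (`n ↦ k₀ - n - 1` is injective).  So
`∑_p (1 / N p) E (X / N p) ≤ 2 * 16 ε' + (10 C / K) ∑_p 1 / N p`.
-/

namespace Pool.Agent.Lib.MP_d57abb_nt.MR

open Finset

private theorem AlA_exp {x : ℝ} (h1 : x ≤ 1 / 2) (h0 : 0 ≤ x) : Real.exp x ≤ 1 + 2 * x := by
  have h2 := Real.one_sub_le_exp_neg x
  have h3 : Real.exp x * Real.exp (-x) = 1 := by
    rw [← Real.exp_add, add_neg_cancel, Real.exp_zero]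
  have h4 := Real.exp_pos x
  by_contra hcon
  push Not at hcon
  have h5 : (1 + 2 * x) * (1 - x) < Real.exp x * (1 - x) :=
    mul_lt_mul_of_pos_right hcon (by linarith)
  have h6 : Real.exp x * (1 - x) ≤ Real.exp x * Real.exp (-x) :=
    mul_le_mul_of_nonneg_left h2 h4.le
  have h7 : 0 ≤ x * (1 - 2 * x) := mul_nonneg h0 (by linarith)
  linarith

private theorem AlA_log {w X m : ℝ} (hX : 1 ≤ X) (hm1 : X ^ w ≤ m) (hm2 : m ≤ X ^ (2 * w)) :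
    0 < m ∧ w * Real.log X ≤ Real.log m ∧ Real.log m ≤ 2 * w * Real.log X := by
  have hX0 : 0 < X := by linarith
  have h0 : 0 < X ^ w := Real.rpow_pos_of_pos hX0 w
  have hm : 0 < m := lt_of_lt_of_le h0 hm1
  refine ⟨hm, ?_, ?_⟩
  · have h1 := Real.log_le_log h0 hm1
    rwa [Real.log_rpow hX0] at h1
  · have h1 := Real.log_le_log hm hm2
    rwa [Real.log_rpow hX0] at h1

/-- the index of the block of a prime of norm `m` -/
private noncomputable def AlA_k (X m : ℝ) : ℤ :=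
  ⌊(⌈Real.log X⌉₊ : ℝ) * Real.log X⌋ - (⌊(⌈Real.log X⌉₊ : ℝ) * Real.log m⌋₊ : ℤ) - 1

private theorem AlA_k1 (X m : ℝ) :
    (AlA_k X m : ℝ) < (⌈Real.log X⌉₊ : ℝ) * Real.log X - (⌈Real.log X⌉₊ : ℝ) * Real.log m := by
  have h1 := Int.floor_le ((⌈Real.log X⌉₊ : ℝ) * Real.log X)
  have h2 := Nat.lt_floor_add_one ((⌈Real.log X⌉₊ : ℝ) * Real.log m)
  unfold AlA_k
  push_cast
  linarith

private theorem AlA_k2 {X m : ℝ} (hm : 0 ≤ Real.log m) :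
    (⌈Real.log X⌉₊ : ℝ) * Real.log X - (⌈Real.log X⌉₊ : ℝ) * Real.log m < (AlA_k X m : ℝ) + 2 := by
  have h1 := Int.lt_floor_add_one ((⌈Real.log X⌉₊ : ℝ) * Real.log X)
  have h2 := Nat.floor_le (mul_nonneg (Nat.cast_nonneg ⌈Real.log X⌉₊) hm)
  unfold AlA_k
  push_cast
  linarith

private theorem AlA_wnd {w X m : ℝ} (hX : 1 ≤ X) (hw : 0 < w) (hm1 : X ^ w ≤ m)
    (hm2 : m ≤ X ^ (2 * w)) : AlA_k X m ∈ wnd w X := by
  obtain ⟨hm, h1, h2⟩ := AlA_log hX hm1 hm2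
  have hL : 0 ≤ Real.log X := Real.log_nonneg hX
  have hlm : 0 ≤ Real.log m := le_trans (mul_nonneg hw.le hL) h1
  have h3 := AlA_k1 X m
  have h4 := AlA_k2 (X := X) hlm
  have hK : (0 : ℝ) ≤ (⌈Real.log X⌉₊ : ℝ) := Nat.cast_nonneg _
  have h5 := mul_le_mul_of_nonneg_left h1 hK
  have h6 := mul_le_mul_of_nonneg_left h2 hK
  unfold wnd
  rw [Finset.mem_Icc]
  constructor
  · have h7 : ⌈(1 - 2 * w) * ((⌈Real.log X⌉₊ : ℝ) * Real.log X)⌉ ≤ AlA_k X m + 2 := by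
      rw [Int.ceil_le]
      push_cast
      nlinarith
    linarith
  · rw [Int.le_floor]
    nlinarith

private theorem AlA_pt (d : Dat) {s C X₀ : ℝ} (hE : Est d s C X₀) {w X : ℝ} (hw : 0 < w)
    (hw1 : w ≤ 1 / 40) (hX : X₀ ≤ X) (hL : 100 ≤ Real.log X) (U : Finset ℤ)
    (hU1 : ∀ j ∈ U, |(j : ℝ)| ≤ X) (hU2 : (U.card : ℝ) ≤ X ^ s) (m : ℝ) (hm1 : X ^ w ≤ m)
    (hm2 : m ≤ X ^ (2 * w)) :
    ∑ j ∈ U, ‖d.c j (X / m)‖ ^ 2 ≤
      2 * ∑ j ∈ U, ‖d.c j (Real.exp (AlA_k X m / ⌈Real.log X⌉₊))‖ ^ 2 +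
        10 * C / ⌈Real.log X⌉₊ := by
  have hX1 : 1 ≤ X := le_trans hE.X1 hX
  have hX0 : 0 < X := by linarith
  have hC := hE.C1
  obtain ⟨hm, h1, h2⟩ := AlA_log hX1 hm1 hm2
  have hlm : 0 ≤ Real.log m := le_trans (mul_nonneg hw.le (by linarith)) h1
  have hm' : 1 ≤ m := by
    by_contra hcon
    push Not at hcon
    have := Real.log_neg hm hcon
    linarith
  have h3 := AlA_k1 X m
  have h4 := AlA_k2 (X := X) hlm
  set L : ℝ := Real.log X with hLdef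
  set K : ℝ := (⌈L⌉₊ : ℝ) with hKdef
  have hKL : L ≤ K := Nat.le_ceil L
  have hKL1 : K < L + 1 := Nat.ceil_lt_add_one (by linarith)
  have hK0 : 0 < K := by linarith
  set k : ℤ := AlA_k X m with hk
  have hXL : X = Real.exp L := (Real.exp_log hX0).symm
  have hmL : m = Real.exp (Real.log m) := (Real.exp_log hm).symm
  have hXm : X / m = Real.exp (L - Real.log m) := by
    rw [Real.exp_sub, ← hXL, ← hmL]
  -- comparison of the exponents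
  have h5 : (k : ℝ) / K ≤ L - Real.log m := by
    rw [div_le_iff₀ hK0]
    nlinarith
  have h6 : L - Real.log m ≤ (k : ℝ) / K + 2 / K := by
    rw [← add_div, le_div_iff₀ hK0]
    nlinarith
  have h2K : 2 / K ≤ 1 / 2 := by
    rw [div_le_iff₀ hK0]
    linarith
  have h2K0 : 0 ≤ 2 / K := by positivity
  have hY : X ^ (4 / 5 : ℝ) ≤ Real.exp (k / K) := by
    rw [Real.rpow_def_of_pos hX0, ← hLdef]
    apply Real.exp_le_exp.2
    nlinarith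
  have hs := hE.shift X hX U hU1 hU2 (Real.exp (k / K)) (X / m) (4 / K) hY
    (by rw [hXm]; exact Real.exp_le_exp.2 h5)
    (by rw [div_le_iff₀ hm]; nlinarith)
    (by
      rw [hXm]
      calc Real.exp (L - Real.log m) ≤ Real.exp (k / K + 2 / K) := Real.exp_le_exp.2 h6
        _ = Real.exp (2 / K) * Real.exp (k / K) := by rw [add_comm, Real.exp_add]
        _ ≤ (1 + 4 / K) * Real.exp (k / K) := by
            apply mul_le_mul_of_nonneg_right _ (Real.exp_pos _).le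
            have := AlA_exp h2K h2K0
            have e : 2 * (2 / K) = 4 / K := by ring
            linarith)
    (by rw [div_le_iff₀ hK0]; linarith)
  -- the power of `Y`
  have hpow : Real.exp (k / K) ^ (-(1 / 4) : ℝ) ≤ 1 / K := by
    have e1 : Real.exp (k / K) ^ (-(1 / 4) : ℝ) ≤ (X ^ (4 / 5 : ℝ)) ^ (-(1 / 4) : ℝ) :=
      Real.rpow_le_rpow_of_nonpos (Real.rpow_pos_of_pos hX0 _) hY (by norm_num)
    have e2 : (X ^ (4 / 5 : ℝ)) ^ (-(1 / 4) : ℝ) = Real.exp (-(L / 5)) := by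
      rw [← Real.rpow_mul hX0.le, Real.rpow_def_of_pos hX0, ← hLdef]
      congr 1
      ring
    have e3 : K ≤ Real.exp (L / 5) := by
      have e4 : L / 10 + 1 ≤ Real.exp (L / 10) := Real.add_one_le_exp _
      have e5 : Real.exp (L / 5) = Real.exp (L / 10) * Real.exp (L / 10) := by
        rw [← Real.exp_add]
        congr 1
        ring
      rw [e5]
      have e6 : 0 < Real.exp (L / 10) := Real.exp_pos _
      nlinarith
    rw [e2] at e1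
    refine e1.trans ?_
    rw [Real.exp_neg, ← one_div]
    exact one_div_le_one_div_of_le hK0 e3
  have hs2 : ∑ j ∈ U, ‖d.c j (X / m) - d.c j (Real.exp (k / K))‖ ^ 2 ≤ 5 * C / K := by
    refine hs.trans ?_
    have : 4 / K + Real.exp (k / K) ^ (-(1 / 4) : ℝ) ≤ 5 / K := by
      have e : 5 / K = 4 / K + 1 / K := by ring
      linarith
    calc C * (4 / K + Real.exp (k / K) ^ (-(1 / 4) : ℝ)) ≤ C * (5 / K) :=
          mul_le_mul_of_nonneg_left this (by linarith)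
      _ = 5 * C / K := by ring
  have hfin : ∑ j ∈ U, ‖d.c j (X / m)‖ ^ 2 ≤
      ∑ j ∈ U, (2 * ‖d.c j (Real.exp (k / K))‖ ^ 2 +
        2 * ‖d.c j (X / m) - d.c j (Real.exp (k / K))‖ ^ 2) := by
    apply Finset.sum_le_sum
    intro j _
    have e1 : ‖d.c j (X / m)‖ ≤ ‖d.c j (Real.exp (k / K))‖ +
        ‖d.c j (X / m) - d.c j (Real.exp (k / K))‖ := by
      have := norm_add_le (d.c j (Real.exp (k / K))) (d.c j (X / m) - d.c j (Real.exp (k / K)))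
      rwa [add_sub_cancel] at this
    have e2 := norm_nonneg (d.c j (X / m))
    nlinarith [sq_nonneg (‖d.c j (Real.exp (k / K))‖ -
      ‖d.c j (X / m) - d.c j (Real.exp (k / K))‖)]
  rw [Finset.sum_add_distrib, ← Finset.mul_sum, ← Finset.mul_sum] at hfin
  refine hfin.trans ?_
  have e : 10 * C / K = 2 * (5 * C / K) := by ring
  rw [e]
  linarith

theorem one_window (d : Dat) (h : NP d) {s C X₀ : ℝ} (hE : Est d s C X₀)
    (hbm : ∀ ρ : ℝ, 0 < ρ → ∃ X₀ : ℝ, 3 ≤ X₀ ∧ ∀ X : ℝ, X₀ ≤ X → ∀ n : ℕ,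
      ρ * (⌈Real.log X⌉₊ * Real.log X) ≤ n → (n : ℝ) ≤ ⌈Real.log X⌉₊ * Real.log X →
      ∑ p ∈ (PP d.D X).filter (fun p => ⌊(⌈Real.log X⌉₊ : ℝ) * Real.log (N p)⌋₊ = n), 1 / (N p : ℝ) ≤ 8 / n)
    {ε w : ℝ} (hε : 0 < ε) (hw : 0 < w) (hw1 : w ≤ 1 / 40) :
    ∃ X₁ : ℝ, 3 ≤ X₁ ∧ ∀ X : ℝ, X₁ ≤ X → ∀ U : Finset ℤ, (∀ j ∈ U, |(j : ℝ)| ≤ X) → (U.card : ℝ) ≤ X ^ s →
      ∑ p ∈ (PP d.D X).filter (fun p => X ^ w ≤ (N p : ℝ) ∧ (N p : ℝ) ≤ X ^ (2 * w)),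
          1 / (N p : ℝ) * ∑ j ∈ U, ‖d.c j (X / N p)‖ ^ 2 ≤
        ε + 10 * C / ⌈Real.log X⌉₊ *
          ∑ p ∈ (PP d.D X).filter (fun p => X ^ w ≤ (N p : ℝ) ∧ (N p : ℝ) ≤ X ^ (2 * w)), 1 / (N p : ℝ) := by
  have hw2 : (0 : ℝ) < w / 2 := by linarith
  obtain ⟨Xa, hXa3, hXa⟩ := large_avg d h hE (ε := ε / 32) (by linarith) hw hw1
  obtain ⟨Xb, hXb3, hXb⟩ := hbm (w / 2) hw2
  refine ⟨max (max X₀ Xa) (max Xb (Real.exp (max 100 (2 / w)))),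
    hXb3.trans ((le_max_left _ _).trans (le_max_right _ _)), ?_⟩
  intro X hX U hU1 hU2
  have hX0 : X₀ ≤ X := ((le_max_left _ _).trans (le_max_left _ _)).trans hX
  have hX1 : Xa ≤ X := ((le_max_right _ _).trans (le_max_left _ _)).trans hX
  have hX2 : Xb ≤ X := ((le_max_left _ _).trans (le_max_right _ _)).trans hX
  have hX3 : Real.exp (max 100 (2 / w)) ≤ X :=
    ((le_max_right _ _).trans (le_max_right _ _)).trans hX
  have hX11 : 1 ≤ X := le_trans hE.X1 hX0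
  have hXpos : 0 < X := by linarith
  have hLm : max 100 (2 / w) ≤ Real.log X := (Real.le_log_iff_exp_le hXpos).2 hX3
  have hL : 100 ≤ Real.log X := (le_max_left _ _).trans hLm
  have hLw : 2 / w ≤ Real.log X := (le_max_right _ _).trans hLm
  have hwL : 2 ≤ w * Real.log X := by
    rw [div_le_iff₀ hw] at hLw
    linarith
  have hC := hE.C1
  have ha := hXa X hX1 U hU1 hU2
  have hb := hXb X hX2
  have hpt := AlA_pt d hE hw hw1 hX0 hL U hU1 hU2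
  set L : ℝ := Real.log X with hLdef
  have hKL : L ≤ (⌈L⌉₊ : ℝ) := Nat.le_ceil L
  have hK0 : 0 < (⌈L⌉₊ : ℝ) := by linarith
  set P := (PP d.D X).filter (fun p => X ^ w ≤ (N p : ℝ) ∧ (N p : ℝ) ≤ X ^ (2 * w)) with hP
  have hPm : ∀ p ∈ P, p ∈ PP d.D X ∧ X ^ w ≤ (N p : ℝ) ∧ (N p : ℝ) ≤ X ^ (2 * w) := by
    intro p hp
    rw [hP, Finset.mem_filter] at hp
    exact hp
  have hNpos : ∀ p ∈ P, (0 : ℝ) ≤ 1 / (N p : ℝ) := by
    intro p hp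
    have := (AlA_log hX11 (hPm p hp).2.1 (hPm p hp).2.2).1
    positivity
  have hwKL : 2 ≤ w * ((⌈L⌉₊ : ℝ) * L) := by
    have e1 : w * ((⌈L⌉₊ : ℝ) * L) = (⌈L⌉₊ : ℝ) * (w * L) := by ring
    rw [e1]
    nlinarith
  have hKLpos : 0 < (⌈L⌉₊ : ℝ) * L := mul_pos hK0 (by linarith)
  -- step 1: replace `X / N p` by the end point of a block
  have step1 : ∑ p ∈ P, 1 / (N p : ℝ) * ∑ j ∈ U, ‖d.c j (X / N p)‖ ^ 2 ≤
      2 * ∑ p ∈ P, 1 / (N p : ℝ) * ∑ j ∈ U, ‖d.c j (Real.exp (AlA_k X (N p) / ⌈L⌉₊))‖ ^ 2 +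
        10 * C / ⌈L⌉₊ * ∑ p ∈ P, 1 / (N p : ℝ) := by
    rw [Finset.mul_sum, Finset.mul_sum, ← Finset.sum_add_distrib]
    apply Finset.sum_le_sum
    intro p hp
    have e1 := hpt (N p : ℝ) (hPm p hp).2.1 (hPm p hp).2.2
    have e2 := mul_le_mul_of_nonneg_left e1 (hNpos p hp)
    refine e2.trans (le_of_eq ?_)
    ring
  -- step 2: group the primes
  have hmaps : ∀ p ∈ P, AlA_k X (N p) ∈ wnd w X := fun p hp =>
    AlA_wnd hX11 hw (hPm p hp).2.1 (hPm p hp).2.2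
  have step2 : ∑ p ∈ P, 1 / (N p : ℝ) * ∑ j ∈ U, ‖d.c j (Real.exp (AlA_k X (N p) / ⌈L⌉₊))‖ ^ 2 =
      ∑ k ∈ wnd w X, (∑ p ∈ P.filter (fun p => AlA_k X (N p) = k), 1 / (N p : ℝ)) *
        ∑ j ∈ U, ‖d.c j (Real.exp (k / ⌈L⌉₊))‖ ^ 2 := by
    rw [← Finset.sum_fiberwise_of_maps_to hmaps]
    apply Finset.sum_congr rfl
    intro k _
    rw [Finset.sum_mul]
    apply Finset.sum_congr rfl
    intro p hp
    rw [(Finset.mem_filter.1 hp).2]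
  have step3 : ∀ k ∈ wnd w X, ∑ p ∈ P.filter (fun p => AlA_k X (N p) = k), 1 / (N p : ℝ) ≤
      16 / (w * ((⌈L⌉₊ : ℝ) * L)) := by
    intro k _
    rcases (P.filter (fun p => AlA_k X (N p) = k)).eq_empty_or_nonempty with he | ⟨p₀, hp₀⟩
    · rw [he, Finset.sum_empty]
      positivity
    · rw [Finset.mem_filter] at hp₀
      obtain ⟨hp₀P, hp₀k⟩ := hp₀
      obtain ⟨hm, h1, h2⟩ := AlA_log hX11 (hPm p₀ hp₀P).2.1 (hPm p₀ hp₀P).2.2
      rw [← hLdef] at h1 h2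
      have hlm : 0 ≤ Real.log (N p₀ : ℝ) := le_trans (by linarith) h1
      set n : ℕ := ⌊(⌈L⌉₊ : ℝ) * Real.log (N p₀)⌋₊ with hn
      have hn1 : (n : ℝ) ≤ (⌈L⌉₊ : ℝ) * Real.log (N p₀) :=
        Nat.floor_le (mul_nonneg hK0.le hlm)
      have hn2 : (⌈L⌉₊ : ℝ) * Real.log (N p₀) < n + 1 := Nat.lt_floor_add_one _
      have h5 := mul_le_mul_of_nonneg_left h1 hK0.le
      have h6 := mul_le_mul_of_nonneg_left h2 hK0.le
      have hn3 : w / 2 * ((⌈L⌉₊ : ℝ) * L) ≤ n := by nlinarith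
      have hn4 : (n : ℝ) ≤ (⌈L⌉₊ : ℝ) * L := by nlinarith
      have h7 := hb n hn3 hn4
      have hsub : P.filter (fun p => AlA_k X (N p) = k) ⊆
          (PP d.D X).filter (fun p => ⌊(⌈L⌉₊ : ℝ) * Real.log (N p)⌋₊ = n) := by
        intro p hp
        rw [Finset.mem_filter] at hp ⊢
        refine ⟨(hPm p hp.1).1, ?_⟩
        have e1 := hp.2
        rw [← hp₀k] at e1
        unfold AlA_k at e1
        rw [← hLdef, ← hn] at e1
        have e2 : ((⌊(⌈L⌉₊ : ℝ) * Real.log (N p)⌋₊ : ℕ) : ℤ) = (n : ℤ) := by linarith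
        exact_mod_cast e2
      have h8 : ∑ p ∈ P.filter (fun p => AlA_k X (N p) = k), 1 / (N p : ℝ) ≤
          ∑ p ∈ (PP d.D X).filter (fun p => ⌊(⌈L⌉₊ : ℝ) * Real.log (N p)⌋₊ = n),
            1 / (N p : ℝ) := by
        apply Finset.sum_le_sum_of_subset_of_nonneg hsub
        intro p hp _
        have e3 := (mem_PP.1 (Finset.mem_filter.1 hp).1).1.two_le
        have e4 : (2 : ℝ) ≤ (N p : ℝ) := by exact_mod_cast e3
        positivity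
      refine h8.trans (h7.trans ?_)
      have hnpos : (0 : ℝ) < n := lt_of_lt_of_le (by positivity) hn3
      rw [div_le_div_iff₀ hnpos (by positivity)]
      nlinarith
  have step4 : ∑ k ∈ wnd w X, (∑ p ∈ P.filter (fun p => AlA_k X (N p) = k), 1 / (N p : ℝ)) *
        ∑ j ∈ U, ‖d.c j (Real.exp (k / ⌈L⌉₊))‖ ^ 2 ≤ ε / 2 := by
    calc ∑ k ∈ wnd w X, (∑ p ∈ P.filter (fun p => AlA_k X (N p) = k), 1 / (N p : ℝ)) *
        ∑ j ∈ U, ‖d.c j (Real.exp (k / ⌈L⌉₊))‖ ^ 2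
        ≤ ∑ k ∈ wnd w X, 16 / (w * ((⌈L⌉₊ : ℝ) * L)) *
        ∑ j ∈ U, ‖d.c j (Real.exp (k / ⌈L⌉₊))‖ ^ 2 := by
          apply Finset.sum_le_sum
          intro k hk
          exact mul_le_mul_of_nonneg_right (step3 k hk)
            (Finset.sum_nonneg fun j _ => by positivity)
      _ = 16 / (w * ((⌈L⌉₊ : ℝ) * L)) * ∑ k ∈ wnd w X,
        ∑ j ∈ U, ‖d.c j (Real.exp (k / ⌈L⌉₊))‖ ^ 2 := by rw [Finset.mul_sum]
      _ ≤ 16 / (w * ((⌈L⌉₊ : ℝ) * L)) * (ε / 32 * (w * ((⌈L⌉₊ : ℝ) * L))) :=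
          mul_le_mul_of_nonneg_left ha (by positivity)
      _ = ε / 2 := by
          have : w * ((⌈L⌉₊ : ℝ) * L) ≠ 0 := by positivity
          field_simp
          ring
  rw [step2] at step1
  refine step1.trans ?_
  linarith

end Pool.Agent.Lib.MP_d57abb_nt.MR
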