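import Mathlib
import Pool.Agent.Lib.MP_d57abb_nt.MR.AlA

/-!
# JOB AlB: the large frequencies at the point `X`

Notation: `L = log X`, `K = ⌈L⌉₊`, `E Y = ∑_{j ∈ U} ‖c j Y‖²`, `w₀ = s / 2` (`≤ 1/800 ≤ 1/40`), `w_i = w₀ 2^(-i)`, `R` a large number, `C₃` from `mass_PP_lower`, `C₄` from `mass_le`.
`P₁ = {p ∈ PP D (X^s) : X^(w_{R-1}) ≤ N p}`; it is covered by the sets `P_i = {p ∈ PP D X : X^(w_i) ≤ N p ≤ X^(2 w_i)}`, `i < R` (`2 w_{i+1} = w_i`, `2 w₀ = s`).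
PROOF.  For `p ∈ PP D (X^s)`: `c j X = F j p c j (X / N p) - (F j p c j (X / N p) - c j X)`, `‖F j p‖ = 1`, so `E X ≤ 2 E (X / N p) + 2 D_p`, `D_p = ∑_j ‖F j p c j (X / N p) - c j X‖²`.
Multiply by `1 / N p` and sum over `P₁` (`W₁ = mass P₁`):
`W₁ E X ≤ 2 ∑_{i < R} ∑_{p ∈ P_i} E (X / N p) / N p + 2 ∑_{p ∈ PP D (X^s)} D_p / N p ≤ 2 (R ε' + ∑_i (10 C / K) mass P_i) + 2 C` (`one_window` with `ε'` for every `w_i`, `hE.defect` with `z = X^s`, `Y = X`).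
For every prime `v = log N p / L` satisfies `w_i ≤ v ≤ 2 w_i` for at most two `i < R`, so `∑_{i < R} mass P_i = ∑_p #{i : p ∈ P_i} / N p ≤ 2 mass (PP D X) ≤ 2 C₄ (1 + L)` (exchange the sums) and
`∑_i (10 C / K) mass P_i ≤ 40 C C₄` (`1 + L ≤ 2 K`): this bound does not depend on `R`.
`mass_PP_lower` with `P = X^(w_{R-1}) ≥ 3`, `Q = X^s`: `W₁ ≥ log (s / w_{R-1}) - C₃ = R log 2 - C₃ ≥ R / 2` for `R ≥ 6 |C₃| + 1`.
So `E X ≤ (2 / R)(2 R ε' + 80 C C₄ + 2 C) ≤ 4 ε' + (160 C C₄ + 4 C) / R ≤ ε` with `ε' = ε / 8` and `R` large.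
-/

namespace Pool.Agent.Lib.MP_d57abb_nt.MR

open Finset

private noncomputable def AlB_w (s : ℝ) (i : ℕ) : ℝ := s / 2 ^ (i + 1)

private theorem AlB_w_succ (s : ℝ) (i : ℕ) : 2 * AlB_w s (i + 1) = AlB_w s i := by
  unfold AlB_w
  rw [pow_succ (2 : ℝ) (i + 1)]
  field_simp

private theorem AlB_w_zero (s : ℝ) : 2 * AlB_w s 0 = s := by
  unfold AlB_w
  norm_num
  ring

private theorem AlB_w_pos {s : ℝ} (hs : 0 < s) (i : ℕ) : 0 < AlB_w s i := by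
  unfold AlB_w
  positivity

private theorem AlB_w_anti {s : ℝ} (hs : 0 < s) {i j : ℕ} (h : i ≤ j) : AlB_w s j ≤ AlB_w s i := by
  unfold AlB_w
  apply div_le_div_of_nonneg_left hs.le (by positivity)
  exact pow_le_pow_right₀ (by norm_num) (by omega)

private theorem AlB_lower {s X x : ℝ} {R : ℕ} (hR : 0 < R)
    (h1 : X ^ AlB_w s (R - 1) ≤ x) (h2 : x ≤ X ^ s) :
    ∃ i, i < R ∧ X ^ AlB_w s i ≤ x ∧ x ≤ X ^ (2 * AlB_w s i) := by
  classical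
  have hex : ∃ i, X ^ AlB_w s i ≤ x := ⟨R - 1, h1⟩
  have hle : Nat.find hex ≤ R - 1 := Nat.find_min' hex h1
  refine ⟨Nat.find hex, by omega, Nat.find_spec hex, ?_⟩
  rcases Nat.eq_zero_or_pos (Nat.find hex) with h0 | h0
  · rw [h0, AlB_w_zero]
    exact h2
  · obtain ⟨k, hk⟩ : ∃ k, Nat.find hex = k + 1 := ⟨Nat.find hex - 1, by omega⟩
    have h3 := Nat.find_min hex (m := k) (by omega)
    rw [hk, AlB_w_succ]
    exact (not_le.1 h3).le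

private theorem AlB_upper {s X x : ℝ} (hs : 0 < s) (hX : 1 < X) (R : ℕ) :
    (((range R).filter (fun i => X ^ AlB_w s i ≤ x ∧ x ≤ X ^ (2 * AlB_w s i))).card : ℝ) ≤ 2 := by
  classical
  rcases Finset.eq_empty_or_nonempty
    ((range R).filter (fun i => X ^ AlB_w s i ≤ x ∧ x ≤ X ^ (2 * AlB_w s i))) with h | h
  · rw [h]
    simp
  · obtain ⟨i, hi, hmin⟩ := Finset.exists_min_image _ (fun i => i) h
    have hsub : (range R).filter (fun i => X ^ AlB_w s i ≤ x ∧ x ≤ X ^ (2 * AlB_w s i)) ⊆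
        {i, i + 1} := by
      intro j hj
      have hij := hmin j hj
      rw [mem_filter] at hi hj
      have h1 : X ^ AlB_w s i ≤ X ^ (2 * AlB_w s j) := hi.2.1.trans hj.2.2
      have h2 : AlB_w s i ≤ 2 * AlB_w s j := (Real.rpow_le_rpow_left_iff hX).1 h1
      have h3 : j ≤ i + 1 := by
        by_contra h4
        have h5 : AlB_w s j ≤ AlB_w s (i + 2) := AlB_w_anti hs (by omega)
        have h6 := AlB_w_succ s (i + 1)
        have h7 := AlB_w_succ s i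
        have h8 := AlB_w_pos hs i
        linarith
      rw [mem_insert, mem_singleton]
      omega
    have h1 := Finset.card_le_card hsub
    have h2 := Finset.card_le_two (a := i) (b := i + 1)
    exact_mod_cast h1.trans h2

private theorem AlB_exch (A : Finset O) (g : O → ℝ) (s X : ℝ) (R : ℕ) :
    ∑ i ∈ range R, ∑ p ∈ A.filter (fun p => X ^ AlB_w s i ≤ (N p : ℝ) ∧
      (N p : ℝ) ≤ X ^ (2 * AlB_w s i)), g p =
    ∑ p ∈ A, g p * (((range R).filter (fun i => X ^ AlB_w s i ≤ (N p : ℝ) ∧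
      (N p : ℝ) ≤ X ^ (2 * AlB_w s i))).card : ℝ) := by
  have h1 : ∀ i ∈ range R, ∑ p ∈ A.filter (fun p => X ^ AlB_w s i ≤ (N p : ℝ) ∧
      (N p : ℝ) ≤ X ^ (2 * AlB_w s i)), g p =
      ∑ p ∈ A, if X ^ AlB_w s i ≤ (N p : ℝ) ∧ (N p : ℝ) ≤ X ^ (2 * AlB_w s i) then g p else 0 :=
    fun i _ => Finset.sum_filter _ _
  rw [Finset.sum_congr rfl h1, Finset.sum_comm]
  apply Finset.sum_congr rfl
  intro p _
  rw [← Finset.sum_filter, Finset.sum_const, nsmul_eq_mul, mul_comm]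

private theorem AlB_sq (a b : ℂ) (u : ℂ) (hu : ‖u‖ = 1) :
    ‖b‖ ^ 2 ≤ 2 * ‖a‖ ^ 2 + 2 * ‖u * a - b‖ ^ 2 := by
  have h1 : ‖b‖ ≤ ‖a‖ + ‖u * a - b‖ := by
    have h2 : b = u * a - (u * a - b) := by ring
    calc ‖b‖ = ‖u * a - (u * a - b)‖ := by rw [← h2]
      _ ≤ ‖u * a‖ + ‖u * a - b‖ := norm_sub_le _ _
      _ = ‖a‖ + ‖u * a - b‖ := by rw [norm_mul, hu, one_mul]
  have h3 := norm_nonneg b
  have h4 : ‖b‖ ^ 2 ≤ (‖a‖ + ‖u * a - b‖) ^ 2 := pow_le_pow_left₀ h3 h1 2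
  nlinarith [sq_nonneg (‖a‖ - ‖u * a - b‖)]

private theorem AlB_Npos {D : ℕ} {z : ℝ} {p : O} (hp : p ∈ PP D z) : (0 : ℝ) < N p := by
  have h := (mem_PP.1 hp).1.1.tp.N_pos
  exact_mod_cast h

/-- the combination, at a fixed point -/
private theorem AlB_comb (d : Dat) {s X C C₃ C₄ ε' : ℝ} (hs : 0 < s) (hs1 : s ≤ 1) (hX : 3 ≤ X)
    (hC : 1 ≤ C) (U : Finset ℤ) {R : ℕ} (hR : 0 < R)
    (hdef : ∑ p ∈ PP d.D (X ^ s), 1 / (N p : ℝ) *
      ∑ j ∈ U, ‖d.F j p * d.c j (X / N p) - d.c j X‖ ^ 2 ≤ C)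
    (hwin : ∀ i ∈ range R,
      ∑ p ∈ (PP d.D X).filter (fun p => X ^ AlB_w s i ≤ (N p : ℝ) ∧ (N p : ℝ) ≤ X ^ (2 * AlB_w s i)),
          1 / (N p : ℝ) * ∑ j ∈ U, ‖d.c j (X / N p)‖ ^ 2 ≤
        ε' + 10 * C / ⌈Real.log X⌉₊ *
          ∑ p ∈ (PP d.D X).filter (fun p => X ^ AlB_w s i ≤ (N p : ℝ) ∧
            (N p : ℝ) ≤ X ^ (2 * AlB_w s i)), 1 / (N p : ℝ))
    (hmass : mass (PP d.D X) ≤ C₄ * (1 + Real.log X))
    (hlow : R * Real.log 2 - C₃ ≤ mass ((PP d.D (X ^ s)).filter (fun p => X ^ AlB_w s (R - 1) ≤ (N p : ℝ))))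
    (hRC : 6 * |C₃| ≤ R) (hC4 : 0 ≤ C₄) :
    (R : ℝ) / 2 * ∑ j ∈ U, ‖d.c j X‖ ^ 2 ≤ 2 * (R * ε' + 40 * C * C₄) + 2 * C := by
  have hX1 : 1 < X := by linarith
  have hX0 : 0 < X := by linarith
  have hL1 : 1 ≤ Real.log X := by
    rw [Real.le_log_iff_exp_le hX0]
    have := Real.exp_one_lt_d9
    linarith
  have hK : Real.log X ≤ ⌈Real.log X⌉₊ := Nat.le_ceil _
  have hK0 : (0 : ℝ) < ⌈Real.log X⌉₊ := by linarith
  have hXs : X ^ s ≤ X := by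
    calc X ^ s ≤ X ^ (1 : ℝ) := Real.rpow_le_rpow_of_exponent_le hX1.le hs1
      _ = X := Real.rpow_one X
  have hE0 : 0 ≤ ∑ j ∈ U, ‖d.c j X‖ ^ 2 := Finset.sum_nonneg fun j _ => by positivity
  -- step A
  have hA : ∀ p ∈ PP d.D (X ^ s), ∑ j ∈ U, ‖d.c j X‖ ^ 2 ≤
      2 * ∑ j ∈ U, ‖d.c j (X / N p)‖ ^ 2 +
        2 * ∑ j ∈ U, ‖d.F j p * d.c j (X / N p) - d.c j X‖ ^ 2 := by
    intro p hp
    rw [Finset.mul_sum, Finset.mul_sum, ← Finset.sum_add_distrib]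
    exact Finset.sum_le_sum fun j _ => AlB_sq _ _ _ (norm_F d j (mem_PP.1 hp).1)
  -- step B
  have hB : mass ((PP d.D (X ^ s)).filter (fun p => X ^ AlB_w s (R - 1) ≤ (N p : ℝ))) *
      ∑ j ∈ U, ‖d.c j X‖ ^ 2 ≤
      2 * ∑ p ∈ (PP d.D (X ^ s)).filter (fun p => X ^ AlB_w s (R - 1) ≤ (N p : ℝ)),
        1 / (N p : ℝ) * ∑ j ∈ U, ‖d.c j (X / N p)‖ ^ 2 + 2 * C := by
    have h1 : mass ((PP d.D (X ^ s)).filter (fun p => X ^ AlB_w s (R - 1) ≤ (N p : ℝ))) *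
        ∑ j ∈ U, ‖d.c j X‖ ^ 2 ≤
        ∑ p ∈ (PP d.D (X ^ s)).filter (fun p => X ^ AlB_w s (R - 1) ≤ (N p : ℝ)),
          (2 * (1 / (N p : ℝ) * ∑ j ∈ U, ‖d.c j (X / N p)‖ ^ 2) +
          2 * (1 / (N p : ℝ) * ∑ j ∈ U, ‖d.F j p * d.c j (X / N p) - d.c j X‖ ^ 2)) := by
      unfold mass
      rw [Finset.sum_mul]
      refine Finset.sum_le_sum fun p hp => ?_
      rw [mem_filter] at hp
      have h2 := AlB_Npos hp.1
      have h3 := mul_le_mul_of_nonneg_left (hA p hp.1) (by positivity : 0 ≤ 1 / (N p : ℝ))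
      refine h3.trans (le_of_eq ?_)
      ring
    refine h1.trans ?_
    rw [Finset.sum_add_distrib, ← Finset.mul_sum, ← Finset.mul_sum]
    have h2 : ∑ p ∈ (PP d.D (X ^ s)).filter (fun p => X ^ AlB_w s (R - 1) ≤ (N p : ℝ)),
        1 / (N p : ℝ) * ∑ j ∈ U, ‖d.F j p * d.c j (X / N p) - d.c j X‖ ^ 2 ≤ C := by
      refine le_trans (Finset.sum_le_sum_of_subset_of_nonneg (Finset.filter_subset _ _) ?_) hdef
      intro p hp _
      have h3 := AlB_Npos hp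
      exact mul_nonneg (by positivity) (Finset.sum_nonneg fun j _ => by positivity)
    linarith
  -- covering by the windows
  have hcov : ∑ p ∈ (PP d.D (X ^ s)).filter (fun p => X ^ AlB_w s (R - 1) ≤ (N p : ℝ)),
        1 / (N p : ℝ) * ∑ j ∈ U, ‖d.c j (X / N p)‖ ^ 2 ≤
      ∑ i ∈ range R, ∑ p ∈ (PP d.D X).filter (fun p => X ^ AlB_w s i ≤ (N p : ℝ) ∧
        (N p : ℝ) ≤ X ^ (2 * AlB_w s i)), 1 / (N p : ℝ) * ∑ j ∈ U, ‖d.c j (X / N p)‖ ^ 2 := by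
    rw [AlB_exch (PP d.D X) (fun p => 1 / (N p : ℝ) * ∑ j ∈ U, ‖d.c j (X / N p)‖ ^ 2) s X R]
    have hg : ∀ p ∈ PP d.D X, 0 ≤ 1 / (N p : ℝ) * ∑ j ∈ U, ‖d.c j (X / N p)‖ ^ 2 := by
      intro p hp
      have h3 := AlB_Npos hp
      exact mul_nonneg (by positivity) (Finset.sum_nonneg fun j _ => by positivity)
    have hsub : (PP d.D (X ^ s)).filter (fun p => X ^ AlB_w s (R - 1) ≤ (N p : ℝ)) ⊆ PP d.D X := by
      intro p hp
      rw [mem_filter, mem_PP] at hp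
      rw [mem_PP]
      exact ⟨hp.1.1, hp.1.2.trans hXs⟩
    calc ∑ p ∈ (PP d.D (X ^ s)).filter (fun p => X ^ AlB_w s (R - 1) ≤ (N p : ℝ)),
        1 / (N p : ℝ) * ∑ j ∈ U, ‖d.c j (X / N p)‖ ^ 2
        ≤ ∑ p ∈ (PP d.D (X ^ s)).filter (fun p => X ^ AlB_w s (R - 1) ≤ (N p : ℝ)),
          (1 / (N p : ℝ) * ∑ j ∈ U, ‖d.c j (X / N p)‖ ^ 2) *
          (((range R).filter (fun i => X ^ AlB_w s i ≤ (N p : ℝ) ∧
            (N p : ℝ) ≤ X ^ (2 * AlB_w s i))).card : ℝ) := by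
          refine Finset.sum_le_sum fun p hp => ?_
          have h4 := hg p (hsub hp)
          rw [mem_filter, mem_PP] at hp
          obtain ⟨i, hi, hi1, hi2⟩ := AlB_lower hR hp.2 hp.1.2
          have h5 : 1 ≤ ((range R).filter (fun i => X ^ AlB_w s i ≤ (N p : ℝ) ∧
            (N p : ℝ) ≤ X ^ (2 * AlB_w s i))).card :=
            Finset.card_pos.2 ⟨i, mem_filter.2 ⟨mem_range.2 hi, hi1, hi2⟩⟩
          have h6 : (1 : ℝ) ≤ (((range R).filter (fun i => X ^ AlB_w s i ≤ (N p : ℝ) ∧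
            (N p : ℝ) ≤ X ^ (2 * AlB_w s i))).card : ℝ) := by exact_mod_cast h5
          exact le_mul_of_one_le_right h4 h6
      _ ≤ _ := by
          refine Finset.sum_le_sum_of_subset_of_nonneg hsub ?_
          intro p hp _
          exact mul_nonneg (hg p hp) (Nat.cast_nonneg _)
  -- the masses
  have hmm : ∑ i ∈ range R, ∑ p ∈ (PP d.D X).filter (fun p => X ^ AlB_w s i ≤ (N p : ℝ) ∧
        (N p : ℝ) ≤ X ^ (2 * AlB_w s i)), 1 / (N p : ℝ) ≤ 2 * (C₄ * (1 + Real.log X)) := by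
    rw [AlB_exch (PP d.D X) (fun p => 1 / (N p : ℝ)) s X R]
    calc ∑ p ∈ PP d.D X, 1 / (N p : ℝ) * (((range R).filter (fun i => X ^ AlB_w s i ≤ (N p : ℝ) ∧
            (N p : ℝ) ≤ X ^ (2 * AlB_w s i))).card : ℝ)
        ≤ ∑ p ∈ PP d.D X, 1 / (N p : ℝ) * 2 := by
          refine Finset.sum_le_sum fun p hp => ?_
          have h3 := AlB_Npos hp
          exact mul_le_mul_of_nonneg_left (AlB_upper hs hX1 R) (by positivity)
      _ = 2 * mass (PP d.D X) := by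
          unfold mass
          rw [← Finset.sum_mul, mul_comm]
      _ ≤ 2 * (C₄ * (1 + Real.log X)) := by linarith
  have hall : ∑ i ∈ range R, ∑ p ∈ (PP d.D X).filter (fun p => X ^ AlB_w s i ≤ (N p : ℝ) ∧
        (N p : ℝ) ≤ X ^ (2 * AlB_w s i)), 1 / (N p : ℝ) * ∑ j ∈ U, ‖d.c j (X / N p)‖ ^ 2 ≤
      R * ε' + 40 * C * C₄ := by
    refine (Finset.sum_le_sum hwin).trans ?_
    rw [Finset.sum_add_distrib, ← Finset.mul_sum, Finset.sum_const, card_range, nsmul_eq_mul]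
    have h1 : 0 ≤ 10 * C / (⌈Real.log X⌉₊ : ℝ) := by positivity
    have h2 := mul_le_mul_of_nonneg_left hmm h1
    have h3 : 10 * C / (⌈Real.log X⌉₊ : ℝ) * (2 * (C₄ * (1 + Real.log X))) ≤ 40 * C * C₄ := by
      have h4 : 10 * C / (⌈Real.log X⌉₊ : ℝ) * (2 * (C₄ * (1 + Real.log X))) =
          20 * C * C₄ * (1 + Real.log X) / (⌈Real.log X⌉₊ : ℝ) := by ring
      rw [h4, div_le_iff₀ hK0]
      have h5 : 0 ≤ 20 * C * C₄ := by positivity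
      have h6 : 1 + Real.log X ≤ 2 * (⌈Real.log X⌉₊ : ℝ) := by linarith
      have h7 := mul_le_mul_of_nonneg_left h6 h5
      linarith
    linarith
  -- lower bound of the mass
  have hW : (R : ℝ) / 2 ≤ mass ((PP d.D (X ^ s)).filter (fun p => X ^ AlB_w s (R - 1) ≤ (N p : ℝ))) := by
    refine le_trans ?_ hlow
    have h1 : (0.6931471803 : ℝ) < Real.log 2 := Real.log_two_gt_d9
    have h2 : C₃ ≤ |C₃| := le_abs_self _
    have h3 : (0 : ℝ) < R := by exact_mod_cast hR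
    nlinarith
  have h1 := mul_le_mul_of_nonneg_right hW hE0
  linarith

theorem large_all (d : Dat) (h : NP d) {s C X₀ : ℝ} (hE : Est d s C X₀)
    (hbm : ∀ ρ : ℝ, 0 < ρ → ∃ X₀ : ℝ, 3 ≤ X₀ ∧ ∀ X : ℝ, X₀ ≤ X → ∀ n : ℕ,
      ρ * (⌈Real.log X⌉₊ * Real.log X) ≤ n → (n : ℝ) ≤ ⌈Real.log X⌉₊ * Real.log X →
      ∑ p ∈ (PP d.D X).filter (fun p => ⌊(⌈Real.log X⌉₊ : ℝ) * Real.log (N p)⌋₊ = n), 1 / (N p : ℝ) ≤ 8 / n)
    {ε : ℝ} (hε : 0 < ε) :
    ∃ X₁ : ℝ, 3 ≤ X₁ ∧ ∀ X : ℝ, X₁ ≤ X → ∀ U : Finset ℤ, (∀ j ∈ U, |(j : ℝ)| ≤ X) → (U.card : ℝ) ≤ X ^ s →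
      ∑ j ∈ U, ‖d.c j X‖ ^ 2 ≤ ε := by
  obtain ⟨C₃, h3⟩ := mass_PP_lower d.D5 d.D0
  obtain ⟨C₄, hC4, h4⟩ := mass_le d.D
  have hs := hE.s0
  have hs1 := hE.s1
  have hC := hE.C1
  have hw40 : ∀ i, AlB_w s i ≤ 1 / 40 := by
    intro i
    have h5 := AlB_w_anti hs (Nat.zero_le i)
    have h6 := AlB_w_zero s
    linarith
  choose f hf3 hf using fun i => one_window d h hE hbm (ε := ε / 8) (w := AlB_w s i)
    (by positivity) (AlB_w_pos hs i) (hw40 i)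
  -- the number of windows
  obtain ⟨R, hR⟩ := exists_nat_gt (6 * |C₃| + 1 + (160 * C * C₄ + 4 * C) / (ε / 2))
  have hq : 0 ≤ (160 * C * C₄ + 4 * C) / (ε / 2) := by positivity
  have hRr : (1 : ℝ) < R := by
    have := abs_nonneg C₃
    linarith
  have hR0 : 0 < R := by
    have : (0 : ℝ) < R := by linarith
    exact_mod_cast this
  have hRC : 6 * |C₃| ≤ R := by linarith
  have hR2 : (160 * C * C₄ + 4 * C) ≤ ε / 2 * R := by
    have h5 : (160 * C * C₄ + 4 * C) / (ε / 2) ≤ R := by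
      have := abs_nonneg C₃
      linarith
    rw [div_le_iff₀ (by positivity)] at h5
    linarith
  have hwR := AlB_w_pos hs (R - 1)
  refine ⟨3 + X₀ + (3 : ℝ) ^ (1 / AlB_w s (R - 1)) + ∑ i ∈ range R, |f i|, ?_, ?_⟩
  · have h5 : 0 ≤ (3 : ℝ) ^ (1 / AlB_w s (R - 1)) := by positivity
    have h6 : 0 ≤ ∑ i ∈ range R, |f i| := Finset.sum_nonneg fun i _ => abs_nonneg _
    have h7 := hE.X1
    linarith
  intro X hX U hU hUc
  have h5 : 0 ≤ (3 : ℝ) ^ (1 / AlB_w s (R - 1)) := by positivity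
  have h6 : 0 ≤ ∑ i ∈ range R, |f i| := Finset.sum_nonneg fun i _ => abs_nonneg _
  have h7 := hE.X1
  have hX3 : 3 ≤ X := by linarith
  have hX0 : 0 < X := by linarith
  have hX1 : 1 < X := by linarith
  have hXX : X₀ ≤ X := by linarith
  have hP3 : 3 ≤ X ^ AlB_w s (R - 1) := by
    have h8 : (3 : ℝ) ^ (1 / AlB_w s (R - 1)) ≤ X := by linarith
    calc (3 : ℝ) = ((3 : ℝ) ^ (1 / AlB_w s (R - 1))) ^ AlB_w s (R - 1) := by
          rw [← Real.rpow_mul (by norm_num), one_div, inv_mul_cancel₀ hwR.ne', Real.rpow_one]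
      _ ≤ X ^ AlB_w s (R - 1) := Real.rpow_le_rpow h5 h8 hwR.le
  have hPQ : X ^ AlB_w s (R - 1) ≤ X ^ s := by
    apply Real.rpow_le_rpow_of_exponent_le hX1.le
    have h8 := AlB_w_anti hs (Nat.zero_le (R - 1))
    have h9 := AlB_w_zero s
    linarith
  have hlogX : 0 < Real.log X := Real.log_pos hX1
  have hlow := h3 _ _ hP3 hPQ
  have hratio : Real.log (X ^ s) / Real.log (X ^ AlB_w s (R - 1)) = 2 ^ R := by
    rw [Real.log_rpow hX0, Real.log_rpow hX0]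
    have h8 : s = AlB_w s (R - 1) * 2 ^ R := by
      unfold AlB_w
      rw [Nat.sub_add_cancel hR0]
      field_simp
    have h9 : s * Real.log X = 2 ^ R * (AlB_w s (R - 1) * Real.log X) := by
      calc s * Real.log X = (AlB_w s (R - 1) * 2 ^ R) * Real.log X := by rw [← h8]
        _ = 2 ^ R * (AlB_w s (R - 1) * Real.log X) := by ring
    rw [h9]
    exact mul_div_cancel_right₀ _ (by positivity)
  rw [hratio, Real.log_pow] at hlow
  have hcomb := AlB_comb d hs (by linarith) hX3 hC U hR0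
    (hE.defect X hXX U hU hUc (X ^ s) X (Real.one_le_rpow hX1.le hs.le) le_rfl
      (by
        calc X ^ (9 / 10 : ℝ) ≤ X ^ (1 : ℝ) :=
              Real.rpow_le_rpow_of_exponent_le hX1.le (by norm_num)
          _ = X := Real.rpow_one X) le_rfl)
    (ε' := ε / 8)
    (fun i hi => hf i X (by
      have h8 : |f i| ≤ ∑ i ∈ range R, |f i| :=
        Finset.single_le_sum (f := fun i => |f i|) (fun i _ => abs_nonneg _) hi
      have h9 := le_abs_self (f i)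
      linarith) U hU hUc)
    (h4 X hX1.le) hlow hRC (by linarith)
  have hRpos : (0 : ℝ) < R := by linarith
  have h8 : (R : ℝ) / 2 * ∑ j ∈ U, ‖d.c j X‖ ^ 2 ≤ (R : ℝ) / 2 * ε := by
    have h9 : 2 * (R * (ε / 8) + 40 * C * C₄) + 2 * C ≤ (R : ℝ) / 2 * ε := by
      nlinarith
    exact hcomb.trans h9
  exact le_of_mul_le_mul_left h8 (by positivity)

end Pool.Agent.Lib.MP_d57abb_nt.MR
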