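import Mathlib
import Pool.Agent.Lib.MP_d57abb_nt.MR.BkA
import Pool.Agent.Lib.MP_d57abb_nt.All.SW

namespace Pool.Agent.Lib.MP_d57abb_nt.MR

open Finset

theorem block_mass {D : ℕ} (h5 : 5 ∣ D) :
    ∀ ρ : ℝ, 0 < ρ → ∃ X₀ : ℝ, 3 ≤ X₀ ∧ ∀ X : ℝ, X₀ ≤ X → ∀ n : ℕ,
      ρ * (⌈Real.log X⌉₊ * Real.log X) ≤ n → (n : ℝ) ≤ ⌈Real.log X⌉₊ * Real.log X →
      ∑ p ∈ (PP D X).filter (fun p => ⌊(⌈Real.log X⌉₊ : ℝ) * Real.log (N p)⌋₊ = n), 1 / (N p : ℝ) ≤ 8 / n := by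
  apply block_mass_aux h5
  obtain ⟨y₀, hy₀⟩ := All.sw 2 0
  refine ⟨y₀, fun y hy => ?_⟩
  have h := hy₀ y hy 1 one_pos (by simp) 0 (by simp)
  have e1 : (Ioc 0 y).filter (fun n => n ≡ 0 [MOD 1]) = Ioc 0 y := by
    apply Finset.filter_true_of_mem
    intro n _
    exact Nat.modEq_one
  rw [e1] at h
  simpa [All.lp] using h

end Pool.Agent.Lib.MP_d57abb_nt.MR
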