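import Mathlib
import Pool.Agent.Lib.MP_d57abb_nt.MR.PrA
import Pool.Agent.Lib.MP_d57abb_nt.MR.Nf

/-!
# JOB ClA: levels and blocks

Fix `m ≥ 2`, `H = Hn m = ⌈m⌉₊`, so `m ≤ H ≤ m + 1`.  `blk m p = ⌊H log N p⌋₊` (`N p ≥ 2`, so `log N p > 0`).
* `xb_le`, `lt_xb`: `b ≤ H log N p < b + 1` for `b = blk m p`; divide by `H`, exponentiate.
* `exp_inv_le`: `1 / H ≤ 1 / m ≤ 1 / 2` and `e^x ≤ 1 + 2 x` for `0 ≤ x ≤ 1` (`Real.exp_bound'` or `Real.abs_exp_sub_one_le`: `|e^x - 1| ≤ 2 |x|`); `1 + 2/m ≤ 2`.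
* `blk_mem`: `e^m ≤ N p ≤ e^(m²)`, so `H m ≤ H log N p ≤ H m²`; floors are monotone.
* `BI_lower`: `b ≥ ⌊H m⌋ ≥ H m - 1`, so `b / H ≥ m - 1/H ≥ m - 1`; `BI_upper`: `b ≤ H m²`.
* `card_BI`: the interval has at most `⌊H m²⌋ + 1 ≤ (m + 1) m² + 1 ≤ (m + 1)³` elements.
* `LB_bounds`: from `xb_le`, `lt_xb`, `exp_inv_le`.  `LB_card`: `LB` is contained in `{p ∈ PS D z : y ≤ N p < y + h}` with `y = xb m b`, `h = y (e^(1/H) - 1) ≤ 2 y / m`; `card_PS_short` gives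
  `≤ h + 1 ≤ y + y` (`m ≥ 2`, `y ≥ 1`).
* `card_LP`: `{p ∈ LP : N p ≤ z}` is empty if `z < e^m`; otherwise it is contained in `{p ∈ PS D z : e^m ≤ N p}`: `card_PS_block` with `P = e^m` (`log P = m`).
* `mass_LP`: `mass_PS_lower` with `P = e^m`, `Q = e^(m²)`: `log (log Q / log P) = log m`; `(1/2) log m - C ≥ (1/4) log m` and `≥ 1` for `m ≥ m₀`.
-/

namespace Pool.Agent.Lib.MP_d57abb_nt.MR

open Finset

/-- number of blocks per unit of the logarithm -/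
noncomputable def Hn (m : ℝ) : ℕ := ⌈m⌉₊
/-- the primes of the level `m` -/
noncomputable def LP (D : ℕ) (m : ℝ) : Finset O := (PS D (Real.exp (m ^ 2))).filter (fun p => Real.exp m ≤ (N p : ℝ))
/-- the number of the block of `p` -/
noncomputable def blk (m : ℝ) (p : O) : ℕ := ⌊(Hn m : ℝ) * Real.log (N p)⌋₊
/-- a block -/
noncomputable def LB (D : ℕ) (m : ℝ) (b : ℕ) : Finset O := (LP D m).filter (fun p => blk m p = b)
/-- the block numbers -/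
noncomputable def BI (m : ℝ) : Finset ℕ := Finset.Icc ⌊(Hn m : ℝ) * m⌋₊ ⌊(Hn m : ℝ) * m ^ 2⌋₊
/-- the left end of a block -/
noncomputable def xb (m : ℝ) (b : ℕ) : ℝ := Real.exp (b / Hn m)
/-- the sum over a block -/
noncomputable def Dat.A (d : Dat) (m : ℝ) (b : ℕ) (j : ℤ) : ℂ := ∑ p ∈ LB d.D m b, d.F j p
/-- the sum over the primitive vectors -/
noncomputable def Dat.B (d : Dat) (Y : ℝ) (j : ℤ) : ℂ := ∑ u ∈ V' Y, d.a u * E d.t j u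
/-- all block sums at level `m` are small -/
def Good (d : Dat) (m α : ℝ) (j : ℤ) : Prop :=
  ∀ b ∈ BI m, ‖d.A m b j‖ ≤ Real.exp ((1 - α) * (b / Hn m))

theorem Hn_ge (m : ℝ) : m ≤ Hn m := Nat.le_ceil m

theorem Hn_le {m : ℝ} (hm : 0 ≤ m) : (Hn m : ℝ) ≤ m + 1 := (Nat.ceil_lt_add_one hm).le

private theorem ClA_H {m : ℝ} (hm : 2 ≤ m) : (0 : ℝ) < Hn m ∧ (2 : ℝ) ≤ Hn m := by
  have := Hn_ge m
  constructor <;> linarith

theorem exp_inv_le {m : ℝ} (hm : 2 ≤ m) : Real.exp (1 / Hn m) ≤ 1 + 2 / m ∧ Real.exp (1 / Hn m) ≤ 2 := by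
  obtain ⟨h0, h2⟩ := ClA_H hm
  have hm0 : 0 < m := by linarith
  have h1 : 1 / (Hn m : ℝ) ≤ 1 / m := one_div_le_one_div_of_le hm0 (Hn_ge m)
  have h3 : 1 / m ≤ 1 / 2 := one_div_le_one_div_of_le (by norm_num) hm
  have h4 : 0 ≤ 1 / (Hn m : ℝ) := by positivity
  have h5 : |1 / (Hn m : ℝ)| ≤ 1 := by
    rw [abs_of_nonneg h4]
    linarith
  have h6 := Real.abs_exp_sub_one_le h5
  rw [abs_of_nonneg h4] at h6
  have h7 := le_of_abs_le h6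
  have h8 : 2 / m = 2 * (1 / m) := by ring
  constructor
  · rw [h8]
    linarith
  · linarith

theorem LP_dg {D : ℕ} {m : ℝ} {p : O} (hp : p ∈ LP D m) :
    Dg D p ∧ Real.exp m ≤ (N p : ℝ) ∧ (N p : ℝ) ≤ Real.exp (m ^ 2) ∧ p ∈ PS D (Real.exp (m ^ 2)) := by
  unfold LP at hp
  rw [Finset.mem_filter] at hp
  obtain ⟨h1, h2⟩ := hp
  have h3 := mem_PS.1 h1
  exact ⟨h3.1.1, h2, h3.1.2, h1⟩

private theorem ClA_N {D : ℕ} {m : ℝ} {p : O} (hp : p ∈ LP D m) :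
    (2 : ℝ) ≤ N p ∧ m ≤ Real.log (N p) ∧ Real.log (N p) ≤ m ^ 2 := by
  obtain ⟨h1, h2, h3, -⟩ := LP_dg hp
  have h4 : (2 : ℝ) ≤ N p := by exact_mod_cast h1.two_le
  have h5 : (0 : ℝ) < N p := by linarith
  exact ⟨h4, (Real.le_log_iff_exp_le h5).2 h2, (Real.log_le_iff_le_exp h5).2 h3⟩

theorem xb_le {m : ℝ} (hm : 2 ≤ m) {D : ℕ} {p : O} (hp : p ∈ LP D m) : xb m (blk m p) ≤ N p := by
  obtain ⟨h0, h2⟩ := ClA_H hm
  obtain ⟨n2, n3, n4⟩ := ClA_N hp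
  have hN : (0 : ℝ) < N p := by linarith
  have h1 : ((blk m p : ℕ) : ℝ) ≤ (Hn m : ℝ) * Real.log (N p) :=
    Nat.floor_le (mul_nonneg h0.le (by linarith))
  unfold xb
  rw [← Real.le_log_iff_exp_le hN, div_le_iff₀ h0]
  linarith

theorem lt_xb {m : ℝ} (hm : 2 ≤ m) {D : ℕ} {p : O} (hp : p ∈ LP D m) :
    (N p : ℝ) < xb m (blk m p) * Real.exp (1 / Hn m) ∧ (N p : ℝ) ≤ 2 * xb m (blk m p) := by
  obtain ⟨h0, h2⟩ := ClA_H hm
  obtain ⟨n2, n3, n4⟩ := ClA_N hp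
  have hN : (0 : ℝ) < N p := by linarith
  have h1 : (Hn m : ℝ) * Real.log (N p) < ((blk m p : ℕ) : ℝ) + 1 := Nat.lt_floor_add_one _
  have h3 : (N p : ℝ) < xb m (blk m p) * Real.exp (1 / Hn m) := by
    unfold xb
    rw [← Real.exp_add, ← Real.log_lt_iff_lt_exp hN, ← add_div, lt_div_iff₀ h0]
    linarith
  refine ⟨h3, h3.le.trans ?_⟩
  have h4 := (exp_inv_le hm).2
  have h5 : 0 ≤ xb m (blk m p) := (Real.exp_pos _).le
  nlinarith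

theorem blk_mem {m : ℝ} (hm : 2 ≤ m) {D : ℕ} {p : O} (hp : p ∈ LP D m) : blk m p ∈ BI m := by
  obtain ⟨h0, h2⟩ := ClA_H hm
  obtain ⟨n2, n3, n4⟩ := ClA_N hp
  unfold BI blk
  rw [Finset.mem_Icc]
  exact ⟨Nat.floor_le_floor (mul_le_mul_of_nonneg_left n3 h0.le),
    Nat.floor_le_floor (mul_le_mul_of_nonneg_left n4 h0.le)⟩

theorem BI_lower {m : ℝ} (hm : 2 ≤ m) {b : ℕ} (hb : b ∈ BI m) : m - 1 ≤ (b : ℝ) / Hn m := by
  obtain ⟨h0, h2⟩ := ClA_H hm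
  unfold BI at hb
  rw [Finset.mem_Icc] at hb
  have h1 : (Hn m : ℝ) * m < (⌊(Hn m : ℝ) * m⌋₊ : ℝ) + 1 := Nat.lt_floor_add_one _
  have h3 : (⌊(Hn m : ℝ) * m⌋₊ : ℝ) ≤ (b : ℝ) := by exact_mod_cast hb.1
  rw [le_div_iff₀ h0]
  nlinarith

theorem BI_upper {m : ℝ} (hm : 2 ≤ m) {b : ℕ} (hb : b ∈ BI m) : (b : ℝ) / Hn m ≤ m ^ 2 := by
  obtain ⟨h0, h2⟩ := ClA_H hm
  unfold BI at hb
  rw [Finset.mem_Icc] at hb
  have h1 : (⌊(Hn m : ℝ) * m ^ 2⌋₊ : ℝ) ≤ (Hn m : ℝ) * m ^ 2 :=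
    Nat.floor_le (mul_nonneg h0.le (sq_nonneg m))
  have h3 : (b : ℝ) ≤ (⌊(Hn m : ℝ) * m ^ 2⌋₊ : ℝ) := by exact_mod_cast hb.2
  rw [div_le_iff₀ h0]
  linarith

theorem card_BI {m : ℝ} (hm : 2 ≤ m) : ((BI m).card : ℝ) ≤ (m + 1) ^ 3 := by
  obtain ⟨h0, h2⟩ := ClA_H hm
  have h1 : (⌊(Hn m : ℝ) * m ^ 2⌋₊ : ℝ) ≤ (Hn m : ℝ) * m ^ 2 :=
    Nat.floor_le (mul_nonneg h0.le (sq_nonneg m))
  have h3 : (BI m).card ≤ ⌊(Hn m : ℝ) * m ^ 2⌋₊ + 1 := by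
    unfold BI
    rw [Nat.card_Icc]
    omega
  have h4 : ((BI m).card : ℝ) ≤ (⌊(Hn m : ℝ) * m ^ 2⌋₊ : ℝ) + 1 := by exact_mod_cast h3
  have h5 : (Hn m : ℝ) * m ^ 2 ≤ (m + 1) * m ^ 2 :=
    mul_le_mul_of_nonneg_right (Hn_le (by linarith)) (sq_nonneg m)
  nlinarith [sq_nonneg m]

theorem LB_sub (D : ℕ) (m : ℝ) (b : ℕ) : LB D m b ⊆ PS D (Real.exp (m ^ 2)) :=
  (Finset.filter_subset _ _).trans (Finset.filter_subset _ _)

theorem LB_bounds {m : ℝ} (hm : 2 ≤ m) {D : ℕ} {b : ℕ} {p : O} (hp : p ∈ LB D m b) :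
    xb m b ≤ (N p : ℝ) ∧ (N p : ℝ) ≤ 2 * xb m b := by
  unfold LB at hp
  rw [Finset.mem_filter] at hp
  have h1 := xb_le hm hp.1
  have h2 := (lt_xb hm hp.1).2
  rw [hp.2] at h1 h2
  exact ⟨h1, h2⟩

theorem LB_card {m : ℝ} (hm : 2 ≤ m) {D : ℕ} (h5 : 5 ∣ D) (b : ℕ) : ((LB D m b).card : ℝ) ≤ 2 * xb m b := by
  obtain ⟨h0, h2⟩ := ClA_H hm
  have hm0 : 0 < m := by linarith
  have hy : 1 ≤ xb m b := by
    unfold xb
    exact Real.one_le_exp (by positivity)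
  have hx := (exp_inv_le hm).2
  have hx1 : 1 ≤ Real.exp (1 / (Hn m : ℝ)) := Real.one_le_exp (by positivity)
  have hh : 0 ≤ xb m b * (Real.exp (1 / (Hn m : ℝ)) - 1) :=
    mul_nonneg (by linarith) (by linarith)
  have h3 := card_PS_short h5 (z := Real.exp (m ^ 2)) (y := xb m b) hh
  have h4 : (LB D m b).card ≤ ((PS D (Real.exp (m ^ 2))).filter (fun p => xb m b ≤ (N p : ℝ) ∧
      (N p : ℝ) < xb m b + xb m b * (Real.exp (1 / (Hn m : ℝ)) - 1))).card := by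
    refine Finset.card_le_card fun p hp => ?_
    have hp1 := hp
    unfold LB at hp1
    rw [Finset.mem_filter] at hp1
    rw [Finset.mem_filter]
    refine ⟨LB_sub D m b hp, (LB_bounds hm hp).1, ?_⟩
    have h6 := (lt_xb hm hp1.1).1
    rw [hp1.2] at h6
    have h7 : xb m b + xb m b * (Real.exp (1 / (Hn m : ℝ)) - 1) =
        xb m b * Real.exp (1 / (Hn m : ℝ)) := by ring
    rw [h7]
    exact h6
  have h4' : ((LB D m b).card : ℝ) ≤ (((PS D (Real.exp (m ^ 2))).filter (fun p => xb m b ≤ (N p : ℝ) ∧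
      (N p : ℝ) < xb m b + xb m b * (Real.exp (1 / (Hn m : ℝ)) - 1))).card : ℝ) := by
    exact_mod_cast h4
  have h8 : xb m b * (Real.exp (1 / (Hn m : ℝ)) - 1) ≤ xb m b * 1 :=
    mul_le_mul_of_nonneg_left (by linarith) (by linarith)
  linarith

theorem card_LP {m : ℝ} (hm : 2 ≤ m) {D : ℕ} (h5 : 5 ∣ D) {z : ℝ} (hz : 0 ≤ z) :
    (((LP D m).filter (fun p => (N p : ℝ) ≤ z)).card : ℝ) ≤ 2 * z / m := by
  have hm0 : 0 < m := by linarith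
  by_cases h : z < Real.exp m
  · have h1 : (LP D m).filter (fun p => (N p : ℝ) ≤ z) = ∅ := by
      rw [Finset.filter_eq_empty_iff]
      intro p hp hz'
      have := (LP_dg hp).2.1
      linarith
    rw [h1, Finset.card_empty, Nat.cast_zero]
    positivity
  · rw [not_lt] at h
    have h2 : 2 ≤ Real.exp m := by
      have := Real.add_one_le_exp m
      linarith
    have h3 := card_PS_block h5 h2 h
    rw [Real.log_exp] at h3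
    refine le_trans ?_ h3
    have h4 : ((LP D m).filter (fun p => (N p : ℝ) ≤ z)).card ≤
        ((PS D z).filter (fun p => Real.exp m ≤ (N p : ℝ))).card := by
      refine Finset.card_le_card fun p hp => ?_
      rw [Finset.mem_filter] at hp
      rw [Finset.mem_filter]
      have h6 := LP_dg hp.1
      exact ⟨mem_PS.2 ⟨⟨h6.1, hp.2⟩, (mem_PS.1 h6.2.2.2).2⟩, h6.2.1⟩
    exact_mod_cast h4

theorem mass_LP {D : ℕ} (h5 : 5 ∣ D) (hD : 0 < D) : ∃ m₀ : ℝ, 2 ≤ m₀ ∧ ∀ m : ℝ, m₀ ≤ m →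
    1 ≤ mass (LP D m) ∧ 1 / 4 * Real.log m ≤ mass (LP D m) := by
  obtain ⟨C, hC⟩ := mass_PS_lower h5 hD
  refine ⟨max 2 (Real.exp (4 * (|C| + 1))), le_max_left _ _, fun m hm => ?_⟩
  have h2 : 2 ≤ m := (le_max_left _ _).trans hm
  have h0 : 0 < m := by linarith
  have h3 : 4 * (|C| + 1) ≤ Real.log m :=
    (Real.le_log_iff_exp_le h0).2 ((le_max_right _ _).trans hm)
  have h4 : 3 ≤ Real.exp m := by
    have := Real.add_one_le_exp m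
    linarith
  have h6 : Real.exp m ≤ Real.exp (m ^ 2) := Real.exp_le_exp.2 (by nlinarith)
  have h7 := hC (Real.exp m) (Real.exp (m ^ 2)) h4 h6
  rw [Real.log_exp, Real.log_exp] at h7
  have h8 : m ^ 2 / m = m := by
    field_simp
  rw [h8] at h7
  have h9 : 1 / 2 * Real.log m - C ≤ mass (LP D m) := h7
  have h10 := le_abs_self C
  constructor <;> linarith [abs_nonneg C]

end Pool.Agent.Lib.MP_d57abb_nt.MR
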