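import Mathlib

/-!
# JOB ClF: numerics of the later levels

We may replace `C` by `max C 1`.
`num_later`.  Let `μ = exp √m` (large).  From `ℓ a ≤ b + a`, `a ≥ m - 1 ≥ m / 2`: `ℓ ≤ b / a + 1 ≤ 2 b / m + 1`, and `ℓ ≤ b + 1 ≤ μ² + 1 ≤ exp (3 √m)` (`b ≤ μ² = exp (2 √m)`).
`128^ℓ ℓ! ≤ (128 ℓ)^ℓ ≤ exp (ℓ (5 + 3 √m))` (`log 128 < 5`) `≤ exp ((2 b / m + 1)(4 √m))` for `√m ≥ 5` `= exp (8 b / √m + 4 √m)`.
`8 / √m ≤ (1/2) m^(-1/4)` as soon as `m^(1/4) ≥ 16`.  So the logarithm of the left side is at most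
`log C + (1/2) m^(-1/4) b + 4 √m + 2 m² - 2 m^(-1/4) b + 3 log (m + 1) + 6 (√m + 1)` (`a ≤ m²`, `μ + 1 ≤ e μ`)
`≤ - (3/2) m^(-1/4) b + C' m²`, and `b ≥ μ - 1 ≥ μ / 2`.  As `m → ∞`, `m^(-1/4) exp √m * (3/4) - C' m² - exp (√m / 2) → ∞`: (`√μ = exp (√m / 2)`) use that `exp √m` dominates every power of `m`
and `exp (√m) = exp (√m / 2)²`.  (With `x = √m`: `Real.tendsto_exp_div_pow_atTop` or `tendsto_pow_mul_exp_neg_atTop_nhds_zero`.)

`num_exc`.  Let `x = log X`, `ll = log x`.  `m - 1 ≥ (8 / s)(ll + 6)`, `ℓ ≤ x / (m - 1) + 1`, `ℓ ≤ x` for `x` large (`m - 1 ≥ 48`), so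
`128^ℓ ℓ! ≤ exp (ℓ (5 + ll)) ≤ exp ((s x / (8 (ll + 6)) + 1)(ll + 5)) ≤ exp (s x / 8 + ll + 5)`.  `exp a ≤ exp (m²) ≤ exp (s x / 16)`, `X^(2α) ≤ exp (s x / 4)`, `(m + 1)³ ≤ (x + 2)³` (`56 ≤ m`, `m² ≤ x`).  Total exponent `log C + s x (1/8 + 1/16 + 1/4) + ll + 5 + 3 log (x + 2) ≤ s x` for `x` large (depending on `s`, `C`).
-/

namespace Pool.Agent.Lib.MP_d57abb_nt.MR

theorem clF_fact {ℓ : ℕ} {t : ℝ} (ht : (ℓ : ℝ) ≤ Real.exp t) :
    (128 : ℝ) ^ ℓ * (ℓ.factorial : ℝ) ≤ Real.exp ((ℓ : ℝ) * (5 + t)) := by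
  have h1 : (ℓ.factorial : ℝ) ≤ (ℓ : ℝ) ^ ℓ := by exact_mod_cast Nat.factorial_le_pow ℓ
  have h2 : (ℓ : ℝ) ^ ℓ ≤ (Real.exp t) ^ ℓ := pow_le_pow_left₀ (Nat.cast_nonneg _) ht _
  have h3 : (128 : ℝ) ≤ Real.exp 5 := by
    have h4 := Real.exp_one_gt_d9
    have h5 : Real.exp 5 = (Real.exp 1) ^ 5 := by rw [← Real.exp_nat_mul]; norm_num
    rw [h5]
    calc (128 : ℝ) ≤ 2.7 ^ 5 := by norm_num
      _ ≤ (Real.exp 1) ^ 5 := pow_le_pow_left₀ (by norm_num) (by linarith) _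
  have h6 : (128 : ℝ) ^ ℓ ≤ (Real.exp 5) ^ ℓ := pow_le_pow_left₀ (by norm_num) h3 _
  rw [Real.exp_nat_mul, Real.exp_add, mul_pow]
  exact mul_le_mul h6 (h1.trans h2) (Nat.cast_nonneg _) (pow_nonneg (Real.exp_pos _).le _)

theorem num_later (C : ℝ) : ∃ m₀ : ℝ, 2 ≤ m₀ ∧ ∀ m : ℝ, m₀ ≤ m → ∀ (a b : ℝ) (ℓ : ℕ), m - 1 ≤ a → a ≤ m ^ 2 →
    Real.exp (√m) - 1 ≤ b → b ≤ Real.exp (√m) ^ 2 → (ℓ : ℝ) * a ≤ b + a →
    C * (128 ^ ℓ * (ℓ.factorial : ℝ)) * Real.exp (2 * a) * Real.exp (-(2 * m ^ (-(1 / 4) : ℝ) * b)) *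
      ((m + 1) ^ 3 * (Real.exp (√m) + 1) ^ 6) ≤ Real.exp (-√(Real.exp (√m))) := by
  have hM : (200 : ℝ) ≤ max 200 |C| := le_max_left _ _
  refine ⟨(max 200 |C|) ^ 4, ?_, ?_⟩
  · calc (2 : ℝ) ≤ 200 ^ 4 := by norm_num
      _ ≤ (max 200 |C|) ^ 4 := pow_le_pow_left₀ (by norm_num) hM _
  intro m hm a b ℓ ha1 ha2 hb1 hb2 hl
  have hm0 : 0 < m := lt_of_lt_of_le (by positivity) hm
  obtain ⟨x, hx0, hx4⟩ : ∃ x : ℝ, 0 ≤ x ∧ x ^ 4 = m := by
    refine ⟨m ^ ((1 : ℝ) / 4), Real.rpow_nonneg hm0.le _, ?_⟩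
    rw [← Real.rpow_natCast, ← Real.rpow_mul hm0.le]
    norm_num
  have hxM : max 200 |C| ≤ x := by
    by_contra hcon
    push Not at hcon
    have h1 : x ^ 4 < (max 200 |C|) ^ 4 := pow_lt_pow_left₀ hcon hx0 (by norm_num)
    linarith
  have hx : (200 : ℝ) ≤ x := hM.trans hxM
  have hcx : |C| ≤ x := (le_max_right _ _).trans hxM
  have hxp : 0 < x := by linarith
  have hsq : √m = x ^ 2 := by
    rw [← hx4, show x ^ 4 = (x ^ 2) ^ 2 by ring]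
    exact Real.sqrt_sq (by positivity)
  have hinv : m ^ (-(1 / 4) : ℝ) = x⁻¹ := by
    rw [← hx4, ← Real.rpow_natCast x 4, ← Real.rpow_mul hx0]
    norm_num
    exact Real.rpow_neg_one x
  have hE : √(Real.exp (x ^ 2)) = Real.exp (x ^ 2 / 2) := (Real.exp_half _).symm
  rw [hsq] at hb1 hb2 ⊢
  rw [hE, hinv]
  have hEE : Real.exp (x ^ 2) = Real.exp (x ^ 2 / 2) ^ 2 := by
    rw [← Real.exp_nat_mul]
    congr 1
    push_cast
    ring
  have hElow : x ^ 10 / 3840 ≤ Real.exp (x ^ 2 / 2) := by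
    have h1 := Real.pow_div_factorial_le_exp (x ^ 2 / 2) (by positivity) 5
    have h2 : (x ^ 2 / 2) ^ 5 / ((Nat.factorial 5 : ℕ) : ℝ) = x ^ 10 / 3840 := by
      norm_num [Nat.factorial]
      ring
    linarith [h2.symm.le]
  have hx2 : (40000 : ℝ) ≤ x ^ 2 := by nlinarith
  have hx4' : (1 : ℝ) ≤ x ^ 4 := one_le_pow₀ (by linarith)
  have hx8' : (1 : ℝ) ≤ x ^ 8 := one_le_pow₀ (by linarith)
  have hE3 : 3 * x ^ 8 ≤ 2 * Real.exp (x ^ 2 / 2) := by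
    have h1 : 3 * x ^ 8 ≤ 2 * (x ^ 10 / 3840) := by
      have h2 : x ^ 10 = x ^ 8 * x ^ 2 := by ring
      rw [h2]
      have h3 : x ^ 8 * 40000 ≤ x ^ 8 * x ^ 2 := mul_le_mul_of_nonneg_left hx2 (by positivity)
      nlinarith [show (0 : ℝ) ≤ x ^ 8 by positivity]
    linarith
  have hx8x : x ≤ x ^ 8 := by
    calc x = x ^ 1 := (pow_one x).symm
      _ ≤ x ^ 8 := pow_le_pow_right₀ (by linarith) (by norm_num)
  have hx7 : (15360 : ℝ) ≤ x ^ 7 := by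
    calc (15360 : ℝ) ≤ 200 ^ 7 := by norm_num
      _ ≤ x ^ 7 := pow_le_pow_left₀ (by norm_num) hx _
  have hE4 : 4 * x ≤ Real.exp (x ^ 2 / 2) := by
    have h1 : x ^ 8 = x * x ^ 7 := by ring
    have h2 : x * 15360 ≤ x * x ^ 7 := mul_le_mul_of_nonneg_left hx7 hx0
    have h3 : 0 ≤ x := hx0
    nlinarith
  set E : ℝ := Real.exp (x ^ 2 / 2) with hEdef
  have hE1 : 2 ≤ E := by linarith
  rw [hEE] at hb1
  have hbE : E ^ 2 / 2 ≤ b := by nlinarith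
  have hb0 : 0 ≤ b := by nlinarith
  -- bound on ℓ
  have ham : m / 2 ≤ a := by
    have : 2 ≤ m := by
      rw [← hx4]
      calc (2 : ℝ) ≤ 200 ^ 4 := by norm_num
        _ ≤ x ^ 4 := pow_le_pow_left₀ (by norm_num) hx _
    linarith
  have ha1' : 1 ≤ a := by
    have : 2 ≤ m := by
      rw [← hx4]
      calc (2 : ℝ) ≤ 200 ^ 4 := by norm_num
        _ ≤ x ^ 4 := pow_le_pow_left₀ (by norm_num) hx _
    linarith
  have hap : 0 < a := by linarith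
  have hl1 : (ℓ : ℝ) ≤ b / a + 1 := by
    rw [div_add_one hap.ne', le_div_iff₀ hap]
    exact hl
  have hl2 : b / a ≤ 2 * b / x ^ 4 := by
    rw [div_le_div_iff₀ hap (by positivity)]
    rw [hx4]
    nlinarith
  have hl3 : b / a ≤ b := div_le_self hb0 ha1'
  have hexp1 : 1 ≤ Real.exp (x ^ 2) := Real.one_le_exp (by positivity)
  have hlexp : (ℓ : ℝ) ≤ Real.exp (3 * x ^ 2) := by
    have h1 : Real.exp (3 * x ^ 2) = Real.exp (x ^ 2) * Real.exp (x ^ 2) ^ 2 := by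
      rw [← Real.exp_nat_mul, ← Real.exp_add]
      congr 1
      push_cast
      ring
    have h2 : 2 ≤ Real.exp (x ^ 2) := by
      rw [hEE]
      nlinarith
    have h3 : 1 ≤ Real.exp (x ^ 2) ^ 2 := one_le_pow₀ hexp1
    rw [h1]
    nlinarith
  have hF := clF_fact hlexp
  have hexpo : (ℓ : ℝ) * (5 + 3 * x ^ 2) ≤ (1 / 2) * (b / x) + 4 * x ^ 2 := by
    have h1 : (ℓ : ℝ) ≤ 2 * b / x ^ 4 + 1 := by linarith
    have h2 : (ℓ : ℝ) * (5 + 3 * x ^ 2) ≤ (2 * b / x ^ 4 + 1) * (4 * x ^ 2) :=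
      mul_le_mul h1 (by linarith) (by positivity) (by positivity)
    have h3 : (2 * b / x ^ 4 + 1) * (4 * x ^ 2) = (b / x) * (8 / x) + 4 * x ^ 2 := by
      field_simp
      ring
    have h4 : 8 / x ≤ 1 / 2 := by
      rw [div_le_iff₀ hxp]
      linarith
    have h5 : (b / x) * (8 / x) ≤ (b / x) * (1 / 2) := mul_le_mul_of_nonneg_left h4 (by positivity)
    linarith
  have hF' : (128 : ℝ) ^ ℓ * (ℓ.factorial : ℝ) ≤ Real.exp ((1 / 2) * (b / x) + 4 * x ^ 2) :=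
    hF.trans (Real.exp_le_exp.2 hexpo)
  have hC : C ≤ Real.exp |C| := by
    have h1 := Real.add_one_le_exp |C|
    have h2 := le_abs_self C
    linarith
  have hA : Real.exp (2 * a) ≤ Real.exp (2 * x ^ 8) := by
    apply Real.exp_le_exp.2
    have h1 : m ^ 2 = x ^ 8 := by rw [← hx4]; ring
    linarith
  have hm3 : (m + 1) ^ 3 ≤ Real.exp (3 * x ^ 4) := by
    have h1 : Real.exp (3 * x ^ 4) = Real.exp m ^ 3 := by
      rw [← Real.exp_nat_mul, hx4]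
      push_cast
      rfl
    rw [h1]
    exact pow_le_pow_left₀ (by linarith) (Real.add_one_le_exp m) _
  have hm6 : (Real.exp (x ^ 2) + 1) ^ 6 ≤ Real.exp (6 * (x ^ 2 + 1)) := by
    have h1 : Real.exp (6 * (x ^ 2 + 1)) = Real.exp (x ^ 2 + 1) ^ 6 := by
      rw [← Real.exp_nat_mul]
      push_cast
      rfl
    rw [h1]
    apply pow_le_pow_left₀ (by positivity)
    have h2 : Real.exp (x ^ 2 + 1) = Real.exp (x ^ 2) * Real.exp 1 := Real.exp_add _ _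
    have h3 := Real.exp_one_gt_d9
    rw [h2]
    nlinarith
  have hB : Real.exp (-(2 * x⁻¹ * b)) = Real.exp (-(2 * (b / x))) := by
    congr 1
    field_simp
  rw [hB]
  have hpos1 : 0 ≤ (128 : ℝ) ^ ℓ * (ℓ.factorial : ℝ) := by positivity
  have hpos2 : 0 ≤ (m + 1) ^ 3 := by positivity
  calc C * (128 ^ ℓ * (ℓ.factorial : ℝ)) * Real.exp (2 * a) * Real.exp (-(2 * (b / x))) *
      ((m + 1) ^ 3 * (Real.exp (x ^ 2) + 1) ^ 6)
      ≤ Real.exp |C| * Real.exp ((1 / 2) * (b / x) + 4 * x ^ 2) * Real.exp (2 * x ^ 8) *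
        Real.exp (-(2 * (b / x))) * (Real.exp (3 * x ^ 4) * Real.exp (6 * (x ^ 2 + 1))) := by
        gcongr
    _ = Real.exp (|C| + ((1 / 2) * (b / x) + 4 * x ^ 2) + 2 * x ^ 8 + (-(2 * (b / x))) +
          (3 * x ^ 4 + 6 * (x ^ 2 + 1))) := by
        simp only [Real.exp_add]
    _ ≤ Real.exp (-E) := by
        apply Real.exp_le_exp.2
        have h1 : E ^ 2 / 2 / x ≤ b / x := div_le_div_of_nonneg_right hbE hxp.le
        have h2 : 2 * E ≤ E ^ 2 / 2 / x := by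
          rw [le_div_iff₀ hxp]
          nlinarith
        have h3 : 3 * x ^ 4 ≤ x ^ 8 / 4 := by
          have h5 : x ^ 8 = x ^ 4 * x ^ 4 := by ring
          have h6 : (40000 : ℝ) ≤ x ^ 4 := by nlinarith
          nlinarith
        have h4 : 10 * x ^ 2 ≤ x ^ 8 / 4 := by
          have h5 : x ^ 8 = x ^ 2 * x ^ 6 := by ring
          have h6 : (40000 : ℝ) ≤ x ^ 6 := by
            calc (40000 : ℝ) ≤ 200 ^ 6 := by norm_num
              _ ≤ x ^ 6 := pow_le_pow_left₀ (by norm_num) hx _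
          nlinarith
        have h7 : |C| ≤ x ^ 8 / 4 := by
          have h5 : x ^ 8 = x * x ^ 7 := by ring
          nlinarith
        have h8 : (12 : ℝ) ≤ x ^ 8 / 4 := by nlinarith
        linarith

theorem num_exc (C : ℝ) {s : ℝ} (hs : 0 < s) (hs1 : s ≤ 1) : ∃ X₀ : ℝ, 3 ≤ X₀ ∧ ∀ X : ℝ, X₀ ≤ X → ∀ m α : ℝ,
    8 / s * (Real.log (Real.log X) + 7) ≤ m → m ^ 2 ≤ s / 16 * Real.log X → α ≤ s / 8 → ∀ (a : ℝ) (ℓ : ℕ),
    m - 1 ≤ a → a ≤ m ^ 2 → (ℓ : ℝ) * a ≤ Real.log X + a →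
    C * (128 ^ ℓ * (ℓ.factorial : ℝ)) * Real.exp a * X ^ (2 * α) * (m + 1) ^ 3 ≤ X ^ s := by
  set K : ℝ := max 3 (960 * |C| * Real.exp 5 * (2 / s) ^ 5) with hK
  have hK3 : 3 ≤ K := le_max_left _ _
  refine ⟨Real.exp K, ?_, ?_⟩
  · have := Real.add_one_le_exp K
    linarith
  intro X hX m α hm1 hm2 hα a ℓ ha1 ha2 hl
  have hX0 : 0 < X := (Real.exp_pos _).trans_le hX
  set x : ℝ := Real.log X with hxdef
  have hXx : X = Real.exp x := (Real.exp_log hX0).symm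
  have hxK : K ≤ x := (Real.le_log_iff_exp_le hX0).2 hX
  have hx3 : 3 ≤ x := hK3.trans hxK
  have hx0 : 0 < x := by linarith
  have hxC : 960 * |C| * Real.exp 5 * (2 / s) ^ 5 ≤ x := (le_max_right _ _).trans hxK
  set l : ℝ := Real.log x with hldef
  have hl0 : 0 ≤ l := Real.log_nonneg (by linarith)
  have hexl : Real.exp l = x := Real.exp_log hx0
  have h8s : 8 ≤ 8 / s := by
    rw [le_div_iff₀ hs]
    linarith
  have ha6 : 8 / s * (l + 6) ≤ a := by nlinarith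
  have ha48 : 48 ≤ a := by nlinarith
  have hap : 0 < a := by linarith
  have hl1 : ((ℓ : ℝ) - 1) * a ≤ x := by linarith
  have hsx : 0 ≤ s * x := by positivity
  have hl2 : (ℓ : ℝ) * (5 + l) ≤ s * x / 8 + (5 + l) := by
    rcases le_or_gt (1 : ℝ) ℓ with h | h
    · have h1 : ((ℓ : ℝ) - 1) * (8 / s * (l + 6)) ≤ x :=
        (mul_le_mul_of_nonneg_left ha6 (by linarith)).trans hl1
      have h2 : ((ℓ : ℝ) - 1) * (l + 6) ≤ s * x / 8 := by
        have h3 : ((ℓ : ℝ) - 1) * (8 / s * (l + 6)) = (((ℓ : ℝ) - 1) * (l + 6) * 8) / s := by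
          field_simp
        rw [h3, div_le_iff₀ hs] at h1
        linarith
      have h4 : ((ℓ : ℝ) - 1) * (5 + l) ≤ ((ℓ : ℝ) - 1) * (l + 6) :=
        mul_le_mul_of_nonneg_left (by linarith) (by linarith)
      linarith
    · have h1 : (ℓ : ℝ) * (5 + l) ≤ 1 * (5 + l) := mul_le_mul_of_nonneg_right h.le (by linarith)
      linarith
  have hlx : (ℓ : ℝ) ≤ Real.exp l := by
    rw [hexl]
    rcases le_or_gt (1 : ℝ) ℓ with h | h
    · have h1 : ((ℓ : ℝ) - 1) * 48 ≤ x := (mul_le_mul_of_nonneg_left ha48 (by linarith)).trans hl1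
      linarith
    · linarith
  have hF := clF_fact hlx
  have hF' : (128 : ℝ) ^ ℓ * (ℓ.factorial : ℝ) ≤ Real.exp (s * x / 8) * Real.exp 5 * x := by
    refine (hF.trans (Real.exp_le_exp.2 hl2)).trans (le_of_eq ?_)
    rw [Real.exp_add, Real.exp_add, hexl]
    ring
  have hm48 : 0 ≤ m := by nlinarith
  have hA : Real.exp a ≤ Real.exp (s * x / 16) := Real.exp_le_exp.2 (by linarith)
  have hXa : X ^ (2 * α) ≤ Real.exp (s * x / 4) := by
    rw [hXx, ← Real.exp_mul]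
    apply Real.exp_le_exp.2
    nlinarith
  have hXs : X ^ s = Real.exp (s * x) := by
    rw [hXx, ← Real.exp_mul, mul_comm]
  have hmx : m ≤ x := by
    have h1 : m ^ 2 ≤ x ^ 2 := by nlinarith
    exact le_of_sq_le_sq h1 hx0.le
  have hm3 : (m + 1) ^ 3 ≤ 8 * x ^ 3 := by
    calc (m + 1) ^ 3 ≤ (2 * x) ^ 3 := pow_le_pow_left₀ (by linarith) (by linarith) _
      _ = 8 * x ^ 3 := by ring
  have hfin : 8 * |C| * Real.exp 5 * x ^ 4 ≤ Real.exp (9 * (s * x) / 16) := by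
    have h1 := Real.pow_div_factorial_le_exp (s * x / 2) (by positivity) 5
    have h2 : (s * x / 2) ^ 5 / ((Nat.factorial 5 : ℕ) : ℝ) = (s / 2) ^ 5 * x ^ 5 / 120 := by
      norm_num [Nat.factorial]
      ring
    rw [h2] at h1
    have h3 : Real.exp (s * x / 2) ≤ Real.exp (9 * (s * x) / 16) := Real.exp_le_exp.2 (by linarith)
    have h4 : 8 * |C| * Real.exp 5 * x ^ 4 ≤ (s / 2) ^ 5 * x ^ 5 / 120 := by
      have h5 : (s / 2) ^ 5 * (2 / s) ^ 5 = 1 := by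
        rw [← mul_pow]
        have : s / 2 * (2 / s) = 1 := by field_simp
        rw [this]
        norm_num
      have h6 : (s / 2) ^ 5 * (960 * |C| * Real.exp 5 * (2 / s) ^ 5) ≤ (s / 2) ^ 5 * x :=
        mul_le_mul_of_nonneg_left hxC (by positivity)
      have h7 : (s / 2) ^ 5 * (960 * |C| * Real.exp 5 * (2 / s) ^ 5) = 960 * |C| * Real.exp 5 := by
        calc (s / 2) ^ 5 * (960 * |C| * Real.exp 5 * (2 / s) ^ 5)
            = 960 * |C| * Real.exp 5 * ((s / 2) ^ 5 * (2 / s) ^ 5) := by ring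
          _ = _ := by rw [h5, mul_one]
      rw [h7] at h6
      have h8 : 960 * |C| * Real.exp 5 * x ^ 4 ≤ (s / 2) ^ 5 * x * x ^ 4 :=
        mul_le_mul_of_nonneg_right h6 (by positivity)
      have h9 : (s / 2) ^ 5 * x * x ^ 4 = (s / 2) ^ 5 * x ^ 5 := by ring
      rw [h9] at h8
      linarith
    linarith
  have hpos1 : 0 ≤ (128 : ℝ) ^ ℓ * (ℓ.factorial : ℝ) := by positivity
  have hpos2 : 0 ≤ (m + 1) ^ 3 := by positivity
  have hpos3 : 0 ≤ X ^ (2 * α) := Real.rpow_nonneg hX0.le _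
  have hC : C ≤ |C| := le_abs_self C
  rw [hXs]
  calc C * (128 ^ ℓ * (ℓ.factorial : ℝ)) * Real.exp a * X ^ (2 * α) * (m + 1) ^ 3
      ≤ |C| * (Real.exp (s * x / 8) * Real.exp 5 * x) * Real.exp (s * x / 16) * Real.exp (s * x / 4) *
        (8 * x ^ 3) := by
        gcongr
    _ = 8 * |C| * Real.exp 5 * x ^ 4 * (Real.exp (s * x / 8) * Real.exp (s * x / 16) * Real.exp (s * x / 4)) := by
        ring
    _ ≤ Real.exp (9 * (s * x) / 16) * (Real.exp (s * x / 8) * Real.exp (s * x / 16) * Real.exp (s * x / 4)) :=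
        mul_le_mul_of_nonneg_right hfin (by positivity)
    _ = Real.exp (s * x) := by
        simp only [← Real.exp_add]
        congr 1
        ring

end Pool.Agent.Lib.MP_d57abb_nt.MR
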