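import Mathlib
import Pool.Agent.Lib.MP_d57abb_nt.MR.Dir
import Pool.Agent.Lib.MP_2a816b_nt.LargeSieve

/-!
# JOB Ls: the large sieve for primitive directions

* `sep`.  Let `v ≠ v'` be in `V' Y` and `m` an integer; `w = omu^m v'`.  `An v - An v' - m per = log (A / B)` with `A = s1 v * s2 w`, `B = s2 v * s1 w`, `A B = N v N w ≤ Y²`
  (`N w = N v'`).  `A - B = ± √5 (v.re w.im - w.re v.im)` and this determinant is a nonzero integer: if it were `0`, the primitive vectors `v`, `w` would be proportional,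
  `w = ± v`, `w = v` by positivity, and `nf_unique` gives `v = v'` (or: `dir w = dir v`, `dir_unique`).  So `|A - B| ≥ √5 > 2`.  If `|log (A/B)| ≥ 1` we are done
  (`Y ≥ 1`).  Otherwise `max A B ≤ e^(1/2) √(A B) ≤ 2 Y` and `|log (A/B)| ≥ |A - B| / max A B ≥ 1 / Y` (`log x ≥ 1 - 1/x`).  Divide by `per < 2`.
* `ls`.  `dual_sieve'` with `α v = An v / per`, `δ = 1/(2 Y)`, `N = 2 ⌊T⌋₊ + 1`: put `j = n - ⌊T⌋`, the factor `e ((t - ⌊T⌋) An v / per)` goes into the coefficient.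
* `ls_dir`.  `E_dir`: `c_i E t j (w_i) = c_i e(t k_i) E t j (dir (w_i))`; group the `i` with the same direction `v ∈ V' Y` (`N_dir_le`): the coefficient of `v` is at most
  `#{i : dir (w_i) = v}` in absolute value; `ls`.
* `sum_sq_card`: double counting (`Finset.card_eq_sum_card_fiberwise`, both sides count the pairs).
-/

namespace Pool.Agent.Lib.MP_d57abb_nt.MR

open Finset
open Pool.Agent.Lib.MP_2a816b_nt (e Sep dual_sieve')

private theorem Ls_log {A B Y : ℝ} (hB : 0 < B) (hAB : B + 2 ≤ A) (hY : 1 ≤ Y)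
    (h : A * B ≤ Y ^ 2) : 1 / Y ≤ Real.log A - Real.log B := by
  have hA : 0 < A := by linarith
  have hY0 : 0 < Y := by linarith
  by_cases h1 : 1 ≤ Real.log A - Real.log B
  · refine le_trans ?_ h1
    rw [div_le_one hY0]
    exact hY
  · push Not at h1
    have h2 : A < Real.exp 1 * B := by
      rw [← Real.log_lt_log_iff hA (by positivity), Real.log_mul (Real.exp_pos 1).ne' hB.ne',
        Real.log_exp]
      linarith
    have h3 : Real.exp 1 < 4 := by linarith [Real.exp_one_lt_d9]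
    have h4 : A < 4 * B := h2.trans (mul_lt_mul_of_pos_right h3 hB)
    have h5 : A ^ 2 < (2 * Y) ^ 2 := by
      have h6 : A * A < A * (4 * B) := mul_lt_mul_of_pos_left h4 hA
      nlinarith
    have h6 : A < 2 * Y := lt_of_pow_lt_pow_left₀ 2 (by positivity) h5
    have h7 : Real.log (B / A) ≤ B / A - 1 := Real.log_le_sub_one_of_pos (by positivity)
    rw [Real.log_div hB.ne' hA.ne'] at h7
    have h8 : 1 / Y ≤ 2 / A := by
      rw [div_le_div_iff₀ hY0 hA]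
      linarith
    have h9 : 2 / A ≤ 1 - B / A := by
      rw [div_le_iff₀ hA, sub_mul, div_mul_cancel₀ _ hA.ne']
      linarith
    linarith

private theorem Ls_abs {A B Y : ℝ} (hA : 0 < A) (hB : 0 < B) (hAB : 2 ≤ |A - B|) (hY : 1 ≤ Y)
    (h : A * B ≤ Y ^ 2) : 1 / Y ≤ |Real.log A - Real.log B| := by
  rcases le_abs.1 hAB with h1 | h1
  · exact (Ls_log hB (by linarith) hY h).trans (le_abs_self _)
  · rw [mul_comm] at h
    have h2 := Ls_log hA (by linarith) hY h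
    rw [abs_sub_comm]
    exact h2.trans (le_abs_self _)

/-- two totally positive vectors with different directions -/
private theorem Ls_det {v w : O} (hv : Qd v) (hw : TP w) (hd : dir v ≠ dir w) :
    v.im * w.re - v.re * w.im ≠ 0 := by
  intro h0
  apply hd
  have hv1 := hv.1
  have h1 : v.re * w.im = v.im * w.re := by linarith
  have h2 : (v.re : ℝ) * s1 w = (w.re : ℝ) * s1 v := by
    have h3 : (v.re : ℝ) * (w.im : ℝ) = (v.im : ℝ) * (w.re : ℝ) := by exact_mod_cast h1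
    unfold s1
    linear_combination Pool.Agent.Lib.MP_d57abb_nt.al * h3
  have h3 : 0 < (v.re : ℝ) := by exact_mod_cast (by omega : (0 : ℤ) < v.re)
  have h4 : 0 < (w.re : ℝ) := by
    have h5 : 0 < (w.re : ℝ) * s1 v := by
      rw [← h2]
      exact mul_pos h3 hw.1
    exact pos_of_mul_pos_left h5 hv.tp.1.le
  have h5 : 0 < w.re := by exact_mod_cast h4
  refine (dir_eq_iff hv.tp hw).2 ⟨w.re.toNat, v.re.toNat, 0, by omega, by omega, ?_⟩
  have e1 : ((w.re.toNat : ℕ) : O) = ((w.re : ℤ) : O) := by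
    rw [← Int.cast_natCast, Int.toNat_of_nonneg h5.le]
  have e2 : ((v.re.toNat : ℕ) : O) = ((v.re : ℤ) : O) := by
    rw [← Int.cast_natCast, Int.toNat_of_nonneg (by omega)]
  rw [e1, e2, zpow_zero, Units.val_one, one_mul]
  apply QuadraticAlgebra.ext
  · simp
    ring
  · simp
    linarith

theorem sep {Y : ℝ} (hY : 1 ≤ Y) : Sep (V' Y) (fun v => An v / per) (1 / (2 * Y)) := by
  intro v hv v' hv' hne m
  rw [mem_V'] at hv hv'
  obtain ⟨⟨hQ, hN⟩, hP⟩ := hv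
  obtain ⟨⟨hQ', hN'⟩, hP'⟩ := hv'
  have hY0 : 0 < Y := by linarith
  have hw : TP (((omu ^ m : Oˣ) : O) * v') := (TP_omu m).mul hQ'.tp
  have hdw : dir (((omu ^ m : Oˣ) : O) * v') = v' := by
    refine dir_unique (m := 1) (k := m) one_pos hQ' hP' ?_
    rw [Nat.cast_one, one_mul]
  have hd : dir v ≠ dir (((omu ^ m : Oˣ) : O) * v') := by
    rw [hdw, dir_eq_self hQ hP]
    exact hne
  have hNw : N (((omu ^ m : Oˣ) : O) * v') = N v' := by rw [N_mul, N_omu, one_mul]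
  have hAw : An (((omu ^ m : Oˣ) : O) * v') = m * per + An v' := by
    rw [An_mul (TP_omu m) hQ'.tp, An_omu]
  generalize ((omu ^ m : Oˣ) : O) * v' = w at hw hdw hd hNw hAw
  have hdet := Ls_det hQ hw hd
  have hAB : s1 v * s2 w - s2 v * s1 w =
      ((v.im * w.re - v.re * w.im : ℤ) : ℝ) * √5 := by
    rw [← Pool.Agent.Lib.MP_d57abb_nt.al_sub_be]
    unfold s1 s2
    push_cast
    ring
  have h5 : (2 : ℝ) ≤ √5 := by
    rw [Real.le_sqrt (by norm_num) (by norm_num)]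
    norm_num
  have habs : 2 ≤ |s1 v * s2 w - s2 v * s1 w| := by
    rw [hAB, abs_mul, abs_of_nonneg (Real.sqrt_nonneg 5)]
    have h6 : (1 : ℝ) ≤ |((v.im * w.re - v.re * w.im : ℤ) : ℝ)| := by
      rw [← Int.cast_abs]
      exact_mod_cast Int.one_le_abs hdet
    nlinarith
  have hp1 : 0 < s1 v * s2 w := mul_pos hQ.tp.1 hw.2
  have hp2 : 0 < s2 v * s1 w := mul_pos hQ.tp.2 hw.1
  have hprod : (s1 v * s2 w) * (s2 v * s1 w) ≤ Y ^ 2 := by
    have h6 : (s1 v * s2 w) * (s2 v * s1 w) = (N v : ℝ) * (N w : ℝ) := by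
      rw [N_eq, N_eq]
      ring
    rw [h6, hNw, pow_two]
    have h7 : (0 : ℝ) ≤ (N v' : ℝ) := by exact_mod_cast hQ'.tp.N_pos.le
    exact mul_le_mul hN hN' h7 hY0.le
  have hlog := Ls_abs hp1 hp2 habs hY hprod
  rw [Real.log_mul hQ.tp.1.ne' hw.2.ne', Real.log_mul hQ.tp.2.ne' hw.1.ne'] at hlog
  have hper := per_pos
  have hper2 := per_lt_two
  have e1 : Real.log (s1 v) + Real.log (s2 w) - (Real.log (s2 v) + Real.log (s1 w)) =
      per * (An v / per - An v' / per - m) := by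
    have e2 : per * (An v / per - An v' / per - m) = An v - An v' - m * per := by
      field_simp
    have e3 : An w = Real.log (s1 w) - Real.log (s2 w) := rfl
    have e4 : An v = Real.log (s1 v) - Real.log (s2 v) := rfl
    rw [e2]
    linarith
  rw [e1, abs_mul, abs_of_pos hper] at hlog
  show 1 / (2 * Y) ≤ |An v / per - An v' / per - m|
  have h8 : 1 / Y ≤ 2 * |An v / per - An v' / per - m| :=
    hlog.trans (mul_le_mul_of_nonneg_right hper2.le (abs_nonneg _))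
  rw [div_le_iff₀ hY0] at h8
  rw [div_le_iff₀ (by positivity)]
  linarith

theorem ls (t : ℝ) {Y T : ℝ} (hY : 1 ≤ Y) (hT : 0 ≤ T) (b : O → ℂ) :
    ∑ j ∈ Fr T, ‖∑ v ∈ V' Y, b v * E t j v‖ ^ 2 ≤ 9 * (2 * T + 1 + 2 * Y) * ∑ v ∈ V' Y, ‖b v‖ ^ 2 := by
  have hY0 : 0 < Y := by linarith
  have hF : 0 ≤ ⌊T⌋ := Int.floor_nonneg.2 hT
  have h1 := dual_sieve' (V' Y) (fun v => An v / per) (1 / (2 * Y)) (by positivity)
    (by rw [div_le_one (by positivity)]; linarith) (sep hY) (2 * ⌊T⌋ + 1).toNat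
    (fun v => b v * e ((t - ⌊T⌋) * (An v / per)))
  have h2 : ∑ j ∈ Fr T, ‖∑ v ∈ V' Y, b v * E t j v‖ ^ 2 =
      ∑ n ∈ range (2 * ⌊T⌋ + 1).toNat,
        ‖∑ v ∈ V' Y, b v * e ((t - ⌊T⌋) * (An v / per)) * e (n * (An v / per))‖ ^ 2 := by
    unfold Fr
    refine Finset.sum_bij (fun j _ => (j + ⌊T⌋).toNat) ?_ ?_ ?_ ?_
    · intro j hj
      rw [Finset.mem_Icc] at hj
      rw [Finset.mem_range]
      omega
    · intro j hj j' hj' h
      rw [Finset.mem_Icc] at hj hj'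
      have h' : (j + ⌊T⌋).toNat = (j' + ⌊T⌋).toNat := h
      omega
    · intro n hn
      rw [Finset.mem_range] at hn
      refine ⟨(n : ℤ) - ⌊T⌋, ?_, ?_⟩
      · rw [Finset.mem_Icc]
        omega
      · show ((n : ℤ) - ⌊T⌋ + ⌊T⌋).toNat = n
        omega
    · intro j hj
      rw [Finset.mem_Icc] at hj
      have h3 : (((j + ⌊T⌋).toNat : ℕ) : ℝ) = (j : ℝ) + (⌊T⌋ : ℝ) := by
        have h4 : (((j + ⌊T⌋).toNat : ℕ) : ℤ) = j + ⌊T⌋ := Int.toNat_of_nonneg (by omega)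
        have h5 : (((j + ⌊T⌋).toNat : ℕ) : ℝ) = ((((j + ⌊T⌋).toNat : ℕ) : ℤ) : ℝ) := by
          rw [Int.cast_natCast]
        rw [h5, h4, Int.cast_add]
      refine congrArg (fun z : ℂ => ‖z‖ ^ 2) (Finset.sum_congr rfl fun v _ => ?_)
      rw [mul_assoc, ← Pool.Agent.Lib.MP_2a816b_nt.e_add, h3]
      unfold E
      refine congrArg (fun z : ℝ => b v * e z) ?_
      ring
  rw [h2]
  refine h1.trans ?_
  have h3 : ∑ v ∈ V' Y, ‖b v * e ((t - ⌊T⌋) * (An v / per))‖ ^ 2 = ∑ v ∈ V' Y, ‖b v‖ ^ 2 := by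
    refine Finset.sum_congr rfl fun v _ => ?_
    rw [norm_mul, Pool.Agent.Lib.MP_2a816b_nt.norm_e, mul_one]
  rw [h3]
  have h4 : (((2 * ⌊T⌋ + 1).toNat : ℕ) : ℝ) = 2 * (⌊T⌋ : ℝ) + 1 := by
    have h5 : (((2 * ⌊T⌋ + 1).toNat : ℕ) : ℤ) = 2 * ⌊T⌋ + 1 := Int.toNat_of_nonneg (by omega)
    have h6 : (((2 * ⌊T⌋ + 1).toNat : ℕ) : ℝ) = ((((2 * ⌊T⌋ + 1).toNat : ℕ) : ℤ) : ℝ) := by
      rw [Int.cast_natCast]
    rw [h6, h5]
    push_cast
    ring
  have h5 : (⌊T⌋ : ℝ) ≤ T := Int.floor_le T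
  refine mul_le_mul_of_nonneg_right ?_ (Finset.sum_nonneg fun v _ => by positivity)
  rw [h4, one_div_one_div]
  linarith

open Classical in
theorem ls_dir (t : ℝ) {Y T : ℝ} (hY : 1 ≤ Y) (hT : 0 ≤ T) {ι : Type*} (s : Finset ι) (w : ι → O) (c : ι → ℂ)
    (hw : ∀ i ∈ s, TP (w i) ∧ (N (w i) : ℝ) ≤ Y) (hc : ∀ i ∈ s, ‖c i‖ ≤ 1) :
    ∑ j ∈ Fr T, ‖∑ i ∈ s, c i * E t j (w i)‖ ^ 2 ≤
      9 * (2 * T + 1 + 2 * Y) * ∑ v ∈ V' Y, ((s.filter (fun i => dir (w i) = v)).card : ℝ) ^ 2 := by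
  have hk : ∀ i : ι, ∃ k : ℤ, i ∈ s → ∀ j : ℤ, E t j (w i) = e (t * k) * E t j (dir (w i)) := by
    intro i
    by_cases hi : i ∈ s
    · obtain ⟨k, hk⟩ := E_dir t (hw i hi).1
      exact ⟨k, fun _ => hk⟩
    · exact ⟨0, fun h => absurd h hi⟩
  choose k hk using hk
  have hmaps : ∀ i ∈ s, dir (w i) ∈ V' Y := by
    intro i hi
    obtain ⟨h1, h2⟩ := hw i hi
    rw [mem_V']
    refine ⟨⟨dir_Qd h1, le_trans ?_ h2⟩, dir_Pm h1⟩
    exact_mod_cast N_dir_le h1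
  have h1 : ∀ j : ℤ, ∑ i ∈ s, c i * E t j (w i) =
      ∑ v ∈ V' Y, (∑ i ∈ s.filter (fun i => dir (w i) = v), c i * e (t * k i)) * E t j v := by
    intro j
    rw [← Finset.sum_fiberwise_of_maps_to hmaps]
    refine Finset.sum_congr rfl fun v _ => ?_
    rw [Finset.sum_mul]
    refine Finset.sum_congr rfl fun i hi => ?_
    rw [Finset.mem_filter] at hi
    rw [hk i hi.1 j, hi.2, mul_assoc]
  simp only [h1]
  refine (ls t hY hT _).trans ?_
  refine mul_le_mul_of_nonneg_left ?_ (by positivity)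
  refine Finset.sum_le_sum fun v _ => ?_
  refine pow_le_pow_left₀ (norm_nonneg _) ?_ 2
  refine (norm_sum_le _ _).trans ?_
  have h2 : ∀ i ∈ s.filter (fun i => dir (w i) = v), ‖c i * e (t * k i)‖ ≤ 1 := by
    intro i hi
    rw [norm_mul, Pool.Agent.Lib.MP_2a816b_nt.norm_e, mul_one]
    exact hc i (Finset.mem_filter.1 hi).1
  refine (Finset.sum_le_card_nsmul _ _ _ h2).trans ?_
  rw [nsmul_eq_mul, mul_one]

open Classical in
theorem sum_sq_card {Y : ℝ} {ι : Type*} (s : Finset ι) (w : ι → O) (hw : ∀ i ∈ s, TP (w i) ∧ (N (w i) : ℝ) ≤ Y) :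
    ∑ v ∈ V' Y, ((s.filter (fun i => dir (w i) = v)).card : ℝ) ^ 2 =
      (((s ×ˢ s).filter (fun q => dir (w q.1) = dir (w q.2))).card : ℝ) := by
  have hmaps : ∀ q ∈ (s ×ˢ s).filter (fun q => dir (w q.1) = dir (w q.2)), dir (w q.1) ∈ V' Y := by
    intro q hq
    rw [Finset.mem_filter, Finset.mem_product] at hq
    obtain ⟨h1, h2⟩ := hw q.1 hq.1.1
    rw [mem_V']
    refine ⟨⟨dir_Qd h1, le_trans ?_ h2⟩, dir_Pm h1⟩
    exact_mod_cast N_dir_le h1
  rw [Finset.card_eq_sum_card_fiberwise hmaps, Nat.cast_sum]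
  refine Finset.sum_congr rfl fun v _ => ?_
  have h1 : ((s ×ˢ s).filter (fun q => dir (w q.1) = dir (w q.2))).filter
      (fun q => dir (w q.1) = v) =
      (s.filter (fun i => dir (w i) = v)) ×ˢ (s.filter (fun i => dir (w i) = v)) := by
    ext q
    simp only [Finset.mem_filter, Finset.mem_product]
    constructor
    · rintro ⟨⟨⟨h1, h2⟩, h3⟩, h4⟩
      exact ⟨⟨h1, h4⟩, h2, h3 ▸ h4⟩
    · rintro ⟨⟨h1, h4⟩, h2, h5⟩
      exact ⟨⟨⟨h1, h2⟩, h4.trans h5.symm⟩, h4⟩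
  rw [h1, Finset.card_product, Nat.cast_mul, pow_two]

end Pool.Agent.Lib.MP_d57abb_nt.MR
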