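import Mathlib
import Pool.Agent.Lib.MP_d57abb_nt.MR.Dir

/-!
# JOB MoA: reduction of a product

Induction on `S` (`Finset.induction_on`).  `S = ∅`: `T = ∅`, `u₁ = u`.  `insert k S`: let `T ⊆ S`, `u₁` for `S`, `x = (∏_{S \ T} γ) u₁` primitive.
* If `star (γ k) ∤ x`: `γ k * x` is primitive (`Pm_mul`), take the same `T`, `u₁` (`(insert k S) \ T = insert k (S \ T)`).
* If `star (γ k) ∣ x`: `star (γ k)` is prime (`prime_of_norm`, norm `N_star`) and does not divide any `γ i`, `i ∈ S \ T`, so `star (γ k) ∣ u₁` (`Prime.dvd_mul`,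
  `Prime.dvd_finsetProd_iff`), `u₁ = star (γ k) * u₂`; take `T' = insert k T`, `u₂`: `(insert k S) \ T' = S \ T`, and `(∏_{S \ T} γ) u₂` divides the primitive `x`
  (`Pm_of_mul`).
-/

namespace Pool.Agent.Lib.MP_d57abb_nt.MR

open Finset

theorem reduce {ι : Type*} [DecidableEq ι] (S : Finset ι) (γ : ι → O) (hγ : ∀ i ∈ S, TP (γ i) ∧ (N (γ i)).natAbs.Prime)
    (hc : ∀ i ∈ S, ∀ k ∈ S, ¬ star (γ i) ∣ γ k) {u : O} (hu : Pm u) :
    ∃ T ⊆ S, ∃ u₁ : O, u = (∏ i ∈ T, star (γ i)) * u₁ ∧ Pm ((∏ i ∈ S \ T, γ i) * u₁) := by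
  revert u
  induction S using Finset.induction_on with
  | empty =>
    intro u hu
    refine ⟨∅, subset_rfl, u, ?_, ?_⟩
    · rw [prod_empty, one_mul]
    · rw [sdiff_empty, prod_empty, one_mul]
      exact hu
  | insert k S hkS ih =>
    intro u hu
    have hγS : ∀ i ∈ S, TP (γ i) ∧ (N (γ i)).natAbs.Prime := fun i hi => hγ i (mem_insert_of_mem hi)
    have hcS : ∀ i ∈ S, ∀ j ∈ S, ¬ star (γ i) ∣ γ j := fun i hi j hj =>
      hc i (mem_insert_of_mem hi) j (mem_insert_of_mem hj)
    obtain ⟨T, hTS, u₁, hu1, hu2⟩ := ih hγS hcS hu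
    have hk := hγ k (mem_insert_self k S)
    have hkT : k ∉ T := fun h => hkS (hTS h)
    by_cases hd : star (γ k) ∣ (∏ i ∈ S \ T, γ i) * u₁
    · -- `star (γ k)` divides
      have hp : Prime (star (γ k)) := by
        apply prime_of_norm
        rw [N_star]
        exact hk.2
      have hd2 : star (γ k) ∣ u₁ := by
        rcases hp.dvd_or_dvd hd with h | h
        · exfalso
          obtain ⟨i, hi, hdi⟩ := (Prime.dvd_finsetProd_iff hp γ).1 h
          have hiS : i ∈ S := (mem_sdiff.1 hi).1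
          exact hc k (mem_insert_self k S) i (mem_insert_of_mem hiS) hdi
        · exact h
      obtain ⟨u₂, hu₂⟩ := hd2
      refine ⟨insert k T, insert_subset_insert k hTS, u₂, ?_, ?_⟩
      · rw [prod_insert hkT, hu1, hu₂]
        ring
      · have hs : insert k S \ insert k T = S \ T := by
          ext i
          simp only [mem_sdiff, mem_insert]
          constructor
          · rintro ⟨h1 | h1, h2⟩
            · exact absurd (Or.inl h1) h2
            · exact ⟨h1, fun h3 => h2 (Or.inr h3)⟩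
          · rintro ⟨h1, h2⟩
            refine ⟨Or.inr h1, ?_⟩
            rintro (h3 | h3)
            · exact hkS (h3 ▸ h1)
            · exact h2 h3
        rw [hs]
        apply Pm_of_mul (x := star (γ k))
        have h3 : star (γ k) * ((∏ i ∈ S \ T, γ i) * u₂) = (∏ i ∈ S \ T, γ i) * u₁ := by
          rw [hu₂]
          ring
        rw [h3]
        exact hu2
    · refine ⟨T, hTS.trans (subset_insert k S), u₁, hu1, ?_⟩
      rw [insert_sdiff_of_notMem S hkT, prod_insert (fun h => hkS (mem_sdiff.1 h).1), mul_assoc]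
      exact Pm_mul hk.2 hk.1 hu2 hd

end Pool.Agent.Lib.MP_d57abb_nt.MR
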