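import Mathlib
import Pool.Agent.Lib.MP_d57abb_nt.MR.MoA
import Pool.Agent.Lib.MP_d57abb_nt.MR.RmE

/-!
# JOB MoB: counting with a reduced product

Let `Γ = ∏_{i ∈ S} γ i`.  For `u ∈ V' Y0` with `N (dir (Γ u)) ≤ Y0` let `T`, `u₁` be as in `reduce`.  Then
`Γ u = (∏_{T} γ star γ) (∏_{S \ T} γ) u₁ = (∏_T N γ) * x`, `x = (∏_{S \ T} γ) u₁` primitive and totally positive, so `dir (Γ u) = dir x` and `N (dir (Γ u)) = N x` (`N_dir_of_Pm`; `dir (n * x) = dir x`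
for a positive integer `n`: `dir_eq_iff`).  So `N u * N (dir (Γ u)) = (∏_{T} N γ) N u₁ (∏_{S \ T} N γ) N u₁ = N Γ * (N u₁)²`, and
`(N u₁)² M² ≤ N u N (dir (Γ u)) ≤ Y0²`, `N u₁ ≤ Y0 / M`.  `u₁` is totally positive (`TP.of_mul`: `u` and `∏ star γ` are).
The map `u ↦ (T, nf u₁) ∈ S.powerset × V (Y0 / M)` is injective: `u = nf ((∏_T star γ) u₁)` and `u₁ = omu^k nf u₁`, so `u = nf ((∏_T star γ) nf u₁)` (`nf_eq`).
(`Finset.card_le_card_of_injOn`, with `choose` for `T`, `u₁`.)  Finally `#V (Y0 / M) ≤ C Y0 / M` (`card_V_le`; `Y0 < 0` gives the empty set).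
-/

namespace Pool.Agent.Lib.MP_d57abb_nt.MR

open Finset

private theorem MoB_point {ι : Type} [DecidableEq ι] (S : Finset ι) (γ : ι → O)
    (hγ : ∀ i ∈ S, TP (γ i) ∧ (N (γ i)).natAbs.Prime) (hc : ∀ i ∈ S, ∀ k ∈ S, ¬ star (γ i) ∣ γ k)
    (M Y0 : ℝ) (hM : 0 < M) (hM2 : M ^ 2 ≤ ((∏ i ∈ S, N (γ i) : ℤ) : ℝ)) (hY : 0 ≤ Y0)
    {u : O} (hu : Qd u) (hup : Pm u) (hN : (N u : ℝ) ≤ Y0)
    (hd : (N (dir ((∏ i ∈ S, γ i) * u)) : ℝ) ≤ Y0) :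
    ∃ p ∈ S.powerset ×ˢ V (Y0 / M), nf ((∏ i ∈ p.1, star (γ i)) * p.2) = u := by
  obtain ⟨T, hT, u₁, hu1, hx⟩ := reduce S γ hγ hc hup
  have htu : TP u := hu.tp
  have htS : TP (∏ i ∈ T, star (γ i)) := TP_prod fun i hi => (hγ i (hT hi)).1.star
  have htu1 : TP u₁ := TP.of_mul htS (hu1 ▸ htu)
  have htx : TP ((∏ i ∈ S \ T, γ i) * u₁) :=
    TP.mul (TP_prod fun i hi => (hγ i (Finset.mem_sdiff.mp hi).1).1) htu1
  have htG : TP ((∏ i ∈ S, γ i) * u) := TP.mul (TP_prod fun i hi => (hγ i hi).1) htu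
  have hpos : 0 < ∏ i ∈ T, N (γ i) := Finset.prod_pos fun i hi => (hγ i (hT hi)).1.N_pos
  obtain ⟨n, hn⟩ := Int.eq_ofNat_of_zero_le hpos.le
  have hn0 : 0 < n := by
    rw [hn] at hpos
    exact_mod_cast hpos
  have e1 : (∏ i ∈ S, γ i) * u = ((n : ℕ) : O) * ((∏ i ∈ S \ T, γ i) * u₁) := by
    have h1 : (∏ i ∈ S, γ i) = (∏ i ∈ S \ T, γ i) * ∏ i ∈ T, γ i := (Finset.prod_sdiff hT).symm
    have h2 : (∏ i ∈ T, γ i) * (∏ i ∈ T, star (γ i)) = ((n : ℕ) : O) := by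
      rw [← Finset.prod_mul_distrib, Finset.prod_congr rfl fun i _ => mul_star_self (γ i),
        ← Int.cast_prod, hn, Int.cast_natCast]
    rw [h1, hu1, ← h2]
    ring
  have e2 : dir ((∏ i ∈ S, γ i) * u) = dir ((∏ i ∈ S \ T, γ i) * u₁) := by
    rw [dir_eq_iff htG htx]
    refine ⟨1, n, 0, one_pos, hn0, ?_⟩
    rw [e1, zpow_zero, Units.val_one, one_mul, Nat.cast_one, one_mul]
  have e3 : N (dir ((∏ i ∈ S, γ i) * u)) = (∏ i ∈ S \ T, N (γ i)) * N u₁ := by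
    rw [e2, N_dir_of_Pm htx hx, N_mul, N_prod]
  have e4 : N u = (∏ i ∈ T, N (γ i)) * N u₁ := by
    rw [hu1, N_mul, N_prod]
    congr 1
    exact Finset.prod_congr rfl fun i _ => N_star (γ i)
  have e5 : N u * N (dir ((∏ i ∈ S, γ i) * u)) = (∏ i ∈ S, N (γ i)) * (N u₁) ^ 2 := by
    rw [e3, e4, ← Finset.prod_sdiff hT]
    ring
  have hN1 : (0 : ℝ) < (N u₁ : ℝ) := by exact_mod_cast htu1.N_pos
  have hN0 : (0 : ℝ) < (N u : ℝ) := by exact_mod_cast htu.N_pos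
  have hle : (M * (N u₁ : ℝ)) ^ 2 ≤ Y0 ^ 2 := by
    have e6 : (N u : ℝ) * (N (dir ((∏ i ∈ S, γ i) * u)) : ℝ) =
        ((∏ i ∈ S, N (γ i) : ℤ) : ℝ) * (N u₁ : ℝ) ^ 2 := by
      exact_mod_cast e5
    calc (M * (N u₁ : ℝ)) ^ 2 = M ^ 2 * (N u₁ : ℝ) ^ 2 := by ring
      _ ≤ ((∏ i ∈ S, N (γ i) : ℤ) : ℝ) * (N u₁ : ℝ) ^ 2 :=
          mul_le_mul_of_nonneg_right hM2 (by positivity)
      _ = (N u : ℝ) * (N (dir ((∏ i ∈ S, γ i) * u)) : ℝ) := e6.symm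
      _ ≤ (N u : ℝ) * Y0 := mul_le_mul_of_nonneg_left hd hN0.le
      _ ≤ Y0 * Y0 := mul_le_mul_of_nonneg_right hN hY
      _ = Y0 ^ 2 := by ring
  have hle2 : M * (N u₁ : ℝ) ≤ Y0 := (sq_le_sq₀ (by positivity) hY).mp hle
  have hle3 : (N u₁ : ℝ) ≤ Y0 / M := by
    rw [le_div_iff₀ hM, mul_comm]
    exact hle2
  obtain ⟨k, hk⟩ := nf_spec htu1
  refine ⟨(T, nf u₁), Finset.mem_product.mpr ⟨Finset.mem_powerset.mpr hT, ?_⟩, ?_⟩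
  · rw [mem_V]
    exact ⟨nf_Qd htu1, by rw [N_nf htu1]; exact hle3⟩
  · refine nf_eq hu (k := -k) ?_
    have h7 : ((omu ^ (-k) : Oˣ) : O) * ((omu ^ k : Oˣ) : O) = 1 := by
      rw [← Units.val_mul, ← zpow_add, neg_add_cancel, zpow_zero, Units.val_one]
    change (∏ i ∈ T, star (γ i)) * nf u₁ = ((omu ^ (-k) : Oˣ) : O) * u
    calc (∏ i ∈ T, star (γ i)) * nf u₁ =
        (((omu ^ (-k) : Oˣ) : O) * ((omu ^ k : Oˣ) : O)) * ((∏ i ∈ T, star (γ i)) * nf u₁) := by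
          rw [h7, one_mul]
      _ = ((omu ^ (-k) : Oˣ) : O) * ((∏ i ∈ T, star (γ i)) * (((omu ^ k : Oˣ) : O) * nf u₁)) := by
          ring
      _ = ((omu ^ (-k) : Oˣ) : O) * u := by rw [← hk, ← hu1]

theorem count_red : ∃ C : ℝ, 1 ≤ C ∧ ∀ {ι : Type} [DecidableEq ι] (S : Finset ι) (γ : ι → O)
    (_ : ∀ i ∈ S, TP (γ i) ∧ (N (γ i)).natAbs.Prime) (_ : ∀ i ∈ S, ∀ k ∈ S, ¬ star (γ i) ∣ γ k)
    (M Y0 : ℝ), 0 < M → M ^ 2 ≤ ((∏ i ∈ S, N (γ i) : ℤ) : ℝ) → 0 ≤ Y0 →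
    (((V' Y0).filter (fun u => (N (dir ((∏ i ∈ S, γ i) * u)) : ℝ) ≤ Y0)).card : ℝ) ≤ C * 2 ^ S.card * (Y0 / M) := by
  obtain ⟨C, hC, hV⟩ := card_V_le
  refine ⟨C, hC, ?_⟩
  intro ι _ S γ hγ hc M Y0 hM hM2 hY
  have hsub : (V' Y0).filter (fun u => (N (dir ((∏ i ∈ S, γ i) * u)) : ℝ) ≤ Y0) ⊆
      (S.powerset ×ˢ V (Y0 / M)).image (fun p => nf ((∏ i ∈ p.1, star (γ i)) * p.2)) := by
    intro u hu
    rw [Finset.mem_filter, mem_V'] at hu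
    obtain ⟨⟨⟨h1, h2⟩, h3⟩, h4⟩ := hu
    obtain ⟨p, hp1, hp2⟩ := MoB_point S γ hγ hc M Y0 hM hM2 hY h1 h3 h2 h4
    exact Finset.mem_image.mpr ⟨p, hp1, hp2⟩
  have h1 : ((V' Y0).filter (fun u => (N (dir ((∏ i ∈ S, γ i) * u)) : ℝ) ≤ Y0)).card ≤
      2 ^ S.card * (V (Y0 / M)).card := by
    refine (Finset.card_le_card hsub).trans (Finset.card_image_le.trans ?_)
    rw [Finset.card_product, Finset.card_powerset]
  have h2 : (((V' Y0).filter (fun u => (N (dir ((∏ i ∈ S, γ i) * u)) : ℝ) ≤ Y0)).card : ℝ) ≤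
      2 ^ S.card * ((V (Y0 / M)).card : ℝ) := by
    exact_mod_cast h1
  refine h2.trans ?_
  have h3 := hV (Y0 / M) (by positivity)
  calc (2 : ℝ) ^ S.card * ((V (Y0 / M)).card : ℝ) ≤ 2 ^ S.card * (C * (Y0 / M)) :=
        mul_le_mul_of_nonneg_left h3 (by positivity)
    _ = C * 2 ^ S.card * (Y0 / M) := by ring

end Pool.Agent.Lib.MP_d57abb_nt.MR
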