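import Mathlib

/-!
# JOB MoC: matchings

For `p, p' : Fin ℓ → α` with values in `P` choose a matching `(I, σ)` (`σ` injective on `I`, `p' (σ i) = p i` for `i ∈ I`) with `#I` maximal (finitely many, `I = ∅` is one).
Then no `i ∉ I`, `i' ∉ σ(I)` have `p i = p' i'`, otherwise the matching can be extended (`I ∪ {i}`, `σ i = i'`).  So `K p p' ≤ κ (ℓ - #I)`.
Summing over all `(I, σ)`: it is enough to consider `σ` with `σ i = i` for `i ∉ I`... (or simply restrict `σ` to `I`, i.e. sum over the pairs `(I, τ)`, `τ : I ↪ Fin ℓ`).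
For a given `(I, τ)` with `#I = ℓ - m` the number of `(p, p')` with `p' (τ i) = p i` on `I` is at most `#P^ℓ * #P^m` (`p` is arbitrary, `p'` is determined on `τ(I)`, which has `ℓ - m`
elements).  The number of `(I, τ)` with `#I = ℓ - m` is at most `(ℓ choose m) * (number of injections) ≤ 2^ℓ * ℓ!` (`Fintype.card_embedding_eq`, `descFactorial ≤ ℓ!`).
So `∑_{p, p'} K p p' ≤ ∑_m 2^ℓ ℓ! #P^(ℓ + m) κ m`.
Any other proof is welcome, for instance by induction on `ℓ`.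
-/

namespace Pool.Agent.Lib.MP_d57abb_nt.MR

open Finset

private theorem MoC_max {α : Type*} [DecidableEq α] (ℓ : ℕ) (p p' : Fin ℓ → α) :
    ∃ (I : Finset (Fin ℓ)) (σ : Equiv.Perm (Fin ℓ)), (∀ i ∈ I, p' (σ i) = p i) ∧
      (∀ i, i ∉ I → ∀ i', i' ∉ I.image σ → p i ≠ p' i') := by
  classical
  obtain ⟨x, hx, hxm⟩ := Finset.exists_max_image
    (Finset.univ.filter (fun x : Finset (Fin ℓ) × Equiv.Perm (Fin ℓ) => ∀ i ∈ x.1, p' (x.2 i) = p i))
    (fun x => x.1.card) ⟨(∅, 1), by simp⟩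
  have hx2 := (Finset.mem_filter.1 hx).2
  refine ⟨x.1, x.2, hx2, fun i hi i' hi' heq => ?_⟩
  have hmem : (insert i x.1, x.2.trans (Equiv.swap (x.2 i) i')) ∈
      Finset.univ.filter (fun x : Finset (Fin ℓ) × Equiv.Perm (Fin ℓ) => ∀ i ∈ x.1, p' (x.2 i) = p i) := by
    refine Finset.mem_filter.2 ⟨Finset.mem_univ _, ?_⟩
    intro j hj
    rcases Finset.mem_insert.1 hj with hj | hj
    · subst hj
      show p' ((Equiv.swap (x.2 j) i') (x.2 j)) = p j
      rw [Equiv.swap_apply_left]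
      exact heq.symm
    · have h1 : x.2 j ≠ x.2 i := fun h => hi ((x.2.injective h) ▸ hj)
      have h2 : x.2 j ≠ i' := fun h => hi' (Finset.mem_image.2 ⟨j, hj, h⟩)
      show p' ((Equiv.swap (x.2 i) i') (x.2 j)) = p j
      rw [Equiv.swap_apply_of_ne_of_ne h1 h2]
      exact hx2 j hj
  have h := hxm _ hmem
  simp only [Finset.card_insert_of_notMem hi] at h
  omega

private theorem MoC_count {α : Type*} [DecidableEq α] (P : Finset α) (ℓ : ℕ) (p : Fin ℓ → α) (I : Finset (Fin ℓ))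
    (σ : Equiv.Perm (Fin ℓ)) :
    ((Fintype.piFinset (fun _ : Fin ℓ => P)).filter (fun p' => ∀ i ∈ I, p' (σ i) = p i)).card ≤
      P.card ^ (ℓ - I.card) := by
  classical
  have h1 : (Fintype.piFinset (fun _ : Fin ℓ => P)).filter (fun p' => ∀ i ∈ I, p' (σ i) = p i) ⊆
      Fintype.piFinset (fun i' : Fin ℓ => if i' ∈ I.image σ then {p (σ.symm i')} else P) := by
    intro p' hp'
    rw [Finset.mem_filter, Fintype.mem_piFinset] at hp'
    rw [Fintype.mem_piFinset]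
    intro i'
    split_ifs with h
    · obtain ⟨i, hi, rfl⟩ := Finset.mem_image.1 h
      rw [Equiv.symm_apply_apply, Finset.mem_singleton]
      exact hp'.2 i hi
    · exact hp'.1 i'
  refine (Finset.card_le_card h1).trans (le_of_eq ?_)
  rw [Fintype.card_piFinset]
  have h2 : ∀ i' : Fin ℓ, (if i' ∈ I.image σ then ({p (σ.symm i')} : Finset α) else P).card =
      if i' ∈ I.image σ then 1 else P.card := by
    intro i'
    split_ifs
    · exact Finset.card_singleton _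
    · rfl
  rw [Finset.prod_congr rfl fun i' _ => h2 i', Finset.prod_ite]
  simp only [Finset.prod_const_one, one_mul, Finset.prod_const]
  congr 1
  rw [Finset.filter_not, Finset.card_sdiff_of_subset (Finset.filter_subset _ _), Finset.card_univ, Fintype.card_fin]
  congr 1
  rw [Finset.filter_mem_eq_inter, Finset.univ_inter, Finset.card_image_of_injective _ σ.injective]

theorem matching {α : Type*} [DecidableEq α] (P : Finset α) (ℓ : ℕ) (K : (Fin ℓ → α) → (Fin ℓ → α) → ℝ) (κ : ℕ → ℝ)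
    (hκ : ∀ m, 0 ≤ κ m)
    (hK : ∀ p ∈ Fintype.piFinset (fun _ : Fin ℓ => P), ∀ p' ∈ Fintype.piFinset (fun _ : Fin ℓ => P),
      ∀ (I : Finset (Fin ℓ)) (σ : Fin ℓ → Fin ℓ), Set.InjOn σ I → (∀ i ∈ I, p' (σ i) = p i) →
      (∀ i, i ∉ I → ∀ i', i' ∉ I.image σ → p i ≠ p' i') → K p p' ≤ κ (ℓ - I.card)) :
    ∑ p ∈ Fintype.piFinset (fun _ : Fin ℓ => P), ∑ p' ∈ Fintype.piFinset (fun _ : Fin ℓ => P), K p p' ≤
      ∑ m ∈ range (ℓ + 1), 2 ^ ℓ * (ℓ.factorial : ℝ) * (P.card : ℝ) ^ (ℓ + m) * κ m := by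
  classical
  have hpt : ∀ p ∈ Fintype.piFinset (fun _ : Fin ℓ => P), ∀ p' ∈ Fintype.piFinset (fun _ : Fin ℓ => P),
      K p p' ≤ ∑ x : Finset (Fin ℓ) × Equiv.Perm (Fin ℓ),
        if (∀ i ∈ x.1, p' (x.2 i) = p i) then κ (ℓ - x.1.card) else 0 := by
    intro p hp p' hp'
    obtain ⟨I, σ, h1, h2⟩ := MoC_max ℓ p p'
    refine (hK p hp p' hp' I σ σ.injective.injOn h1 h2).trans ?_
    have h3 := Finset.single_le_sum (f := fun x : Finset (Fin ℓ) × Equiv.Perm (Fin ℓ) =>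
      if (∀ i ∈ x.1, p' (x.2 i) = p i) then κ (ℓ - x.1.card) else 0) (s := Finset.univ)
      (fun x _ => by
        show 0 ≤ if (∀ i ∈ x.1, p' (x.2 i) = p i) then κ (ℓ - x.1.card) else 0
        split_ifs
        · exact hκ _
        · exact le_refl _) (Finset.mem_univ (I, σ))
    refine le_trans ?_ h3
    show κ (ℓ - I.card) ≤ if (∀ i ∈ I, p' (σ i) = p i) then κ (ℓ - I.card) else 0
    rw [if_pos h1]
  have hcnt : ∀ x : Finset (Fin ℓ) × Equiv.Perm (Fin ℓ),
      ∑ p ∈ Fintype.piFinset (fun _ : Fin ℓ => P), ∑ p' ∈ Fintype.piFinset (fun _ : Fin ℓ => P),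
        (if (∀ i ∈ x.1, p' (x.2 i) = p i) then κ (ℓ - x.1.card) else 0) ≤
      (P.card : ℝ) ^ (ℓ + (ℓ - x.1.card)) * κ (ℓ - x.1.card) := by
    intro x
    have h1 : ∀ p ∈ Fintype.piFinset (fun _ : Fin ℓ => P), ∑ p' ∈ Fintype.piFinset (fun _ : Fin ℓ => P),
        (if (∀ i ∈ x.1, p' (x.2 i) = p i) then κ (ℓ - x.1.card) else 0) ≤
        (P.card : ℝ) ^ (ℓ - x.1.card) * κ (ℓ - x.1.card) := by
      intro p _
      rw [← Finset.sum_filter, Finset.sum_const, nsmul_eq_mul]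
      refine mul_le_mul_of_nonneg_right ?_ (hκ _)
      exact_mod_cast MoC_count P ℓ p x.1 x.2
    refine (Finset.sum_le_sum h1).trans (le_of_eq ?_)
    rw [Finset.sum_const, Fintype.card_piFinset, Finset.prod_const, Finset.card_univ, Fintype.card_fin, nsmul_eq_mul]
    push_cast
    ring
  have hfib : ∀ g : ℕ → ℝ, (∀ m, 0 ≤ g m) → ∑ I : Finset (Fin ℓ), g (ℓ - I.card) ≤ ∑ m ∈ range (ℓ + 1), 2 ^ ℓ * g m := by
    intro g hg
    have hm : ∀ I ∈ (Finset.univ : Finset (Finset (Fin ℓ))), ℓ - I.card ∈ range (ℓ + 1) := by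
      intro I _
      rw [Finset.mem_range]
      omega
    rw [← Finset.sum_fiberwise_of_maps_to hm]
    refine Finset.sum_le_sum fun m _ => ?_
    have h2 : ∑ I ∈ (Finset.univ : Finset (Finset (Fin ℓ))).filter (fun I => ℓ - I.card = m), g (ℓ - I.card) =
        (((Finset.univ : Finset (Finset (Fin ℓ))).filter (fun I => ℓ - I.card = m)).card : ℝ) * g m := by
      rw [Finset.sum_congr rfl (fun I hI => by rw [(Finset.mem_filter.1 hI).2]), Finset.sum_const, nsmul_eq_mul]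
    rw [h2]
    refine mul_le_mul_of_nonneg_right ?_ (hg m)
    have h3 : ((Finset.univ : Finset (Finset (Fin ℓ))).filter (fun I => ℓ - I.card = m)).card ≤ 2 ^ ℓ := by
      refine (Finset.card_filter_le _ _).trans (le_of_eq ?_)
      rw [Finset.card_univ, Fintype.card_finset, Fintype.card_fin]
    exact_mod_cast h3
  calc ∑ p ∈ Fintype.piFinset (fun _ : Fin ℓ => P), ∑ p' ∈ Fintype.piFinset (fun _ : Fin ℓ => P), K p p'
      ≤ ∑ p ∈ Fintype.piFinset (fun _ : Fin ℓ => P), ∑ p' ∈ Fintype.piFinset (fun _ : Fin ℓ => P),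
        ∑ x : Finset (Fin ℓ) × Equiv.Perm (Fin ℓ),
          (if (∀ i ∈ x.1, p' (x.2 i) = p i) then κ (ℓ - x.1.card) else 0) :=
        Finset.sum_le_sum fun p hp => Finset.sum_le_sum fun p' hp' => hpt p hp p' hp'
    _ = ∑ x : Finset (Fin ℓ) × Equiv.Perm (Fin ℓ), ∑ p ∈ Fintype.piFinset (fun _ : Fin ℓ => P),
        ∑ p' ∈ Fintype.piFinset (fun _ : Fin ℓ => P),
          (if (∀ i ∈ x.1, p' (x.2 i) = p i) then κ (ℓ - x.1.card) else 0) := by
        rw [Finset.sum_comm]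
        rw [Finset.sum_congr rfl fun p' _ => Finset.sum_comm, Finset.sum_comm]
        exact Finset.sum_congr rfl fun x _ => Finset.sum_comm
    _ ≤ ∑ x : Finset (Fin ℓ) × Equiv.Perm (Fin ℓ), (P.card : ℝ) ^ (ℓ + (ℓ - x.1.card)) * κ (ℓ - x.1.card) :=
        Finset.sum_le_sum fun x _ => hcnt x
    _ = ∑ I : Finset (Fin ℓ), (ℓ.factorial : ℝ) * ((P.card : ℝ) ^ (ℓ + (ℓ - I.card)) * κ (ℓ - I.card)) := by
        rw [Fintype.sum_prod_type]
        refine Finset.sum_congr rfl fun I _ => ?_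
        show ∑ _y : Equiv.Perm (Fin ℓ), (P.card : ℝ) ^ (ℓ + (ℓ - I.card)) * κ (ℓ - I.card) = _
        rw [Finset.sum_const, Finset.card_univ, Fintype.card_perm, Fintype.card_fin, nsmul_eq_mul]
    _ ≤ ∑ m ∈ range (ℓ + 1), 2 ^ ℓ * ((ℓ.factorial : ℝ) * ((P.card : ℝ) ^ (ℓ + m) * κ m)) :=
        hfib (fun m => (ℓ.factorial : ℝ) * ((P.card : ℝ) ^ (ℓ + m) * κ m))
          (fun m => mul_nonneg (by positivity) (mul_nonneg (by positivity) (hκ m)))
    _ = ∑ m ∈ range (ℓ + 1), 2 ^ ℓ * (ℓ.factorial : ℝ) * (P.card : ℝ) ^ (ℓ + m) * κ m :=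
        Finset.sum_congr rfl fun m _ => by ring

end Pool.Agent.Lib.MP_d57abb_nt.MR
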