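import Mathlib
import Pool.Agent.Lib.MP_d57abb_nt.MR.MoB
import Pool.Agent.Lib.MP_d57abb_nt.MR.MoC

/-!
# JOB MoD: the moment lemma

Let `K p p' = #{(u, u') ∈ V' Y0 × V' Y0 : dir ((∏ p i) u) = dir ((∏ p' i) u')}`.  Apply `matching` with `κ m = C 4^m Y0 / y^m` (`C` from `count_red`).
Verification of `hK`: let `I`, `σ` be given, `J = Iᶜ`, `J' = (σ(I))ᶜ`, `#J = #J' = m`, `β = ∏_{J} p`, `β' = ∏_{J'} p'`.  `∏_I p = ∏_{σ(I)} p'` (`Finset.prod_image`), so by `dir_mul_left`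
the condition is `dir (β u) = dir (β' u')`.  Then (`dir_mul_left` with `star β'`): `dir (star β' * β * u) = dir (star β' * β' * u') = dir (N β' * u') = dir u' = u'` (`dir_eq_self`, `mul_star_self`; for a
positive integer `n`: `dir (n x) = dir x` by `dir_eq_iff`).  So `u'` is determined by `u` and `N (dir (Γ u)) ≤ Y0` where `Γ = β * star β' = ∏_{i ∈ S} γ i` over the disjoint
union `S` of `J` and `J'` (index type `Fin ℓ ⊕ Fin ℓ`), `γ (inl i) = p i`, `γ (inr i') = star (p' i')`.  `count_red` with `M = y^m`: `∏ N γ ≥ y^(2m)`.  Hypotheses of `count_red`: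
`star (p i) ∤ p k` (`star_not_dvd`), `star (p i) ∤ star (p' k)` since `p i ≠ p' k` (`star_not_dvd_star`), `star (star (p' i)) = p' i ∤ p k` since `p' i ≠ p k`
(`Dg.eq_of_dvd`), `p' i ∤ star (p' k)` (equivalent to `star (p' i) ∤ p' k` by applying `star`).
So `K p p' ≤ C 2^(2m) Y0 / y^m = κ m`.
Sum: `∑_m 2^ℓ ℓ! #P^(ℓ+m) C 4^m Y0 / y^m ≤ 2^ℓ ℓ! (2 y)^ℓ C Y0 ∑_{m ≤ ℓ} 8^m ≤ C ℓ! (4 y)^ℓ (ℓ + 1) 8^ℓ Y0 ≤ C ℓ! (64 y)^ℓ Y0` (`#P ≤ 2 y`, `ℓ + 1 ≤ 2^ℓ`).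
-/

namespace Pool.Agent.Lib.MP_d57abb_nt.MR

open Finset

private theorem MoD_dir_nat {m : ℕ} (hm : 0 < m) {x : O} (hx : TP x) : dir ((m : O) * x) = dir x := by
  rw [dir_eq_iff ((TP_natCast hm).mul hx) hx]
  refine ⟨1, m, 0, one_pos, hm, ?_⟩
  rw [zpow_zero, Units.val_one, one_mul, Nat.cast_one, one_mul]

private theorem MoD_det {b b' u u' : O} (hb : TP b) (hb' : TP b') (hu : TP u) (hu' : Qd u') (hp' : Pm u')
    (h : dir (b * u) = dir (b' * u')) : u' = dir (b * star b' * u) := by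
  have h1 := (dir_mul_left (hb.mul hu) (hb'.mul hu'.tp) hb'.star).mpr h
  have h2 : star b' * (b * u) = b * star b' * u := by ring
  have hN := hb'.N_pos
  have h3 : star b' * (b' * u') = (((N b').toNat : ℕ) : O) * u' := by
    have h4 : ((((N b').toNat : ℕ) : ℤ) : O) = ((N b' : ℤ) : O) := by
      rw [Int.toNat_of_nonneg hN.le]
    rw [Int.cast_natCast] at h4
    rw [h4, ← mul_star_self]
    ring
  rw [h2, h3, MoD_dir_nat (by omega) hu'.tp, dir_eq_self hu' hp'] at h1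
  exact h1.symm

private theorem MoD_star_dvd {x y : O} (h : x ∣ star y) : star x ∣ y := by
  obtain ⟨c, hc⟩ := h
  refine ⟨star c, ?_⟩
  have h1 := congrArg star hc
  rw [star_star, star_mul] at h1
  rw [h1, mul_comm]

open Classical in
private theorem MoD_K {C : ℝ} (hcr : ∀ {ι : Type} [DecidableEq ι] (S : Finset ι) (γ : ι → O)
    (_ : ∀ i ∈ S, TP (γ i) ∧ (N (γ i)).natAbs.Prime) (_ : ∀ i ∈ S, ∀ k ∈ S, ¬ star (γ i) ∣ γ k)
    (M Y0 : ℝ), 0 < M → M ^ 2 ≤ ((∏ i ∈ S, N (γ i) : ℤ) : ℝ) → 0 ≤ Y0 →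
    (((V' Y0).filter (fun u => (N (dir ((∏ i ∈ S, γ i) * u)) : ℝ) ≤ Y0)).card : ℝ) ≤ C * 2 ^ S.card * (Y0 / M))
    (D : ℕ) (z y Y0 : ℝ) (P : Finset O) (ℓ : ℕ) (hP : P ⊆ PS D z) (hy : ∀ p ∈ P, y ≤ (N p : ℝ))
    (hy1 : 1 ≤ y) (hY : 0 ≤ Y0) (p p' : Fin ℓ → O) (hp : ∀ i, p i ∈ P) (hp' : ∀ i, p' i ∈ P)
    (I : Finset (Fin ℓ)) (σ : Fin ℓ → Fin ℓ) (hσ : Set.InjOn σ I) (hI : ∀ i ∈ I, p' (σ i) = p i)
    (hne : ∀ i, i ∉ I → ∀ i', i' ∉ I.image σ → p i ≠ p' i') :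
    ∑ u ∈ V' Y0, ∑ u' ∈ V' Y0, (if dir ((∏ i, p i) * u) = dir ((∏ i, p' i) * u') then (1 : ℝ) else 0) ≤
      C * 4 ^ (ℓ - I.card) * (Y0 / y ^ (ℓ - I.card)) := by
  have hDg : ∀ i, Dg D (p i) := fun i => (mem_PS.mp (hP (hp i))).1.1
  have hDg' : ∀ i, Dg D (p' i) := fun i => (mem_PS.mp (hP (hp' i))).1.1
  set m := ℓ - I.card with hm
  set J : Finset (Fin ℓ) := Iᶜ with hJ
  set J' : Finset (Fin ℓ) := (I.image σ)ᶜ with hJ'
  have hJc : J.card = m := by rw [hJ, Finset.card_compl, Fintype.card_fin]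
  have hJc' : J'.card = m := by
    rw [hJ', Finset.card_compl, Fintype.card_fin, Finset.card_image_of_injOn hσ]
  set S : Finset (Fin ℓ ⊕ Fin ℓ) := J.disjSum J' with hS
  set γ : Fin ℓ ⊕ Fin ℓ → O := Sum.elim p (fun i => star (p' i)) with hγ
  have hSc : S.card = 2 * m := by rw [hS, Finset.card_disjSum, hJc, hJc']; ring
  set b : O := ∏ i ∈ J, p i with hb
  set b' : O := ∏ i ∈ J', p' i with hb'
  set δ : O := ∏ i ∈ I, p i with hδ
  have hbT : TP b := TP_prod fun i _ => (hDg i).tp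
  have hbT' : TP b' := TP_prod fun i _ => (hDg' i).tp
  have hδT : TP δ := TP_prod fun i _ => (hDg i).tp
  have e1 : ∏ i, p i = δ * b := (Finset.prod_mul_prod_compl I p).symm
  have e2 : ∏ i, p' i = δ * b' := by
    rw [← Finset.prod_mul_prod_compl (I.image σ) p', Finset.prod_image hσ, hδ,
      Finset.prod_congr rfl (fun i hi => hI i hi)]
  have e3 : ∏ i ∈ S, γ i = b * star b' := by
    rw [hS, Finset.prod_disjSum, hb', star_prod]
    rfl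
  have hU : ∀ u ∈ V' Y0, ∀ u' ∈ V' Y0, dir ((∏ i, p i) * u) = dir ((∏ i, p' i) * u') →
      u' = dir ((∏ i ∈ S, γ i) * u) := by
    intro u hu u' hu' h
    rw [mem_V'] at hu hu'
    rw [e1, e2, mul_assoc, mul_assoc,
      dir_mul_left (hbT.mul hu.1.1.tp) (hbT'.mul hu'.1.1.tp) hδT] at h
    rw [e3]
    exact MoD_det hbT hbT' hu.1.1.tp hu'.1.1 hu'.2 h
  have h1 : ∀ u ∈ V' Y0, ∑ u' ∈ V' Y0,
      (if dir ((∏ i, p i) * u) = dir ((∏ i, p' i) * u') then (1 : ℝ) else 0) ≤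
      (if (N (dir ((∏ i ∈ S, γ i) * u)) : ℝ) ≤ Y0 then (1 : ℝ) else 0) := by
    intro u hu
    by_cases hex : ∃ u' ∈ V' Y0, dir ((∏ i, p i) * u) = dir ((∏ i, p' i) * u')
    · obtain ⟨u0, hu0, h0⟩ := hex
      have h2 := hU u hu u0 hu0 h0
      have h3 : (N (dir ((∏ i ∈ S, γ i) * u)) : ℝ) ≤ Y0 := by
        rw [← h2]
        exact (mem_V'.mp hu0).1.2
      rw [if_pos h3]
      calc ∑ u' ∈ V' Y0, (if dir ((∏ i, p i) * u) = dir ((∏ i, p' i) * u') then (1 : ℝ) else 0)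
          ≤ ∑ u' ∈ V' Y0, (if u' = u0 then (1 : ℝ) else 0) := by
            refine Finset.sum_le_sum fun u' hu' => ?_
            by_cases h4 : dir ((∏ i, p i) * u) = dir ((∏ i, p' i) * u')
            · have h5 : u' = u0 := (hU u hu u' hu' h4).trans h2.symm
              rw [if_pos h4, if_pos h5]
            · rw [if_neg h4]
              split_ifs <;> norm_num
        _ = 1 := by
            rw [Finset.sum_ite_eq', if_pos hu0]
    · push Not at hex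
      have h2 : ∑ u' ∈ V' Y0,
          (if dir ((∏ i, p i) * u) = dir ((∏ i, p' i) * u') then (1 : ℝ) else 0) = 0 :=
        Finset.sum_eq_zero fun u' hu' => if_neg (hex u' hu')
      rw [h2]
      split_ifs <;> norm_num
  have h2 : ∑ u ∈ V' Y0, (if (N (dir ((∏ i ∈ S, γ i) * u)) : ℝ) ≤ Y0 then (1 : ℝ) else 0) =
      (((V' Y0).filter (fun u => (N (dir ((∏ i ∈ S, γ i) * u)) : ℝ) ≤ Y0)).card : ℝ) := by
    rw [← Finset.sum_filter, Finset.sum_const, nsmul_eq_mul, mul_one]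
  have hγ1 : ∀ i ∈ S, TP (γ i) ∧ (N (γ i)).natAbs.Prime := by
    rintro (i | i) _
    · exact ⟨(hDg i).tp, (hDg i).2.1⟩
    · refine ⟨(hDg' i).tp.star, ?_⟩
      show (N (star (p' i))).natAbs.Prime
      rw [N_star]
      exact (hDg' i).2.1
  have hγ2 : ∀ i ∈ S, ∀ k ∈ S, ¬ star (γ i) ∣ γ k := by
    rintro (i | i) hi (k | k) hk h
    · exact star_not_dvd (hP (hp i)) (hP (hp k)) h
    · rw [hS, Finset.inl_mem_disjSum, hJ, Finset.mem_compl] at hi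
      rw [hS, Finset.inr_mem_disjSum, hJ', Finset.mem_compl] at hk
      exact star_not_dvd_star (hDg i) (hDg' k) (hne i hi k hk) h
    · rw [hS, Finset.inr_mem_disjSum, hJ', Finset.mem_compl] at hi
      rw [hS, Finset.inl_mem_disjSum, hJ, Finset.mem_compl] at hk
      have h3 : star (star (p' i)) ∣ p k := h
      rw [star_star] at h3
      exact hne k hk i hi ((hDg' i).eq_of_dvd (hDg k) h3).symm
    · have h3 : star (star (p' i)) ∣ star (p' k) := h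
      rw [star_star] at h3
      exact star_not_dvd (hP (hp' i)) (hP (hp' k)) (MoD_star_dvd h3)
  have hy0 : 0 ≤ y := by linarith
  have hM : (y ^ m) ^ 2 ≤ ((∏ i ∈ S, N (γ i) : ℤ) : ℝ) := by
    rw [hS, Finset.prod_disjSum]
    push_cast
    rw [sq]
    refine mul_le_mul ?_ ?_ (by positivity) ?_
    · rw [← hJc, ← Finset.prod_const]
      exact Finset.prod_le_prod (fun i _ => hy0) (fun i _ => hy _ (hp i))
    · rw [← hJc', ← Finset.prod_const]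
      refine Finset.prod_le_prod (fun i _ => hy0) (fun i _ => ?_)
      show y ≤ (N (star (p' i)) : ℝ)
      rw [N_star]
      exact hy _ (hp' i)
    · refine Finset.prod_nonneg fun i _ => ?_
      exact hy0.trans (hy _ (hp i))
  have h3 := hcr S γ hγ1 hγ2 (y ^ m) Y0 (by positivity) hM hY
  calc ∑ u ∈ V' Y0, ∑ u' ∈ V' Y0,
        (if dir ((∏ i, p i) * u) = dir ((∏ i, p' i) * u') then (1 : ℝ) else 0)
      ≤ ∑ u ∈ V' Y0, (if (N (dir ((∏ i ∈ S, γ i) * u)) : ℝ) ≤ Y0 then (1 : ℝ) else 0) :=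
        Finset.sum_le_sum h1
    _ = (((V' Y0).filter (fun u => (N (dir ((∏ i ∈ S, γ i) * u)) : ℝ) ≤ Y0)).card : ℝ) := h2
    _ ≤ C * 2 ^ S.card * (Y0 / y ^ m) := h3
    _ = C * 4 ^ m * (Y0 / y ^ m) := by
        rw [hSc, pow_mul]
        norm_num

private theorem MoD_sum {C y Y0 c : ℝ} (hC : 1 ≤ C) (hy : 1 ≤ y) (hY : 0 ≤ Y0) (hc0 : 0 ≤ c)
    (hc : c ≤ 2 * y) (ℓ : ℕ) :
    ∑ m ∈ range (ℓ + 1), 2 ^ ℓ * (ℓ.factorial : ℝ) * c ^ (ℓ + m) * (C * 4 ^ m * (Y0 / y ^ m)) ≤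
      C * (ℓ.factorial : ℝ) * (64 * y) ^ ℓ * Y0 := by
  have hy0 : 0 < y := by linarith
  have h1 : ∀ m ∈ range (ℓ + 1), 2 ^ ℓ * (ℓ.factorial : ℝ) * c ^ (ℓ + m) * (C * 4 ^ m * (Y0 / y ^ m)) ≤
      C * (ℓ.factorial : ℝ) * (4 * y) ^ ℓ * Y0 * 8 ^ ℓ := by
    intro m hm
    rw [mem_range] at hm
    have h2 : c ^ (ℓ + m) ≤ (2 * y) ^ (ℓ + m) := pow_le_pow_left₀ hc0 hc _
    have h3 : (0 : ℝ) ≤ C * 4 ^ m * (Y0 / y ^ m) := by positivity
    calc 2 ^ ℓ * (ℓ.factorial : ℝ) * c ^ (ℓ + m) * (C * 4 ^ m * (Y0 / y ^ m))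
        ≤ 2 ^ ℓ * (ℓ.factorial : ℝ) * (2 * y) ^ (ℓ + m) * (C * 4 ^ m * (Y0 / y ^ m)) :=
          mul_le_mul_of_nonneg_right (mul_le_mul_of_nonneg_left h2 (by positivity)) h3
      _ = C * (ℓ.factorial : ℝ) * (4 * y) ^ ℓ * Y0 * 8 ^ m := by
          have h4 : (2 * y) ^ (ℓ + m) = 2 ^ ℓ * y ^ ℓ * (2 ^ m * y ^ m) := by
            rw [pow_add, mul_pow, mul_pow]
          have h5 : (4 * y) ^ ℓ = 2 ^ ℓ * 2 ^ ℓ * y ^ ℓ := by
            rw [← mul_pow, ← mul_pow]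
            norm_num
          have h6 : (8 : ℝ) ^ m = 2 ^ m * 4 ^ m := by
            rw [← mul_pow]
            norm_num
          have h7 : y ^ m ≠ 0 := (pow_pos hy0 m).ne'
          rw [h4, h5, h6]
          field_simp
      _ ≤ C * (ℓ.factorial : ℝ) * (4 * y) ^ ℓ * Y0 * 8 ^ ℓ := by
          refine mul_le_mul_of_nonneg_left ?_ (by positivity)
          exact pow_le_pow_right₀ (by norm_num) (by omega)
  have h2 := Finset.sum_le_sum h1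
  refine h2.trans ?_
  rw [Finset.sum_const, card_range, nsmul_eq_mul]
  have h3 : ((ℓ + 1 : ℕ) : ℝ) ≤ 2 ^ ℓ := by
    have h4 : ℓ + 1 ≤ 2 ^ ℓ := Nat.lt_two_pow_self
    exact_mod_cast h4
  have h4 : (64 * y) ^ ℓ = 2 ^ ℓ * (4 * y) ^ ℓ * 8 ^ ℓ := by
    rw [← mul_pow, ← mul_pow]
    congr 1
    ring
  rw [h4]
  calc ((ℓ + 1 : ℕ) : ℝ) * (C * (ℓ.factorial : ℝ) * (4 * y) ^ ℓ * Y0 * 8 ^ ℓ)
      ≤ 2 ^ ℓ * (C * (ℓ.factorial : ℝ) * (4 * y) ^ ℓ * Y0 * 8 ^ ℓ) :=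
        mul_le_mul_of_nonneg_right h3 (by positivity)
    _ = C * (ℓ.factorial : ℝ) * (2 ^ ℓ * (4 * y) ^ ℓ * 8 ^ ℓ) * Y0 := by ring

open Classical in
theorem moment : ∃ C : ℝ, 1 ≤ C ∧ ∀ (D : ℕ) (z y Y0 : ℝ) (P : Finset O) (ℓ : ℕ), P ⊆ PS D z → (∀ p ∈ P, y ≤ (N p : ℝ)) →
    (P.card : ℝ) ≤ 2 * y → 1 ≤ y → 0 ≤ Y0 →
    (((((Fintype.piFinset (fun _ : Fin ℓ => P)) ×ˢ (V' Y0)) ×ˢ ((Fintype.piFinset (fun _ : Fin ℓ => P)) ×ˢ (V' Y0))).filter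
      (fun q => dir ((∏ i, q.1.1 i) * q.1.2) = dir ((∏ i, q.2.1 i) * q.2.2))).card : ℝ) ≤
      C * (ℓ.factorial : ℝ) * (64 * y) ^ ℓ * Y0 := by
  obtain ⟨C, hC, hcr⟩ := count_red
  refine ⟨C, hC, fun D z y Y0 P ℓ hP hy hPc hy1 hY => ?_⟩
  have h1 : (((((Fintype.piFinset (fun _ : Fin ℓ => P)) ×ˢ (V' Y0)) ×ˢ
      ((Fintype.piFinset (fun _ : Fin ℓ => P)) ×ˢ (V' Y0))).filter
      (fun q => dir ((∏ i, q.1.1 i) * q.1.2) = dir ((∏ i, q.2.1 i) * q.2.2))).card : ℝ) =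
      ∑ p ∈ Fintype.piFinset (fun _ : Fin ℓ => P), ∑ p' ∈ Fintype.piFinset (fun _ : Fin ℓ => P),
        ∑ u ∈ V' Y0, ∑ u' ∈ V' Y0,
          (if dir ((∏ i, p i) * u) = dir ((∏ i, p' i) * u') then (1 : ℝ) else 0) := by
    rw [Finset.card_filter]
    push_cast
    simp only [Finset.sum_product]
    refine Finset.sum_congr rfl fun p _ => ?_
    exact Finset.sum_comm
  rw [h1]
  refine (matching P ℓ _ (fun m => C * 4 ^ m * (Y0 / y ^ m)) ?_ ?_).trans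
    (MoD_sum hC hy1 hY (by positivity) hPc ℓ)
  · intro m
    positivity
  · intro p hp p' hp' I σ hσ hI hne
    rw [Fintype.mem_piFinset] at hp hp'
    exact MoD_K hcr D z y Y0 P ℓ hP hy hy1 hY p p' hp hp' I σ hσ hI hne

end Pool.Agent.Lib.MP_d57abb_nt.MR
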