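import Mathlib
import Pool.Agent.Lib.MP_d57abb_nt.MR.MoD
import Pool.Agent.Lib.MP_d57abb_nt.MR.Ls

/-!
# JOB MoE: the mean value theorem with a power of a prime polynomial

`(∑_{p ∈ P} F j p)^ℓ (∑_{u ∈ V' Y0} a u E t j u) = ∑_{(p, u)} (∏ f (p i)) a u * E t j ((∏ p i) u)` (`Finset.sum_pow'`/`Finset.prod_univ_sum`, `E_mul` for the totally positive `p i`, `u`), a sum over
`s = P^ℓ × V' Y0` with coefficients of absolute value at most `1` (`norm_f`, `a_le`).  `ls_dir` with `Y = max 1 ((2 y)^ℓ Y0)` (`N ((∏ p i) u) ≤ (2 y)^ℓ Y0`) and `sum_sq_card`, `moment`.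
`9 (2 T + 1 + 2 Y) ≤ 27 (T + 1 + (2 y)^ℓ Y0)`.
`card_le`: for the set `U` of the frequencies where `‖∑ F j p‖ ≥ R > 0`: `#U R^(2ℓ) ≤ ∑_{j ∈ Fr T} ‖∑ F j p‖^(2ℓ)`; use `mv` with `Y0 = 1`: `V' 1 = {1}`, but the factor is `a 1 * E t j 1`; to have
coefficient `1` repeat the argument with `ls_dir` and the index set `P^ℓ × {1}` (`moment` for `Y0 = 1`).
-/

namespace Pool.Agent.Lib.MP_d57abb_nt.MR

open Finset

private theorem MoE_E_prod (t : ℝ) (j : ℤ) {ι : Type*} (s : Finset ι) (g : ι → O) (h : ∀ i ∈ s, TP (g i)) :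
    E t j (∏ i ∈ s, g i) = ∏ i ∈ s, E t j (g i) := by
  classical
  induction s using Finset.induction_on with
  | empty =>
    rw [Finset.prod_empty, Finset.prod_empty]
    unfold E
    rw [An_one, mul_zero, zero_div]
    exact Pool.Agent.Lib.MP_2a816b_nt.e_zero
  | insert a s ha ih =>
    rw [Finset.prod_insert ha, Finset.prod_insert ha,
      E_mul t j (h a (Finset.mem_insert_self a s))
        (TP_prod fun i hi => h i (Finset.mem_insert_of_mem hi)),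
      ih fun i hi => h i (Finset.mem_insert_of_mem hi)]

private theorem MoE_expand (d : Dat) (j : ℤ) (P : Finset O) (ℓ : ℕ) (hP : ∀ p ∈ P, TP p) (Y0 : ℝ) (b : O → ℂ) :
    (∑ p ∈ P, d.F j p) ^ ℓ * ∑ u ∈ V' Y0, b u * E d.t j u =
      ∑ q ∈ (Fintype.piFinset (fun _ : Fin ℓ => P)) ×ˢ (V' Y0),
        ((∏ i, d.f (q.1 i)) * b q.2) * E d.t j ((∏ i, q.1 i) * q.2) := by
  rw [Finset.sum_pow', Finset.sum_mul_sum, Finset.sum_product]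
  refine Finset.sum_congr rfl fun g hg => Finset.sum_congr rfl fun u hu => ?_
  have hg' : ∀ i ∈ (Finset.univ : Finset (Fin ℓ)), TP (g i) := fun i _ =>
    hP _ (Fintype.mem_piFinset.1 hg i)
  have hu' : TP u := (mem_V'.1 hu).1.1.tp
  rw [E_mul d.t j (TP_prod hg') hu', MoE_E_prod d.t j _ _ hg']
  unfold Dat.F
  rw [Finset.prod_mul_distrib]
  ring

private theorem MoE_N (d : Dat) {z y Y0 : ℝ} {P : Finset O} {ℓ : ℕ} (hP : P ⊆ PS d.D z)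
    (hy : ∀ p ∈ P, y ≤ (N p : ℝ) ∧ (N p : ℝ) ≤ 2 * y) (h1 : 1 ≤ y)
    {q : (Fin ℓ → O) × O} (hq : q ∈ (Fintype.piFinset (fun _ : Fin ℓ => P)) ×ˢ (V' Y0)) :
    TP ((∏ i, q.1 i) * q.2) ∧ (N ((∏ i, q.1 i) * q.2) : ℝ) ≤ (2 * y) ^ ℓ * Y0 := by
  obtain ⟨hg, hu⟩ := Finset.mem_product.1 hq
  have hg1 : ∀ i, q.1 i ∈ P := fun i => Fintype.mem_piFinset.1 hg i
  have hu1 := (mem_V'.1 hu).1
  have htp : ∀ i ∈ (Finset.univ : Finset (Fin ℓ)), TP (q.1 i) := fun i _ =>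
    (mem_PS.1 (hP (hg1 i))).1.1.tp
  refine ⟨(TP_prod htp).mul hu1.1.tp, ?_⟩
  rw [N_mul, N_prod]
  push_cast
  have h2 : ∏ i, (N (q.1 i) : ℝ) ≤ (2 * y) ^ ℓ := by
    calc ∏ i, (N (q.1 i) : ℝ) ≤ ∏ _i : Fin ℓ, (2 * y) := by
          refine Finset.prod_le_prod (fun i _ => ?_) (fun i _ => (hy _ (hg1 i)).2)
          linarith [(hy _ (hg1 i)).1]
      _ = (2 * y) ^ ℓ := by
          rw [Finset.prod_const, Finset.card_univ, Fintype.card_fin]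
  have h3 : (0 : ℝ) ≤ (N q.2 : ℝ) := by exact_mod_cast hu1.1.tp.N_pos.le
  refine mul_le_mul h2 hu1.2 h3 (by positivity)

private theorem MoE_gen (d : Dat) : ∃ C : ℝ, 1 ≤ C ∧ ∀ (z y Y0 T : ℝ) (P : Finset O) (ℓ : ℕ) (b : O → ℂ),
    (∀ u, ‖b u‖ ≤ 1) → P ⊆ PS d.D z →
    (∀ p ∈ P, y ≤ (N p : ℝ) ∧ (N p : ℝ) ≤ 2 * y) → (P.card : ℝ) ≤ 2 * y → 1 ≤ y → 0 ≤ Y0 → 0 ≤ T →
    ∑ j ∈ Fr T, ‖∑ p ∈ P, d.F j p‖ ^ (2 * ℓ) * ‖∑ u ∈ V' Y0, b u * E d.t j u‖ ^ 2 ≤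
      C * (T + 1 + (2 * y) ^ ℓ * Y0) * ((ℓ.factorial : ℝ) * (64 * y) ^ ℓ * Y0) := by
  classical
  obtain ⟨C0, hC0, hmom⟩ := moment
  refine ⟨27 * C0, by linarith, ?_⟩
  intro z y Y0 T P ℓ b hb hP hy hcard h1 hY0 hT
  have hA : 0 ≤ (2 * y) ^ ℓ * Y0 := by positivity
  set Y : ℝ := max 1 ((2 * y) ^ ℓ * Y0) with hYdef
  have hY : 1 ≤ Y := le_max_left _ _
  have hYle : Y ≤ 1 + (2 * y) ^ ℓ * Y0 := max_le (by linarith) (by linarith)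
  have hPtp : ∀ p ∈ P, TP p := fun p hp => (mem_PS.1 (hP hp)).1.1.tp
  have hw : ∀ q ∈ (Fintype.piFinset (fun _ : Fin ℓ => P)) ×ˢ (V' Y0),
      TP ((fun q : (Fin ℓ → O) × O => (∏ i, q.1 i) * q.2) q) ∧
        (N ((fun q : (Fin ℓ → O) × O => (∏ i, q.1 i) * q.2) q) : ℝ) ≤ Y := by
    intro q hq
    have h := MoE_N d hP hy h1 hq
    exact ⟨h.1, h.2.trans (le_max_right _ _)⟩
  have hc : ∀ q ∈ (Fintype.piFinset (fun _ : Fin ℓ => P)) ×ˢ (V' Y0),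
      ‖(fun q : (Fin ℓ → O) × O => (∏ i, d.f (q.1 i)) * b q.2) q‖ ≤ 1 := by
    intro q hq
    change ‖(∏ i, d.f (q.1 i)) * b q.2‖ ≤ 1
    have hg1 : ∀ i, q.1 i ∈ P := fun i => Fintype.mem_piFinset.1 (Finset.mem_product.1 hq).1 i
    rw [norm_mul, norm_prod, Finset.prod_eq_one (fun i _ => norm_f d (mem_PS.1 (hP (hg1 i))).1.1), one_mul]
    exact hb _
  have h2 := ls_dir d.t hY hT ((Fintype.piFinset (fun _ : Fin ℓ => P)) ×ˢ (V' Y0))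
    (fun q : (Fin ℓ → O) × O => (∏ i, q.1 i) * q.2)
    (fun q : (Fin ℓ → O) × O => (∏ i, d.f (q.1 i)) * b q.2) hw hc
  rw [sum_sq_card _ _ hw] at h2
  have h3 := hmom d.D z y Y0 P ℓ hP (fun p hp => (hy p hp).1) hcard h1 hY0
  have h4 : ∀ j ∈ Fr T, ‖∑ p ∈ P, d.F j p‖ ^ (2 * ℓ) * ‖∑ u ∈ V' Y0, b u * E d.t j u‖ ^ 2 =
      ‖∑ q ∈ (Fintype.piFinset (fun _ : Fin ℓ => P)) ×ˢ (V' Y0),
        ((∏ i, d.f (q.1 i)) * b q.2) * E d.t j ((∏ i, q.1 i) * q.2)‖ ^ 2 := by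
    intro j _
    rw [← MoE_expand d j P ℓ hPtp Y0 b, norm_mul, norm_pow, mul_pow, ← pow_mul, mul_comm ℓ 2]
  rw [Finset.sum_congr rfl h4]
  refine h2.trans ?_
  have h5 : 9 * (2 * T + 1 + 2 * Y) ≤ 27 * (T + 1 + (2 * y) ^ ℓ * Y0) := by linarith
  have h6 : (0 : ℝ) ≤ C0 * (ℓ.factorial : ℝ) * (64 * y) ^ ℓ * Y0 := by positivity
  calc 9 * (2 * T + 1 + 2 * Y) * _ ≤ 9 * (2 * T + 1 + 2 * Y) * (C0 * (ℓ.factorial : ℝ) * (64 * y) ^ ℓ * Y0) :=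
        mul_le_mul_of_nonneg_left h3 (by linarith)
    _ ≤ 27 * (T + 1 + (2 * y) ^ ℓ * Y0) * (C0 * (ℓ.factorial : ℝ) * (64 * y) ^ ℓ * Y0) :=
        mul_le_mul_of_nonneg_right h5 h6
    _ = 27 * C0 * (T + 1 + (2 * y) ^ ℓ * Y0) * ((ℓ.factorial : ℝ) * (64 * y) ^ ℓ * Y0) := by ring

theorem mv (d : Dat) : ∃ C : ℝ, 1 ≤ C ∧ ∀ (z y Y0 T : ℝ) (P : Finset O) (ℓ : ℕ), P ⊆ PS d.D z →
    (∀ p ∈ P, y ≤ (N p : ℝ) ∧ (N p : ℝ) ≤ 2 * y) → (P.card : ℝ) ≤ 2 * y → 1 ≤ y → 0 ≤ Y0 → 0 ≤ T →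
    ∑ j ∈ Fr T, ‖∑ p ∈ P, d.F j p‖ ^ (2 * ℓ) * ‖∑ u ∈ V' Y0, d.a u * E d.t j u‖ ^ 2 ≤
      C * (T + 1 + (2 * y) ^ ℓ * Y0) * ((ℓ.factorial : ℝ) * (64 * y) ^ ℓ * Y0) := by
  obtain ⟨C, hC, h⟩ := MoE_gen d
  exact ⟨C, hC, fun z y Y0 T P ℓ hP hy hcard h1 hY0 hT => h z y Y0 T P ℓ d.a d.a_le hP hy hcard h1 hY0 hT⟩

theorem mv_one (d : Dat) : ∃ C : ℝ, 1 ≤ C ∧ ∀ (z y T : ℝ) (P : Finset O) (ℓ : ℕ), P ⊆ PS d.D z →
    (∀ p ∈ P, y ≤ (N p : ℝ) ∧ (N p : ℝ) ≤ 2 * y) → (P.card : ℝ) ≤ 2 * y → 1 ≤ y → 0 ≤ T →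
    ∑ j ∈ Fr T, ‖∑ p ∈ P, d.F j p‖ ^ (2 * ℓ) ≤
      C * (T + 1 + (2 * y) ^ ℓ) * ((ℓ.factorial : ℝ) * (64 * y) ^ ℓ) := by
  classical
  obtain ⟨C, hC, h⟩ := MoE_gen d
  refine ⟨C, hC, fun z y T P ℓ hP hy hcard h1 hT => ?_⟩
  have h2 := h z y 1 T P ℓ (fun u => if u = 1 then 1 else 0)
    (fun u => by
      split_ifs
      · rw [norm_one]
      · rw [norm_zero]
        exact zero_le_one) hP hy hcard h1 zero_le_one hT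
  have h3 : ∀ j : ℤ, ∑ u ∈ V' (1 : ℝ), (if u = 1 then (1 : ℂ) else 0) * E d.t j u = 1 := by
    intro j
    have hmem : (1 : O) ∈ V' (1 : ℝ) := by
      rw [mem_V']
      refine ⟨⟨Qd_one, ?_⟩, Pm_one⟩
      rw [N_one]
      norm_num
    rw [Finset.sum_eq_single (1 : O)]
    · rw [if_pos rfl, one_mul]
      unfold E
      rw [An_one, mul_zero, zero_div]
      exact Pool.Agent.Lib.MP_2a816b_nt.e_zero
    · intro u _ hu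
      rw [if_neg hu, zero_mul]
    · intro h'
      exact absurd hmem h'
  have h4 : ∀ j ∈ Fr T, ‖∑ p ∈ P, d.F j p‖ ^ (2 * ℓ) =
      ‖∑ p ∈ P, d.F j p‖ ^ (2 * ℓ) * ‖∑ u ∈ V' (1 : ℝ), (if u = 1 then (1 : ℂ) else 0) * E d.t j u‖ ^ 2 := by
    intro j _
    rw [h3, norm_one, one_pow, mul_one]
  rw [Finset.sum_congr rfl h4]
  refine h2.trans (le_of_eq ?_)
  rw [mul_one, mul_one]

end Pool.Agent.Lib.MP_d57abb_nt.MR
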