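import Mathlib
import Pool.Agent.Lib.MP_d57abb_nt.MR.ClA
import Pool.Agent.Lib.MP_d57abb_nt.MR.ClF
import Pool.Agent.Lib.MP_d57abb_nt.MR.MoE

/-!
# JOB ClH: the exceptional frequencies

PROOF.  If `j` is not good at `m`, there is `b ∈ BI m` with `exp ((1 - α) a) < ‖A m b j‖`, `a = b / Hn m`, `m - 1 ≤ a ≤ m²`, `y = xb m b = e^a`.  Let `x = log X` and `ℓ = ⌈x / a⌉₊`, `x ≤ ℓ a ≤ x + a`.
The number of such `j ∈ Fr X` is at most `exp (-2 (1 - α) a ℓ) ∑_{j ∈ Fr X} ‖A m b j‖^(2ℓ) ≤ exp (-2 (1 - α) a ℓ) C₁ (X + 1 + (2y)^ℓ)(ℓ! (64 y)^ℓ)` (`mv_one`, `P = LB D m b`, `z = exp (m²)`).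
`X + 1 + (2 y)^ℓ ≤ 2 X + 2^ℓ e^(ℓ a) ≤ 3 * 2^ℓ X e^a`, `(64 y)^ℓ = 64^ℓ e^(ℓ a)`, and `e^(ℓ a - 2 (1 - α) a ℓ) = e^(-(1 - 2 α) ℓ a) ≤ e^(-(1 - 2α) x) = X^(2α - 1)` (`α ≤ s / 8 ≤ 1/2`).
Product: `3 C₁ 128^ℓ ℓ! e^a X^(2α)`.  Sum over the at most `(m + 1)³` values of `b` (`card_BI`; the set of bad `j` is the union over `b`) and use `num_exc (3 C₁)`.
(`m ≥ 2` follows from `8 / s * (log log X + 7) ≤ m`, as `X ≥ 3`.)
-/

namespace Pool.Agent.Lib.MP_d57abb_nt.MR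

open Finset

private theorem ClH_exp {x a α : ℝ} {ℓ : ℕ} (hα : α ≤ 1 / 2) (h1 : x ≤ ℓ * a) (h2 : ℓ * a ≤ x + a) (ha : 0 ≤ a)
    (hx : 0 ≤ x) {C : ℝ} (hC : 0 ≤ C) :
    C * (Real.exp x + 1 + (2 * Real.exp a) ^ ℓ) * ((ℓ.factorial : ℝ) * (64 * Real.exp a) ^ ℓ) ≤
      (3 * C * (128 ^ ℓ * (ℓ.factorial : ℝ)) * Real.exp a * (Real.exp x) ^ (2 * α)) *
        Real.exp ((1 - α) * a) ^ (2 * ℓ) := by
  have e1 : (2 * Real.exp a) ^ ℓ = 2 ^ ℓ * Real.exp (ℓ * a) := by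
    rw [mul_pow, ← Real.exp_nat_mul]
  have e2 : (64 * Real.exp a) ^ ℓ = 64 ^ ℓ * Real.exp (ℓ * a) := by
    rw [mul_pow, ← Real.exp_nat_mul]
  have e3 : (Real.exp x) ^ (2 * α) = Real.exp (2 * α * x) := by
    rw [← Real.exp_mul]
    congr 1
    ring
  have e4 : Real.exp ((1 - α) * a) ^ (2 * ℓ) = Real.exp (2 * (1 - α) * (ℓ * a)) := by
    rw [← Real.exp_nat_mul]
    congr 1
    push_cast
    ring
  have e5 : (128 : ℝ) ^ ℓ = 2 ^ ℓ * 64 ^ ℓ := by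
    rw [← mul_pow]
    norm_num
  rw [e1, e2, e3, e4, e5]
  have g1 : (1 : ℝ) ≤ 2 ^ ℓ := one_le_pow₀ (by norm_num)
  have g2 : 1 ≤ Real.exp a := Real.one_le_exp ha
  have g3 : 1 ≤ Real.exp x := Real.one_le_exp hx
  have g4 : Real.exp (ℓ * a) ≤ Real.exp x * Real.exp a := by
    rw [← Real.exp_add]
    exact Real.exp_le_exp.2 h2
  have g5 : (1 : ℝ) ≤ 2 ^ ℓ * Real.exp a := one_le_mul_of_one_le_of_one_le g1 g2
  have g6 : Real.exp x ≤ 2 ^ ℓ * Real.exp a * Real.exp x := le_mul_of_one_le_left (by positivity) g5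
  have g7 : Real.exp x + 1 + 2 ^ ℓ * Real.exp (ℓ * a) ≤ 3 * (2 ^ ℓ * Real.exp a * Real.exp x) := by
    have g8 : 2 ^ ℓ * Real.exp (ℓ * a) ≤ 2 ^ ℓ * (Real.exp x * Real.exp a) :=
      mul_le_mul_of_nonneg_left g4 (by positivity)
    have g9 : (2 : ℝ) ^ ℓ * (Real.exp x * Real.exp a) = 2 ^ ℓ * Real.exp a * Real.exp x := by ring
    rw [g9] at g8
    linarith
  have g10 : Real.exp x * Real.exp (ℓ * a) ≤ Real.exp (2 * α * x) * Real.exp (2 * (1 - α) * (ℓ * a)) := by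
    rw [← Real.exp_add, ← Real.exp_add]
    apply Real.exp_le_exp.2
    have h3 : 0 ≤ (1 - 2 * α) * (ℓ * a - x) := mul_nonneg (by linarith) (by linarith)
    nlinarith
  calc C * (Real.exp x + 1 + 2 ^ ℓ * Real.exp (ℓ * a)) * ((ℓ.factorial : ℝ) * (64 ^ ℓ * Real.exp (ℓ * a)))
      ≤ C * (3 * (2 ^ ℓ * Real.exp a * Real.exp x)) * ((ℓ.factorial : ℝ) * (64 ^ ℓ * Real.exp (ℓ * a))) :=
        mul_le_mul_of_nonneg_right (mul_le_mul_of_nonneg_left g7 hC) (by positivity)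
    _ = (3 * C * (2 ^ ℓ * 64 ^ ℓ * (ℓ.factorial : ℝ)) * Real.exp a) * (Real.exp x * Real.exp (ℓ * a)) := by ring
    _ ≤ (3 * C * (2 ^ ℓ * 64 ^ ℓ * (ℓ.factorial : ℝ)) * Real.exp a) *
        (Real.exp (2 * α * x) * Real.exp (2 * (1 - α) * (ℓ * a))) :=
        mul_le_mul_of_nonneg_left g10 (by positivity)
    _ = _ := by ring

open Classical in
theorem exc (d : Dat) {s : ℝ} (hs : 0 < s) (hs1 : s ≤ 1) : ∃ X₀ : ℝ, 3 ≤ X₀ ∧ ∀ X : ℝ, X₀ ≤ X → ∀ m α : ℝ,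
    8 / s * (Real.log (Real.log X) + 7) ≤ m → m ^ 2 ≤ s / 16 * Real.log X → α ≤ s / 8 →
    (((Fr X).filter (fun j => ¬ Good d m α j)).card : ℝ) ≤ X ^ s := by
  obtain ⟨C₁, hC₁, hmv⟩ := mv_one d
  obtain ⟨X₀, hX₀, hnum⟩ := num_exc (3 * C₁) hs hs1
  refine ⟨X₀, hX₀, fun X hX m α hm hm2 hα => ?_⟩
  have hX3 : 3 ≤ X := hX₀.trans hX
  have hXpos : 0 < X := by linarith
  have hlog1 : 1 ≤ Real.log X := by
    rw [Real.le_log_iff_exp_le hXpos]
    have := Real.exp_one_lt_d9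
    linarith
  have hll : 0 ≤ Real.log (Real.log X) := Real.log_nonneg hlog1
  have hm56 : 2 ≤ m := by
    have h1 : 8 ≤ 8 / s := by
      rw [le_div_iff₀ hs]
      linarith
    have h2 : 8 * 7 ≤ 8 / s * (Real.log (Real.log X) + 7) :=
      mul_le_mul h1 (by linarith) (by norm_num) (by linarith)
    linarith
  have hXe : Real.exp (Real.log X) = X := Real.exp_log hXpos
  have hcube : 0 < (m + 1) ^ 3 := by positivity
  -- one block
  have hblock : ∀ b ∈ BI m, (((Fr X).filter (fun j => Real.exp ((1 - α) * (b / Hn m)) < ‖d.A m b j‖)).card : ℝ) ≤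
      X ^ s / (m + 1) ^ 3 := by
    intro b hb
    set a : ℝ := (b : ℝ) / Hn m with ha
    have ha1 : m - 1 ≤ a := BI_lower hm56 hb
    have ha2 : a ≤ m ^ 2 := BI_upper hm56 hb
    have hapos : 0 < a := by linarith
    set ℓ : ℕ := ⌈Real.log X / a⌉₊ with hℓ
    have hq : 0 ≤ Real.log X / a := div_nonneg (by linarith) hapos.le
    have h1 : Real.log X ≤ ℓ * a := by
      rw [← div_le_iff₀ hapos]
      exact Nat.le_ceil _
    have h2 : ℓ * a ≤ Real.log X + a := by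
      have h3 := (Nat.ceil_lt_add_one hq).le
      have h4 := mul_le_mul_of_nonneg_right h3 hapos.le
      rw [add_mul, div_mul_cancel₀ _ hapos.ne', one_mul] at h4
      exact h4
    have hy : xb m b = Real.exp a := rfl
    have hmv' := hmv (Real.exp (m ^ 2)) (xb m b) X (LB d.D m b) ℓ (LB_sub d.D m b)
      (fun p hp => LB_bounds hm56 hp) (LB_card hm56 d.D5 b) (by rw [hy]; exact Real.one_le_exp hapos.le)
      hXpos.le
    rw [hy] at hmv'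
    have hexp := ClH_exp (α := α) (by linarith : α ≤ 1 / 2) h1 h2 hapos.le (by linarith : 0 ≤ Real.log X)
      (by linarith : 0 ≤ C₁)
    rw [hXe] at hexp
    have hR : 0 < Real.exp ((1 - α) * a) ^ (2 * ℓ) := by positivity
    have hcount : (((Fr X).filter (fun j => Real.exp ((1 - α) * a) < ‖d.A m b j‖)).card : ℝ) *
        Real.exp ((1 - α) * a) ^ (2 * ℓ) ≤ ∑ j ∈ Fr X, ‖∑ p ∈ LB d.D m b, d.F j p‖ ^ (2 * ℓ) := by
      rw [← nsmul_eq_mul, ← Finset.sum_const]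
      refine (Finset.sum_le_sum (fun j hj => ?_)).trans
        (Finset.sum_le_sum_of_subset_of_nonneg (Finset.filter_subset _ _) (fun j _ _ => by positivity))
      have h3 := (Finset.mem_filter.1 hj).2
      exact pow_le_pow_left₀ (Real.exp_pos _).le h3.le _
    have h5 := hcount.trans (hmv'.trans hexp)
    have h6 := le_of_mul_le_mul_right h5 hR
    have h7 := hnum X hX m α hm hm2 hα a ℓ ha1 ha2 h2
    rw [le_div_iff₀ hcube]
    exact (mul_le_mul_of_nonneg_right h6 hcube.le).trans h7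
  have hsub : (Fr X).filter (fun j => ¬ Good d m α j) ⊆
      (BI m).biUnion (fun b => (Fr X).filter (fun j => Real.exp ((1 - α) * (b / Hn m)) < ‖d.A m b j‖)) := by
    intro j hj
    obtain ⟨hj1, hj2⟩ := Finset.mem_filter.1 hj
    unfold Good at hj2
    push Not at hj2
    obtain ⟨b, hb, hlt⟩ := hj2
    exact Finset.mem_biUnion.2 ⟨b, hb, Finset.mem_filter.2 ⟨hj1, hlt⟩⟩
  have hXs : 0 ≤ X ^ s := (Real.rpow_pos_of_pos hXpos s).le
  calc (((Fr X).filter (fun j => ¬ Good d m α j)).card : ℝ)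
      ≤ ∑ b ∈ BI m, (((Fr X).filter (fun j => Real.exp ((1 - α) * (b / Hn m)) < ‖d.A m b j‖)).card : ℝ) := by
        have h1 := (Finset.card_le_card hsub).trans Finset.card_biUnion_le
        exact_mod_cast h1
    _ ≤ ∑ _b ∈ BI m, X ^ s / (m + 1) ^ 3 := Finset.sum_le_sum hblock
    _ = ((BI m).card : ℝ) * (X ^ s / (m + 1) ^ 3) := by rw [Finset.sum_const, nsmul_eq_mul]
    _ ≤ (m + 1) ^ 3 * (X ^ s / (m + 1) ^ 3) :=
        mul_le_mul_of_nonneg_right (card_BI hm56) (by positivity)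
    _ = X ^ s := by field_simp

end Pool.Agent.Lib.MP_d57abb_nt.MR
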