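import Mathlib
import Pool.Agent.Lib.MP_d57abb_nt.MR.ClA
import Pool.Agent.Lib.MP_d57abb_nt.MR.Dir
import Pool.Agent.Lib.MP_d57abb_nt.MR.RmE

/-!
# JOB ClB: the pairs `(p, u)` with `star p ∣ u`

Let `s = SPr D m X`, `W = mass (LP D m)`.
PROOF.  For `(p, u) ∈ s` write `u = star p * w`.  `star p` is totally positive, so `w` is (`TP.of_mul`), and `w` is primitive (`Pm_of_mul`, with `u` primitive).
`p * u = (p * star p) * w = (N p : O) * w` (`mul_star_self`; `N p > 0` is a natural number `q`), so `dir (p * u) = dir w` (`dir_eq_iff` with `m = 1`, `n = q`, `k = 0`, or `dir_unique`)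
`= nf w` (`dir_of_Pm`), `N (nf w) = N w = N u / N p ≤ X / (xb m (blk m p) N p) ≤ 2 X / N p²` (`lt_xb`: `N p ≤ 2 xb`).
Let `q = ((p, u), (p', u'))` be in the filtered product, `v = dir (p u) = dir (p' u')`.  Then `v ∈ V (2 X / max (N p, N p')²)`.  The map `q ↦ ((p, p'), v)` is injective: `w = unit * v`
(`nf_spec`), so `u = star p * unit * v` and `u = nf (star p * v)` (`nf_eq`, `u` is in the quadrant); the same for `u'`.  Hence the number is
`≤ ∑_{p, p' ∈ LP} #V (2 X / max²) ≤ C₀ ∑_{p,p'} 2 X / max (N p, N p')²` (`card_V_le`).  Each pair has `N p ≤ N p'` or `N p' ≤ N p`, so this is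
`≤ 2 ∑_{p'} ∑_{p : N p ≤ N p'} 2 C₀ X / N p'² ≤ 4 C₀ X ∑_{p'} (2 N p' / m) / N p'² = (8 C₀ X / m) W` by `card_LP` with `z = N p'`.
-/

namespace Pool.Agent.Lib.MP_d57abb_nt.MR

open Finset

open Classical in
/-- the pairs `(p, u)` with `star p ∣ u` -/
noncomputable def SPr (D : ℕ) (m X : ℝ) : Finset (O × O) :=
  ((LP D m) ×ˢ (V' (2 * X))).filter (fun q => star q.1 ∣ q.2 ∧ (N q.2 : ℝ) ≤ X / xb m (blk m q.1))

private theorem ClB_key {D : ℕ} {m X : ℝ} (hm : 2 ≤ m) (hX : 0 ≤ X) {p u : O}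
    (h : (p, u) ∈ SPr D m X) :
    p ∈ LP D m ∧ Qd (dir (p * u)) ∧ (N (dir (p * u)) : ℝ) ≤ 2 * X / (N p : ℝ) ^ 2 ∧
      u = nf (star p * dir (p * u)) := by
  classical
  unfold SPr at h
  rw [Finset.mem_filter, Finset.mem_product] at h
  obtain ⟨⟨hp, hu⟩, hd, hN⟩ := h
  have hp' : p ∈ LP D m := hp
  have hu' : u ∈ V' (2 * X) := hu
  have hd' : star p ∣ u := hd
  have hN' : (N u : ℝ) ≤ X / xb m (blk m p) := hN
  obtain ⟨hDg, -, -, -⟩ := LP_dg hp'
  obtain ⟨⟨huQ, -⟩, huP⟩ := mem_V'.1 hu'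
  obtain ⟨w, hw⟩ := hd'
  have tp := hDg.tp
  have tsp : TP (star p) := tp.star
  have tu : TP u := huQ.tp
  have tw : TP w := by
    rw [hw] at tu
    exact tsp.of_mul tu
  have pw : Pm w := by
    rw [hw] at huP
    exact Pm_of_mul huP
  have hNp : 2 ≤ N p := hDg.two_le
  obtain ⟨q, hq⟩ : ∃ q : ℕ, N p = q := ⟨(N p).toNat, by omega⟩
  have hq0 : 0 < q := by omega
  have e1 : p * u = (q : O) * w := by
    rw [hw, ← mul_assoc, mul_star_self, hq]
    norm_cast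
  have e2 : dir (p * u) = nf w := by
    rw [← dir_of_Pm tw pw]
    refine (dir_eq_iff (tp.mul tu) tw).2 ⟨1, q, 0, one_pos, hq0, ?_⟩
    rw [e1, zpow_zero, Units.val_one, one_mul, Nat.cast_one, one_mul]
  have hNw : N u = N p * N w := by
    rw [hw, N_mul, N_star]
  refine ⟨hp', ?_, ?_, ?_⟩
  · rw [e2]
    exact nf_Qd tw
  · rw [e2, N_nf tw]
    have h1 : (N p : ℝ) ≤ 2 * xb m (blk m p) := (lt_xb hm hp').2
    have h0 : (0 : ℝ) < N p := by
      have : (2 : ℝ) ≤ N p := by exact_mod_cast hNp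
      linarith
    have hx : 0 < xb m (blk m p) := Real.exp_pos _
    have h2 : (N u : ℝ) = N p * N w := by exact_mod_cast hNw
    rw [h2, le_div_iff₀ hx] at hN'
    rw [le_div_iff₀ (by positivity)]
    have hw0 : (0 : ℝ) < N w := by exact_mod_cast tw.N_pos
    have h3 : (N w : ℝ) * (N p : ℝ) * (N p : ℝ) ≤ (N w : ℝ) * (N p : ℝ) * (2 * xb m (blk m p)) :=
      mul_le_mul_of_nonneg_left h1 (by positivity)
    nlinarith
  · rw [e2]
    obtain ⟨k, hk⟩ := nf_spec tw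
    refine (nf_eq huQ (k := -k) ?_).symm
    have e3 : u = ((omu ^ k : Oˣ) : O) * (star p * nf w) := by
      calc u = star p * w := hw
        _ = star p * (((omu ^ k : Oˣ) : O) * nf w) := by rw [← hk]
        _ = ((omu ^ k : Oˣ) : O) * (star p * nf w) := by ring
    rw [e3, ← mul_assoc, ← Units.val_mul, ← zpow_add, neg_add_cancel, zpow_zero, Units.val_one,
      one_mul]

private theorem ClB_sum {D : ℕ} (h5 : 5 ∣ D) {m X : ℝ} (hm : 2 ≤ m) (hX : 0 ≤ X) :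
    ∑ pp ∈ LP D m ×ˢ LP D m, 2 * X / (max (N pp.1 : ℝ) (N pp.2 : ℝ)) ^ 2 ≤
      8 * X * mass (LP D m) / m := by
  have hm0 : 0 < m := by linarith
  have hNp : ∀ p ∈ LP D m, (0 : ℝ) < N p := by
    intro p hp
    have := (LP_dg hp).1.two_le
    have h2 : (2 : ℝ) ≤ N p := by exact_mod_cast this
    linarith
  let r : O → O → ℝ := fun p p' => if (N p : ℝ) ≤ N p' then 2 * X / (N p' : ℝ) ^ 2 else 0
  have hr0 : ∀ p p', 0 ≤ r p p' := by
    intro p p'
    show 0 ≤ if (N p : ℝ) ≤ N p' then 2 * X / (N p' : ℝ) ^ 2 else 0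
    split_ifs
    · positivity
    · exact le_rfl
  have h1 : ∀ p ∈ LP D m, ∀ p' ∈ LP D m,
      2 * X / (max (N p : ℝ) (N p' : ℝ)) ^ 2 ≤ r p p' + r p' p := by
    intro p hp p' hp'
    rcases le_total (N p : ℝ) (N p' : ℝ) with h | h
    · rw [max_eq_right h]
      have e : r p p' = 2 * X / (N p' : ℝ) ^ 2 := if_pos h
      rw [← e]
      linarith [hr0 p' p]
    · rw [max_eq_left h]
      have e : r p' p = 2 * X / (N p : ℝ) ^ 2 := if_pos h
      rw [← e]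
      linarith [hr0 p p']
  have h2 : ∀ p' ∈ LP D m, ∑ p ∈ LP D m, r p p' ≤ 4 * X / m * (1 / (N p' : ℝ)) := by
    intro p' hp'
    have hN := hNp p' hp'
    have e : ∑ p ∈ LP D m, r p p' =
        (((LP D m).filter (fun p => (N p : ℝ) ≤ N p')).card : ℝ) * (2 * X / (N p' : ℝ) ^ 2) := by
      show ∑ p ∈ LP D m, (if (N p : ℝ) ≤ N p' then 2 * X / (N p' : ℝ) ^ 2 else 0) = _
      rw [← Finset.sum_filter, Finset.sum_const, nsmul_eq_mul]
    rw [e]
    calc _ ≤ 2 * (N p' : ℝ) / m * (2 * X / (N p' : ℝ) ^ 2) :=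
          mul_le_mul_of_nonneg_right (card_LP hm h5 hN.le) (by positivity)
      _ = 4 * X / m * (1 / (N p' : ℝ)) := by
          field_simp
          ring
  have h3 : ∑ p' ∈ LP D m, ∑ p ∈ LP D m, r p p' ≤ 4 * X / m * mass (LP D m) := by
    refine (Finset.sum_le_sum h2).trans (le_of_eq ?_)
    unfold mass
    rw [Finset.mul_sum]
  rw [Finset.sum_product]
  calc ∑ p ∈ LP D m, ∑ p' ∈ LP D m, 2 * X / (max (N p : ℝ) (N p' : ℝ)) ^ 2
      ≤ ∑ p ∈ LP D m, ∑ p' ∈ LP D m, (r p p' + r p' p) :=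
        Finset.sum_le_sum fun p hp => Finset.sum_le_sum fun p' hp' => h1 p hp p' hp'
    _ = (∑ p ∈ LP D m, ∑ p' ∈ LP D m, r p p') + ∑ p ∈ LP D m, ∑ p' ∈ LP D m, r p' p := by
        rw [← Finset.sum_add_distrib]
        exact Finset.sum_congr rfl fun p _ => Finset.sum_add_distrib
    _ ≤ 4 * X / m * mass (LP D m) + 4 * X / m * mass (LP D m) := by
        refine add_le_add ?_ h3
        rw [Finset.sum_comm]
        exact h3
    _ = 8 * X * mass (LP D m) / m := by ring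

theorem card_SPr {D : ℕ} (h5 : 5 ∣ D) : ∃ C : ℝ, 1 ≤ C ∧ ∀ m X : ℝ, 2 ≤ m → 0 ≤ X →
    ((((SPr D m X) ×ˢ (SPr D m X)).filter (fun q => dir (q.1.1 * q.1.2) = dir (q.2.1 * q.2.2))).card : ℝ) ≤
      C * X * mass (LP D m) / m := by
  obtain ⟨C₀, hC0, hC⟩ := card_V_le
  refine ⟨8 * C₀, by linarith, fun m X hm hX => ?_⟩
  have hm0 : 0 < m := by linarith
  have hcard : (((SPr D m X) ×ˢ (SPr D m X)).filter
      (fun q => dir (q.1.1 * q.1.2) = dir (q.2.1 * q.2.2))).card ≤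
      ((LP D m ×ˢ LP D m).sigma
        (fun pp => V (2 * X / (max (N pp.1 : ℝ) (N pp.2 : ℝ)) ^ 2))).card := by
    refine Finset.card_le_card_of_injOn
      (fun q => (⟨(q.1.1, q.2.1), dir (q.1.1 * q.1.2)⟩ : Σ _ : O × O, O)) ?_ ?_
    · rintro ⟨⟨p, u⟩, ⟨p', u'⟩⟩ hq
      rw [Finset.mem_coe, Finset.mem_filter, Finset.mem_product] at hq
      obtain ⟨⟨h1, h2⟩, h3⟩ := hq
      have h3' : dir (p * u) = dir (p' * u') := h3
      obtain ⟨a1, a2, a3, -⟩ := ClB_key hm hX h1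
      obtain ⟨b1, b2, b3, -⟩ := ClB_key hm hX h2
      rw [Finset.mem_coe, Finset.mem_sigma, Finset.mem_product]
      refine ⟨⟨a1, b1⟩, mem_V.2 ⟨a2, ?_⟩⟩
      show (N (dir (p * u)) : ℝ) ≤ 2 * X / (max (N p : ℝ) (N p' : ℝ)) ^ 2
      rcases le_total (N p : ℝ) (N p' : ℝ) with h | h
      · rw [max_eq_right h, h3']
        exact b3
      · rw [max_eq_left h]
        exact a3
    · rintro ⟨⟨p, u⟩, ⟨p', u'⟩⟩ hq ⟨⟨r, w⟩, ⟨r', w'⟩⟩ hq' he
      rw [Finset.mem_coe, Finset.mem_filter, Finset.mem_product] at hq hq'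
      obtain ⟨⟨h1, h2⟩, h3⟩ := hq
      obtain ⟨⟨g1, g2⟩, g3⟩ := hq'
      have h3' : dir (p * u) = dir (p' * u') := h3
      have g3' : dir (r * w) = dir (r' * w') := g3
      obtain ⟨-, -, -, a4⟩ := ClB_key hm hX h1
      obtain ⟨-, -, -, b4⟩ := ClB_key hm hX h2
      obtain ⟨-, -, -, c4⟩ := ClB_key hm hX g1
      obtain ⟨-, -, -, d4⟩ := ClB_key hm hX g2
      have he1 : ((p, p') : O × O) = (r, r') := congrArg Sigma.fst he
      have he2 : dir (p * u) = dir (r * w) := by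
        have := (Sigma.mk.inj_iff.1 he).2
        exact eq_of_heq this
      have e1 : p = r := congrArg Prod.fst he1
      have e2 : p' = r' := congrArg Prod.snd he1
      have e3 : u = w := by
        rw [a4, c4, he2, e1]
      have e4 : u' = w' := by
        rw [b4, d4, ← h3', ← g3', he2, e2]
      rw [e1, e2, e3, e4]
  have h1 : ((((SPr D m X) ×ˢ (SPr D m X)).filter
      (fun q => dir (q.1.1 * q.1.2) = dir (q.2.1 * q.2.2))).card : ℝ) ≤
      ∑ pp ∈ LP D m ×ˢ LP D m, ((V (2 * X / (max (N pp.1 : ℝ) (N pp.2 : ℝ)) ^ 2)).card : ℝ) := by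
    rw [Finset.card_sigma] at hcard
    exact_mod_cast hcard
  refine h1.trans ?_
  calc ∑ pp ∈ LP D m ×ˢ LP D m, ((V (2 * X / (max (N pp.1 : ℝ) (N pp.2 : ℝ)) ^ 2)).card : ℝ)
      ≤ ∑ pp ∈ LP D m ×ˢ LP D m, C₀ * (2 * X / (max (N pp.1 : ℝ) (N pp.2 : ℝ)) ^ 2) :=
        Finset.sum_le_sum fun pp _ => hC _ (by positivity)
    _ = C₀ * ∑ pp ∈ LP D m ×ˢ LP D m, 2 * X / (max (N pp.1 : ℝ) (N pp.2 : ℝ)) ^ 2 := by
        rw [Finset.mul_sum]
    _ ≤ C₀ * (8 * X * mass (LP D m) / m) :=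
        mul_le_mul_of_nonneg_left (ClB_sum h5 hm hX) (by linarith)
    _ = 8 * C₀ * X * mass (LP D m) / m := by ring

end Pool.Agent.Lib.MP_d57abb_nt.MR
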