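import Mathlib
import Pool.Agent.Lib.MP_d57abb_nt.MR.ClB
import Pool.Agent.Lib.MP_d57abb_nt.MR.Mul

/-!
# JOB ClC: the identity behind the Turan-Kubilius reduction

With `W = mass (LP D m)`, `G v = a v E j v`, `x_p = xb m (blk m p)`, `S = ∑_{b ∈ BI m} A m b j * B (X / xb m b) j`.
PROOF.  Since every `p ∈ LP` lies in exactly one block and `blk m p ∈ BI m` (`blk_mem`), `S = ∑_{p ∈ LP} F j p * B (X / x_p) j` (`Finset.sum_fiberwise_of_maps_to`).
Split `B (X / x_p) j = ∑_{u ∈ V' (X / x_p)} G u` according to `star p ∣ u`.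
* The part `star p ∤ u`: `c_mult` with `Y = X N p / x_p` (so `Y / N p = X / x_p`): `F j p ∑_{u, star p ∤ u} G u = ∑_{v ∈ V' (X N p / x_p), p ∣ v} G v`.
  Here `V' (X N p / x_p) ⊆ V' (2 X)` (`lt_xb`), and it is `{v ∈ V' (2 X) : N v ≤ X N p / x_p}`.
* The part `star p ∣ u`: these pairs `(p, u)` are exactly `SPr D m X` (`X / x_p ≤ 2 X` as `x_p ≥ 1`).
So `S = ∑_{v ∈ V' (2X)} w v G v + ∑_{q ∈ SPr} F j q.1 G q.2` with `w v = #{p ∈ LP : p ∣ v, N v ≤ X N p / x_p}`.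
Put `β v = a v * ((if N v ≤ X then 1 else 0) - w v / W)`; then `B X j - S / W = ∑_{V' (2X)} β v E j v - (1/W) ∑_{SPr}` (`B X j = ∑_{v ∈ V' (2X), N v ≤ X} G v`).
Bounds: for `N v ≤ X` every `p` satisfies `N v ≤ X ≤ X N p / x_p` (`xb_le`), so `w v = om_ (LP D m) v` and `‖β v‖ ≤ |1 - om_ / W|`; for `N v > X`: `‖β v‖ = w v / W ≤ om_ / W`, and `w v = 0` unless
`N v ≤ X N p / x_p ≤ X e^(1/H)` for some `p` (`lt_xb`).
-/

namespace Pool.Agent.Lib.MP_d57abb_nt.MR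

open Finset

private theorem ClC_xb_pos (m : ℝ) (b : ℕ) : 0 < xb m b := Real.exp_pos _

private theorem ClC_one_le_xb (m : ℝ) (b : ℕ) : 1 ≤ xb m b :=
  Real.one_le_exp (div_nonneg (Nat.cast_nonneg _) (Nat.cast_nonneg _))

/-- the sum over the blocks is the sum over the primes of the level -/
private theorem ClC_blocks (d : Dat) {m X : ℝ} (hm : 2 ≤ m) (j : ℤ) :
    ∑ b ∈ BI m, d.A m b j * d.B (X / xb m b) j =
      ∑ p ∈ LP d.D m, d.F j p * d.B (X / xb m (blk m p)) j := by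
  rw [← Finset.sum_fiberwise_of_maps_to (s := LP d.D m) (t := BI m) (g := blk m)
    (fun p hp => blk_mem hm hp)]
  refine Finset.sum_congr rfl fun b _ => ?_
  unfold Dat.A LB
  rw [Finset.sum_mul]
  refine Finset.sum_congr rfl fun p hp => ?_
  rw [(mem_filter.1 hp).2]

open Classical in
/-- the contribution of one prime -/
private theorem ClC_prime (d : Dat) {m X : ℝ} (hm : 2 ≤ m) (hX : 1 ≤ X) (j : ℤ) {p : O}
    (hp : p ∈ LP d.D m) :
    d.F j p * d.B (X / xb m (blk m p)) j =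
      (∑ v ∈ V' (2 * X), if p ∣ v ∧ (N v : ℝ) ≤ X / xb m (blk m p) * N p
        then d.a v * E d.t j v else 0) +
      ∑ u ∈ V' (2 * X), if star p ∣ u ∧ (N u : ℝ) ≤ X / xb m (blk m p)
        then d.f p * d.a u * E d.t j (p * u) else 0 := by
  obtain ⟨hdg, -, -, -⟩ := LP_dg hp
  have hx := ClC_xb_pos m (blk m p)
  have hx1 := ClC_one_le_xb m (blk m p)
  have hN0 : (0 : ℝ) < (N p : ℝ) := by exact_mod_cast hdg.1.tp.N_pos
  have hle : X / xb m (blk m p) * N p ≤ 2 * X := by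
    have h1 := (lt_xb hm hp).2
    rw [div_mul_eq_mul_div, div_le_iff₀ hx]
    have h2 : X * (N p : ℝ) ≤ X * (2 * xb m (blk m p)) :=
      mul_le_mul_of_nonneg_left h1 (by linarith)
    linarith
  have hle2 : X / xb m (blk m p) ≤ 2 * X := by
    rw [div_le_iff₀ hx]
    have h2 : 2 * X * 1 ≤ 2 * X * xb m (blk m p) := mul_le_mul_of_nonneg_left hx1 (by linarith)
    linarith
  have h3 := c_mult d j hdg (X / xb m (blk m p) * N p)
  rw [mul_div_cancel_right₀ _ hN0.ne'] at h3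
  have h4 : (∑ v ∈ V' (2 * X), if p ∣ v ∧ (N v : ℝ) ≤ X / xb m (blk m p) * N p
        then d.a v * E d.t j v else 0) =
      ∑ v ∈ (V' (X / xb m (blk m p) * N p)).filter (fun v => p ∣ v), d.a v * E d.t j v := by
    rw [← Finset.sum_filter]
    refine Finset.sum_congr ?_ fun _ _ => rfl
    ext v
    simp only [mem_filter, mem_V']
    constructor
    · rintro ⟨⟨⟨h5, -⟩, h6⟩, h7, h8⟩
      exact ⟨⟨⟨h5, h8⟩, h6⟩, h7⟩
    · rintro ⟨⟨⟨h5, h8⟩, h6⟩, h7⟩
      exact ⟨⟨⟨h5, h8.trans hle⟩, h6⟩, h7, h8⟩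
  have h5 : (∑ u ∈ V' (2 * X), if star p ∣ u ∧ (N u : ℝ) ≤ X / xb m (blk m p)
        then d.f p * d.a u * E d.t j (p * u) else 0) =
      d.F j p * ∑ u ∈ (V' (X / xb m (blk m p))).filter (fun u => star p ∣ u),
        d.a u * E d.t j u := by
    rw [← Finset.sum_filter, Finset.mul_sum]
    refine Finset.sum_congr ?_ fun u hu => ?_
    · ext u
      simp only [mem_filter, mem_V']
      constructor
      · rintro ⟨⟨⟨h5, -⟩, h6⟩, h7, h8⟩
        exact ⟨⟨⟨h5, h8⟩, h6⟩, h7⟩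
      · rintro ⟨⟨⟨h5, h8⟩, h6⟩, h7⟩
        exact ⟨⟨⟨h5, h8.trans hle2⟩, h6⟩, h7, h8⟩
    · rw [mem_filter, mem_V'] at hu
      rw [E_mul _ _ hdg.1.tp hu.1.1.1.tp]
      unfold Dat.F
      ring
  rw [h4, h3, h5, ← mul_add]
  congr 1
  unfold Dat.B
  rw [add_comm]
  exact (Finset.sum_filter_add_sum_filter_not _ (fun u => star p ∣ u) _).symm

open Classical in
/-- the number of primes which contribute to `v` -/
private noncomputable def ClC_w (D : ℕ) (m X : ℝ) (v : O) : ℝ :=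
  (((LP D m).filter (fun p => p ∣ v ∧ (N v : ℝ) ≤ X / xb m (blk m p) * N p)).card : ℝ)

private theorem ClC_w_nn (D : ℕ) (m X : ℝ) (v : O) : 0 ≤ ClC_w D m X v := Nat.cast_nonneg _

private theorem ClC_w_le (D : ℕ) (m X : ℝ) (v : O) : ClC_w D m X v ≤ om_ (LP D m) v := by
  classical
  unfold ClC_w om_
  refine Nat.cast_le.2 (Finset.card_le_card ?_)
  intro p hp
  rw [mem_filter] at hp ⊢
  exact ⟨hp.1, hp.2.1⟩

private theorem ClC_w_eq (D : ℕ) {m X : ℝ} (hm : 2 ≤ m) (hX : 1 ≤ X) {v : O} (hv : (N v : ℝ) ≤ X) :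
    ClC_w D m X v = om_ (LP D m) v := by
  classical
  refine le_antisymm (ClC_w_le D m X v) ?_
  unfold ClC_w om_
  refine Nat.cast_le.2 (Finset.card_le_card ?_)
  intro p hp
  rw [mem_filter] at hp ⊢
  refine ⟨hp.1, hp.2, ?_⟩
  have hx := ClC_xb_pos m (blk m p)
  have h1 := xb_le hm hp.1
  rw [div_mul_eq_mul_div, le_div_iff₀ hx]
  calc (N v : ℝ) * xb m (blk m p) ≤ X * xb m (blk m p) := mul_le_mul_of_nonneg_right hv hx.le
    _ ≤ X * N p := mul_le_mul_of_nonneg_left h1 (by linarith)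

private theorem ClC_w_zero (D : ℕ) {m X : ℝ} (hm : 2 ≤ m) (hX : 1 ≤ X) {v : O}
    (hv : X * Real.exp (1 / Hn m) < (N v : ℝ)) : ClC_w D m X v = 0 := by
  classical
  unfold ClC_w
  rw [Nat.cast_eq_zero, Finset.card_eq_zero, Finset.filter_eq_empty_iff]
  rintro p hp ⟨-, h1⟩
  have hx := ClC_xb_pos m (blk m p)
  have h2 := (lt_xb hm hp).1
  rw [div_mul_eq_mul_div, le_div_iff₀ hx] at h1
  have h3 : X * Real.exp (1 / Hn m) * xb m (blk m p) < (N v : ℝ) * xb m (blk m p) :=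
    mul_lt_mul_of_pos_right hv hx
  have h4 : X * (N p : ℝ) ≤ X * (xb m (blk m p) * Real.exp (1 / Hn m)) :=
    mul_le_mul_of_nonneg_left h2.le (by linarith)
  linarith

theorem cl_id (d : Dat) {m X : ℝ} (hm : 2 ≤ m) (hX : 1 ≤ X) (hW : 0 < mass (LP d.D m)) :
    ∃ β : O → ℂ,
      (∀ v : O, (N v : ℝ) ≤ X → ‖β v‖ ≤ |1 - om_ (LP d.D m) v / mass (LP d.D m)|) ∧
      (∀ v : O, X < (N v : ℝ) → (N v : ℝ) ≤ X * Real.exp (1 / Hn m) → ‖β v‖ ≤ om_ (LP d.D m) v / mass (LP d.D m)) ∧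
      (∀ v : O, X * Real.exp (1 / Hn m) < (N v : ℝ) → β v = 0) ∧
      ∀ j : ℤ, d.B X j - (1 / mass (LP d.D m) : ℝ) * ∑ b ∈ BI m, d.A m b j * d.B (X / xb m b) j =
        ∑ v ∈ V' (2 * X), β v * E d.t j v -
          (1 / mass (LP d.D m) : ℝ) * ∑ q ∈ SPr d.D m X, d.f q.1 * d.a q.2 * E d.t j (q.1 * q.2) := by
  classical
  set W := mass (LP d.D m) with hWd
  have hX0 : 0 < X := by linarith
  have hexp : 1 ≤ Real.exp (1 / Hn m) :=
    Real.one_le_exp (div_nonneg zero_le_one (Nat.cast_nonneg _))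
  refine ⟨fun v => d.a v * (((if (N v : ℝ) ≤ X then 1 else 0) - ClC_w d.D m X v / W : ℝ) : ℂ),
    ?_, ?_, ?_, ?_⟩
  · intro v hv
    show ‖d.a v * (((if (N v : ℝ) ≤ X then 1 else 0) - ClC_w d.D m X v / W : ℝ) : ℂ)‖ ≤ _
    rw [if_pos hv, ClC_w_eq d.D hm hX hv, norm_mul, Complex.norm_real, Real.norm_eq_abs]
    calc ‖d.a v‖ * |1 - om_ (LP d.D m) v / W| ≤ 1 * |1 - om_ (LP d.D m) v / W| :=
          mul_le_mul_of_nonneg_right (d.a_le v) (abs_nonneg _)
      _ = _ := one_mul _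
  · intro v hv _
    show ‖d.a v * (((if (N v : ℝ) ≤ X then 1 else 0) - ClC_w d.D m X v / W : ℝ) : ℂ)‖ ≤ _
    rw [if_neg (not_le.2 hv), norm_mul, Complex.norm_real, Real.norm_eq_abs, zero_sub, abs_neg,
      abs_of_nonneg (div_nonneg (ClC_w_nn _ _ _ _) hW.le)]
    calc ‖d.a v‖ * (ClC_w d.D m X v / W) ≤ 1 * (ClC_w d.D m X v / W) :=
          mul_le_mul_of_nonneg_right (d.a_le v) (div_nonneg (ClC_w_nn _ _ _ _) hW.le)
      _ = ClC_w d.D m X v / W := one_mul _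
      _ ≤ _ := div_le_div_of_nonneg_right (ClC_w_le _ _ _ _) hW.le
  · intro v hv
    have h1 : ¬ (N v : ℝ) ≤ X := by
      intro h2
      have h3 : X * 1 ≤ X * Real.exp (1 / Hn m) := mul_le_mul_of_nonneg_left hexp hX0.le
      linarith
    show d.a v * (((if (N v : ℝ) ≤ X then 1 else 0) - ClC_w d.D m X v / W : ℝ) : ℂ) = 0
    rw [if_neg h1, ClC_w_zero d.D hm hX hv, zero_div, sub_zero, Complex.ofReal_zero, mul_zero]
  · intro j
    have hB : d.B X j = ∑ v ∈ V' (2 * X), if (N v : ℝ) ≤ X then d.a v * E d.t j v else 0 := by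
      unfold Dat.B
      rw [← Finset.sum_filter]
      refine Finset.sum_congr ?_ fun _ _ => rfl
      ext v
      simp only [mem_filter, mem_V']
      constructor
      · rintro ⟨⟨h5, h8⟩, h6⟩
        exact ⟨⟨⟨h5, by linarith⟩, h6⟩, h8⟩
      · rintro ⟨⟨⟨h5, -⟩, h6⟩, h8⟩
        exact ⟨⟨h5, h8⟩, h6⟩
    have hS : ∑ b ∈ BI m, d.A m b j * d.B (X / xb m b) j =
        ∑ v ∈ V' (2 * X), (ClC_w d.D m X v : ℂ) * (d.a v * E d.t j v) +
          ∑ q ∈ SPr d.D m X, d.f q.1 * d.a q.2 * E d.t j (q.1 * q.2) := by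
      rw [ClC_blocks d hm j, Finset.sum_congr rfl fun p hp => ClC_prime d hm hX j hp,
        Finset.sum_add_distrib]
      congr 1
      · rw [Finset.sum_comm]
        refine Finset.sum_congr rfl fun v _ => ?_
        rw [← Finset.sum_filter, Finset.sum_const, nsmul_eq_mul]
        unfold ClC_w
        rw [Complex.ofReal_natCast]
      · unfold SPr
        rw [Finset.sum_filter, Finset.sum_product]
    rw [hB, hS, mul_add, ← sub_sub, Finset.mul_sum, ← Finset.sum_sub_distrib]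
    congr 1
    refine Finset.sum_congr rfl fun v _ => ?_
    beta_reduce
    by_cases h : (N v : ℝ) ≤ X
    · rw [if_pos h, if_pos h]
      push_cast
      ring
    · rw [if_neg h, if_neg h]
      push_cast
      ring

end Pool.Agent.Lib.MP_d57abb_nt.MR
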