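import Mathlib
import Pool.Agent.Lib.MP_d57abb_nt.MR.ClC
import Pool.Agent.Lib.MP_d57abb_nt.MR.Tk
import Pool.Agent.Lib.MP_d57abb_nt.MR.Ls

/-!
# JOB ClD: the Turan-Kubilius reduction

Notation: `W = mass (LP D m) ≥ 1`, `W ≥ (1/4) log m` (`mass_LP`), `S j = ∑_{b ∈ BI m} A m b j * B (X / xb m b) j`, `z = exp (m²)`, `z^8 = exp (8 m²) ≤ X`.
PROOF.  `c j X = B X j / X`, so `‖c j X‖² ≤ 2 X^(-2) ‖B X j - S j / W‖² + 2 X^(-2) W^(-2) ‖S j‖²`, and the second term gives `2 / X² ∑ ‖S j‖²` (`W ≥ 1`).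
By `cl_id`, `‖B X j - S j / W‖² ≤ 2 ‖∑_{V' (2X)} β v E‖² + 2 W^(-2) ‖∑_{SPr} ..‖²`.  Extend the sum over `J` to `Fr T`.
* `ls` with `Y = 2 X`: `∑_j ‖∑ β v E‖² ≤ 9 (2 T + 1 + 4 X) ∑_{v ∈ V' (2X)} ‖β v‖² ≤ 63 X ∑ ‖β v‖²`, and
  `∑_{v ∈ V' (2X)} ‖β v‖² ≤ W^(-2) ∑_{V X} (om_ - W)² + W^(-2) ∑_{V (X + h) \ V X} om_²`, `X + h = X e^(1/H)`, `0 ≤ h ≤ 2 X / m ≤ X` (`exp_inv_le`).  (Split `V' (2X)` in `N v ≤ X`,
  `X < N v ≤ X e^(1/H)`, and the rest, where `β v = 0`.)  `tk` (`S = LP ⊆ PS ⊆ PP D z`): the first is `≤ C X (W + 1) / W² ≤ 2 C X / W ≤ 8 C X / log m`.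
  `tk_shell`: the second is `≤ C (h (W + W²) + X^(7/8)) / W² ≤ C (2 h + X^(7/8)) ≤ C (4 X / m + X / m)` since `X^(1/8) ≥ exp (2 m²) ≥ m`.
* `ls_dir` with `Y = 2 X`, `s = SPr`, `w q = q.1 * q.2` (totally positive, of norm `N p N u ≤ N p X / xb ≤ 2 X`), coefficients `f q.1 * a q.2` of norm `≤ 1` (`norm_f`, `a_le`), together
  with `sum_sq_card` and `card_SPr`: `∑_j ‖∑_{SPr}‖² ≤ 63 X * C X W / m`; times `W^(-2)`: `≤ 63 C X² / m`.
Finally `1 / m ≤ 1 / log m` (`m ≥ 2`).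
-/

namespace Pool.Agent.Lib.MP_d57abb_nt.MR

open Finset

private theorem ClD_LP {D : ℕ} {m : ℝ} : LP D m ⊆ PP D (Real.exp (m ^ 2)) := by
  intro p hp
  obtain ⟨h1, _, h3, _⟩ := LP_dg hp
  exact mem_PP.mpr ⟨h1, h3⟩

open Classical in
private theorem ClD_mem {D : ℕ} {m X : ℝ} {q : O × O} (hq : q ∈ SPr D m X) :
    (q.1 ∈ LP D m ∧ q.2 ∈ V' (2 * X)) ∧ star q.1 ∣ q.2 ∧ (N q.2 : ℝ) ≤ X / xb m (blk m q.1) := by
  unfold SPr at hq
  rw [Finset.mem_filter, Finset.mem_product] at hq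
  exact hq

private theorem ClD_three (a b c : ℝ) : (a + b + c) ^ 2 ≤ 3 * a ^ 2 + 3 * b ^ 2 + 3 * c ^ 2 := by
  nlinarith [sq_nonneg (a - b), sq_nonneg (a - c), sq_nonneg (b - c)]

/-- the sum of the squares of the coefficients -/
private theorem ClD_beta (V0 V1 V2 : Finset O) (β : O → ℂ) (om : O → ℝ) (W : ℝ) (hW : 0 < W)
    (h1 : ∀ v ∈ V0, v ∈ V1 → ‖β v‖ ≤ |1 - om v / W|)
    (h2 : ∀ v ∈ V0, v ∉ V1 → v ∈ V2 → ‖β v‖ ≤ om v / W)
    (h3 : ∀ v ∈ V0, v ∉ V1 → v ∉ V2 → β v = 0) :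
    ∑ v ∈ V0, ‖β v‖ ^ 2 ≤ (∑ v ∈ V1, (om v - W) ^ 2) / W ^ 2 + (∑ v ∈ V2 \ V1, (om v) ^ 2) / W ^ 2 := by
  have hsplit : ∀ v ∈ V0, ‖β v‖ ^ 2 ≤ (if v ∈ V1 then (om v - W) ^ 2 / W ^ 2 else 0) +
      (if v ∈ V2 \ V1 then (om v) ^ 2 / W ^ 2 else 0) := by
    intro v hv
    by_cases hv1 : v ∈ V1
    · have h4 : v ∉ V2 \ V1 := fun h => (Finset.mem_sdiff.mp h).2 hv1
      rw [if_pos hv1, if_neg h4, add_zero]
      have h5 := h1 v hv hv1
      calc ‖β v‖ ^ 2 ≤ |1 - om v / W| ^ 2 := pow_le_pow_left₀ (norm_nonneg _) h5 2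
        _ = (1 - om v / W) ^ 2 := sq_abs _
        _ = (om v - W) ^ 2 / W ^ 2 := by
          field_simp
          ring
    · by_cases hv2 : v ∈ V2
      · have h4 : v ∈ V2 \ V1 := Finset.mem_sdiff.mpr ⟨hv2, hv1⟩
        rw [if_neg hv1, if_pos h4, zero_add]
        calc ‖β v‖ ^ 2 ≤ (om v / W) ^ 2 := pow_le_pow_left₀ (norm_nonneg _) (h2 v hv hv1 hv2) 2
          _ = (om v) ^ 2 / W ^ 2 := div_pow _ _ _
      · have h4 : v ∉ V2 \ V1 := fun h => hv2 (Finset.mem_sdiff.mp h).1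
        rw [if_neg hv1, if_neg h4, h3 v hv hv1 hv2, norm_zero]
        norm_num
  refine (Finset.sum_le_sum hsplit).trans ?_
  rw [Finset.sum_add_distrib, Finset.sum_div, Finset.sum_div]
  refine add_le_add ?_ ?_
  · rw [← Finset.sum_filter]
    refine Finset.sum_le_sum_of_subset_of_nonneg ?_ (fun v _ _ => by positivity)
    intro v hv
    exact (Finset.mem_filter.mp hv).2
  · rw [← Finset.sum_filter]
    refine Finset.sum_le_sum_of_subset_of_nonneg ?_ (fun v _ _ => by positivity)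
    intro v hv
    exact (Finset.mem_filter.mp hv).2

private theorem ClD_pow {m X : ℝ} (hm : 2 ≤ m) (hX : Real.exp (16 * m ^ 2) ≤ X) :
    X ^ (7 / 8 : ℝ) ≤ X / m := by
  have hX0 : 0 < X := (Real.exp_pos _).trans_le hX
  have hm0 : 0 < m := by linarith
  rw [le_div_iff₀ hm0]
  have h1 : m ≤ X ^ (1 / 8 : ℝ) := by
    have h2 : m ≤ Real.exp (2 * m ^ 2) := by
      have := Real.add_one_le_exp (2 * m ^ 2)
      nlinarith
    have h3 : Real.exp (2 * m ^ 2) = (Real.exp (16 * m ^ 2)) ^ (1 / 8 : ℝ) := by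
      rw [← Real.exp_mul]
      congr 1
      ring
    rw [h3] at h2
    exact h2.trans (Real.rpow_le_rpow (Real.exp_pos _).le hX (by norm_num))
  calc X ^ (7 / 8 : ℝ) * m ≤ X ^ (7 / 8 : ℝ) * X ^ (1 / 8 : ℝ) :=
        mul_le_mul_of_nonneg_left h1 (Real.rpow_nonneg hX0.le _)
    _ = X := by
      rw [← Real.rpow_add hX0]
      norm_num

theorem st1 (d : Dat) : ∃ C m₀ : ℝ, 1 ≤ C ∧ 2 ≤ m₀ ∧ ∀ m X T : ℝ, m₀ ≤ m → Real.exp (16 * m ^ 2) ≤ X → 0 ≤ T → T ≤ X →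
    ∀ J ⊆ Fr T, ∑ j ∈ J, ‖d.c j X‖ ^ 2 ≤
      C / Real.log m + C / X ^ 2 * ∑ j ∈ J, ‖∑ b ∈ BI m, d.A m b j * d.B (X / xb m b) j‖ ^ 2 := by
  obtain ⟨m0, hm0, hmass⟩ := mass_LP d.D5 d.D0
  obtain ⟨C1, hC1, htk⟩ := tk d.D
  obtain ⟨C2, hC2, hsh⟩ := tk_shell d.D
  obtain ⟨C3, hC3, hspr⟩ := card_SPr d.D5
  refine ⟨189 * (8 * C1 + 5 * C2 + C3) + 3, m0, by nlinarith, hm0, ?_⟩
  intro m X T hm hX hT hTX J hJ
  have hm2 : 2 ≤ m := hm0.trans hm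
  have hmp : 0 < m := by linarith
  obtain ⟨hW1, hW2⟩ := hmass m hm
  obtain ⟨W, hWdef⟩ : ∃ W : ℝ, W = mass (LP d.D m) := ⟨_, rfl⟩
  rw [← hWdef] at hW1 hW2
  have hW0 : 0 < W := by linarith
  have hlog : 0 < Real.log m := Real.log_pos (by linarith)
  have hlogm : Real.log m ≤ m := by
    have := Real.log_le_sub_one_of_pos hmp
    linarith
  have hX1 : 1 ≤ X := by
    have : (1 : ℝ) ≤ Real.exp (16 * m ^ 2) := Real.one_le_exp (by positivity)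
    linarith
  have hX0 : 0 < X := by linarith
  have hminv : 1 / m ≤ 1 / Real.log m := one_div_le_one_div_of_le hlog hlogm
  have hWinv : 1 / W ≤ 4 / Real.log m := by
    rw [div_le_div_iff₀ hW0 hlog]
    linarith
  have hWinv1 : 1 / W ≤ 1 := by
    rw [div_le_one hW0]
    exact hW1
  obtain ⟨β, hβ1, hβ2, hβ3, hid⟩ := cl_id d hm2 hX1 (by rw [← hWdef]; exact hW0)
  rw [← hWdef] at hβ1 hβ2 hid
  -- the first part
  obtain ⟨h, hh⟩ : ∃ h : ℝ, h = X * (Real.exp (1 / Hn m) - 1) := ⟨_, rfl⟩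
  have hXh : X + h = X * Real.exp (1 / Hn m) := by rw [hh]; ring
  have hh0 : 0 ≤ h := by
    rw [hh]
    have : (1 : ℝ) ≤ Real.exp (1 / Hn m) := Real.one_le_exp (by positivity)
    exact mul_nonneg hX0.le (by linarith)
  have hh1 : h ≤ 2 * X / m := by
    rw [hh]
    calc X * (Real.exp (1 / Hn m) - 1) ≤ X * (2 / m) :=
          mul_le_mul_of_nonneg_left (by linarith [(exp_inv_le hm2).1]) hX0.le
      _ = 2 * X / m := by ring
  have hh2 : h ≤ X := by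
    rw [hh]
    calc X * (Real.exp (1 / Hn m) - 1) ≤ X * 1 :=
          mul_le_mul_of_nonneg_left (by linarith [(exp_inv_le hm2).2]) hX0.le
      _ = X := mul_one X
  have hz1 : (1 : ℝ) ≤ Real.exp (m ^ 2) := Real.one_le_exp (by positivity)
  have hz8 : (Real.exp (m ^ 2)) ^ 8 ≤ X := by
    rw [← Real.exp_nat_mul]
    refine le_trans (Real.exp_le_exp.mpr ?_) hX
    push_cast
    nlinarith [sq_nonneg m]
  have hT1 := htk X (Real.exp (m ^ 2)) hz1 hz8 (LP d.D m) ClD_LP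
  have hT2 := hsh X (Real.exp (m ^ 2)) h hz1 hz8 hh0 hh2 (LP d.D m) ClD_LP
  rw [← hWdef] at hT1 hT2
  have hbeta : ∑ v ∈ V' (2 * X), ‖β v‖ ^ 2 ≤ (8 * C1 + 5 * C2) * X / Real.log m := by
    have h1 := ClD_beta (V' (2 * X)) (V X) (V (X + h)) β (om_ (LP d.D m)) W hW0 ?_ ?_ ?_
    · refine h1.trans ?_
      have h2 : (∑ v ∈ V X, (om_ (LP d.D m) v - W) ^ 2) / W ^ 2 ≤ 8 * C1 * X / Real.log m := by
        calc (∑ v ∈ V X, (om_ (LP d.D m) v - W) ^ 2) / W ^ 2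
            ≤ (C1 * X * (W + 1)) / W ^ 2 := div_le_div_of_nonneg_right hT1 (by positivity)
          _ ≤ (C1 * X * (W + W)) / W ^ 2 := by
              refine div_le_div_of_nonneg_right ?_ (by positivity)
              exact mul_le_mul_of_nonneg_left (by linarith) (by positivity)
          _ = 2 * C1 * X * (1 / W) := by
              field_simp
              ring
          _ ≤ 2 * C1 * X * (4 / Real.log m) := mul_le_mul_of_nonneg_left hWinv (by positivity)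
          _ = 8 * C1 * X / Real.log m := by ring
      have h3 : (∑ v ∈ V (X + h) \ V X, (om_ (LP d.D m) v) ^ 2) / W ^ 2 ≤ 5 * C2 * X / Real.log m := by
        have hW2' : W ≤ W ^ 2 := by nlinarith
        have hW3 : 1 ≤ W ^ 2 := by nlinarith
        have hp78 := ClD_pow hm2 hX
        have hp0 : 0 ≤ X ^ (7 / 8 : ℝ) := Real.rpow_nonneg hX0.le _
        calc (∑ v ∈ V (X + h) \ V X, (om_ (LP d.D m) v) ^ 2) / W ^ 2
            ≤ (C2 * (h * (W + W ^ 2) + X ^ (7 / 8 : ℝ))) / W ^ 2 :=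
              div_le_div_of_nonneg_right hT2 (by positivity)
          _ ≤ (C2 * (h * (W ^ 2 + W ^ 2) + X ^ (7 / 8 : ℝ) * W ^ 2)) / W ^ 2 := by
              refine div_le_div_of_nonneg_right ?_ (by positivity)
              refine mul_le_mul_of_nonneg_left ?_ (by linarith)
              refine add_le_add (mul_le_mul_of_nonneg_left (by linarith) hh0) ?_
              exact le_mul_of_one_le_right hp0 hW3
          _ = C2 * (2 * h + X ^ (7 / 8 : ℝ)) := by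
              field_simp
              ring
          _ ≤ C2 * (2 * (2 * X / m) + X / m) := by
              refine mul_le_mul_of_nonneg_left ?_ (by linarith)
              linarith
          _ = 5 * C2 * X * (1 / m) := by ring
          _ ≤ 5 * C2 * X * (1 / Real.log m) := mul_le_mul_of_nonneg_left hminv (by positivity)
          _ = 5 * C2 * X / Real.log m := by ring
      calc _ ≤ 8 * C1 * X / Real.log m + 5 * C2 * X / Real.log m := add_le_add h2 h3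
        _ = (8 * C1 + 5 * C2) * X / Real.log m := by ring
    · intro v _ hv
      exact hβ1 v (mem_V.mp hv).2
    · intro v hv hv1 hv2
      have hQ := (mem_V'.mp hv).1.1
      refine hβ2 v ?_ ?_
      · by_contra hcon
        exact hv1 (mem_V.mpr ⟨hQ, not_lt.mp hcon⟩)
      · rw [← hXh]
        exact (mem_V.mp hv2).2
    · intro v hv _ hv2
      have hQ := (mem_V'.mp hv).1.1
      refine hβ3 v ?_
      rw [← hXh]
      by_contra hcon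
      exact hv2 (mem_V.mpr ⟨hQ, not_lt.mp hcon⟩)
  have hR1 : ∑ j ∈ Fr T, ‖∑ v ∈ V' (2 * X), β v * E d.t j v‖ ^ 2 ≤
      63 * (8 * C1 + 5 * C2) * X ^ 2 / Real.log m := by
    have h1 := ls d.t (Y := 2 * X) (T := T) (by linarith) hT β
    refine h1.trans ?_
    have h2 : 0 ≤ ∑ v ∈ V' (2 * X), ‖β v‖ ^ 2 := Finset.sum_nonneg fun v _ => by positivity
    calc 9 * (2 * T + 1 + 2 * (2 * X)) * ∑ v ∈ V' (2 * X), ‖β v‖ ^ 2
        ≤ (63 * X) * ∑ v ∈ V' (2 * X), ‖β v‖ ^ 2 := mul_le_mul_of_nonneg_right (by linarith) h2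
      _ ≤ (63 * X) * ((8 * C1 + 5 * C2) * X / Real.log m) :=
          mul_le_mul_of_nonneg_left hbeta (by positivity)
      _ = 63 * (8 * C1 + 5 * C2) * X ^ 2 / Real.log m := by ring
  -- the second part
  have hw : ∀ q ∈ SPr d.D m X, TP (q.1 * q.2) ∧ (N (q.1 * q.2) : ℝ) ≤ 2 * X := by
    intro q hq
    obtain ⟨⟨hp, hu⟩, -, hN⟩ := ClD_mem hq
    have hdg := (LP_dg hp).1
    have hQ := (mem_V'.mp hu).1.1
    refine ⟨hdg.tp.mul hQ.tp, ?_⟩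
    have hx0 : 0 < xb m (blk m q.1) := Real.exp_pos _
    have hN1 : (0 : ℝ) < (N q.1 : ℝ) := by exact_mod_cast hdg.tp.N_pos
    have hN2 : (0 : ℝ) < (N q.2 : ℝ) := by exact_mod_cast hQ.tp.N_pos
    rw [N_mul, Int.cast_mul]
    calc (N q.1 : ℝ) * (N q.2 : ℝ) ≤ (2 * xb m (blk m q.1)) * (X / xb m (blk m q.1)) :=
          mul_le_mul (lt_xb hm2 hp).2 hN hN2.le (by positivity)
      _ = 2 * X := by field_simp
  have hc : ∀ q ∈ SPr d.D m X, ‖d.f q.1 * d.a q.2‖ ≤ 1 := by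
    intro q hq
    have hdg := (LP_dg (ClD_mem hq).1.1).1
    rw [norm_mul, norm_f d hdg, one_mul]
    exact d.a_le _
  have hR2 : ∑ j ∈ Fr T, ‖∑ q ∈ SPr d.D m X, d.f q.1 * d.a q.2 * E d.t j (q.1 * q.2)‖ ^ 2 ≤
      63 * C3 * X ^ 2 * W / m := by
    have h1 := ls_dir d.t (Y := 2 * X) (T := T) (by linarith) hT (SPr d.D m X)
      (fun q => q.1 * q.2) (fun q => d.f q.1 * d.a q.2) hw hc
    have h2 := sum_sq_card (Y := 2 * X) (SPr d.D m X) (fun q => q.1 * q.2) hw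
    rw [h2] at h1
    have h3 := hspr m X hm2 hX0.le
    rw [← hWdef] at h3
    refine h1.trans ?_
    calc 9 * (2 * T + 1 + 2 * (2 * X)) * ((((SPr d.D m X) ×ˢ (SPr d.D m X)).filter
          (fun q => dir (q.1.1 * q.1.2) = dir (q.2.1 * q.2.2))).card : ℝ)
        ≤ (63 * X) * ((((SPr d.D m X) ×ˢ (SPr d.D m X)).filter
          (fun q => dir (q.1.1 * q.1.2) = dir (q.2.1 * q.2.2))).card : ℝ) :=
          mul_le_mul_of_nonneg_right (by linarith) (by positivity)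
      _ ≤ (63 * X) * (C3 * X * W / m) := mul_le_mul_of_nonneg_left h3 (by positivity)
      _ = 63 * C3 * X ^ 2 * W / m := by ring
  -- assembly
  have hpt : ∀ j : ℤ, ‖d.c j X‖ ^ 2 ≤ 3 / X ^ 2 * ‖∑ v ∈ V' (2 * X), β v * E d.t j v‖ ^ 2 +
      3 / (X ^ 2 * W ^ 2) * ‖∑ q ∈ SPr d.D m X, d.f q.1 * d.a q.2 * E d.t j (q.1 * q.2)‖ ^ 2 +
      3 / X ^ 2 * ‖∑ b ∈ BI m, d.A m b j * d.B (X / xb m b) j‖ ^ 2 := by
    intro j
    obtain ⟨R1, hR1d⟩ : ∃ R1 : ℂ, R1 = ∑ v ∈ V' (2 * X), β v * E d.t j v := ⟨_, rfl⟩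
    obtain ⟨R2, hR2d⟩ : ∃ R2 : ℂ, R2 = ∑ q ∈ SPr d.D m X, d.f q.1 * d.a q.2 * E d.t j (q.1 * q.2) :=
      ⟨_, rfl⟩
    obtain ⟨S, hSd⟩ : ∃ S : ℂ, S = ∑ b ∈ BI m, d.A m b j * d.B (X / xb m b) j := ⟨_, rfl⟩
    have h1 := hid j
    rw [← hR1d, ← hR2d, ← hSd] at h1
    rw [← hR1d, ← hR2d, ← hSd]
    have h2 : d.c j X = ((1 / X : ℝ) : ℂ) * d.B X j := rfl
    have h3 : d.B X j = R1 - ((1 / W : ℝ) : ℂ) * R2 + ((1 / W : ℝ) : ℂ) * S := by
      linear_combination h1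
    have h4 : ‖d.B X j‖ ≤ ‖R1‖ + (1 / W) * ‖R2‖ + (1 / W) * ‖S‖ := by
      rw [h3]
      refine (norm_add_le _ _).trans ?_
      have h5 := norm_sub_le R1 (((1 / W : ℝ) : ℂ) * R2)
      have h6 : ‖((1 / W : ℝ) : ℂ) * R2‖ = (1 / W) * ‖R2‖ := by
        rw [norm_mul, Complex.norm_real, Real.norm_of_nonneg (by positivity)]
      have h7 : ‖((1 / W : ℝ) : ℂ) * S‖ = (1 / W) * ‖S‖ := by
        rw [norm_mul, Complex.norm_real, Real.norm_of_nonneg (by positivity)]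
      rw [h6] at h5
      rw [h7]
      linarith
    have h8 : ‖d.c j X‖ ^ 2 = 1 / X ^ 2 * ‖d.B X j‖ ^ 2 := by
      rw [h2, norm_mul, Complex.norm_real, Real.norm_of_nonneg (by positivity)]
      ring
    have h9 : ‖d.B X j‖ ^ 2 ≤ 3 * ‖R1‖ ^ 2 + 3 * ((1 / W) * ‖R2‖) ^ 2 + 3 * ((1 / W) * ‖S‖) ^ 2 :=
      (pow_le_pow_left₀ (norm_nonneg _) h4 2).trans (ClD_three _ _ _)
    have h10 : ((1 / W) * ‖S‖) ^ 2 ≤ ‖S‖ ^ 2 := by
      refine pow_le_pow_left₀ (by positivity) ?_ 2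
      exact mul_le_of_le_one_left (norm_nonneg _) hWinv1
    rw [h8]
    calc 1 / X ^ 2 * ‖d.B X j‖ ^ 2
        ≤ 1 / X ^ 2 * (3 * ‖R1‖ ^ 2 + 3 * ((1 / W) * ‖R2‖) ^ 2 + 3 * ‖S‖ ^ 2) :=
          mul_le_mul_of_nonneg_left (by linarith) (by positivity)
      _ = 3 / X ^ 2 * ‖R1‖ ^ 2 + 3 / (X ^ 2 * W ^ 2) * ‖R2‖ ^ 2 + 3 / X ^ 2 * ‖S‖ ^ 2 := by
          field_simp
  have hsum : ∑ j ∈ J, ‖d.c j X‖ ^ 2 ≤
      3 / X ^ 2 * ∑ j ∈ J, ‖∑ v ∈ V' (2 * X), β v * E d.t j v‖ ^ 2 +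
      3 / (X ^ 2 * W ^ 2) * ∑ j ∈ J, ‖∑ q ∈ SPr d.D m X, d.f q.1 * d.a q.2 * E d.t j (q.1 * q.2)‖ ^ 2 +
      3 / X ^ 2 * ∑ j ∈ J, ‖∑ b ∈ BI m, d.A m b j * d.B (X / xb m b) j‖ ^ 2 := by
    rw [Finset.mul_sum, Finset.mul_sum, Finset.mul_sum, ← Finset.sum_add_distrib,
      ← Finset.sum_add_distrib]
    exact Finset.sum_le_sum fun j _ => hpt j
  have hJ1 : ∑ j ∈ J, ‖∑ v ∈ V' (2 * X), β v * E d.t j v‖ ^ 2 ≤
      63 * (8 * C1 + 5 * C2) * X ^ 2 / Real.log m :=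
    (Finset.sum_le_sum_of_subset_of_nonneg hJ (fun j _ _ => by positivity)).trans hR1
  have hJ2 : ∑ j ∈ J, ‖∑ q ∈ SPr d.D m X, d.f q.1 * d.a q.2 * E d.t j (q.1 * q.2)‖ ^ 2 ≤
      63 * C3 * X ^ 2 * W / m :=
    (Finset.sum_le_sum_of_subset_of_nonneg hJ (fun j _ _ => by positivity)).trans hR2
  obtain ⟨Z, hZ⟩ : ∃ Z : ℝ, Z = ∑ j ∈ J, ‖∑ b ∈ BI m, d.A m b j * d.B (X / xb m b) j‖ ^ 2 := ⟨_, rfl⟩
  have hZ0 : 0 ≤ Z := by
    rw [hZ]
    exact Finset.sum_nonneg fun j _ => by positivity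
  rw [← hZ] at hsum ⊢
  refine hsum.trans ?_
  have hA1 : 3 / X ^ 2 * ∑ j ∈ J, ‖∑ v ∈ V' (2 * X), β v * E d.t j v‖ ^ 2 ≤
      189 * (8 * C1 + 5 * C2) / Real.log m := by
    calc _ ≤ 3 / X ^ 2 * (63 * (8 * C1 + 5 * C2) * X ^ 2 / Real.log m) :=
          mul_le_mul_of_nonneg_left hJ1 (by positivity)
      _ = 189 * (8 * C1 + 5 * C2) / Real.log m := by
          field_simp
          ring
  have hA2 : 3 / (X ^ 2 * W ^ 2) *
      ∑ j ∈ J, ‖∑ q ∈ SPr d.D m X, d.f q.1 * d.a q.2 * E d.t j (q.1 * q.2)‖ ^ 2 ≤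
      189 * C3 / Real.log m := by
    calc _ ≤ 3 / (X ^ 2 * W ^ 2) * (63 * C3 * X ^ 2 * W / m) :=
          mul_le_mul_of_nonneg_left hJ2 (by positivity)
      _ = 189 * C3 * ((1 / W) * (1 / m)) := by
          field_simp
          ring
      _ ≤ 189 * C3 * (1 * (1 / Real.log m)) := by
          refine mul_le_mul_of_nonneg_left ?_ (by positivity)
          exact mul_le_mul hWinv1 hminv (by positivity) zero_le_one
      _ = 189 * C3 / Real.log m := by ring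
  have hA3 : 0 ≤ 189 * (8 * C1 + 5 * C2 + C3) / X ^ 2 * Z := by positivity
  have hA4 : 0 ≤ 3 / Real.log m := by positivity
  have hA5 : (189 * (8 * C1 + 5 * C2 + C3) + 3) / Real.log m +
      (189 * (8 * C1 + 5 * C2 + C3) + 3) / X ^ 2 * Z =
      189 * (8 * C1 + 5 * C2) / Real.log m + 189 * C3 / Real.log m + 3 / X ^ 2 * Z +
      (3 / Real.log m + 189 * (8 * C1 + 5 * C2 + C3) / X ^ 2 * Z) := by ring
  rw [hA5]
  linarith

end Pool.Agent.Lib.MP_d57abb_nt.MR
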