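import Mathlib
import Pool.Agent.Lib.MP_d57abb_nt.MR.ClA
import Pool.Agent.Lib.MP_d57abb_nt.MR.Ls
import Pool.Agent.Lib.MP_d57abb_nt.MR.RmE

/-!
# JOB ClE: the first level

PROOF.  Cauchy-Schwarz (`sq_sum_le_card_mul_sum_sq` after the triangle inequality): `‖∑_b A_b B_b‖² ≤ #BI ∑_b ‖A_b‖² ‖B_b‖²`, `#BI ≤ (m + 1)³` (`card_BI`).
For `b ∈ BI m` put `β = b / H`, `m - 1 ≤ β ≤ m²`, `Y = X / xb m b = X e^(-β) ≥ X / e^(m²) ≥ T` and `Y ≥ 1`.  `ls` with coefficients `a`: `∑_{j ∈ Fr T} ‖B Y j‖² ≤ 9 (2 T + 1 + 2 Y) #V'(Y) ≤ 45 Y * C₀ Y`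
(`card_V_le`).  On `J`: `‖A_b‖² ≤ exp (2 (1 - α) β)`.  So `∑_{j ∈ J} ‖A_b‖² ‖B_b‖² ≤ 45 C₀ X² exp (-2 β + 2 (1 - α) β) = 45 C₀ X² exp (-2 α β) ≤ 45 C₀ X² exp (-2 α (m - 1))`.
Sum over `b ∈ BI` (again `(m + 1)³`).
-/

namespace Pool.Agent.Lib.MP_d57abb_nt.MR

open Finset

theorem first_level (d : Dat) : ∃ C : ℝ, 1 ≤ C ∧ ∀ m X T α : ℝ, 2 ≤ m → Real.exp (16 * m ^ 2) ≤ X → 0 ≤ T →
    T ≤ X / Real.exp (m ^ 2) → 0 ≤ α → α ≤ 1 → ∀ J ⊆ Fr T, (∀ j ∈ J, Good d m α j) →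
    ∑ j ∈ J, ‖∑ b ∈ BI m, d.A m b j * d.B (X / xb m b) j‖ ^ 2 ≤
      C * X ^ 2 * (m + 1) ^ 6 * Real.exp (-(2 * α * (m - 1))) := by
  obtain ⟨C₀, hC₀, hV⟩ := card_V_le
  refine ⟨45 * C₀, by linarith, ?_⟩
  intro m X T α hm hX hT hTX hα hα1 J hJ hgood
  have hX0 : 0 < X := lt_of_lt_of_le (Real.exp_pos _) hX
  have hm1 : (0 : ℝ) ≤ m + 1 := by linarith
  have hcard := card_BI hm
  have hcard0 : (0 : ℝ) ≤ ((BI m).card : ℝ) := Nat.cast_nonneg _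
  -- one block
  have hblock : ∀ b ∈ BI m, ∑ j ∈ J, ‖d.A m b j‖ ^ 2 * ‖d.B (X / xb m b) j‖ ^ 2 ≤
      45 * C₀ * X ^ 2 * Real.exp (-(2 * α * (m - 1))) := by
    intro b hb
    have hβ1 := BI_lower hm hb
    have hβ2 := BI_upper hm hb
    set β : ℝ := (b : ℝ) / Hn m with hβ
    have hxb : xb m b = Real.exp β := rfl
    have hYT : T ≤ X / Real.exp β := by
      refine hTX.trans ?_
      exact div_le_div_of_nonneg_left hX0.le (Real.exp_pos _) (Real.exp_le_exp.mpr hβ2)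
    have hY1 : 1 ≤ X / Real.exp β := by
      rw [le_div_iff₀ (Real.exp_pos _), one_mul]
      refine le_trans ?_ hX
      rw [Real.exp_le_exp]
      have : 0 ≤ m ^ 2 := sq_nonneg m
      linarith
    rw [hxb]
    set Y : ℝ := X / Real.exp β with hYdef
    have hY0 : 0 ≤ Y := by linarith
    have hls := ls d.t hY1 hT d.a
    have h1 : ∑ v ∈ V' Y, ‖d.a v‖ ^ 2 ≤ C₀ * Y := by
      have h2 : ∑ v ∈ V' Y, ‖d.a v‖ ^ 2 ≤ ∑ v ∈ V' Y, (1 : ℝ) := by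
        refine Finset.sum_le_sum fun v _ => ?_
        exact pow_le_one₀ (norm_nonneg _) (d.a_le v)
      rw [Finset.sum_const, nsmul_eq_mul, mul_one] at h2
      have h3 : ((V' Y).card : ℝ) ≤ ((V Y).card : ℝ) := by
        exact_mod_cast Finset.card_le_card (V'_sub Y)
      exact h2.trans (h3.trans (hV Y hY0))
    have h4 : ∑ j ∈ Fr T, ‖d.B Y j‖ ^ 2 ≤ 45 * C₀ * Y ^ 2 := by
      refine hls.trans ?_
      calc 9 * (2 * T + 1 + 2 * Y) * ∑ v ∈ V' Y, ‖d.a v‖ ^ 2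
          ≤ (45 * Y) * (C₀ * Y) := by
            refine mul_le_mul (by linarith) h1
              (Finset.sum_nonneg fun v _ => by positivity) (by positivity)
        _ = 45 * C₀ * Y ^ 2 := by ring
    have h5 : ∀ j ∈ J, ‖d.A m b j‖ ^ 2 * ‖d.B Y j‖ ^ 2 ≤
        Real.exp (2 * (1 - α) * β) * ‖d.B Y j‖ ^ 2 := by
      intro j hj
      refine mul_le_mul_of_nonneg_right ?_ (by positivity)
      have h6 := hgood j hj b hb
      have h7 : Real.exp (2 * (1 - α) * β) = Real.exp ((1 - α) * β) ^ 2 := by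
        rw [sq, ← Real.exp_add]
        congr 1
        ring
      rw [h7]
      exact pow_le_pow_left₀ (norm_nonneg _) h6 2
    calc ∑ j ∈ J, ‖d.A m b j‖ ^ 2 * ‖d.B Y j‖ ^ 2
        ≤ ∑ j ∈ J, Real.exp (2 * (1 - α) * β) * ‖d.B Y j‖ ^ 2 := Finset.sum_le_sum h5
      _ = Real.exp (2 * (1 - α) * β) * ∑ j ∈ J, ‖d.B Y j‖ ^ 2 := by rw [Finset.mul_sum]
      _ ≤ Real.exp (2 * (1 - α) * β) * ∑ j ∈ Fr T, ‖d.B Y j‖ ^ 2 := by
          refine mul_le_mul_of_nonneg_left ?_ (Real.exp_pos _).le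
          exact Finset.sum_le_sum_of_subset_of_nonneg hJ fun j _ _ => by positivity
      _ ≤ Real.exp (2 * (1 - α) * β) * (45 * C₀ * Y ^ 2) :=
          mul_le_mul_of_nonneg_left h4 (Real.exp_pos _).le
      _ = 45 * C₀ * X ^ 2 * Real.exp (-(2 * α * β)) := by
          have h8 : Real.exp (2 * (1 - α) * β) =
              Real.exp (-(2 * α * β)) * Real.exp β ^ 2 := by
            rw [sq, ← Real.exp_add, ← Real.exp_add]
            congr 1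
            ring
          have h9 : Real.exp β ^ 2 * Y ^ 2 = X ^ 2 := by
            rw [← mul_pow, hYdef, mul_div_cancel₀ _ (Real.exp_pos β).ne']
          rw [h8]
          calc Real.exp (-(2 * α * β)) * Real.exp β ^ 2 * (45 * C₀ * Y ^ 2) =
              45 * C₀ * (Real.exp β ^ 2 * Y ^ 2) * Real.exp (-(2 * α * β)) := by ring
            _ = 45 * C₀ * X ^ 2 * Real.exp (-(2 * α * β)) := by rw [h9]
      _ ≤ 45 * C₀ * X ^ 2 * Real.exp (-(2 * α * (m - 1))) := by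
          refine mul_le_mul_of_nonneg_left ?_ (by positivity)
          rw [Real.exp_le_exp, neg_le_neg_iff]
          exact mul_le_mul_of_nonneg_left hβ1 (by linarith)
  set R : ℝ := 45 * C₀ * X ^ 2 * Real.exp (-(2 * α * (m - 1))) with hR
  have hR0 : 0 ≤ R := by
    rw [hR]
    positivity
  have hcs : ∀ j ∈ J, ‖∑ b ∈ BI m, d.A m b j * d.B (X / xb m b) j‖ ^ 2 ≤
      ((BI m).card : ℝ) * ∑ b ∈ BI m, ‖d.A m b j‖ ^ 2 * ‖d.B (X / xb m b) j‖ ^ 2 := by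
    intro j _
    have h1 := norm_sum_le (BI m) (fun b => d.A m b j * d.B (X / xb m b) j)
    have h2 := pow_le_pow_left₀ (norm_nonneg _) h1 2
    refine h2.trans (sq_sum_le_card_mul_sum_sq.trans ?_)
    refine mul_le_mul_of_nonneg_left ?_ hcard0
    refine Finset.sum_le_sum fun b _ => ?_
    rw [norm_mul, mul_pow]
  calc ∑ j ∈ J, ‖∑ b ∈ BI m, d.A m b j * d.B (X / xb m b) j‖ ^ 2
      ≤ ∑ j ∈ J, ((BI m).card : ℝ) * ∑ b ∈ BI m, ‖d.A m b j‖ ^ 2 * ‖d.B (X / xb m b) j‖ ^ 2 :=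
        Finset.sum_le_sum hcs
    _ = ((BI m).card : ℝ) * ∑ b ∈ BI m, ∑ j ∈ J, ‖d.A m b j‖ ^ 2 * ‖d.B (X / xb m b) j‖ ^ 2 := by
        rw [← Finset.mul_sum, Finset.sum_comm]
    _ ≤ ((BI m).card : ℝ) * ∑ b ∈ BI m, R :=
        mul_le_mul_of_nonneg_left (Finset.sum_le_sum hblock) hcard0
    _ = ((BI m).card : ℝ) * (((BI m).card : ℝ) * R) := by
        rw [Finset.sum_const, nsmul_eq_mul]
    _ ≤ (m + 1) ^ 3 * ((m + 1) ^ 3 * R) := by
        have hp : (0 : ℝ) ≤ (m + 1) ^ 3 := by positivity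
        exact mul_le_mul hcard (mul_le_mul_of_nonneg_right hcard hR0)
          (mul_nonneg hcard0 hR0) hp
    _ = 45 * C₀ * X ^ 2 * (m + 1) ^ 6 * Real.exp (-(2 * α * (m - 1))) := by
        rw [hR]
        ring

end Pool.Agent.Lib.MP_d57abb_nt.MR
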