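import Mathlib
import Pool.Agent.Lib.MP_d57abb_nt.MR.ClA
import Pool.Agent.Lib.MP_d57abb_nt.MR.ClF
import Pool.Agent.Lib.MP_d57abb_nt.MR.MoE

/-!
# JOB ClG: the later levels

Notation: `μ = exp √m`, `α' = α + m^(-1/4)`, `C₁` from `mv`, `m₀` from `num_later (3 C₁)`.
PROOF.  `‖∑_{b ∈ BI μ} A_b B_b‖² ≤ #BI(μ) ∑_b ‖A_b‖² ‖B_b‖²` (Cauchy-Schwarz).  Every `j ∈ J` is not good at `m`: there is `b₀ ∈ BI m` with `exp ((1 - α) a) < ‖A m b₀ j‖`, `a = b₀ / Hn m`;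
so `∑_{j ∈ J} ≤ ∑_{b₀ ∈ BI m} ∑_{j ∈ J, exp ((1-α) a) < ‖A m b₀ j‖}` (all terms are nonnegative).
Fix `b ∈ BI μ` and `b₀ ∈ BI m`; `β = b / Hn μ`, `x = xb μ b = e^β`, `a = b₀ / Hn m`, `y = xb m b₀ = e^a`; `μ - 1 ≤ β ≤ μ²`, `m - 1 ≤ a ≤ m²` (`BI_lower`, `BI_upper`; `μ ≥ 2`).
`ℓ = ⌈β / a⌉₊`: `β ≤ ℓ a ≤ β + a`.  For the `j` above: `‖A μ b j‖² ≤ exp (2 (1 - α') β)` (good at `μ`) and `1 ≤ ‖A m b₀ j‖^(2ℓ) exp (-2 (1 - α) a ℓ)`.  So with `Y₀ = X / x = X e^(-β)`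
`∑_j ‖A μ b j‖² ‖B Y₀ j‖² ≤ exp (2 (1 - α') β - 2 (1 - α) a ℓ) ∑_{j ∈ Fr T} ‖A m b₀ j‖^(2ℓ) ‖B Y₀ j‖²`, and by `mv` (`P = LB D m b₀`, `z = exp (m²)`; `LB_sub`, `LB_bounds`, `LB_card`)
`≤ exp (..) C₁ (T + 1 + (2y)^ℓ Y₀)(ℓ! (64 y)^ℓ Y₀)`.  Here `T + 1 ≤ 2 X`, `(2y)^ℓ Y₀ = 2^ℓ X e^(ℓ a - β) ≤ 2^ℓ X e^a`, so the first bracket is `≤ 3 * 2^ℓ X e^a`, and `(64 y)^ℓ Y₀ ≤ 64^ℓ X e^a`.
`exp (-2 (1 - α) a ℓ) ≤ exp (-2 (1 - α) β)` (`α ≤ 1`).  Altogether `≤ 3 C₁ 128^ℓ ℓ! X² e^(2a) exp (-2 m^(-1/4) β)`.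
Sum over `b₀` (`(m + 1)³` terms), over `b` and the factor `#BI(μ)` (`(μ + 1)⁶`): `num_later` with `b := β` finishes.
-/

namespace Pool.Agent.Lib.MP_d57abb_nt.MR

open Finset

/-- the exponents -/
private theorem ClG_exp {a β α δ y x : ℝ} {ℓ : ℕ} (hy : y = Real.exp a) (hx : x = Real.exp β)
    (h1 : β ≤ ℓ * a) (h2 : ℓ * a ≤ β + a) (ha : 0 ≤ a) (hα : α ≤ 1) {X T C : ℝ} (hX : 1 ≤ X) (hTX : T ≤ X)
    (hC : 0 ≤ C) (hT : 0 ≤ T) :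
    Real.exp (-(2 * ℓ * ((1 - α) * a))) * Real.exp (2 * ((1 - (α + δ)) * β)) *
      (C * (T + 1 + (2 * y) ^ ℓ * (X / x)) * ((ℓ.factorial : ℝ) * (64 * y) ^ ℓ * (X / x))) ≤
    X ^ 2 * (3 * C * (128 ^ ℓ * (ℓ.factorial : ℝ)) * Real.exp (2 * a) * Real.exp (-(2 * δ * β))) := by
  have hX0 : 0 < X := by linarith
  have e1 : y ^ ℓ * (X / x) ≤ X * Real.exp a := by
    rw [hy, hx, ← Real.exp_nat_mul, div_eq_mul_inv, ← Real.exp_neg]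
    have : Real.exp (ℓ * a) * (X * Real.exp (-β)) = X * Real.exp (ℓ * a + -β) := by
      rw [Real.exp_add]
      ring
    rw [this]
    exact mul_le_mul_of_nonneg_left (Real.exp_le_exp.2 (by linarith)) hX0.le
  have hy0 : 0 < y := by
    rw [hy]
    exact Real.exp_pos _
  have hx0 : 0 < x := by
    rw [hx]
    exact Real.exp_pos _
  have hyx0 : 0 ≤ y ^ ℓ * (X / x) := by positivity
  have hea : 1 ≤ Real.exp a := Real.one_le_exp ha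
  have h2l : (1 : ℝ) ≤ 2 ^ ℓ := one_le_pow₀ (by norm_num)
  have e2 : T + 1 + (2 * y) ^ ℓ * (X / x) ≤ 3 * (2 ^ ℓ * (X * Real.exp a)) := by
    have g1 : (2 * y) ^ ℓ * (X / x) = 2 ^ ℓ * (y ^ ℓ * (X / x)) := by
      rw [mul_pow]
      ring
    have g2 : 2 ^ ℓ * (y ^ ℓ * (X / x)) ≤ 2 ^ ℓ * (X * Real.exp a) :=
      mul_le_mul_of_nonneg_left e1 (by positivity)
    have g3 : X * 1 ≤ X * Real.exp a := mul_le_mul_of_nonneg_left hea hX0.le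
    have g4 : 1 * (X * Real.exp a) ≤ 2 ^ ℓ * (X * Real.exp a) :=
      mul_le_mul_of_nonneg_right h2l (by positivity)
    rw [g1]
    linarith
  have e3 : (ℓ.factorial : ℝ) * (64 * y) ^ ℓ * (X / x) ≤
      (ℓ.factorial : ℝ) * 64 ^ ℓ * (X * Real.exp a) := by
    have g1 : (ℓ.factorial : ℝ) * (64 * y) ^ ℓ * (X / x) =
        (ℓ.factorial : ℝ) * 64 ^ ℓ * (y ^ ℓ * (X / x)) := by
      rw [mul_pow]
      ring
    rw [g1]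
    exact mul_le_mul_of_nonneg_left e1 (by positivity)
  have e4 : C * (T + 1 + (2 * y) ^ ℓ * (X / x)) * ((ℓ.factorial : ℝ) * (64 * y) ^ ℓ * (X / x)) ≤
      C * (3 * (2 ^ ℓ * (X * Real.exp a))) * ((ℓ.factorial : ℝ) * 64 ^ ℓ * (X * Real.exp a)) := by
    refine mul_le_mul (mul_le_mul_of_nonneg_left e2 hC) e3 (by positivity) (by positivity)
  have e5 : Real.exp (-(2 * ℓ * ((1 - α) * a))) * Real.exp (2 * ((1 - (α + δ)) * β)) ≤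
      Real.exp (-(2 * δ * β)) := by
    rw [← Real.exp_add]
    apply Real.exp_le_exp.2
    have g1 : (1 - α) * β ≤ (1 - α) * (ℓ * a) := mul_le_mul_of_nonneg_left h1 (by linarith)
    nlinarith only [g1]
  have e6 : (2 : ℝ) ^ ℓ * 64 ^ ℓ = 128 ^ ℓ := by
    rw [← mul_pow]
    norm_num
  have e7 : Real.exp (2 * a) = Real.exp a * Real.exp a := by
    rw [← Real.exp_add]
    congr 1
    ring
  have hpos : 0 ≤ C * (T + 1 + (2 * y) ^ ℓ * (X / x)) *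
      ((ℓ.factorial : ℝ) * (64 * y) ^ ℓ * (X / x)) := by positivity
  refine (mul_le_mul e5 e4 hpos (Real.exp_pos _).le).trans (le_of_eq ?_)
  rw [e7, ← e6]
  ring

/-- the sum over the frequencies where the block `b₀` of the level `m` is large -/
private theorem ClG_key (d : Dat) {C₁ : ℝ} (hC₁ : 1 ≤ C₁)
    (hmv : ∀ (z y Y0 T : ℝ) (P : Finset O) (ℓ : ℕ), P ⊆ PS d.D z →
      (∀ p ∈ P, y ≤ (N p : ℝ) ∧ (N p : ℝ) ≤ 2 * y) → (P.card : ℝ) ≤ 2 * y → 1 ≤ y → 0 ≤ Y0 → 0 ≤ T →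
      ∑ j ∈ Fr T, ‖∑ p ∈ P, d.F j p‖ ^ (2 * ℓ) * ‖∑ u ∈ V' Y0, d.a u * E d.t j u‖ ^ 2 ≤
        C₁ * (T + 1 + (2 * y) ^ ℓ * Y0) * ((ℓ.factorial : ℝ) * (64 * y) ^ ℓ * Y0))
    {m X T α δ μ K : ℝ} (hm2 : 2 ≤ m) (hμ2 : 2 ≤ μ) (hX : 1 ≤ X) (hT : 0 ≤ T) (hTX : T ≤ X) (hα : α ≤ 1)
    {J : Finset ℤ} (hJ : J ⊆ Fr T) {b b₀ : ℕ} (hb : b ∈ BI μ) (hb₀ : b₀ ∈ BI m)
    (hgood : ∀ j ∈ J, ‖d.A μ b j‖ ≤ Real.exp ((1 - (α + δ)) * (b / Hn μ)))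
    (hK : ∀ ℓ : ℕ, (ℓ : ℝ) * ((b₀ : ℝ) / Hn m) ≤ (b : ℝ) / Hn μ + (b₀ : ℝ) / Hn m →
      3 * C₁ * (128 ^ ℓ * (ℓ.factorial : ℝ)) * Real.exp (2 * ((b₀ : ℝ) / Hn m)) *
        Real.exp (-(2 * δ * ((b : ℝ) / Hn μ))) ≤ K)
    {S : Finset ℤ} (hS : S ⊆ J) (hSj : ∀ j ∈ S, Real.exp ((1 - α) * ((b₀ : ℝ) / Hn m)) < ‖d.A m b₀ j‖) :
    ∑ j ∈ S, ‖d.A μ b j‖ ^ 2 * ‖d.B (X / xb μ b) j‖ ^ 2 ≤ X ^ 2 * K := by
  obtain ⟨a, ha⟩ : ∃ a : ℝ, a = (b₀ : ℝ) / Hn m := ⟨_, rfl⟩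
  obtain ⟨β, hβ⟩ : ∃ β : ℝ, β = (b : ℝ) / Hn μ := ⟨_, rfl⟩
  rw [← hβ] at hgood
  rw [← ha] at hSj
  have ha1 : m - 1 ≤ a := by
    rw [ha]
    exact BI_lower hm2 hb₀
  have hβ1 : μ - 1 ≤ β := by
    rw [hβ]
    exact BI_lower hμ2 hb
  have ha0 : 0 < a := by linarith
  have hβ0 : 0 < β := by linarith
  obtain ⟨ℓ, hℓ⟩ : ∃ ℓ : ℕ, ℓ = ⌈β / a⌉₊ := ⟨_, rfl⟩
  have h1 : β ≤ ℓ * a := by
    rw [← div_le_iff₀ ha0, hℓ]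
    exact Nat.le_ceil _
  have h2 : ℓ * a ≤ β + a := by
    have h3 : (ℓ : ℝ) < β / a + 1 := by
      rw [hℓ]
      exact Nat.ceil_lt_add_one (by positivity)
    have h4 : (ℓ : ℝ) * a ≤ (β / a + 1) * a := mul_le_mul_of_nonneg_right h3.le ha0.le
    have h5 : (β / a + 1) * a = β + a := by
      field_simp
    linarith
  have hK' := hK ℓ (by rw [← ha, ← hβ]; exact h2)
  rw [← ha, ← hβ] at hK'
  have hy : xb m b₀ = Real.exp a := by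
    rw [ha]
    rfl
  have hx : xb μ b = Real.exp β := by
    rw [hβ]
    rfl
  have hx0 : 0 < xb μ b := by
    rw [hx]
    exact Real.exp_pos _
  have hmv' := hmv (Real.exp (m ^ 2)) (xb m b₀) (X / xb μ b) T (LB d.D m b₀) ℓ (LB_sub _ _ _)
    (fun p hp => LB_bounds hm2 hp) (LB_card hm2 d.D5 b₀)
    (by rw [hy]; exact Real.one_le_exp ha0.le) (by positivity) hT
  have hexp := ClG_exp (δ := δ) hy hx h1 h2 ha0.le hα hX hTX (C := C₁) (by linarith) hT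
  obtain ⟨E1, hE1⟩ : ∃ E1 : ℝ, E1 = Real.exp (-(2 * ℓ * ((1 - α) * a))) := ⟨_, rfl⟩
  obtain ⟨E2, hE2⟩ : ∃ E2 : ℝ, E2 = Real.exp (2 * ((1 - (α + δ)) * β)) := ⟨_, rfl⟩
  have hE1p : 0 ≤ E1 := by
    rw [hE1]
    exact (Real.exp_pos _).le
  have hE2p : 0 ≤ E2 := by
    rw [hE2]
    exact (Real.exp_pos _).le
  rw [← hE1, ← hE2] at hexp
  have hterm : ∀ j ∈ S, ‖d.A μ b j‖ ^ 2 * ‖d.B (X / xb μ b) j‖ ^ 2 ≤
      E1 * E2 * (‖∑ p ∈ LB d.D m b₀, d.F j p‖ ^ (2 * ℓ) *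
        ‖∑ u ∈ V' (X / xb μ b), d.a u * E d.t j u‖ ^ 2) := by
    intro j hj
    have t1 : ‖d.A μ b j‖ ^ 2 ≤ E2 := by
      refine (pow_le_pow_left₀ (norm_nonneg _) (hgood j (hS hj)) 2).trans (le_of_eq ?_)
      rw [hE2, ← Real.exp_nat_mul]
      norm_num
    have t2 : 1 ≤ E1 * ‖d.A m b₀ j‖ ^ (2 * ℓ) := by
      have g1 : Real.exp ((1 - α) * a) ^ (2 * ℓ) ≤ ‖d.A m b₀ j‖ ^ (2 * ℓ) :=
        pow_le_pow_left₀ (Real.exp_pos _).le (hSj j hj).le _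
      have g2 : E1 * Real.exp ((1 - α) * a) ^ (2 * ℓ) = 1 := by
        rw [hE1, ← Real.exp_nat_mul, ← Real.exp_add]
        push_cast
        rw [neg_add_cancel, Real.exp_zero]
      rw [← g2]
      exact mul_le_mul_of_nonneg_left g1 hE1p
    have t3 : (0 : ℝ) ≤ ‖d.B (X / xb μ b) j‖ ^ 2 := by positivity
    have t4 : ‖d.A μ b j‖ ^ 2 * ‖d.B (X / xb μ b) j‖ ^ 2 ≤ E2 * ‖d.B (X / xb μ b) j‖ ^ 2 :=
      mul_le_mul_of_nonneg_right t1 t3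
    have t5 : 1 * (E2 * ‖d.B (X / xb μ b) j‖ ^ 2) ≤
        (E1 * ‖d.A m b₀ j‖ ^ (2 * ℓ)) * (E2 * ‖d.B (X / xb μ b) j‖ ^ 2) :=
      mul_le_mul_of_nonneg_right t2 (mul_nonneg hE2p t3)
    have t6 : (E1 * ‖d.A m b₀ j‖ ^ (2 * ℓ)) * (E2 * ‖d.B (X / xb μ b) j‖ ^ 2) =
        E1 * E2 * (‖d.A m b₀ j‖ ^ (2 * ℓ) * ‖d.B (X / xb μ b) j‖ ^ 2) := by ring
    have t7 : ‖d.A μ b j‖ ^ 2 * ‖d.B (X / xb μ b) j‖ ^ 2 ≤
        E1 * E2 * (‖d.A m b₀ j‖ ^ (2 * ℓ) * ‖d.B (X / xb μ b) j‖ ^ 2) := by linarith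
    exact t7
  refine (Finset.sum_le_sum hterm).trans ?_
  rw [← Finset.mul_sum]
  have hsub : ∑ j ∈ S, ‖∑ p ∈ LB d.D m b₀, d.F j p‖ ^ (2 * ℓ) *
        ‖∑ u ∈ V' (X / xb μ b), d.a u * E d.t j u‖ ^ 2 ≤
      C₁ * (T + 1 + (2 * xb m b₀) ^ ℓ * (X / xb μ b)) *
        ((ℓ.factorial : ℝ) * (64 * xb m b₀) ^ ℓ * (X / xb μ b)) := by
    refine le_trans ?_ hmv'
    exact Finset.sum_le_sum_of_subset_of_nonneg (hS.trans hJ) (fun j _ _ => by positivity)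
  refine (mul_le_mul_of_nonneg_left hsub (mul_nonneg hE1p hE2p)).trans ?_
  refine hexp.trans ?_
  exact mul_le_mul_of_nonneg_left hK' (by positivity)

theorem later_level (d : Dat) : ∃ m₀ : ℝ, 2 ≤ m₀ ∧ ∀ m X T α : ℝ, m₀ ≤ m → 1 ≤ X → 0 ≤ T → T ≤ X → 0 ≤ α →
    α + m ^ (-(1 / 4) : ℝ) ≤ 1 → ∀ J ⊆ Fr T,
    (∀ j ∈ J, Good d (Real.exp (√m)) (α + m ^ (-(1 / 4) : ℝ)) j ∧ ¬ Good d m α j) →
    ∑ j ∈ J, ‖∑ b ∈ BI (Real.exp (√m)), d.A (Real.exp (√m)) b j * d.B (X / xb (Real.exp (√m)) b) j‖ ^ 2 ≤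
      X ^ 2 * Real.exp (-√(Real.exp (√m))) := by
  classical
  obtain ⟨C₁, hC₁, hmv⟩ := mv d
  obtain ⟨m₀, hm₀, hnum⟩ := num_later (3 * C₁)
  refine ⟨m₀, hm₀, ?_⟩
  intro m X T α hm hX hT hTX hα hα' J hJ hgood
  have hm2 : 2 ≤ m := hm₀.trans hm
  have hm0 : 0 < m := by linarith
  have hμ2 : 2 ≤ Real.exp (√m) := by
    have h1 : (1 : ℝ) ≤ √m := by
      rw [Real.le_sqrt' (by norm_num)]
      linarith
    have h2 := Real.add_one_le_exp (√m)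
    linarith
  have hnum' := hnum m hm
  obtain ⟨μ, hμdef⟩ : ∃ μ : ℝ, μ = Real.exp (√m) := ⟨_, rfl⟩
  rw [← hμdef] at hgood hnum' hμ2 ⊢
  obtain ⟨δ, hδ⟩ : ∃ δ : ℝ, δ = m ^ (-(1 / 4) : ℝ) := ⟨_, rfl⟩
  rw [← hδ] at hgood hnum' hα'
  have hδ0 : 0 ≤ δ := by
    rw [hδ]
    exact Real.rpow_nonneg hm0.le _
  obtain ⟨W, hW⟩ : ∃ W : ℝ, W = (m + 1) ^ 3 * (μ + 1) ^ 6 := ⟨_, rfl⟩
  have hW0 : 0 < W := by
    rw [hW]
    positivity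
  obtain ⟨G, hG⟩ : ∃ G : ℕ → ℤ → ℝ, G = fun b j => ‖d.A μ b j‖ ^ 2 * ‖d.B (X / xb μ b) j‖ ^ 2 :=
    ⟨_, rfl⟩
  have hGn : ∀ b j, 0 ≤ G b j := by
    intro b j
    rw [hG]
    positivity
  -- one pair of blocks
  have hpair : ∀ b ∈ BI μ, ∀ b₀ ∈ BI m,
      ∑ j ∈ J.filter (fun j => Real.exp ((1 - α) * ((b₀ : ℝ) / Hn m)) < ‖d.A m b₀ j‖), G b j ≤
        X ^ 2 * (Real.exp (-√μ) / W) := by
    intro b hb b₀ hb₀
    rw [hG]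
    refine ClG_key d hC₁ hmv (δ := δ) hm2 hμ2 hX hT hTX (by linarith) hJ hb hb₀
      (fun j hj => (hgood j hj).1 b hb) ?_ (Finset.filter_subset _ _)
      (fun j hj => (Finset.mem_filter.1 hj).2)
    intro ℓ hℓ
    rw [le_div_iff₀ hW0, hW]
    exact hnum' _ _ ℓ (BI_lower hm2 hb₀) (BI_upper hm2 hb₀) (BI_lower hμ2 hb) (BI_upper hμ2 hb) hℓ
  -- one block of the level `μ`
  have hone : ∀ b ∈ BI μ, ∑ j ∈ J, G b j ≤ ((BI m).card : ℝ) * (X ^ 2 * (Real.exp (-√μ) / W)) := by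
    intro b hb
    have h1 : ∑ j ∈ J, G b j ≤ ∑ b₀ ∈ BI m,
        ∑ j ∈ J.filter (fun j => Real.exp ((1 - α) * ((b₀ : ℝ) / Hn m)) < ‖d.A m b₀ j‖), G b j := by
      have h2 : ∑ b₀ ∈ BI m,
          ∑ j ∈ J.filter (fun j => Real.exp ((1 - α) * ((b₀ : ℝ) / Hn m)) < ‖d.A m b₀ j‖), G b j =
          ∑ j ∈ J, ∑ b₀ ∈ BI m,
            if Real.exp ((1 - α) * ((b₀ : ℝ) / Hn m)) < ‖d.A m b₀ j‖ then G b j else 0 := by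
        rw [Finset.sum_comm]
        exact Finset.sum_congr rfl fun b₀ _ => Finset.sum_filter _ _
      rw [h2]
      refine Finset.sum_le_sum fun j hj => ?_
      have h3 := (hgood j hj).2
      unfold Good at h3
      push Not at h3
      obtain ⟨b₀, hb₀, h4⟩ := h3
      have h5 := Finset.single_le_sum (f := fun b₀ : ℕ =>
        if Real.exp ((1 - α) * ((b₀ : ℝ) / Hn m)) < ‖d.A m b₀ j‖ then G b j else 0)
        (fun b₀ _ => by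
          show (0 : ℝ) ≤ if Real.exp ((1 - α) * ((b₀ : ℝ) / Hn m)) < ‖d.A m b₀ j‖ then G b j else 0
          split_ifs
          · exact hGn b j
          · exact le_rfl) hb₀
      refine le_trans (le_of_eq ?_) h5
      show G b j = if Real.exp ((1 - α) * ((b₀ : ℝ) / Hn m)) < ‖d.A m b₀ j‖ then G b j else 0
      rw [if_pos h4]
    refine h1.trans ?_
    refine (Finset.sum_le_sum (fun b₀ hb₀ => hpair b hb b₀ hb₀)).trans (le_of_eq ?_)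
    rw [Finset.sum_const, nsmul_eq_mul]
  -- Cauchy-Schwarz
  have hcs : ∀ j ∈ J, ‖∑ b ∈ BI μ, d.A μ b j * d.B (X / xb μ b) j‖ ^ 2 ≤
      ((BI μ).card : ℝ) * ∑ b ∈ BI μ, G b j := by
    intro j _
    have h1 : ‖∑ b ∈ BI μ, d.A μ b j * d.B (X / xb μ b) j‖ ≤
        ∑ b ∈ BI μ, ‖d.A μ b j‖ * ‖d.B (X / xb μ b) j‖ := by
      refine (norm_sum_le _ _).trans (le_of_eq ?_)
      exact Finset.sum_congr rfl fun b _ => norm_mul _ _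
    refine (pow_le_pow_left₀ (norm_nonneg _) h1 2).trans ?_
    refine sq_sum_le_card_mul_sum_sq.trans (le_of_eq ?_)
    rw [hG]
    congr 1
    exact Finset.sum_congr rfl fun b _ => mul_pow _ _ 2
  have hR0 : 0 ≤ X ^ 2 * (Real.exp (-√μ) / W) := by positivity
  have hcm := card_BI hm2
  have hcμ := card_BI hμ2
  calc ∑ j ∈ J, ‖∑ b ∈ BI μ, d.A μ b j * d.B (X / xb μ b) j‖ ^ 2
      ≤ ∑ j ∈ J, ((BI μ).card : ℝ) * ∑ b ∈ BI μ, G b j := Finset.sum_le_sum hcs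
    _ = ((BI μ).card : ℝ) * ∑ b ∈ BI μ, ∑ j ∈ J, G b j := by
        rw [← Finset.mul_sum, Finset.sum_comm]
    _ ≤ ((BI μ).card : ℝ) * ∑ b ∈ BI μ, ((BI m).card : ℝ) * (X ^ 2 * (Real.exp (-√μ) / W)) :=
        mul_le_mul_of_nonneg_left (Finset.sum_le_sum hone) (Nat.cast_nonneg _)
    _ = ((BI μ).card : ℝ) * (((BI μ).card : ℝ) * (((BI m).card : ℝ) *
          (X ^ 2 * (Real.exp (-√μ) / W)))) := by
        rw [Finset.sum_const, nsmul_eq_mul]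
    _ ≤ (μ + 1) ^ 3 * ((μ + 1) ^ 3 * ((m + 1) ^ 3 * (X ^ 2 * (Real.exp (-√μ) / W)))) := by
        have g1 : ((BI m).card : ℝ) * (X ^ 2 * (Real.exp (-√μ) / W)) ≤
            (m + 1) ^ 3 * (X ^ 2 * (Real.exp (-√μ) / W)) := mul_le_mul_of_nonneg_right hcm hR0
        have g2 : ((BI μ).card : ℝ) * (((BI m).card : ℝ) * (X ^ 2 * (Real.exp (-√μ) / W))) ≤
            (μ + 1) ^ 3 * ((m + 1) ^ 3 * (X ^ 2 * (Real.exp (-√μ) / W))) :=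
          mul_le_mul hcμ g1 (mul_nonneg (Nat.cast_nonneg _) hR0) (by positivity)
        exact mul_le_mul hcμ g2 (mul_nonneg (Nat.cast_nonneg _)
          (mul_nonneg (Nat.cast_nonneg _) hR0)) (by positivity)
    _ = X ^ 2 * Real.exp (-√μ) := by
        have hne : W ≠ 0 := ne_of_gt hW0
        have g3 : (μ + 1) ^ 3 * ((μ + 1) ^ 3 * ((m + 1) ^ 3 * (X ^ 2 * (Real.exp (-√μ) / W)))) =
            X ^ 2 * (W * (Real.exp (-√μ) / W)) := by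
          conv_rhs => rw [hW]
          rw [hW]
          ring
        rw [g3, mul_div_cancel₀ _ hne]

end Pool.Agent.Lib.MP_d57abb_nt.MR
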