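import Mathlib

/-!
# JOB ClI: the sequence of levels

`L k = log (lev m k)`.  `L (k+1) = √(lev m k) = exp (L k / 2)`.
* `lev_ge`: by induction `6 ≤ L k` and `2 L k ≤ L (k + 1)`: for `x ≥ 6`, `exp (x / 2) ≥ 2 x` (`exp 3 ≥ 12`; e.g. `exp y ≥ 1 + y + y²/2 + y³/6` (`Real.quadratic_le_exp_of_nonneg` is not quite enough;
  use `exp y = exp 3 exp (y - 3) ≥ 20 (1 + (y - 3)) ≥ 4 y` for `y = x/2 ≥ 3`, `Real.add_one_le_exp`, `exp 1 ≥ 2.718`, so `exp 3 ≥ 20`).  So `lev` is increasing and `≥ m`.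
* `log_lev_ge`: `2^k log m ≤ log (lev m k)` by induction.
* `sum_inv_log`: geometric series, `∑_{k < r} 2^(-k) ≤ 2`.
* `alv_le`: `x^(-1/4) ≤ 4 / log x` for `x > 1`, because `log x = 4 log (x^(1/4)) ≤ 4 x^(1/4)`; `alv m α r = α + ∑_{k < r} (lev m k)^(-1/4) ≤ α + 4 * 2 / log m`.
* `exp_sqrt_le`: `exp (-√x) ≤ 1 / (1 + √x) ≤ 2 / log x` for `x > 1` (`log x = 2 log √x ≤ 2 √x`).
* `exists_lev`: `lev m k ≥ 2^k log m` tends to infinity (`lev ≥ log lev`), so there is a least `r` with `L ≤ lev m r` (`Nat.find`); if `r = k + 1` then `lev m k < L`, so `lev m r = exp √(lev m k) ≤ exp √L`.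
-/

namespace Pool.Agent.Lib.MP_d57abb_nt.MR

open Finset

/-- the levels -/
noncomputable def lev (m : ℝ) : ℕ → ℝ
  | 0 => m
  | k + 1 => Real.exp (√(lev m k))

/-- the exponents -/
noncomputable def alv (m α : ℝ) : ℕ → ℝ
  | 0 => α
  | k + 1 => alv m α k + (lev m k) ^ (-(1 / 4) : ℝ)

private theorem ClI_exp3 : (20 : ℝ) ≤ Real.exp 3 := by
  have h1 := Real.exp_one_gt_d9
  have h2 : Real.exp 3 = Real.exp 1 ^ 3 := by
    rw [← Real.exp_nat_mul]
    norm_num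
  rw [h2]
  have h3 : (2.7182818283 : ℝ) ^ 3 ≤ Real.exp 1 ^ 3 := pow_le_pow_left₀ (by norm_num) h1.le 3
  refine le_trans ?_ h3
  norm_num

private theorem ClI_exp {y : ℝ} (hy : 3 ≤ y) : 4 * y ≤ Real.exp y := by
  have h1 : Real.exp y = Real.exp 3 * Real.exp (y - 3) := by
    rw [← Real.exp_add]
    congr 1
    ring
  have h2 := Real.add_one_le_exp (y - 3)
  have h3 := ClI_exp3
  rw [h1]
  have h4 : 20 * (y - 3 + 1) ≤ Real.exp 3 * Real.exp (y - 3) :=
    mul_le_mul h3 h2 (by linarith) (by positivity)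
  linarith

private theorem ClI_log {x : ℝ} (hx : Real.exp 6 ≤ x) : 6 ≤ Real.log x := by
  have h0 : 0 < x := lt_of_lt_of_le (Real.exp_pos _) hx
  rwa [Real.le_log_iff_exp_le h0]

private theorem ClI_sqrt {x : ℝ} (hx : Real.exp 6 ≤ x) : 2 * Real.log x ≤ √x := by
  have h0 : 0 < x := lt_of_lt_of_le (Real.exp_pos _) hx
  have h1 := ClI_log hx
  have h2 : √x = Real.exp (Real.log x / 2) := by
    rw [Real.exp_half, Real.exp_log h0]
  rw [h2]
  have h3 := ClI_exp (y := Real.log x / 2) (by linarith)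
  linarith

private theorem ClI_le {x : ℝ} (hx : Real.exp 6 ≤ x) : x ≤ Real.exp (√x) := by
  have h0 : 0 < x := lt_of_lt_of_le (Real.exp_pos _) hx
  have h1 := ClI_log hx
  have h2 := ClI_sqrt hx
  calc x = Real.exp (Real.log x) := (Real.exp_log h0).symm
    _ ≤ Real.exp (√x) := Real.exp_le_exp.2 (by linarith)

theorem lev_ge {m : ℝ} (hm : Real.exp 6 ≤ m) (k : ℕ) : m ≤ lev m k ∧ lev m k ≤ lev m (k + 1) ∧ Real.exp 6 ≤ lev m k := by
  induction k with
  | zero => exact ⟨le_rfl, ClI_le hm, hm⟩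
  | succ k ih =>
    have h1 : Real.exp 6 ≤ lev m (k + 1) := ih.2.2.trans ih.2.1
    exact ⟨ih.1.trans ih.2.1, ClI_le h1, h1⟩

theorem log_lev_ge {m : ℝ} (hm : Real.exp 6 ≤ m) (k : ℕ) : 2 ^ k * Real.log m ≤ Real.log (lev m k) := by
  induction k with
  | zero => rw [pow_zero, one_mul]; rfl
  | succ k ih =>
    have h1 : Real.log (lev m (k + 1)) = √(lev m k) := Real.log_exp _
    rw [h1]
    have h2 := ClI_sqrt (lev_ge hm k).2.2
    rw [pow_succ]
    linarith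

private theorem ClI_geom (r : ℕ) : ∑ k ∈ range r, (1 / 2 : ℝ) ^ k ≤ 2 := by
  have h : ∀ r : ℕ, ∑ k ∈ range r, (1 / 2 : ℝ) ^ k = 2 - 2 * (1 / 2) ^ r := by
    intro r
    induction r with
    | zero => simp
    | succ r ih =>
      rw [Finset.sum_range_succ, ih, pow_succ]
      ring
  rw [h]
  have : (0 : ℝ) < (1 / 2) ^ r := by positivity
  linarith

theorem sum_inv_log {m : ℝ} (hm : Real.exp 6 ≤ m) (r : ℕ) :
    ∑ k ∈ range r, 1 / Real.log (lev m k) ≤ 2 / Real.log m := by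
  have hl := ClI_log hm
  have hl0 : 0 < Real.log m := by linarith
  have h1 : ∀ k ∈ range r, 1 / Real.log (lev m k) ≤ 1 / Real.log m * (1 / 2) ^ k := by
    intro k _
    have h2 := log_lev_ge hm k
    have h3 : 0 < 2 ^ k * Real.log m := by positivity
    refine (one_div_le_one_div_of_le h3 h2).trans (le_of_eq ?_)
    rw [one_div_pow]
    field_simp
  refine (Finset.sum_le_sum h1).trans ?_
  rw [← Finset.mul_sum]
  have h4 := mul_le_mul_of_nonneg_left (ClI_geom r) (show (0 : ℝ) ≤ 1 / Real.log m by positivity)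
  refine h4.trans (le_of_eq ?_)
  ring

theorem alv_ge {m : ℝ} (hm : Real.exp 6 ≤ m) (α : ℝ) (r : ℕ) : α ≤ alv m α r := by
  induction r with
  | zero => exact le_rfl
  | succ r ih =>
    have h1 : 0 < lev m r := lt_of_lt_of_le (Real.exp_pos _) (lev_ge hm r).2.2
    have h2 : 0 ≤ (lev m r) ^ (-(1 / 4) : ℝ) := Real.rpow_nonneg h1.le _
    show α ≤ alv m α r + (lev m r) ^ (-(1 / 4) : ℝ)
    linarith

private theorem ClI_rpow {x : ℝ} (hx : 1 < x) : x ^ (-(1 / 4) : ℝ) ≤ 4 / Real.log x := by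
  have h0 : 0 < x := by linarith
  have hl : 0 < Real.log x := Real.log_pos hx
  rw [le_div_iff₀ hl]
  have h1 : Real.log x = 4 * Real.log (x ^ (1 / 4 : ℝ)) := by
    rw [Real.log_rpow h0]
    ring
  have h2 : 0 < x ^ (1 / 4 : ℝ) := Real.rpow_pos_of_pos h0 _
  have h3 : Real.log (x ^ (1 / 4 : ℝ)) ≤ x ^ (1 / 4 : ℝ) := by
    have := Real.log_le_sub_one_of_pos h2
    linarith
  have h4 : x ^ (-(1 / 4) : ℝ) * x ^ (1 / 4 : ℝ) = 1 := by
    rw [← Real.rpow_add h0]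
    norm_num
  have h5 : 0 < x ^ (-(1 / 4) : ℝ) := Real.rpow_pos_of_pos h0 _
  calc x ^ (-(1 / 4) : ℝ) * Real.log x = 4 * (x ^ (-(1 / 4) : ℝ) * Real.log (x ^ (1 / 4 : ℝ))) := by
        rw [h1]
        ring
    _ ≤ 4 * (x ^ (-(1 / 4) : ℝ) * x ^ (1 / 4 : ℝ)) := by
        have := mul_le_mul_of_nonneg_left h3 h5.le
        linarith
    _ = 4 := by rw [h4]; norm_num

theorem alv_le {m : ℝ} (hm : Real.exp 6 ≤ m) (α : ℝ) (r : ℕ) : alv m α r ≤ α + 8 / Real.log m := by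
  have h1 : alv m α r ≤ α + 4 * ∑ k ∈ range r, 1 / Real.log (lev m k) := by
    induction r with
    | zero => simp [alv]
    | succ r ih =>
      have h2 : 1 < lev m r := by
        have h3 := (lev_ge hm r).2.2
        have h4 : (1 : ℝ) < Real.exp 6 := Real.one_lt_exp_iff.2 (by norm_num)
        linarith
      have h5 := ClI_rpow h2
      rw [Finset.sum_range_succ]
      show alv m α r + (lev m r) ^ (-(1 / 4) : ℝ) ≤ _
      have h6 : 4 / Real.log (lev m r) = 4 * (1 / Real.log (lev m r)) := by ring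
      rw [h6] at h5
      linarith
  have h2 := sum_inv_log hm r
  have h3 : 8 / Real.log m = 4 * (2 / Real.log m) := by ring
  rw [h3]
  linarith

theorem exp_sqrt_le {x : ℝ} (hx : 1 < x) : Real.exp (-√x) ≤ 2 / Real.log x := by
  have h0 : 0 < x := by linarith
  have hl : 0 < Real.log x := Real.log_pos hx
  have hs : 0 < √x := Real.sqrt_pos.2 h0
  rw [le_div_iff₀ hl]
  have h1 : Real.log x = 2 * Real.log (√x) := by
    rw [Real.log_sqrt h0.le]
    ring
  have h2 : Real.log (√x) ≤ √x := by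
    have := Real.log_le_sub_one_of_pos hs
    linarith
  have h3 : √x ≤ Real.exp (√x) := by
    have := Real.add_one_le_exp (√x)
    linarith
  have h4 : Real.exp (-√x) * Real.exp (√x) = 1 := by
    rw [← Real.exp_add, neg_add_cancel, Real.exp_zero]
  have h5 : Real.exp (-√x) * Real.log x ≤ Real.exp (-√x) * (2 * Real.exp (√x)) :=
    mul_le_mul_of_nonneg_left (by rw [h1]; linarith) (Real.exp_pos _).le
  have h6 : Real.exp (-√x) * (2 * Real.exp (√x)) = 2 * (Real.exp (-√x) * Real.exp (√x)) := by ring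
  rw [h6, h4] at h5
  linarith

theorem exists_lev {m : ℝ} (hm : Real.exp 6 ≤ m) {L : ℝ} (hL : 0 ≤ L) :
    ∃ r : ℕ, L ≤ lev m r ∧ (r = 0 ∨ lev m r ≤ Real.exp (√L)) := by
  classical
  have hex : ∃ r : ℕ, L ≤ lev m r := by
    refine ⟨⌈L⌉₊, ?_⟩
    have h1 : L ≤ (⌈L⌉₊ : ℝ) := Nat.le_ceil L
    have h2 : ((⌈L⌉₊ : ℕ) : ℝ) ≤ (2 : ℝ) ^ ⌈L⌉₊ := by
      exact_mod_cast Nat.lt_two_pow_self.le
    have h3 := log_lev_ge hm ⌈L⌉₊
    have h4 := ClI_log hm
    have h5 : (2 : ℝ) ^ ⌈L⌉₊ * 1 ≤ 2 ^ ⌈L⌉₊ * Real.log m :=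
      mul_le_mul_of_nonneg_left (by linarith) (by positivity)
    have h6 : 0 < lev m ⌈L⌉₊ := lt_of_lt_of_le (Real.exp_pos _) (lev_ge hm _).2.2
    have h7 := Real.log_le_sub_one_of_pos h6
    linarith
  refine ⟨Nat.find hex, Nat.find_spec hex, ?_⟩
  rcases hr : Nat.find hex with _ | k
  · exact Or.inl rfl
  · right
    have h1 : ¬ L ≤ lev m k := Nat.find_min hex (by omega)
    show Real.exp (√(lev m k)) ≤ Real.exp (√L)
    exact Real.exp_le_exp.2 (Real.sqrt_le_sqrt (not_le.1 h1).le)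

end Pool.Agent.Lib.MP_d57abb_nt.MR
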