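import Mathlib
import Pool.Agent.Lib.MP_d57abb_nt.MR.ClD
import Pool.Agent.Lib.MP_d57abb_nt.MR.ClE
import Pool.Agent.Lib.MP_d57abb_nt.MR.ClG
import Pool.Agent.Lib.MP_d57abb_nt.MR.ClI

/-!
# JOB ClJ: the induction over the levels

Let `C₁, m₁` be from `st1`, `C₂` from `first_level`, `m₂` from `later_level`; `m₀ = max m₁ (max m₂ (exp 6))`, `C = 3 C₁ * C₂` or any larger constant.
Put `S r = {j ∈ Fr T : Good d (lev m r) (alv m α r) j}`.  Claim, by induction on `r`, for all `X` with `exp (16 (lev m r)²) ≤ X`, `alv m α r ≤ 1`: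
`∑_{j ∈ S r} ‖c j X‖² ≤ ∑_{k < r + 1} 3 C₁ / log (lev m k) + C₁ C₂ (m + 1)⁶ exp (-2 α (m - 1))`.
* `r = 0`: `st1` with `J = S 0` and `first_level`.
* `r + 1`: `S (r+1) ⊆ S r ∪ (S (r+1) \ S r)`.  For the first part use the induction hypothesis (`lev m r ≤ lev m (r+1)`, `alv m α r ≤ alv m α (r+1)`).  For the second part every `j` is good at level `r + 1` and not
  good at level `r`: `st1` with `m := lev m (r+1)` and `later_level` with `m := lev m r`, `α := alv m α r ≥ α ≥ 0`: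
  `≤ C₁ / log (lev m (r+1)) + C₁ exp (-√(lev m (r+1))) ≤ 3 C₁ / log (lev m (r+1))` by `exp_sqrt_le`.
Then `sum_inv_log` gives `∑ ≤ 6 C₁ / log m`.
-/

namespace Pool.Agent.Lib.MP_d57abb_nt.MR

open Finset

open Classical in
private theorem ClJ_base (d : Dat) {C₁ C₂ m₁ : ℝ} (hC₁ : 1 ≤ C₁)
    (h1 : ∀ m X T : ℝ, m₁ ≤ m → Real.exp (16 * m ^ 2) ≤ X → 0 ≤ T → T ≤ X →
      ∀ J ⊆ Fr T, ∑ j ∈ J, ‖d.c j X‖ ^ 2 ≤
        C₁ / Real.log m + C₁ / X ^ 2 * ∑ j ∈ J, ‖∑ b ∈ BI m, d.A m b j * d.B (X / xb m b) j‖ ^ 2)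
    (h2 : ∀ m X T α : ℝ, 2 ≤ m → Real.exp (16 * m ^ 2) ≤ X → 0 ≤ T →
      T ≤ X / Real.exp (m ^ 2) → 0 ≤ α → α ≤ 1 → ∀ J ⊆ Fr T, (∀ j ∈ J, Good d m α j) →
      ∑ j ∈ J, ‖∑ b ∈ BI m, d.A m b j * d.B (X / xb m b) j‖ ^ 2 ≤
        C₂ * X ^ 2 * (m + 1) ^ 6 * Real.exp (-(2 * α * (m - 1))))
    {m α X T : ℝ} (hm₁ : m₁ ≤ m) (hm2 : 2 ≤ m) (hα : 0 ≤ α) (hα1 : α ≤ 1)
    (hX : Real.exp (16 * m ^ 2) ≤ X) (hT : 0 ≤ T) (hTX : T ≤ X / Real.exp (m ^ 2)) :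
    ∑ j ∈ (Fr T).filter (fun j => Good d m α j), ‖d.c j X‖ ^ 2 ≤
      3 * C₁ / Real.log m + C₁ * C₂ * (m + 1) ^ 6 * Real.exp (-(2 * α * (m - 1))) := by
  have hX0 : 0 < X := lt_of_lt_of_le (Real.exp_pos _) hX
  have hTX' : T ≤ X := hTX.trans (div_le_self hX0.le (Real.one_le_exp (by positivity)))
  have hlog : 0 ≤ Real.log m := Real.log_nonneg (by linarith)
  have a1 := h1 m X T hm₁ hX hT hTX' ((Fr T).filter (fun j => Good d m α j))
    (Finset.filter_subset _ _)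
  have a2 := h2 m X T α hm2 hX hT hTX hα hα1 ((Fr T).filter (fun j => Good d m α j))
    (Finset.filter_subset _ _) (fun j hj => (Finset.mem_filter.1 hj).2)
  refine a1.trans ?_
  have a3 : C₁ / X ^ 2 * ∑ j ∈ (Fr T).filter (fun j => Good d m α j),
      ‖∑ b ∈ BI m, d.A m b j * d.B (X / xb m b) j‖ ^ 2 ≤
      C₁ / X ^ 2 * (C₂ * X ^ 2 * (m + 1) ^ 6 * Real.exp (-(2 * α * (m - 1)))) :=
    mul_le_mul_of_nonneg_left a2 (by positivity)
  have a4 : C₁ / X ^ 2 * (C₂ * X ^ 2 * (m + 1) ^ 6 * Real.exp (-(2 * α * (m - 1)))) =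
      C₁ * C₂ * (m + 1) ^ 6 * Real.exp (-(2 * α * (m - 1))) := by
    field_simp
  have a5 : C₁ / Real.log m ≤ 3 * C₁ / Real.log m :=
    div_le_div_of_nonneg_right (by linarith) hlog
  linarith

open Classical in
private theorem ClJ_step (d : Dat) {C₁ m₁ m₂ : ℝ} (hC₁ : 1 ≤ C₁)
    (h1 : ∀ m X T : ℝ, m₁ ≤ m → Real.exp (16 * m ^ 2) ≤ X → 0 ≤ T → T ≤ X →
      ∀ J ⊆ Fr T, ∑ j ∈ J, ‖d.c j X‖ ^ 2 ≤
        C₁ / Real.log m + C₁ / X ^ 2 * ∑ j ∈ J, ‖∑ b ∈ BI m, d.A m b j * d.B (X / xb m b) j‖ ^ 2)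
    (h3 : ∀ m X T α : ℝ, m₂ ≤ m → 1 ≤ X → 0 ≤ T → T ≤ X → 0 ≤ α →
      α + m ^ (-(1 / 4) : ℝ) ≤ 1 → ∀ J ⊆ Fr T,
      (∀ j ∈ J, Good d (Real.exp (√m)) (α + m ^ (-(1 / 4) : ℝ)) j ∧ ¬ Good d m α j) →
      ∑ j ∈ J, ‖∑ b ∈ BI (Real.exp (√m)), d.A (Real.exp (√m)) b j *
        d.B (X / xb (Real.exp (√m)) b) j‖ ^ 2 ≤ X ^ 2 * Real.exp (-√(Real.exp (√m))))
    {μ α X T : ℝ} (hμ2 : m₂ ≤ μ) (hμ1 : m₁ ≤ Real.exp (√μ)) (hμ0 : 0 < μ) (hα : 0 ≤ α)
    (hα1 : α + μ ^ (-(1 / 4) : ℝ) ≤ 1)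
    (hX : Real.exp (16 * (Real.exp (√μ)) ^ 2) ≤ X) (hT : 0 ≤ T) (hTX : T ≤ X) :
    ∑ j ∈ (Fr T).filter (fun j => Good d (Real.exp (√μ)) (α + μ ^ (-(1 / 4) : ℝ)) j ∧
      ¬ Good d μ α j), ‖d.c j X‖ ^ 2 ≤ 3 * C₁ / Real.log (Real.exp (√μ)) := by
  have hX0 : 0 < X := lt_of_lt_of_le (Real.exp_pos _) hX
  have hX1 : 1 ≤ X := le_trans (Real.one_le_exp (by positivity)) hX
  have a1 := h1 (Real.exp (√μ)) X T hμ1 hX hT hTX ((Fr T).filter (fun j =>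
    Good d (Real.exp (√μ)) (α + μ ^ (-(1 / 4) : ℝ)) j ∧ ¬ Good d μ α j)) (Finset.filter_subset _ _)
  have a2 := h3 μ X T α hμ2 hX1 hT hTX hα hα1 ((Fr T).filter (fun j =>
    Good d (Real.exp (√μ)) (α + μ ^ (-(1 / 4) : ℝ)) j ∧ ¬ Good d μ α j)) (Finset.filter_subset _ _)
    (fun j hj => (Finset.mem_filter.1 hj).2)
  have hx : 1 < Real.exp (√μ) := Real.one_lt_exp_iff.2 (Real.sqrt_pos.2 hμ0)
  have a3 := exp_sqrt_le hx
  generalize Real.exp (√μ) = x at *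
  refine a1.trans ?_
  have a4 : C₁ / X ^ 2 * ∑ j ∈ (Fr T).filter (fun j =>
      Good d x (α + μ ^ (-(1 / 4) : ℝ)) j ∧ ¬ Good d μ α j),
      ‖∑ b ∈ BI x, d.A x b j * d.B (X / xb x b) j‖ ^ 2 ≤
      C₁ / X ^ 2 * (X ^ 2 * Real.exp (-√x)) := mul_le_mul_of_nonneg_left a2 (by positivity)
  have a5 : C₁ / X ^ 2 * (X ^ 2 * Real.exp (-√x)) = C₁ * Real.exp (-√x) := by
    field_simp
  have a6 : C₁ * Real.exp (-√x) ≤ C₁ * (2 / Real.log x) :=
    mul_le_mul_of_nonneg_left a3 (by linarith)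
  have a7 : C₁ / Real.log x + C₁ * (2 / Real.log x) = 3 * C₁ / Real.log x := by
    ring
  linarith

private theorem ClJ_alv_nonneg {m : ℝ} (hm : Real.exp 6 ≤ m) (r : ℕ) :
    0 ≤ (lev m r) ^ (-(1 / 4) : ℝ) := by
  have h1 := (lev_ge hm r).2.2
  exact Real.rpow_nonneg ((Real.exp_pos 6).le.trans h1) _

open Classical in
theorem levels (d : Dat) : ∃ C m₀ : ℝ, 1 ≤ C ∧ Real.exp 6 ≤ m₀ ∧ ∀ m α : ℝ, m₀ ≤ m → 0 ≤ α → ∀ r : ℕ, alv m α r ≤ 1 →
    ∀ X T : ℝ, Real.exp (16 * (lev m r) ^ 2) ≤ X → 0 ≤ T → T ≤ X / Real.exp (m ^ 2) →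
    ∑ j ∈ (Fr T).filter (fun j => Good d (lev m r) (alv m α r) j), ‖d.c j X‖ ^ 2 ≤
      C / Real.log m + C * (m + 1) ^ 6 * Real.exp (-(2 * α * (m - 1))) := by
  obtain ⟨C₁, m₁, hC₁, -, h1⟩ := st1 d
  obtain ⟨C₂, hC₂, h2⟩ := first_level d
  obtain ⟨m₂, -, h3⟩ := later_level d
  refine ⟨6 * C₁ * C₂, max (Real.exp 6) (max m₁ m₂), ?_, le_max_left _ _, ?_⟩
  · nlinarith
  intro m α hm hα
  have hm6 : Real.exp 6 ≤ m := (le_max_left _ _).trans hm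
  have hm₁ : m₁ ≤ m := ((le_max_left _ _).trans (le_max_right _ _)).trans hm
  have hm₂ : m₂ ≤ m := ((le_max_right _ _).trans (le_max_right _ _)).trans hm
  have hm2 : 2 ≤ m := by
    have := Real.add_one_le_exp (6 : ℝ)
    linarith
  have key : ∀ r : ℕ, alv m α r ≤ 1 →
      ∀ X T : ℝ, Real.exp (16 * (lev m r) ^ 2) ≤ X → 0 ≤ T → T ≤ X / Real.exp (m ^ 2) →
      ∑ j ∈ (Fr T).filter (fun j => Good d (lev m r) (alv m α r) j), ‖d.c j X‖ ^ 2 ≤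
        ∑ k ∈ range (r + 1), 3 * C₁ / Real.log (lev m k) +
          C₁ * C₂ * (m + 1) ^ 6 * Real.exp (-(2 * α * (m - 1))) := by
    intro r
    induction r with
    | zero =>
      intro h X T hX hT hTX
      have a1 := ClJ_base d hC₁ h1 h2 (m := m) (α := α) (X := X) (T := T) hm₁ hm2 hα h hX hT hTX
      rw [Finset.sum_range_one]
      exact a1
    | succ r ih =>
      intro h X T hX hT hTX
      have hl := lev_ge hm6 r
      have hl0 : 0 < lev m r := lt_of_lt_of_le (Real.exp_pos 6) hl.2.2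
      have hX0 : 0 < X := lt_of_lt_of_le (Real.exp_pos _) hX
      have hTX' : T ≤ X := hTX.trans (div_le_self hX0.le (Real.one_le_exp (by positivity)))
      have hXr : Real.exp (16 * (lev m r) ^ 2) ≤ X := by
        refine le_trans (Real.exp_le_exp.2 ?_) hX
        have := pow_le_pow_left₀ hl0.le hl.2.1 2
        linarith
      have hnn := ClJ_alv_nonneg hm6 r
      have hstep : alv m α (r + 1) = alv m α r + (lev m r) ^ (-(1 / 4) : ℝ) := rfl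
      have halr : alv m α r ≤ 1 := by linarith
      have hal0 : 0 ≤ alv m α r := hα.trans (alv_ge hm6 α r)
      have a1 := ih halr X T hXr hT hTX
      have a2 := ClJ_step d hC₁ h1 h3 (μ := lev m r) (α := alv m α r) (X := X) (T := T)
        (hm₂.trans hl.1) (hm₁.trans (hl.1.trans hl.2.1)) hl0 hal0 h hX hT hTX'
      have hsub : (Fr T).filter (fun j => Good d (lev m (r + 1)) (alv m α (r + 1)) j) ⊆
          (Fr T).filter (fun j => Good d (lev m r) (alv m α r) j) ∪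
          (Fr T).filter (fun j => Good d (Real.exp (√(lev m r)))
            (alv m α r + (lev m r) ^ (-(1 / 4) : ℝ)) j ∧ ¬ Good d (lev m r) (alv m α r) j) := by
        intro j hj
        rw [Finset.mem_filter] at hj
        rw [Finset.mem_union, Finset.mem_filter, Finset.mem_filter]
        by_cases hg : Good d (lev m r) (alv m α r) j
        · exact Or.inl ⟨hj.1, hg⟩
        · exact Or.inr ⟨hj.1, hj.2, hg⟩
      have a3 : ∑ j ∈ (Fr T).filter (fun j => Good d (lev m (r + 1)) (alv m α (r + 1)) j),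
          ‖d.c j X‖ ^ 2 ≤ ∑ j ∈ (Fr T).filter (fun j => Good d (lev m r) (alv m α r) j),
            ‖d.c j X‖ ^ 2 + ∑ j ∈ (Fr T).filter (fun j => Good d (Real.exp (√(lev m r)))
            (alv m α r + (lev m r) ^ (-(1 / 4) : ℝ)) j ∧ ¬ Good d (lev m r) (alv m α r) j),
            ‖d.c j X‖ ^ 2 := by
        refine (Finset.sum_le_sum_of_subset_of_nonneg hsub fun _ _ _ => by positivity).trans ?_
        rw [← Finset.sum_union_inter]
        have : 0 ≤ ∑ j ∈ (Fr T).filter (fun j => Good d (lev m r) (alv m α r) j) ∩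
          (Fr T).filter (fun j => Good d (Real.exp (√(lev m r)))
            (alv m α r + (lev m r) ^ (-(1 / 4) : ℝ)) j ∧ ¬ Good d (lev m r) (alv m α r) j),
            ‖d.c j X‖ ^ 2 := Finset.sum_nonneg fun _ _ => by positivity
        linarith
      have a4 : Real.exp (√(lev m r)) = lev m (r + 1) := rfl
      rw [Finset.sum_range_succ]
      have a5 : 3 * C₁ / Real.log (Real.exp (√(lev m r))) = 3 * C₁ / Real.log (lev m (r + 1)) := by
        rw [a4]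
      rw [a5] at a2
      linarith
  intro r hr X T hX hT hTX
  refine (key r hr X T hX hT hTX).trans ?_
  have hlog : 0 < Real.log m := Real.log_pos (by linarith)
  have b1 : ∑ k ∈ range (r + 1), 3 * C₁ / Real.log (lev m k) ≤ 6 * C₁ / Real.log m := by
    have b2 := sum_inv_log hm6 (r + 1)
    have b3 : ∑ k ∈ range (r + 1), 3 * C₁ / Real.log (lev m k) =
        3 * C₁ * ∑ k ∈ range (r + 1), 1 / Real.log (lev m k) := by
      rw [Finset.mul_sum]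
      refine Finset.sum_congr rfl fun k _ => ?_
      rw [mul_one_div]
    rw [b3]
    refine (mul_le_mul_of_nonneg_left b2 (by linarith)).trans (le_of_eq ?_)
    ring
  have b4 : 6 * C₁ / Real.log m ≤ 6 * C₁ * C₂ / Real.log m := by
    refine div_le_div_of_nonneg_right ?_ hlog.le
    nlinarith
  have b5 : C₁ * C₂ * (m + 1) ^ 6 * Real.exp (-(2 * α * (m - 1))) ≤
      6 * C₁ * C₂ * (m + 1) ^ 6 * Real.exp (-(2 * α * (m - 1))) := by
    have b6 : 0 ≤ C₁ * C₂ * ((m + 1) ^ 6 * Real.exp (-(2 * α * (m - 1)))) := by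
      have : 0 ≤ C₁ := by linarith
      have : 0 ≤ C₂ := by linarith
      positivity
    linarith
  linarith

end Pool.Agent.Lib.MP_d57abb_nt.MR
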