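import Mathlib
import Pool.Agent.Lib.MP_d57abb_nt.MR.ClJ
import Pool.Agent.Lib.MP_d57abb_nt.MR.ClH

/-!
# JOB ClK: the climbing theorem

PROOF.  Let `C, m₀` be from `levels`, `α = s / 32`.  Choose `A₀ ≥ 1` such that for `A ≥ A₀` and `m = √(log A)`: `m₀ ≤ m`, `8 / log m ≤ s / 32`, `C / log m ≤ ε / 2`,
`C (m + 1)⁶ exp (-2 α (m - 1)) ≤ ε / 2` (all are eventually true as `m → ∞`; `Filter.Tendsto` of `√(log A)` to infinity, `Real.tendsto_pow_mul_exp_neg_atTop_nhds_zero`).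
Given `A ≥ A₀` take `X₀` such that for `X ≥ X₀`: `X ≥ X₁` (the bound of `exc`), `A ≤ X`, `m² ≤ s / 16 log X`, and with `L = (8 / s)(log log X + 7)`: `exp (2 √L) ≤ s / 16 log X`
(`L = O(log log X)`, so `exp (2 √L) = (log X)^(o(1))`: e.g. `2 √L ≤ (1/2) log log X` for `X` large, and `√(log X) ≤ s / 16 log X` for `X` large).
Given `X`, `exists_lev` gives `r` with `L ≤ lev m r` and (`r = 0` or `lev m r ≤ exp √L`); in both cases `(lev m r)² ≤ s / 16 log X ≤ (1/16) log X`, so `exp (16 (lev m r)²) ≤ X`.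
`α' = alv m α r ≤ s / 32 + 8 / log m ≤ s / 16 ≤ s / 8 ≤ 1`.  `U = {j ∈ Fr X : ¬ Good (lev m r) α' j}`: `#U ≤ X^s` by `exc`, `|j| ≤ X` (`mem_Fr`).
The frequencies in `Fr (X / A) \ U` are good (`Fr (X/A) ⊆ Fr X`, `mem_Fr`), `exp (m²) = A`, so `levels` with `T = X / A` gives `≤ ε`.
-/

namespace Pool.Agent.Lib.MP_d57abb_nt.MR

open Finset

open Filter in
/-- the conditions on `m` -/
private theorem ClK_m {C m₀ s ε : ℝ} (hC : 1 ≤ C) (hs : 0 < s) (hε : 0 < ε) :
    ∀ᶠ m : ℝ in atTop, m₀ ≤ m ∧ 8 / Real.log m ≤ s / 32 ∧ C / Real.log m ≤ ε / 2 ∧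
      C * (m + 1) ^ 6 * Real.exp (-(2 * (s / 32) * (m - 1))) ≤ ε / 2 := by
  have h2 : ∀ᶠ m : ℝ in atTop, 8 / Real.log m ≤ s / 32 :=
    (Real.tendsto_log_atTop.const_div_atTop 8).eventually_le_const (by positivity)
  have h3 : ∀ᶠ m : ℝ in atTop, C / Real.log m ≤ ε / 2 :=
    (Real.tendsto_log_atTop.const_div_atTop C).eventually_le_const (by positivity)
  have hu : Tendsto (fun m : ℝ => 2 * (s / 32) * (m + 1)) atTop atTop :=
    (tendsto_atTop_add_const_right atTop (1 : ℝ) tendsto_id).const_mul_atTop (by positivity)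
  have h5 := ((Real.tendsto_pow_mul_exp_neg_atTop_nhds_zero 6).comp hu).const_mul
    (C * Real.exp (4 * (s / 32)) / (2 * (s / 32)) ^ 6)
  rw [mul_zero] at h5
  have h6 := h5.eventually_le_const (show (0 : ℝ) < ε / 2 by positivity)
  filter_upwards [eventually_ge_atTop m₀, h2, h3, h6] with m a1 a2 a3 a4
  refine ⟨a1, a2, a3, le_trans (le_of_eq ?_) a4⟩
  simp only [Function.comp_apply]
  have e1 : Real.exp (-(2 * (s / 32) * (m - 1))) =
      Real.exp (4 * (s / 32)) * Real.exp (-(2 * (s / 32) * (m + 1))) := by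
    rw [← Real.exp_add]
    congr 1
    ring
  rw [e1, mul_pow (2 * (s / 32)) (m + 1) 6]
  field_simp

open Filter in
/-- the conditions on `w = log log X` -/
private theorem ClK_w {s : ℝ} (hs : 0 < s) :
    ∀ᶠ w : ℝ in atTop, 0 ≤ 8 / s * (w + 7) ∧
      Real.exp (2 * √(8 / s * (w + 7))) ≤ s / 16 * Real.exp w := by
  have hh : Tendsto (fun w : ℝ => w / 2) atTop atTop := tendsto_id.atTop_div_const (by norm_num)
  have h1 : ∀ᶠ w : ℝ in atTop, 16 / s ≤ Real.exp (w / 2) :=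
    (Real.tendsto_exp_atTop.comp hh).eventually_ge_atTop (16 / s)
  filter_upwards [h1, eventually_ge_atTop (7 : ℝ), eventually_ge_atTop (256 / s)] with w a1 a2 a3
  have hw : 0 < w := by linarith
  have h0 : 0 ≤ 8 / s * (w + 7) := by positivity
  refine ⟨h0, ?_⟩
  have h2 : √(8 / s * (w + 7)) ≤ w / 4 := by
    rw [Real.sqrt_le_left (by positivity)]
    have h3 : 8 / s * (w + 7) ≤ 8 / s * (2 * w) :=
      mul_le_mul_of_nonneg_left (by linarith) (by positivity)
    have h4 : 8 / s * (2 * w) = 256 / s * w / 16 := by ring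
    have h5 : 256 / s * w ≤ w * w := mul_le_mul_of_nonneg_right a3 hw.le
    have h6 : (w / 4) ^ 2 = w * w / 16 := by ring
    rw [h6]
    linarith
  have h3 : Real.exp (2 * √(8 / s * (w + 7))) ≤ Real.exp (w / 2) :=
    Real.exp_le_exp.2 (by linarith)
  refine h3.trans ?_
  have h4 : Real.exp w = Real.exp (w / 2) * Real.exp (w / 2) := by
    rw [← Real.exp_add]
    congr 1
    ring
  rw [h4]
  have h5 : 1 ≤ s / 16 * Real.exp (w / 2) := by
    rw [div_le_iff₀ hs] at a1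
    linarith
  have h6 := mul_le_mul_of_nonneg_right h5 (Real.exp_pos (w / 2)).le
  linarith

theorem climb (d : Dat) {s ε : ℝ} (hs : 0 < s) (hs1 : s ≤ 1) (hε : 0 < ε) : ∃ A₀ : ℝ, 1 ≤ A₀ ∧ ∀ A : ℝ, A₀ ≤ A →
    ∃ X₀ : ℝ, 1 ≤ X₀ ∧ ∀ X : ℝ, X₀ ≤ X → ∃ U : Finset ℤ, (∀ j ∈ U, |(j : ℝ)| ≤ X) ∧ (U.card : ℝ) ≤ X ^ s ∧
      ∑ j ∈ Fr (X / A) \ U, ‖d.c j X‖ ^ 2 ≤ ε := by
  classical
  obtain ⟨C, m₀, hC, hm₀, hlev⟩ := levels d
  obtain ⟨X₁, hX₁, hexc⟩ := exc d hs hs1
  have ht : Filter.Tendsto (fun A : ℝ => √(Real.log A)) Filter.atTop Filter.atTop :=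
    Real.tendsto_sqrt_atTop.comp Real.tendsto_log_atTop
  obtain ⟨A₁, hA₁⟩ := Filter.eventually_atTop.1 (ht.eventually (ClK_m (m₀ := m₀) hC hs hε))
  refine ⟨max A₁ 1, le_max_right _ _, fun A hA => ?_⟩
  have hA1 : 1 ≤ A := (le_max_right _ _).trans hA
  have hA0 : 0 < A := by linarith
  obtain ⟨c1, c2, c3, c4⟩ := hA₁ A ((le_max_left _ _).trans hA)
  have hlA : 0 ≤ Real.log A := Real.log_nonneg hA1
  obtain ⟨m, hm⟩ : ∃ m, m = √(Real.log A) := ⟨_, rfl⟩
  rw [← hm] at c1 c2 c3 c4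
  have hmA : Real.exp (m ^ 2) = A := by
    rw [hm, Real.sq_sqrt hlA, Real.exp_log hA0]
  have hm6 : Real.exp 6 ≤ m := hm₀.trans c1
  have hll : Filter.Tendsto (fun X : ℝ => Real.log (Real.log X)) Filter.atTop Filter.atTop :=
    Real.tendsto_log_atTop.comp Real.tendsto_log_atTop
  have hev : ∀ᶠ X : ℝ in Filter.atTop, m ^ 2 ≤ s / 16 * Real.log X := by
    have h1 : Filter.Tendsto (fun X : ℝ => s / 16 * Real.log X) Filter.atTop Filter.atTop :=
      Real.tendsto_log_atTop.const_mul_atTop (by positivity)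
    exact h1.eventually_ge_atTop _
  obtain ⟨X₂, hX₂⟩ := Filter.eventually_atTop.1 (hev.and (hll.eventually (ClK_w hs)))
  refine ⟨max (max X₁ A) (max X₂ 1), (le_max_right _ _).trans (le_max_right _ _), fun X hX => ?_⟩
  have hXX₁ : X₁ ≤ X := (le_max_left _ _).trans ((le_max_left _ _).trans hX)
  have hXX₂ : X₂ ≤ X := (le_max_left _ _).trans ((le_max_right _ _).trans hX)
  have hX3 : 3 ≤ X := hX₁.trans hXX₁
  have hX0 : 0 < X := by linarith
  obtain ⟨d1, d2, d3⟩ := hX₂ X hXX₂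
  have hlX : 0 < Real.log X := Real.log_pos (by linarith)
  rw [Real.exp_log hlX] at d3
  obtain ⟨r, hr1, hr2⟩ := exists_lev hm6 d2
  have hlev0 : 0 < lev m r := lt_of_lt_of_le (Real.exp_pos _) (lev_ge hm6 r).2.2
  have hsq : (lev m r) ^ 2 ≤ s / 16 * Real.log X := by
    rcases hr2 with h | h
    · subst h
      exact d1
    · have h1 : (lev m r) ^ 2 ≤ Real.exp (√(8 / s * (Real.log (Real.log X) + 7))) ^ 2 :=
        pow_le_pow_left₀ hlev0.le h 2
      have h2 : Real.exp (√(8 / s * (Real.log (Real.log X) + 7))) ^ 2 =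
          Real.exp (2 * √(8 / s * (Real.log (Real.log X) + 7))) := by
        rw [← Real.exp_nat_mul]
        norm_num
      rw [h2] at h1
      exact h1.trans d3
  have halv : alv m (s / 32) r ≤ s / 16 := by
    have h1 := alv_le hm6 (s / 32) r
    linarith
  refine ⟨(Fr X).filter (fun j => ¬ Good d (lev m r) (alv m (s / 32) r) j), ?_, ?_, ?_⟩
  · intro j hj
    rw [Finset.mem_filter] at hj
    exact (mem_Fr hX0.le).1 hj.1
  · exact hexc X hXX₁ (lev m r) (alv m (s / 32) r) hr1 hsq (by linarith)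
  · have h1 := hlev m (s / 32) c1 (by positivity) r (by linarith) X (X / A) (by
        have h2 : 16 * (lev m r) ^ 2 ≤ Real.log X := by
          have h3 : s * Real.log X ≤ 1 * Real.log X := mul_le_mul_of_nonneg_right hs1 hlX.le
          linarith
        calc Real.exp (16 * (lev m r) ^ 2) ≤ Real.exp (Real.log X) := Real.exp_le_exp.2 h2
          _ = X := Real.exp_log hX0) (by positivity) (by rw [hmA])
    have h2 : Fr (X / A) \ (Fr X).filter (fun j => ¬ Good d (lev m r) (alv m (s / 32) r) j) ⊆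
        (Fr (X / A)).filter (fun j => Good d (lev m r) (alv m (s / 32) r) j) := by
      intro j hj
      rw [Finset.mem_sdiff, Finset.mem_filter] at hj
      rw [Finset.mem_filter]
      refine ⟨hj.1, ?_⟩
      by_contra hg
      apply hj.2
      refine ⟨?_, hg⟩
      have h3 := (mem_Fr (by positivity)).1 hj.1
      rw [mem_Fr hX0.le]
      refine h3.trans ?_
      rw [div_le_iff₀ hA0]
      have h4 : X * 1 ≤ X * A := mul_le_mul_of_nonneg_left hA1 hX0.le
      linarith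
    have h3 := Finset.sum_le_sum_of_subset_of_nonneg (f := fun j => ‖d.c j X‖ ^ 2) h2
      (fun j _ _ => by positivity)
    refine h3.trans (h1.trans ?_)
    linarith

end Pool.Agent.Lib.MP_d57abb_nt.MR
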