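import Mathlib
import Pool.Agent.Lib.MP_d57abb_nt.MR.ClK
import Pool.Agent.Lib.MP_d57abb_nt.MR.AlB
import Pool.Agent.Lib.MP_d57abb_nt.MR.BkM

/-!
# En: the energy estimate (assembly)
-/

namespace Pool.Agent.Lib.MP_d57abb_nt.MR

open Finset

/-- The energy of the Fourier coefficients up to `X / A` is small. -/
theorem energy (d : Dat) (h : NP d) {ε : ℝ} (hε : 0 < ε) : ∃ A₀ : ℝ, 1 ≤ A₀ ∧ ∀ A : ℝ, A₀ ≤ A → ∃ X₀ : ℝ, 1 ≤ X₀ ∧
    ∀ X : ℝ, X₀ ≤ X → ∑ j ∈ Fr (X / A), ‖d.c j X‖ ^ 2 ≤ ε := by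
  obtain ⟨s, C, X₁, hE⟩ := est d
  have hs1 : s ≤ 1 := hE.s1.trans (by norm_num)
  obtain ⟨A₀, hA₀, hcl⟩ := climb d hE.s0 hs1 (half_pos hε)
  obtain ⟨X₂, hX₂, hla⟩ := large_all d h hE (block_mass d.D5) (half_pos hε)
  refine ⟨A₀, hA₀, fun A hA => ?_⟩
  obtain ⟨X₃, hX₃, hc⟩ := hcl A hA
  refine ⟨max X₂ X₃, le_max_of_le_right hX₃, fun X hX => ?_⟩
  obtain ⟨U, hU1, hU2, hU3⟩ := hc X ((le_max_right _ _).trans hX)
  have h2 := hla X ((le_max_left _ _).trans hX) U hU1 hU2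
  calc ∑ j ∈ Fr (X / A), ‖d.c j X‖ ^ 2 ≤ ∑ j ∈ (Fr (X / A) \ U) ∪ U, ‖d.c j X‖ ^ 2 := by
        apply sum_le_sum_of_subset_of_nonneg
        · intro j hj
          rw [mem_union, mem_sdiff]
          by_cases hu : j ∈ U
          · exact Or.inr hu
          · exact Or.inl ⟨hj, hu⟩
        · intro i _ _
          positivity
    _ = ∑ j ∈ Fr (X / A) \ U, ‖d.c j X‖ ^ 2 + ∑ j ∈ U, ‖d.c j X‖ ^ 2 := by
        rw [sum_union]
        rw [Finset.disjoint_left]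
        intro j hj
        exact (mem_sdiff.1 hj).2
    _ ≤ ε / 2 + ε / 2 := add_le_add hU3 h2
    _ = ε := by ring

end Pool.Agent.Lib.MP_d57abb_nt.MR
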