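import Mathlib
import Pool.Agent.Lib.MP_d57abb_nt.MR.RmE
import Pool.Agent.Lib.MP_d57abb_nt.MR.Ls
import Pool.Agent.Lib.MP_d57abb_nt.MR.NPd

/-!
# Windows on the circle (for the sector theorem)

The window `θ ≤ u < θ + δ`, `u = An v`, on `[0, per]`, completed by the part which wraps around; its integral against a
quasiperiodic function.
-/

namespace Pool.Agent.Lib.MP_d57abb_nt.MR

open Finset MeasureTheory
open Pool.Agent.Lib.MP_2a816b_nt (e)

/-- the indicator function of the window -/
noncomputable def win (δ u θ : ℝ) : ℂ := if θ ≤ u ∧ u < θ + δ then 1 else 0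

theorem win_norm_le (δ u θ : ℝ) : ‖win δ u θ‖ ≤ 1 := by
  unfold win
  split_ifs <;> simp

theorem win_measurable (δ u : ℝ) : Measurable (win δ u) := by
  unfold win
  refine Measurable.ite ?_ measurable_const measurable_const
  have h1 : MeasurableSet {θ : ℝ | θ ≤ u} := measurableSet_Iic
  have h2 : MeasurableSet {θ : ℝ | u < θ + δ} := measurableSet_lt measurable_const (measurable_id.add_const δ)
  exact h1.inter h2

private theorem ScA_piece {g h : ℝ → ℂ} {a b : ℝ} (hab : a ≤ b) (hh : Continuous h)
    (hgh : ∀ x, a < x → x ≤ b → g x = h x) :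
    IntervalIntegrable g volume a b ∧ ∫ x in a..b, g x = ∫ x in a..b, h x := by
  have h1 : ∀ x ∈ Set.uIoc a b, g x = h x := fun x hx => by
    rw [Set.uIoc_of_le hab] at hx
    exact hgh x hx.1 hx.2
  constructor
  · exact (intervalIntegrable_congr (fun x hx => h1 x hx)).2 (hh.intervalIntegrable a b)
  · exact intervalIntegral.integral_congr_ae (Filter.Eventually.of_forall h1)

/-- the integral of a quasiperiodic function over a window of the circle -/
theorem window {P δ u : ℝ} (hu0 : 0 ≤ u) (huP : u < P) (hδ0 : 0 < δ) (hδ : δ < P) {f : ℝ → ℂ} (hf : Continuous f)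
    {c : ℂ} (hc : ∀ x, c * f (x + P) = f x) :
    ∫ x in (0 : ℝ)..P, f x * (win δ u x + c * win δ (u + P) x) = ∫ x in (u - δ)..u, f x := by
  have hI : ∀ a b : ℝ, IntervalIntegrable f volume a b := fun a b => hf.intervalIntegrable a b
  rcases le_or_gt δ u with h | h
  · -- no wrap
    have p1 := ScA_piece (g := fun x => f x * (win δ u x + c * win δ (u + P) x)) (h := fun _ => 0) (a := 0)
      (b := u - δ) (by linarith) continuous_const (fun x hx hx' => by
        have h1 : ¬ (x ≤ u ∧ u < x + δ) := fun h2 => by linarith [h2.2]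
        have h2 : ¬ (x ≤ u + P ∧ u + P < x + δ) := fun h2 => by linarith [h2.2]
        simp only [win, if_neg h1, if_neg h2]
        ring)
    have p2 := ScA_piece (g := fun x => f x * (win δ u x + c * win δ (u + P) x)) (h := f) (a := u - δ)
      (b := u) (by linarith) hf (fun x hx hx' => by
        have h1 : x ≤ u ∧ u < x + δ := ⟨hx', by linarith⟩
        have h2 : ¬ (x ≤ u + P ∧ u + P < x + δ) := fun h2 => by linarith [h2.2]
        simp only [win, if_pos h1, if_neg h2]
        ring)
    have p3 := ScA_piece (g := fun x => f x * (win δ u x + c * win δ (u + P) x)) (h := fun _ => 0) (a := u)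
      (b := P) huP.le continuous_const (fun x hx hx' => by
        have h1 : ¬ (x ≤ u ∧ u < x + δ) := fun h2 => by linarith [h2.1]
        have h2 : ¬ (x ≤ u + P ∧ u + P < x + δ) := fun h2 => by linarith [h2.2]
        simp only [win, if_neg h1, if_neg h2]
        ring)
    rw [← intervalIntegral.integral_add_adjacent_intervals (p1.1.trans p2.1) p3.1,
      ← intervalIntegral.integral_add_adjacent_intervals p1.1 p2.1, p1.2, p2.2, p3.2]
    simp
  · have p1 := ScA_piece (g := fun x => f x * (win δ u x + c * win δ (u + P) x)) (h := f) (a := 0)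
      (b := u) hu0 hf (fun x hx hx' => by
        have h1 : x ≤ u ∧ u < x + δ := ⟨hx', by linarith⟩
        have h2 : ¬ (x ≤ u + P ∧ u + P < x + δ) := fun h2 => by linarith [h2.2]
        simp only [win, if_pos h1, if_neg h2]
        ring)
    have p2 := ScA_piece (g := fun x => f x * (win δ u x + c * win δ (u + P) x)) (h := fun _ => 0) (a := u)
      (b := u + P - δ) (by linarith) continuous_const (fun x hx hx' => by
        have h1 : ¬ (x ≤ u ∧ u < x + δ) := fun h2 => by linarith [h2.1]
        have h2 : ¬ (x ≤ u + P ∧ u + P < x + δ) := fun h2 => by linarith [h2.2]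
        simp only [win, if_neg h1, if_neg h2]
        ring)
    have p3 := ScA_piece (g := fun x => f x * (win δ u x + c * win δ (u + P) x)) (h := fun x => c * f x)
      (a := u + P - δ) (b := P) (by linarith) (continuous_const.mul hf) (fun x hx hx' => by
        have h1 : ¬ (x ≤ u ∧ u < x + δ) := fun h2 => by linarith [h2.1]
        have h2 : x ≤ u + P ∧ u + P < x + δ := ⟨by linarith, by linarith⟩
        simp only [win, if_neg h1, if_pos h2]
        ring)
    rw [← intervalIntegral.integral_add_adjacent_intervals (p1.1.trans p2.1) p3.1,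
      ← intervalIntegral.integral_add_adjacent_intervals p1.1 p2.1, p1.2, p2.2, p3.2]
    have h3 : ∫ x in (u - δ)..0, f x = ∫ x in (u + P - δ)..P, c * f x := by
      have h4 : ∫ x in (u - δ)..0, f x = ∫ x in (u - δ)..0, (fun y => c * f y) (x + P) :=
        intervalIntegral.integral_congr (fun x _ => (hc x).symm)
      rw [h4, intervalIntegral.integral_comp_add_right (fun y => c * f y) P]
      congr 1 <;> ring
    rw [← h3, ← intervalIntegral.integral_add_adjacent_intervals (hI (u - δ) 0) (hI 0 u)]
    simp
    ring

end Pool.Agent.Lib.MP_d57abb_nt.MR
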