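import Mathlib
import Pool.Agent.Lib.MP_d57abb_nt.MR.ScA

/-!
# Parseval's identity for the sector sums

`Sec g X δ θ` is the sum of `g` over the primitive vectors `v` of norm at most `X` with `θ ≤ An v < θ + δ`; `Gw` is the same
sum on the circle `ℝ / per`, twisted by `e (-t)` when the window wraps around.  The Fourier coefficients of
`e (t θ / per) Gw` are `(X / per) c_{-n} kap (t - n)`.
-/

namespace Pool.Agent.Lib.MP_d57abb_nt.MR

open Finset MeasureTheory
open Pool.Agent.Lib.MP_2a816b_nt (e norm_e e_add e_int)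

open Classical in
/-- the sum over a sector -/
noncomputable def Sec (g : O → ℂ) (X δ θ : ℝ) : ℂ :=
  ∑ v ∈ (V' X).filter (fun v => θ ≤ An v ∧ An v < θ + δ), g v

theorem Sec_eq (g : O → ℂ) (X δ θ : ℝ) : Sec g X δ θ = ∑ v ∈ V' X, g v * win δ (An v) θ := by
  classical
  unfold Sec win
  rw [Finset.sum_filter]
  refine Finset.sum_congr rfl fun v _ => ?_
  split_ifs
  · rw [mul_one]
  · rw [mul_zero]

/-- the sector sum on the circle -/
noncomputable def Gw (t : ℝ) (g : O → ℂ) (X δ θ : ℝ) : ℂ :=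
  ∑ v ∈ V' X, g v * (win δ (An v) θ + e (-t) * win δ (An v + per) θ)

theorem Sec_measurable (g : O → ℂ) (X δ : ℝ) : Measurable (Sec g X δ) := by
  have h : Sec g X δ = fun θ => ∑ v ∈ V' X, g v * win δ (An v) θ := funext (Sec_eq g X δ)
  rw [h]
  exact Finset.measurable_sum _ fun v _ => (win_measurable δ (An v)).const_mul (g v)

theorem Sec_norm_le (g : O → ℂ) (X δ θ : ℝ) : ‖Sec g X δ θ‖ ≤ ∑ v ∈ V' X, ‖g v‖ := by
  rw [Sec_eq]
  refine (norm_sum_le _ _).trans (Finset.sum_le_sum fun v _ => ?_)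
  rw [norm_mul]
  exact mul_le_of_le_one_right (norm_nonneg _) (win_norm_le _ _ _)

theorem Gw_measurable (t : ℝ) (g : O → ℂ) (X δ : ℝ) : Measurable (Gw t g X δ) := by
  unfold Gw
  exact Finset.measurable_sum _ fun v _ =>
    (((win_measurable δ (An v)).add ((win_measurable δ (An v + per)).const_mul _)).const_mul (g v))

theorem Gw_norm_le (t : ℝ) (g : O → ℂ) (X δ θ : ℝ) : ‖Gw t g X δ θ‖ ≤ ∑ v ∈ V' X, 2 * ‖g v‖ := by
  unfold Gw
  refine (norm_sum_le _ _).trans (Finset.sum_le_sum fun v _ => ?_)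
  rw [norm_mul, mul_comm]
  refine mul_le_mul_of_nonneg_right ?_ (norm_nonneg _)
  refine (norm_add_le _ _).trans ?_
  rw [norm_mul, norm_e, one_mul]
  linarith [win_norm_le δ (An v) θ, win_norm_le δ (An v + per) θ]

private theorem ScB_integrable {f : ℝ → ℂ} (hf : Measurable f) {C : ℝ} (hC : ∀ x, ‖f x‖ ≤ C) (a b : ℝ) :
    IntervalIntegrable f volume a b := by
  refine IntervalIntegrable.mono_fun' (g := fun _ => C) intervalIntegrable_const hf.aestronglyMeasurable ?_
  exact Filter.Eventually.of_forall hC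

private theorem ScB_integrable_sq {f : ℝ → ℂ} (hf : Measurable f) {C : ℝ} (hC : ∀ x, ‖f x‖ ≤ C) (a b : ℝ) :
    IntervalIntegrable (fun x => ‖f x‖ ^ 2) volume a b := by
  refine IntervalIntegrable.mono_fun' (g := fun _ => C ^ 2) intervalIntegrable_const
    (hf.norm.pow_const 2).aestronglyMeasurable ?_
  refine Filter.Eventually.of_forall fun x => ?_
  change ‖‖f x‖ ^ 2‖ ≤ C ^ 2
  rw [norm_pow, norm_norm]
  exact pow_le_pow_left₀ (norm_nonneg _) (hC x) 2

theorem Sec_sq_integrable (g : O → ℂ) (X δ a b : ℝ) :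
    IntervalIntegrable (fun θ => ‖Sec g X δ θ‖ ^ 2) volume a b :=
  ScB_integrable_sq (Sec_measurable g X δ) (Sec_norm_le g X δ) a b

theorem Gw_sq_integrable (t : ℝ) (g : O → ℂ) (X δ a b : ℝ) :
    IntervalIntegrable (fun θ => ‖Gw t g X δ θ‖ ^ 2) volume a b :=
  ScB_integrable_sq (Gw_measurable t g X δ) (Gw_norm_le t g X δ) a b

/-- the Fourier transform of the window -/
noncomputable def kap (δ s : ℝ) : ℂ := ∫ x in (-δ)..0, e (s * x / per)

private theorem ScB_e_cont (s : ℝ) : Continuous fun x : ℝ => e (s * x / per) := by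
  unfold e
  fun_prop

theorem kap_shift (δ s u : ℝ) : ∫ x in (u - δ)..u, e (s * x / per) = e (s * u / per) * kap δ s := by
  have h1 : ∫ x in (u - δ)..u, e (s * x / per) = ∫ x in (-δ)..0, (fun y => e (s * y / per)) (x + u) := by
    rw [intervalIntegral.integral_comp_add_right (fun y => e (s * y / per)) u]
    congr 1 <;> ring
  rw [h1, kap, ← intervalIntegral.integral_const_mul]
  refine intervalIntegral.integral_congr fun x _ => ?_
  change e (s * (x + u) / per) = e (s * u / per) * e (s * x / per)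
  rw [← e_add]
  congr 1
  ring

theorem fourier_Gw (d : Dat) {X δ : ℝ} (hX : 0 < X) (hδ0 : 0 < δ) (hδ : δ < per) (n : ℤ) :
    fourierCoeffOn per_pos (fun θ => e (d.t * θ / per) * Gw d.t d.a X δ θ) n =
      (1 / per : ℝ) * (X * d.c (-n) X * kap δ (d.t - n)) := by
  have hP := per_pos
  rw [fourierCoeffOn_eq_integral, sub_zero, Complex.real_smul]
  congr 1
  have h1 : ∀ x : ℝ, (fourier (-n) (x : AddCircle (per - 0)) : ℂ) • (e (d.t * x / per) * Gw d.t d.a X δ x) =
      ∑ v ∈ V' X, d.a v * (e ((d.t - n) * x / per) * (win δ (An v) x + e (-d.t) * win δ (An v + per) x)) := by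
    intro x
    rw [fourier_coe_apply, smul_eq_mul, ← mul_assoc]
    have h2 : Complex.exp (2 * Real.pi * Complex.I * ((-n : ℤ) : ℂ) * (x : ℂ) / ((per - 0 : ℝ) : ℂ)) *
        e (d.t * x / per) = e ((d.t - n) * x / per) := by
      unfold e
      rw [← Complex.exp_add]
      congr 1
      have hP' : (per : ℂ) ≠ 0 := by exact_mod_cast hP.ne'
      push_cast
      rw [sub_zero]
      field_simp
      ring
    rw [h2, Gw, Finset.mul_sum]
    refine Finset.sum_congr rfl fun v _ => ?_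
    ring
  have hcomp : ∀ x : ℝ, (fourier (-n) (x : AddCircle per) : ℂ) = (fourier (-n) (x : AddCircle (per - 0)) : ℂ) := by
    intro x
    rw [fourier_coe_apply, fourier_coe_apply, sub_zero]
  have h3 : ∫ x in (0 : ℝ)..per, (fourier (-n) (x : AddCircle per) : ℂ) • (e (d.t * x / per) * Gw d.t d.a X δ x) =
      ∑ v ∈ V' X, d.a v * ∫ x in (0 : ℝ)..per, e ((d.t - n) * x / per) *
        (win δ (An v) x + e (-d.t) * win δ (An v + per) x) := by
    have h4 : ∫ x in (0 : ℝ)..per, (fourier (-n) (x : AddCircle per) : ℂ) • (e (d.t * x / per) * Gw d.t d.a X δ x) =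
        ∫ x in (0 : ℝ)..per, ∑ v ∈ V' X, d.a v * (e ((d.t - n) * x / per) *
          (win δ (An v) x + e (-d.t) * win δ (An v + per) x)) := by
      refine intervalIntegral.integral_congr fun x _ => ?_
      rw [hcomp x, h1 x]
    rw [h4, intervalIntegral.integral_finsetSum]
    · refine Finset.sum_congr rfl fun v _ => ?_
      rw [intervalIntegral.integral_const_mul]
    · intro v _
      refine (ScB_integrable (C := 2) ?_ ?_ 0 per).const_mul (d.a v)
      · exact (ScB_e_cont (d.t - n)).measurable.mul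
          ((win_measurable δ (An v)).add ((win_measurable δ (An v + per)).const_mul _))
      · intro x
        rw [norm_mul, norm_e, one_mul]
        refine (norm_add_le _ _).trans ?_
        rw [norm_mul, norm_e, one_mul]
        linarith [win_norm_le δ (An v) x, win_norm_le δ (An v + per) x]
  rw [h3]
  have h5 : ∀ v ∈ V' X, d.a v * ∫ x in (0 : ℝ)..per, e ((d.t - n) * x / per) *
        (win δ (An v) x + e (-d.t) * win δ (An v + per) x) = (d.a v * E d.t (-n) v) * kap δ (d.t - n) := by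
    intro v hv
    have hQ : Qd v := (mem_V'.1 hv).1.1
    rw [window (P := per) (f := fun x => e ((d.t - n) * x / per)) hQ.An_nonneg hQ.An_lt hδ0 hδ (ScB_e_cont _)
      (c := e (-d.t)) ?_, kap_shift, E, mul_assoc]
    · congr 3
      push_cast
      ring
    · intro x
      rw [← e_add]
      have h6 : -d.t + (d.t - n) * (x + per) / per = (d.t - n) * x / per + ((-n : ℤ) : ℝ) := by
        field_simp
        push_cast
        ring
      rw [h6, e_add, e_int, mul_one]
  rw [Finset.sum_congr rfl h5, ← Finset.sum_mul]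
  congr 1
  rw [Dat.c]
  have hX' : (X : ℂ) ≠ 0 := by exact_mod_cast hX.ne'
  push_cast
  field_simp

theorem par_le (d : Dat) {X δ M : ℝ} (hX : 0 < X) (hδ0 : 0 < δ) (hδ : δ < per)
    (h : ∀ s : Finset ℤ, ∑ j ∈ s, (X * ‖d.c j X‖) ^ 2 * ‖kap δ (d.t + j)‖ ^ 2 ≤ M) :
    ∫ x in (0 : ℝ)..per, ‖Gw d.t d.a X δ x‖ ^ 2 ≤ M := by
  have hP := per_pos
  have hM : 0 ≤ M := by simpa using h ∅
  set Φ : ℝ → ℂ := fun θ => e (d.t * θ / per) * Gw d.t d.a X δ θ with hΦ
  have hΦn : ∀ θ, ‖Φ θ‖ = ‖Gw d.t d.a X δ θ‖ := by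
    intro θ
    rw [hΦ]
    change ‖e (d.t * θ / per) * Gw d.t d.a X δ θ‖ = _
    rw [norm_mul, norm_e, one_mul]
  have hmeas : Measurable Φ := (ScB_e_cont d.t).measurable.mul (Gw_measurable d.t d.a X δ)
  have hmem : MemLp Φ 2 (volume.restrict (Set.Ioc 0 per)) := by
    refine MemLp.of_bound hmeas.aestronglyMeasurable (∑ v ∈ V' X, 2 * ‖d.a v‖) ?_
    refine Filter.Eventually.of_forall fun x => ?_
    rw [hΦn x]
    exact Gw_norm_le d.t d.a X δ x
  have hsum := hasSum_sq_fourierCoeffOn per_pos hmem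
  rw [sub_zero, smul_eq_mul] at hsum
  have h1 : ∀ n : ℤ, ‖fourierCoeffOn per_pos Φ n‖ ^ 2 =
      (per⁻¹) ^ 2 * ((X * ‖d.c (-n) X‖) ^ 2 * ‖kap δ (d.t - n)‖ ^ 2) := by
    intro n
    rw [hΦ, fourier_Gw d hX hδ0 hδ n, norm_mul, norm_mul, norm_mul, Complex.norm_real, Complex.norm_real,
      Real.norm_of_nonneg hX.le, Real.norm_of_nonneg (by positivity)]
    rw [one_div]
    ring
  have h2 : per⁻¹ * ∫ x in (0 : ℝ)..per, ‖Φ x‖ ^ 2 ≤ (per⁻¹) ^ 2 * M := by
    refine hasSum_le_of_sum_le hsum fun s => ?_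
    rw [Finset.sum_congr rfl fun n _ => h1 n, ← Finset.mul_sum]
    refine mul_le_mul_of_nonneg_left ?_ (by positivity)
    have h3 := h (s.map (Equiv.neg ℤ).toEmbedding)
    rw [Finset.sum_map] at h3
    refine le_trans (le_of_eq ?_) h3
    refine Finset.sum_congr rfl fun n _ => ?_
    change _ = (X * ‖d.c (-n) X‖) ^ 2 * ‖kap δ (d.t + ((-n : ℤ) : ℝ))‖ ^ 2
    rw [Int.cast_neg, ← sub_eq_add_neg]
  have h4 : ∫ x in (0 : ℝ)..per, ‖Φ x‖ ^ 2 = ∫ x in (0 : ℝ)..per, ‖Gw d.t d.a X δ x‖ ^ 2 := by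
    refine intervalIntegral.integral_congr fun x _ => ?_
    rw [hΦn x]
  rw [h4] at h2
  have h5 : ∫ x in (0 : ℝ)..per, ‖Gw d.t d.a X δ x‖ ^ 2 ≤ per⁻¹ * M := by
    have h6 := mul_le_mul_of_nonneg_left h2 hP.le
    rw [← mul_assoc, mul_inv_cancel₀ hP.ne', one_mul] at h6
    refine h6.trans (le_of_eq ?_)
    field_simp
  refine h5.trans ?_
  have h7 : per⁻¹ ≤ 1 := inv_le_one_of_one_le₀ one_lt_per.le
  exact mul_le_of_le_one_left hM h7

end Pool.Agent.Lib.MP_d57abb_nt.MR
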