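import Mathlib
import Pool.Agent.Lib.MP_d57abb_nt.MR.ScB

/-!
# The sector theorem

If the energy of the Fourier coefficients is small (`EB d`), then the sums of `d.a` over the primitive vectors in almost all
sectors of width `A / X` are small compared with `A`.
-/

namespace Pool.Agent.Lib.MP_d57abb_nt.MR

open Finset MeasureTheory
open Pool.Agent.Lib.MP_2a816b_nt (e Sep norm_e e_add e_int)

theorem kap_le {δ : ℝ} (hδ : 0 ≤ δ) (s : ℝ) : ‖kap δ s‖ ≤ δ := by
  unfold kap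
  refine (intervalIntegral.norm_integral_le_of_norm_le_const (C := 1) fun x _ => (norm_e _).le).trans ?_
  rw [zero_sub, neg_neg, abs_of_nonneg hδ, one_mul]

theorem kap_le' (δ : ℝ) {s : ℝ} (hs : s ≠ 0) : ‖kap δ s‖ ≤ 1 / |s| := by
  have hP := per_pos
  have hπ := Real.pi_gt_three
  set c : ℂ := ((2 * Real.pi * s / per : ℝ) : ℂ) * Complex.I with hc
  have hc0 : c ≠ 0 := by
    rw [hc]
    refine mul_ne_zero ?_ Complex.I_ne_zero
    have : (2 * Real.pi * s / per : ℝ) ≠ 0 := by positivity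
    exact_mod_cast this
  have hcn : ‖c‖ = 2 * Real.pi * |s| / per := by
    rw [hc, norm_mul, Complex.norm_I, mul_one, Complex.norm_real, Real.norm_eq_abs, abs_div, abs_mul, abs_mul,
      abs_of_pos hP, abs_of_pos Real.pi_pos, abs_of_pos (by norm_num : (0 : ℝ) < 2)]
  have h1 : kap δ s = (Complex.exp (c * ((0 : ℝ) : ℂ)) - Complex.exp (c * ((-δ : ℝ) : ℂ))) / c := by
    rw [← integral_exp_mul_complex hc0, kap]
    refine intervalIntegral.integral_congr fun x _ => ?_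
    unfold e
    congr 1
    rw [hc]
    push_cast
    ring
  have hunit : ∀ x : ℝ, ‖Complex.exp (c * (x : ℂ))‖ = 1 := by
    intro x
    have : c * (x : ℂ) = ((2 * Real.pi * s / per * x : ℝ) : ℂ) * Complex.I := by
      rw [hc]
      push_cast
      ring
    rw [this, Complex.norm_exp_ofReal_mul_I]
  have h2 : ‖kap δ s‖ ≤ 2 / ‖c‖ := by
    rw [h1, _root_.norm_div]
    refine div_le_div_of_nonneg_right ?_ (norm_nonneg _)
    refine (norm_sub_le _ _).trans ?_
    rw [hunit, hunit]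
    norm_num
  refine h2.trans ?_
  have hs' : 0 < |s| := abs_pos.2 hs
  rw [hcn, div_le_div_iff₀ (by positivity) hs']
  have h3 := per_lt_two
  rw [one_mul, le_div_iff₀ hP]
  nlinarith

theorem sum_norm_le (d : Dat) {C X : ℝ} (hC : ∀ Y : ℝ, 0 ≤ Y → ((V Y).card : ℝ) ≤ C * Y) (hX : 0 ≤ X) :
    ∑ v ∈ V' X, ‖d.a v‖ ^ 2 ≤ C * X := by
  have h1 : ∑ v ∈ V' X, ‖d.a v‖ ^ 2 ≤ ∑ v ∈ V' X, (1 : ℝ) := by
    refine Finset.sum_le_sum fun v _ => ?_
    have h2 := d.a_le v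
    have h3 := norm_nonneg (d.a v)
    nlinarith
  refine h1.trans ?_
  rw [Finset.sum_const, nsmul_eq_mul, mul_one]
  refine le_trans ?_ (hC X hX)
  exact_mod_cast Finset.card_le_card (V'_sub X)

theorem X_mul_c (d : Dat) {X : ℝ} (hX : 0 < X) (j : ℤ) :
    X * ‖d.c j X‖ = ‖∑ v ∈ V' X, d.a v * E d.t j v‖ := by
  rw [Dat.c, norm_mul, Complex.norm_real, Real.norm_of_nonneg (by positivity : (0 : ℝ) ≤ 1 / X), ← mul_assoc,
    mul_one_div_cancel hX.ne', one_mul]

/-- a dyadic block of the tail -/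
theorem tail_block (d : Dat) {C X R δ : ℝ} (hC0 : 0 ≤ C) (hC : ∀ Y : ℝ, 0 ≤ Y → ((V Y).card : ℝ) ≤ C * Y) (hX : 1 ≤ X)
    (hR : 1 ≤ R) (hRt : 2 * |d.t| ≤ R) :
    ∑ j ∈ (Fr (2 * R)) \ (Fr R), (X * ‖d.c j X‖) ^ 2 * ‖kap δ (d.t + j)‖ ^ 2 ≤
      144 * C * (X / R + X ^ 2 / R ^ 2) := by
  have hX0 : 0 < X := by linarith
  have hR0 : 0 < R := by linarith
  have h1 : ∀ j ∈ (Fr (2 * R)) \ (Fr R), (X * ‖d.c j X‖) ^ 2 * ‖kap δ (d.t + j)‖ ^ 2 ≤
      ‖∑ v ∈ V' X, d.a v * E d.t j v‖ ^ 2 * (4 / R ^ 2) := by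
    intro j hj
    rw [Finset.mem_sdiff, mem_Fr (by linarith : (0 : ℝ) ≤ R)] at hj
    have hj2 := not_le.1 hj.2
    rw [X_mul_c d hX0]
    refine mul_le_mul_of_nonneg_left ?_ (by positivity)
    have h2 : R / 2 ≤ |d.t + j| := by
      have h3 : |(j : ℝ)| ≤ |d.t + j| + |d.t| := by
        have h4 : (j : ℝ) = (d.t + j) - d.t := by ring
        calc |(j : ℝ)| = |(d.t + j) - d.t| := by rw [← h4]
          _ ≤ |d.t + j| + |d.t| := abs_sub _ _
      linarith
    have h5 : d.t + (j : ℝ) ≠ 0 := by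
      intro h6
      rw [h6, abs_zero] at h2
      linarith
    have h7 : ‖kap δ (d.t + j)‖ ≤ 2 / R := by
      refine (kap_le' δ h5).trans ?_
      rw [div_le_div_iff₀ (abs_pos.2 h5) hR0]
      linarith
    calc ‖kap δ (d.t + j)‖ ^ 2 ≤ (2 / R) ^ 2 := pow_le_pow_left₀ (norm_nonneg _) h7 2
      _ = 4 / R ^ 2 := by rw [div_pow]; norm_num
  refine (Finset.sum_le_sum h1).trans ?_
  rw [← Finset.sum_mul]
  have h2 : ∑ j ∈ (Fr (2 * R)) \ (Fr R), ‖∑ v ∈ V' X, d.a v * E d.t j v‖ ^ 2 ≤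
      9 * (2 * (2 * R) + 1 + 2 * X) * (C * X) := by
    refine (Finset.sum_le_sum_of_subset_of_nonneg (Finset.sdiff_subset) fun j _ _ => by positivity).trans ?_
    refine (ls d.t hX (by linarith : (0 : ℝ) ≤ 2 * R) d.a).trans ?_
    exact mul_le_mul_of_nonneg_left (sum_norm_le d hC hX0.le) (by positivity)
  have h3 : 9 * (2 * (2 * R) + 1 + 2 * X) * (C * X) ≤ 9 * (4 * R + 3 * X) * (C * X) := by
    refine mul_le_mul_of_nonneg_right ?_ (by positivity)
    linarith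
  calc (∑ j ∈ (Fr (2 * R)) \ (Fr R), ‖∑ v ∈ V' X, d.a v * E d.t j v‖ ^ 2) * (4 / R ^ 2)
      ≤ (9 * (4 * R + 3 * X) * (C * X)) * (4 / R ^ 2) :=
        mul_le_mul_of_nonneg_right (h2.trans h3) (by positivity)
    _ = 144 * C * (X / R) + 108 * C * (X ^ 2 / R ^ 2) := by
        field_simp
        ring
    _ ≤ 144 * C * (X / R + X ^ 2 / R ^ 2) := by
        rw [mul_add]
        have h4 : 0 ≤ C * (X ^ 2 / R ^ 2) := by positivity
        nlinarith

theorem tail_sum (d : Dat) {C X T δ : ℝ} (hC0 : 0 ≤ C) (hC : ∀ Y : ℝ, 0 ≤ Y → ((V Y).card : ℝ) ≤ C * Y) (hX : 1 ≤ X)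
    (hT : 1 ≤ T) (hTt : 2 * |d.t| ≤ T) (K : ℕ) :
    ∑ j ∈ Fr (2 ^ K * T), (X * ‖d.c j X‖) ^ 2 * ‖kap δ (d.t + j)‖ ^ 2 ≤
      ∑ j ∈ Fr T, (X * ‖d.c j X‖) ^ 2 * ‖kap δ (d.t + j)‖ ^ 2 +
        144 * C * (X / T + X ^ 2 / T ^ 2) * (2 * (1 - (1 / 2) ^ K)) := by
  have hX0 : 0 < X := by linarith
  have hT0 : 0 < T := by linarith
  induction K with
  | zero =>
    rw [pow_zero, one_mul, pow_zero, sub_self, mul_zero, mul_zero, add_zero]
  | succ K ih =>
    have h2K : (1 : ℝ) ≤ 2 ^ K := one_le_pow₀ (by norm_num)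
    have hR : 1 ≤ 2 ^ K * T := by nlinarith
    have hRT : T ≤ 2 ^ K * T := by nlinarith
    have h1 := tail_block d (δ := δ) hC0 hC hX hR (hTt.trans hRT)
    have h2 : (2 : ℝ) ^ (K + 1) * T = 2 * (2 ^ K * T) := by rw [pow_succ]; ring
    rw [h2]
    have hsub : Fr (2 ^ K * T) ⊆ Fr (2 * (2 ^ K * T)) := by
      intro j hj
      rw [mem_Fr (by linarith)] at hj ⊢
      linarith
    rw [← Finset.sum_sdiff hsub]
    have h3 : X / (2 ^ K * T) + X ^ 2 / (2 ^ K * T) ^ 2 ≤ (1 / 2) ^ K * (X / T + X ^ 2 / T ^ 2) := by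
      have h4 : X / (2 ^ K * T) = (1 / 2) ^ K * (X / T) := by
        rw [div_pow, one_pow]
        field_simp
      have h5 : X ^ 2 / (2 ^ K * T) ^ 2 = (1 / 2) ^ K * ((1 / 2) ^ K * (X ^ 2 / T ^ 2)) := by
        rw [div_pow, one_pow]
        field_simp
      have h6 : ((1 : ℝ) / 2) ^ K ≤ 1 := pow_le_one₀ (by norm_num) (by norm_num)
      rw [h4, h5, mul_add]
      refine add_le_add le_rfl (mul_le_mul_of_nonneg_left ?_ (by positivity))
      exact mul_le_of_le_one_left (by positivity) h6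
    have h7 : 144 * C * (X / (2 ^ K * T) + X ^ 2 / (2 ^ K * T) ^ 2) ≤
        144 * C * ((1 / 2) ^ K * (X / T + X ^ 2 / T ^ 2)) := mul_le_mul_of_nonneg_left h3 (by positivity)
    have h8 : 144 * C * (X / T + X ^ 2 / T ^ 2) * (2 * (1 - (1 / 2) ^ (K + 1))) =
        144 * C * ((1 / 2) ^ K * (X / T + X ^ 2 / T ^ 2)) +
          144 * C * (X / T + X ^ 2 / T ^ 2) * (2 * (1 - (1 / 2) ^ K)) := by
      rw [pow_succ]
      ring
    rw [h8]
    linarith

theorem energy_sum (d : Dat) {C X T δ : ℝ} (hC0 : 0 ≤ C) (hC : ∀ Y : ℝ, 0 ≤ Y → ((V Y).card : ℝ) ≤ C * Y)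
    (hX : 1 ≤ X) (hT : 1 ≤ T) (hTt : 2 * |d.t| ≤ T) (hδ : 0 ≤ δ) (s : Finset ℤ) :
    ∑ j ∈ s, (X * ‖d.c j X‖) ^ 2 * ‖kap δ (d.t + j)‖ ^ 2 ≤
      (X * δ) ^ 2 * ∑ j ∈ Fr T, ‖d.c j X‖ ^ 2 + 288 * C * (X / T + X ^ 2 / T ^ 2) := by
  have hX0 : 0 < X := by linarith
  have hT0 : 0 < T := by linarith
  -- a large dyadic block contains `s`
  obtain ⟨K, hK⟩ : ∃ K : ℕ, ∀ j ∈ s, |(j : ℝ)| ≤ 2 ^ K * T := by
    obtain ⟨M, hM⟩ : ∃ M : ℝ, ∀ j ∈ s, |(j : ℝ)| ≤ M :=
      ⟨∑ j ∈ s, |(j : ℝ)|, fun j hj => Finset.single_le_sum (f := fun j : ℤ => |(j : ℝ)|) (fun i _ => abs_nonneg _) hj⟩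
    obtain ⟨K, hK⟩ := pow_unbounded_of_one_lt M (by norm_num : (1 : ℝ) < 2)
    refine ⟨K, fun j hj => (hM j hj).trans ?_⟩
    have h1 : (0 : ℝ) < 2 ^ K := by positivity
    nlinarith
  have h1 : ∑ j ∈ s, (X * ‖d.c j X‖) ^ 2 * ‖kap δ (d.t + j)‖ ^ 2 ≤
      ∑ j ∈ Fr (2 ^ K * T), (X * ‖d.c j X‖) ^ 2 * ‖kap δ (d.t + j)‖ ^ 2 := by
    refine Finset.sum_le_sum_of_subset_of_nonneg ?_ fun j _ _ => by positivity
    intro j hj
    rw [mem_Fr (by positivity)]
    exact hK j hj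
  refine h1.trans ((tail_sum d hC0 hC hX hT hTt K).trans ?_)
  refine add_le_add ?_ ?_
  · rw [Finset.mul_sum]
    refine Finset.sum_le_sum fun j _ => ?_
    have h2 := kap_le hδ (d.t + j)
    calc (X * ‖d.c j X‖) ^ 2 * ‖kap δ (d.t + j)‖ ^ 2 ≤ (X * ‖d.c j X‖) ^ 2 * δ ^ 2 :=
          mul_le_mul_of_nonneg_left (pow_le_pow_left₀ (norm_nonneg _) h2 2) (by positivity)
      _ = (X * δ) ^ 2 * ‖d.c j X‖ ^ 2 := by ring
  · have h3 : (0 : ℝ) ≤ (1 / 2) ^ K := by positivity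
    have h4 : 0 ≤ 144 * C * (X / T + X ^ 2 / T ^ 2) := by positivity
    have h5 : 2 * (1 - (1 / 2 : ℝ) ^ K) ≤ 2 := by linarith
    calc 144 * C * (X / T + X ^ 2 / T ^ 2) * (2 * (1 - (1 / 2) ^ K))
        ≤ 144 * C * (X / T + X ^ 2 / T ^ 2) * 2 := mul_le_mul_of_nonneg_left h5 h4
      _ = 288 * C * (X / T + X ^ 2 / T ^ 2) := by ring

open Classical in
/-- few primitive vectors have a small angle -/
theorem card_small {X A : ℝ} (hX : 1 ≤ X) (hA : 0 ≤ A) :
    (((V' X).filter (fun v => An v < A / X)).card : ℝ) ≤ 2 * A + 1 := by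
  have hX0 : 0 < X := by linarith
  have hP := per_pos
  have h1 : ((V' X).filter (fun v => An v < A / X)).card ≤ (Finset.range (⌊2 * A⌋₊ + 1)).card := by
    refine Finset.card_le_card_of_injOn (fun v => ⌊2 * X * (An v / per)⌋₊) ?_ ?_
    · intro v hv
      have hv' := Finset.mem_filter.1 (Finset.mem_coe.1 hv)
      have h2 : 2 * X * (An v / per) ≤ 2 * A := by
        have h3 : An v / per ≤ An v := by
          have h0 : 0 ≤ An v := (mem_V'.1 hv'.1).1.1.An_nonneg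
          exact div_le_self h0 one_lt_per.le
        have h4 : X * An v ≤ A := by
          have := hv'.2.le
          rw [le_div_iff₀ hX0] at this
          linarith
        nlinarith
      refine Finset.mem_coe.2 (Finset.mem_range.2 ?_)
      exact Nat.lt_succ_of_le (Nat.floor_le_floor h2)
    · intro v hv w hw hvw
      have hv' := Finset.mem_filter.1 (Finset.mem_coe.1 hv)
      have hw' := Finset.mem_filter.1 (Finset.mem_coe.1 hw)
      by_contra hne
      have h2 := sep hX v hv'.1 w hw'.1 hne 0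
      rw [Int.cast_zero, sub_zero] at h2
      have hv0 : 0 ≤ 2 * X * (An v / per) := by
        have h0 : 0 ≤ An v := (mem_V'.1 hv'.1).1.1.An_nonneg
        positivity
      have hw0 : 0 ≤ 2 * X * (An w / per) := by
        have h0 : 0 ≤ An w := (mem_V'.1 hw'.1).1.1.An_nonneg
        positivity
      have h3 : |2 * X * (An v / per) - 2 * X * (An w / per)| < 1 := by
        have a1 := Nat.floor_le hv0
        have a2 := Nat.lt_floor_add_one (2 * X * (An v / per))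
        have a3 := Nat.floor_le hw0
        have a4 := Nat.lt_floor_add_one (2 * X * (An w / per))
        have a5 : ((⌊2 * X * (An v / per)⌋₊ : ℕ) : ℝ) = ((⌊2 * X * (An w / per)⌋₊ : ℕ) : ℝ) := by
          exact_mod_cast hvw
        rw [a5] at a1 a2
        rw [abs_lt]
        constructor <;> linarith
      rw [← mul_sub, abs_mul, abs_of_pos (by linarith : (0 : ℝ) < 2 * X)] at h3
      have h4 : 2 * X * (1 / (2 * X)) ≤ 2 * X * |An v / per - An w / per| :=
        mul_le_mul_of_nonneg_left h2 (by linarith)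
      rw [mul_one_div_cancel (by linarith)] at h4
      linarith
  rw [Finset.card_range] at h1
  have h2 : ((⌊2 * A⌋₊ : ℕ) : ℝ) ≤ 2 * A := Nat.floor_le (by linarith)
  have h3 : (((V' X).filter (fun v => An v < A / X)).card : ℝ) ≤ ((⌊2 * A⌋₊ + 1 : ℕ) : ℝ) := by exact_mod_cast h1
  push_cast at h3
  linarith

/-- the part which wraps around -/
theorem wrap_le (d : Dat) {X A : ℝ} (hX : 1 ≤ X) (hA : 0 < A) (hAX : A / X < per) :
    ∫ x in (0 : ℝ)..per, ‖∑ v ∈ V' X, d.a v * win (A / X) (An v + per) x‖ ^ 2 ≤ (A / X) * (2 * A + 1) ^ 2 := by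
  classical
  have hX0 : 0 < X := by linarith
  have hP := per_pos
  set δ := A / X with hδ
  have hδ0 : 0 < δ := div_pos hA hX0
  set Rf : ℝ → ℂ := fun x => ∑ v ∈ V' X, d.a v * win δ (An v + per) x with hRf
  have hmeas : Measurable Rf :=
    Finset.measurable_sum _ fun v _ => (win_measurable δ (An v + per)).const_mul (d.a v)
  have hbd : ∀ x, ‖Rf x‖ ≤ ((V' X).card : ℝ) := by
    intro x
    refine (norm_sum_le _ _).trans ?_
    have h1 : ∀ v ∈ V' X, ‖d.a v * win δ (An v + per) x‖ ≤ 1 := by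
      intro v _
      rw [norm_mul]
      exact mul_le_one₀ (d.a_le v) (norm_nonneg _) (win_norm_le _ _ _)
    refine (Finset.sum_le_sum h1).trans ?_
    rw [Finset.sum_const, nsmul_eq_mul, mul_one]
  have hint : ∀ a b : ℝ, IntervalIntegrable (fun x => ‖Rf x‖ ^ 2) volume a b := by
    intro a b
    refine IntervalIntegrable.mono_fun' (g := fun _ => ((V' X).card : ℝ) ^ 2) intervalIntegrable_const
      (hmeas.norm.pow_const 2).aestronglyMeasurable ?_
    refine Filter.Eventually.of_forall fun x => ?_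
    change ‖‖Rf x‖ ^ 2‖ ≤ _
    rw [norm_pow, norm_norm]
    exact pow_le_pow_left₀ (norm_nonneg _) (hbd x) 2
  change ∫ x in (0 : ℝ)..per, ‖Rf x‖ ^ 2 ≤ δ * (2 * A + 1) ^ 2
  rw [← intervalIntegral.integral_add_adjacent_intervals (hint 0 (per - δ)) (hint (per - δ) per)]
  have h1 : ∫ x in (0 : ℝ)..(per - δ), ‖Rf x‖ ^ 2 = 0 := by
    refine intervalIntegral.integral_zero_ae (Filter.Eventually.of_forall fun x hx => ?_)
    rw [Set.uIoc_of_le (by linarith)] at hx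
    have h2 : Rf x = 0 := by
      refine Finset.sum_eq_zero fun v hv => ?_
      have h0 : 0 ≤ An v := (mem_V'.1 hv).1.1.An_nonneg
      have h3 : ¬ (x ≤ An v + per ∧ An v + per < x + δ) := fun h4 => by linarith [h4.2, hx.2]
      rw [win, if_neg h3, mul_zero]
    rw [h2, norm_zero]
    norm_num
  have h2 : ∫ x in (per - δ)..per, ‖Rf x‖ ^ 2 ≤ ∫ x in (per - δ)..per, (2 * A + 1) ^ 2 := by
    refine intervalIntegral.integral_mono_on (by linarith) (hint _ _) intervalIntegrable_const fun x hx => ?_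
    refine pow_le_pow_left₀ (norm_nonneg _) ?_ 2
    refine le_trans ?_ (card_small hX hA.le)
    refine (norm_sum_le _ _).trans ?_
    have h3 : ∀ v ∈ V' X, ‖d.a v * win δ (An v + per) x‖ ≤ if An v < A / X then 1 else 0 := by
      intro v _
      by_cases h4 : An v < A / X
      · rw [if_pos h4, norm_mul]
        exact mul_le_one₀ (d.a_le v) (norm_nonneg _) (win_norm_le _ _ _)
      · rw [if_neg h4]
        have h5 : ¬ (x ≤ An v + per ∧ An v + per < x + δ) := fun h6 => by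
          apply h4
          have h7 := h6.2
          have h8 := hx.2
          rw [← hδ]
          linarith
        rw [win, if_neg h5, mul_zero, norm_zero]
    refine (Finset.sum_le_sum h3).trans (le_of_eq ?_)
    rw [Finset.card_filter]
    push_cast
    rfl
  rw [h1, zero_add]
  refine h2.trans (le_of_eq ?_)
  rw [intervalIntegral.integral_const, smul_eq_mul]
  ring

/-- the sector theorem -/
theorem sector (d : Dat) (hE : EB d) : ∀ ε : ℝ, 0 < ε → ∃ A0 : ℝ, ∀ A : ℝ, A0 ≤ A → ∃ X0 : ℝ, ∀ X : ℝ, X0 ≤ X →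
    ∫ θ in (0 : ℝ)..per, ‖Sec d.a X (A / X) θ‖ ^ 2 ≤ ε * A ^ 2 := by
  intro ε hε
  obtain ⟨C, hC1, hC⟩ := card_V_le
  have hC0 : 0 ≤ C := by linarith
  have hP := per_pos
  obtain ⟨A0', hA0'⟩ := hE (ε / 8) (by linarith)
  set B : ℝ := 1 + 2304 * C / ε with hB
  have hB1 : 1 ≤ B := by
    have : 0 ≤ 2304 * C / ε := by positivity
    linarith
  have hB0 : 0 < B := by linarith
  have hBC : 2304 * C ≤ ε * B := by
    rw [hB, mul_add, mul_div_cancel₀ _ hε.ne']
    linarith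
  refine ⟨max 1 (B * A0'), fun A hA => ?_⟩
  have hA1 : 1 ≤ A := le_trans (le_max_left _ _) hA
  have hA0 : 0 < A := by linarith
  have hAB : A0' ≤ A / B := by
    rw [le_div_iff₀ hB0, mul_comm]
    exact le_trans (le_max_right _ _) hA
  obtain ⟨X0', hX0'⟩ := hA0' (A / B) hAB
  refine ⟨max (max X0' (A + 1)) (max ((A / B) * (1 + 2 * |d.t|)) (8 * (2 * A + 1) ^ 2 / (ε * A))), fun X hX => ?_⟩
  have hXa : X0' ≤ X := (le_max_left _ _).trans ((le_max_left _ _).trans hX)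
  have hXb : A + 1 ≤ X := (le_max_right _ _).trans ((le_max_left _ _).trans hX)
  have hXc : (A / B) * (1 + 2 * |d.t|) ≤ X := (le_max_left _ _).trans ((le_max_right _ _).trans hX)
  have hXd : 8 * (2 * A + 1) ^ 2 / (ε * A) ≤ X := (le_max_right _ _).trans ((le_max_right _ _).trans hX)
  have hX1 : 1 ≤ X := by linarith
  have hX0 : 0 < X := by linarith
  have hABp : 0 < A / B := div_pos hA0 hB0
  have hT : 1 + 2 * |d.t| ≤ X / (A / B) := by
    rw [le_div_iff₀ hABp]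
    linarith
  have ht0 : 0 ≤ |d.t| := abs_nonneg _
  have hT1 : 1 ≤ X / (A / B) := by linarith
  have hδ0 : 0 < A / X := div_pos hA0 hX0
  have hδ1 : A / X < per := by
    have h1 : A / X < 1 := by
      rw [div_lt_one hX0]
      linarith
    exact h1.trans one_lt_per
  have henergy := hX0' X hXa
  -- the circle
  have hG : ∫ x in (0 : ℝ)..per, ‖Gw d.t d.a X (A / X) x‖ ^ 2 ≤ 3 / 8 * ε * A ^ 2 := by
    refine par_le d hX0 hδ0 hδ1 fun s => ?_
    refine (energy_sum d hC0 hC hX1 hT1 (by linarith) hδ0.le s).trans ?_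
    have h1 : X * (A / X) = A := mul_div_cancel₀ _ hX0.ne'
    have h2 : X / (X / (A / B)) = A / B := by field_simp
    have h3 : X ^ 2 / (X / (A / B)) ^ 2 = (A / B) ^ 2 := by
      rw [← div_pow, h2]
    rw [h1, h2, h3]
    have h4 : A ^ 2 * ∑ j ∈ Fr (X / (A / B)), ‖d.c j X‖ ^ 2 ≤ A ^ 2 * (ε / 8) :=
      mul_le_mul_of_nonneg_left henergy (by positivity)
    have h5 : A / B ≤ A ^ 2 / B := by
      refine div_le_div_of_nonneg_right ?_ hB0.le
      nlinarith
    have h6 : (A / B) ^ 2 ≤ A ^ 2 / B := by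
      rw [div_pow]
      refine div_le_div_of_nonneg_left (by positivity) hB0 ?_
      nlinarith
    have h7 : 288 * C * (A / B + (A / B) ^ 2) ≤ 288 * C * (A ^ 2 / B + A ^ 2 / B) :=
      mul_le_mul_of_nonneg_left (add_le_add h5 h6) (by positivity)
    have h8 : 288 * C * (A ^ 2 / B + A ^ 2 / B) ≤ 1 / 4 * ε * A ^ 2 := by
      have h9 : 288 * C * (A ^ 2 / B + A ^ 2 / B) = (576 * C) * A ^ 2 / B := by ring
      rw [h9, div_le_iff₀ hB0]
      have h10 : 0 ≤ A ^ 2 := by positivity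
      nlinarith
    linarith
  have hW := wrap_le d hX1 hA0 hδ1
  have hWs : (A / X) * (2 * A + 1) ^ 2 ≤ 1 / 8 * ε * A ^ 2 := by
    rw [div_le_iff₀ (by positivity)] at hXd
    rw [div_mul_eq_mul_div, div_le_iff₀ hX0]
    nlinarith
  set Rf : ℝ → ℂ := fun x => ∑ v ∈ V' X, d.a v * win (A / X) (An v + per) x with hRf
  have hRmeas : Measurable Rf :=
    Finset.measurable_sum _ fun v _ => (win_measurable (A / X) (An v + per)).const_mul (d.a v)
  have hRint : IntervalIntegrable (fun x => ‖Rf x‖ ^ 2) volume 0 per := by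
    refine IntervalIntegrable.mono_fun' (g := fun _ => ((V' X).card : ℝ) ^ 2) intervalIntegrable_const
      (hRmeas.norm.pow_const 2).aestronglyMeasurable ?_
    refine Filter.Eventually.of_forall fun x => ?_
    change ‖‖Rf x‖ ^ 2‖ ≤ _
    rw [norm_pow, norm_norm]
    refine pow_le_pow_left₀ (norm_nonneg _) ?_ 2
    refine (norm_sum_le _ _).trans ?_
    have h1 : ∀ v ∈ V' X, ‖d.a v * win (A / X) (An v + per) x‖ ≤ 1 := by
      intro v _
      rw [norm_mul]
      exact mul_le_one₀ (d.a_le v) (norm_nonneg _) (win_norm_le _ _ _)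
    refine (Finset.sum_le_sum h1).trans ?_
    rw [Finset.sum_const, nsmul_eq_mul, mul_one]
  have hdec : ∀ x, Sec d.a X (A / X) x = Gw d.t d.a X (A / X) x - e (-d.t) * Rf x := by
    intro x
    rw [Sec_eq, Gw, hRf, Finset.mul_sum, ← Finset.sum_sub_distrib]
    refine Finset.sum_congr rfl fun v _ => ?_
    ring
  have hpt : ∀ x, ‖Sec d.a X (A / X) x‖ ^ 2 ≤ 2 * ‖Gw d.t d.a X (A / X) x‖ ^ 2 + 2 * ‖Rf x‖ ^ 2 := by
    intro x
    rw [hdec x]
    have h1 : ‖Gw d.t d.a X (A / X) x - e (-d.t) * Rf x‖ ≤ ‖Gw d.t d.a X (A / X) x‖ + ‖Rf x‖ := by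
      refine (norm_sub_le _ _).trans ?_
      rw [norm_mul, norm_e, one_mul]
    have h2 := pow_le_pow_left₀ (norm_nonneg _) h1 2
    nlinarith [sq_nonneg (‖Gw d.t d.a X (A / X) x‖ - ‖Rf x‖)]
  have hGint := Gw_sq_integrable d.t d.a X (A / X) 0 per
  have hmono : ∫ x in (0 : ℝ)..per, ‖Sec d.a X (A / X) x‖ ^ 2 ≤
      ∫ x in (0 : ℝ)..per, (2 * ‖Gw d.t d.a X (A / X) x‖ ^ 2 + 2 * ‖Rf x‖ ^ 2) :=
    intervalIntegral.integral_mono_on hP.le (Sec_sq_integrable d.a X (A / X) 0 per)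
      ((hGint.const_mul 2).add (hRint.const_mul 2)) fun x _ => hpt x
  refine hmono.trans ?_
  rw [intervalIntegral.integral_add (hGint.const_mul 2) (hRint.const_mul 2), intervalIntegral.integral_const_mul,
    intervalIntegral.integral_const_mul]
  have hW' : ∫ x in (0 : ℝ)..per, ‖Rf x‖ ^ 2 ≤ 1 / 8 * ε * A ^ 2 := hW.trans hWs
  linarith

end Pool.Agent.Lib.MP_d57abb_nt.MR
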