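import Mathlib
import Pool.Agent.Lib.MP_d57abb_nt.MR.ScC
import Pool.Agent.Lib.MP_d57abb_nt.MR.ChDef

/-!
# The sector theorem in the form `SB`
-/

namespace Pool.Agent.Lib.MP_d57abb_nt.MR

open Finset

theorem Sec_eq_filter (g : O → ℂ) (X δ θ : ℝ) :
    Sec g X δ θ = ∑ v ∈ (V' X).filter (fun v => θ ≤ An v ∧ An v < θ + δ), g v := by
  unfold Sec
  refine Finset.sum_congr ?_ fun _ _ => rfl
  ext v
  simp only [Finset.mem_filter]

/-- the sector theorem -/
theorem sector_SB (d : Dat) (hE : EB d) : SB d := by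
  intro ε hε
  obtain ⟨A0, h⟩ := sector d hE ε hε
  refine ⟨A0, fun A hA => ?_⟩
  obtain ⟨X0, h'⟩ := h A hA
  refine ⟨X0, fun X hX => ?_⟩
  refine le_trans (le_of_eq ?_) (h' X hX)
  refine intervalIntegral.integral_congr fun θ _ => ?_
  rw [Sec_eq_filter]

end Pool.Agent.Lib.MP_d57abb_nt.MR
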