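import Mathlib
import Pool.Agent.Lib.MP_d57abb_nt.MR.En
import Pool.Agent.Lib.MP_d57abb_nt.MR.ScD
import Pool.Agent.Lib.MP_d57abb_nt.MR.ChL
import Pool.Agent.Lib.MP_d57abb_nt.MS.Defs

/-!
# MR: the theorem of Matomaki-Radziwill type for `z ^ Ω (x² + 3 x y + y²)` in thin sectors
-/

namespace Pool.Agent.Lib.MP_d57abb_nt.MR

open Finset

theorem eb (d : Dat) (h : NP d) : EB d := by
  intro ε hε
  obtain ⟨A0, _, hA0⟩ := energy d h hε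
  refine ⟨A0, fun A hA => ?_⟩
  obtain ⟨X0, _, hX0⟩ := hA0 A hA
  exact ⟨X0, hX0⟩

theorem MRz {z : ℂ} {q : ℕ} (hq0 : 0 < q) (hq : z ^ q = 1) (hz : z ≠ 1) {W : ℕ} (hW : 0 < W) {ε : ℝ} (hε : 0 < ε) :
    ∃ A0 : ℝ, ∀ A : ℝ, A0 ≤ A → ∃ X0 : ℝ, ∀ X : ℝ, X0 ≤ X → ∀ c1 c2 : ℤ,
      ∫ θ in (0 : ℝ)..per, ‖∑ v ∈ (V' X).filter (fun v => (θ ≤ An v ∧ An v < θ + A / X) ∧ v.re ≡ c1 [ZMOD W] ∧ v.im ≡ c2 [ZMOD W]),
        z ^ (ArithmeticFunction.cardFactors (N v).natAbs)‖ ^ 2 ≤ ε * A ^ 2 :=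
  MR (fun d hd => sector_SB d (eb d hd)) hq0 hq hz hW hε

theorem pp_eq (v : ℤ × ℤ) : pp v = s1 ⟨v.1, v.2⟩ := rfl

theorem qq_eq (v : ℤ × ℤ) : qq v = s2 ⟨v.1, v.2⟩ := rfl

theorem an_eq (v : ℤ × ℤ) : an v = An ⟨v.1, v.2⟩ := rfl

theorem TX_eq (z : ℂ) (X θ h : ℝ) {W : ℕ} (hW : 0 < W) (c : ℤ × ℤ) (h1 : c.1 % (W : ℤ) = c.1) (h2 : c.2 % (W : ℤ) = c.2) :
    MS.TX z X θ h W c =
      ∑ v ∈ (V' X).filter (fun v => (θ ≤ An v ∧ An v < θ + h) ∧ v.re ≡ c.1 [ZMOD W] ∧ v.im ≡ c.2 [ZMOD W]),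
        z ^ (ArithmeticFunction.cardFactors (N v).natAbs) := by
  unfold MS.TX
  refine Finset.sum_bij' (fun v _ => (⟨v.1, v.2⟩ : O)) (fun v _ => (v.re, v.im)) ?_ ?_ ?_ ?_ ?_
  · intro v hv
    rw [mem_filter, MS.mem_wn, MS.mem_VV] at hv
    obtain ⟨⟨⟨⟨⟨a1, a2⟩, a3, a4⟩, a5, a6⟩, a7, a8⟩, a9⟩ := hv
    rw [mem_filter, mem_V']
    have e1 := congrArg Prod.fst a9
    have e2 := congrArg Prod.snd a9
    simp only [MS.cls] at e1 e2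
    refine ⟨⟨⟨⟨a1, a3⟩, a6⟩, a5⟩, ⟨a7, a8⟩, ?_, ?_⟩
    · show v.1 % (W : ℤ) = c.1 % (W : ℤ)
      rw [e1, h1]
    · show v.2 % (W : ℤ) = c.2 % (W : ℤ)
      rw [e2, h2]
  · intro v hv
    rw [mem_filter, mem_V'] at hv
    obtain ⟨⟨⟨⟨a1, a3⟩, a6⟩, a5⟩, ⟨a7, a8⟩, b1, b2⟩ := hv
    rw [mem_filter, MS.mem_wn, MS.mem_VV]
    have hN : v.re ≤ N v ∧ v.im ≤ N v := by
      unfold N
      constructor <;> nlinarith [mul_nonneg (by linarith : (0 : ℤ) ≤ v.re - 1) a3]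
    have hfl : ∀ m : ℤ, m ≤ N v → m ≤ ⌊X⌋ := by
      intro m hm
      rw [Int.le_floor]
      exact le_trans (by exact_mod_cast hm) a6
    refine ⟨⟨⟨⟨⟨a1, hfl _ hN.1⟩, a3, hfl _ hN.2⟩, a5, a6⟩, a7, a8⟩, ?_⟩
    refine Prod.ext ?_ ?_
    · show v.re % (W : ℤ) = c.1
      rw [← h1]; exact b1
    · show v.im % (W : ℤ) = c.2
      rw [← h2]; exact b2
  · intro v _
    rfl
  · intro v _
    rfl
  · intro v _
    rfl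

/-- the input of the stream MS -/
theorem mrp {z : ℂ} {q : ℕ} (hq0 : 0 < q) (hq : z ^ q = 1) (hz : z ≠ 1) : MS.MRp z := by
  intro W hW ε hε
  obtain ⟨A0, hA0⟩ := MRz hq0 hq hz hW hε
  refine ⟨A0, fun A hA => ?_⟩
  obtain ⟨X0, hX0⟩ := hA0 A hA
  refine ⟨X0, fun X hX c => ?_⟩
  by_cases hc : c.1 % (W : ℤ) = c.1 ∧ c.2 % (W : ℤ) = c.2
  · refine le_trans (le_of_eq ?_) (hX0 X hX c.1 c.2)
    refine intervalIntegral.integral_congr fun θ _ => ?_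
    show ‖MS.TX z X θ (A / X) W c‖ ^ 2 = _
    rw [TX_eq z X θ (A / X) hW c hc.1 hc.2]
  · have h0 : ∀ θ : ℝ, MS.TX z X θ (A / X) W c = 0 := by
      intro θ
      unfold MS.TX
      apply Finset.sum_eq_zero
      intro v hv
      exfalso
      apply hc
      have h1 := (mem_filter.1 hv).2
      have hW' : (W : ℤ) ≠ 0 := by exact_mod_cast hW.ne'
      rw [← h1]
      exact ⟨Int.emod_emod_of_dvd _ dvd_rfl, Int.emod_emod_of_dvd _ dvd_rfl⟩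
    have e1 : (fun θ : ℝ => ‖MS.TX z X θ (A / X) W c‖ ^ 2) = fun _ => (0 : ℝ) := by
      funext θ
      rw [h0 θ]
      simp
    rw [e1]
    simp only [intervalIntegral.integral_zero]
    positivity

end Pool.Agent.Lib.MP_d57abb_nt.MR
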